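import Mathlib

open Finset

/-! The main theorem on linear forms, as a statement (helper536). -/

namespace Pool.Agent.H536.OC

/-- many `n` with `c n + d` prime, all `a_i n + b_i` free of small primes, and `a_{i0} n + b_{i0}` a product of at most three
primes, uniformly for all `c ≤ exp (δ T)` -/
def S_U3c : Prop := ∀ k : ℕ, ∃ δ ε T0 : ℝ, 0 < δ ∧ 0 < ε ∧ ∀ T : ℝ, T0 ≤ T →
  ∀ (c d : ℕ) (a b : Fin k → ℤ) (i0 : Fin k), 1 ≤ d → d ≤ c → (c : ℝ) ≤ Real.exp (δ * T) →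
  a i0 ≠ 0 → (c : ℤ) * b i0 ≠ d * a i0 → |((a i0 : ℤ) : ℝ)| ≤ Real.exp (T / 500) →
  |((b i0 : ℤ) : ℝ)| ≤ Real.exp (1019 / 1000 * T) →
  (∀ p : ℕ, p.Prime → ∃ n : ℕ, ¬ p ∣ c * n + d ∧ ∀ i, ¬ (p : ℤ) ∣ a i * n + b i) →
  ∃ S : Finset ℕ, Real.exp (98 / 100 * T) < S.card ∧ ∀ n ∈ S, (c * n + d).Prime ∧
    Real.exp (98 / 100 * T) < ((c * n + d : ℕ) : ℝ) ∧ ((c * n + d : ℕ) : ℝ) ≤ 3 * Real.exp (101 / 100 * T) ∧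
    (∀ i, ∀ p : ℕ, p.Prime → (p : ℝ) ≤ Real.exp (ε * T) → ¬ (p : ℤ) ∣ a i * n + b i) ∧
    (∀ p : ℕ, p.Prime → (p : ℝ) ≤ Real.exp (T / 9) → ¬ (p : ℤ) ∣ a i0 * n + b i0) ∧
    1 < (a i0 * n + b i0).natAbs ∧ ArithmeticFunction.cardFactors (a i0 * n + b i0).natAbs ≤ 3

end Pool.Agent.H536.OC
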