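import Mathlib
import Pool.Agent.H536.OC.Wc

open Finset Filter Topology

/-! Subtask (helper536). -/

namespace Pool.Agent.H536.OC

theorem tup_class {p : ℕ} (hp : p.Prime) {k : ℕ} (hk : k < p) (a b : Fin k → ℤ)
    (ha : ∀ i, ¬ (p : ℤ) ∣ a i) : ∃ n : ℕ, ∀ i, ¬ (p : ℤ) ∣ a i * n + b i := by
  by_contra h
  push Not at h
  choose f hf using h
  obtain ⟨x, hx, y, hy, hxy, he⟩ := Finset.exists_ne_map_eq_of_card_lt_of_maps_to (s := range p)
    (t := (univ : Finset (Fin k))) (f := f) (by simpa using hk) (fun _ _ => mem_univ _)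
  have h1 := hf x
  have h2 := hf y
  rw [← he] at h2
  have h3 : (p : ℤ) ∣ a (f x) * ((x : ℤ) - y) := by
    have h4 := dvd_sub h1 h2
    have h5 : a (f x) * (x : ℤ) + b (f x) - (a (f x) * (y : ℤ) + b (f x)) = a (f x) * ((x : ℤ) - y) := by ring
    rwa [h5] at h4
  rcases (Nat.prime_iff_prime_int.1 hp).dvd_or_dvd h3 with h4 | h4
  · exact ha _ h4
  · have hx' := mem_range.1 hx
    have hy' := mem_range.1 hy
    have h5 : (x : ℤ) - y = 0 := by
      apply Int.eq_zero_of_abs_lt_dvd h4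
      rw [abs_lt]
      constructor <;> omega
    apply hxy
    omega

theorem tup_nat {k : ℕ} (a b : Fin k → ℕ) {p : ℕ} (hp : p.Prime)
    (h : ∃ m : ℤ, ∀ i, ¬ ((p : ℤ) ∣ (a i : ℤ) * m + (b i : ℤ))) :
    ∃ n : ℕ, ∀ i, ¬ ((p : ℤ) ∣ (a i : ℤ) * n + (b i : ℤ)) := by
  obtain ⟨m, hm⟩ := h
  have hp0 : (p : ℤ) ≠ 0 := by exact_mod_cast hp.ne_zero
  refine ⟨(m % p).toNat, fun i hi => hm i ?_⟩
  have h1 : (((m % p).toNat : ℕ) : ℤ) = m % p := Int.toNat_of_nonneg (Int.emod_nonneg _ hp0)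
  rw [h1] at hi
  have h3 : (a i : ℤ) * m + b i = ((a i : ℤ) * (m % p) + b i) + (a i : ℤ) * (m - m % p) := by ring
  rw [h3]
  refine dvd_add hi (Dvd.dvd.mul_left ?_ _)
  exact ⟨m / p, by have := Int.emod_add_mul_ediv m p; linarith⟩

/-- admissibility with the dummy form -/
theorem tup_adm {k : ℕ} (a b : Fin k → ℕ)
    (h : ∀ p : ℕ, p.Prime → ∃ m : ℤ, ∀ i, ¬ ((p : ℤ) ∣ (a i : ℤ) * m + (b i : ℤ)))
    {p : ℕ} (hp : p.Prime) :
    ∃ n : ℕ, (∀ i, ¬ ((p : ℤ) ∣ (a i : ℤ) * n + (b i : ℤ))) ∧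
      ¬ ((p : ℤ) ∣ (((k + 3).factorial * ∏ i, a i : ℕ) : ℤ) * n + 1) := by
  by_cases hD : p ∣ (k + 3).factorial * ∏ i, a i
  · obtain ⟨n, hn⟩ := tup_nat a b hp (h p hp)
    refine ⟨n, hn, fun h1 => ?_⟩
    have h2 : (p : ℤ) ∣ (((k + 3).factorial * ∏ i, a i : ℕ) : ℤ) * n :=
      Dvd.dvd.mul_right (Int.natCast_dvd_natCast.2 hD) _
    have h3 : (p : ℤ) ∣ 1 := (dvd_add_right h2).1 h1
    have h4 : p ∣ 1 := by exact_mod_cast h3
    exact hp.one_lt.ne' (Nat.dvd_one.1 h4)
  · have h1 : k + 3 < p := by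
      by_contra hc
      exact hD (Dvd.dvd.mul_right ((hp.dvd_factorial).2 (by omega)) _)
    obtain ⟨n, hn⟩ := tup_class hp (k := k + 1) (by omega)
      (Fin.cons (((k + 3).factorial * ∏ i, a i : ℕ) : ℤ) (fun i => (a i : ℤ)) : Fin (k + 1) → ℤ)
      (Fin.cons 1 (fun i => (b i : ℤ)) : Fin (k + 1) → ℤ) (by
        intro i
        refine Fin.cases ?_ (fun i => ?_) i
        · rw [Fin.cons_zero]
          intro h2
          exact hD (Int.natCast_dvd_natCast.1 h2)
        · rw [Fin.cons_succ]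
          intro h2
          apply hD
          exact Dvd.dvd.mul_left ((Int.natCast_dvd_natCast.1 h2).trans (dvd_prod_of_mem a (mem_univ i))) _)
    refine ⟨n, fun i => ?_, ?_⟩
    · have := hn i.succ
      rwa [Fin.cons_succ, Fin.cons_succ] at this
    · have := hn 0
      rwa [Fin.cons_zero, Fin.cons_zero] at this

/-- the number of prime factors of a number without small prime factors -/
theorem tup_omega {m : ℕ} (hm : m ≠ 0) {y : ℝ} (h : ∀ p : ℕ, p.Prime → p ∣ m → y ≤ Real.log p) :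
    (ArithmeticFunction.cardFactors m : ℝ) * y ≤ Real.log m := by
  have h1 : ∀ l : List ℕ, (∀ p ∈ l, p ≠ 0 ∧ y ≤ Real.log p) → (l.length : ℝ) * y ≤ Real.log (l.prod : ℕ) := by
    intro l
    induction l with
    | nil => intro _; simp
    | cons p l ih =>
      intro hl
      have h2 := ih (fun q hq => hl q (List.mem_cons_of_mem _ hq))
      have h3 := hl p List.mem_cons_self
      have h4 : l.prod ≠ 0 := by
        intro h5
        rw [List.prod_eq_zero_iff] at h5
        exact (hl 0 (List.mem_cons_of_mem _ h5)).1 rfl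
      rw [List.length_cons, List.prod_cons, Nat.cast_mul, Real.log_mul (by exact_mod_cast h3.1)
        (by exact_mod_cast h4)]
      rw [Nat.cast_add, Nat.cast_one]
      linarith [h3.2]
  have h2 := h1 m.primeFactorsList (fun p hp => ⟨(Nat.prime_of_mem_primeFactorsList hp).ne_zero,
    h p (Nat.prime_of_mem_primeFactorsList hp) (Nat.dvd_of_mem_primeFactorsList hp)⟩)
  rw [Nat.prod_primeFactorsList hm] at h2
  rwa [ArithmeticFunction.cardFactors_apply]

theorem tup (h : S_U3c) : ∀ k : ℕ, ∃ A R γ : ℕ, 1 ≤ γ ∧ ∀ a b : Fin k → ℕ, (∀ i, 1 ≤ b i ∧ b i < a i) →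
    (∀ p : ℕ, p.Prime → ∃ m : ℤ, ∀ i, ¬ ((p : ℤ) ∣ (a i : ℤ) * m + (b i : ℤ))) → ∀ j l : Fin k,
    ∀ X : ℕ, γ * (∏ i, a i) ^ A ≤ X → ∃ S : Finset ℕ, (X : ℝ) ^ (97 / 100 : ℝ) ≤ S.card ∧ ∀ n ∈ S, n ≤ X ∧
      (a j * n + b j).Prime ∧ ArithmeticFunction.cardFactors (a l * n + b l) ≤ 3 ∧
      ∀ i, ArithmeticFunction.cardFactors (a i * n + b i) ≤ R := by
  intro k
  obtain ⟨δ, ε, T0, hδ, hε, hU⟩ := h (k + 1)
  set A : ℕ := max ⌈2 / δ⌉₊ 2000 with hA
  set R : ℕ := ⌈6 / ε⌉₊ with hR
  obtain ⟨E, hEd⟩ : ∃ E : ℕ, E = ⌈Real.exp (max (2 * T0) (3300 * Real.log 3))⌉₊ := ⟨_, rfl⟩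
  set γ : ℕ := (k + 3).factorial ^ A * E with hγ
  have hE : 1 ≤ E := by rw [hEd]; exact Nat.one_le_ceil_iff.2 (Real.exp_pos _)
  have hfac : 1 ≤ (k + 3).factorial := Nat.factorial_pos _
  have hfacA : 1 ≤ (k + 3).factorial ^ A := Nat.one_le_pow _ _ hfac
  refine ⟨A, R, γ, Nat.mul_pos hfacA hE, fun a b hab hadm j l X hX => ?_⟩
  set P : ℕ := ∏ i, a i with hP
  have hapos : ∀ i, 0 < a i := fun i => by have := hab i; omega
  have hP1 : 1 ≤ P := Finset.prod_pos fun i _ => hapos i
  have haP : ∀ i, a i ≤ P := fun i =>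
    Nat.le_of_dvd hP1 (dvd_prod_of_mem a (mem_univ i))
  have hPA : 1 ≤ P ^ A := Nat.one_le_pow _ _ hP1
  -- consequences of the size of `X`
  have hX2 : ((k + 3).factorial * P) ^ A ≤ X := by
    refine le_trans ?_ hX
    rw [mul_pow, hγ]
    calc (k + 3).factorial ^ A * P ^ A = (k + 3).factorial ^ A * 1 * P ^ A := by ring
      _ ≤ (k + 3).factorial ^ A * E * P ^ A := by gcongr
  have hX3 : E ≤ X := by
    refine le_trans ?_ hX
    rw [hγ]
    calc E = 1 * E * 1 := by ring
      _ ≤ (k + 3).factorial ^ A * E * P ^ A := by gcongr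
  have hX0 : 0 < X := lt_of_lt_of_le hE hX3
  have hX0' : (0 : ℝ) < X := by exact_mod_cast hX0
  obtain ⟨L, hL⟩ : ∃ L, L = Real.log X := ⟨_, rfl⟩
  have hlog3 : 0 < Real.log 3 := Real.log_pos (by norm_num)
  have hL4 : max (2 * T0) (3300 * Real.log 3) ≤ L := by
    rw [hL, Real.le_log_iff_exp_le hX0']
    refine (Nat.le_ceil _).trans ?_
    rw [← hEd]
    exact_mod_cast hX3
  have hL1 : 3300 * Real.log 3 ≤ L := (le_max_right _ _).trans hL4
  have hL3 : 2 * T0 ≤ L := (le_max_left _ _).trans hL4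
  have hApos : (0 : ℝ) < A := by
    have : 2000 ≤ A := le_max_right _ _
    have : 0 < A := by omega
    exact_mod_cast this
  have hDlog : (A : ℝ) * Real.log (((k + 3).factorial * P : ℕ) : ℝ) ≤ L := by
    rw [hL, ← Real.log_pow]
    have hpos : 0 < ((k + 3).factorial * P) ^ A := Nat.pow_pos (Nat.mul_pos hfac hP1)
    exact Real.log_le_log (by exact_mod_cast hpos) (by exact_mod_cast hX2)
  have hLpos : 0 < L := lt_of_lt_of_le (by positivity) hL1
  have hD0 : 0 ≤ Real.log (((k + 3).factorial * P : ℕ) : ℝ) := Real.log_natCast_nonneg _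
  have hD1 : 2000 * Real.log (((k + 3).factorial * P : ℕ) : ℝ) ≤ L := by
    have h1 : (2000 : ℝ) ≤ A := by
      have : 2000 ≤ A := le_max_right _ _
      exact_mod_cast this
    nlinarith
  have hD2 : 2 / δ * Real.log (((k + 3).factorial * P : ℕ) : ℝ) ≤ L := by
    have h1 : 2 / δ ≤ A := (Nat.le_ceil _).trans (by exact_mod_cast le_max_left _ _)
    nlinarith
  have hD3 : Real.log (((k + 3).factorial * P : ℕ) : ℝ) ≤ δ * L / 2 := by
    have h1 : 2 / δ * Real.log (((k + 3).factorial * P : ℕ) : ℝ) * δ ≤ L * δ :=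
      mul_le_mul_of_nonneg_right hD2 hδ.le
    have h2 : 2 / δ * Real.log (((k + 3).factorial * P : ℕ) : ℝ) * δ =
        2 * Real.log (((k + 3).factorial * P : ℕ) : ℝ) := by field_simp
    linarith
  obtain ⟨T, hT⟩ : ∃ T : ℝ, T = 100 / 101 * (L - Real.log 3) := ⟨_, rfl⟩
  have hT1 : L / 2 ≤ T := by rw [hT]; linarith
  have hT0 : 0 < T := by linarith
  have hTT : T0 ≤ T := by linarith
  have hDpos : (0 : ℝ) < (((k + 3).factorial * P : ℕ) : ℝ) := by
    exact_mod_cast Nat.mul_pos hfac hP1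
  have hDT : (((k + 3).factorial * P : ℕ) : ℝ) ≤ Real.exp (T / 500) := by
    rw [← Real.log_le_iff_le_exp hDpos]
    linarith
  have hDδ : (((k + 3).factorial * P : ℕ) : ℝ) ≤ Real.exp (δ * T) := by
    rw [← Real.log_le_iff_le_exp hDpos]
    have : δ * L / 2 ≤ δ * T := by nlinarith
    linarith
  have haD : ∀ i, (a i : ℝ) ≤ (((k + 3).factorial * P : ℕ) : ℝ) := fun i => by
    have h1 : a i ≤ (k + 3).factorial * P := (haP i).trans (Nat.le_mul_of_pos_left _ hfac)
    exact_mod_cast h1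
  have hexp1 : 3 * Real.exp (101 / 100 * T) = X := by
    have h1 : 101 / 100 * T = Real.log X - Real.log 3 := by rw [hT, ← hL]; ring
    rw [h1, Real.exp_sub, Real.exp_log hX0', Real.exp_log (by norm_num)]
    ring
  have hexp2 : (X : ℝ) ^ (97 / 100 : ℝ) ≤ Real.exp (98 / 100 * T) := by
    rw [Real.rpow_def_of_pos hX0', ← hL]
    apply Real.exp_le_exp.2
    rw [hT]
    linarith
  -- the system with one special form
  have key : ∀ s t : ℤ, s ≠ 0 → (a j : ℤ) * t ≠ b j * s → |(s : ℝ)| ≤ Real.exp (T / 500) →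
      |(t : ℝ)| ≤ Real.exp (1019 / 1000 * T) →
      (∀ p : ℕ, p.Prime → ∃ n : ℕ, (∀ i, ¬ ((p : ℤ) ∣ (a i : ℤ) * n + (b i : ℤ))) ∧
        ¬ ((p : ℤ) ∣ s * n + t)) →
      ∃ S : Finset ℕ, (X : ℝ) ^ (97 / 100 : ℝ) ≤ S.card ∧ ∀ n ∈ S, n ≤ X ∧
        (a j * n + b j).Prime ∧ ArithmeticFunction.cardFactors (s * n + t).natAbs ≤ 3 ∧
        ∀ i, ArithmeticFunction.cardFactors (a i * n + b i) ≤ R := by
    intro s t hs hst hsT htT hst2
    obtain ⟨S, hS1, hS2⟩ := hU T hTT (a j) (b j)
      (Fin.cons s (fun i => (a i : ℤ)) : Fin (k + 1) → ℤ) (Fin.cons t (fun i => (b i : ℤ)) : Fin (k + 1) → ℤ) 0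
      (hab j).1 (hab j).2.le ((haD j).trans hDδ) (by rwa [Fin.cons_zero])
      (by rwa [Fin.cons_zero, Fin.cons_zero]) (by rwa [Fin.cons_zero]) (by rwa [Fin.cons_zero]) (by
        intro p hp
        obtain ⟨n, hn, hn'⟩ := hst2 p hp
        refine ⟨n, fun h1 => hn j (by exact_mod_cast h1), fun i => ?_⟩
        refine Fin.cases ?_ (fun i => ?_) i
        · rwa [Fin.cons_zero, Fin.cons_zero]
        · rw [Fin.cons_succ, Fin.cons_succ]
          exact hn i)
    refine ⟨S, hexp2.trans hS1.le, fun n hn => ?_⟩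
    obtain ⟨h1, h2, h3, h4, h5, h6, h7⟩ := hS2 n hn
    have hcX : a j * n + b j ≤ X := by
      have : ((a j * n + b j : ℕ) : ℝ) ≤ X := by rw [← hexp1]; exact h3
      exact_mod_cast this
    have hnX : n ≤ X := by
      have := Nat.le_mul_of_pos_left n (hapos j)
      omega
    refine ⟨hnX, h1, by rwa [Fin.cons_zero, Fin.cons_zero] at h7, fun i => ?_⟩
    -- the number of the prime factors
    have hm0 : a i * n + b i ≠ 0 := by have := (hab i).1; omega
    have h8 : (ArithmeticFunction.cardFactors (a i * n + b i) : ℝ) * (ε * T) ≤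
        Real.log ((a i * n + b i : ℕ) : ℝ) := by
      apply tup_omega hm0
      intro p hp hpm
      by_contra hlt
      push Not at hlt
      have hp0 : (0 : ℝ) < p := by exact_mod_cast hp.pos
      have h9 : (p : ℝ) ≤ Real.exp (ε * T) := by
        rw [← Real.log_le_iff_le_exp hp0]; exact hlt.le
      have h10 := h4 i.succ p hp h9
      rw [Fin.cons_succ, Fin.cons_succ] at h10
      apply h10
      exact_mod_cast hpm
    have h9 : Real.log ((a i * n + b i : ℕ) : ℝ) ≤ 3 * L := by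
      have haX : a i ≤ X := by
        have h1 : a i ≤ P := haP i
        have h2 : P ≤ ((k + 3).factorial * P) ^ A := by
          calc P ≤ (k + 3).factorial * P := Nat.le_mul_of_pos_left _ hfac
            _ ≤ ((k + 3).factorial * P) ^ A := Nat.le_self_pow (by
              have : 2000 ≤ A := le_max_right _ _
              omega) _
        omega
      have h11 : a i * n + b i ≤ X ^ 3 := by
        have hb := (hab i).2
        calc a i * n + b i ≤ X * X + X := Nat.add_le_add (Nat.mul_le_mul haX hnX) (by omega)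
          _ ≤ X ^ 3 := by
            have h2X : 2 ≤ X := by
              by_contra hc
              have h1X : X = 1 := by omega
              rw [h1X, Nat.cast_one, Real.log_one] at hL
              linarith
            nlinarith [Nat.mul_le_mul h2X (Nat.le_refl (X * X))]
      have h12 : ((a i * n + b i : ℕ) : ℝ) ≤ (X : ℝ) ^ 3 := by exact_mod_cast h11
      have h13 : (0 : ℝ) < ((a i * n + b i : ℕ) : ℝ) := by exact_mod_cast Nat.pos_of_ne_zero hm0
      have h14 := Real.log_le_log h13 h12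
      rw [Real.log_pow] at h14
      rw [hL]
      exact_mod_cast h14
    have h10 : (ArithmeticFunction.cardFactors (a i * n + b i) : ℝ) ≤ 6 / ε := by
      rw [le_div_iff₀ hε]
      by_contra hc
      push Not at hc
      have h11 : 6 * T < ArithmeticFunction.cardFactors (a i * n + b i) * (ε * T) := by
        calc 6 * T < (ArithmeticFunction.cardFactors (a i * n + b i) * ε) * T :=
              mul_lt_mul_of_pos_right hc hT0
          _ = _ := by ring
      linarith
    have h11 : (ArithmeticFunction.cardFactors (a i * n + b i) : ℝ) ≤ R := h10.trans (Nat.le_ceil _)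
    exact_mod_cast h11
  have one_le : (1 : ℝ) ≤ Real.exp (1019 / 1000 * T) := Real.one_le_exp (by linarith)
  by_cases hjl : (a j : ℤ) * b l = b j * a l
  · -- the two forms coincide
    have hcop : ∀ i, Nat.Coprime (a i) (b i) := by
      intro i
      rw [Nat.coprime_iff_gcd_eq_one] 
      by_contra hg
      obtain ⟨p, hp, hpg⟩ := Nat.exists_prime_and_dvd hg
      obtain ⟨m, hm⟩ := hadm p hp
      apply hm i
      refine dvd_add (Dvd.dvd.mul_right ?_ _) ?_
      · exact_mod_cast hpg.trans (Nat.gcd_dvd_left _ _)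
      · exact_mod_cast hpg.trans (Nat.gcd_dvd_right _ _)
    have hjl' : a j * b l = b j * a l := by exact_mod_cast hjl
    have e1 : a j ∣ a l := by
      have : a j ∣ b j * a l := ⟨b l, hjl'.symm⟩
      exact (hcop j).dvd_of_dvd_mul_left this
    have e2 : a l ∣ a j := by
      have : a l ∣ b l * a j := ⟨b j, by rw [mul_comm, hjl', mul_comm]⟩
      exact (hcop l).dvd_of_dvd_mul_left this
    have e3 : a j = a l := Nat.dvd_antisymm e1 e2
    have e4 : b j = b l := by
      rw [e3] at hjl'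
      have := Nat.eq_of_mul_eq_mul_left (hapos l) (hjl'.trans (mul_comm _ _))
      exact this.symm
    obtain ⟨S, hS1, hS2⟩ := key (((k + 3).factorial * P : ℕ) : ℤ) 1 (by
        have := Nat.mul_pos hfac hP1
        exact_mod_cast this.ne') (by
        rw [mul_one]
        have h1 : a j < b j * ((k + 3).factorial * P) := by
          have h2 : 2 ≤ (k + 3).factorial :=
            le_trans (by norm_num [Nat.factorial]) (Nat.factorial_le (show 2 ≤ k + 3 by omega))
          calc a j < 2 * a j := by have := hapos j; omega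
            _ ≤ (k + 3).factorial * P := Nat.mul_le_mul h2 (haP j)
            _ ≤ b j * ((k + 3).factorial * P) := Nat.le_mul_of_pos_left _ (hab j).1
        intro h2
        have h3 : a j = b j * ((k + 3).factorial * P) := by exact_mod_cast h2
        omega) (by
        rw [Int.cast_natCast, abs_of_pos hDpos]
        exact hDT) (by
        rw [Int.cast_one, abs_one]
        exact one_le) (fun p hp => tup_adm a b hadm hp)
    refine ⟨S, hS1, fun n hn => ?_⟩
    obtain ⟨h1, h2, h3, h4⟩ := hS2 n hn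
    refine ⟨h1, h2, ?_, h4⟩
    rw [← e3, ← e4, ArithmeticFunction.cardFactors_apply_prime h2]
    norm_num
  · have hal : (0 : ℝ) ≤ a l := Nat.cast_nonneg _
    obtain ⟨S, hS1, hS2⟩ := key (a l) (b l) (by exact_mod_cast (hapos l).ne') hjl (by
        rw [Int.cast_natCast, abs_of_nonneg hal]
        exact (haD l).trans hDT) (by
        rw [Int.cast_natCast, abs_of_nonneg (Nat.cast_nonneg _)]
        have h1 : (b l : ℝ) ≤ a l := by exact_mod_cast (hab l).2.le
        refine h1.trans ((haD l).trans (hDT.trans (Real.exp_le_exp.2 ?_)))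
        linarith) (by
        intro p hp
        obtain ⟨n, hn⟩ := tup_nat a b hp (hadm p hp)
        exact ⟨n, hn, hn l⟩)
    refine ⟨S, hS1, fun n hn => ?_⟩
    obtain ⟨h1, h2, h3, h4⟩ := hS2 n hn
    refine ⟨h1, h2, ?_, h4⟩
    have h5 : ((a l : ℤ) * n + b l).natAbs = a l * n + b l := by
      have : ((a l : ℤ) * n + b l) = ((a l * n + b l : ℕ) : ℤ) := by push_cast; ring
      rw [this, Int.natAbs_natCast]
    rwa [h5] at h3

end Pool.Agent.H536.OC
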