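import Mathlib
import Pool.Agent.H536.OB.D2

open Finset Filter Topology

/-! The asymptotic formula for the series of a progression, up to one exceptional character. -/

namespace Pool.Agent.H536.OC

open Pool.Agent.H262R3.Lk
open Pool.Agent.H318R2.Cr (Rgh V)
open Pool.Agent.H536.OB

theorem asy (c1 : ℝ) (hc1 : 0 < c1) : ∃ C : ℝ, 0 < C ∧ ∀ (z q b : ℕ) (σ : ℝ), 32 ≤ z →
    1 ≤ q → q ^ 8 ≤ z → b.Coprime q → 0 < σ → σ * Real.log z ≤ 1 → ∀ E : Finset (DirichletCharacter ℂ q),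
    E.card ≤ 1 → (∀ χ ∈ E, χ ≠ 1) → (∀ χ : DirichletCharacter ℂ q, χ ≠ 1 → χ ∉ E → c1 ≤ ‖Lj z χ 0 σ‖) →
    ‖(((q.totient : ℝ) * Bj z q b 2 σ - Bj z 1 1 2 σ : ℝ) : ℂ) - ∑ χ ∈ E, χ ((b : ZMod q)⁻¹) * Dj z χ 2 σ‖ ≤
      C * (σ * Real.log z) / σ ^ 3 := by
  classical
  obtain ⟨Cd, hCd, hD⟩ := h_diff
  obtain ⟨Cb, hCb, hBnd⟩ := h_bnd
  obtain ⟨Cp, hCp, hP⟩ := h_pars
  set C' : ℝ := (Cd + Cb) + Cp + 3 * Cp / c1 + 2 * Cb * Cp / c1 with hC'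
  have hCb0 : 0 < Cb := by linarith
  have hCp0' : 0 < Cp := by linarith
  have hC'0 : 0 < C' := by positivity
  refine ⟨C', hC'0, ?_⟩
  intro z q b σ hz hq hqz hb hσ hσL E hE1 hE0 hχ
  have hL3 := COMB.log32 z hz
  set L := Real.log z with hL
  have hL0 : 0 < L := by linarith
  have hσ1 : σ ≤ 1 := by nlinarith
  have hqz' : q ≤ z := (Nat.le_self_pow (by norm_num) q).trans hqz
  have hφ : 0 < (q.totient : ℝ) := by exact_mod_cast Nat.totient_pos.2 hq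
  have hne : NeZero q := ⟨by omega⟩
  obtain ⟨o1, o2, o3, o4⟩ := h_ort z q b σ hz hq hqz' hb hσ
  obtain ⟨p1, p2, p3⟩ := hP z q σ hz hq hqz hσ hσL
  set X : Finset (DirichletCharacter ℂ q) := univ.filter (fun χ => χ ≠ 1) with hX
  have hXmem0 : ∀ χ ∈ X, χ ≠ 1 := fun χ h => (Finset.mem_filter.1 h).2
  have hEX : E ⊆ X := fun χ h => Finset.mem_filter.2 ⟨Finset.mem_univ _, hE0 χ h⟩
  set X' : Finset (DirichletCharacter ℂ q) := X \ E with hX'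
  have hX'X : X' ⊆ X := Finset.sdiff_subset
  have hXmem : ∀ χ ∈ X', χ ≠ 1 := fun χ h => hXmem0 χ (hX'X h)
  have hXmem1 : ∀ χ ∈ X', χ ∉ E := fun χ h => (Finset.mem_sdiff.1 h).2
  have hbu : IsUnit ((b : ZMod q)⁻¹) := by
    have h1 : IsUnit (b : ZMod q) := (ZMod.isUnit_iff_coprime b q).2 hb
    obtain ⟨u, hu⟩ := h1
    rw [← hu, ZMod.inv_coe_unit]
    exact Units.isUnit _
  have hsplit : ∀ F : DirichletCharacter ℂ q → ℂ,
      ∑ χ : DirichletCharacter ℂ q, χ ((b : ZMod q)⁻¹) * F χ =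
        F 1 + ∑ χ ∈ X, χ ((b : ZMod q)⁻¹) * F χ := by
    intro F
    rw [← Finset.sum_filter_add_sum_filter_not univ
      (fun χ : DirichletCharacter ℂ q => χ ≠ 1), ← hX]
    have h1 : univ.filter (fun χ : DirichletCharacter ℂ q => ¬ χ ≠ 1) = {1} := by
      ext χ
      simp
    rw [h1, Finset.sum_singleton, MulChar.one_apply hbu, one_mul, add_comm]
  have hsplit1 : ∀ F : DirichletCharacter ℂ q → ℂ,
      ∑ χ ∈ X, χ ((b : ZMod q)⁻¹) * F χ = ∑ χ ∈ E, χ ((b : ZMod q)⁻¹) * F χ + ∑ χ ∈ X', χ ((b : ZMod q)⁻¹) * F χ := by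
    intro F
    rw [hX', add_comm, Finset.sum_sdiff hEX]
  -- algebra for each character
  have hD0 : ∀ χ ∈ X', Dj z χ 0 σ = Lj z χ 1 σ * Mj z χ σ := by
    intro χ _
    obtain ⟨a1, a2, _⟩ := h_alg z q χ σ hz hσ
    rw [a2, mul_assoc, mul_comm (Lj z χ 0 σ), a1, mul_one]
  have hD2 : ∀ χ ∈ X', Dj z χ 2 σ = Lj z χ 3 σ + (Lj z χ 3 σ * (Mj z χ σ - 1) -
      3 * Dj z χ 0 σ * Lj z χ 2 σ * Mj z χ σ + 2 * (Dj z χ 0 σ) ^ 3) := by
    intro χ _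
    obtain ⟨a1, _, a3⟩ := h_alg z q χ σ hz hσ
    have h1 : Dj z χ 2 σ = Dj z χ 2 σ * Lj z χ 0 σ * Mj z χ σ := by
      rw [mul_assoc, mul_comm (Lj z χ 0 σ), a1, mul_one]
    rw [h1, a3]
    have h2 : 2 * (Dj z χ 0 σ) ^ 3 * Lj z χ 0 σ * Mj z χ σ = 2 * (Dj z χ 0 σ) ^ 3 := by
      rw [mul_assoc, mul_comm (Lj z χ 0 σ), a1, mul_one]
    linear_combination h2
  have hMn : ∀ χ ∈ X', ‖Mj z χ σ‖ ≤ 1 / c1 := by
    intro χ hx
    obtain ⟨a1, _, _⟩ := h_alg z q χ σ hz hσ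
    have h1 := congrArg norm a1
    rw [norm_mul, norm_one] at h1
    have h2 := hχ χ (hXmem χ hx) (hXmem1 χ hx)
    rw [le_div_iff₀ hc1]
    calc ‖Mj z χ σ‖ * c1 ≤ ‖Mj z χ σ‖ * ‖Lj z χ 0 σ‖ :=
          mul_le_mul_of_nonneg_left h2 (norm_nonneg _)
      _ = 1 := h1
  have hχn : ∀ χ : DirichletCharacter ℂ q, ‖χ ((b : ZMod q)⁻¹)‖ ≤ 1 :=
    fun χ => DirichletCharacter.norm_le_one χ _
  -- (a)
  have hbL3 : ‖∑ χ ∈ E, χ ((b : ZMod q)⁻¹) * Lj z χ 3 σ‖ ≤ Cb * L ^ 3 := by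
    have h0 : ∀ χ ∈ E, ‖χ ((b : ZMod q)⁻¹) * Lj z χ 3 σ‖ ≤ Cb * L ^ 3 := by
      intro χ hχE
      rw [norm_mul]
      have := (hBnd z q χ σ hz hq hqz hσ hσL).1 (hE0 χ hχE) 3 le_rfl
      exact (mul_le_of_le_one_left (norm_nonneg _) (hχn χ)).trans this
    refine (norm_sum_le _ _).trans ((Finset.sum_le_sum h0).trans ?_)
    rw [Finset.sum_const, nsmul_eq_mul]
    have : ((E.card : ℕ) : ℝ) ≤ 1 := by exact_mod_cast hE1
    exact mul_le_of_le_one_left (by positivity) this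
  have ha0 : ‖∑ χ ∈ X, χ ((b : ZMod q)⁻¹) * Lj z χ 3 σ‖ ≤ Cd * L ^ 3 := by
    have h1 := hsplit (fun χ => Lj z χ 3 σ)
    rw [← o2] at h1
    have h2 : ∑ χ ∈ X, χ ((b : ZMod q)⁻¹) * Lj z χ 3 σ =
        (((q.totient : ℝ) * Aj z q b 3 σ -
          ∑ b' ∈ (range q).filter (fun b' => b'.Coprime q), Aj z q b' 3 σ : ℝ) : ℂ) := by
      push_cast
      rw [h1, o3]
      push_cast
      ring
    rw [h2, Complex.norm_real, Real.norm_eq_abs]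
    have hcard : ((range q).filter (fun b' => b'.Coprime q)).card = q.totient := by
      rw [Nat.totient_eq_card_coprime]
      congr 1
      ext x
      simp only [Finset.mem_filter, Nat.coprime_comm]
    have h3 : (q.totient : ℝ) * Aj z q b 3 σ -
        ∑ b' ∈ (range q).filter (fun b' => b'.Coprime q), Aj z q b' 3 σ =
        ∑ b' ∈ (range q).filter (fun b' => b'.Coprime q), (Aj z q b 3 σ - Aj z q b' 3 σ) := by
      rw [Finset.sum_sub_distrib, Finset.sum_const, hcard, nsmul_eq_mul]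
    rw [h3]
    refine (Finset.abs_sum_le_sum_abs _ _).trans ?_
    have h4 : ∑ b' ∈ (range q).filter (fun b' => b'.Coprime q), |Aj z q b 3 σ - Aj z q b' 3 σ| ≤
        ∑ b' ∈ (range q).filter (fun b' => b'.Coprime q), Cd * L ^ 3 / q.totient := by
      refine Finset.sum_le_sum fun b' hb' => ?_
      exact hD z q b b' 3 σ hz hq hqz hb (Finset.mem_filter.1 hb').2 (le_refl _) hσ hσ1
    refine h4.trans (le_of_eq ?_)
    rw [Finset.sum_const, hcard, nsmul_eq_mul]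
    field_simp
  have ha : ‖∑ χ ∈ X', χ ((b : ZMod q)⁻¹) * Lj z χ 3 σ‖ ≤ (Cd + Cb) * L ^ 3 := by
    have h1 := hsplit1 (fun χ => Lj z χ 3 σ)
    have h2 : ∑ χ ∈ X', χ ((b : ZMod q)⁻¹) * Lj z χ 3 σ =
        ∑ χ ∈ X, χ ((b : ZMod q)⁻¹) * Lj z χ 3 σ - ∑ χ ∈ E, χ ((b : ZMod q)⁻¹) * Lj z χ 3 σ := by rw [h1]; ring
    rw [h2]
    refine (norm_sub_le _ _).trans ?_
    linarith
  have hp3 : ∑ χ ∈ X', ‖Lj z χ 3 σ‖ ^ 2 ≤ Cp * L ^ (3 * 2) := by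
    have h := p1 3 (by norm_num) (le_refl _)
    rw [show 2 * 3 = 3 * 2 from rfl] at h
    refine le_trans (Finset.sum_le_sum_of_subset_of_nonneg hX'X fun _ _ _ => by positivity) ?_
    refine le_trans (le_of_eq ?_) h
    rw [hX]
    congr
  have hp2 : ∑ χ ∈ X', ‖Lj z χ 2 σ‖ ^ 2 ≤ Cp * L ^ (2 * 2) := by
    have h := p1 2 (by norm_num) (by norm_num)
    refine le_trans (Finset.sum_le_sum_of_subset_of_nonneg hX'X fun _ _ _ => by positivity) ?_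
    refine le_trans (le_of_eq ?_) h
    rw [hX]
    congr
  have hCp0 : 0 ≤ Cp := by linarith
  -- (b)
  have hbb : ∑ χ ∈ X', ‖Lj z χ 3 σ‖ * ‖Mj z χ σ - 1‖ ≤ (√Cp * L ^ 3) * (√Cp / (σ * L)) := by
    refine COMB.cs X' _ _ (by positivity) (by positivity) ?_ ?_
    · rw [mul_pow, Real.sq_sqrt hCp0, ← pow_mul]
      exact hp3
    · rw [div_pow, Real.sq_sqrt hCp0]
      refine le_trans ?_ p3
      exact Finset.sum_le_sum_of_subset_of_nonneg (Finset.subset_univ _)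
        (fun χ _ _ => by positivity)
  -- (c)
  have hcc : ∑ χ ∈ X', ‖Dj z χ 0 σ‖ * ‖Lj z χ 2 σ‖ ≤ (√Cp / σ) * (√Cp * L ^ 2) := by
    refine COMB.cs X' _ _ (by positivity) (by positivity) ?_ ?_
    · rw [div_pow, Real.sq_sqrt hCp0]
      refine le_trans ?_ p2
      exact Finset.sum_le_sum_of_subset_of_nonneg (Finset.subset_univ _)
        (fun χ _ _ => by positivity)
    · rw [mul_pow, Real.sq_sqrt hCp0, ← pow_mul]
      exact hp2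
  -- (d)
  have hdd : ∑ χ ∈ X', ‖Dj z χ 0 σ‖ ^ 3 ≤ (Cb * L / c1) * (Cp / σ ^ 2) := by
    have h1 : ∀ χ ∈ X', ‖Dj z χ 0 σ‖ ^ 3 ≤ (Cb * L / c1) * ‖Dj z χ 0 σ‖ ^ 2 := by
      intro χ hx
      have h2 : ‖Dj z χ 0 σ‖ ≤ Cb * L / c1 := by
        rw [hD0 χ hx, norm_mul]
        have h3 := (hBnd z q χ σ hz hq hqz hσ hσL).1 (hXmem χ hx) 1 (by norm_num)
        rw [pow_one] at h3
        calc ‖Lj z χ 1 σ‖ * ‖Mj z χ σ‖ ≤ (Cb * L) * (1 / c1) :=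
              mul_le_mul h3 (hMn χ hx) (norm_nonneg _) (by positivity)
          _ = _ := by ring
      calc ‖Dj z χ 0 σ‖ ^ 3 = ‖Dj z χ 0 σ‖ * ‖Dj z χ 0 σ‖ ^ 2 := by ring
        _ ≤ _ := mul_le_mul_of_nonneg_right h2 (by positivity)
    refine (Finset.sum_le_sum h1).trans ?_
    rw [← Finset.mul_sum]
    refine mul_le_mul_of_nonneg_left ?_ (by positivity)
    refine le_trans ?_ p2
    exact Finset.sum_le_sum_of_subset_of_nonneg (Finset.subset_univ _)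
      (fun χ _ _ => by positivity)
  -- total error
  have herr : ‖∑ χ ∈ X', χ ((b : ZMod q)⁻¹) * Dj z χ 2 σ‖ ≤ (Cd + Cb) * L ^ 3 + Cp * L ^ 2 / σ +
      3 / c1 * (Cp * L ^ 2 / σ) + 2 * ((Cb * L / c1) * (Cp / σ ^ 2)) := by
    have h1 : ∑ χ ∈ X', χ ((b : ZMod q)⁻¹) * Dj z χ 2 σ = ∑ χ ∈ X', χ ((b : ZMod q)⁻¹) * Lj z χ 3 σ +
        ∑ χ ∈ X', χ ((b : ZMod q)⁻¹) * (Lj z χ 3 σ * (Mj z χ σ - 1) -
          3 * Dj z χ 0 σ * Lj z χ 2 σ * Mj z χ σ + 2 * (Dj z χ 0 σ) ^ 3) := by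
      rw [← Finset.sum_add_distrib]
      refine Finset.sum_congr rfl fun χ hx => ?_
      rw [hD2 χ hx]
      ring
    rw [h1]
    refine (norm_add_le _ _).trans ?_
    have h2 : ‖∑ χ ∈ X', χ ((b : ZMod q)⁻¹) * (Lj z χ 3 σ * (Mj z χ σ - 1) -
          3 * Dj z χ 0 σ * Lj z χ 2 σ * Mj z χ σ + 2 * (Dj z χ 0 σ) ^ 3)‖ ≤
        ∑ χ ∈ X', (‖Lj z χ 3 σ‖ * ‖Mj z χ σ - 1‖ + 3 / c1 * (‖Dj z χ 0 σ‖ * ‖Lj z χ 2 σ‖) +
          2 * ‖Dj z χ 0 σ‖ ^ 3) := by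
      refine (norm_sum_le _ _).trans (Finset.sum_le_sum fun χ hx => ?_)
      rw [norm_mul]
      refine (mul_le_of_le_one_left (norm_nonneg _) (hχn χ)).trans ?_
      refine (norm_add_le _ _).trans (add_le_add ((norm_sub_le _ _).trans (add_le_add ?_ ?_)) ?_)
      · rw [norm_mul]
      · rw [norm_mul, norm_mul, norm_mul]
        have h3 : ‖(3 : ℂ)‖ = 3 := by simp
        rw [h3]
        calc 3 * ‖Dj z χ 0 σ‖ * ‖Lj z χ 2 σ‖ * ‖Mj z χ σ‖ ≤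
              3 * ‖Dj z χ 0 σ‖ * ‖Lj z χ 2 σ‖ * (1 / c1) :=
              mul_le_mul_of_nonneg_left (hMn χ hx) (by positivity)
          _ = _ := by ring
      · rw [norm_mul, norm_pow]
        have h3 : ‖(2 : ℂ)‖ = 2 := by simp
        rw [h3]
    have h3 := h2
    rw [Finset.sum_add_distrib, Finset.sum_add_distrib, ← Finset.mul_sum, ← Finset.mul_sum] at h3
    have e1 : (√Cp * L ^ 3) * (√Cp / (σ * L)) = Cp * L ^ 2 / σ := by
      calc (√Cp * L ^ 3) * (√Cp / (σ * L)) = (√Cp * √Cp) * L ^ 3 / (σ * L) := by ring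
        _ = Cp * L ^ 3 / (σ * L) := by rw [Real.mul_self_sqrt hCp0]
        _ = Cp * L ^ 2 / σ := by field_simp
    have e2 : (√Cp / σ) * (√Cp * L ^ 2) = Cp * L ^ 2 / σ := by
      calc (√Cp / σ) * (√Cp * L ^ 2) = (√Cp * √Cp) * L ^ 2 / σ := by ring
        _ = Cp * L ^ 2 / σ := by rw [Real.mul_self_sqrt hCp0]
    rw [e1] at hbb
    rw [e2] at hcc
    have h4 : 3 / c1 * ∑ χ ∈ X', ‖Dj z χ 0 σ‖ * ‖Lj z χ 2 σ‖ ≤ 3 / c1 * (Cp * L ^ 2 / σ) :=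
      mul_le_mul_of_nonneg_left hcc (by positivity)
    linarith
  -- comparison
  have hE : (Cd + Cb) * L ^ 3 + Cp * L ^ 2 / σ + 3 / c1 * (Cp * L ^ 2 / σ) +
      2 * ((Cb * L / c1) * (Cp / σ ^ 2)) ≤ C' * (σ * L) / σ ^ 3 := by
    have hu0 : 0 ≤ σ * L := by positivity
    have g1 : L ^ 3 ≤ (σ * L) / σ ^ 3 := by
      rw [le_div_iff₀ (by positivity)]
      have : L ^ 3 * σ ^ 3 = (σ * L) ^ 3 := by ring
      rw [this]
      calc (σ * L) ^ 3 ≤ (σ * L) ^ 1 := pow_le_pow_of_le_one hu0 hσL (by norm_num)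
        _ = σ * L := pow_one _
    have g2 : L ^ 2 / σ ≤ (σ * L) / σ ^ 3 := by
      rw [div_le_div_iff₀ hσ (by positivity)]
      have : L ^ 2 * σ ^ 3 = (σ * L) ^ 2 * σ := by ring
      rw [this]
      refine mul_le_mul_of_nonneg_right ?_ hσ.le
      calc (σ * L) ^ 2 ≤ (σ * L) ^ 1 := pow_le_pow_of_le_one hu0 hσL (by norm_num)
        _ = σ * L := pow_one _
    have g3 : L / σ ^ 2 ≤ (σ * L) / σ ^ 3 := by
      apply le_of_eq
      field_simp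
    calc (Cd + Cb) * L ^ 3 + Cp * L ^ 2 / σ + 3 / c1 * (Cp * L ^ 2 / σ) +
        2 * ((Cb * L / c1) * (Cp / σ ^ 2)) = (Cd + Cb) * L ^ 3 + Cp * (L ^ 2 / σ) +
          3 * Cp / c1 * (L ^ 2 / σ) + 2 * Cb * Cp / c1 * (L / σ ^ 2) := by ring
      _ ≤ (Cd + Cb) * ((σ * L) / σ ^ 3) + Cp * ((σ * L) / σ ^ 3) + 3 * Cp / c1 * ((σ * L) / σ ^ 3) +
          2 * Cb * Cp / c1 * ((σ * L) / σ ^ 3) := by
          gcongr
      _ = C' * (σ * L) / σ ^ 3 := by rw [hC']; ring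
  -- final
  have h1 := hsplit (fun χ => Dj z χ 2 σ)
  rw [← o1, o4, hsplit1 (fun χ => Dj z χ 2 σ)] at h1
  have h2 : (((q.totient : ℝ) * Bj z q b 2 σ - Bj z 1 1 2 σ : ℝ) : ℂ) - ∑ χ ∈ E, χ ((b : ZMod q)⁻¹) * Dj z χ 2 σ =
      ∑ χ ∈ X', χ ((b : ZMod q)⁻¹) * Dj z χ 2 σ := by
    push_cast
    rw [h1]
    ring
  rw [h2]
  exact herr.trans hE

end Pool.Agent.H536.OC
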