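import Mathlib

open Finset Filter Topology

/-! Karamata's method: comparison of two measures with close Laplace transforms. -/

namespace Pool.Agent.H536.OC

/-- the kernel of the transform -/
noncomputable def ker (τ : ℝ) (n : ℕ) : ℝ := (Real.log n) ^ 2 / (n : ℝ) ^ (1 + τ)

theorem ker_nonneg (τ : ℝ) (n : ℕ) : 0 ≤ ker τ n := by unfold ker; positivity

/-- the transform -/
noncomputable def LT (m : ℕ → ℝ) (τ : ℝ) : ℝ := ∑' n : ℕ, m n * ker τ n

/-- the integral of a test function -/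
noncomputable def TF (m : ℕ → ℝ) (σ : ℝ) (g : ℝ → ℝ) : ℝ := ∑' n : ℕ, m n * ker σ n * g ((n : ℝ) ^ (-σ))

theorem xn_mem {σ : ℝ} (hσ : 0 < σ) (n : ℕ) : (n : ℝ) ^ (-σ) ∈ Set.Icc (0 : ℝ) 1 := by
  constructor
  · positivity
  · rcases Nat.eq_zero_or_pos n with h | h
    · rw [h, Nat.cast_zero, Real.zero_rpow (by linarith)]
      norm_num
    · exact Real.rpow_le_one_of_one_le_of_nonpos (by exact_mod_cast h) (by linarith)

theorem ker_mul_pow {σ : ℝ} (n j : ℕ) : ker σ n * ((n : ℝ) ^ (-σ)) ^ j = ker (((j : ℝ) + 1) * σ) n := by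
  unfold ker
  rcases Nat.eq_zero_or_pos n with h | h
  · rw [h]
    simp
  · have hn : (0 : ℝ) < n := by exact_mod_cast h
    have e1 : ((n : ℝ) ^ (-σ)) ^ j = (n : ℝ) ^ (-σ * j) := by
      rw [Real.rpow_mul hn.le, Real.rpow_natCast]
    rw [e1, div_eq_mul_inv, div_eq_mul_inv, ← Real.rpow_neg hn.le,
      ← Real.rpow_neg hn.le, mul_assoc, ← Real.rpow_add hn]
    congr 2
    ring

theorem kar (g : ℝ → ℝ) (hg : ContinuousOn g (Set.Icc 0 1)) (ε : ℝ) (hε : 0 < ε) : ∃ (J : ℕ) (Cp : ℝ), 0 < Cp ∧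
    ∀ (m1 m2 : ℕ → ℝ) (σ D B : ℝ), 0 < σ → (∀ n, 0 ≤ m1 n) → (∀ n, 0 ≤ m2 n) →
    (∀ j < J, Summable (fun n => m1 n * ker (((j : ℝ) + 1) * σ) n) ∧ Summable (fun n => m2 n * ker (((j : ℝ) + 1) * σ) n)) →
    LT m1 σ ≤ B → LT m2 σ ≤ B → (∀ j < J, |LT m1 (((j : ℝ) + 1) * σ) - LT m2 (((j : ℝ) + 1) * σ)| ≤ D) →
    |TF m1 σ g - TF m2 σ g| ≤ ε * B + Cp * D := by
  obtain ⟨p, hp⟩ := exists_polynomial_near_of_continuousOn 0 1 g hg (ε / 2) (by positivity)
  obtain ⟨K, hK⟩ := isCompact_Icc.exists_bound_of_continuousOn hg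
  refine ⟨p.natDegree + 1, (∑ j ∈ range (p.natDegree + 1), |p.coeff j|) + 1, by positivity, ?_⟩
  intro m1 m2 σ D B hσ h1 h2 hs hB1 hB2 hD
  have hD0 : 0 ≤ D := (abs_nonneg _).trans (hD 0 (by omega))
  -- one measure
  have one : ∀ m : ℕ → ℝ, (∀ n, 0 ≤ m n) → (∀ j < p.natDegree + 1, Summable (fun n => m n * ker (((j : ℝ) + 1) * σ) n)) →
      LT m σ ≤ B → |TF m σ g - ∑ j ∈ range (p.natDegree + 1), p.coeff j * LT m (((j : ℝ) + 1) * σ)| ≤ ε / 2 * B := by
    intro m hm hsm hB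
    have hs0 : Summable (fun n => m n * ker σ n) := by
      have := hsm 0 (by omega)
      simpa using this
    have hpoly : ∀ n : ℕ, m n * ker σ n * p.eval ((n : ℝ) ^ (-σ)) =
        ∑ j ∈ range (p.natDegree + 1), p.coeff j * (m n * ker (((j : ℝ) + 1) * σ) n) := by
      intro n
      rw [Polynomial.eval_eq_sum_range, mul_sum]
      apply sum_congr rfl
      intro j _
      rw [← ker_mul_pow]
      ring
    have hsp : Summable (fun n => m n * ker σ n * p.eval ((n : ℝ) ^ (-σ))) := by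
      simp_rw [hpoly]
      apply summable_sum
      intro j hj
      exact (hsm j (mem_range.1 hj)).mul_left _
    have hsg : Summable (fun n => m n * ker σ n * g ((n : ℝ) ^ (-σ))) := by
      apply Summable.of_norm_bounded (g := fun n => m n * ker σ n * K) (hs0.mul_right K)
      intro n
      rw [norm_mul, Real.norm_of_nonneg (mul_nonneg (hm n) (ker_nonneg σ n))]
      exact mul_le_mul_of_nonneg_left (hK _ (xn_mem hσ n)) (mul_nonneg (hm n) (ker_nonneg σ n))
    have hsum : ∑ j ∈ range (p.natDegree + 1), p.coeff j * LT m (((j : ℝ) + 1) * σ) =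
        ∑' n, m n * ker σ n * p.eval ((n : ℝ) ^ (-σ)) := by
      simp_rw [hpoly]
      rw [Summable.tsum_finsetSum (fun j hj => (hsm j (mem_range.1 hj)).mul_left _)]
      apply sum_congr rfl
      intro j _
      unfold LT
      rw [tsum_mul_left]
    rw [hsum]
    unfold TF
    rw [← hsg.tsum_sub hsp]
    have hb : ∀ n, ‖m n * ker σ n * g ((n : ℝ) ^ (-σ)) - m n * ker σ n * p.eval ((n : ℝ) ^ (-σ))‖ ≤ (m n * ker σ n) * (ε / 2) := by
      intro n
      rw [← mul_sub, norm_mul, Real.norm_of_nonneg (mul_nonneg (hm n) (ker_nonneg σ n)), Real.norm_eq_abs]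
      apply mul_le_mul_of_nonneg_left _ (mul_nonneg (hm n) (ker_nonneg σ n))
      rw [abs_sub_comm]
      exact (hp _ (xn_mem hσ n)).le
    rw [← Real.norm_eq_abs]
    refine (tsum_of_norm_bounded (hs0.mul_right (ε / 2)).hasSum hb).trans ?_
    rw [tsum_mul_right]
    unfold LT at hB
    rw [mul_comm]
    exact mul_le_mul_of_nonneg_left hB (by positivity)
  have k1 := one m1 h1 (fun j hj => (hs j hj).1) hB1
  have k2 := one m2 h2 (fun j hj => (hs j hj).2) hB2
  have k3 : |∑ j ∈ range (p.natDegree + 1), p.coeff j * LT m1 (((j : ℝ) + 1) * σ) -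
      ∑ j ∈ range (p.natDegree + 1), p.coeff j * LT m2 (((j : ℝ) + 1) * σ)| ≤
      (∑ j ∈ range (p.natDegree + 1), |p.coeff j|) * D := by
    rw [← sum_sub_distrib, sum_mul]
    refine (abs_sum_le_sum_abs _ _).trans (sum_le_sum fun j hj => ?_)
    rw [← mul_sub, abs_mul]
    exact mul_le_mul_of_nonneg_left (hD j (mem_range.1 hj)) (abs_nonneg _)
  have k4 : (∑ j ∈ range (p.natDegree + 1), |p.coeff j|) * D ≤ ((∑ j ∈ range (p.natDegree + 1), |p.coeff j|) + 1) * D := by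
    nlinarith
  have k5 : TF m1 σ g - TF m2 σ g = (TF m1 σ g - ∑ j ∈ range (p.natDegree + 1), p.coeff j * LT m1 (((j : ℝ) + 1) * σ)) +
      (∑ j ∈ range (p.natDegree + 1), p.coeff j * LT m1 (((j : ℝ) + 1) * σ) -
      ∑ j ∈ range (p.natDegree + 1), p.coeff j * LT m2 (((j : ℝ) + 1) * σ)) -
      (TF m2 σ g - ∑ j ∈ range (p.natDegree + 1), p.coeff j * LT m2 (((j : ℝ) + 1) * σ)) := by ring
  rw [k5]
  refine (abs_sub _ _).trans ?_
  refine (add_le_add (abs_add_le _ _) le_rfl).trans ?_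
  linarith

end Pool.Agent.H536.OC
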