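import Mathlib
import Pool.Agent.H536.OC.C2
import Pool.Graph.R_seed8.H262R3.Lk.Defs

open Finset Filter Topology

/-! The window: a smooth average of scales. -/

namespace Pool.Agent.H536.OC

open Pool.Agent.H378R2 Pool.Agent.H262R3.Lk

/-- the tent in the logarithmic variable -/
noncomputable def Psi (u : ℝ) : ℝ := Real.exp u * max 0 (1 / 2 - |u - 1 / 2|)

theorem Psi_nonneg (u : ℝ) : 0 ≤ Psi u := mul_nonneg (Real.exp_pos _).le (le_max_left _ _)

theorem Psi_zero {u : ℝ} (h : u ≤ 0 ∨ 1 ≤ u) : Psi u = 0 := by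
  unfold Psi
  have : 1 / 2 - |u - 1 / 2| ≤ 0 := by
    rcases h with h | h
    · rw [abs_of_nonpos (by linarith)]; linarith
    · rw [abs_of_nonneg (by linarith)]; linarith
  rw [max_eq_left this, mul_zero]

theorem Psi_lip {x y : ℝ} (hx : x ≤ 2) (hy : y ≤ 2) : |Psi x - Psi y| ≤ 20 * |x - y| := by
  have he2 : Real.exp 2 ≤ 8 := by
    have h1 := Real.exp_one_lt_d9
    have h2 : Real.exp 2 = Real.exp 1 * Real.exp 1 := by rw [← Real.exp_add]; norm_num
    rw [h2]
    nlinarith [Real.exp_pos 1]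
  wlog hxy : y ≤ x with H
  · have := H hy hx he2 (le_of_lt (not_le.1 hxy))
    rwa [abs_sub_comm, abs_sub_comm y x] at this
  unfold Psi
  set tx := max 0 (1 / 2 - |x - 1 / 2|) with htx
  set ty := max 0 (1 / 2 - |y - 1 / 2|) with hty
  have h1 : |tx - ty| ≤ |x - y| := by
    rw [htx, hty, max_comm 0, max_comm 0]
    refine (abs_max_sub_max_le_abs _ _ _).trans ?_
    have : (1 / 2 - |x - 1 / 2|) - (1 / 2 - |y - 1 / 2|) = |y - 1 / 2| - |x - 1 / 2| := by ring
    rw [this]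
    refine (abs_abs_sub_abs_le _ _).trans ?_
    rw [show y - 1 / 2 - (x - 1 / 2) = -(x - y) by ring, abs_neg]
  have h2 : 0 ≤ ty := le_max_left _ _
  have h3 : ty ≤ 1 / 2 := by
    rw [hty]
    apply max_le (by norm_num)
    linarith [abs_nonneg (y - 1 / 2)]
  have hex : Real.exp x ≤ 8 := (Real.exp_le_exp.2 hx).trans he2
  have h4 : |Real.exp x - Real.exp y| ≤ 8 * |x - y| := by
    rw [abs_of_nonneg (by linarith [Real.exp_le_exp.2 hxy]), abs_of_nonneg (by linarith)]
    have h5 := Real.add_one_le_exp (y - x)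
    have h6 : Real.exp y = Real.exp x * Real.exp (y - x) := by rw [← Real.exp_add]; congr 1; ring
    rw [h6]
    have h7 : 0 < Real.exp x := Real.exp_pos x
    nlinarith
  have h5 : Real.exp x * tx - Real.exp y * ty = Real.exp x * (tx - ty) + (Real.exp x - Real.exp y) * ty := by ring
  rw [h5]
  refine (abs_add_le _ _).trans ?_
  rw [abs_mul, abs_mul, abs_of_pos (Real.exp_pos x), abs_of_nonneg h2]
  have h6 : Real.exp x * |tx - ty| ≤ 8 * |x - y| := mul_le_mul hex h1 (abs_nonneg _) (by norm_num)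
  have h7 : |Real.exp x - Real.exp y| * ty ≤ (8 * |x - y|) * (1 / 2) := mul_le_mul h4 h3 h2 (by positivity)
  nlinarith [abs_nonneg (x - y)]

theorem Psi_le (u : ℝ) : Psi u ≤ 8 := by
  by_cases h : u ≤ 0 ∨ 1 ≤ u
  · rw [Psi_zero h]; norm_num
  · push Not at h
    have := Psi_lip (x := u) (y := 0) (by linarith) (by norm_num)
    rw [Psi_zero (Or.inl le_rfl), sub_zero, sub_zero, abs_of_nonneg (Psi_nonneg u), abs_of_pos h.1] at this
    unfold Psi
    have h1 : Real.exp u ≤ 3 := by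
      refine (Real.exp_le_exp.2 h.2.le).trans ?_
      linarith [Real.exp_one_lt_d9]
    have h2 : max 0 (1 / 2 - |u - 1 / 2|) ≤ 1 := max_le (by norm_num) (by linarith [abs_nonneg (u - 1 / 2)])
    calc _ ≤ 3 * (1 : ℝ) := mul_le_mul h1 h2 (le_max_left _ _) (by norm_num)
      _ ≤ 8 := by norm_num

theorem Phi_Psi {n : ℕ} (hn : 1 ≤ n) (y : ℝ) : Phi (n / Real.exp y) * n = Real.exp y * Psi (Real.log n - y) := by
  have hn0 : (0 : ℝ) < n := by exact_mod_cast hn
  unfold Phi Psi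
  rw [Real.log_div hn0.ne' (Real.exp_pos _).ne', Real.log_exp, ← mul_assoc, ← Real.exp_add, add_sub_cancel,
    Real.exp_log hn0, mul_comm]

/-- the window -/
noncomputable def GG (v : ℝ) : ℝ := max 0 (1 / 200 - |v - 1 - 1 / 200|)

theorem GG_nonneg (v : ℝ) : 0 ≤ GG v := le_max_left _ _

theorem GG_zero {v : ℝ} (h : v ≤ 1 ∨ 101 / 100 ≤ v) : GG v = 0 := by
  unfold GG
  apply max_eq_left
  rcases h with h | h
  · rw [abs_of_nonpos (by linarith)]; linarith
  · rw [abs_of_nonneg (by linarith)]; linarith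

theorem GG_le (v : ℝ) : GG v ≤ 1 / 200 := by
  unfold GG
  apply max_le (by norm_num)
  linarith [abs_nonneg (v - 1 - 1 / 200)]

theorem GG_lip (x y : ℝ) : |GG x - GG y| ≤ |x - y| := by
  unfold GG
  rw [max_comm 0, max_comm 0]
  refine (abs_max_sub_max_le_abs _ _ _).trans ?_
  have : (1 / 200 - |x - 1 - 1 / 200|) - (1 / 200 - |y - 1 - 1 / 200|) = |y - 1 - 1 / 200| - |x - 1 - 1 / 200| := by ring
  rw [this]
  refine (abs_abs_sub_abs_le _ _).trans ?_
  rw [show y - 1 - 1 / 200 - (x - 1 - 1 / 200) = -(x - y) by ring, abs_neg]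

/-- the weights of the scales -/
noncomputable def wI (N : ℕ) (T : ℝ) (i : ℕ) : ℝ := (1 / (N : ℝ)) * GG (i / (N * T)) / Real.exp (i / N)

theorem wI_nonneg (N : ℕ) (T : ℝ) (i : ℕ) : 0 ≤ wI N T i :=
  div_nonneg (mul_nonneg (by positivity) (GG_nonneg _)) (Real.exp_pos _).le

theorem wI_ne {N : ℕ} {T : ℝ} {i : ℕ} (hN : 0 < N) (hT : 0 < T) (h : wI N T i ≠ 0) : T < i / (N : ℝ) ∧ (i : ℝ) / N < 101 / 100 * T := by
  have hN0 : (0 : ℝ) < N := by exact_mod_cast hN
  have h1 : GG (i / (N * T)) ≠ 0 := by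
    intro h0
    apply h
    unfold wI
    rw [h0, mul_zero, zero_div]
  have h2 : ¬ ((i : ℝ) / (N * T) ≤ 1 ∨ 101 / 100 ≤ (i : ℝ) / (N * T)) := fun h => h1 (GG_zero h)
  push Not at h2
  have e : (i : ℝ) / (N * T) = (i / N) / T := by rw [div_div]
  rw [e, lt_div_iff₀ hT, div_lt_iff₀ hT] at h2
  exact ⟨by linarith [h2.1], h2.2⟩

/-- the number of scales -/
noncomputable def NI (N : ℕ) (T : ℝ) : ℕ := 2 * N * ⌈T⌉₊

theorem NI_gt {N : ℕ} {T : ℝ} {i : ℕ} (hN : 0 < N) (hT : 1 ≤ T) (h : (i : ℝ) / N ≤ 101 / 100 * T) : i < NI N T := by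
  have hN0 : (0 : ℝ) < N := by exact_mod_cast hN
  rw [div_le_iff₀ hN0] at h
  have h1 : (T : ℝ) ≤ ⌈T⌉₊ := Nat.le_ceil T
  have h2 : (i : ℝ) < 2 * N * ⌈T⌉₊ := by
    calc (i : ℝ) ≤ 101 / 100 * T * N := h
      _ < 2 * T * N := by nlinarith
      _ ≤ 2 * N * ⌈T⌉₊ := by nlinarith
  unfold NI
  exact_mod_cast h2

/-- the kernel -/
noncomputable def KN (N : ℕ) (T : ℝ) (n : ℕ) : ℝ := ∑ i ∈ range (NI N T), wI N T i * Phi (n / Real.exp (i / N))

theorem KN_nonneg (N : ℕ) (T : ℝ) (n : ℕ) : 0 ≤ KN N T n :=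
  sum_nonneg fun i _ => mul_nonneg (wI_nonneg N T i) (le_max_left _ _)

theorem KN_mul {N : ℕ} {T : ℝ} {n : ℕ} (hn : 1 ≤ n) :
    KN N T n * n = ∑ i ∈ range (NI N T), (1 / (N : ℝ)) * GG (i / (N * T)) * Psi (Real.log n - i / N) := by
  unfold KN
  rw [sum_mul]
  apply sum_congr rfl
  intro i _
  rw [mul_assoc, Phi_Psi hn]
  unfold wI
  have := (Real.exp_pos ((i : ℝ) / N)).ne'
  field_simp

theorem KN_zero {N : ℕ} {T : ℝ} {n : ℕ} (hN : 0 < N) (hT : 0 < T) (hn : 1 ≤ n)
    (h : Real.log n ≤ T ∨ 101 / 100 * T + 1 ≤ Real.log n) : KN N T n = 0 := by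
  have hn0 : (0 : ℝ) < n := by exact_mod_cast hn
  have h0 : KN N T n * n = 0 := by
    rw [KN_mul hn]
    apply sum_eq_zero
    intro i _
    by_cases hw : wI N T i = 0
    · have : GG (i / (N * T)) = 0 := by
        unfold wI at hw
        have h1 := (Real.exp_pos ((i : ℝ) / N)).ne'
        have hN0 : (0 : ℝ) < N := by exact_mod_cast hN
        rcases div_eq_zero_iff.1 hw with h2 | h2
        · rcases mul_eq_zero.1 h2 with h3 | h3
          · exfalso
            have : (0 : ℝ) < 1 / N := by positivity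
            linarith
          · exact h3
        · exact absurd h2 h1
      rw [this]
      simp
    · obtain ⟨h1, h2⟩ := wI_ne hN hT hw
      rw [Psi_zero (by
        rcases h with h | h
        · left; linarith
        · right; linarith), mul_zero]
  rcases mul_eq_zero.1 h0 with h | h
  · exact h
  · exact absurd h hn0.ne'

/-- the reference Riemann sum -/
noncomputable def kap (N : ℕ) : ℝ := ∑ j ∈ range (N + 1), (1 / (N : ℝ)) * Psi (j / N)

theorem kap_low {N' : ℕ} (h : 0 < N') : 1 / 8 ≤ kap (4 * N') := by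
  unfold kap
  have hN0 : (0 : ℝ) < ((4 * N' : ℕ) : ℝ) := by positivity
  have h1 : ∑ j ∈ Icc N' (3 * N'), (1 / ((4 * N' : ℕ) : ℝ)) * (1 / 4 : ℝ) ≤
      ∑ j ∈ Icc N' (3 * N'), (1 / ((4 * N' : ℕ) : ℝ)) * Psi (j / ((4 * N' : ℕ) : ℝ)) := by
    apply sum_le_sum
    intro j hj
    rw [mem_Icc] at hj
    apply mul_le_mul_of_nonneg_left _ (by positivity)
    have hj1 : (N' : ℝ) ≤ j := by exact_mod_cast hj.1
    have hj2 : (j : ℝ) ≤ 3 * N' := by exact_mod_cast hj.2
    have h2 : (1 / 4 : ℝ) ≤ j / ((4 * N' : ℕ) : ℝ) := by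
      rw [le_div_iff₀ hN0]; push_cast; linarith
    have h3 : j / ((4 * N' : ℕ) : ℝ) ≤ 3 / 4 := by
      rw [div_le_iff₀ hN0]; push_cast; linarith
    set u := (j : ℝ) / ((4 * N' : ℕ) : ℝ) with hu
    unfold Psi
    have h4 : (1 : ℝ) ≤ Real.exp u := Real.one_le_exp (by linarith)
    have h5 : (1 / 4 : ℝ) ≤ max 0 (1 / 2 - |u - 1 / 2|) := by
      apply le_max_of_le_right
      have : |u - 1 / 2| ≤ 1 / 4 := abs_le.2 ⟨by linarith, by linarith⟩
      linarith
    calc (1 / 4 : ℝ) = 1 * (1 / 4) := (one_mul _).symm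
      _ ≤ _ := mul_le_mul h4 h5 (by norm_num) (by positivity)
  have h2 : ∑ j ∈ Icc N' (3 * N'), (1 / ((4 * N' : ℕ) : ℝ)) * Psi (j / ((4 * N' : ℕ) : ℝ)) ≤
      ∑ j ∈ range (4 * N' + 1), (1 / ((4 * N' : ℕ) : ℝ)) * Psi (j / ((4 * N' : ℕ) : ℝ)) := by
    apply sum_le_sum_of_subset_of_nonneg
    · intro j hj
      rw [mem_Icc] at hj
      rw [mem_range]
      omega
    · intro j _ _
      exact mul_nonneg (by positivity) (Psi_nonneg _)
  refine le_trans ?_ (h1.trans h2)
  rw [sum_const, nsmul_eq_mul, Nat.card_Icc]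
  have : ((3 * N' + 1 - N' : ℕ) : ℝ) = 2 * N' + 1 := by
    rw [Nat.cast_sub (by omega)]; push_cast; ring
  rw [this]
  have hN1 : (0 : ℝ) < N' := by exact_mod_cast h
  push_cast
  rw [div_le_iff₀ (by norm_num)]
  have e : (2 * (N' : ℝ) + 1) * (1 / (4 * N') * (1 / 4)) * 8 = (2 * N' + 1) / (2 * N') := by
    field_simp
    ring
  rw [e, le_div_iff₀ (by positivity)]
  linarith

theorem kap_le {N : ℕ} (hN : 0 < N) : kap N ≤ 16 := by
  unfold kap
  have hN0 : (1 : ℝ) ≤ N := by exact_mod_cast hN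
  calc ∑ j ∈ range (N + 1), (1 / (N : ℝ)) * Psi (j / N) ≤ ∑ j ∈ range (N + 1), (1 / (N : ℝ)) * 8 := by
        apply sum_le_sum
        intro j _
        exact mul_le_mul_of_nonneg_left (Psi_le _) (by positivity)
    _ = (N + 1) * (1 / N * 8) := by rw [sum_const, nsmul_eq_mul, card_range]; push_cast; ring
    _ ≤ 16 := by
        have : ((N : ℝ) + 1) * (1 / N * 8) = 8 + 8 / N := by field_simp
        rw [this]
        have : 8 / (N : ℝ) ≤ 8 := div_le_self (by norm_num) hN0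
        linarith

/-- the full Riemann sum -/
theorem riem {N : ℕ} (hN : 0 < N) {v : ℝ} (hv : 0 ≤ v) {K : ℕ} (hK : v * N < K) (hv2 : 1 ≤ v) :
    |∑ i ∈ range K, (1 / (N : ℝ)) * Psi (v - i / N) - kap N| ≤ 60 / N := by
  have hN0 : (0 : ℝ) < N := by exact_mod_cast hN
  have hN1 : (1 : ℝ) ≤ N := by exact_mod_cast hN
  obtain ⟨m, hm⟩ : ∃ m : ℕ, m = ⌊v * N⌋₊ := ⟨_, rfl⟩
  have hm1 : (m : ℝ) ≤ v * N := by rw [hm]; exact Nat.floor_le (by positivity)
  have hm2 : v * N < m + 1 := by rw [hm]; exact Nat.lt_floor_add_one _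
  have hmK : m + 1 ≤ K := by
    have : (m : ℝ) < K := lt_of_le_of_lt hm1 hK
    have : m < K := by exact_mod_cast this
    omega
  have hmN : N ≤ m := by
    rw [hm]
    apply Nat.le_floor
    nlinarith
  obtain ⟨θ, hθ⟩ : ∃ θ : ℝ, θ = v * N - m := ⟨_, rfl⟩
  have hθ0 : 0 ≤ θ := by rw [hθ]; linarith
  have hθ1 : θ < 1 := by rw [hθ]; linarith
  -- restrict to i ≤ m
  have e1 : ∑ i ∈ range K, (1 / (N : ℝ)) * Psi (v - i / N) = ∑ i ∈ range (m + 1), (1 / (N : ℝ)) * Psi (v - i / N) := by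
    symm
    apply sum_subset
    · intro i hi
      rw [mem_range] at hi ⊢
      omega
    · intro i _ hi
      rw [mem_range, not_lt] at hi
      have : (m : ℝ) + 1 ≤ i := by exact_mod_cast hi
      rw [Psi_zero, mul_zero]
      left
      rw [sub_nonpos, le_div_iff₀ hN0]
      linarith
  -- reflect
  have e2 : ∑ i ∈ range (m + 1), (1 / (N : ℝ)) * Psi (v - i / N) = ∑ j ∈ range (m + 1), (1 / (N : ℝ)) * Psi ((j + θ) / N) := by
    rw [← sum_range_reflect]
    apply sum_congr rfl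
    intro j hj
    rw [mem_range] at hj
    congr 2
    have : ((m + 1 - 1 - j : ℕ) : ℝ) = m - j := by
      rw [Nat.add_sub_cancel, Nat.cast_sub (by omega)]
    rw [this, hθ]
    field_simp
    ring
  have e3 : ∑ j ∈ range (m + 1), (1 / (N : ℝ)) * Psi ((j + θ) / N) = ∑ j ∈ range (N + 1), (1 / (N : ℝ)) * Psi ((j + θ) / N) := by
    symm
    apply sum_subset
    · intro i hi
      rw [mem_range] at hi ⊢
      omega
    · intro i _ hi
      rw [mem_range, not_lt] at hi
      have : (N : ℝ) + 1 ≤ i := by exact_mod_cast hi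
      rw [Psi_zero, mul_zero]
      right
      rw [le_div_iff₀ hN0]
      linarith
  rw [e1, e2, e3]
  unfold kap
  rw [← sum_sub_distrib]
  refine (abs_sum_le_sum_abs _ _).trans ?_
  have h1 : ∀ j ∈ range (N + 1), |(1 / (N : ℝ)) * Psi ((j + θ) / N) - (1 / (N : ℝ)) * Psi (j / N)| ≤ (1 / (N : ℝ)) * (20 * (1 / N)) := by
    intro j hj
    rw [mem_range] at hj
    have hj' : (j : ℝ) ≤ N := by exact_mod_cast (by omega : j ≤ N)
    rw [← mul_sub, abs_mul, abs_of_nonneg (by positivity)]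
    apply mul_le_mul_of_nonneg_left _ (by positivity)
    refine (Psi_lip ?_ ?_).trans ?_
    · rw [div_le_iff₀ hN0]; linarith
    · rw [div_le_iff₀ hN0]; linarith
    · apply mul_le_mul_of_nonneg_left _ (by norm_num)
      rw [← sub_div, add_sub_cancel_left, abs_of_nonneg (by positivity)]
      exact div_le_div_of_nonneg_right hθ1.le hN0.le
  refine (sum_le_sum h1).trans ?_
  rw [sum_const, nsmul_eq_mul, card_range]
  push_cast
  have : ((N : ℝ) + 1) * (1 / N * (20 * (1 / N))) = (20 + 20 / N) / N := by field_simp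
  rw [this]
  apply div_le_div_of_nonneg_right _ hN0.le
  have : 20 / (N : ℝ) ≤ 20 := div_le_self (by norm_num) hN1
  linarith

theorem count_psi {N : ℕ} (hN : 0 < N) (v : ℝ) (K : ℕ) :
    ∑ i ∈ range K, (1 / (N : ℝ)) * Psi (v - i / N) ≤ 16 := by
  have hN0 : (0 : ℝ) < N := by exact_mod_cast hN
  have hN1 : (1 : ℝ) ≤ N := by exact_mod_cast hN
  by_cases hv : v < 0
  · have : ∑ i ∈ range K, (1 / (N : ℝ)) * Psi (v - i / N) = 0 := by
      apply sum_eq_zero
      intro i _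
      rw [Psi_zero, mul_zero]
      left
      have : (0 : ℝ) ≤ i / N := by positivity
      linarith
    rw [this]; norm_num
  push Not at hv
  obtain ⟨m, hm⟩ : ∃ m : ℕ, m = ⌊v * N⌋₊ := ⟨_, rfl⟩
  have hm1 : (m : ℝ) ≤ v * N := by rw [hm]; exact Nat.floor_le (by positivity)
  have hm2 : v * N < m + 1 := by rw [hm]; exact Nat.lt_floor_add_one _
  -- nonzero terms have m - N ≤ i ≤ m
  have h1 : ∑ i ∈ range K, (1 / (N : ℝ)) * Psi (v - i / N) ≤ ∑ i ∈ Icc (m - N + 1) m, (1 / (N : ℝ)) * 8 + (1 / N) * 8 := by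
    have h2 : ∀ i ∈ range K, (1 / (N : ℝ)) * Psi (v - i / N) ≤ if i ∈ Icc (m - N) m then (1 / (N : ℝ)) * 8 else 0 := by
      intro i _
      split_ifs with h
      · exact mul_le_mul_of_nonneg_left (Psi_le _) (by positivity)
      · rw [mem_Icc, not_and_or, not_le, not_le] at h
        apply le_of_eq
        rw [Psi_zero, mul_zero]
        rcases h with h | h
        · right
          have h3 : i + N + 1 ≤ m := by omega
          have h4 : (i : ℝ) + N + 1 ≤ m := by exact_mod_cast h3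
          rw [le_sub_iff_add_le, ← sub_nonneg]
          have : v - (1 + i / N) = (v * N - (N + i)) / N := by field_simp
          rw [this]
          apply div_nonneg _ hN0.le
          linarith
        · left
          have h4 : (m : ℝ) + 1 ≤ i := by exact_mod_cast h
          rw [sub_nonpos, le_div_iff₀ hN0]
          linarith
    refine (sum_le_sum h2).trans ?_
    rw [← sum_filter, sum_const, sum_const, nsmul_eq_mul, nsmul_eq_mul]
    have h3 : ((range K).filter (fun i => i ∈ Icc (m - N) m)).card ≤ (Icc (m - N + 1) m).card + 1 := by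
      have h4 : (range K).filter (fun i => i ∈ Icc (m - N) m) ⊆ Icc (m - N) m := fun i hi => (mem_filter.1 hi).2
      refine (card_le_card h4).trans ?_
      rw [Nat.card_Icc, Nat.card_Icc]
      omega
    have h5 : (((range K).filter (fun i => i ∈ Icc (m - N) m)).card : ℝ) ≤ ((Icc (m - N + 1) m).card : ℝ) + 1 := by exact_mod_cast h3
    have h6 : (0 : ℝ) ≤ 1 / (N : ℝ) * 8 := by positivity
    nlinarith
  refine h1.trans ?_
  rw [sum_const, nsmul_eq_mul, Nat.card_Icc]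
  have h2 : ((m + 1 - (m - N + 1) : ℕ) : ℝ) ≤ N := by
    have : m + 1 - (m - N + 1) ≤ N := by omega
    exact_mod_cast this
  have h3 : ((m + 1 - (m - N + 1) : ℕ) : ℝ) * (1 / N * 8) ≤ N * (1 / N * 8) := mul_le_mul_of_nonneg_right h2 (by positivity)
  have h4 : (N : ℝ) * (1 / N * 8) = 8 := by field_simp
  have h5 : 1 / (N : ℝ) * 8 ≤ 8 := by
    have : 1 / (N : ℝ) ≤ 1 := div_le_self (by norm_num) hN1
    linarith
  linarith

/-- the kernel is close to the window -/
theorem KN_asy {N : ℕ} (hN : 0 < N) {T : ℝ} (hT : 1 ≤ T) {n : ℕ} (hn : 1 ≤ n) :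
    |KN N T n * n - kap N * GG (Real.log n / T)| ≤ 60 / N + 16 / T := by
  have hN0 : (0 : ℝ) < N := by exact_mod_cast hN
  have hT0 : 0 < T := by linarith
  set v := Real.log n with hv
  have hv0 : 0 ≤ v := Real.log_natCast_nonneg n
  rw [KN_mul hn]
  have h1 : |∑ i ∈ range (NI N T), (1 / (N : ℝ)) * GG (i / (N * T)) * Psi (v - i / N) -
      GG (v / T) * ∑ i ∈ range (NI N T), (1 / (N : ℝ)) * Psi (v - i / N)| ≤ 16 / T := by
    rw [mul_sum, ← sum_sub_distrib]
    refine (abs_sum_le_sum_abs _ _).trans ?_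
    have h2 : ∀ i ∈ range (NI N T), |(1 / (N : ℝ)) * GG (i / (N * T)) * Psi (v - i / N) -
        GG (v / T) * ((1 / (N : ℝ)) * Psi (v - i / N))| ≤ (1 / T) * ((1 / (N : ℝ)) * Psi (v - i / N)) := by
      intro i _
      have e : (1 / (N : ℝ)) * GG (i / (N * T)) * Psi (v - i / N) - GG (v / T) * ((1 / (N : ℝ)) * Psi (v - i / N)) =
          (GG (i / (N * T)) - GG (v / T)) * ((1 / (N : ℝ)) * Psi (v - i / N)) := by ring
      have hp : 0 ≤ (1 / (N : ℝ)) * Psi (v - i / N) := mul_nonneg (by positivity) (Psi_nonneg _)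
      rw [e, abs_mul, abs_of_nonneg hp]
      by_cases hz : v - i / N ≤ 0 ∨ 1 ≤ v - i / N
      · rw [Psi_zero hz]; simp
      · push Not at hz
        apply mul_le_mul_of_nonneg_right _ hp
        refine (GG_lip _ _).trans ?_
        have e2 : (i : ℝ) / (N * T) - v / T = (i / N - v) / T := by field_simp
        rw [e2, abs_div, abs_of_pos hT0]
        apply div_le_div_of_nonneg_right _ hT0.le
        rw [abs_le]
        constructor <;> linarith
    refine (sum_le_sum h2).trans ?_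
    rw [← mul_sum]
    have h3 := count_psi hN v (NI N T)
    calc (1 / T) * _ ≤ (1 / T) * 16 := mul_le_mul_of_nonneg_left h3 (by positivity)
      _ = 16 / T := by ring
  have h2 : |GG (v / T) * ∑ i ∈ range (NI N T), (1 / (N : ℝ)) * Psi (v - i / N) - kap N * GG (v / T)| ≤ 60 / N := by
    by_cases hz : v / T ≤ 1 ∨ 101 / 100 ≤ v / T
    · rw [GG_zero hz]
      simp only [zero_mul, mul_zero, sub_zero, abs_zero]
      positivity
    · push Not at hz
      have hz1 := hz.1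
      have hz2 := hz.2
      rw [lt_div_iff₀ hT0, one_mul] at hz1
      rw [div_lt_iff₀ hT0] at hz2
      have h3 := riem hN hv0 (K := NI N T) (by
        unfold NI
        push_cast
        have h4 : (T : ℝ) ≤ ⌈T⌉₊ := Nat.le_ceil T
        calc v * N < 2 * T * N := by nlinarith
          _ ≤ 2 * N * ⌈T⌉₊ := by nlinarith) (by linarith)
      have e : GG (v / T) * ∑ i ∈ range (NI N T), (1 / (N : ℝ)) * Psi (v - i / N) - kap N * GG (v / T) =
          GG (v / T) * (∑ i ∈ range (NI N T), (1 / (N : ℝ)) * Psi (v - i / N) - kap N) := by ring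
      rw [e, abs_mul, abs_of_nonneg (GG_nonneg _)]
      have h4 := GG_le (v / T)
      have h5 : (0 : ℝ) ≤ 60 / N := by positivity
      calc _ ≤ (1 : ℝ) * (60 / N) := mul_le_mul (h4.trans (by norm_num)) h3 (abs_nonneg _) (by norm_num)
        _ = _ := one_mul _
  have e : ∑ i ∈ range (NI N T), (1 / (N : ℝ)) * GG (i / (N * T)) * Psi (v - i / N) - kap N * GG (v / T) =
      (∑ i ∈ range (NI N T), (1 / (N : ℝ)) * GG (i / (N * T)) * Psi (v - i / N) -
      GG (v / T) * ∑ i ∈ range (NI N T), (1 / (N : ℝ)) * Psi (v - i / N)) +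
      (GG (v / T) * ∑ i ∈ range (NI N T), (1 / (N : ℝ)) * Psi (v - i / N) - kap N * GG (v / T)) := by ring
  rw [e]
  refine (abs_add_le _ _).trans ?_
  linarith

theorem KN_le {N : ℕ} (hN : 0 < N) {T : ℝ} (hT : 1 ≤ T) {n : ℕ} (hn : 1 ≤ n) : KN N T n * n ≤ 16 := by
  rw [KN_mul hn]
  refine le_trans (sum_le_sum fun i _ => ?_) (count_psi hN (Real.log n) (NI N T))
  have h1 : GG (i / (N * T)) ≤ 1 := (GG_le _).trans (by norm_num)
  have h2 := Psi_nonneg (Real.log n - i / N)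
  have h3 : (0 : ℝ) ≤ 1 / N := by positivity
  calc (1 / (N : ℝ)) * GG (i / (N * T)) * Psi (Real.log n - i / N) ≤ (1 / (N : ℝ)) * 1 * Psi (Real.log n - i / N) := by gcongr
    _ = _ := by ring

/-- the averaged prime sum -/
noncomputable def JJ (N : ℕ) (T : ℝ) (q b : ℕ) : ℝ := ∑ i ∈ range (NI N T), wI N T i * pc (Real.exp (i / N)) q b

theorem Phi_big {n : ℕ} {Y : ℝ} (hY : 0 < Y) (h : 3 * Y < n) : Phi (n / Y) = 0 := by
  unfold Phi
  apply max_eq_left
  have h1 : 1 ≤ Real.log (n / Y) := by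
    rw [Real.le_log_iff_exp_le (by apply div_pos _ hY; linarith)]
    rw [le_div_iff₀ hY]
    nlinarith [Real.exp_one_lt_d9]
  rw [abs_of_nonneg (by linarith)]
  linarith

theorem JJ_eq {N : ℕ} (hN : 0 < N) {T : ℝ} (hT : 1 ≤ T) {Nm : ℕ} (hNm : 3 * Real.exp (101 / 100 * T) ≤ Nm) (q b : ℕ) :
    JJ N T q b = ∑ n ∈ (Icc 1 Nm).filter (fun n => n ≡ b [MOD q]), KN N T n * ArithmeticFunction.vonMangoldt n := by
  unfold JJ KN
  simp_rw [sum_mul]
  rw [sum_comm]
  apply sum_congr rfl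
  intro i _
  by_cases hw : wI N T i = 0
  · rw [hw]; simp
  obtain ⟨h1, h2⟩ := wI_ne hN (by linarith) hw
  unfold pc
  rw [mul_sum]
  have hY : 0 < Real.exp ((i : ℝ) / N) := Real.exp_pos _
  have hsub : (Icc 1 ⌊3 * Real.exp ((i : ℝ) / N)⌋₊).filter (fun n => n ≡ b [MOD q]) ⊆ (Icc 1 Nm).filter (fun n => n ≡ b [MOD q]) := by
    intro n hn
    rw [mem_filter, mem_Icc] at hn ⊢
    refine ⟨⟨hn.1.1, ?_⟩, hn.2⟩
    have h3 : ((n : ℕ) : ℝ) ≤ 3 * Real.exp ((i : ℝ) / N) := (Nat.le_floor_iff (by positivity)).1 hn.1.2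
    have h4 : Real.exp ((i : ℝ) / N) ≤ Real.exp (101 / 100 * T) := Real.exp_le_exp.2 h2.le
    have : (n : ℝ) ≤ Nm := by linarith
    exact_mod_cast this
  rw [← sum_subset hsub]
  · apply sum_congr rfl
    intro n _
    ring
  · intro n hn hn'
    rw [mem_filter, mem_Icc] at hn hn'
    have : 3 * Real.exp ((i : ℝ) / N) < n := by
      by_contra hc
      push Not at hc
      exact hn' ⟨⟨hn.1.1, Nat.le_floor hc⟩, hn.2⟩
    rw [Phi_big hY this]
    ring

end Pool.Agent.H536.OC
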