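import Mathlib
import Pool.Agent.H536.OC.C3
import Pool.Agent.H536.OB.D1

open Finset Filter Topology

/-! The asymptotic formula in a window. -/

namespace Pool.Agent.H536.OC

open Pool.Agent.H378R2 Pool.Agent.H262R3.Lk
open Pool.Agent.H318R2.Cr (Rgh V)
open Pool.Agent.H536.OB

/-- clamping -/
noncomputable def cl (x : ℝ) : ℝ := max (1 / 10) (min x (1 / 2))

theorem cl_mem (x : ℝ) : 1 / 10 ≤ cl x ∧ cl x ≤ 1 / 2 :=
  ⟨le_max_left _ _, max_le (by norm_num) (min_le_right _ _)⟩

/-- the test function -/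
noncomputable def gK (x : ℝ) : ℝ := GG (-Real.log (cl x)) / ((Real.log (cl x)) ^ 2 * cl x)

theorem GG_cont : Continuous GG := by
  unfold GG
  fun_prop

theorem cl_cont : Continuous cl := by
  unfold cl
  fun_prop

theorem gK_cont : Continuous gK := by
  unfold gK
  have h1 : ∀ x, cl x ≠ 0 := fun x => by have := (cl_mem x).1; positivity
  have h2 : Continuous (fun x => Real.log (cl x)) := cl_cont.log h1
  apply Continuous.div
  · exact GG_cont.comp h2.neg
  · exact (h2.pow 2).mul cl_cont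
  · intro x
    have h3 := cl_mem x
    have h4 : Real.log (cl x) < 0 := Real.log_neg (by linarith) (by linarith)
    have h5 : 0 < cl x := by linarith
    have h6 : Real.log (cl x) ≠ 0 := h4.ne
    have : 0 < (Real.log (cl x)) ^ 2 * cl x := mul_pos (by positivity) h5
    exact this.ne'

theorem gK_nonneg (x : ℝ) : 0 ≤ gK x := by
  unfold gK
  have := (cl_mem x).1
  exact div_nonneg (GG_nonneg _) (by positivity)

theorem log_ten : 2 < Real.log 10 := by
  rw [Real.lt_log_iff_exp_lt (by norm_num)]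
  have h1 := Real.exp_one_lt_d9
  have h2 : Real.exp 2 = Real.exp 1 * Real.exp 1 := by rw [← Real.exp_add]; norm_num
  rw [h2]
  nlinarith [Real.exp_pos 1]

theorem gK_eq {v : ℝ} (hv : 0 ≤ v) : gK (Real.exp (-v)) = GG v / (v ^ 2 * Real.exp (-v)) := by
  unfold gK
  have hlog2 := Real.log_two_lt_d9
  have hlog10 := log_ten
  have e0 : Real.log (1 / 10) = -Real.log 10 := by rw [one_div, Real.log_inv]
  have e00 : Real.log (1 / 2) = -Real.log 2 := by rw [one_div, Real.log_inv]
  rcases lt_or_ge (Real.exp (-v)) (1 / 10) with h | h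
  · have e1 : cl (Real.exp (-v)) = 1 / 10 := by
      unfold cl
      rw [min_eq_left (by linarith), max_eq_left h.le]
    have h2 : 101 / 100 ≤ v := by
      by_contra hc
      push Not at hc
      have h3 : Real.exp (-2) ≤ Real.exp (-v) := Real.exp_le_exp.2 (by linarith)
      have h4 : 1 / 10 ≤ Real.exp (-2) := by
        rw [← Real.log_le_iff_le_exp (by norm_num), e0]
        linarith
      linarith
    rw [e1, e0, neg_neg, GG_zero (Or.inr (by linarith)), GG_zero (Or.inr h2)]
    simp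
  · rcases lt_or_ge (1 / 2) (Real.exp (-v)) with h' | h'
    · have e1 : cl (Real.exp (-v)) = 1 / 2 := by
        unfold cl
        rw [min_eq_right h'.le, max_eq_right (by norm_num)]
      have h2 : v ≤ 1 := by
        by_contra hc
        push Not at hc
        have h3 : Real.exp (-v) ≤ Real.exp (-1) := Real.exp_le_exp.2 (by linarith)
        have h4 : Real.exp (-1) ≤ 1 / 2 := by
          rw [← Real.le_log_iff_exp_le (by norm_num), e00]
          linarith
        linarith
      rw [e1, e00, neg_neg, GG_zero (Or.inl (by linarith)), GG_zero (Or.inl h2)]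
      simp
    · have e1 : cl (Real.exp (-v)) = Real.exp (-v) := by
        unfold cl
        rw [min_eq_left h', max_eq_right h]
      rw [e1, Real.log_exp, neg_neg, neg_sq]

theorem TF_gK {m : ℕ → ℝ} {T : ℝ} (hT : 0 < T) (hm0 : m 0 = 0) :
    TF m (1 / T) gK = T ^ 2 * ∑' n : ℕ, m n * (GG (Real.log n / T) / n) := by
  unfold TF
  rw [← tsum_mul_left]
  apply tsum_congr
  intro n
  rcases Nat.eq_zero_or_pos n with h | h
  · rw [h, hm0]; simp
  · have hn0 : (0 : ℝ) < n := by exact_mod_cast h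
    have hv : 0 ≤ Real.log n / T := div_nonneg (Real.log_natCast_nonneg n) hT.le
    have e1 : (n : ℝ) ^ (-(1 / T)) = Real.exp (-(Real.log n / T)) := by
      rw [Real.rpow_def_of_pos hn0]
      congr 1
      ring
    have e2 : (n : ℝ) ^ (1 + 1 / T) = n * Real.exp (Real.log n / T) := by
      rw [Real.rpow_add hn0, Real.rpow_one, Real.rpow_def_of_pos hn0]
      congr 2
      ring
    rw [e1, gK_eq hv]
    unfold ker
    rw [e2, Real.exp_neg]
    rcases eq_or_lt_of_le (Real.log_natCast_nonneg n) with h0 | h0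
    · rw [← h0, zero_div, GG_zero (Or.inl (by norm_num))]
      simp
    · have h3 := (Real.exp_pos (Real.log n / T)).ne'
      have h4 := h0.ne'
      have h5 := hT.ne'
      field_simp

open Classical in
/-- prime powers of small primes -/
theorem nonrough {z Nm : ℕ} (hz : 1 ≤ z) (hNm : 1 ≤ Nm) :
    ∑ n ∈ (Icc 1 Nm).filter (fun n => ¬ Rgh z n), ArithmeticFunction.vonMangoldt n ≤ z * Real.log Nm := by
  have h1 : ∀ n ∈ (Icc 1 Nm).filter (fun n => ¬ Rgh z n), ArithmeticFunction.vonMangoldt n ≤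
      ∑ p ∈ (Icc 1 z).filter Nat.Prime, (if n ∈ (Icc 1 (Nat.log p Nm)).image (fun k => p ^ k) then Real.log p else 0) := by
    intro n hn
    rw [mem_filter, mem_Icc] at hn
    have hnn : ∀ p ∈ (Icc 1 z).filter Nat.Prime,
        0 ≤ (if n ∈ (Icc 1 (Nat.log p Nm)).image (fun k => p ^ k) then Real.log p else 0) := by
      intro p _
      split_ifs
      · exact Real.log_natCast_nonneg p
      · exact le_rfl
    by_cases hΛ : ArithmeticFunction.vonMangoldt n = 0
    · rw [hΛ]
      exact sum_nonneg hnn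
    · have hΛ' : ArithmeticFunction.vonMangoldt n ≠ 0 := hΛ
      rw [ArithmeticFunction.vonMangoldt_ne_zero_iff, isPrimePow_nat_iff] at hΛ'
      obtain ⟨p, k, hp, hk, rfl⟩ := hΛ'
      have hpz : p ≤ z := by
        by_contra hc
        push Not at hc
        apply hn.2
        intro r hr hrz hd
        have := (Nat.prime_dvd_prime_iff_eq hr hp).1 (hr.dvd_of_dvd_pow hd)
        omega
      rw [ArithmeticFunction.vonMangoldt_apply_pow hk.ne', ArithmeticFunction.vonMangoldt_apply_prime hp]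
      refine le_trans ?_ (single_le_sum hnn (mem_filter.2 ⟨mem_Icc.2 ⟨hp.one_lt.le, hpz⟩, hp⟩))
      rw [if_pos]
      rw [mem_image]
      refine ⟨k, mem_Icc.2 ⟨hk, ?_⟩, rfl⟩
      exact (Nat.le_log_iff_pow_le hp.one_lt (by omega)).2 hn.1.2
  refine (sum_le_sum h1).trans ?_
  rw [sum_comm]
  have h2 : ∀ p ∈ (Icc 1 z).filter Nat.Prime, ∑ n ∈ (Icc 1 Nm).filter (fun n => ¬ Rgh z n),
      (if n ∈ (Icc 1 (Nat.log p Nm)).image (fun k => p ^ k) then Real.log p else 0) ≤ Real.log Nm := by
    intro p hp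
    rw [mem_filter] at hp
    rw [← sum_filter, sum_const, nsmul_eq_mul]
    have h3 : (((Icc 1 Nm).filter (fun n => ¬ Rgh z n)).filter (fun n => n ∈ (Icc 1 (Nat.log p Nm)).image (fun k => p ^ k))).card ≤
        Nat.log p Nm := by
      have h4 : (((Icc 1 Nm).filter (fun n => ¬ Rgh z n)).filter (fun n => n ∈ (Icc 1 (Nat.log p Nm)).image (fun k => p ^ k))) ⊆
          (Icc 1 (Nat.log p Nm)).image (fun k => p ^ k) := fun n hn => (mem_filter.1 hn).2
      refine (card_le_card h4).trans (card_image_le.trans ?_)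
      rw [Nat.card_Icc]
      omega
    have h5 : ((Nat.log p Nm : ℕ) : ℝ) * Real.log p ≤ Real.log Nm := by
      have h6 : ((p : ℝ) ^ (Nat.log p Nm)) ≤ Nm := by exact_mod_cast Nat.pow_log_le_self p (by omega)
      have h7 := Real.log_le_log (by have := hp.2.pos; positivity) h6
      rwa [Real.log_pow] at h7
    refine le_trans ?_ h5
    exact mul_le_mul_of_nonneg_right (by exact_mod_cast h3) (Real.log_natCast_nonneg p)
  refine (sum_le_sum h2).trans ?_
  rw [sum_const, nsmul_eq_mul]
  apply mul_le_mul_of_nonneg_right _ (Real.log_natCast_nonneg Nm)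
  have h3 := card_filter_le (Icc 1 z) Nat.Prime
  rw [Nat.card_Icc] at h3
  exact_mod_cast h3.trans (by omega)

open Classical in
/-- the weights of the progression -/
noncomputable def mq (z q b n : ℕ) : ℝ := if Rgh z n ∧ n ≡ b [MOD q] then (q.totient : ℝ) * ArithmeticFunction.vonMangoldt n else 0

theorem mq_nonneg (z q b n : ℕ) : 0 ≤ mq z q b n := by
  unfold mq
  split_ifs
  · exact mul_nonneg (Nat.cast_nonneg _) ArithmeticFunction.vonMangoldt_nonneg
  · exact le_rfl

theorem mq_ker (z q b : ℕ) (τ : ℝ) (n : ℕ) : mq z q b n * ker τ n = (q.totient : ℝ) * bj z q b 2 τ n := by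
  unfold mq bj ker
  split_ifs <;> ring

theorem mq_LT (z q b : ℕ) (τ : ℝ) : LT (mq z q b) τ = (q.totient : ℝ) * Bj z q b 2 τ := by
  unfold LT Bj
  simp_rw [mq_ker]
  rw [tsum_mul_left]

theorem h_sum' (z q b : ℕ) {τ : ℝ} (hτ : 0 < τ) : Summable (fun n => mq z q b n * ker τ n) := by
  simp_rw [mq_ker]
  exact ((h_sum z q b 2 τ hτ).2.1).mul_left _

theorem window (CB Cas ε : ℝ) (hCB : 0 < CB) (hCas : 0 < Cas) (hε : 0 < ε) : ∃ N' J : ℕ, ∃ δ T0 : ℝ, 0 < N' ∧ 0 < δ ∧
    1 ≤ T0 ∧ ∀ (z q b : ℕ) (T : ℝ) (m2 : ℕ → ℝ), 32 ≤ z → 1 ≤ q → q ≤ z → T0 ≤ T → Real.log z ≤ δ * T →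
    (∀ n, 0 ≤ m2 n) → m2 0 = 0 → (∀ j < J, Summable (fun n => m2 n * ker (((j : ℝ) + 1) * (1 / T)) n)) →
    LT m2 (1 / T) ≤ CB * T ^ 3 → (q.totient : ℝ) * Bj z q b 2 (1 / T) ≤ CB * T ^ 3 →
    (∀ j < J, |(q.totient : ℝ) * Bj z q b 2 (((j : ℝ) + 1) * (1 / T)) - LT m2 (((j : ℝ) + 1) * (1 / T))| ≤
      Cas * Real.log z * T ^ 2) →
    |(q.totient : ℝ) * JJ (4 * N') T q b - kap (4 * N') * ∑' n : ℕ, m2 n * (GG (Real.log n / T) / n)| ≤ ε * T := by
  classical
  obtain ⟨J, Cp, hCp, hkar⟩ := kar gK gK_cont.continuousOn (ε / (64 * CB)) (by positivity)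
  -- the parameters
  obtain ⟨N', hN'⟩ := exists_nat_gt (120 * 27 * CB / ε)
  have hN'0 : 0 < N' := by
    have : (0 : ℝ) < N' := lt_of_le_of_lt (by positivity) hN'
    exact_mod_cast this
  have hexp : Tendsto (fun T : ℝ => 48 * Real.exp (-(3 / 4 * T))) atTop (𝓝 0) := by
    have h1 : Tendsto (fun T : ℝ => Real.exp (-(3 / 4 * T))) atTop (𝓝 0) :=
      Real.tendsto_exp_neg_atTop_nhds_zero.comp (tendsto_id.const_mul_atTop (by norm_num : (0 : ℝ) < 3 / 4))
    simpa using h1.const_mul 48
  obtain ⟨T1, hT1⟩ := eventually_atTop.1 ((hexp.eventually (gt_mem_nhds (show (0 : ℝ) < ε / 4 by positivity))))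
  obtain ⟨T0, hT0⟩ : ∃ T0 : ℝ, T0 = max (max T1 2) (128 * 27 * CB / ε) := ⟨_, rfl⟩
  refine ⟨N', J, min (1 / 8) (ε / (64 * Cp * Cas)), T0, hN'0, lt_min (by norm_num) (by positivity), ?_, ?_⟩
  · rw [hT0]
    exact (show (1 : ℝ) ≤ 2 by norm_num).trans ((le_max_right _ _).trans (le_max_left _ _))
  intro z q b T m2 hz hq hqz hT hzT hm2 hm20 hsum hLT hB hD
  have hTT1 : T1 ≤ T := (((le_max_left _ _).trans (le_max_left _ _)).trans (le_of_eq hT0.symm)).trans hT
  have hT2 : 2 ≤ T := (((le_max_right _ _).trans (le_max_left _ _)).trans (le_of_eq hT0.symm)).trans hT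
  have hT3 : 128 * 27 * CB / ε ≤ T := ((le_max_right _ _).trans (le_of_eq hT0.symm)).trans hT
  have hTpos : 0 < T := by linarith
  have hT1' : (1 : ℝ) ≤ T := by linarith
  have hzr : (32 : ℝ) ≤ z := by exact_mod_cast hz
  have hlz0 : 0 < Real.log z := Real.log_pos (by linarith)
  have hd1 : Real.log z ≤ T / 8 := by
    refine hzT.trans ?_
    have := min_le_left (1 / 8) (ε / (64 * Cp * Cas))
    calc min (1 / 8) (ε / (64 * Cp * Cas)) * T ≤ (1 / 8) * T := mul_le_mul_of_nonneg_right this hTpos.le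
      _ = T / 8 := by ring
  have hd2 : Cp * (Cas * Real.log z) ≤ ε / 64 * T := by
    have := min_le_right (1 / 8) (ε / (64 * Cp * Cas))
    have h1 : Real.log z ≤ ε / (64 * Cp * Cas) * T := hzT.trans (mul_le_mul_of_nonneg_right this hTpos.le)
    calc Cp * (Cas * Real.log z) ≤ Cp * (Cas * (ε / (64 * Cp * Cas) * T)) := by gcongr
      _ = ε / 64 * T := by field_simp
  set N := 4 * N' with hN
  have hN0 : 0 < N := by omega
  have hNr : (N' : ℝ) ≤ N := by rw [hN]; push_cast; linarith [show (0 : ℝ) ≤ N' from Nat.cast_nonneg _]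
  have hN'r : (0 : ℝ) < N' := by exact_mod_cast hN'0
  -- the range
  obtain ⟨Nm, hNm⟩ : ∃ Nm : ℕ, Nm = ⌈3 * Real.exp (101 / 100 * T)⌉₊ := ⟨_, rfl⟩
  have hNm1 : 3 * Real.exp (101 / 100 * T) ≤ Nm := by rw [hNm]; exact Nat.le_ceil _
  have hNm2 : (Nm : ℝ) ≤ 3 * Real.exp (101 / 100 * T) + 1 := by rw [hNm]; exact (Nat.ceil_lt_add_one (by positivity)).le
  have hexp1 : 1 ≤ Real.exp (101 / 100 * T) := Real.one_le_exp (by positivity)
  have hNm0 : 1 ≤ Nm := by
    have : (1 : ℝ) ≤ Nm := by linarith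
    exact_mod_cast this
  have hlNm : Real.log Nm ≤ 3 * T := by
    rw [Real.log_le_iff_le_exp (by linarith)]
    have h1 : Real.exp (3 * T) = Real.exp (101 / 100 * T) * Real.exp (199 / 100 * T) := by
      rw [← Real.exp_add]; congr 1; ring
    rw [h1]
    have h2 : 4 ≤ Real.exp (199 / 100 * T) := by
      have := Real.add_one_le_exp (199 / 100 * T)
      linarith
    nlinarith
  have hbig : ∀ n : ℕ, Nm < n → 101 / 100 * T < Real.log n := by
    intro n hn
    have hn' : (Nm : ℝ) < n := by exact_mod_cast hn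
    rw [Real.lt_log_iff_exp_lt (by linarith)]
    linarith
  have hGbig : ∀ n : ℕ, n ∉ Icc 1 Nm → GG (Real.log n / T) / n = 0 := by
    intro n hn
    rw [mem_Icc, not_and_or, not_le, not_le] at hn
    rcases hn with h | h
    · have : n = 0 := by omega
      rw [this]; simp
    · rw [GG_zero, zero_div]
      right
      rw [le_div_iff₀ hTpos]
      exact (hbig n h).le
  set φ : ℝ := (q.totient : ℝ) with hφ
  have hφ0 : 0 ≤ φ := Nat.cast_nonneg _
  have hφz : φ ≤ z := by
    rw [hφ]
    exact_mod_cast (Nat.totient_le q).trans hqz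
  -- first expression
  have e1 : φ * JJ N T q b = ∑ n ∈ Icc 1 Nm, mq z q b n * KN N T n +
      φ * ∑ n ∈ (Icc 1 Nm).filter (fun n => n ≡ b [MOD q] ∧ ¬ Rgh z n), KN N T n * ArithmeticFunction.vonMangoldt n := by
    rw [JJ_eq hN0 hT1' hNm1 q b, mul_sum, mul_sum, sum_filter, sum_filter, ← sum_add_distrib]
    apply sum_congr rfl
    intro n _
    unfold mq
    by_cases h1 : n ≡ b [MOD q]
    · by_cases h2 : Rgh z n
      · simp only [h1, h2, if_true, true_and, and_true, not_true_eq_false, if_false, add_zero]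
        ring
      · simp only [h1, h2, if_true, and_true, if_false, not_false_eq_true, zero_mul, zero_add]
    · simp only [h1, if_false, and_false, false_and, zero_mul, add_zero]
  have e2 : ∑' n : ℕ, mq z q b n * (GG (Real.log n / T) / n) = ∑ n ∈ Icc 1 Nm, mq z q b n * (GG (Real.log n / T) / n) := by
    apply tsum_eq_sum
    intro n hn
    rw [hGbig n hn, mul_zero]
  -- the difference of the kernels
  have e3 : |∑ n ∈ Icc 1 Nm, mq z q b n * KN N T n - kap N * ∑' n : ℕ, mq z q b n * (GG (Real.log n / T) / n)| ≤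
      (60 / N + 16 / T) * (27 * CB * T) := by
    rw [e2, mul_sum, ← sum_sub_distrib]
    refine (abs_sum_le_sum_abs _ _).trans ?_
    have h1 : ∀ n ∈ Icc 1 Nm, |mq z q b n * KN N T n - kap N * (mq z q b n * (GG (Real.log n / T) / n))| ≤
        (60 / N + 16 / T) * (27 / T ^ 2) * (mq z q b n * ker (1 / T) n) := by
      intro n hn
      rw [mem_Icc] at hn
      have hn0 : (0 : ℝ) < n := by exact_mod_cast hn.1
      have hm0 := mq_nonneg z q b n
      have e : mq z q b n * KN N T n - kap N * (mq z q b n * (GG (Real.log n / T) / n)) =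
          mq z q b n * ((KN N T n * n - kap N * GG (Real.log n / T)) / n) := by field_simp
      rw [e, abs_mul, abs_of_nonneg hm0, abs_div, abs_of_pos hn0]
      by_cases hr : Real.log n ≤ T ∨ 101 / 100 * T + 1 ≤ Real.log n
      · rw [KN_zero hN0 hTpos hn.1 hr, zero_mul, GG_zero (by
          rcases hr with h | h
          · left; rw [div_le_iff₀ hTpos]; linarith
          · right; rw [le_div_iff₀ hTpos]; linarith), mul_zero, sub_zero, abs_zero, zero_div, mul_zero]
        exact mul_nonneg (by positivity) (mul_nonneg hm0 (ker_nonneg _ _))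
      · push Not at hr
        have h2 := KN_asy hN0 hT1' hn.1
        have h3 : 1 / (n : ℝ) ≤ 27 / T ^ 2 * ker (1 / T) n := by
          unfold ker
          have e4 : (n : ℝ) ^ (1 + 1 / T) = n * Real.exp (Real.log n / T) := by
            rw [Real.rpow_add hn0, Real.rpow_one, Real.rpow_def_of_pos hn0]
            congr 2
            ring
          rw [e4]
          have h4 : Real.exp (Real.log n / T) ≤ 27 := by
            have h5 : Real.log n / T ≤ 3 := by rw [div_le_iff₀ hTpos]; linarith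
            refine (Real.exp_le_exp.2 h5).trans ?_
            have h6 : Real.exp 3 = Real.exp 1 * Real.exp 1 * Real.exp 1 := by rw [← Real.exp_add, ← Real.exp_add]; norm_num
            rw [h6]
            have h7 : Real.exp 1 ≤ 3 := by linarith [Real.exp_one_lt_d9]
            calc Real.exp 1 * Real.exp 1 * Real.exp 1 ≤ 3 * 3 * 3 := by gcongr
              _ = 27 := by norm_num
          have h5 : T ^ 2 ≤ (Real.log n) ^ 2 := pow_le_pow_left₀ hTpos.le hr.1.le 2
          have h6 : 0 < Real.exp (Real.log n / T) := Real.exp_pos _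
          rw [div_mul_div_comm, div_le_div_iff₀ hn0 (by positivity)]
          calc 1 * (T ^ 2 * (n * Real.exp (Real.log n / T))) = (T ^ 2) * Real.exp (Real.log n / T) * n := by ring
            _ ≤ (Real.log n) ^ 2 * 27 * n := by gcongr
            _ = 27 * Real.log n ^ 2 * n := by ring
        calc mq z q b n * (|KN N T n * n - kap N * GG (Real.log n / T)| / n) ≤
            mq z q b n * ((60 / N + 16 / T) * (27 / T ^ 2 * ker (1 / T) n)) := by
              apply mul_le_mul_of_nonneg_left _ hm0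
              rw [div_eq_mul_one_div]
              exact mul_le_mul h2 h3 (by positivity) (by positivity)
          _ = _ := by ring
    refine (sum_le_sum h1).trans ?_
    rw [← mul_sum]
    have h2 : ∑ n ∈ Icc 1 Nm, mq z q b n * ker (1 / T) n ≤ CB * T ^ 3 := by
      refine ((h_sum' z q b (by positivity : (0 : ℝ) < 1 / T)).sum_le_tsum _ (fun n _ => mul_nonneg (mq_nonneg _ _ _ _) (ker_nonneg _ _))).trans ?_
      have := mq_LT z q b (1 / T)
      unfold LT at this
      rw [this]
      exact hB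
    calc (60 / N + 16 / T) * (27 / T ^ 2) * ∑ n ∈ Icc 1 Nm, mq z q b n * ker (1 / T) n ≤
        (60 / N + 16 / T) * (27 / T ^ 2) * (CB * T ^ 3) := mul_le_mul_of_nonneg_left h2 (by positivity)
      _ = _ := by field_simp
  -- small primes
  have e4 : φ * ∑ n ∈ (Icc 1 Nm).filter (fun n => n ≡ b [MOD q] ∧ ¬ Rgh z n), KN N T n * ArithmeticFunction.vonMangoldt n ≤ ε / 4 * T := by
    have h1 : ∑ n ∈ (Icc 1 Nm).filter (fun n => n ≡ b [MOD q] ∧ ¬ Rgh z n), KN N T n * ArithmeticFunction.vonMangoldt n ≤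
        ∑ n ∈ (Icc 1 Nm).filter (fun n => ¬ Rgh z n), 16 * Real.exp (-T) * ArithmeticFunction.vonMangoldt n := by
      refine le_trans (sum_le_sum (g := fun n => 16 * Real.exp (-T) * ArithmeticFunction.vonMangoldt n) fun n hn => ?_) ?_
      · rw [mem_filter, mem_Icc] at hn
        apply mul_le_mul_of_nonneg_right _ ArithmeticFunction.vonMangoldt_nonneg
        have hn0 : (0 : ℝ) < n := by exact_mod_cast hn.1.1
        by_cases hr : Real.log n ≤ T
        · rw [KN_zero hN0 hTpos hn.1.1 (Or.inl hr)]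
          positivity
        · push Not at hr
          have h2 := KN_le hN0 hT1' hn.1.1
          have h3 : Real.exp T ≤ n := by
            rw [← Real.le_log_iff_exp_le hn0]; exact hr.le
          rw [Real.exp_neg]
          rw [← div_eq_mul_inv, le_div_iff₀ (Real.exp_pos T)]
          exact (mul_le_mul_of_nonneg_left h3 (KN_nonneg _ _ _)).trans h2
      · apply sum_le_sum_of_subset_of_nonneg
        · intro n hn
          rw [mem_filter] at hn ⊢
          exact ⟨hn.1, hn.2.2⟩
        · intro n _ _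
          exact mul_nonneg (by positivity) ArithmeticFunction.vonMangoldt_nonneg
    have h2 := nonrough (z := z) (by omega) hNm0
    have hz1 : (z : ℝ) * z ≤ Real.exp (1 / 4 * T) := by
      have h3 : (z : ℝ) = Real.exp (Real.log z) := (Real.exp_log (by linarith)).symm
      rw [h3, ← Real.exp_add]
      exact Real.exp_le_exp.2 (by linarith)
    calc φ * _ ≤ φ * (∑ n ∈ (Icc 1 Nm).filter (fun n => ¬ Rgh z n), 16 * Real.exp (-T) * ArithmeticFunction.vonMangoldt n) :=
          mul_le_mul_of_nonneg_left h1 hφ0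
      _ = φ * (16 * Real.exp (-T) * ∑ n ∈ (Icc 1 Nm).filter (fun n => ¬ Rgh z n), ArithmeticFunction.vonMangoldt n) := by rw [← mul_sum]
      _ ≤ z * (16 * Real.exp (-T) * (z * (3 * T))) := by
          have h3 : ∑ n ∈ (Icc 1 Nm).filter (fun n => ¬ Rgh z n), ArithmeticFunction.vonMangoldt n ≤ z * (3 * T) :=
            h2.trans (mul_le_mul_of_nonneg_left hlNm (by linarith))
          have h4 : 0 ≤ ∑ n ∈ (Icc 1 Nm).filter (fun n => ¬ Rgh z n), ArithmeticFunction.vonMangoldt n :=
            sum_nonneg fun _ _ => ArithmeticFunction.vonMangoldt_nonneg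
          gcongr
      _ = 48 * T * ((z : ℝ) * z * Real.exp (-T)) := by ring
      _ ≤ 48 * T * (Real.exp (1 / 4 * T) * Real.exp (-T)) := by gcongr
      _ = (48 * Real.exp (-(3 / 4 * T))) * T := by
          rw [← Real.exp_add]
          have : 1 / 4 * T + -T = -(3 / 4 * T) := by ring
          rw [this]
          ring
      _ ≤ ε / 4 * T := mul_le_mul_of_nonneg_right (hT1 T hTT1).le hTpos.le
  have e4' : 0 ≤ φ * ∑ n ∈ (Icc 1 Nm).filter (fun n => n ≡ b [MOD q] ∧ ¬ Rgh z n), KN N T n * ArithmeticFunction.vonMangoldt n :=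
    mul_nonneg hφ0 (sum_nonneg fun n _ => mul_nonneg (KN_nonneg _ _ _) ArithmeticFunction.vonMangoldt_nonneg)
  -- Karamata
  have hk := hkar (mq z q b) m2 (1 / T) (Cas * Real.log z * T ^ 2) (CB * T ^ 3) (by positivity) (mq_nonneg z q b) hm2
    (fun j hj => ⟨h_sum' z q b (by positivity), hsum j hj⟩) (by rw [mq_LT]; exact hB) hLT (fun j hj => by rw [mq_LT]; exact hD j hj)
  have hmq0 : mq z q b 0 = 0 := by
    unfold mq
    split_ifs
    · simp
    · rfl
  rw [TF_gK hTpos hmq0, TF_gK hTpos hm20, ← mul_sub, abs_mul, abs_of_nonneg (by positivity : (0 : ℝ) ≤ T ^ 2)] at hk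
  have e5 : |∑' n : ℕ, mq z q b n * (GG (Real.log n / T) / n) - ∑' n : ℕ, m2 n * (GG (Real.log n / T) / n)| ≤ ε / 32 * T := by
    have h1 : ε / (64 * CB) * (CB * T ^ 3) + Cp * (Cas * Real.log z * T ^ 2) ≤ T ^ 2 * (ε / 32 * T) := by
      have h2 : ε / (64 * CB) * (CB * T ^ 3) = ε / 64 * T ^ 3 := by field_simp
      have h3 : Cp * (Cas * Real.log z * T ^ 2) ≤ ε / 64 * T ^ 3 := by
        calc Cp * (Cas * Real.log z * T ^ 2) = Cp * (Cas * Real.log z) * T ^ 2 := by ring
          _ ≤ (ε / 64 * T) * T ^ 2 := mul_le_mul_of_nonneg_right hd2 (by positivity)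
          _ = _ := by ring
      have h4 : T ^ 2 * (ε / 32 * T) = ε / 64 * T ^ 3 + ε / 64 * T ^ 3 := by ring
      rw [h2, h4]
      exact add_le_add_right h3 _
    exact le_of_mul_le_mul_left (hk.trans h1) (by positivity)
  have hkap := kap_le hN0
  have hkap0 : 0 ≤ kap N := by
    have := kap_low hN'0
    rw [← hN] at this
    linarith
  have e6 : |kap N * ∑' n : ℕ, mq z q b n * (GG (Real.log n / T) / n) - kap N * ∑' n : ℕ, m2 n * (GG (Real.log n / T) / n)| ≤ ε / 2 * T := by
    rw [← mul_sub, abs_mul, abs_of_nonneg hkap0]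
    calc _ ≤ 16 * (ε / 32 * T) := mul_le_mul hkap e5 (abs_nonneg _) (by norm_num)
      _ = _ := by ring
  have e7 : (60 / N + 16 / T) * (27 * CB * T) ≤ ε / 8 * T + ε / 8 * T := by
    have h1 : 60 / (N : ℝ) * (27 * CB) ≤ ε / 8 := by
      have hNN : (N : ℝ) = 4 * N' := by rw [hN]; push_cast; ring
      rw [div_lt_iff₀ hε] at hN'
      rw [hNN, div_mul_eq_mul_div, div_le_iff₀ (by positivity)]
      linarith
    have h2 : 16 / T * (27 * CB) ≤ ε / 8 := by
      rw [div_le_iff₀ hε] at hT3
      rw [div_mul_eq_mul_div, div_le_iff₀ hTpos]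
      linarith
    have h3 : (60 / (N : ℝ) + 16 / T) * (27 * CB * T) = (60 / (N : ℝ) * (27 * CB)) * T + (16 / T * (27 * CB)) * T := by ring
    rw [h3]
    exact add_le_add (mul_le_mul_of_nonneg_right h1 hTpos.le) (mul_le_mul_of_nonneg_right h2 hTpos.le)
  rw [e1]
  obtain ⟨e8a, e8b⟩ := abs_le.1 e3
  obtain ⟨e9a, e9b⟩ := abs_le.1 e6
  have hεT : 0 < ε * T := by positivity
  rw [abs_le]
  constructor
  · linarith
  · linarith

end Pool.Agent.H536.OC
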