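import Mathlib
import Pool.Agent.H536.OC.C4
import Pool.Agent.H536.OC.C1

open Finset Filter Topology

/-! The asymptotic formula in a window for a progression, up to one exceptional character. -/

namespace Pool.Agent.H536.OC

open Pool.Agent.H378R2 Pool.Agent.H262R3.Lk
open Pool.Agent.H318R2.Cr (Rgh V)
open Pool.Agent.H536.OB

theorem Bj2_up : ∃ C : ℝ, 0 < C ∧ ∀ (z q b : ℕ) (σ : ℝ), 32 ≤ z → 1 ≤ q → q ^ 8 ≤ z →
    b.Coprime q → 0 < σ → σ * Real.log z ≤ 1 → (q.totient : ℝ) * Bj z q b 2 σ ≤ C / σ ^ 3 := by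
  obtain ⟨C, hC, hB⟩ := h_b0
  refine ⟨8 * C, by positivity, ?_⟩
  intro z q b σ hz hq hq8 hb hσ hσL
  have hφ : 0 < (q.totient : ℝ) := by exact_mod_cast Nat.totient_pos.2 hq
  have hzr : (32 : ℝ) ≤ z := by exact_mod_cast hz
  have hL : 0 < Real.log z := Real.log_pos (by linarith)
  have h1 := hB z q b (σ / 2) hz hq hq8 hb (by positivity) (by nlinarith)
  have h2 : Bj z q b 2 σ ≤ 4 / σ ^ 2 * Bj z q b 0 (σ / 2) := by
    unfold Bj
    rw [← tsum_mul_left]
    apply Summable.tsum_le_tsum _ ((h_sum z q b 2 σ hσ).2.1) (((h_sum z q b 0 (σ / 2) (by positivity)).2.1).mul_left _)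
    intro n
    unfold bj
    split_ifs with h
    · rcases Nat.eq_zero_or_pos n with h0 | h0
      · rw [h0]; simp
      · have hn : (0 : ℝ) < n := by exact_mod_cast h0
        have hΛ := ArithmeticFunction.vonMangoldt_nonneg (n := n)
        rw [pow_zero]
        have e1 : (n : ℝ) ^ (1 + σ) = (n : ℝ) ^ (1 + σ / 2) * Real.exp (Real.log n * (σ / 2)) := by
          rw [← Real.rpow_def_of_pos hn, ← Real.rpow_add hn]
          congr 1
          ring
        have hlog : 0 ≤ Real.log n := Real.log_natCast_nonneg n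
        set x := Real.log n * (σ / 2) with hx
        have hx0 : 0 ≤ x := by positivity
        have h3 : x ^ 2 ≤ Real.exp x := by
          have := Real.quadratic_le_exp_of_nonneg hx0
          have h4 := Real.add_one_le_exp (x / 2)
          have h5 : Real.exp x = Real.exp (x / 2) * Real.exp (x / 2) := by rw [← Real.exp_add]; congr 1; ring
          have h6 := Real.add_one_le_exp (x / 4)
          have h7 : Real.exp (x / 2) = Real.exp (x / 4) * Real.exp (x / 4) := by rw [← Real.exp_add]; congr 1; ring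
          have h8 : (1 + x / 4) ^ 2 ≤ Real.exp (x / 2) := by rw [h7]; nlinarith
          have h9 : x ≤ Real.exp (x / 2) := by nlinarith [sq_nonneg (1 - x / 4)]
          rw [h5]
          nlinarith
        have h4 : (Real.log n) ^ 2 = 4 / σ ^ 2 * x ^ 2 := by
          rw [hx]
          field_simp
          norm_num
        rw [e1, h4]
        have h5 : 0 < (n : ℝ) ^ (1 + σ / 2) := by positivity
        have h6 : 0 < Real.exp x := Real.exp_pos x
        calc ArithmeticFunction.vonMangoldt n * (4 / σ ^ 2 * x ^ 2 / ((n : ℝ) ^ (1 + σ / 2) * Real.exp x)) =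
            (4 / σ ^ 2 * (ArithmeticFunction.vonMangoldt n * (1 / (n : ℝ) ^ (1 + σ / 2)))) * (x ^ 2 / Real.exp x) := by
              field_simp
          _ ≤ (4 / σ ^ 2 * (ArithmeticFunction.vonMangoldt n * (1 / (n : ℝ) ^ (1 + σ / 2)))) * 1 := by
              apply mul_le_mul_of_nonneg_left _ (by positivity)
              rw [div_le_one h6]
              exact h3
          _ = _ := mul_one _
    · simp
  calc (q.totient : ℝ) * Bj z q b 2 σ ≤ (q.totient : ℝ) * (4 / σ ^ 2 * (C / (q.totient * (σ / 2)))) := by gcongr; exact h2.trans (by gcongr)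
    _ = 8 * C / σ ^ 3 := by
        field_simp
        norm_num

open Classical in
/-- the main weight -/
noncomputable def mX (z : ℕ) {q : ℕ} (χ : DirichletCharacter ℂ q) (s : ℝ) (n : ℕ) : ℝ :=
  if Rgh z n then ArithmeticFunction.vonMangoldt n * (1 + s * cr χ n) else 0

open Classical in
theorem mX_nonneg (z : ℕ) {q : ℕ} {χ : DirichletCharacter ℂ q} {s : ℝ} (h : s = 0 ∨ (χ ^ 2 = 1 ∧ |s| ≤ 1)) (n : ℕ) :
    0 ≤ mX z χ s n ∧ mX z χ s n ≤ 2 * (if Rgh z n then ArithmeticFunction.vonMangoldt n else 0) := by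
  unfold mX
  have hΛ := ArithmeticFunction.vonMangoldt_nonneg (n := n)
  split_ifs
  · have h1 : |s * cr χ n| ≤ 1 := by
      rcases h with h | h
      · rw [h]; simp
      · rw [abs_mul]
        exact mul_le_one₀ h.2 (abs_nonneg _) (cr_abs h.1 n)
    obtain ⟨h2, h3⟩ := abs_le.1 h1
    constructor
    · exact mul_nonneg hΛ (by linarith)
    · nlinarith
  · simp

theorem mX_zero (z : ℕ) {q : ℕ} (χ : DirichletCharacter ℂ q) (s : ℝ) : mX z χ s 0 = 0 := by
  unfold mX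
  split_ifs <;> simp

/-- the main weight of the integers -/
theorem m1_ker (z : ℕ) (τ : ℝ) (n : ℕ) [Decidable (Rgh z n)] :
    (if Rgh z n then ArithmeticFunction.vonMangoldt n else 0) * ker τ n = bj z 1 1 2 τ n := by
  classical
  unfold bj ker
  by_cases h : Rgh z n
  · rw [if_pos h, if_pos ⟨h, Nat.modEq_one⟩]
  · rw [if_neg h, if_neg (fun h' => h h'.1), zero_mul]

theorem mX_sum (z : ℕ) {q : ℕ} {χ : DirichletCharacter ℂ q} {s : ℝ} (h : s = 0 ∨ (χ ^ 2 = 1 ∧ |s| ≤ 1)) {τ : ℝ} (hτ : 0 < τ) :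
    Summable (fun n => mX z χ s n * ker τ n) := by
  classical
  apply Summable.of_nonneg_of_le (fun n => mul_nonneg (mX_nonneg z h n).1 (ker_nonneg τ n)) _
    (((h_sum z 1 1 2 τ hτ).2.1).mul_left 2)
  intro n
  rw [← m1_ker, ← mul_assoc]
  exact mul_le_mul_of_nonneg_right (mX_nonneg z h n).2 (ker_nonneg τ n)

theorem mX_LT (z : ℕ) {q : ℕ} {χ : DirichletCharacter ℂ q} {s : ℝ} (h : s = 0 ∨ (χ ^ 2 = 1 ∧ |s| ≤ 1)) {τ : ℝ} (hτ : 0 < τ) :
    ((LT (mX z χ s) τ : ℝ) : ℂ) = ((Bj z 1 1 2 τ : ℝ) : ℂ) + s * Dj z χ 2 τ := by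
  classical
  have hs1 := (h_sum z 1 1 2 τ hτ).2.1
  have hs2 := mX_sum z h hτ
  have h1 : LT (mX z χ s) τ - Bj z 1 1 2 τ = ∑' n, (mX z χ s n * ker τ n - bj z 1 1 2 τ n) := by
    unfold LT Bj
    rw [hs2.tsum_sub hs1]
  have h2 : ((LT (mX z χ s) τ - Bj z 1 1 2 τ : ℝ) : ℂ) = s * Dj z χ 2 τ := by
    rw [h1, Complex.ofReal_tsum]
    unfold Dj
    rw [← tsum_mul_left]
    apply tsum_congr
    intro n
    rw [← m1_ker]
    unfold mX fz ker
    split_ifs
    · rcases h with h | h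
      · rw [h]; push_cast; ring
      · rw [cr_eq h.1]
        push_cast
        ring
    · simp
  rw [← h2]
  push_cast
  ring

theorem chi_inv {q : ℕ} [NeZero q] {χ : DirichletCharacter ℂ q} (h : χ ^ 2 = 1) {b : ℕ} (hb : b.Coprime q) :
    χ ((b : ZMod q)⁻¹) = ((cr χ b : ℝ) : ℂ) ∧ |cr χ b| ≤ 1 ∧ cr χ b * cr χ b = 1 := by
  have h1 : IsUnit (b : ZMod q) := (ZMod.isUnit_iff_coprime b q).2 hb
  obtain ⟨u, hu⟩ := h1
  have h2 : χ (b : ZMod q) * χ ((b : ZMod q)⁻¹) = 1 := by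
    rw [← map_mul, ← hu, ZMod.mul_inv_of_unit _ (Units.isUnit u), map_one]
  have h3 : χ (b : ZMod q) ≠ 0 := fun h0 => by rw [h0, zero_mul] at h2; exact zero_ne_one h2
  rw [cr_eq h b] at h2 h3
  have h3' : cr χ b ≠ 0 := by intro h0; rw [h0] at h3; simp at h3
  refine ⟨?_, cr_abs h b, ?_⟩
  · rcases cr_vals h b with h4 | h4 | h4
    · exact absurd h4 h3'
    · rw [h4] at h2 ⊢; simpa using h2
    · rw [h4] at h2 ⊢
      push_cast at h2 ⊢
      linear_combination -h2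
  · rcases cr_vals h b with h4 | h4 | h4
    · exact absurd h4 h3'
    · rw [h4]; norm_num
    · rw [h4]; norm_num

theorem asyW (c1 ε : ℝ) (hc1 : 0 < c1) (hε : 0 < ε) : ∃ N' : ℕ, ∃ δ T0 : ℝ, 0 < N' ∧ 0 < δ ∧ 1 ≤ T0 ∧
    ∀ (z q b : ℕ) (T : ℝ) (χ1 : DirichletCharacter ℂ q) (s : ℝ), 32 ≤ z → 1 ≤ q → q ^ 8 ≤ z → b.Coprime q → T0 ≤ T →
    Real.log z ≤ δ * T → (s = 0 ∨ (χ1 ≠ 1 ∧ χ1 ^ 2 = 1 ∧ s = cr χ1 b)) →
    (∀ χ : DirichletCharacter ℂ q, χ ≠ 1 → (s = 0 ∨ χ ≠ χ1) → c1 ≤ ‖Lj z χ 0 (1 / T)‖) →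
    |(q.totient : ℝ) * JJ (4 * N') T q b - kap (4 * N') * ∑' n : ℕ, mX z χ1 s n * (GG (Real.log n / T) / n)| ≤ ε * T := by
  classical
  obtain ⟨CB, hCB, hBup⟩ := Bj2_up
  obtain ⟨Ca, hCa, hasy⟩ := asy (c1 / 2) (by positivity)
  obtain ⟨Cb, hCb, hBnd⟩ := h_bnd
  obtain ⟨N', J, δ, T0, hN', hδ, hT0, hwin⟩ := window (2 * CB) Ca ε (by positivity) hCa hε
  have hCb0 : 0 < Cb := by linarith
  refine ⟨N', min δ (min (1 / (J + 1)) (c1 / (2 * Cb * (J + 1)))), T0, hN', lt_min hδ (lt_min (by positivity) (by positivity)), hT0, ?_⟩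
  intro z q b T χ1 s hz hq hq8 hb hT hzT hs hχ
  have hTpos : 0 < T := by linarith
  have hne : NeZero q := ⟨by omega⟩
  have hzr : (32 : ℝ) ≤ z := by exact_mod_cast hz
  have hL : 0 < Real.log z := Real.log_pos (by linarith)
  have hqz : q ≤ z := (Nat.le_self_pow (by norm_num) q).trans hq8
  have hδ1 : Real.log z ≤ δ * T := hzT.trans (mul_le_mul_of_nonneg_right (min_le_left _ _) hTpos.le)
  have hJ0 : (0 : ℝ) ≤ J := Nat.cast_nonneg J
  have hδ2 : Real.log z ≤ 1 / (J + 1) * T :=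
    hzT.trans (mul_le_mul_of_nonneg_right ((min_le_right _ _).trans (min_le_left _ _)) hTpos.le)
  have hδ3 : Real.log z ≤ c1 / (2 * Cb * (J + 1)) * T :=
    hzT.trans (mul_le_mul_of_nonneg_right ((min_le_right _ _).trans (min_le_right _ _)) hTpos.le)
  have hLT1 : Real.log z ≤ T := by
    refine hδ2.trans ?_
    have : 1 / ((J : ℝ) + 1) ≤ 1 := by rw [div_le_one (by positivity)]; linarith
    nlinarith
  have hs' : s = 0 ∨ (χ1 ^ 2 = 1 ∧ |s| ≤ 1) := by
    rcases hs with h | ⟨_, h2, h3⟩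
    · exact Or.inl h
    · right
      rw [h3]
      exact ⟨h2, cr_abs h2 b⟩
  have hτ : ∀ j : ℕ, 0 < ((j : ℝ) + 1) * (1 / T) := fun j => by positivity
  have hτL : ∀ j < J, ((j : ℝ) + 1) * (1 / T) * Real.log z ≤ 1 := by
    intro j hj
    have hj' : (j : ℝ) + 1 ≤ J := by exact_mod_cast hj
    calc ((j : ℝ) + 1) * (1 / T) * Real.log z ≤ ((J : ℝ) + 1) * (1 / T) * (1 / (J + 1) * T) := by gcongr
      _ = 1 := by field_simp
  have hσL : 1 / T * Real.log z ≤ 1 := by
    rw [one_div, inv_mul_le_iff₀ hTpos, mul_one]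
    exact hLT1
  have e3 : CB / (1 / T) ^ 3 = CB * T ^ 3 := by field_simp
  have hB1 : Bj z 1 1 2 (1 / T) ≤ CB * T ^ 3 := by
    have := hBup z 1 1 (1 / T) hz le_rfl (by omega) (by norm_num) (by positivity) hσL
    rw [e3] at this
    simpa using this
  have hBq : (q.totient : ℝ) * Bj z q b 2 (1 / T) ≤ CB * T ^ 3 := by
    have := hBup z q b (1 / T) hz hq hq8 hb (by positivity) hσL
    rwa [e3] at this
  have hT3 : 0 < T ^ 3 := by positivity
  apply hwin z q b T (mX z χ1 s) hz hq hqz hT hδ1 (fun n => (mX_nonneg z hs' n).1) (mX_zero z χ1 s)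
    (fun j _ => mX_sum z hs' (hτ j))
  · -- upper bound of the main transform
    have h1 : LT (mX z χ1 s) (1 / T) ≤ 2 * Bj z 1 1 2 (1 / T) := by
      unfold LT Bj
      rw [← tsum_mul_left]
      apply Summable.tsum_le_tsum _ (mX_sum z hs' (by positivity)) (((h_sum z 1 1 2 (1 / T) (by positivity)).2.1).mul_left 2)
      intro n
      rw [← m1_ker, ← mul_assoc]
      exact mul_le_mul_of_nonneg_right (mX_nonneg z hs' n).2 (ker_nonneg _ n)
    linarith
  · linarith [mul_pos hCB hT3]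
  · intro j hj
    obtain ⟨τ, hτdef⟩ : ∃ τ : ℝ, τ = ((j : ℝ) + 1) * (1 / T) := ⟨_, rfl⟩
    rw [← hτdef]
    have hτ0 := hτ j
    have hτ1 := hτL j hj
    rw [← hτdef] at hτ0 hτ1
    have hτσ : 1 / T ≤ τ := by
      rw [hτdef]
      have : (0 : ℝ) ≤ j := Nat.cast_nonneg j
      have h1 : (0 : ℝ) < 1 / T := by positivity
      nlinarith
    -- other characters
    have hlow : ∀ χ : DirichletCharacter ℂ q, χ ≠ 1 → (s = 0 ∨ χ ≠ χ1) → c1 / 2 ≤ ‖Lj z χ 0 τ‖ := by
      intro χ h1 h2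
      have h3 := hχ χ h1 h2
      have h4 := (hBnd z q χ (1 / T) hz hq hq8 (by positivity) hσL).2.2 h1 τ hτ0 hτ1
      have h5 : |1 / T - τ| ≤ (J : ℝ) * (1 / T) := by
        rw [abs_of_nonpos (by linarith), hτdef]
        have hj' : (j : ℝ) + 1 ≤ J := by exact_mod_cast hj
        have h1 : (0 : ℝ) < 1 / T := by positivity
        nlinarith
      have h6 : Cb * Real.log z * |1 / T - τ| ≤ c1 / 2 := by
        calc Cb * Real.log z * |1 / T - τ| ≤ Cb * (c1 / (2 * Cb * (J + 1)) * T) * ((J : ℝ) * (1 / T)) := by gcongr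
          _ = c1 / 2 * (J / (J + 1)) := by field_simp
          _ ≤ c1 / 2 * 1 := by
              apply mul_le_mul_of_nonneg_left _ (by positivity)
              rw [div_le_one (by positivity)]
              linarith
          _ = c1 / 2 := mul_one _
      have h7 := norm_sub_norm_le (Lj z χ 0 (1 / T)) (Lj z χ 0 τ)
      linarith
    have key : ‖(((q.totient : ℝ) * Bj z q b 2 τ - LT (mX z χ1 s) τ : ℝ) : ℂ)‖ ≤ Ca * (τ * Real.log z) / τ ^ 3 := by
      rcases hs with h0 | ⟨h1, h2, h3⟩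
      · have h4 := hasy z q b τ hz hq hq8 hb hτ0 hτ1 ∅ (by simp) (by simp) (fun χ hχ1 _ => hlow χ hχ1 (Or.inl h0))
        rw [sum_empty, sub_zero] at h4
        have h5 := mX_LT z hs' hτ0
        rw [h0] at h5 ⊢
        rw [Complex.ofReal_zero, zero_mul, add_zero] at h5
        rw [Complex.ofReal_sub, h5, ← Complex.ofReal_sub]
        exact h4
      · have h4 := hasy z q b τ hz hq hq8 hb hτ0 hτ1 {χ1} (by simp) (by intro χ hχ; rw [mem_singleton] at hχ; rw [hχ]; exact h1)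
          (fun χ hχ1 hχ2 => hlow χ hχ1 (Or.inr (by rwa [mem_singleton] at hχ2)))
        rw [sum_singleton, (chi_inv h2 hb).1, ← h3] at h4
        have h5 := mX_LT z hs' hτ0
        rw [Complex.ofReal_sub, h5]
        rw [Complex.ofReal_sub] at h4
        rw [← sub_sub]
        exact h4
    rw [Complex.norm_real, Real.norm_eq_abs] at key
    refine key.trans ?_
    have h8 : Ca * (τ * Real.log z) / τ ^ 3 = Ca * Real.log z * (1 / τ ^ 2) := by field_simp
    rw [h8]
    apply mul_le_mul_of_nonneg_left _ (by positivity)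
    rw [div_le_iff₀ (by positivity)]
    have h9 : 1 ≤ T * τ := by
      rw [div_le_iff₀ hTpos] at hτσ
      linarith
    calc (1 : ℝ) ≤ (T * τ) ^ 2 := one_le_pow₀ h9
      _ = T ^ 2 * τ ^ 2 := by ring

end Pool.Agent.H536.OC
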