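import Mathlib
import Pool.Agent.H536.OC.C5
import Pool.Graph.R_pool_sql_team_seeded_f0cf7b00.H262R3.Lk.Rel1

open Finset Filter Topology

/-! Lifting of characters to a multiple of the modulus by small primes. -/

namespace Pool.Agent.H536.OC

open Pool.Agent.H378R2 Pool.Agent.H262R3.Lk
open Pool.Agent.H318R2.Cr (Rgh V)
open Pool.Agent.H536.OB

theorem rgh_coprime {z n d : ℕ} (hn : Rgh z n) (hd : ∀ p : ℕ, p.Prime → p ∣ d → p ≤ z) : n.Coprime d := by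
  by_contra h
  obtain ⟨p, hp, h1, h2⟩ := Nat.Prime.not_coprime_iff_dvd.1 h
  exact hn p hp (hd p hp h2) h1

theorem lift_val {z m Q n : ℕ} [NeZero m] (h : Q ∣ m) (hd : ∀ p : ℕ, p.Prime → p ∣ m → p ∣ Q ∨ p ≤ z)
    (ψ : DirichletCharacter ℂ Q) (hn : Rgh z n) :
    (DirichletCharacter.changeLevel h ψ) (n : ZMod m) = ψ (n : ZMod Q) := by
  by_cases hnQ : n.Coprime Q
  · apply cl_apply h
    by_contra hc
    obtain ⟨p, hp, h1, h2⟩ := Nat.Prime.not_coprime_iff_dvd.1 hc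
    rcases hd p hp h2 with h3 | h3
    · have := Nat.dvd_gcd h1 h3
      rw [hnQ] at this
      exact hp.one_lt.ne' (Nat.dvd_one.1 this)
    · exact hn p hp h3 h1
  · have h1 : ¬ n.Coprime m := fun h2 => hnQ (h2.coprime_dvd_right h)
    rw [MulChar.map_nonunit _ (fun hu => h1 ((ZMod.isUnit_iff_coprime n _).mp hu)),
      MulChar.map_nonunit _ (fun hu => hnQ ((ZMod.isUnit_iff_coprime n _).mp hu))]

theorem lift_Lj {z m Q : ℕ} [NeZero m] (h : Q ∣ m) (hd : ∀ p : ℕ, p.Prime → p ∣ m → p ∣ Q ∨ p ≤ z)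
    (ψ : DirichletCharacter ℂ Q) (j : ℕ) (σ : ℝ) :
    Lj z (DirichletCharacter.changeLevel h ψ) j σ = Lj z ψ j σ := by
  unfold Lj
  apply tsum_congr
  intro n
  congr 1
  unfold fz
  split_ifs with hn
  · exact lift_val h hd ψ hn
  · rfl

theorem lift_mX {z m Q : ℕ} [NeZero m] (h : Q ∣ m) (hd : ∀ p : ℕ, p.Prime → p ∣ m → p ∣ Q ∨ p ≤ z)
    (ψ : DirichletCharacter ℂ Q) (s : ℝ) (n : ℕ) :
    mX z (DirichletCharacter.changeLevel h ψ) s n = mX z ψ s n := by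
  unfold mX
  split_ifs with hn
  · have h1 : cr (DirichletCharacter.changeLevel h ψ) n = cr ψ n := by
      unfold cr
      rw [lift_val h hd ψ hn]
    rw [h1]
  · rfl

theorem cr_lift {m Q b : ℕ} (h : Q ∣ m) (ψ : DirichletCharacter ℂ Q) (hb : b.Coprime m) :
    cr (DirichletCharacter.changeLevel h ψ) b = cr ψ b := by
  unfold cr
  rw [cl_apply h ψ hb]

theorem no_bad : ∃ c1 δ0 : ℝ, 0 < c1 ∧ 0 < δ0 ∧ δ0 ≤ 1 ∧ ∀ (z Q D : ℕ) (σ : ℝ), 32 ≤ z → 1 ≤ Q → 1 ≤ D →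
    (Q * D * D) ^ 8 ≤ z → 0 < σ → σ * Real.log z ≤ δ0 → ∃ l1 : ℕ, (l1 = 0 ∨ l1.Prime) ∧
    ∀ d : ℕ, 1 ≤ d → d ≤ D → ¬ l1 ∣ d → ∀ χ : DirichletCharacter ℂ (Q * d), ¬ χ.FactorsThrough Q →
      c1 ≤ ‖Lj z χ 0 σ‖ := by
  obtain ⟨c1, δ0, hc1, hδ0, hδ1, hlow⟩ := lowq
  refine ⟨c1, δ0, hc1, hδ0, hδ1, ?_⟩
  intro z Q D σ hz hQ hD hzD hσ hσL
  by_cases hall : ∀ d : ℕ, 1 ≤ d → d ≤ D → ∀ χ : DirichletCharacter ℂ (Q * d), ¬ χ.FactorsThrough Q →
      c1 ≤ ‖Lj z χ 0 σ‖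
  · exact ⟨0, Or.inl rfl, fun d h1 h2 _ => hall d h1 h2⟩
  push Not at hall
  obtain ⟨ds, hds1, hdsD, χs, hχs, hbad⟩ := hall
  have hne : NeZero (Q * ds) := ⟨(Nat.mul_pos hQ hds1).ne'⟩
  have hf : ¬ χs.conductor ∣ Q := by
    intro h
    exact hχs ((DirichletCharacter.mem_conductorSet_iff_conductor_dvd χs (Nat.dvd_mul_right Q ds)).2 h)
  rw [Nat.dvd_iff_prime_pow_dvd_dvd] at hf
  push Not at hf
  obtain ⟨l, k, hl, hk1, hk2⟩ := hf
  refine ⟨l, Or.inr hl, ?_⟩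
  intro d hd1 hdD hld χ hχ
  by_contra hb
  push Not at hb
  have hne2 : NeZero (Q * d) := ⟨(Nat.mul_pos hQ hd1).ne'⟩
  have hmpos : 0 < Q * ds * d := Nat.mul_pos (Nat.mul_pos hQ hds1) hd1
  have hne3 : NeZero (Q * ds * d) := ⟨hmpos.ne'⟩
  have hmle : Q * ds * d ≤ Q * D * D := Nat.mul_le_mul (Nat.mul_le_mul le_rfl hdsD) hdD
  have hm8 : (Q * ds * d) ^ 8 ≤ z := (Nat.pow_le_pow_left hmle 8).trans hzD
  have hmz : Q * ds * d ≤ z := (Nat.le_self_pow (by norm_num) _).trans hm8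
  have h1 : Q * ds ∣ Q * ds * d := Nat.dvd_mul_right _ _
  have h2 : Q * d ∣ Q * ds * d := ⟨ds, by ring⟩
  have hp1 : ∀ p : ℕ, p.Prime → p ∣ Q * ds * d → p ∣ Q * ds ∨ p ≤ z := fun p _ hpd =>
    Or.inr ((Nat.le_of_dvd hmpos hpd).trans hmz)
  have hp2 : ∀ p : ℕ, p.Prime → p ∣ Q * ds * d → p ∣ Q * d ∨ p ≤ z := fun p _ hpd =>
    Or.inr ((Nat.le_of_dvd hmpos hpd).trans hmz)
  set ψ1 := DirichletCharacter.changeLevel h1 χs with hψ1
  set ψ2 := DirichletCharacter.changeLevel h2 χ with hψ2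
  have b1 : ‖Lj z ψ1 0 σ‖ < c1 := by rw [hψ1, lift_Lj h1 hp1]; exact hbad
  have b2 : ‖Lj z ψ2 0 σ‖ < c1 := by rw [hψ2, lift_Lj h2 hp2]; exact hb
  have triv : ∀ {n : ℕ} [NeZero n] (hQn : Q ∣ n) (χ : DirichletCharacter ℂ n), ¬ χ.FactorsThrough Q → χ ≠ 1 := by
    intro n _ hQn χ h h3
    apply h
    rw [h3]
    exact ⟨hQn, 1, (DirichletCharacter.changeLevel_one hQn).symm⟩
  have n1 : ψ1 ≠ 1 := by
    intro h3
    rw [hψ1, ← DirichletCharacter.changeLevel_one h1] at h3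
    exact triv (Nat.dvd_mul_right _ _) χs hχs (DirichletCharacter.changeLevel_injective h1 h3)
  have n2 : ψ2 ≠ 1 := by
    intro h3
    rw [hψ2, ← DirichletCharacter.changeLevel_one h2] at h3
    exact triv (Nat.dvd_mul_right _ _) χ hχ (DirichletCharacter.changeLevel_injective h2 h3)
  have heq : ψ1 = ψ2 := by
    rcases hlow z (Q * ds * d) σ hz hmpos hm8 hσ hσL with h3 | ⟨χ1, _, _, _, h3⟩
    · exact absurd (h3 ψ1 n1) (not_le.2 b1)
    · have e1 : ψ1 = χ1 := by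
        by_contra h4
        exact absurd (h3 ψ1 n1 h4) (not_le.2 b1)
      have e2 : ψ2 = χ1 := by
        by_contra h4
        exact absurd (h3 ψ2 n2 h4) (not_le.2 b2)
      rw [e1, e2]
  have hcond : χs.conductor = χ.conductor := by
    have e1 := DirichletCharacter.conductor_changeLevel χs h1
    have e2 := DirichletCharacter.conductor_changeLevel χ h2
    rw [← e1, ← hψ1, heq, hψ2, e2]
  have h5 : l ^ k ∣ Q * d := (hcond ▸ hk1).trans χ.conductor_dvd_level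
  have h6 : (l ^ k).Coprime d := Nat.Coprime.pow_left k ((Nat.Prime.coprime_iff_not_dvd hl).2 hld)
  exact hk2 (h6.dvd_of_dvd_mul_right h5)

end Pool.Agent.H536.OC
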