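import Mathlib
import Pool.Agent.H536.OC.C6
import Pool.Graph.R_seed8.H318R2.Cr.Rough

open Finset Filter Topology

/-! The principal sum compared with a sum over the integers. -/

namespace Pool.Agent.H536.OC

open Pool.Agent.H378R2 Pool.Agent.H262R3.Lk
open Pool.Agent.H318R2.Cr (Rgh V)
open Pool.Agent.H536.OB

noncomputable def E1 (x : ℝ) : ℝ := Real.exp (-x) * (1 + x)
noncomputable def E2 (x : ℝ) : ℝ := Real.exp (-x) * (x ^ 2 + 2 * x + 2)

theorem E1_anti : AntitoneOn E1 (Set.Ici 0) := by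
  have hd : ∀ x : ℝ, HasDerivAt E1 (-(x * Real.exp (-x))) x := by
    intro x
    have h1 : HasDerivAt (fun x : ℝ => Real.exp (-x)) (-Real.exp (-x)) x := by
      have := (hasDerivAt_neg x).exp
      simpa using this
    have h2 : HasDerivAt (fun x : ℝ => 1 + x) 1 x := (hasDerivAt_id x).const_add 1
    have h3 := h1.mul h2
    have h4 : -(x * Real.exp (-x)) = -Real.exp (-x) * (1 + x) + Real.exp (-x) * 1 := by ring
    rw [h4]
    exact h3
  apply antitoneOn_of_deriv_nonpos (convex_Ici 0)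
  · exact fun x _ => (hd x).continuousAt.continuousWithinAt
  · exact fun x _ => (hd x).differentiableAt.differentiableWithinAt
  · intro x hx
    rw [interior_Ici, Set.mem_Ioi] at hx
    rw [(hd x).deriv]
    have := Real.exp_pos (-x)
    nlinarith

theorem E2_anti : AntitoneOn E2 (Set.Ici 0) := by
  have hd : ∀ x : ℝ, HasDerivAt E2 (-(x ^ 2 * Real.exp (-x))) x := by
    intro x
    have h1 : HasDerivAt (fun x : ℝ => Real.exp (-x)) (-Real.exp (-x)) x := by
      have := (hasDerivAt_neg x).exp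
      simpa using this
    have h2 : HasDerivAt (fun x : ℝ => x ^ 2 + 2 * x + 2) (2 * x + 2) x := by
      have := ((hasDerivAt_pow 2 x).add ((hasDerivAt_id x).const_mul 2)).add_const 2
      simpa using this
    have h3 := h1.mul h2
    have h4 : -(x ^ 2 * Real.exp (-x)) = -Real.exp (-x) * (x ^ 2 + 2 * x + 2) + Real.exp (-x) * (2 * x + 2) := by ring
    rw [h4]
    exact h3
  apply antitoneOn_of_deriv_nonpos (convex_Ici 0)
  · exact fun x _ => (hd x).continuousAt.continuousWithinAt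
  · exact fun x _ => (hd x).differentiableAt.differentiableWithinAt
  · intro x hx
    rw [interior_Ici, Set.mem_Ioi] at hx
    rw [(hd x).deriv]
    have := mul_nonneg (sq_nonneg x) (Real.exp_pos (-x)).le
    linarith

/-- the majorant of the variation -/
noncomputable def HV (τ u : ℝ) : ℝ := Real.exp (-(τ * u)) * (u ^ 2 + 4 * u / τ + 4 / τ ^ 2)

theorem HV_sub {τ u : ℝ} (hτ : 0 < τ) : HV τ u - u ^ 2 * Real.exp (-(τ * u)) = 4 / τ ^ 2 * E1 (τ * u) := by
  unfold HV E1
  field_simp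
  ring

theorem HV_add {τ u : ℝ} (hτ : 0 < τ) : HV τ u + u ^ 2 * Real.exp (-(τ * u)) = 2 / τ ^ 2 * E2 (τ * u) := by
  unfold HV E2
  field_simp
  ring

theorem HV_var {τ u v : ℝ} (hτ : 0 < τ) (hu : 0 ≤ u) (huv : u ≤ v) :
    |u ^ 2 * Real.exp (-(τ * u)) - v ^ 2 * Real.exp (-(τ * v))| ≤ HV τ u - HV τ v := by
  have h1 : E1 (τ * v) ≤ E1 (τ * u) := E1_anti (Set.mem_Ici.2 (by positivity)) (Set.mem_Ici.2 (by nlinarith)) (by nlinarith)
  have h2 : E2 (τ * v) ≤ E2 (τ * u) := E2_anti (Set.mem_Ici.2 (by positivity)) (Set.mem_Ici.2 (by nlinarith)) (by nlinarith)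
  have e1 := HV_sub (u := u) hτ
  have e2 := HV_sub (u := v) hτ
  have e3 := HV_add (u := u) hτ
  have e4 := HV_add (u := v) hτ
  have h3 : 4 / τ ^ 2 * E1 (τ * v) ≤ 4 / τ ^ 2 * E1 (τ * u) := mul_le_mul_of_nonneg_left h1 (by positivity)
  have h4 : 2 / τ ^ 2 * E2 (τ * v) ≤ 2 / τ ^ 2 * E2 (τ * u) := mul_le_mul_of_nonneg_left h2 (by positivity)
  rw [abs_le]
  constructor <;> linarith

theorem HV_ge {τ u : ℝ} (hτ : 0 < τ) (hu : 0 ≤ u) : u ^ 2 * Real.exp (-(τ * u)) ≤ HV τ u := by
  have e1 := HV_sub (u := u) hτ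
  have : 0 ≤ 4 / τ ^ 2 * E1 (τ * u) := by unfold E1; positivity
  linarith

theorem harm_diff {z N : ℕ} (hz : 1 ≤ z) (hzN : z ≤ N) :
    |∑ n ∈ Ioc 0 N, (if z < n then 1 / (n : ℝ) else 0) - (Real.log N - Real.log z)| ≤ 1 := by
  have hz0 : (0 : ℝ) < z := by exact_mod_cast hz
  -- upper: sum ≤ log N - log z ; lower: sum ≥ log (N+1) - log (z+1) ≥ log N - log z - log((z+1)/z)
  have key : ∀ m : ℕ, z ≤ m → Real.log m - Real.log z - (1 / z - 1 / m) ≤ ∑ n ∈ Ioc 0 m, (if z < n then 1 / (n : ℝ) else 0) ∧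
      ∑ n ∈ Ioc 0 m, (if z < n then 1 / (n : ℝ) else 0) ≤ Real.log m - Real.log z := by
    intro m hm
    induction m, hm using Nat.le_induction with
    | base =>
      have : ∑ n ∈ Ioc 0 z, (if z < n then 1 / (n : ℝ) else 0) = 0 := by
        apply sum_eq_zero
        intro n hn
        rw [mem_Ioc] at hn
        rw [if_neg (by omega)]
      rw [this]
      simp
    | succ m hm ih =>
      have hm0 : (0 : ℝ) < m := by exact_mod_cast (by omega : 0 < m)
      have e1 : ∑ n ∈ Ioc 0 (m + 1), (if z < n then 1 / (n : ℝ) else 0) =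
          ∑ n ∈ Ioc 0 m, (if z < n then 1 / (n : ℝ) else 0) + 1 / ((m : ℝ) + 1) := by
        rw [Finset.sum_Ioc_succ_top (Nat.zero_le m), if_pos (by omega)]
        push_cast
        rfl
      rw [e1]
      push_cast
      have hlog : Real.log ((m : ℝ) + 1) - Real.log m = Real.log (((m : ℝ) + 1) / m) := by
        rw [Real.log_div (by positivity) (by positivity)]
      have h1 : Real.log (((m : ℝ) + 1) / m) ≤ 1 / m := by
        have := Real.log_le_sub_one_of_pos (x := ((m : ℝ) + 1) / m) (by positivity)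
        have h2 : ((m : ℝ) + 1) / m - 1 = 1 / m := by field_simp; ring
        linarith
      have h2 : 1 / ((m : ℝ) + 1) ≤ Real.log (((m : ℝ) + 1) / m) := by
        have := Real.log_le_sub_one_of_pos (x := (m : ℝ) / ((m : ℝ) + 1)) (by positivity)
        have h3 : (m : ℝ) / ((m : ℝ) + 1) - 1 = -(1 / ((m : ℝ) + 1)) := by field_simp; ring
        have h4 : Real.log ((m : ℝ) / ((m : ℝ) + 1)) = -Real.log (((m : ℝ) + 1) / m) := by
          rw [← Real.log_inv, inv_div]
        linarith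
      constructor
      · linarith [ih.1]
      · linarith [ih.2]
  obtain ⟨k1, k2⟩ := key N hzN
  have h1 : 1 / (z : ℝ) ≤ 1 := by
    rw [div_le_one hz0]
    exact_mod_cast hz
  have h2 : 0 ≤ 1 / (N : ℝ) := by positivity
  rw [abs_le]
  constructor <;> linarith

open Classical in
/-- the sum over the integers above `z` -/
noncomputable def Zz (z : ℕ) (τ : ℝ) : ℝ := ∑' n : ℕ, (if z < n then 1 else 0) * ker τ n

open Classical in
theorem Zz_sum (z : ℕ) {τ : ℝ} (hτ : 0 < τ) : Summable (fun n : ℕ => (if z < n then (1 : ℝ) else 0) * ker τ n) := by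
  apply Summable.of_nonneg_of_le _ _ (SUM.logpow_summable 2 τ hτ)
  · intro n
    split_ifs
    · rw [one_mul]; exact ker_nonneg τ n
    · rw [zero_mul]
  · intro n
    split_ifs
    · rw [one_mul]; exact le_rfl
    · rw [zero_mul]; exact ker_nonneg τ n

theorem ker_eq {n : ℕ} (hn : 1 ≤ n) (τ : ℝ) : ker τ n = (1 / n) * ((Real.log n) ^ 2 * Real.exp (-(τ * Real.log n))) := by
  unfold ker
  have hn0 : (0 : ℝ) < n := by exact_mod_cast hn
  rw [Real.rpow_add hn0, Real.rpow_one, Real.exp_neg]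
  have : Real.exp (τ * Real.log n) = (n : ℝ) ^ τ := by
    rw [Real.rpow_def_of_pos hn0]
    congr 1
    ring
  rw [this]
  field_simp

open Classical in
theorem prin_Z : ∃ C : ℝ, 0 < C ∧ ∀ (z : ℕ) (τ : ℝ), 1 ≤ z → 0 < τ → |Bj z 1 1 2 τ - Zz z τ| ≤ C / τ ^ 2 := by
  obtain ⟨C, hC0, hC⟩ := Pool.Agent.H318R2.Cr.T_bound
  refine ⟨4 * (C + 1), by positivity, ?_⟩
  intro z τ hz hτ
  set e : ℕ → ℝ := fun n => Pool.Agent.H318R2.Cr.fL z n - (if z < n then 1 / (n : ℝ) else 0) with he
  set f : ℕ → ℝ := fun n => (Real.log n) ^ 2 * Real.exp (-(τ * Real.log n)) with hf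
  have hS : ∀ N : ℕ, |∑ n ∈ range (N + 1), e n| ≤ C + 1 := by
    intro N
    have e1 : ∑ n ∈ range (N + 1), e n = ∑ n ∈ Ioc 0 N, e n := by
      have : range (N + 1) = insert 0 (Ioc 0 N) := by
        ext n
        simp only [mem_range, mem_insert, mem_Ioc]
        omega
      rw [this, sum_insert (by simp)]
      have : e 0 = 0 := by
        rw [he]
        simp
      rw [this, zero_add]
    rw [e1, he, sum_sub_distrib]
    rcases le_or_gt z N with hzN | hzN
    · have h1 := hC z N hz hzN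
      have h2 := harm_diff hz hzN
      have : ∑ d ∈ Ioc 0 N, Pool.Agent.H318R2.Cr.fL z d - ∑ n ∈ Ioc 0 N, (if z < n then 1 / (n : ℝ) else 0) =
          (∑ d ∈ Ioc 0 N, Pool.Agent.H318R2.Cr.fL z d - (Real.log N - Real.log z)) -
          (∑ n ∈ Ioc 0 N, (if z < n then 1 / (n : ℝ) else 0) - (Real.log N - Real.log z)) := by ring
      rw [this]
      exact (abs_sub _ _).trans (add_le_add h1 h2)
    · rw [Pool.Agent.H318R2.Cr.T_zero hzN.le]
      have : ∑ n ∈ Ioc 0 N, (if z < n then 1 / (n : ℝ) else 0) = 0 := by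
        apply sum_eq_zero
        intro n hn
        rw [mem_Ioc] at hn
        rw [if_neg (by omega)]
      rw [this, sub_zero, abs_zero]
      linarith
  have hfin : ∀ M : ℕ, 1 ≤ M → |∑ n ∈ range (M + 1), e n * f n| ≤ (C + 1) * (4 / τ ^ 2) := by
    intro M hM
    rw [A0.abel e f M]
    have h1 : ∀ N ∈ range M, |(∑ n ∈ range (N + 1), e n) * (f N - f (N + 1))| ≤
        (C + 1) * (HV τ (Real.log N) - HV τ (Real.log ((N : ℝ) + 1))) := by
      intro N _
      rw [abs_mul]
      have hlog : Real.log N ≤ Real.log ((N : ℝ) + 1) := by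
        rcases Nat.eq_zero_or_pos N with h0 | h0
        · rw [h0]; simp
        · exact Real.log_le_log (by exact_mod_cast h0) (by linarith)
      have hvar := HV_var hτ (Real.log_natCast_nonneg N) hlog
      apply mul_le_mul (hS N) _ (abs_nonneg _) (by linarith)
      rw [hf]
      push_cast
      exact hvar
    have h2 : |∑ N ∈ range M, (∑ n ∈ range (N + 1), e n) * (f N - f (N + 1))| ≤
        (C + 1) * (HV τ (Real.log ((0 : ℕ) : ℝ)) - HV τ (Real.log (M : ℝ))) := by
      refine (abs_sum_le_sum_abs _ _).trans ((sum_le_sum h1).trans (le_of_eq ?_))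
      rw [← mul_sum]
      congr 1
      have := Finset.sum_range_sub' (fun N : ℕ => HV τ (Real.log (N : ℝ))) M
      rw [← this]
      apply sum_congr rfl
      intro N _
      push_cast
      rfl
    have h3 : |(∑ n ∈ range (M + 1), e n) * f M| ≤ (C + 1) * HV τ (Real.log (M : ℝ)) := by
      rw [abs_mul]
      have hf0 : 0 ≤ f M := by rw [hf]; positivity
      rw [abs_of_nonneg hf0]
      exact mul_le_mul (hS M) (HV_ge hτ (Real.log_natCast_nonneg M)) hf0 (by linarith)
    have h4 : HV τ (Real.log ((0 : ℕ) : ℝ)) = 4 / τ ^ 2 := by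
      unfold HV
      simp
    rw [h4] at h2
    calc _ ≤ _ := abs_add_le _ _
      _ ≤ (C + 1) * (4 / τ ^ 2 - HV τ (Real.log (M : ℝ))) + (C + 1) * HV τ (Real.log (M : ℝ)) := add_le_add h2 h3
      _ = _ := by ring
  -- pass to the limit
  have s1 : Summable (fun n => bj z 1 1 2 τ n) := (h_sum z 1 1 2 τ hτ).2.1
  have s2 := Zz_sum z hτ
  have e1 : Bj z 1 1 2 τ - Zz z τ = ∑' n : ℕ, e n * f n := by
    unfold Bj Zz
    rw [← Summable.tsum_sub s1 s2]
    apply tsum_congr
    intro n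
    rcases Nat.eq_zero_or_pos n with h0 | h0
    · rw [h0, he, hf]
      simp [bj, ker]
    · rw [← m1_ker, ker_eq h0, he, hf]
      simp only
      rw [Pool.Agent.H318R2.Cr.fL_apply]
      split_ifs <;> ring
  have s3 : Summable (fun n => e n * f n) := by
    apply (s1.sub s2).congr
    intro n
    rcases Nat.eq_zero_or_pos n with h0 | h0
    · rw [h0, he, hf]
      simp [bj, ker]
    · rw [← m1_ker, ker_eq h0, he, hf]
      simp only
      rw [Pool.Agent.H318R2.Cr.fL_apply]
      split_ifs <;> ring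
  rw [e1]
  have hlim := (s3.hasSum.tendsto_sum_nat).abs
  have hlim2 : Tendsto (fun M : ℕ => |∑ n ∈ range (M + 1), e n * f n|) atTop (𝓝 |∑' n : ℕ, e n * f n|) :=
    hlim.comp (tendsto_add_atTop_nat 1)
  have := le_of_tendsto hlim2 (eventually_atTop.2 ⟨1, fun M hM => hfin M hM⟩)
  calc _ ≤ (C + 1) * (4 / τ ^ 2) := this
    _ = _ := by ring

end Pool.Agent.H536.OC
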