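import Mathlib
import Pool.Agent.H536.OC.C7
import Pool.Agent.H536.OB.E1

open Finset Filter Topology

/-! The asymptotic behaviour of the exceptional term. -/

namespace Pool.Agent.H536.OC

open Pool.Agent.H378R2 Pool.Agent.H262R3.Lk
open Pool.Agent.H318R2.Cr (Rgh V)
open Pool.Agent.H536.OB

noncomputable def FF (τ x : ℝ) : ℝ := E2 (τ * Real.log x) / τ ^ 3

theorem FF_deriv {τ x : ℝ} (hτ : 0 < τ) (hx : 0 < x) :
    HasDerivAt (FF τ) (-((Real.log x) ^ 2 / x ^ (1 + τ))) x := by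
  have h0 : HasDerivAt (fun x : ℝ => τ * Real.log x) (τ * x⁻¹) x := (Real.hasDerivAt_log hx.ne').const_mul τ
  have hE : ∀ y : ℝ, HasDerivAt E2 (-(y ^ 2 * Real.exp (-y))) y := by
    intro x
    have h1 : HasDerivAt (fun x : ℝ => Real.exp (-x)) (-Real.exp (-x)) x := by
      have := (hasDerivAt_neg x).exp
      simpa using this
    have h2 : HasDerivAt (fun x : ℝ => x ^ 2 + 2 * x + 2) (2 * x + 2) x := by
      have := ((hasDerivAt_pow 2 x).add ((hasDerivAt_id x).const_mul 2)).add_const 2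
      simpa using this
    have h3 := h1.mul h2
    have h4 : -(x ^ 2 * Real.exp (-x)) = -Real.exp (-x) * (x ^ 2 + 2 * x + 2) + Real.exp (-x) * (2 * x + 2) := by ring
    rw [h4]
    exact h3
  have h1 := ((hE (τ * Real.log x)).comp x h0).div_const (τ ^ 3)
  have h2 : -((Real.log x) ^ 2 / x ^ (1 + τ)) = -((τ * Real.log x) ^ 2 * Real.exp (-(τ * Real.log x))) * (τ * x⁻¹) / τ ^ 3 := by
    have e1 : Real.exp (-(τ * Real.log x)) = (x ^ τ)⁻¹ := by
      rw [Real.exp_neg, Real.rpow_def_of_pos hx, mul_comm]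
    rw [e1, Real.rpow_add hx, Real.rpow_one]
    have : x ^ τ ≠ 0 := (Real.rpow_pos_of_pos hx τ).ne'
    field_simp
  rw [h2]
  exact h1

theorem g_anti {τ : ℝ} (hτ : 0 < τ) {x y : ℝ} (hx : 9 ≤ x) (hxy : x ≤ y) :
    (Real.log y) ^ 2 / y ^ (1 + τ) ≤ (Real.log x) ^ 2 / x ^ (1 + τ) := by
  have hx0 : 0 < x := by linarith
  have hy0 : 0 < y := by linarith
  have he : Real.exp (1 / (1 / 2 : ℝ)) ≤ x := by
    have h1 := Real.exp_one_lt_d9
    have h2 : Real.exp (1 / (1 / 2 : ℝ)) = Real.exp 1 ^ 2 := by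
      rw [← Real.exp_nat_mul]; norm_num
    rw [h2]
    have := Real.exp_pos 1
    nlinarith
  have he' : Real.exp (1 / 2 : ℝ)⁻¹ ≤ x := by rw [← one_div]; exact he
  have h1 := Real.log_div_self_rpow_antitoneOn (a := 1 / 2) (by norm_num) (Set.mem_Ici.2 he')
    (Set.mem_Ici.2 (he'.trans hxy)) hxy
  simp only at h1
  have h2 : (Real.log y / y ^ (1 / 2 : ℝ)) ^ 2 ≤ (Real.log x / x ^ (1 / 2 : ℝ)) ^ 2 := by
    apply pow_le_pow_left₀ _ h1
    apply div_nonneg (Real.log_nonneg (by linarith)) (by positivity)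
  have h3 : ∀ t : ℝ, 0 < t → (Real.log t) ^ 2 / t ^ (1 + τ) = (Real.log t / t ^ (1 / 2 : ℝ)) ^ 2 * (t ^ τ)⁻¹ := by
    intro t ht
    rw [div_pow, ← Real.rpow_natCast (t ^ (1 / 2 : ℝ)), ← Real.rpow_mul ht.le, Real.rpow_add ht]
    norm_num
    rw [div_mul_eq_div_div, div_eq_mul_inv _ (t ^ τ)]
  rw [h3 y hy0, h3 x hx0]
  apply mul_le_mul h2 _ (by positivity) (by positivity)
  apply inv_anti₀ (by positivity)
  exact Real.rpow_le_rpow hx0.le hxy hτ.le

theorem step_bd {τ : ℝ} (hτ : 0 < τ) {n : ℕ} (hn : 9 ≤ n) :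
    ker τ (n + 1) ≤ FF τ n - FF τ (n + 1) ∧ FF τ n - FF τ (n + 1) ≤ ker τ n := by
  have hn9 : (9 : ℝ) ≤ n := by exact_mod_cast hn
  obtain ⟨ξ, hξ, hξ2⟩ := exists_hasDerivAt_eq_slope (FF τ) (fun x => -((Real.log x) ^ 2 / x ^ (1 + τ)))
    (show (n : ℝ) < n + 1 by linarith)
    (fun x hx => (FF_deriv hτ (by linarith [hx.1])).continuousAt.continuousWithinAt)
    (fun x hx => FF_deriv hτ (by linarith [hx.1]))
  rw [add_sub_cancel_left, div_one] at hξ2
  have h1 : FF τ n - FF τ (n + 1) = (Real.log ξ) ^ 2 / ξ ^ (1 + τ) := by linarith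
  rw [h1]
  unfold ker
  push_cast
  exact ⟨g_anti hτ (by linarith [hξ.1]) hξ.2.le, g_anti hτ hn9 hξ.1.le⟩

theorem E2_bd {x : ℝ} (h0 : 0 ≤ x) (h2 : x ≤ 2) : |E2 x - 2| ≤ 6 * x := by
  have h1 : E2 x ≤ 2 := by
    have := E2_anti (Set.mem_Ici.2 (le_refl 0)) (Set.mem_Ici.2 h0) h0
    simpa [E2] using this
  have h3 : 1 - x ≤ Real.exp (-x) := by linarith [Real.add_one_le_exp (-x)]
  have h4 : (1 - x) * (x ^ 2 + 2 * x + 2) ≤ E2 x := by
    unfold E2
    exact mul_le_mul_of_nonneg_right h3 (by positivity)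
  have h5 : 2 - 6 * x ≤ (1 - x) * (x ^ 2 + 2 * x + 2) := by nlinarith [mul_nonneg h0 h0, mul_nonneg (mul_nonneg h0 h0) h0, mul_nonneg h0 (sub_nonneg.2 h2)]
  rw [abs_le]
  constructor <;> linarith

theorem FF_lim {τ : ℝ} (hτ : 0 < τ) : Tendsto (fun n : ℕ => FF τ n) atTop (𝓝 0) := by
  have h1 : Tendsto (fun n : ℕ => τ * Real.log (n : ℝ)) atTop atTop :=
    (Real.tendsto_log_atTop.comp tendsto_natCast_atTop_atTop).const_mul_atTop hτ
  have h2 : Tendsto E2 atTop (𝓝 0) := by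
    have a2 := Real.tendsto_pow_mul_exp_neg_atTop_nhds_zero 2
    have a1 := Real.tendsto_pow_mul_exp_neg_atTop_nhds_zero 1
    have a0 := Real.tendsto_pow_mul_exp_neg_atTop_nhds_zero 0
    have h := (a2.add (a1.const_mul 2)).add (a0.const_mul 2)
    have e : (fun x : ℝ => x ^ 2 * Real.exp (-x) + 2 * (x ^ 1 * Real.exp (-x)) + 2 * (x ^ 0 * Real.exp (-x))) = E2 := by
      funext x
      unfold E2
      ring
    rw [e] at h
    simpa using h
  have h3 := (h2.comp h1).div_const (τ ^ 3)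
  rw [zero_div] at h3
  exact h3

open Classical in
theorem Zz_asy {z : ℕ} {τ : ℝ} (hz : 32 ≤ z) (hτ : 0 < τ) (hτz : τ * Real.log z ≤ 1) :
    |Zz z τ - 2 / τ ^ 3| ≤ 16 * Real.log z / τ ^ 2 := by
  have hzr : (32 : ℝ) ≤ z := by exact_mod_cast hz
  have hL3 := COMB.log32 z hz
  have hlog2 : Real.log ((z : ℝ) + 1) ≤ 2 * Real.log z := by
    rw [show 2 * Real.log z = Real.log ((z : ℝ) ^ 2) by rw [Real.log_pow]; norm_num]
    apply Real.log_le_log (by linarith)
    nlinarith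
  have hlog0 : 0 ≤ Real.log ((z : ℝ) + 1) := Real.log_nonneg (by linarith)
  have hτ1 : τ ≤ 1 := by nlinarith
  -- partial sums
  have hlow : ∀ M : ℕ, z + 1 ≤ M → FF τ (z + 1) - FF τ (M : ℝ) ≤ ∑ n ∈ range M, (if z < n then (1 : ℝ) else 0) * ker τ n := by
    intro M hM
    induction M, hM using Nat.le_induction with
    | base =>
      push_cast
      rw [sub_self]
      apply sum_nonneg
      intro n _
      split_ifs
      · rw [one_mul]; exact ker_nonneg τ n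
      · rw [zero_mul]
    | succ M hM ih =>
      rw [sum_range_succ, if_pos (by omega), one_mul]
      have hb := step_bd hτ (n := M) (by omega)
      push_cast
      linarith [hb.2]
  have hup : ∀ M : ℕ, z + 1 ≤ M → ∑ n ∈ range (M + 1), (if z < n then (1 : ℝ) else 0) * ker τ n ≤
      ker τ (z + 1) + (FF τ (z + 1) - FF τ (M : ℝ)) := by
    intro M hM
    induction M, hM using Nat.le_induction with
    | base =>
      rw [sum_range_succ, if_pos (by omega), one_mul]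
      have : ∑ n ∈ range (z + 1), (if z < n then (1 : ℝ) else 0) * ker τ n = 0 := by
        apply sum_eq_zero
        intro n hn
        rw [mem_range] at hn
        rw [if_neg (by omega), zero_mul]
      rw [this]
      push_cast
      linarith
    | succ M hM ih =>
      rw [sum_range_succ, if_pos (by omega), one_mul]
      have hb := step_bd hτ (n := M) (by omega)
      push_cast
      linarith [hb.1]
  have hs := (Zz_sum z hτ).hasSum.tendsto_sum_nat
  have hFl := FF_lim hτ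
  have b1 : FF τ (z + 1) - 0 ≤ Zz z τ :=
    le_of_tendsto_of_tendsto (tendsto_const_nhds.sub hFl) hs (eventually_atTop.2 ⟨z + 1, fun M hM => hlow M hM⟩)
  have b2 : Zz z τ ≤ ker τ (z + 1) + (FF τ (z + 1) - 0) :=
    le_of_tendsto_of_tendsto (hs.comp (tendsto_add_atTop_nat 1)) (tendsto_const_nhds.add (tendsto_const_nhds.sub hFl))
      (eventually_atTop.2 ⟨z + 1, fun M hM => hup M hM⟩)
  have hx : τ * Real.log ((z : ℝ) + 1) ≤ 2 := by nlinarith
  have hE := E2_bd (x := τ * Real.log ((z : ℝ) + 1)) (by positivity) hx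
  have hF : FF τ (z + 1) = E2 (τ * Real.log ((z : ℝ) + 1)) / τ ^ 3 := rfl
  have hk : ker τ (z + 1) ≤ 4 := by
    unfold ker
    push_cast
    have h1 : Real.log ((z : ℝ) + 1) ≤ 2 * ((z : ℝ) + 1) ^ (1 / 2 : ℝ) := by
      have := Real.log_le_rpow_div (x := (z : ℝ) + 1) (by linarith) (ε := 1 / 2) (by norm_num)
      linarith
    rw [div_le_iff₀ (by positivity)]
    calc Real.log ((z : ℝ) + 1) ^ 2 ≤ (2 * ((z : ℝ) + 1) ^ (1 / 2 : ℝ)) ^ 2 := pow_le_pow_left₀ hlog0 h1 2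
      _ = 4 * ((z : ℝ) + 1) ^ (1 : ℝ) := by
          rw [mul_pow, ← Real.rpow_natCast (((z : ℝ) + 1) ^ (1 / 2 : ℝ)), ← Real.rpow_mul (by linarith)]
          norm_num
      _ ≤ 4 * ((z : ℝ) + 1) ^ (1 + τ) := by
          apply mul_le_mul_of_nonneg_left _ (by norm_num)
          exact Real.rpow_le_rpow_of_exponent_le (by linarith) (by linarith)
  have h4 : 4 ≤ 4 * Real.log z / τ ^ 2 := by
    rw [le_div_iff₀ (by positivity)]
    have : τ ^ 2 ≤ 1 := by nlinarith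
    nlinarith
  rw [abs_le] at hE ⊢
  have h5 : 6 * (τ * Real.log ((z : ℝ) + 1)) / τ ^ 3 ≤ 12 * Real.log z / τ ^ 2 := by
    rw [div_le_div_iff₀ (by positivity) (by positivity)]
    have : 6 * (τ * Real.log ((z : ℝ) + 1)) ≤ 12 * Real.log z * τ := by nlinarith
    calc 6 * (τ * Real.log ((z : ℝ) + 1)) * τ ^ 2 ≤ 12 * Real.log z * τ * τ ^ 2 := mul_le_mul_of_nonneg_right this (by positivity)
      _ = _ := by ring
  have h6 : (E2 (τ * Real.log ((z : ℝ) + 1)) - 2) / τ ^ 3 ≤ 6 * (τ * Real.log ((z : ℝ) + 1)) / τ ^ 3 :=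
    div_le_div_of_nonneg_right hE.2 (by positivity)
  have h7 : -(6 * (τ * Real.log ((z : ℝ) + 1)) / τ ^ 3) ≤ (E2 (τ * Real.log ((z : ℝ) + 1)) - 2) / τ ^ 3 := by
    rw [← neg_div]
    exact div_le_div_of_nonneg_right hE.1 (by positivity)
  have h8 : (E2 (τ * Real.log ((z : ℝ) + 1)) - 2) / τ ^ 3 = FF τ (z + 1) - 2 / τ ^ 3 := by rw [hF, sub_div]
  have h9 : 16 * Real.log z / τ ^ 2 = 12 * Real.log z / τ ^ 2 + 4 * Real.log z / τ ^ 2 := by ring
  rw [h9]
  have h10 : 0 ≤ 4 * Real.log z / τ ^ 2 := by positivity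
  constructor <;> linarith

end Pool.Agent.H536.OC
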