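import Mathlib
import Pool.Agent.H536.OC.C8

open Finset Filter Topology

/-! The exceptional term, continued. -/

namespace Pool.Agent.H536.OC

open Pool.Agent.H378R2 Pool.Agent.H262R3.Lk
open Pool.Agent.H318R2.Cr (Rgh V)
open Pool.Agent.H536.OB

/-- an abstract inequality -/
theorem alg_exc {Cb Cn L τ lam κ1 l0 l1 l2 l3 : ℝ} (hCb : 1 ≤ Cb) (hCn : 1 ≤ Cn) (hL : 0 < L) (hτ : 0 < τ)
    (hlam : 0 ≤ lam) (hτL : τ * L ≤ 1) (hτL2 : τ * L ≤ 1 / (8 * Cn * Cb)) (hκ : L / (4 * Cn) ≤ κ1)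
    (h0 : |l0 - κ1 * (τ + lam)| ≤ Cb * L ^ 2 * τ ^ 2) (h1 : |l1 + κ1| ≤ Cb * L ^ 2 * τ)
    (g1 : |l1| ≤ Cb * L) (g2 : |l2| ≤ Cb * L ^ 2) (g3 : |l3| ≤ Cb * L ^ 3) :
    |(l3 - 3 * (l1 / l0) * l2 + 2 * (l1 / l0) ^ 3 * l0) / l0 + 2 / (τ + lam) ^ 3| ≤
      (8 * Cb * Cn + 192 * Cb ^ 2 * Cn ^ 2 + 96 * Cb * Cn * (1 + 16 * Cb * Cn) ^ 2) * L / τ ^ 2 := by
  have hCb0 : 0 < Cb := by linarith
  have hCn0 : 0 < Cn := by linarith
  set S := τ + lam with hS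
  have hSτ : τ ≤ S := by linarith
  have hS0 : 0 < S := by linarith
  have hκ0 : 0 < κ1 := lt_of_lt_of_le (by positivity) hκ
  have hκ' : L ≤ 4 * Cn * κ1 := by
    rw [div_le_iff₀ (by positivity)] at hκ
    linarith
  -- lower bound of l0
  have hsm : Cb * L ^ 2 * τ ^ 2 ≤ κ1 * τ / 2 := by
    have h2 : τ * L * (8 * Cn * Cb) ≤ 1 := by
      rw [le_div_iff₀ (by positivity)] at hτL2
      exact hτL2
    have h3 : Cb * L ^ 2 * τ ^ 2 = (τ * L * (8 * Cn * Cb)) * (L * τ / (8 * Cn)) := by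
      field_simp
    rw [h3]
    calc (τ * L * (8 * Cn * Cb)) * (L * τ / (8 * Cn)) ≤ 1 * (L * τ / (8 * Cn)) :=
          mul_le_mul_of_nonneg_right h2 (by positivity)
      _ = (L / (4 * Cn)) * τ / 2 := by ring
      _ ≤ κ1 * τ / 2 := by gcongr
  have hl0 : κ1 * S / 2 ≤ l0 := by
    rw [abs_le] at h0
    have : κ1 * τ ≤ κ1 * S := mul_le_mul_of_nonneg_left hSτ hκ0.le
    linarith [h0.1]
  have hκS : 0 < κ1 * S := by positivity
  have hl00 : 0 < l0 := by linarith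
  have hLl0 : L * S ≤ 8 * Cn * l0 := by
    calc L * S ≤ 4 * Cn * κ1 * S := mul_le_mul_of_nonneg_right hκ' hS0.le
      _ = 8 * Cn * (κ1 * S / 2) := by ring
      _ ≤ 8 * Cn * l0 := by gcongr
  -- first term
  have t1 : |l3 / l0| ≤ 8 * Cb * Cn * L / τ ^ 2 := by
    rw [abs_div, abs_of_pos hl00, div_le_div_iff₀ hl00 (by positivity)]
    calc |l3| * τ ^ 2 ≤ Cb * L ^ 3 * τ ^ 2 := mul_le_mul_of_nonneg_right g3 (by positivity)
      _ = Cb * L * (τ * L) * (L * τ) := by ring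
      _ ≤ Cb * L * 1 * (L * S) := by gcongr
      _ ≤ Cb * L * 1 * (8 * Cn * l0) := by gcongr
      _ = _ := by ring
  -- second term
  have t2 : |3 * (l1 / l0) * l2 / l0| ≤ 192 * Cb ^ 2 * Cn ^ 2 * L / τ ^ 2 := by
    have e1 : 3 * (l1 / l0) * l2 / l0 = 3 * (l1 * l2) / l0 ^ 2 := by field_simp
    rw [e1, abs_div, abs_of_pos (by positivity : 0 < l0 ^ 2), abs_mul, abs_mul, abs_of_pos (by norm_num : (0 : ℝ) < 3),
      div_le_div_iff₀ (by positivity) (by positivity)]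
    have e2 : (L * τ) ^ 2 ≤ (8 * Cn * l0) ^ 2 := by
      apply pow_le_pow_left₀ (by positivity)
      calc L * τ ≤ L * S := by gcongr
        _ ≤ _ := hLl0
    calc 3 * (|l1| * |l2|) * τ ^ 2 ≤ 3 * ((Cb * L) * (Cb * L ^ 2)) * τ ^ 2 := by gcongr
      _ = 3 * Cb ^ 2 * L * (L * τ) ^ 2 := by ring
      _ ≤ 3 * Cb ^ 2 * L * (8 * Cn * l0) ^ 2 := by gcongr
      _ = _ := by ring
  -- third term
  set ρ := -l1 / l0 with hρ
  have d1 : |ρ - 1 / S| ≤ 16 * Cb * Cn * (L * τ) / S := by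
    have e1 : ρ - 1 / S = (-((l1 + κ1) * S) - (l0 - κ1 * S)) / (l0 * S) := by
      rw [hρ]
      field_simp
      ring
    rw [e1, abs_div, abs_of_pos (by positivity : 0 < l0 * S), div_le_div_iff₀ (by positivity) hS0]
    have e2 : |-((l1 + κ1) * S) - (l0 - κ1 * S)| ≤ 2 * Cb * L ^ 2 * τ * S := by
      calc |-((l1 + κ1) * S) - (l0 - κ1 * S)| ≤ |-((l1 + κ1) * S)| + |l0 - κ1 * S| := abs_sub _ _
        _ = |l1 + κ1| * S + |l0 - κ1 * S| := by rw [abs_neg, abs_mul, abs_of_pos hS0]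
        _ ≤ (Cb * L ^ 2 * τ) * S + Cb * L ^ 2 * τ ^ 2 := by gcongr
        _ ≤ (Cb * L ^ 2 * τ) * S + Cb * L ^ 2 * (τ * S) := by
            have : τ ^ 2 ≤ τ * S := by rw [sq]; gcongr
            gcongr
        _ = _ := by ring
    calc |-((l1 + κ1) * S) - (l0 - κ1 * S)| * S ≤ 2 * Cb * L ^ 2 * τ * S * S := by gcongr
      _ = 2 * Cb * L * τ * S * (L * S) := by ring
      _ ≤ 2 * Cb * L * τ * S * (8 * Cn * l0) := by gcongr
      _ = _ := by ring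
  have d2 : |ρ| ≤ (1 + 16 * Cb * Cn) / S := by
    have h2 := abs_sub_abs_le_abs_sub ρ (1 / S)
    have h3 : |1 / S| = 1 / S := abs_of_pos (by positivity)
    have h4 : 16 * Cb * Cn * (L * τ) / S ≤ 16 * Cb * Cn / S := by
      apply div_le_div_of_nonneg_right _ hS0.le
      have : L * τ ≤ 1 := by linarith
      have : 0 < 16 * Cb * Cn := by positivity
      nlinarith
    rw [h3] at h2
    have h5 : (1 + 16 * Cb * Cn) / S = 1 / S + 16 * Cb * Cn / S := by ring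
    rw [h5]
    linarith
  have t3 : |2 * (l1 / l0) ^ 3 * l0 / l0 + 2 / S ^ 3| ≤ 96 * Cb * Cn * (1 + 16 * Cb * Cn) ^ 2 * L / τ ^ 2 := by
    have e1 : 2 * (l1 / l0) ^ 3 * l0 / l0 + 2 / S ^ 3 = -(2 * ((ρ - 1 / S) * (ρ ^ 2 + ρ * (1 / S) + (1 / S) ^ 2))) := by
      have : l1 / l0 = -ρ := by rw [hρ]; ring
      rw [this]
      field_simp
      ring
    set K := 1 + 16 * Cb * Cn with hK
    have hK1 : 1 ≤ K := by
      rw [hK]
      have : 0 < 16 * Cb * Cn := by positivity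
      linarith
    have e2 : |ρ ^ 2 + ρ * (1 / S) + (1 / S) ^ 2| ≤ 3 * (K / S) ^ 2 := by
      have h5 : 1 / S ≤ K / S := div_le_div_of_nonneg_right hK1 hS0.le
      have h6 : (0 : ℝ) < 1 / S := by positivity
      calc |ρ ^ 2 + ρ * (1 / S) + (1 / S) ^ 2| ≤ |ρ ^ 2 + ρ * (1 / S)| + |(1 / S) ^ 2| := abs_add_le _ _
        _ ≤ |ρ ^ 2| + |ρ * (1 / S)| + |(1 / S) ^ 2| := by gcongr; exact abs_add_le _ _
        _ = |ρ| ^ 2 + |ρ| * (1 / S) + (1 / S) ^ 2 := by rw [abs_pow, abs_mul, abs_pow, abs_of_pos h6]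
        _ ≤ (K / S) ^ 2 + (K / S) * (K / S) + (K / S) ^ 2 := by gcongr
        _ = _ := by ring
    rw [e1, abs_neg, abs_mul, abs_mul, abs_of_pos (by norm_num : (0 : ℝ) < 2)]
    calc 2 * (|ρ - 1 / S| * |ρ ^ 2 + ρ * (1 / S) + (1 / S) ^ 2|) ≤ 2 * ((16 * Cb * Cn * (L * τ) / S) * (3 * (K / S) ^ 2)) := by gcongr
      _ = 96 * Cb * Cn * K ^ 2 * L * (τ / S ^ 3) := by field_simp; ring
      _ ≤ 96 * Cb * Cn * K ^ 2 * L * (1 / τ ^ 2) := by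
          apply mul_le_mul_of_nonneg_left _ (by positivity)
          rw [div_le_div_iff₀ (by positivity) (by positivity)]
          calc τ * τ ^ 2 = τ ^ 3 := by ring
            _ ≤ S ^ 3 := pow_le_pow_left₀ hτ.le hSτ 3
            _ = _ := (one_mul _).symm
      _ = _ := by ring
  have e1 : (l3 - 3 * (l1 / l0) * l2 + 2 * (l1 / l0) ^ 3 * l0) / l0 + 2 / S ^ 3 =
      l3 / l0 - 3 * (l1 / l0) * l2 / l0 + (2 * (l1 / l0) ^ 3 * l0 / l0 + 2 / S ^ 3) := by ring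
  rw [e1]
  calc _ ≤ |l3 / l0 - 3 * (l1 / l0) * l2 / l0| + |2 * (l1 / l0) ^ 3 * l0 / l0 + 2 / S ^ 3| := abs_add_le _ _
    _ ≤ |l3 / l0| + |3 * (l1 / l0) * l2 / l0| + |2 * (l1 / l0) ^ 3 * l0 / l0 + 2 / S ^ 3| := by gcongr; exact abs_sub _ _
    _ ≤ 8 * Cb * Cn * L / τ ^ 2 + 192 * Cb ^ 2 * Cn ^ 2 * L / τ ^ 2 + 96 * Cb * Cn * (1 + 16 * Cb * Cn) ^ 2 * L / τ ^ 2 := by gcongr
    _ = _ := by ring

/-- Taylor expansion at zero -/
theorem taylor {z q : ℕ} [NeZero q] {χ : DirichletCharacter ℂ q} (hz : 32 ≤ z) (hqz : q ≤ z) (hχ : χ ≠ 1) (h : χ ^ 2 = 1)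
    {K σ τ : ℝ} (hσ : 0 < σ) (hτ : σ ≤ τ) (hK : ∀ x : ℝ, 0 < x → x ≤ τ → |Lr z χ 2 x| ≤ K) :
    |Lr z χ 0 τ - (ell z χ + -Lr z χ 1 σ * τ)| ≤ K * τ ^ 2 ∧ |Lr z χ 1 τ - Lr z χ 1 σ| ≤ K * τ := by
  have hτ0 : 0 < τ := by linarith
  have hK0 : 0 ≤ K := (abs_nonneg _).trans (hK τ hτ0 le_rfl)
  have d1 : ∀ x : ℝ, 0 < x → x ≤ τ → |Lr z χ 1 x - Lr z χ 1 σ| ≤ K * |x - σ| := by
    intro x hx hxτ
    have hc : Convex ℝ (Set.Ioc (0 : ℝ) τ) := convex_Ioc 0 τ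
    have := hc.norm_image_sub_le_of_norm_hasDerivWithin_le (f := fun s => Lr z χ 1 s) (f' := fun s => -Lr z χ 2 s) (C := K)
      (fun y hy => (Lr_deriv h hz 1 hy.1).hasDerivWithinAt) (fun y hy => by
        rw [norm_neg, Real.norm_eq_abs]
        exact hK y hy.1 hy.2) (show σ ∈ Set.Ioc (0 : ℝ) τ from ⟨hσ, hτ⟩) (show x ∈ Set.Ioc (0 : ℝ) τ from ⟨hx, hxτ⟩)
    simpa [Real.norm_eq_abs] using this
  refine ⟨?_, ?_⟩
  · have key : ∀ x0 : ℝ, 0 < x0 → x0 ≤ τ → |(Lr z χ 0 τ - -Lr z χ 1 σ * τ) - (Lr z χ 0 x0 - -Lr z χ 1 σ * x0)| ≤ K * τ ^ 2 := by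
      intro x0 hx0 hx0τ
      have hc : Convex ℝ (Set.Icc x0 τ) := convex_Icc x0 τ
      have := hc.norm_image_sub_le_of_norm_hasDerivWithin_le (f := fun s => Lr z χ 0 s - -Lr z χ 1 σ * s)
        (f' := fun s => -Lr z χ 1 s - -Lr z χ 1 σ * 1) (C := K * τ)
        (fun y hy => ((Lr_deriv h hz 0 (by linarith [hy.1])).sub ((hasDerivAt_id y).const_mul _)).hasDerivWithinAt)
        (fun y hy => by
          rw [Real.norm_eq_abs]
          have h2 := d1 y (by linarith [hy.1]) hy.2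
          have h3 : -Lr z χ 1 y - -Lr z χ 1 σ * 1 = -(Lr z χ 1 y - Lr z χ 1 σ) := by ring
          rw [h3, abs_neg]
          have h4 : |y - σ| ≤ τ := by
            rw [abs_le]
            constructor <;> linarith [hy.1, hy.2]
          exact h2.trans (mul_le_mul_of_nonneg_left h4 hK0))
        (Set.left_mem_Icc.2 hx0τ) (Set.right_mem_Icc.2 hx0τ)
      rw [Real.norm_eq_abs, Real.norm_eq_abs] at this
      refine this.trans ?_
      rw [abs_of_nonneg (by linarith)]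
      calc K * τ * (τ - x0) ≤ K * τ * τ := by gcongr; linarith
        _ = _ := by ring
    have hl := ell_tendsto hz hqz hχ h
    have hl2 : Tendsto (fun x0 : ℝ => |(Lr z χ 0 τ - -Lr z χ 1 σ * τ) - (Lr z χ 0 x0 - -Lr z χ 1 σ * x0)|) (𝓝[>] 0)
        (𝓝 |(Lr z χ 0 τ - -Lr z χ 1 σ * τ) - (ell z χ - -Lr z χ 1 σ * 0)|) := by
      apply Tendsto.abs
      apply tendsto_const_nhds.sub
      apply hl.sub
      apply Tendsto.const_mul
      exact tendsto_nhdsWithin_of_tendsto_nhds tendsto_id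
    have := le_of_tendsto hl2 (by
      have : Set.Ioc (0 : ℝ) τ ∈ 𝓝[>] (0 : ℝ) := Ioc_mem_nhdsGT hτ0
      filter_upwards [this] with x0 hx0
      exact key x0 hx0.1 hx0.2)
    rw [mul_zero, sub_zero] at this
    have e : Lr z χ 0 τ - (ell z χ + -Lr z χ 1 σ * τ) = Lr z χ 0 τ - -Lr z χ 1 σ * τ - ell z χ := by ring
    rw [e]
    exact this
  · have h4 : |τ - σ| ≤ τ := by
      rw [abs_of_nonneg (by linarith)]
      linarith
    exact (d1 τ hτ0 le_rfl).trans (mul_le_mul_of_nonneg_left h4 hK0)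

theorem exc_asy : ∃ C δ1 η1 : ℝ, 1 ≤ C ∧ 0 < δ1 ∧ δ1 ≤ 1 ∧ 0 < η1 ∧ ∀ (z q : ℕ) [NeZero q] (χ : DirichletCharacter ℂ q) (σ : ℝ),
    32 ≤ z → q ^ 8 ≤ z → χ ≠ 1 → χ ^ 2 = 1 → 0 < σ → σ * Real.log z ≤ δ1 → ‖Lj z χ 0 σ‖ < η1 →
    ∃ lam : ℝ, 0 ≤ lam ∧ ell z χ ≤ C * lam * Real.log z ∧
      ∀ τ : ℝ, σ ≤ τ → τ * Real.log z ≤ δ1 → ‖Dj z χ 2 τ + ((Zz z (τ + lam) : ℝ) : ℂ)‖ ≤ C * Real.log z / τ ^ 2 := by
  obtain ⟨Cn, δ', hCn, hδ'0, hδ'1, hneg⟩ := neg_deriv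
  obtain ⟨Cb, hCb, hBnd⟩ := h_bnd
  have hCn0 : 0 < Cn := by linarith
  have hCb0 : 0 < Cb := by linarith
  set δ1 : ℝ := min (δ' / 2) (1 / (16 * Cn * Cb)) with hδ1
  have hδ10 : 0 < δ1 := lt_min (by positivity) (by positivity)
  have hδa : δ1 ≤ δ' / 2 := min_le_left _ _
  have hδb : δ1 ≤ 1 / (16 * Cn * Cb) := min_le_right _ _
  have hδh : δ1 ≤ 1 / 2 := by linarith
  set C : ℝ := 8 * Cb * Cn + 192 * Cb ^ 2 * Cn ^ 2 + 96 * Cb * Cn * (1 + 16 * Cb * Cn) ^ 2 + 16 with hC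
  have hC1 : 1 ≤ C := by
    rw [hC]
    have : 0 < 8 * Cb * Cn + 192 * Cb ^ 2 * Cn ^ 2 + 96 * Cb * Cn * (1 + 16 * Cb * Cn) ^ 2 := by positivity
    linarith
  have hCCb : Cb ≤ C := by
    rw [hC]
    have h1 : 0 < 192 * Cb ^ 2 * Cn ^ 2 + 96 * Cb * Cn * (1 + 16 * Cb * Cn) ^ 2 := by positivity
    have h2 : Cb * 1 ≤ Cb * Cn := mul_le_mul_of_nonneg_left hCn hCb0.le
    have h3 : 0 < Cb * Cn := by positivity
    nlinarith
  refine ⟨C, δ1, min (δ' / (2 * Cn)) (1 / (16 * Cn)), hC1, hδ10, by linarith, lt_min (by positivity) (by positivity), ?_⟩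
  intro z q _ χ σ hz hq8 hχ hχ2 hσ hσL hb
  have hq : 1 ≤ q := Nat.pos_of_ne_zero (NeZero.ne q)
  have hqz : q ≤ z := (Nat.le_self_pow (by norm_num) q).trans hq8
  have hL3 := COMB.log32 z hz
  set L := Real.log z with hL
  have hL0 : 0 < L := by linarith
  have hκ := hneg z q χ σ hz hq hq8 hσ (by rw [← hL]; linarith) hχ hχ2 (hb.trans_le (min_le_left _ _))
  rw [← hL] at hκ
  set κ1 := -Lr z χ 1 σ with hκ1
  have hκlow : L / (4 * Cn) ≤ κ1 := by linarith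
  have hκ0 : 0 < κ1 := lt_of_lt_of_le (by positivity) hκlow
  have hell := ell_pos (z := z) hχ hχ2
  have hbd : ∀ x : ℝ, 0 < x → x * L ≤ 1 → |Lr z χ 1 x| ≤ Cb * L ∧ |Lr z χ 2 x| ≤ Cb * L ^ 2 ∧ |Lr z χ 3 x| ≤ Cb * L ^ 3 := by
    intro x hx hxL
    have hB := (hBnd z q χ x hz hq hq8 hx (by rw [← hL]; exact hxL)).1 hχ
    have g1 := hB 1 (by norm_num)
    have g2 := hB 2 (by norm_num)
    have g3 := hB 3 le_rfl
    rw [norm_Lj hχ2, ← hL] at g1 g2 g3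
    rw [pow_one] at g1
    exact ⟨g1, g2, g3⟩
  have hκup : κ1 ≤ Cb * L := by
    have := (hbd σ hσ (by linarith)).1
    exact (neg_le_abs _).trans this
  refine ⟨ell z χ / κ1, by positivity, ?_, ?_⟩
  · calc ell z χ = (ell z χ / κ1) * κ1 := by field_simp
      _ ≤ (ell z χ / κ1) * (C * L) := by
          apply mul_le_mul_of_nonneg_left _ (by positivity)
          exact hκup.trans (mul_le_mul_of_nonneg_right hCCb hL0.le)
      _ = _ := by ring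
  intro τ hστ hτL
  have hτ0 : 0 < τ := by linarith
  have hlow0 : ∀ x : ℝ, 0 < x → x ≤ τ → x * L ≤ 1 := by
    intro x hx hxτ
    have : x * L ≤ τ * L := mul_le_mul_of_nonneg_right hxτ hL0.le
    linarith
  obtain ⟨T0, T1⟩ := taylor hz hqz hχ hχ2 hσ hστ (K := Cb * L ^ 2) (fun x hx hxτ => (hbd x hx (hlow0 x hx hxτ)).2.1)
  obtain ⟨S0, _⟩ := taylor hz hqz hχ hχ2 hσ (le_refl σ) (K := Cb * L ^ 2) (fun x hx hxτ => (hbd x hx (hlow0 x hx (hxτ.trans hστ))).2.1)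
  rw [← hκ1] at T0 S0
  set lam := ell z χ / κ1 with hlam
  have hlam0 : 0 ≤ lam := by positivity
  have hlamκ : κ1 * lam = ell z χ := by rw [hlam]; field_simp
  have hqz0 : 0 < q := hq
  have hl0 := Lr_pos (χ := χ) hχ2 hz hqz0 hqz hτ0
  obtain ⟨a1, a2, a3⟩ := h_alg z q χ τ hz hτ0
  obtain ⟨g1, g2, g3⟩ := hbd τ hτ0 (hlow0 τ hτ0 le_rfl)
  have hl0c : (Lr z χ 0 τ : ℂ) ≠ 0 := by exact_mod_cast hl0.ne'
  have hD0 : Dj z χ 0 τ = ((Lr z χ 1 τ / Lr z χ 0 τ : ℝ) : ℂ) := by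
    rw [Lj_Lr hχ2, Lj_Lr hχ2] at a2
    push_cast
    rw [eq_div_iff hl0c]
    exact a2.symm
  have hD2 : Dj z χ 2 τ = (((Lr z χ 3 τ - 3 * (Lr z χ 1 τ / Lr z χ 0 τ) * Lr z χ 2 τ + 2 * (Lr z χ 1 τ / Lr z χ 0 τ) ^ 3 * Lr z χ 0 τ) / Lr z χ 0 τ : ℝ) : ℂ) := by
    rw [hD0, Lj_Lr hχ2, Lj_Lr hχ2, Lj_Lr hχ2] at a3
    rw [Complex.ofReal_div, eq_div_iff hl0c, a3]
    push_cast
    ring
  rw [hD2, ← Complex.ofReal_add, Complex.norm_real, Real.norm_eq_abs]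
  have halg := alg_exc (Cb := Cb) (Cn := Cn) (L := L) (τ := τ) (lam := lam) (κ1 := κ1) (l0 := Lr z χ 0 τ) (l1 := Lr z χ 1 τ)
    (l2 := Lr z χ 2 τ) (l3 := Lr z χ 3 τ) hCb hCn hL0 hτ0 hlam0 (hlow0 τ hτ0 le_rfl) (by
      refine hτL.trans (hδb.trans ?_)
      apply one_div_le_one_div_of_le (by positivity)
      have : 0 < Cn * Cb := by positivity
      nlinarith) hκlow (by
      have e : κ1 * (τ + lam) = ell z χ + κ1 * τ := by rw [mul_add, hlamκ]; ring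
      rw [e]
      exact T0) (by
      have e : Lr z χ 1 τ + κ1 = Lr z χ 1 τ - Lr z χ 1 σ := by rw [hκ1]; ring
      rw [e]
      exact T1) g1 g2 g3
  -- the size of lam
  have hlamL : lam * L ≤ 1 / 2 := by
    have e1 : ell z χ ≤ 1 / (16 * Cn) + Cb * δ1 ^ 2 := by
      rw [norm_Lj hχ2, abs_of_pos (Lr_pos (χ := χ) hχ2 hz hqz0 hqz hσ)] at hb
      have h1 := hb.trans_le (min_le_right _ _)
      rw [abs_le] at S0
      have h2 : 0 < κ1 * σ := by positivity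
      have h3 : Cb * L ^ 2 * σ ^ 2 ≤ Cb * δ1 ^ 2 := by
        have : (σ * L) ^ 2 ≤ δ1 ^ 2 := pow_le_pow_left₀ (by positivity) hσL 2
        calc Cb * L ^ 2 * σ ^ 2 = Cb * (σ * L) ^ 2 := by ring
          _ ≤ _ := mul_le_mul_of_nonneg_left this hCb0.le
      linarith [S0.1]
    have e2 : Cb * δ1 ^ 2 ≤ 1 / (16 * Cn) := by
      calc Cb * δ1 ^ 2 = Cb * δ1 * δ1 := by ring
        _ ≤ Cb * (1 / (16 * Cn * Cb)) * 1 := by gcongr; linarith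
        _ = 1 / (16 * Cn) := by field_simp
    have e3 : L / κ1 ≤ 4 * Cn := by
      rw [div_le_iff₀ hκ0]
      rw [div_le_iff₀ (by positivity)] at hκlow
      linarith
    calc lam * L = ell z χ * (L / κ1) := by rw [hlam]; ring
      _ ≤ (1 / (16 * Cn) + 1 / (16 * Cn)) * (4 * Cn) := by
          apply mul_le_mul (e1.trans (by linarith)) e3 (by positivity) (by positivity)
      _ = 1 / 2 := by field_simp; norm_num
  have hZ := Zz_asy (z := z) (τ := τ + lam) hz (by positivity) (by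
    rw [← hL]
    nlinarith)
  rw [← hL] at hZ
  have hZ2 : |Zz z (τ + lam) - 2 / (τ + lam) ^ 3| ≤ 16 * L / τ ^ 2 := by
    refine hZ.trans ?_
    apply div_le_div_of_nonneg_left (by positivity) (by positivity)
    apply pow_le_pow_left₀ hτ0.le
    linarith
  have e4 : ∀ d : ℝ, d + Zz z (τ + lam) = (d + 2 / (τ + lam) ^ 3) + (Zz z (τ + lam) - 2 / (τ + lam) ^ 3) := by
    intro d; ring
  rw [e4]
  refine (abs_add_le _ _).trans ((add_le_add halg hZ2).trans (le_of_eq ?_))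
  rw [hC]
  ring

end Pool.Agent.H536.OC
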