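import Mathlib
import Pool.Agent.H536.OC.C9

open Finset Filter Topology

/-! The main term of the averaged prime sums. -/

namespace Pool.Agent.H536.OC

open Pool.Agent.H378R2 Pool.Agent.H262R3.Lk
open Pool.Agent.H318R2.Cr (Rgh V)
open Pool.Agent.H536.OB

theorem asyG (c1 Cx ε : ℝ) (hc1 : 0 < c1) (hCx : 0 < Cx) (hε : 0 < ε) : ∃ N' J : ℕ, ∃ δ T0 : ℝ, 0 < N' ∧ 1 ≤ J ∧ 0 < δ ∧ 1 ≤ T0 ∧
    ∀ (z q b : ℕ) (T : ℝ) (χ1 : DirichletCharacter ℂ q) (s : ℝ) (m2 : ℕ → ℝ), 32 ≤ z → 1 ≤ q → q ^ 8 ≤ z → b.Coprime q → T0 ≤ T →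
    Real.log z ≤ δ * T → (s = 0 ∨ (χ1 ≠ 1 ∧ χ1 ^ 2 = 1 ∧ s = cr χ1 b)) →
    (∀ χ : DirichletCharacter ℂ q, χ ≠ 1 → (s = 0 ∨ χ ≠ χ1) → c1 ≤ ‖Lj z χ 0 (1 / T)‖) →
    (∀ n, 0 ≤ m2 n) → m2 0 = 0 → (∀ τ : ℝ, 0 < τ → Summable (fun n => m2 n * ker τ n)) →
    (∀ j < J, ‖((Bj z 1 1 2 (((j : ℝ) + 1) * (1 / T)) - LT m2 (((j : ℝ) + 1) * (1 / T)) : ℝ) : ℂ) +
      s * Dj z χ1 2 (((j : ℝ) + 1) * (1 / T))‖ ≤ Cx * Real.log z * T ^ 2) →
    |(q.totient : ℝ) * JJ (4 * N') T q b - kap (4 * N') * ∑' n : ℕ, m2 n * (GG (Real.log n / T) / n)| ≤ ε * T := by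
  classical
  obtain ⟨CB, hCB, hBup⟩ := Bj2_up
  obtain ⟨Ca, hCa, hasy⟩ := asy (c1 / 2) (by positivity)
  obtain ⟨Cb, hCb, hBnd⟩ := h_bnd
  obtain ⟨N', J, δ, T0, hN', hδ, hT0, hwin⟩ := window (CB + Ca + Cx) (Ca + Cx) ε (by positivity) (by positivity) hε
  have hCb0 : 0 < Cb := by linarith
  refine ⟨N', J + 1, min δ (min (1 / (J + 1 + 1)) (c1 / (2 * Cb * (J + 1 + 1)))), T0, hN', by omega,
    lt_min hδ (lt_min (by positivity) (by positivity)), hT0, ?_⟩
  intro z q b T χ1 s m2 hz hq hq8 hb hT hzT hs hχ hm0 hm1 hm2 hm3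
  have hTpos : 0 < T := by linarith
  have hne : NeZero q := ⟨by omega⟩
  have hzr : (32 : ℝ) ≤ z := by exact_mod_cast hz
  have hL : 0 < Real.log z := Real.log_pos (by linarith)
  have hqz : q ≤ z := (Nat.le_self_pow (by norm_num) q).trans hq8
  have hδ1 : Real.log z ≤ δ * T := hzT.trans (mul_le_mul_of_nonneg_right (min_le_left _ _) hTpos.le)
  have hJ0 : (0 : ℝ) ≤ J := Nat.cast_nonneg J
  have hδ2 : Real.log z ≤ 1 / (J + 1 + 1) * T :=
    hzT.trans (mul_le_mul_of_nonneg_right ((min_le_right _ _).trans (min_le_left _ _)) hTpos.le)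
  have hδ3 : Real.log z ≤ c1 / (2 * Cb * (J + 1 + 1)) * T :=
    hzT.trans (mul_le_mul_of_nonneg_right ((min_le_right _ _).trans (min_le_right _ _)) hTpos.le)
  have hLT1 : Real.log z ≤ T := by
    refine hδ2.trans ?_
    have : 1 / ((J : ℝ) + 1 + 1) ≤ 1 := by rw [div_le_one (by positivity)]; linarith
    nlinarith
  have hτ : ∀ j : ℕ, 0 < ((j : ℝ) + 1) * (1 / T) := fun j => by positivity
  have hτL : ∀ j < J + 1, ((j : ℝ) + 1) * (1 / T) * Real.log z ≤ 1 := by
    intro j hj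
    have hj' : (j : ℝ) + 1 ≤ J + 1 := by exact_mod_cast hj
    calc ((j : ℝ) + 1) * (1 / T) * Real.log z ≤ ((J : ℝ) + 1 + 1) * (1 / T) * (1 / (J + 1 + 1) * T) := by gcongr; linarith
      _ = 1 := by field_simp
  have hσL : 1 / T * Real.log z ≤ 1 := by
    rw [one_div, inv_mul_le_iff₀ hTpos, mul_one]
    exact hLT1
  have e3 : CB / (1 / T) ^ 3 = CB * T ^ 3 := by field_simp
  have hBq : (q.totient : ℝ) * Bj z q b 2 (1 / T) ≤ CB * T ^ 3 := by
    have := hBup z q b (1 / T) hz hq hq8 hb (by positivity) hσL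
    rwa [e3] at this
  have hT3 : 0 < T ^ 3 := by positivity
  have hdiff : ∀ j < J + 1, |(q.totient : ℝ) * Bj z q b 2 (((j : ℝ) + 1) * (1 / T)) - LT m2 (((j : ℝ) + 1) * (1 / T))| ≤
      (Ca + Cx) * Real.log z * T ^ 2 := by
    intro j hj
    have hm3j := hm3 j hj
    obtain ⟨τ, hτdef⟩ : ∃ τ : ℝ, τ = ((j : ℝ) + 1) * (1 / T) := ⟨_, rfl⟩
    rw [← hτdef] at hm3j ⊢
    have hτ0 := hτ j
    have hτ1 := hτL j hj
    rw [← hτdef] at hτ0 hτ1
    have hτσ : 1 / T ≤ τ := by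
      rw [hτdef]
      have : (0 : ℝ) ≤ j := Nat.cast_nonneg j
      have h1 : (0 : ℝ) < 1 / T := by positivity
      nlinarith
    -- other characters
    have hlow : ∀ χ : DirichletCharacter ℂ q, χ ≠ 1 → (s = 0 ∨ χ ≠ χ1) → c1 / 2 ≤ ‖Lj z χ 0 τ‖ := by
      intro χ h1 h2
      have h3 := hχ χ h1 h2
      have h4 := (hBnd z q χ (1 / T) hz hq hq8 (by positivity) hσL).2.2 h1 τ hτ0 hτ1
      have h5 : |1 / T - τ| ≤ ((J : ℝ) + 1) * (1 / T) := by
        rw [abs_of_nonpos (by linarith), hτdef]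
        have hj' : (j : ℝ) + 1 ≤ J + 1 := by exact_mod_cast hj
        have h1 : (0 : ℝ) < 1 / T := by positivity
        nlinarith
      have h6 : Cb * Real.log z * |1 / T - τ| ≤ c1 / 2 := by
        calc Cb * Real.log z * |1 / T - τ| ≤ Cb * (c1 / (2 * Cb * (J + 1 + 1)) * T) * (((J : ℝ) + 1) * (1 / T)) := by gcongr
          _ = c1 / 2 * ((J + 1) / (J + 1 + 1)) := by field_simp
          _ ≤ c1 / 2 * 1 := by
              apply mul_le_mul_of_nonneg_left _ (by positivity)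
              rw [div_le_one (by positivity)]
              linarith
          _ = c1 / 2 := mul_one _
      have h7 := norm_sub_norm_le (Lj z χ 0 (1 / T)) (Lj z χ 0 τ)
      linarith
    have key : ‖(((q.totient : ℝ) * Bj z q b 2 τ - Bj z 1 1 2 τ : ℝ) : ℂ) - s * Dj z χ1 2 τ‖ ≤ Ca * (τ * Real.log z) / τ ^ 3 := by
      rcases hs with h0 | ⟨h1, h2, h3⟩
      · have h4 := hasy z q b τ hz hq hq8 hb hτ0 hτ1 ∅ (by simp) (by simp) (fun χ hχ1 _ => hlow χ hχ1 (Or.inl h0))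
        rw [sum_empty, sub_zero] at h4
        rw [h0, Complex.ofReal_zero, zero_mul, sub_zero]
        exact h4
      · have h4 := hasy z q b τ hz hq hq8 hb hτ0 hτ1 {χ1} (by simp) (by intro χ hχ; rw [mem_singleton] at hχ; rw [hχ]; exact h1)
          (fun χ hχ1 hχ2 => hlow χ hχ1 (Or.inr (by rwa [mem_singleton] at hχ2)))
        rw [sum_singleton, (chi_inv h2 hb).1, ← h3] at h4
        exact h4
    have key2 : Ca * (τ * Real.log z) / τ ^ 3 ≤ Ca * Real.log z * T ^ 2 := by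
      have h8 : Ca * (τ * Real.log z) / τ ^ 3 = Ca * Real.log z * (1 / τ ^ 2) := by field_simp
      rw [h8]
      apply mul_le_mul_of_nonneg_left _ (by positivity)
      rw [div_le_iff₀ (by positivity)]
      have h9 : 1 ≤ T * τ := by
        rw [div_le_iff₀ hTpos] at hτσ
        linarith
      calc (1 : ℝ) ≤ (T * τ) ^ 2 := one_le_pow₀ h9
        _ = T ^ 2 * τ ^ 2 := by ring
    have e4 : (((q.totient : ℝ) * Bj z q b 2 τ - LT m2 τ : ℝ) : ℂ) =
        ((((q.totient : ℝ) * Bj z q b 2 τ - Bj z 1 1 2 τ : ℝ) : ℂ) - s * Dj z χ1 2 τ) +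
        (((Bj z 1 1 2 τ - LT m2 τ : ℝ) : ℂ) + s * Dj z χ1 2 τ) := by
      push_cast
      ring
    have e5 : |(q.totient : ℝ) * Bj z q b 2 τ - LT m2 τ| = ‖(((q.totient : ℝ) * Bj z q b 2 τ - LT m2 τ : ℝ) : ℂ)‖ := by
      rw [Complex.norm_real, Real.norm_eq_abs]
    rw [e5, e4]
    refine (norm_add_le _ _).trans ((add_le_add (key.trans key2) hm3j).trans (le_of_eq ?_))
    ring
  have hLTm : LT m2 (1 / T) ≤ (CB + Ca + Cx) * T ^ 3 := by
    have h1 := hdiff 0 (by omega)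
    rw [Nat.cast_zero, zero_add, one_mul, abs_le] at h1
    have h2 : (Ca + Cx) * Real.log z * T ^ 2 ≤ (Ca + Cx) * T ^ 3 := by
      calc (Ca + Cx) * Real.log z * T ^ 2 ≤ (Ca + Cx) * T * T ^ 2 := by gcongr
        _ = _ := by ring
    linarith [h1.1]
  apply hwin z q b T m2 hz hq hqz hT hδ1 hm0 hm1 (fun j _ => hm2 _ (hτ j)) hLTm
  · have : 0 < (Ca + Cx) * T ^ 3 := by positivity
    linarith
  · intro j hj
    exact hdiff j (by omega)

open Classical in
/-- the model weight -/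
noncomputable def mE (z : ℕ) (s lam : ℝ) (n : ℕ) : ℝ := if z < n then 1 - s * (n : ℝ) ^ (-lam) else 0

theorem mE_bd {z : ℕ} {s lam : ℝ} (hs : |s| ≤ 1) (hlam : 0 ≤ lam) (n : ℕ) : 0 ≤ mE z s lam n ∧ mE z s lam n ≤ 2 := by
  unfold mE
  split_ifs with h
  · have hn : (1 : ℝ) ≤ n := by exact_mod_cast (by omega : 1 ≤ n)
    have h1 : (n : ℝ) ^ (-lam) ≤ 1 := Real.rpow_le_one_of_one_le_of_nonpos hn (by linarith)
    have h2 : 0 ≤ (n : ℝ) ^ (-lam) := by positivity
    have h3 : |s * (n : ℝ) ^ (-lam)| ≤ 1 := by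
      rw [abs_mul, abs_of_nonneg h2]
      calc |s| * (n : ℝ) ^ (-lam) ≤ 1 * 1 := mul_le_mul hs h1 h2 zero_le_one
        _ = 1 := one_mul 1
    rw [abs_le] at h3
    constructor <;> linarith [h3.1, h3.2]
  · constructor <;> norm_num

theorem mE_sum {z : ℕ} {s lam : ℝ} (hs : |s| ≤ 1) (hlam : 0 ≤ lam) {τ : ℝ} (hτ : 0 < τ) :
    Summable (fun n => mE z s lam n * ker τ n) := by
  apply Summable.of_nonneg_of_le _ _ ((SUM.logpow_summable 2 τ hτ).mul_left 2)
  · intro n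
    exact mul_nonneg (mE_bd hs hlam n).1 (ker_nonneg τ n)
  · intro n
    exact mul_le_mul_of_nonneg_right (mE_bd hs hlam n).2 (ker_nonneg τ n)

theorem mE_LT {z : ℕ} {s lam : ℝ} (hlam : 0 ≤ lam) {τ : ℝ} (hτ : 0 < τ) :
    LT (mE z s lam) τ = Zz z τ - s * Zz z (τ + lam) := by
  classical
  unfold LT Zz
  rw [← tsum_mul_left, ← Summable.tsum_sub (Zz_sum z hτ) ((Zz_sum z (by linarith : 0 < τ + lam)).mul_left s)]
  apply tsum_congr
  intro n
  unfold mE
  split_ifs with h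
  · have hn : (0 : ℝ) < n := by exact_mod_cast (by omega : 0 < n)
    have h1 : ker (τ + lam) n = (n : ℝ) ^ (-lam) * ker τ n := by
      unfold ker
      rw [← add_assoc, Real.rpow_add hn (1 + τ) lam, Real.rpow_neg hn.le]
      have : (n : ℝ) ^ lam ≠ 0 := (Real.rpow_pos_of_pos hn lam).ne'
      have h2 : (n : ℝ) ^ (1 + τ) ≠ 0 := (Real.rpow_pos_of_pos hn _).ne'
      field_simp
    rw [h1]
    ring
  · ring

/-- the window contains enough integers -/
theorem win_low : ∃ T1 : ℝ, 1 ≤ T1 ∧ ∀ (z : ℕ) (T s lam c : ℝ), T1 ≤ T → Real.log z ≤ T → 1 ≤ z → |s| ≤ 1 → 0 ≤ lam → 0 ≤ c →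
    (∀ n : ℕ, T ≤ Real.log n → z < n → c ≤ mE z s lam n) →
    c * (T / 1000000) ≤ ∑' n : ℕ, mE z s lam n * (GG (Real.log n / T) / n) := by
  refine ⟨1000000, by norm_num, ?_⟩
  intro z T s lam c hT hzT hz hs hlam hc hlow
  have hT0 : 0 < T := by linarith
  set a := ⌈Real.exp (401 / 400 * T)⌉₊ with ha
  set b := ⌊Real.exp (403 / 400 * T)⌋₊ with hb
  have ha1 : Real.exp (401 / 400 * T) ≤ a := Nat.le_ceil _
  have ha2 : (a : ℝ) ≤ Real.exp (401 / 400 * T) + 1 := (Nat.ceil_lt_add_one (Real.exp_pos _).le).le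
  have hb1 : (b : ℝ) ≤ Real.exp (403 / 400 * T) := Nat.floor_le (Real.exp_pos _).le
  have hb2 : Real.exp (403 / 400 * T) ≤ b + 1 := (Nat.lt_floor_add_one _).le
  have hae : Real.exp (401 / 400 * T) + 1 ≤ Real.exp (402 / 400 * T) := by
    have h1 : Real.exp (402 / 400 * T) = Real.exp (401 / 400 * T) * Real.exp (T / 400) := by
      rw [← Real.exp_add]; ring_nf
    rw [h1]
    have h2 : 2 ≤ Real.exp (T / 400) := by
      have := Real.add_one_le_exp (T / 400)
      linarith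
    have h3 : 1 ≤ Real.exp (401 / 400 * T) := Real.one_le_exp (by positivity)
    nlinarith
  have hapos : 0 < a := by
    rw [ha]
    exact Nat.ceil_pos.2 (Real.exp_pos _)
  have hlogab : Real.log a ≤ 402 / 400 * T := by
    rw [Real.log_le_iff_le_exp (by exact_mod_cast hapos)]
    linarith
  have hab : a ≤ b := by
    apply Nat.le_floor
    refine ha2.trans (hae.trans (Real.exp_le_exp.2 (by linarith)))
  have hsum : 1 / 400 * T - 3 / 2 ≤ ∑ n ∈ Ioc a b, 1 / (n : ℝ) := by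
    have h1 := harm_diff (z := a) (N := b) hapos hab
    have h2 : ∑ n ∈ Ioc 0 b, (if a < n then 1 / (n : ℝ) else 0) = ∑ n ∈ Ioc a b, 1 / (n : ℝ) := by
      rw [← sum_filter]
      congr 1
      ext n
      simp only [mem_filter, mem_Ioc]
      omega
    rw [h2, abs_le] at h1
    -- log b ≥ 403/400 T - small
    have h3 : 403 / 400 * T - 1 / 2 ≤ Real.log b := by
      rw [Real.le_log_iff_exp_le (by exact_mod_cast (by omega : 0 < b)), Real.exp_sub]
      rw [div_le_iff₀ (Real.exp_pos _)]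
      have h4 : 3 / 2 ≤ Real.exp (1 / 2) := by
        have := Real.add_one_le_exp (1 / 2 : ℝ)
        linarith
      have h5 : (2 : ℝ) ≤ b := by
        have h6 : (3 : ℝ) ≤ Real.exp (403 / 400 * T) := by
          have := Real.add_one_le_exp (403 / 400 * T)
          linarith
        linarith
      nlinarith
    have h6 : ∑ n ∈ Ioc a b, 1 / (n : ℝ) ≥ Real.log b - Real.log a - 1 := by linarith [h1.1]
    -- improve: use the constant T/400 - 3/2
    have h7 : (1 / 400 : ℝ) * T - 3 / 2 ≤ ∑ n ∈ Ioc a b, 1 / (n : ℝ) := by linarith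
    linarith
  have hfin : ∀ n ∉ Ioc 0 ⌈Real.exp (101 / 100 * T)⌉₊, mE z s lam n * (GG (Real.log n / T) / n) = 0 := by
    intro n hn
    rw [mem_Ioc, not_and_or] at hn
    rcases hn with hn | hn
    · have : n = 0 := by omega
      rw [this]
      simp
    · push Not at hn
      have h1 : Real.exp (101 / 100 * T) ≤ n := (Nat.le_ceil _).trans (by exact_mod_cast hn.le)
      have h2 : 101 / 100 * T ≤ Real.log n := by
        rw [Real.le_log_iff_exp_le]
        · exact h1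
        · exact lt_of_lt_of_le (Real.exp_pos _) h1
      rw [GG_zero (Or.inr (by rw [le_div_iff₀ hT0]; exact h2))]
      ring
  rw [tsum_eq_sum hfin]
  have hsub : Ioc a b ⊆ Ioc 0 ⌈Real.exp (101 / 100 * T)⌉₊ := by
    intro n hn
    rw [mem_Ioc] at hn ⊢
    refine ⟨by omega, hn.2.trans ?_⟩
    have h1 : (b : ℝ) ≤ (⌈Real.exp (101 / 100 * T)⌉₊ : ℝ) := by
      refine hb1.trans ((Real.exp_le_exp.2 (by linarith)).trans (Nat.le_ceil _))
    exact_mod_cast h1
  calc c * (T / 1000000) ≤ c * ((1 / 400) * (1 / 400 * T - 3 / 2)) := by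
        apply mul_le_mul_of_nonneg_left _ hc
        linarith
    _ ≤ c * ((1 / 400) * ∑ n ∈ Ioc a b, 1 / (n : ℝ)) := by gcongr
    _ = ∑ n ∈ Ioc a b, c * ((1 / 400) / n) := by
        rw [mul_sum, mul_sum]
        apply sum_congr rfl
        intro n _
        ring
    _ ≤ ∑ n ∈ Ioc a b, mE z s lam n * (GG (Real.log n / T) / n) := by
        apply sum_le_sum
        intro n hn
        rw [mem_Ioc] at hn
        have hn0 : (0 : ℝ) < n := by exact_mod_cast (by omega : 0 < n)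
        have h1 : 401 / 400 * T ≤ Real.log n := by
          rw [Real.le_log_iff_exp_le hn0]
          exact ha1.trans (by exact_mod_cast hn.1.le)
        have h2 : Real.log n ≤ 403 / 400 * T := by
          rw [Real.log_le_iff_le_exp hn0]
          exact (by exact_mod_cast hn.2 : (n : ℝ) ≤ b).trans hb1
        have hzn : z < n := by
          have h3 : Real.log z < Real.log n := by linarith
          have h4 := (Real.log_lt_log_iff (by exact_mod_cast hz) hn0).1 h3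
          exact_mod_cast h4
        have h3 := hlow n (by linarith) hzn
        have h4 : 1 / 400 ≤ GG (Real.log n / T) := by
          unfold GG
          apply le_max_of_le_right
          have e1 : |Real.log n / T - 1 - 1 / 200| ≤ 1 / 400 := by
            rw [abs_le]
            have e2 : 401 / 400 ≤ Real.log n / T := by rw [le_div_iff₀ hT0]; exact h1
            have e3 : Real.log n / T ≤ 403 / 400 := by rw [div_le_iff₀ hT0]; exact h2
            constructor <;> linarith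
          linarith
        apply mul_le_mul h3 _ (by positivity) (hc.trans h3)
        exact div_le_div_of_nonneg_right h4 hn0.le
    _ ≤ _ := by
        apply sum_le_sum_of_subset_of_nonneg hsub
        intro n _ _
        exact mul_nonneg (mE_bd hs hlam n).1 (div_nonneg (GG_nonneg _) (Nat.cast_nonneg n))

end Pool.Agent.H536.OC
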