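import Mathlib
import Pool.Agent.H536.OC.C10

open Finset Filter Topology

/-! The alternative: a main term of the right size for all small multiples of the modulus, or a character close to `1 * χ`. -/

namespace Pool.Agent.H536.OC

open Pool.Agent.H378R2 Pool.Agent.H262R3.Lk
open Pool.Agent.H318R2.Cr (Rgh V)
open Pool.Agent.H536.OB

theorem lift_Dj {z m Q : ℕ} [NeZero m] (h : Q ∣ m) (hd : ∀ p : ℕ, p.Prime → p ∣ m → p ∣ Q ∨ p ≤ z)
    (ψ : DirichletCharacter ℂ Q) (j : ℕ) (σ : ℝ) :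
    Dj z (DirichletCharacter.changeLevel h ψ) j σ = Dj z ψ j σ := by
  unfold Dj
  apply tsum_congr
  intro n
  congr 1
  unfold fz
  split_ifs with hn
  · exact lift_val h hd ψ hn
  · rfl

theorem DT : ∃ CE : ℝ, 0 < CE ∧ ∀ c2 : ℝ, 0 < c2 → c2 ≤ 1 → ∀ ε : ℝ, 0 < ε → ∃ N' : ℕ, ∃ δ T0 : ℝ, 0 < N' ∧ 0 < δ ∧ 1 ≤ T0 ∧
    ∀ (z Q D B : ℕ) [NeZero Q] (T : ℝ), 32 ≤ z → 1 ≤ D → (Q * D * D) ^ 8 ≤ z → B.Coprime Q → T0 ≤ T → Real.log z ≤ δ * T →
    (∃ (MM : ℝ) (l1 : ℕ), c2 * T / 100000000 ≤ MM ∧ (l1 = 0 ∨ l1.Prime) ∧ ∀ d b : ℕ, 1 ≤ d → d ≤ D → ¬ l1 ∣ d → b ≡ B [MOD Q] →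
      b.Coprime (Q * d) → |((Q * d).totient : ℝ) * JJ (4 * N') T (Q * d) b - MM| ≤ ε * T) ∨
    (∃ χ : DirichletCharacter ℂ Q, χ ≠ 1 ∧ χ ^ 2 = 1 ∧ cr χ B = 1 ∧ ell z χ ≤ CE * c2 * (Real.log z / T)) := by
  classical
  obtain ⟨c1a, δa, hc1a, hδa, hδa1, hnb⟩ := no_bad
  obtain ⟨c1b, δb, hc1b, hδb, hδb1, hlow⟩ := lowq
  obtain ⟨Ce, δe, ηe, hCe, hδe, hδe1, hηe, hexc⟩ := exc_asy
  obtain ⟨Cz, hCz, hprin⟩ := prin_Z
  obtain ⟨T1, hT1, hwin⟩ := win_low
  refine ⟨Ce, by linarith, ?_⟩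
  intro c2 hc2 hc21 ε hε
  set cs := min c1a (min c1b ηe) with hcs
  have hcs0 : 0 < cs := lt_min hc1a (lt_min hc1b hηe)
  have hcsa : cs ≤ c1a := min_le_left _ _
  have hcsb : cs ≤ c1b := (min_le_right _ _).trans (min_le_left _ _)
  have hcse : cs ≤ ηe := (min_le_right _ _).trans (min_le_right _ _)
  have hCe0 : 0 < Ce := by linarith
  obtain ⟨N', J, δg, T0g, hN', hJ, hδg, hT0g, hG⟩ := asyG cs (Cz + Ce) ε hcs0 (by positivity) hε
  have hJr : (1 : ℝ) ≤ J := by exact_mod_cast hJ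
  refine ⟨N', min δg (min δa (min δb (δe / J))), max T0g T1, hN', lt_min hδg (lt_min hδa (lt_min hδb (by positivity))),
    hT0g.trans (le_max_left _ _), ?_⟩
  intro z Q D B _ T hz hD hzD hB hT hzT
  have hQ : 1 ≤ Q := Nat.pos_of_ne_zero (NeZero.ne Q)
  have hT0g' : T0g ≤ T := (le_max_left _ _).trans hT
  have hT1' : T1 ≤ T := (le_max_right _ _).trans hT
  have hTpos : 0 < T := by linarith
  have hL3 := COMB.log32 z hz
  have hLpos : 0 < Real.log z := by linarith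
  have hz1 : Real.log z ≤ δg * T := hzT.trans (mul_le_mul_of_nonneg_right (min_le_left _ _) hTpos.le)
  have hz2 : Real.log z ≤ δa * T :=
    hzT.trans (mul_le_mul_of_nonneg_right ((min_le_right _ _).trans (min_le_left _ _)) hTpos.le)
  have hz3 : Real.log z ≤ δb * T :=
    hzT.trans (mul_le_mul_of_nonneg_right ((min_le_right _ _).trans ((min_le_right _ _).trans (min_le_left _ _))) hTpos.le)
  have hz4 : Real.log z ≤ δe / J * T :=
    hzT.trans (mul_le_mul_of_nonneg_right ((min_le_right _ _).trans ((min_le_right _ _).trans (min_le_right _ _))) hTpos.le)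
  have hzT' : Real.log z ≤ T := by
    refine hz2.trans ?_
    nlinarith
  have hσ0 : (0 : ℝ) < 1 / T := by positivity
  have hσa : 1 / T * Real.log z ≤ δa := by
    rw [one_div, inv_mul_le_iff₀ hTpos]; linarith
  have hσb : 1 / T * Real.log z ≤ δb := by
    rw [one_div, inv_mul_le_iff₀ hTpos]; linarith
  have hτe : ∀ j < J, ((j : ℝ) + 1) * (1 / T) * Real.log z ≤ δe := by
    intro j hj
    have hj' : (j : ℝ) + 1 ≤ J := by exact_mod_cast hj
    calc ((j : ℝ) + 1) * (1 / T) * Real.log z ≤ (J : ℝ) * (1 / T) * (δe / J * T) := by gcongr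
      _ = δe := by field_simp
  have hσe : 1 / T * Real.log z ≤ δe := by
    have := hτe 0 (by omega)
    simpa using this
  have hstep : ∀ d : ℕ, 1 ≤ d → d ≤ D → (Q * d) ^ 8 ≤ z := by
    intro d hd1 hd2
    refine (Nat.pow_le_pow_left ?_ 8).trans hzD
    calc Q * d ≤ Q * D := Nat.mul_le_mul le_rfl hd2
      _ = Q * D * 1 := (mul_one _).symm
      _ ≤ Q * D * D := Nat.mul_le_mul le_rfl hD
  have hQ8 : Q ^ 8 ≤ z := by
    have := hstep 1 le_rfl hD
    rwa [mul_one] at this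
  obtain ⟨l1, hl1, hnbl⟩ := hnb z Q D (1 / T) hz hQ hD hzD hσ0 hσa
  have hprim : ∀ d : ℕ, 1 ≤ d → d ≤ D → ∀ p : ℕ, p.Prime → p ∣ Q * d → p ∣ Q ∨ p ≤ z := by
    intro d hd1 hd2 p hp hpd
    right
    have h1 : p ≤ Q * d := Nat.le_of_dvd (Nat.mul_pos hQ hd1) hpd
    exact (h1.trans (Nat.le_self_pow (by norm_num) _)).trans (hstep d hd1 hd2)
  have hinvT : ∀ j : ℕ, 1 / (((j : ℝ) + 1) * (1 / T)) ^ 2 ≤ T ^ 2 := by
    intro j
    rw [div_le_iff₀ (by positivity)]
    have h1 : (1 : ℝ) ≤ (j : ℝ) + 1 := by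
      have : (0 : ℝ) ≤ j := Nat.cast_nonneg j
      linarith
    calc (1 : ℝ) ≤ ((j : ℝ) + 1) ^ 2 := one_le_pow₀ h1
      _ = T ^ 2 * (((j : ℝ) + 1) * (1 / T)) ^ 2 := by field_simp
  -- general construction
  have gen : ∀ (χ1 : DirichletCharacter ℂ Q) (s lam : ℝ), (s = 0 ∨ (χ1 ≠ 1 ∧ χ1 ^ 2 = 1 ∧ s = cr χ1 B)) →
      (∀ χ : DirichletCharacter ℂ Q, χ ≠ 1 → (s = 0 ∨ χ ≠ χ1) → cs ≤ ‖Lj z χ 0 (1 / T)‖) → 0 ≤ lam → |s| ≤ 1 →
      (∀ j < J, ‖((Bj z 1 1 2 (((j : ℝ) + 1) * (1 / T)) - LT (mE z s lam) (((j : ℝ) + 1) * (1 / T)) : ℝ) : ℂ) +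
        s * Dj z χ1 2 (((j : ℝ) + 1) * (1 / T))‖ ≤ (Cz + Ce) * Real.log z * T ^ 2) →
      (∀ n : ℕ, T ≤ Real.log n → z < n → c2 / 2 ≤ mE z s lam n) →
      ∃ (MM : ℝ) (l1 : ℕ), c2 * T / 100000000 ≤ MM ∧ (l1 = 0 ∨ l1.Prime) ∧ ∀ d b : ℕ, 1 ≤ d → d ≤ D → ¬ l1 ∣ d → b ≡ B [MOD Q] →
      b.Coprime (Q * d) → |((Q * d).totient : ℝ) * JJ (4 * N') T (Q * d) b - MM| ≤ ε * T := by
    intro χ1 s lam hs hoth hlam hs1 hdiff hmlow
    refine ⟨kap (4 * N') * ∑' n : ℕ, mE z s lam n * (GG (Real.log n / T) / n), l1, ?_, hl1, ?_⟩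
    · have h1 := hwin z T s lam (c2 / 2) hT1' hzT' (by omega) hs1 hlam (by positivity) hmlow
      have h2 := kap_low hN'
      have h3 : 0 ≤ c2 / 2 * (T / 1000000) := by positivity
      calc c2 * T / 100000000 ≤ (1 / 8) * (c2 / 2 * (T / 1000000)) := by
            have : 0 < c2 * T := by positivity
            linarith
        _ ≤ kap (4 * N') * (c2 / 2 * (T / 1000000)) := mul_le_mul_of_nonneg_right h2 h3
        _ ≤ _ := mul_le_mul_of_nonneg_left h1 (by linarith)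
    intro d b hd1 hd2 hl1d hbB hbc
    have hQd : 0 < Q * d := Nat.mul_pos hQ hd1
    have hne : NeZero (Q * d) := ⟨hQd.ne'⟩
    have hdv : Q ∣ Q * d := Nat.dvd_mul_right _ _
    have hbQ : b.Coprime Q := hbc.coprime_dvd_right hdv
    apply hG z (Q * d) b T (DirichletCharacter.changeLevel hdv χ1) s (mE z s lam) hz hQd (hstep d hd1 hd2) hbc hT0g' hz1
    · rcases hs with h | ⟨h1, h2, h3⟩
      · exact Or.inl h
      · right
        refine ⟨?_, ?_, ?_⟩
        · intro h4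
          rw [← DirichletCharacter.changeLevel_one hdv] at h4
          exact h1 (DirichletCharacter.changeLevel_injective hdv h4)
        · rw [← map_pow, h2, map_one]
        · rw [cr_lift hdv χ1 hbc, h3]
          unfold cr
          have : (b : ZMod Q) = (B : ZMod Q) := (ZMod.natCast_eq_natCast_iff b B Q).2 hbB
          rw [this]
    · intro χ hχ1 hχ2
      by_cases hf : χ.FactorsThrough Q
      · obtain ⟨_, ψ, hψ⟩ := hf
        rw [hψ, lift_Lj _ (hprim d hd1 hd2)]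
        apply hoth
        · rintro rfl
          apply hχ1
          rw [hψ, DirichletCharacter.changeLevel_one]
        · rcases hχ2 with h | h
          · exact Or.inl h
          · right
            rintro rfl
            exact h hψ
      · exact hcsa.trans (hnbl d hd1 hd2 hl1d χ hf)
    · intro n
      exact (mE_bd hs1 hlam n).1
    · unfold mE
      simp
    · intro τ hτ
      exact mE_sum hs1 hlam hτ
    · intro j hj
      rw [lift_Dj hdv (hprim d hd1 hd2)]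
      exact hdiff j hj
  by_cases hall : ∀ χ : DirichletCharacter ℂ Q, χ ≠ 1 → cs ≤ ‖Lj z χ 0 (1 / T)‖
  · left
    apply gen 1 0 0 (Or.inl rfl) (fun χ h _ => hall χ h) le_rfl (by simp)
    · intro j hj
      have hτ0 : 0 < ((j : ℝ) + 1) * (1 / T) := by positivity
      rw [mE_LT le_rfl hτ0]
      simp only [Complex.ofReal_zero, zero_mul, add_zero, sub_zero]
      rw [Complex.norm_real, Real.norm_eq_abs]
      have h1 := hprin z _ (by omega) hτ0
      refine h1.trans ?_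
      calc Cz / (((j : ℝ) + 1) * (1 / T)) ^ 2 = Cz * (1 / (((j : ℝ) + 1) * (1 / T)) ^ 2) := by ring
        _ ≤ Cz * T ^ 2 := mul_le_mul_of_nonneg_left (hinvT j) hCz.le
        _ ≤ (Cz + Ce) * Real.log z * T ^ 2 := by
            apply mul_le_mul_of_nonneg_right _ (by positivity)
            nlinarith
    · intro n _ hzn
      unfold mE
      rw [if_pos hzn, zero_mul, sub_zero]
      linarith
  push Not at hall
  obtain ⟨χ0, hχ0, hbad⟩ := hall
  rcases hlow z Q (1 / T) hz hQ hQ8 hσ0 hσb with h3 | ⟨χ1, h4, h5, _, h6⟩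
  · exact absurd (h3 χ0 hχ0) (not_le.2 (hbad.trans_le hcsb))
  have hχ01 : χ0 = χ1 := by
    by_contra h7
    exact absurd (h6 χ0 hχ0 h7) (not_le.2 (hbad.trans_le hcsb))
  subst hχ01
  obtain ⟨lam, hlam0, hell, hasym⟩ := hexc z Q χ0 (1 / T) hz hQ8 hχ0 h5 hσ0 hσe (hbad.trans_le hcse)
  have hvals : cr χ0 B = 1 ∨ cr χ0 B = -1 := by
    rcases cr_vals h5 B with h | h | h
    · exfalso
      have := (chi_inv h5 hB).2.2
      rw [h] at this
      norm_num at this
    · exact Or.inl h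
    · exact Or.inr h
  by_cases hcase : cr χ0 B = 1 ∧ lam * T < c2
  · right
    refine ⟨χ0, hχ0, h5, hcase.1, hell.trans ?_⟩
    have h7 : lam ≤ c2 / T := by
      rw [le_div_iff₀ hTpos]
      exact hcase.2.le
    calc Ce * lam * Real.log z ≤ Ce * (c2 / T) * Real.log z := by gcongr
      _ = _ := by ring
  · left
    have hs1 : |cr χ0 B| ≤ 1 := cr_abs h5 B
    apply gen χ0 (cr χ0 B) lam (Or.inr ⟨hχ0, h5, rfl⟩)
    · intro χ hχ1 hχ2
      rcases hχ2 with h | h
      · rcases hvals with h' | h' <;> rw [h] at h' <;> norm_num at h'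
      · exact hcsb.trans (h6 χ hχ1 h)
    · exact hlam0
    · exact hs1
    · intro j hj
      have hτ0 : 0 < ((j : ℝ) + 1) * (1 / T) := by positivity
      have hστ : 1 / T ≤ ((j : ℝ) + 1) * (1 / T) := by
        have : (0 : ℝ) ≤ j := Nat.cast_nonneg j
        nlinarith
      rw [mE_LT hlam0 hτ0]
      set τ := ((j : ℝ) + 1) * (1 / T) with hτ
      have e1 : ((Bj z 1 1 2 τ - (Zz z τ - cr χ0 B * Zz z (τ + lam)) : ℝ) : ℂ) + (cr χ0 B : ℝ) * Dj z χ0 2 τ =
          ((Bj z 1 1 2 τ - Zz z τ : ℝ) : ℂ) + (cr χ0 B : ℝ) * (Dj z χ0 2 τ + ((Zz z (τ + lam) : ℝ) : ℂ)) := by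
        push_cast
        ring
      rw [e1]
      have h7 := hprin z τ (by omega) hτ0
      have h8 := hasym τ hστ (hτe j hj)
      have h9 : ‖((Bj z 1 1 2 τ - Zz z τ : ℝ) : ℂ)‖ ≤ Cz / τ ^ 2 := by
        rw [Complex.norm_real, Real.norm_eq_abs]
        exact h7
      have h10 : ‖((cr χ0 B : ℝ) : ℂ) * (Dj z χ0 2 τ + ((Zz z (τ + lam) : ℝ) : ℂ))‖ ≤ Ce * Real.log z / τ ^ 2 := by
        rw [norm_mul, Complex.norm_real, Real.norm_eq_abs]
        calc |cr χ0 B| * ‖Dj z χ0 2 τ + ((Zz z (τ + lam) : ℝ) : ℂ)‖ ≤ 1 * (Ce * Real.log z / τ ^ 2) :=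
              mul_le_mul hs1 h8 (norm_nonneg _) zero_le_one
          _ = _ := one_mul _
      refine (norm_add_le _ _).trans ((add_le_add h9 h10).trans ?_)
      have h11 := hinvT j
      rw [← hτ] at h11
      calc Cz / τ ^ 2 + Ce * Real.log z / τ ^ 2 = (Cz + Ce * Real.log z) * (1 / τ ^ 2) := by ring
        _ ≤ (Cz * Real.log z + Ce * Real.log z) * T ^ 2 := by
            apply mul_le_mul _ h11 (by positivity) (by positivity)
            nlinarith
        _ = _ := by ring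
    · intro n hn hzn
      unfold mE
      rw [if_pos hzn]
      have hn0 : (0 : ℝ) < n := by exact_mod_cast (by omega : 0 < n)
      have hp0 : 0 < (n : ℝ) ^ (-lam) := Real.rpow_pos_of_pos hn0 _
      rcases hvals with h | h
      · rw [h, one_mul]
        have hlT : c2 ≤ lam * T := by
          by_contra h7
          exact hcase ⟨h, lt_of_not_ge h7⟩
        have h7 : (n : ℝ) ^ (-lam) ≤ Real.exp (-c2) := by
          rw [Real.rpow_def_of_pos hn0]
          apply Real.exp_le_exp.2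
          have : lam * T ≤ lam * Real.log n := mul_le_mul_of_nonneg_left hn hlam0
          nlinarith
        have h8 : Real.exp (-c2) ≤ 1 - c2 / 2 := by
          have h9 : Real.exp (-c2) * (1 + c2) ≤ 1 := by
            have h10 : 1 + c2 ≤ Real.exp c2 := by linarith [Real.add_one_le_exp c2]
            calc Real.exp (-c2) * (1 + c2) ≤ Real.exp (-c2) * Real.exp c2 := mul_le_mul_of_nonneg_left h10 (Real.exp_pos _).le
              _ = 1 := by rw [← Real.exp_add]; simp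
          have h10 : 1 ≤ (1 - c2 / 2) * (1 + c2) := by nlinarith
          have h11 : 0 < 1 + c2 := by linarith
          by_contra h12
          push Not at h12
          have := mul_lt_mul_of_pos_right h12 h11
          linarith
        linarith
      · rw [h]
        linarith

end Pool.Agent.H536.OC
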