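import Mathlib
import Pool.Graph.R_pool_sql_team_seeded_f0cf7b00.H262R3.Lk.Rel2

/-!
# Bombieri-Vinogradov relative to an arbitrary progression, to the level `1/2 - ε`

Subtask B of helper536 (by helper604).  Adaptation of `Pool.Agent.H262R3.Lk.relbv`.
-/

open Finset Filter Topology

namespace Pool.Agent.H536.OC.BVH

open Pool.Agent.H262R3.Lk
open Pool.Agent.H378R2 Pool.Agent.H378R2.LSBV Pool.Agent.H398R2.BV Pool.Agent.Helper112 Pool.Agent.H262R2.UM
open Pool.Agent.H410R2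

theorem main_alg (A : ℕ) (Y M1 M2 K2 C5 Cw S E3 : ℝ) (hY : 1 ≤ Y) (hC5 : 0 < C5) (hK2 : 0 ≤ K2)
    (hwt : ∀ b : ℕ, 1 ≤ b → LSBV.wt A b ≤ C5 / Real.sqrt b)
    (Q P0 R F0 z : ℕ) (hQ1 : 1 ≤ Q) (hQP : Q ∣ P0)
    (hwt2 : ∀ b : ℕ, 1 ≤ b → b ≤ R → (b.divisors.card : ℝ) ^ A ≤ K2)
    (hz : ∀ p : ℕ, p.Prime → p ≤ z → p ∣ P0) (hz0 : 1 ≤ z) (hS : S = Real.sqrt z)
    (hall1 : ∑ f ∈ Icc 2 F0, TT Y f ≤ M1)
    (hall2 : ∑ f ∈ Icc (F0 + 1) (Q * R), (1 / (Nat.totient f : ℝ)) * TT Y f ≤ M2)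
    (hsumwt : ∑ e ∈ Icc 1 R, LSBV.wt A e ≤ Cw)
    (h3 : ∑ q ∈ QQ 1 P0 R, (q.divisors.card : ℝ) ^ A * (2 * ((Q * q).primeFactors.card * Real.log (3 * Y))) ≤ E3)
    (b : ℕ → ℕ) (hb : ∀ q, 1 ≤ q → (b q).Coprime (Q * q)) :
    ∑ q ∈ QQ 1 P0 R, (q.divisors.card : ℝ) ^ A * |ER Y Q q (b q)| ≤
      (1 / (Q.totient : ℝ)) * (Cw * (C5 / S * M1 + K2 * Q * M2)) + E3 := by
  classical
  have hQQ : QQ 1 P0 R ⊆ QQ Q P0 R := by
    intro q hq
    rw [mem_QQ] at hq ⊢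
    refine ⟨hq.1, hq.2.1, ?_⟩
    have h1 : q.Coprime P0 := Nat.Coprime.coprime_mul_left_right hq.2.2
    have h2 : q.Coprime Q := h1.coprime_dvd_right hQP
    exact Nat.Coprime.mul_right h2 h1
  -- truncated T
  set T' : ℕ → ℝ := fun f => if f ∣ Q then 0 else TT Y f with hT'
  have hT'0 : ∀ f, 0 ≤ T' f := by
    intro f
    rw [hT']
    simp only
    split_ifs
    · exact le_rfl
    · exact TT_nonneg Y f
  have hT'le : ∀ f, T' f ≤ TT Y f := by
    intro f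
    rw [hT']
    simp only
    split_ifs
    · exact TT_nonneg Y f
    · exact le_rfl
  have h4 : ∀ q ∈ QQ 1 P0 R, (q.divisors.card : ℝ) ^ A * |ER Y Q q (b q)| ≤
      (q.divisors.card : ℝ) ^ A * ((1 / (Nat.totient (Q * q) : ℝ)) *
        ∑ f ∈ (Q * q).divisors.filter (fun f => f ≠ 1), T' f) +
      (q.divisors.card : ℝ) ^ A * (2 * ((Q * q).primeFactors.card * Real.log (3 * Y))) := by
    intro q hq
    have hq' := hQQ hq
    rw [mem_QQ] at hq'
    have hqQ : Q.Coprime q := (Nat.Coprime.coprime_mul_right_right hq'.2.2).symm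
    rw [← mul_add]
    apply mul_le_mul_of_nonneg_left _ (by positivity)
    refine (ER_le Y hY Q q (b q) hQ1 hq'.1.1 hqQ (hb q hq'.1.1)).trans (le_of_eq ?_)
    congr 2
    rw [sum_filter, sum_filter]
    apply sum_congr rfl
    intro f _
    rw [hT']
    simp only
    by_cases hf1 : f = 1
    · subst hf1; simp
    · by_cases hfQ : f ∣ Q
      · simp [hfQ]
      · simp [hfQ, hf1]
  have hS0 : 0 < S := by rw [hS]; apply Real.sqrt_pos.2; exact_mod_cast hz0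
  have hQr : (1 : ℝ) ≤ Q := by exact_mod_cast hQ1
  have h5 : ∑ q ∈ QQ 1 P0 R, (q.divisors.card : ℝ) ^ A * ((1 / (Nat.totient (Q * q) : ℝ)) *
        ∑ f ∈ (Q * q).divisors.filter (fun f => f ≠ 1), T' f) ≤
      (1 / (Q.totient : ℝ)) * (Cw * (C5 / S * M1 + K2 * Q * M2)) := by
    have h6 : ∑ q ∈ QQ 1 P0 R, (q.divisors.card : ℝ) ^ A * ((1 / (Nat.totient (Q * q) : ℝ)) *
        ∑ f ∈ (Q * q).divisors.filter (fun f => f ≠ 1), T' f) ≤
        ∑ q ∈ QQ Q P0 R, (q.divisors.card : ℝ) ^ A * ((1 / (Nat.totient (Q * q) : ℝ)) *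
        ∑ f ∈ (Q * q).divisors.filter (fun f => f ≠ 1), T' f) := by
      apply sum_le_sum_of_subset_of_nonneg hQQ
      intro q _ _
      exact mul_nonneg (by positivity) (mul_nonneg (by positivity) (sum_nonneg fun f _ => hT'0 f))
    refine h6.trans ((main_swap A T' hT'0 Q P0 R hQ1).trans ?_)
    apply mul_le_mul_of_nonneg_left _ (by positivity)
    have h7 : 0 ≤ ∑ e ∈ Icc 1 R, LSBV.wt A e := sum_nonneg fun e _ => wt_nonneg A e
    apply mul_le_mul hsumwt _ (sum_nonneg fun p _ => mul_nonneg (wt_nonneg A _) (hT'0 _)) (h7.trans hsumwt)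
    have h8 : ∀ p ∈ (Q.divisors ×ˢ QQ Q P0 R).filter (fun p => p.1 * p.2 ≠ 1),
        LSBV.wt A p.2 * T' (p.1 * p.2) ≤
          (if p.1 * p.2 ≤ F0 then (C5 / S) * TT Y (p.1 * p.2) else 0) +
          (if F0 < p.1 * p.2 then
            (K2 * Q) * ((1 / (Nat.totient (p.1 * p.2) : ℝ)) * TT Y (p.1 * p.2)) else 0) := by
      intro p hp
      rw [mem_filter, mem_product, Nat.mem_divisors, mem_QQ] at hp
      have hn1 : 0 ≤ (C5 / S) * TT Y (p.1 * p.2) :=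
        mul_nonneg (by positivity) (TT_nonneg Y _)
      have hn2 : 0 ≤ (K2 * Q) * ((1 / (Nat.totient (p.1 * p.2) : ℝ)) * TT Y (p.1 * p.2)) :=
        mul_nonneg (by positivity) (mul_nonneg (by positivity) (TT_nonneg Y _))
      by_cases h1 : p.2 = 1
      · have h2 : T' (p.1 * p.2) = 0 := by
          rw [h1, mul_one, hT']; simp only; rw [if_pos hp.1.1.1]
        rw [h2, mul_zero]
        apply add_nonneg
        · split_ifs
          · exact hn1
          · exact le_rfl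
        · split_ifs
          · exact hn2
          · exact le_rfl
      · rcases Nat.lt_or_ge F0 (p.1 * p.2) with h2 | h2
        · rw [if_neg (by omega), if_pos h2, zero_add]
          have hp1 : 1 ≤ p.1 := Nat.pos_of_dvd_of_pos hp.1.1.1 hQ1
          have hcop : p.1.Coprime p.2 :=
            ((Nat.Coprime.coprime_mul_right_right hp.1.2.2.2).symm).coprime_dvd_left hp.1.1.1
          have hφ1 : (0:ℝ) < Nat.totient p.1 := by exact_mod_cast Nat.totient_pos.mpr hp1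
          have hφ2 : (0:ℝ) < Nat.totient p.2 := by exact_mod_cast Nat.totient_pos.mpr hp.1.2.1.1
          have hφQ : (Nat.totient p.1 : ℝ) ≤ Q := by
            exact_mod_cast (Nat.totient_le p.1).trans (Nat.le_of_dvd hQ1 hp.1.1.1)
          have e1 : LSBV.wt A p.2 ≤ (K2 * Q) * (1 / (Nat.totient (p.1 * p.2) : ℝ)) := by
            unfold LSBV.wt
            rw [Nat.totient_mul hcop]
            push_cast
            rw [mul_one_div, div_le_div_iff₀ hφ2 (by positivity)]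
            have h9 := hwt2 p.2 hp.1.2.1.1 hp.1.2.1.2
            calc (p.2.divisors.card : ℝ) ^ A * (Nat.totient p.1 * Nat.totient p.2) ≤
                K2 * (Q * Nat.totient p.2) := by
                  apply mul_le_mul h9 _ (by positivity) hK2
                  exact mul_le_mul_of_nonneg_right hφQ hφ2.le
              _ = _ := by ring
          calc LSBV.wt A p.2 * T' (p.1 * p.2) ≤
              ((K2 * Q) * (1 / (Nat.totient (p.1 * p.2) : ℝ))) * TT Y (p.1 * p.2) :=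
                mul_le_mul e1 (hT'le _) (hT'0 _) (by positivity)
            _ = _ := by ring
        · rw [if_pos h2, if_neg (by omega), add_zero]
          apply mul_le_mul _ (hT'le _) (hT'0 _) (by positivity)
          have hcp : p.2.Coprime P0 := Nat.Coprime.coprime_mul_left_right hp.1.2.2.2
          have h9 := lt_of_rough h1 (by omega) hcp hz
          refine (hwt p.2 hp.1.2.1.1).trans ?_
          rw [hS]
          apply div_le_div_of_nonneg_left hC5.le (Real.sqrt_pos.2 (by exact_mod_cast hz0))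
          apply Real.sqrt_le_sqrt
          exact_mod_cast h9.le
    refine (sum_le_sum h8).trans ?_
    rw [sum_add_distrib, ← sum_filter, ← sum_filter, ← mul_sum, ← mul_sum]
    have hb1 : ∀ p ∈ (Q.divisors ×ˢ QQ Q P0 R).filter (fun p => p.1 * p.2 ≠ 1),
        2 ≤ p.1 * p.2 ∧ p.1 * p.2 ≤ Q * R := by
      intro p hp
      rw [mem_filter, mem_product, Nat.mem_divisors, mem_QQ] at hp
      have h1 : 1 ≤ p.1 := Nat.pos_of_dvd_of_pos hp.1.1.1 hQ1
      have h2 : p.1 ≤ Q := Nat.le_of_dvd hQ1 hp.1.1.1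
      have h3' := hp.1.2.1
      have h9 : 1 ≤ p.1 * p.2 := Nat.mul_pos h1 h3'.1
      have := hp.2
      exact ⟨by omega, Nat.mul_le_mul h2 h3'.2⟩
    apply add_le_add
    · apply mul_le_mul_of_nonneg_left _ (by positivity)
      refine le_trans ?_ hall1
      apply pair_inj (TT Y) (TT_nonneg Y) Q P0 R
      · intro p hp
        rw [mem_filter, mem_filter] at hp
        exact hp.1.1
      · intro p hp
        rw [mem_filter] at hp
        rw [mem_Icc]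
        exact ⟨(hb1 p hp.1).1, hp.2⟩
    · apply mul_le_mul_of_nonneg_left _ (by positivity)
      refine le_trans ?_ hall2
      apply pair_inj (fun f => (1 / (Nat.totient f : ℝ)) * TT Y f)
        (fun f => mul_nonneg (by positivity) (TT_nonneg Y f)) Q P0 R
      · intro p hp
        rw [mem_filter, mem_filter] at hp
        exact hp.1.1
      · intro p hp
        rw [mem_filter] at hp
        rw [mem_Icc]
        exact ⟨hp.2, (hb1 p hp.1).2⟩
  calc ∑ q ∈ QQ 1 P0 R, (q.divisors.card : ℝ) ^ A * |ER Y Q q (b q)| ≤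
      ∑ q ∈ QQ 1 P0 R, ((q.divisors.card : ℝ) ^ A * ((1 / (Nat.totient (Q * q) : ℝ)) *
        ∑ f ∈ (Q * q).divisors.filter (fun f => f ≠ 1), T' f) +
      (q.divisors.card : ℝ) ^ A * (2 * ((Q * q).primeFactors.card * Real.log (3 * Y)))) := sum_le_sum h4
    _ ≤ _ := by
        rw [sum_add_distrib]
        exact add_le_add h5 h3

theorem one_Z (Z W : ℝ) (hZ : 1 ≤ Z) (hZW : Z ≤ W) (U V G F1 : ℕ) (hU : 1 ≤ U) (hV : 1 ≤ V)
    (hG : 2 ≤ G) (hF1 : 1 ≤ F1) :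
    ∑ f ∈ Icc G F1, (1 / (Nat.totient f : ℝ)) * ∑ ψ ∈ Prim f, ‖psiLog Z f ψ‖ ≤
      8 * U * V * (F1 : ℝ) ^ 2 * Real.log W ^ 2 +
      12 * (1 + Real.log F1) * (Real.sqrt W / G + (Real.sqrt (W / U) + Real.sqrt (W / V)) + F1) *
        (Real.sqrt W * (1 + Real.log W) ^ 3) * Real.log W := by
  classical
  have hZ0 : 0 < Z := by linarith
  have hW0 : 0 < W := by linarith
  have hlog : Real.log Z ≤ Real.log W := Real.log_le_log hZ0 hZW
  have hlZ : 0 ≤ Real.log Z := Real.log_nonneg hZ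
  have hlF : 0 ≤ Real.log F1 := Real.log_natCast_nonneg F1
  have hlW : 0 ≤ Real.log W := hlZ.trans hlog
  have hG0 : (0 : ℝ) < G := by exact_mod_cast (by omega : 0 < G)
  have hU0 : (0 : ℝ) < U := by exact_mod_cast hU
  have hV0 : (0 : ℝ) < V := by exact_mod_cast hV
  have h1 : ∀ f ∈ Icc G F1, (1 / (Nat.totient f : ℝ)) * ∑ ψ ∈ Prim f, ‖psiLog Z f ψ‖ ≤
      8 * U * V * F1 * Real.log W ^ 2 +
        (1 / (Nat.totient f : ℝ)) * ∑ ψ ∈ Prim f, ‖TL Z f ψ (LamII U V)‖ := by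
    intro f hf
    rw [mem_Icc] at hf
    have hf0 : 0 < f := by omega
    have hφ : (0:ℝ) < Nat.totient f := by exact_mod_cast Nat.totient_pos.mpr hf0
    have hfF : (f : ℝ) ≤ F1 := by exact_mod_cast hf.2
    calc (1 / (Nat.totient f : ℝ)) * ∑ ψ ∈ Prim f, ‖psiLog Z f ψ‖ ≤
        (1 / (Nat.totient f : ℝ)) * ∑ ψ ∈ Prim f, (8 * U * V * f * Real.log Z ^ 2 +
          ‖TL Z f ψ (LamII U V)‖) := by
          apply mul_le_mul_of_nonneg_left _ (by positivity)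
          apply sum_le_sum
          intro ψ hψ
          exact norm_psiLog_le Z hZ U V f hU hV (by omega) ψ (prim_ne_one (by omega) hψ)
      _ = (1 / (Nat.totient f : ℝ)) * ((Prim f).card * (8 * U * V * f * Real.log Z ^ 2)) +
          (1 / (Nat.totient f : ℝ)) * ∑ ψ ∈ Prim f, ‖TL Z f ψ (LamII U V)‖ := by
          rw [sum_add_distrib, sum_const, nsmul_eq_mul, mul_add]
      _ ≤ _ := by
          apply add_le_add_left
          calc (1 / (Nat.totient f : ℝ)) * ((Prim f).card * (8 * U * V * f * Real.log Z ^ 2)) ≤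
              (1 / (Nat.totient f : ℝ)) * (Nat.totient f * (8 * U * V * F1 * Real.log W ^ 2)) := by
                apply mul_le_mul_of_nonneg_left _ (by positivity)
                apply mul_le_mul (card_prim_le hf0) _ (by positivity) (by positivity)
                gcongr
            _ = _ := by field_simp
  refine (sum_le_sum h1).trans ?_
  rw [sum_add_distrib, sum_const, nsmul_eq_mul]
  apply add_le_add
  · have h2 : ((Icc G F1).card : ℝ) ≤ F1 := by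
      rw [Nat.card_Icc]
      exact_mod_cast (by omega : F1 + 1 - G ≤ F1)
    calc ((Icc G F1).card : ℝ) * (8 * U * V * F1 * Real.log W ^ 2) ≤
        F1 * (8 * U * V * F1 * Real.log W ^ 2) := by
          apply mul_le_mul_of_nonneg_right h2 (by positivity)
      _ = _ := by ring
  · have h2 := typeII_block Z hZ U V G F1 hU hV (by omega) hF1
    refine le_trans ?_ (h2.trans ?_)
    · exact le_of_eq rfl
    · gcongr

theorem TT_block (Y : ℝ) (hY : 1 ≤ Y) (U V G F1 : ℕ) (hU : 1 ≤ U) (hV : 1 ≤ V)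
    (hG : 2 ≤ G) (hF1 : 1 ≤ F1) :
    ∑ f ∈ Icc G F1, (1 / (Nat.totient f : ℝ)) * TT Y f ≤
      4 * (8 * U * V * (F1 : ℝ) ^ 2 * Real.log (3 * Y) ^ 2 +
      12 * (1 + Real.log F1) * (Real.sqrt (3 * Y) / G +
        (Real.sqrt (3 * Y / U) + Real.sqrt (3 * Y / V)) + F1) *
        (Real.sqrt (3 * Y) * (1 + Real.log (3 * Y)) ^ 3) * Real.log (3 * Y)) := by
  have hY0 : 0 < Y := by linarith
  have h3 : Real.exp 1 ≤ 3 := by
    have := Real.exp_one_lt_d9
    linarith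
  have h12 : Real.exp (1 / 2) ≤ Real.exp 1 := Real.exp_le_exp.mpr (by norm_num)
  have h12' : 1 ≤ Real.exp (1 / 2) := Real.one_le_exp (by norm_num)
  have h1' : 1 ≤ Real.exp 1 := Real.one_le_exp (by norm_num)
  have a1 := one_Z Y (3 * Y) hY (by linarith) U V G F1 hU hV hG hF1
  have a2 := one_Z (Real.exp (1 / 2) * Y) (3 * Y) (by nlinarith) (by nlinarith) U V G F1 hU hV hG hF1
  have a3 := one_Z (Real.exp 1 * Y) (3 * Y) (by nlinarith) (by nlinarith) U V G F1 hU hV hG hF1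
  have hsum : ∑ f ∈ Icc G F1, (1 / (Nat.totient f : ℝ)) * TT Y f ≤
      ∑ f ∈ Icc G F1, (1 / (Nat.totient f : ℝ)) * ∑ ψ ∈ Prim f, ‖psiLog Y f ψ‖ +
      2 * ∑ f ∈ Icc G F1, (1 / (Nat.totient f : ℝ)) *
        ∑ ψ ∈ Prim f, ‖psiLog (Real.exp (1 / 2) * Y) f ψ‖ +
      ∑ f ∈ Icc G F1, (1 / (Nat.totient f : ℝ)) *
        ∑ ψ ∈ Prim f, ‖psiLog (Real.exp 1 * Y) f ψ‖ := by
    rw [mul_sum, ← sum_add_distrib, ← sum_add_distrib]
    apply sum_le_sum
    intro f _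
    have : (1 / (Nat.totient f : ℝ)) * ∑ ψ ∈ Prim f, ‖psiLog Y f ψ‖ +
        2 * ((1 / (Nat.totient f : ℝ)) * ∑ ψ ∈ Prim f, ‖psiLog (Real.exp (1 / 2) * Y) f ψ‖) +
        (1 / (Nat.totient f : ℝ)) * ∑ ψ ∈ Prim f, ‖psiLog (Real.exp 1 * Y) f ψ‖ =
        (1 / (Nat.totient f : ℝ)) * ∑ ψ ∈ Prim f, (‖psiLog Y f ψ‖ +
          2 * ‖psiLog (Real.exp (1 / 2) * Y) f ψ‖ + ‖psiLog (Real.exp 1 * Y) f ψ‖) := by
      rw [sum_add_distrib, sum_add_distrib, ← mul_sum]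
      ring
    rw [this]
    apply mul_le_mul_of_nonneg_left _ (by positivity)
    unfold TT
    apply sum_le_sum
    intro ψ _
    exact norm_psiPhi_le Y hY0 f ψ
  linarith

/-- powers of the number of divisors -/
theorem card_pow_le (A : ℕ) (η : ℝ) (hη : 0 < η) : ∃ C : ℝ, 0 < C ∧ ∀ b : ℕ, 1 ≤ b →
    (b.divisors.card : ℝ) ^ A ≤ C * (b : ℝ) ^ η := by
  obtain ⟨C, hC, hd⟩ := divisor_bound (η / (A + 1)) (by positivity)
  have hC' : 0 < max C 1 := lt_max_of_lt_right one_pos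
  refine ⟨(max C 1) ^ (A + 1), by positivity, fun b hb => ?_⟩
  have hb0 : (0:ℝ) < b := by exact_mod_cast hb
  have hb1 : (1:ℝ) ≤ b := by exact_mod_cast hb
  have h1 : (1 : ℝ) ≤ max C 1 * (b:ℝ) ^ (η / (A + 1)) := by
    have h2 : (1:ℝ) ≤ (b:ℝ) ^ (η / (A + 1)) := Real.one_le_rpow hb1 (by positivity)
    have h3 : (1:ℝ) ≤ max C 1 := le_max_right _ _
    nlinarith
  calc (b.divisors.card : ℝ) ^ A ≤ (max C 1 * (b:ℝ) ^ (η / (A + 1))) ^ A := by
        apply pow_le_pow_left₀ (by positivity)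
        refine (hd b hb).trans ?_
        gcongr
        exact le_max_left _ _
    _ ≤ (max C 1 * (b:ℝ) ^ (η / (A + 1))) ^ (A + 1) := pow_le_pow_right₀ h1 (by omega)
    _ = (max C 1) ^ (A + 1) * ((b:ℝ) ^ (η / (A + 1))) ^ (A + 1) := by rw [mul_pow]
    _ = _ := by
        congr 1
        rw [← Real.rpow_natCast, ← Real.rpow_mul hb0.le]
        congr 1
        push_cast
        field_simp


/-- the trivial error -/
theorem trivH (A : ℕ) (ε : ℝ) (hε : 0 < ε) (hε1 : ε ≤ 1 / 100) (C5 : ℝ) (hC5 : 0 < C5)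
    (hwt : ∀ b : ℕ, 1 ≤ b → LSBV.wt A b ≤ C5 / Real.sqrt b) : ∀ᶠ X : ℝ in atTop,
    ∀ (Y : ℝ) (Q P0 : ℕ), X ≤ Y → Y ≤ X ^ 2 → 1 ≤ Q → (Q : ℝ) ≤ X ^ (ε / 100) →
      ∑ q ∈ QQ 1 P0 ⌊X ^ (1 / 2 - ε)⌋₊, (q.divisors.card : ℝ) ^ A *
          (2 * ((Q * q).primeFactors.card * Real.log (3 * Y))) ≤
        (1 / 2) * (Y / ((Q.totient : ℝ) * (Real.log X) ^ A)) := by
  filter_upwards [ev_log (24 * C5) (A + 2) (1 / 4) (by norm_num), eventually_ge_atTop (4 : ℝ)] with X h6 h3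
  intro Y Q P0 hXY hYX hQ1 hQX
  have hX0 : 0 < X := by linarith
  have hX1 : 1 ≤ X := by linarith
  have hY0 : 0 < Y := by linarith
  have hL1 : 1 ≤ Real.log X := by
    rw [Real.le_log_iff_exp_le hX0]
    have := Real.exp_one_lt_d9
    linarith
  set L := Real.log X with hL
  have hL0 : 0 < L := by linarith
  set R := ⌊X ^ (1 / 2 - ε)⌋₊ with hR
  have hRle : (R : ℝ) ≤ X ^ (1 / 2 - ε) := Nat.floor_le (by positivity)
  have hRle2 : (R : ℝ) ≤ X ^ (1 / 2 : ℝ) :=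
    hRle.trans (Real.rpow_le_rpow_of_exponent_le hX1 (by linarith))
  have hφ : (0 : ℝ) < Q.totient := by exact_mod_cast Nat.totient_pos.2 hQ1
  have t1 : ∀ q ∈ QQ 1 P0 R, (q.divisors.card : ℝ) ^ A *
      (2 * ((Q * q).primeFactors.card * Real.log (3 * Y))) ≤
      12 * C5 * L ^ 2 * X ^ (1 / 4 : ℝ) := by
    intro q hq
    rw [mem_QQ] at hq
    obtain ⟨⟨hq1, hq2⟩, _, _⟩ := hq
    have hq0 : (0:ℝ) < q := by exact_mod_cast hq1
    have hφq : (0:ℝ) < Nat.totient q := by exact_mod_cast Nat.totient_pos.mpr hq1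
    have hqR : (q : ℝ) ≤ X ^ (1 / 2 : ℝ) := le_trans (by exact_mod_cast hq2) hRle2
    have hqR' : (q : ℝ) ≤ X ^ (1 / 2 - ε) := le_trans (by exact_mod_cast hq2) hRle
    have u1 : (q.divisors.card : ℝ) ^ A ≤ C5 * X ^ (1 / 4 : ℝ) := by
      have v1 := hwt q hq1
      unfold LSBV.wt at v1
      rw [div_le_iff₀ hφq] at v1
      refine v1.trans ?_
      calc C5 / Real.sqrt q * (Nat.totient q : ℝ) ≤ C5 / Real.sqrt q * q := by
            apply mul_le_mul_of_nonneg_left _ (by positivity)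
            exact_mod_cast Nat.totient_le q
        _ = C5 * (q / Real.sqrt q) := by ring
        _ = C5 * Real.sqrt q := by rw [Real.div_sqrt]
        _ ≤ C5 * X ^ (1 / 4 : ℝ) := by
            apply mul_le_mul_of_nonneg_left _ hC5.le
            rw [Real.sqrt_le_left (by positivity)]
            calc (q:ℝ) ≤ X ^ (1 / 2 : ℝ) := hqR
              _ = (X ^ (1 / 4 : ℝ)) ^ 2 := by
                  rw [← Real.rpow_natCast, ← Real.rpow_mul hX0.le]; norm_num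
    have u2 : ((Q * q).primeFactors.card : ℝ) ≤ 2 * L := by
      refine (omega_le_log (Q * q) (Nat.mul_pos hQ1 hq1)).trans ?_
      have v1 : ((Q * q : ℕ) : ℝ) ≤ X := by
        push_cast
        calc (Q : ℝ) * q ≤ X ^ (ε / 100) * X ^ (1 / 2 - ε) := by
              gcongr
          _ = X ^ (ε / 100 + (1 / 2 - ε)) := by
              rw [Real.rpow_add hX0]
          _ ≤ X ^ (1:ℝ) := Real.rpow_le_rpow_of_exponent_le hX1 (by linarith)
          _ = X := Real.rpow_one X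
      have := log_natCast_le (Q * q) X hX1 v1
      linarith
    have u3 : Real.log (3 * Y) ≤ 3 * L := by
      calc Real.log (3 * Y) ≤ Real.log (X * X ^ 2) :=
            Real.log_le_log (by positivity) (mul_le_mul (by linarith) hYX hY0.le hX0.le)
        _ = 3 * L := by
            rw [Real.log_mul hX0.ne' (by positivity), Real.log_pow]; push_cast; ring
    have u4 : 0 ≤ Real.log (3 * Y) := Real.log_nonneg (by linarith)
    calc (q.divisors.card : ℝ) ^ A *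
      (2 * ((Q * q).primeFactors.card * Real.log (3 * Y))) ≤
        (C5 * X ^ (1 / 4 : ℝ)) * (2 * ((2 * L) * (3 * L))) := by
          apply mul_le_mul u1 _ (by positivity) (by positivity)
          apply mul_le_mul_of_nonneg_left _ (by norm_num)
          exact mul_le_mul u2 u3 u4 (by positivity)
      _ = _ := by ring
  refine (sum_le_sum t1).trans ?_
  rw [sum_const, nsmul_eq_mul]
  have t2 : ((QQ 1 P0 R).card : ℝ) ≤ X ^ (1 / 2 - ε) := by
    have : (QQ 1 P0 R).card ≤ R := by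
      refine (card_filter_le _ _).trans ?_
      rw [Nat.card_Icc]
      omega
    exact le_trans (by exact_mod_cast this) hRle
  have t3 : (Q.totient : ℝ) ≤ X ^ (ε / 100) := by
    refine le_trans ?_ hQX
    exact_mod_cast Nat.totient_le _
  rw [← mul_div_assoc, le_div_iff₀ (by positivity)]
  calc ((QQ 1 P0 R).card : ℝ) * (12 * C5 * L ^ 2 * X ^ (1 / 4 : ℝ)) *
      ((Q.totient : ℝ) * L ^ A) ≤
      X ^ (1 / 2 - ε) * (12 * C5 * L ^ 2 * X ^ (1 / 4 : ℝ)) *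
      (X ^ (ε / 100) * L ^ A) := by gcongr
    _ = (1 / 2) * ((24 * C5 * L ^ (A + 2)) *
        (X ^ (1 / 2 - ε) * X ^ (1 / 4 : ℝ) * X ^ (ε / 100))) := by
        rw [pow_add]; ring
    _ ≤ (1 / 2) * (X ^ (1 / 4 : ℝ) * X ^ (3 / 4 : ℝ)) := by
        apply mul_le_mul_of_nonneg_left _ (by norm_num)
        apply mul_le_mul h6 _ (by positivity) (by positivity)
        rw [← Real.rpow_add hX0, ← Real.rpow_add hX0]
        exact Real.rpow_le_rpow_of_exponent_le hX1 (by linarith)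
    _ = (1 / 2) * X := by
        rw [← Real.rpow_add hX0]; norm_num
    _ ≤ (1 / 2) * Y := by linarith

/-- the large conductors -/
theorem large_part (ε : ℝ) (hε : 0 < ε) (hε1 : ε ≤ 1 / 100) (X Y L : ℝ) (hX : 4 ≤ X)
    (hL : L = Real.log X) (hXY : X ≤ Y) (hYX : Y ≤ X ^ 2) (Q : ℕ) (hQ1 : 1 ≤ Q)
    (hQX : (Q : ℝ) ≤ X ^ (ε / 100)) :
    ∑ f ∈ Icc (⌊Y ^ (1 / 50 : ℝ)⌋₊ + 1) (Q * ⌊X ^ (1 / 2 - ε)⌋₊),
      (1 / (Nat.totient f : ℝ)) * TT Y f ≤ 259200 * L ^ 5 * Y ^ (1 - ε / 4) := by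
  have hX0 : 0 < X := by linarith
  have hX1 : 1 ≤ X := by linarith
  have hY0 : 0 < Y := by linarith
  have hY1 : 1 ≤ Y := by linarith
  have hL1 : 1 ≤ L := by
    rw [hL, Real.le_log_iff_exp_le hX0]
    have := Real.exp_one_lt_d9
    linarith
  have hL0 : 0 < L := by linarith
  set R := ⌊X ^ (1 / 2 - ε)⌋₊ with hR
  have hRle : (R : ℝ) ≤ X ^ (1 / 2 - ε) := Nat.floor_le (by positivity)
  have hR1 : 1 ≤ R := by
    apply Nat.le_floor
    rw [Nat.cast_one]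
    exact Real.one_le_rpow hX1 (by linarith)
  set F0 := ⌊Y ^ (1 / 50 : ℝ)⌋₊ with hF0
  have hF01 : 1 ≤ F0 := by
    apply Nat.le_floor
    rw [Nat.cast_one]
    exact Real.one_le_rpow hY1 (by norm_num)
  have hG : Y ^ (1 / 50 : ℝ) ≤ ((F0 + 1 : ℕ) : ℝ) := by
    push_cast
    exact (Nat.lt_floor_add_one _).le
  set F1 := Q * R with hF1
  have hF11 : 1 ≤ F1 := Nat.mul_pos hQ1 hR1
  have hF1X : (F1 : ℝ) ≤ X ^ (1 / 2 - 9 * ε / 10) := by
    rw [hF1]
    push_cast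
    calc (Q : ℝ) * R ≤ X ^ (ε / 100) * X ^ (1 / 2 - ε) := by gcongr
      _ = X ^ (ε / 100 + (1 / 2 - ε)) := by rw [Real.rpow_add hX0]
      _ ≤ _ := Real.rpow_le_rpow_of_exponent_le hX1 (by linarith)
  have hF1Y : (F1 : ℝ) ≤ Y ^ (1 / 2 - 9 * ε / 10) :=
    hF1X.trans (Real.rpow_le_rpow hX0.le hXY (by linarith))
  have hF1X' : (F1 : ℝ) ≤ X := by
    refine hF1X.trans ?_
    calc X ^ (1 / 2 - 9 * ε / 10) ≤ X ^ (1:ℝ) :=
          Real.rpow_le_rpow_of_exponent_le hX1 (by linarith)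
      _ = X := Real.rpow_one X
  have hlF : Real.log F1 ≤ L := by
    rw [hL]
    exact log_natCast_le F1 X hX1 hF1X'
  have hlF0 : 0 ≤ Real.log F1 := Real.log_natCast_nonneg F1
  set U := ⌈Y ^ (ε / 2)⌉₊ with hU
  have hYe : 1 ≤ Y ^ (ε / 2) := Real.one_le_rpow hY1 (by positivity)
  have hU1 : 1 ≤ U := Nat.one_le_ceil_iff.mpr (by linarith)
  have hUl : Y ^ (ε / 2) ≤ U := Nat.le_ceil _
  have hUu : (U : ℝ) ≤ 2 * Y ^ (ε / 2) := by
    have := Nat.ceil_lt_add_one (show 0 ≤ Y ^ (ε / 2) by positivity)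
    linarith
  have hU0 : (0 : ℝ) < U := by exact_mod_cast hU1
  have hl3 : Real.log (3 * Y) ≤ 3 * L := by
    calc Real.log (3 * Y) ≤ Real.log (X * X ^ 2) :=
          Real.log_le_log (by positivity) (mul_le_mul (by linarith) hYX hY0.le hX0.le)
      _ = 3 * L := by
          rw [Real.log_mul hX0.ne' (by positivity), Real.log_pow, hL]; push_cast; ring
  have hl30 : 0 ≤ Real.log (3 * Y) := Real.log_nonneg (by linarith)
  refine (TT_block Y hY1 U U (F0 + 1) F1 hU1 hU1 (by omega) hF11).trans ?_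
  -- square roots
  have s3 : Real.sqrt (3 * Y) ≤ 2 * Y ^ (1 / 2 : ℝ) := by
    rw [Real.sqrt_le_left (by positivity), mul_pow, ← Real.rpow_natCast, ← Real.rpow_natCast,
      ← Real.rpow_mul hY0.le]
    norm_num
    linarith
  have s1 : Real.sqrt (3 * Y) / ((F0 + 1 : ℕ) : ℝ) ≤ 2 * Y ^ (1 / 2 - ε / 4) := by
    calc Real.sqrt (3 * Y) / ((F0 + 1 : ℕ) : ℝ) ≤ 2 * Y ^ (1 / 2 : ℝ) / Y ^ (1 / 50 : ℝ) := by
          apply div_le_div₀ (by positivity) s3 (by positivity) hG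
      _ = 2 * Y ^ (1 / 2 - 1 / 50 : ℝ) := by
          rw [Real.rpow_sub hY0, mul_div_assoc]
      _ ≤ 2 * Y ^ (1 / 2 - ε / 4) := by
          apply mul_le_mul_of_nonneg_left _ (by norm_num)
          exact Real.rpow_le_rpow_of_exponent_le hY1 (by linarith)
  have s2 : Real.sqrt (3 * Y / U) ≤ 2 * Y ^ (1 / 2 - ε / 4) := by
    rw [Real.sqrt_le_left (by positivity)]
    calc 3 * Y / U ≤ 3 * Y / Y ^ (ε / 2) :=
          div_le_div_of_nonneg_left (by positivity) (by positivity) hUl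
      _ = 3 * Y ^ (1 - ε / 2) := by
          rw [Real.rpow_sub hY0, Real.rpow_one]; ring
      _ ≤ 4 * Y ^ (1 - ε / 2) := by
          apply mul_le_mul_of_nonneg_right (by norm_num) (by positivity)
      _ = (2 * Y ^ (1 / 2 - ε / 4)) ^ 2 := by
          rw [mul_pow, ← Real.rpow_natCast (Y ^ (1 / 2 - ε / 4)), ← Real.rpow_mul hY0.le]
          have : (1 / 2 - ε / 4) * ((2 : ℕ) : ℝ) = 1 - ε / 2 := by push_cast; ring
          rw [this]; norm_num
  have s4 : (F1 : ℝ) ≤ Y ^ (1 / 2 - ε / 4) :=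
    hF1Y.trans (Real.rpow_le_rpow_of_exponent_le hY1 (by linarith))
  have hsum : Real.sqrt (3 * Y) / ((F0 + 1 : ℕ) : ℝ) + (Real.sqrt (3 * Y / U) + Real.sqrt (3 * Y / U)) + F1 ≤
      7 * Y ^ (1 / 2 - ε / 4) := by linarith
  have hT1 : 8 * (U : ℝ) * U * (F1 : ℝ) ^ 2 * Real.log (3 * Y) ^ 2 ≤
      288 * L ^ 2 * Y ^ (1 - ε / 4) := by
    calc 8 * (U : ℝ) * U * (F1 : ℝ) ^ 2 * Real.log (3 * Y) ^ 2 ≤
        8 * (2 * Y ^ (ε / 2)) * (2 * Y ^ (ε / 2)) * (Y ^ (1 / 2 - 9 * ε / 10)) ^ 2 * (3 * L) ^ 2 := by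
          gcongr
      _ = 288 * L ^ 2 * (Y ^ (ε / 2) * Y ^ (ε / 2) * (Y ^ (1 / 2 - 9 * ε / 10) * Y ^ (1 / 2 - 9 * ε / 10))) := by
          ring
      _ ≤ 288 * L ^ 2 * Y ^ (1 - ε / 4) := by
          apply mul_le_mul_of_nonneg_left _ (by positivity)
          rw [← Real.rpow_add hY0, ← Real.rpow_add hY0, ← Real.rpow_add hY0]
          exact Real.rpow_le_rpow_of_exponent_le hY1 (by linarith)
  have hT2 : 12 * (1 + Real.log F1) * (Real.sqrt (3 * Y) / ((F0 + 1 : ℕ) : ℝ) +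
      (Real.sqrt (3 * Y / U) + Real.sqrt (3 * Y / U)) + F1) *
      (Real.sqrt (3 * Y) * (1 + Real.log (3 * Y)) ^ 3) * Real.log (3 * Y) ≤
      64512 * L ^ 5 * Y ^ (1 - ε / 4) := by
    calc 12 * (1 + Real.log F1) * (Real.sqrt (3 * Y) / ((F0 + 1 : ℕ) : ℝ) +
      (Real.sqrt (3 * Y / U) + Real.sqrt (3 * Y / U)) + F1) *
      (Real.sqrt (3 * Y) * (1 + Real.log (3 * Y)) ^ 3) * Real.log (3 * Y) ≤
        12 * (2 * L) * (7 * Y ^ (1 / 2 - ε / 4)) *
          ((2 * Y ^ (1 / 2 : ℝ)) * (4 * L) ^ 3) * (3 * L) := by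
          gcongr
          · linarith
          · linarith
      _ = 64512 * L ^ 5 * (Y ^ (1 / 2 - ε / 4) * Y ^ (1 / 2 : ℝ)) := by ring
      _ = 64512 * L ^ 5 * Y ^ (1 - ε / 4) := by
          rw [← Real.rpow_add hY0]
          congr 2
          ring
  have hL25 : L ^ 2 ≤ L ^ 5 := pow_le_pow_right₀ hL1 (by norm_num)
  have hYp : 0 < Y ^ (1 - ε / 4) := by positivity
  have hT1' : 288 * L ^ 2 * Y ^ (1 - ε / 4) ≤ 288 * L ^ 5 * Y ^ (1 - ε / 4) := by gcongr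
  linarith

theorem relbvH (A : ℕ) (ε : ℝ) (hε : 0 < ε) (hε1 : ε ≤ 1 / 100) : ∃ C1 : ℕ, ∀ᶠ X : ℝ in atTop,
    ∀ (Y : ℝ) (Q P0 : ℕ), X ≤ Y → Y ≤ X ^ 2 → 1 ≤ Q → (Q : ℝ) ≤ X ^ (ε / 100) → Q ∣ P0 →
    (∀ p : ℕ, p.Prime → p ≤ ⌊(Real.log X) ^ C1⌋₊ → p ∣ P0) →
    ∀ b : ℕ → ℕ, (∀ q, 1 ≤ q → (b q).Coprime (Q * q)) →
      ∑ q ∈ QQ 1 P0 ⌊X ^ (1 / 2 - ε)⌋₊, (q.divisors.card : ℝ) ^ A * |ER Y Q q (b q)|
        ≤ Y / ((Q.totient : ℝ) * (Real.log X) ^ A) := by
  classical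
  set Kw := 2 ^ (A + 1) with hKw
  refine ⟨2 * (Kw + A + 10), ?_⟩
  obtain ⟨C0, X1, hls⟩ := ls_sum
  set C1 := max C0 1 with hC1
  have hC1p : 1 ≤ C1 := le_max_right _ _
  obtain ⟨C5, hC5, hwt⟩ := wt_le A
  obtain ⟨C6, hC6, hdv⟩ := card_pow_le A (ε / 100) (by positivity)
  have hlog : Tendsto Real.log atTop atTop := Real.tendsto_log_atTop
  filter_upwards [trivH A ε hε hε1 C5 hC5 hwt, eventually_ge_atTop X1, eventually_ge_atTop (4:ℝ),
    hlog.eventually_ge_atTop (2 ^ Kw * (2 * C5) * (512 * C1)), hlog.eventually_ge_atTop 2,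
    ev_log (4 * (2 ^ Kw * (C6 * 259200))) (Kw + 5 + A) (ε / 5) (by positivity)] with X h1 h2 h3 h5 h6 hbig
  intro Y Q P0 hXY hYX hQ1 hQX hQP hz b hb
  have hX0 : 0 < X := by linarith
  have hX1 : 1 ≤ X := by linarith
  have hY0 : 0 < Y := by linarith
  have hY1 : 1 ≤ Y := by linarith
  set L := Real.log X with hL
  have hL0 : 0 < L := by linarith
  set z := ⌊L ^ (2 * (Kw + A + 10))⌋₊ with hzdef
  have hz1 : 1 ≤ z := by
    apply Nat.le_floor
    rw [Nat.cast_one]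
    exact one_le_pow₀ (by linarith)
  set R := ⌊X ^ (1 / 2 - ε)⌋₊ with hR
  set F : ℕ := ⌊Y ^ (1 / 50 : ℝ)⌋₊ with hF
  set M : ℝ := 256 * C1 * Y * L ^ 8 with hM
  have hRle : (R : ℝ) ≤ X ^ (1 / 2 - ε) := Nat.floor_le (by positivity)
  have hall : ∑ f ∈ Icc 2 F, TT Y f ≤ M := by
    have h7 : ∑ f ∈ Icc 2 F, TT Y f ≤ C0 * Y * (Real.log Y) ^ 8 := hls Y (h2.trans hXY)
    refine h7.trans ?_
    have e1 : M = C1 * Y * (2 * L) ^ 8 := by
      rw [hM]; ring
    rw [e1]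
    have h8 : C0 ≤ C1 := le_max_left _ _
    have h9 : Real.log Y ≤ 2 * L := by
      have := Real.log_le_log hY0 hYX
      rw [Real.log_pow] at this
      exact_mod_cast this
    have h10 : 0 ≤ Real.log Y := Real.log_nonneg (hX1.trans hXY)
    calc C0 * Y * (Real.log Y) ^ 8 ≤ C1 * Y * (Real.log Y) ^ 8 := by gcongr
      _ ≤ C1 * Y * (2 * L) ^ 8 := by gcongr
  have hRX : (R:ℝ) ≤ X := by
    refine hRle.trans ?_
    calc X ^ (1 / 2 - ε) ≤ X ^ (1:ℝ) := Real.rpow_le_rpow_of_exponent_le hX1 (by linarith)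
      _ = X := Real.rpow_one X
  have hsumwt : ∑ e ∈ Icc 1 R, LSBV.wt A e ≤ 2 ^ Kw * L ^ Kw := by
    refine (sum_wt A R).trans ?_
    rw [← hKw, ← mul_pow]
    have h7 := log_natCast_le R X hX1 hRX
    have h8 := Real.log_natCast_nonneg R
    apply pow_le_pow_left₀ (by linarith)
    linarith
  have hwt2 : ∀ b : ℕ, 1 ≤ b → b ≤ R → (b.divisors.card : ℝ) ^ A ≤ C6 * X ^ (ε / 100) := by
    intro b hb1 hbR
    refine (hdv b hb1).trans ?_
    have hbX : (b : ℝ) ≤ X := le_trans (by exact_mod_cast hbR) hRX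
    gcongr
  have h3' := h1 Y Q P0 hXY hYX hQ1 hQX
  have hlarge := large_part ε hε hε1 X Y L h3 hL hXY hYX Q hQ1 hQX
  have hfin := main_alg A Y M (259200 * L ^ 5 * Y ^ (1 - ε / 4)) (C6 * X ^ (ε / 100)) C5
    (2 ^ Kw * L ^ Kw) (Real.sqrt z) _ hY1 hC5 (by positivity) hwt Q P0 R F z
    hQ1 hQP hwt2 hz hz1 rfl hall hlarge hsumwt h3' b hb
  refine hfin.trans ?_
  have hφ : (0 : ℝ) < Q.totient := by
    exact_mod_cast Nat.totient_pos.2 hQ1
  -- lower bound of sqrt z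
  have hsq : L ^ (Kw + A + 10) / 2 ≤ Real.sqrt z := by
    apply Real.le_sqrt_of_sq_le
    have h7 : L ^ (2 * (Kw + A + 10)) - 1 ≤ z := by
      have := Nat.sub_one_lt_floor (L ^ (2 * (Kw + A + 10)))
      linarith
    have h8 : (L ^ (Kw + A + 10)) ^ 2 = L ^ (2 * (Kw + A + 10)) := by
      rw [← pow_mul, mul_comm]
    have h9 : 2 ≤ L ^ (2 * (Kw + A + 10)) := by
      calc (2:ℝ) ≤ L := h6
        _ = L ^ 1 := (pow_one L).symm
        _ ≤ L ^ (2 * (Kw + A + 10)) := pow_le_pow_right₀ (by linarith) (Nat.succ_le_of_lt (by positivity))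
    have h10 : (L ^ (Kw + A + 10) / 2) ^ 2 = L ^ (2 * (Kw + A + 10)) / 4 := by
      rw [div_pow, h8]; norm_num
    rw [h10]
    linarith
  have hlast : (1 / (Q.totient : ℝ)) * (2 ^ Kw * L ^ Kw * (C5 / Real.sqrt z * M)) ≤
      (1 / 4) * (Y / ((Q.totient : ℝ) * L ^ A)) := by
    have h7 : C5 / Real.sqrt z ≤ C5 / (L ^ (Kw + A + 10) / 2) :=
      div_le_div_of_nonneg_left hC5.le (by positivity) hsq
    have e1 : (1 / (Q.totient : ℝ)) * (2 ^ Kw * L ^ Kw * (C5 / (L ^ (Kw + A + 10) / 2) * M)) =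
        (1 / 2) * ((2 ^ Kw * (2 * C5) * (512 * C1)) / L ^ 2) *
          (Y / ((Q.totient : ℝ) * L ^ A)) := by
      have e2 : L ^ (Kw + A + 10) = L ^ Kw * L ^ A * L ^ 8 * L ^ 2 := by
        rw [← pow_add, ← pow_add, ← pow_add]
      rw [hM, e2]
      have e3 : L ^ Kw ≠ 0 := by positivity
      have e4 : L ^ A ≠ 0 := by positivity
      have e5 : L ^ 8 ≠ 0 := by positivity
      field_simp
      ring
    calc (1 / (Q.totient : ℝ)) * (2 ^ Kw * L ^ Kw * (C5 / Real.sqrt z * M)) ≤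
        (1 / (Q.totient : ℝ)) * (2 ^ Kw * L ^ Kw * (C5 / (L ^ (Kw + A + 10) / 2) * M)) := by
          gcongr
      _ = _ := e1
      _ ≤ (1 / 2) * (1 / 2) * (Y / ((Q.totient : ℝ) * L ^ A)) := by
          have hK : (2 ^ Kw * (2 * C5) * (512 * C1)) / L ^ 2 ≤ 1 / 2 := by
            rw [div_le_div_iff₀ (by positivity) (by norm_num)]
            nlinarith
          apply mul_le_mul_of_nonneg_right _ (by positivity)
          exact mul_le_mul_of_nonneg_left hK (by norm_num)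
      _ = _ := by ring
  have hlast2 : (1 / (Q.totient : ℝ)) * (2 ^ Kw * L ^ Kw *
      (C6 * X ^ (ε / 100) * Q * (259200 * L ^ 5 * Y ^ (1 - ε / 4)))) ≤
      (1 / 4) * (Y / ((Q.totient : ℝ) * L ^ A)) := by
    have hXe : X ^ (ε / 100) ≤ Y ^ (ε / 100) := Real.rpow_le_rpow hX0.le hXY (by positivity)
    have g1 : X ^ (ε / 100) * Q * Y ^ (1 - ε / 4) ≤ Y ^ (1 - ε / 5) := by
      calc X ^ (ε / 100) * Q * Y ^ (1 - ε / 4) ≤ Y ^ (ε / 100) * Y ^ (ε / 100) * Y ^ (1 - ε / 4) := by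
            gcongr
            exact hQX.trans hXe
        _ = Y ^ (ε / 100 + ε / 100 + (1 - ε / 4)) := by
            rw [Real.rpow_add hY0, Real.rpow_add hY0]
        _ ≤ Y ^ (1 - ε / 5) := Real.rpow_le_rpow_of_exponent_le hY1 (by linarith)
    have g2 : 4 * (2 ^ Kw * (C6 * 259200)) * L ^ (Kw + 5 + A) ≤ Y ^ (ε / 5) :=
      hbig.trans (Real.rpow_le_rpow hX0.le hXY (by positivity))
    have g3 : Y ^ (ε / 5) * Y ^ (1 - ε / 5) = Y := by
      rw [← Real.rpow_add hY0]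
      have : ε / 5 + (1 - ε / 5) = 1 := by ring
      rw [this, Real.rpow_one]
    rw [one_div_mul_eq_div, ← mul_div_assoc, div_le_div_iff₀ hφ (by positivity)]
    have g4 : 2 ^ Kw * L ^ Kw * (C6 * X ^ (ε / 100) * Q * (259200 * L ^ 5 * Y ^ (1 - ε / 4))) * L ^ A ≤
        (1 / 4) * Y := by
      calc 2 ^ Kw * L ^ Kw * (C6 * X ^ (ε / 100) * Q * (259200 * L ^ 5 * Y ^ (1 - ε / 4))) * L ^ A =
          (1 / 4) * ((4 * (2 ^ Kw * (C6 * 259200)) * L ^ (Kw + 5 + A)) *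
            (X ^ (ε / 100) * Q * Y ^ (1 - ε / 4))) := by
            rw [pow_add, pow_add]; ring
        _ ≤ (1 / 4) * (Y ^ (ε / 5) * Y ^ (1 - ε / 5)) := by
            gcongr
        _ = (1 / 4) * Y := by rw [g3]
    calc 2 ^ Kw * L ^ Kw * (C6 * X ^ (ε / 100) * Q * (259200 * L ^ 5 * Y ^ (1 - ε / 4))) *
        ((Q.totient : ℝ) * L ^ A) =
        (2 ^ Kw * L ^ Kw * (C6 * X ^ (ε / 100) * Q * (259200 * L ^ 5 * Y ^ (1 - ε / 4))) * L ^ A) *
          (Q.totient : ℝ) := by ring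
      _ ≤ (1 / 4) * Y * (Q.totient : ℝ) := mul_le_mul_of_nonneg_right g4 hφ.le
  have hsplit : (1 / (Q.totient : ℝ)) * (2 ^ Kw * L ^ Kw * (C5 / Real.sqrt z * M +
      C6 * X ^ (ε / 100) * Q * (259200 * L ^ 5 * Y ^ (1 - ε / 4)))) =
      (1 / (Q.totient : ℝ)) * (2 ^ Kw * L ^ Kw * (C5 / Real.sqrt z * M)) +
      (1 / (Q.totient : ℝ)) * (2 ^ Kw * L ^ Kw *
      (C6 * X ^ (ε / 100) * Q * (259200 * L ^ 5 * Y ^ (1 - ε / 4)))) := by ring
  rw [hsplit]
  have : Y / ((Q.totient : ℝ) * L ^ A) = (1 / 4) * (Y / ((Q.totient : ℝ) * L ^ A)) +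
      (1 / 4) * (Y / ((Q.totient : ℝ) * L ^ A)) +
      (1 / 2) * (Y / ((Q.totient : ℝ) * L ^ A)) := by ring
  rw [this]
  linarith

end Pool.Agent.H536.OC.BVH
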