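import Mathlib
import Pool.Agent.H536.OC.C11
import Pool.Agent.H536.OC.SubB
import Pool.Agent.H536.OB.N4

open Finset Filter Topology

/-! Averaged prime sums: relative Bombieri-Vinogradov, upper bounds, prime powers. -/

namespace Pool.Agent.H536.OC

open Pool.Agent.H378R2 Pool.Agent.H262R3.Lk
open Pool.Agent.H536.OB

/-- discrepancy of the averaged sums -/
noncomputable def EJ (N : ℕ) (T : ℝ) (Q q b : ℕ) : ℝ := JJ N T (Q * q) b - JJ N T Q b * (1 / (q.totient : ℝ))

theorem wI_tot {N : ℕ} (hN : 0 < N) {T : ℝ} (hT : 1 ≤ T) :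
    ∑ i ∈ range (NI N T), wI N T i * Real.exp (i / N) ≤ T := by
  have hN0 : (0 : ℝ) < N := by exact_mod_cast hN
  have h1 : ∀ i ∈ range (NI N T), wI N T i * Real.exp (i / N) ≤ 1 / (200 * N) := by
    intro i _
    unfold wI
    rw [div_mul_cancel₀ _ (Real.exp_pos _).ne']
    calc (1 / (N : ℝ)) * GG (i / (N * T)) ≤ (1 / (N : ℝ)) * (1 / 200) := mul_le_mul_of_nonneg_left (GG_le _) (by positivity)
      _ = _ := by field_simp
  refine (sum_le_sum h1).trans ?_
  rw [sum_const, card_range, nsmul_eq_mul]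
  have h2 : ((NI N T : ℕ) : ℝ) ≤ 4 * N * T := by
    unfold NI
    push_cast
    have : (⌈T⌉₊ : ℝ) ≤ T + 1 := (Nat.ceil_lt_add_one (by linarith)).le
    have h3 : (⌈T⌉₊ : ℝ) ≤ 2 * T := by linarith
    calc 2 * (N : ℝ) * ⌈T⌉₊ ≤ 2 * N * (2 * T) := by gcongr
      _ = _ := by ring
  calc ((NI N T : ℕ) : ℝ) * (1 / (200 * N)) ≤ (4 * N * T) * (1 / (200 * N)) := mul_le_mul_of_nonneg_right h2 (by positivity)
    _ = T / 50 := by field_simp; ring
    _ ≤ T := by linarith

theorem EJ_sum {N : ℕ} {T : ℝ} (Q q b : ℕ) :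
    EJ N T Q q b = ∑ i ∈ range (NI N T), wI N T i * ER (Real.exp (i / N)) Q q b := by
  unfold EJ JJ ER
  rw [sum_mul, ← sum_sub_distrib]
  apply sum_congr rfl
  intro i _
  ring

theorem relJ (A : ℕ) (ε : ℝ) (hε : 0 < ε) (hε1 : ε ≤ 1 / 100) : ∃ C1 : ℕ, ∀ᶠ T : ℝ in atTop,
    ∀ (N Q P0 : ℕ), 0 < N → 1 ≤ Q → (Q : ℝ) ≤ (Real.exp T) ^ (ε / 100) → Q ∣ P0 →
    (∀ p : ℕ, p.Prime → p ≤ ⌊T ^ C1⌋₊ → p ∣ P0) →
    ∀ b : ℕ → ℕ, (∀ q, 1 ≤ q → (b q).Coprime (Q * q)) →
      ∑ q ∈ LSBV.QQ 1 P0 ⌊(Real.exp T) ^ (1 / 2 - ε)⌋₊, (q.divisors.card : ℝ) ^ A * |EJ N T Q q (b q)|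
        ≤ 1 / ((Q.totient : ℝ) * T ^ A) := by
  obtain ⟨C1, hC1⟩ := BVH.relbvH (A + 1) ε hε hε1
  refine ⟨C1, ?_⟩
  have h1 := Real.tendsto_exp_atTop.eventually hC1
  filter_upwards [h1, eventually_ge_atTop (1 : ℝ)] with T hT hT1
  intro N Q P0 hN hQ hQX hQP hP b hb
  rw [Real.log_exp] at hT
  have hφ : (0 : ℝ) < Q.totient := by exact_mod_cast Nat.totient_pos.2 hQ
  have hT0 : 0 < T := by linarith
  have key : ∀ i ∈ range (NI N T), wI N T i * ∑ q ∈ LSBV.QQ 1 P0 ⌊(Real.exp T) ^ (1 / 2 - ε)⌋₊,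
      (q.divisors.card : ℝ) ^ A * |ER (Real.exp (i / N)) Q q (b q)| ≤
      (wI N T i * Real.exp (i / N)) * (1 / ((Q.totient : ℝ) * T ^ (A + 1))) := by
    intro i _
    by_cases hw : wI N T i = 0
    · rw [hw]; simp
    · obtain ⟨w1, w2⟩ := wI_ne hN hT0 hw
      have h2 := hT (Real.exp (i / N)) Q P0 (Real.exp_le_exp.2 w1.le) (by
        rw [← Real.exp_nat_mul]
        apply Real.exp_le_exp.2
        push_cast
        linarith) hQ hQX hQP hP b hb
      rw [mul_assoc]
      apply mul_le_mul_of_nonneg_left _ (wI_nonneg _ _ _)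
      calc ∑ q ∈ LSBV.QQ 1 P0 ⌊(Real.exp T) ^ (1 / 2 - ε)⌋₊, (q.divisors.card : ℝ) ^ A * |ER (Real.exp (i / N)) Q q (b q)| ≤
          ∑ q ∈ LSBV.QQ 1 P0 ⌊(Real.exp T) ^ (1 / 2 - ε)⌋₊, (q.divisors.card : ℝ) ^ (A + 1) * |ER (Real.exp (i / N)) Q q (b q)| := by
            apply sum_le_sum
            intro q hq
            apply mul_le_mul_of_nonneg_right _ (abs_nonneg _)
            rw [LSBV.mem_QQ] at hq
            have : (1 : ℝ) ≤ q.divisors.card := by
              have : 0 < q.divisors.card := card_pos.2 ⟨1, Nat.one_mem_divisors.2 (by omega)⟩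
              exact_mod_cast this
            exact pow_le_pow_right₀ this (by omega)
        _ ≤ Real.exp (i / N) / ((Q.totient : ℝ) * T ^ (A + 1)) := h2
        _ = _ := by ring
  calc ∑ q ∈ LSBV.QQ 1 P0 ⌊(Real.exp T) ^ (1 / 2 - ε)⌋₊, (q.divisors.card : ℝ) ^ A * |EJ N T Q q (b q)| ≤
      ∑ q ∈ LSBV.QQ 1 P0 ⌊(Real.exp T) ^ (1 / 2 - ε)⌋₊, ∑ i ∈ range (NI N T),
        wI N T i * ((q.divisors.card : ℝ) ^ A * |ER (Real.exp (i / N)) Q q (b q)|) := by
        apply sum_le_sum
        intro q _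
        rw [EJ_sum]
        calc (q.divisors.card : ℝ) ^ A * |∑ i ∈ range (NI N T), wI N T i * ER (Real.exp (i / N)) Q q (b q)| ≤
            (q.divisors.card : ℝ) ^ A * ∑ i ∈ range (NI N T), |wI N T i * ER (Real.exp (i / N)) Q q (b q)| := by
              gcongr
              exact abs_sum_le_sum_abs _ _
          _ = _ := by
              rw [mul_sum]
              apply sum_congr rfl
              intro i _
              rw [abs_mul, abs_of_nonneg (wI_nonneg N T i)]
              ring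
    _ = ∑ i ∈ range (NI N T), wI N T i * ∑ q ∈ LSBV.QQ 1 P0 ⌊(Real.exp T) ^ (1 / 2 - ε)⌋₊,
          (q.divisors.card : ℝ) ^ A * |ER (Real.exp (i / N)) Q q (b q)| := by
        rw [sum_comm]
        apply sum_congr rfl
        intro i _
        rw [mul_sum]
    _ ≤ ∑ i ∈ range (NI N T), (wI N T i * Real.exp (i / N)) * (1 / ((Q.totient : ℝ) * T ^ (A + 1))) := sum_le_sum key
    _ = (∑ i ∈ range (NI N T), wI N T i * Real.exp (i / N)) * (1 / ((Q.totient : ℝ) * T ^ (A + 1))) := by rw [sum_mul]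
    _ ≤ T * (1 / ((Q.totient : ℝ) * T ^ (A + 1))) := mul_le_mul_of_nonneg_right (wI_tot hN hT1) (by positivity)
    _ = _ := by
        rw [pow_succ]
        field_simp

theorem JJ_up : ∃ C : ℝ, 0 < C ∧ ∀ (N : ℕ) (T : ℝ) (q b : ℕ), 0 < N → 3 ≤ T → 1 ≤ q → ((q ^ 8 : ℕ) : ℝ) ≤ Real.exp T →
    b.Coprime q → JJ N T q b ≤ C * T / q.totient := by
  obtain ⟨C, hC, hpc⟩ := pc_up
  refine ⟨C, hC, ?_⟩
  intro N T q b hN hT hq hq8 hb
  have hT0 : 0 < T := by linarith
  unfold JJ
  calc ∑ i ∈ range (NI N T), wI N T i * pc (Real.exp (i / N)) q b ≤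
      ∑ i ∈ range (NI N T), (wI N T i * Real.exp (i / N)) * (C / q.totient) := by
        apply sum_le_sum
        intro i _
        by_cases hw : wI N T i = 0
        · rw [hw]; simp
        · obtain ⟨w1, w2⟩ := wI_ne hN hT0 hw
          rw [mul_assoc]
          apply mul_le_mul_of_nonneg_left _ (wI_nonneg _ _ _)
          have h1 : Real.exp T ≤ Real.exp (i / N) := Real.exp_le_exp.2 w1.le
          have h2 : (11 : ℝ) ≤ Real.exp T := by
            have h3 := Real.exp_one_gt_d9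
            have h4 : Real.exp 1 ^ 3 ≤ Real.exp T := by
              rw [← Real.exp_nat_mul]
              apply Real.exp_le_exp.2
              push_cast
              linarith
            have h5 : (2.7 : ℝ) ^ 3 ≤ Real.exp 1 ^ 3 := pow_le_pow_left₀ (by norm_num) (by linarith) 3
            have h6 : (2.7 : ℝ) ^ 3 = 19.683 := by norm_num
            have h7 : (19.683 : ℝ) ≤ Real.exp T := by rw [← h6]; exact h5.trans h4
            linarith
          have := hpc (Real.exp (i / N)) q b (h2.trans h1) hq (hq8.trans h1) hb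
          refine this.trans (le_of_eq ?_)
          ring
    _ = (∑ i ∈ range (NI N T), wI N T i * Real.exp (i / N)) * (C / q.totient) := by rw [sum_mul]
    _ ≤ T * (C / q.totient) := mul_le_mul_of_nonneg_right (wI_tot hN (by linarith)) (by positivity)
    _ = _ := by ring

open Classical in
theorem np_mass {N : ℕ} (hN : 0 < N) {T : ℝ} (hT : 3 ≤ T) (Nm : ℕ) (hNm : 3 * Real.exp (101 / 100 * T) ≤ Nm) :
    ∑ n ∈ (Icc 1 Nm).filter (fun n => ¬ n.Prime), KN N T n * ArithmeticFunction.vonMangoldt n ≤ 12 * T ^ 2 * Real.exp (-(T / 2)) := by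
  have hT0 : 0 < T := by linarith
  unfold KN
  simp_rw [sum_mul]
  rw [sum_comm]
  have h1 : ∀ i ∈ range (NI N T), ∑ n ∈ (Icc 1 Nm).filter (fun n => ¬ n.Prime),
      wI N T i * Phi (n / Real.exp (i / N)) * ArithmeticFunction.vonMangoldt n ≤
      (wI N T i * Real.exp (i / N)) * (12 * T * Real.exp (-(T / 2))) := by
    intro i _
    by_cases hw : wI N T i = 0
    · rw [hw]; simp
    · obtain ⟨w1, w2⟩ := wI_ne hN hT0 hw
      have e1 : ∑ n ∈ (Icc 1 Nm).filter (fun n => ¬ n.Prime), wI N T i * Phi (n / Real.exp (i / N)) * ArithmeticFunction.vonMangoldt n =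
          wI N T i * ∑ n ∈ (Icc 1 Nm).filter (fun n => ¬ n.Prime), Phi (n / Real.exp (i / N)) * ArithmeticFunction.vonMangoldt n := by
        rw [mul_sum]
        apply sum_congr rfl
        intro n _
        ring
      rw [e1, mul_assoc]
      apply mul_le_mul_of_nonneg_left _ (wI_nonneg _ _ _)
      set y : ℝ := (i : ℝ) / N with hy
      have hY1 : (1 : ℝ) ≤ Real.exp y := Real.one_le_exp (by linarith)
      have e2 : ∑ n ∈ (Icc 1 Nm).filter (fun n => ¬ n.Prime), Phi (n / Real.exp y) * ArithmeticFunction.vonMangoldt n ≤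
          ∑ n ∈ (Icc 1 ⌊3 * Real.exp y⌋₊).filter (fun n => ¬ n.Prime), Phi (n / Real.exp y) * ArithmeticFunction.vonMangoldt n := by
        rw [← sum_filter_add_sum_filter_not ((Icc 1 Nm).filter (fun n => ¬ n.Prime)) (fun n : ℕ => (n : ℝ) ≤ 3 * Real.exp y)]
        have z1 : ∑ n ∈ ((Icc 1 Nm).filter (fun n => ¬ n.Prime)).filter (fun n : ℕ => ¬ (n : ℝ) ≤ 3 * Real.exp y),
            Phi (n / Real.exp y) * ArithmeticFunction.vonMangoldt n = 0 := by
          apply sum_eq_zero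
          intro n hn
          rw [mem_filter] at hn
          rw [Phi_big (Real.exp_pos y) (lt_of_not_ge hn.2), zero_mul]
        rw [z1, add_zero]
        apply sum_le_sum_of_subset_of_nonneg
        · intro n hn
          rw [mem_filter, mem_filter, mem_Icc] at hn
          rw [mem_filter, mem_Icc]
          exact ⟨⟨hn.1.1.1, Nat.le_floor hn.2⟩, hn.1.2⟩
        · intro n _ _
          exact wgt_nonneg _ n
      refine e2.trans ((nonprime_mass hY1).trans ?_)
      have h3 : √(3 * Real.exp y) ≤ 2 * Real.exp (y / 2) := by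
        rw [Real.sqrt_le_left (by positivity)]
        rw [mul_pow, ← Real.exp_nat_mul]
        have : ((2 : ℕ) : ℝ) * (y / 2) = y := by push_cast; ring
        rw [this]
        nlinarith [Real.exp_pos y]
      have h4 : Real.log (3 * Real.exp y) ≤ 3 * T := by
        rw [Real.log_mul (by norm_num) (Real.exp_pos y).ne', Real.log_exp]
        have : Real.log 3 ≤ 3 - 1 := Real.log_le_sub_one_of_pos (by norm_num)
        linarith
      have h5 : Real.exp (y / 2) = Real.exp y * Real.exp (-(y / 2)) := by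
        rw [← Real.exp_add]; ring_nf
      have h6 : Real.exp (-(y / 2)) ≤ Real.exp (-(T / 2)) := Real.exp_le_exp.2 (by linarith)
      have h7 : 0 ≤ Real.log (3 * Real.exp y) := Real.log_nonneg (by linarith)
      calc 2 * √(3 * Real.exp y) * Real.log (3 * Real.exp y) ≤ 2 * (2 * Real.exp (y / 2)) * (3 * T) := by gcongr
        _ = 12 * T * (Real.exp y * Real.exp (-(y / 2))) := by rw [← h5]; ring
        _ ≤ 12 * T * (Real.exp y * Real.exp (-(T / 2))) := by gcongr
        _ = _ := by ring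
  refine (sum_le_sum h1).trans ?_
  rw [← sum_mul]
  calc (∑ i ∈ range (NI N T), wI N T i * Real.exp (i / N)) * (12 * T * Real.exp (-(T / 2))) ≤ T * (12 * T * Real.exp (-(T / 2))) :=
        mul_le_mul_of_nonneg_right (wI_tot hN (by linarith)) (by positivity)
    _ = _ := by ring

end Pool.Agent.H536.OC
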