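import Mathlib
import Pool.Graph.R_seed8.Y882.JR.Core5

open Finset

/-! Subtask C (helper536): Bonferroni in the middle range combined with the weighted linear sieve `AK`. -/

namespace Pool.Agent.H536.OC

open Pool.Agent.Y882 Pool.Agent.W23.DC

namespace SubC

open Classical in
/-- the weighted linear sieve: PROVED (team-store get helper720_AK_done.lean), here as a hypothesis -/
def S_AK : Prop := ∀ κ : ℕ, ∃ ε₁ η c₀ C₀ : ℝ, 0 < ε₁ ∧ ε₁ ≤ 1 / 8 ∧ 0 < η ∧ 0 < c₀ ∧ 0 < C₀ ∧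
    ∃ Y0 : ℕ, ∀ Y : ℕ, Y0 ≤ Y → ∀ (S : Finset ℕ) (g : ℕ → ℕ → Prop) (h : ℕ → ℝ),
    (∀ p ∈ PZ Y (17 / 50), 0 ≤ h p ∧ h p ≤ 1) →
    (∀ p ∈ PZ Y (1 / 8), κ < p → h p ≤ κ / ((p : ℝ) - 1)) →
    Mer (pr Y ε₁ (17 / 50)) (tt Y) h ε₁ (17 / 50) η →
    ∀ (ω : ℕ → ℝ) (X : ℝ) (R : Finset ℕ → ℝ), (∀ n ∈ S, 0 ≤ ω n) → 0 ≤ X → (∀ T, 0 ≤ R T) →
    (∀ T : Finset ℕ, T ⊆ PZ Y (17 / 50) → ((∏ p ∈ T, p : ℕ) : ℝ) ≤ (Y : ℝ) ^ (499 / 1000 : ℝ) →
      |∑ n ∈ S.filter (fun n => ∀ p ∈ T, g p n), ω n - X * ∏ p ∈ T, h p| ≤ R T) →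
    (c₀ * (X * ∏ p ∈ PZ Y (1 / 8), (1 - h p)) - 10 * Real.log Y *
        ∑ T ∈ (PZ Y (17 / 50)).powerset.filter (fun T => ((∏ p ∈ T, p : ℕ) : ℝ) ≤ (Y : ℝ) ^ (499 / 1000 : ℝ)), R T ≤
      ∑ n ∈ S.filter (fun n => ∀ p ∈ PZ Y (1 / 8), ¬ g p n),
        ω n * (1 - (1 / 2) * (((pr Y (1 / 8) (17 / 50)).filter (fun p => g p n)).card : ℝ))) ∧
    (∑ n ∈ S.filter (fun n => ∀ p ∈ PZ Y (1 / 8), ¬ g p n), ω n ≤
      C₀ * (X * ∏ p ∈ PZ Y (1 / 8), (1 - h p)) + 10 * Real.log Y *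
        ∑ T ∈ (PZ Y (17 / 50)).powerset.filter (fun T => ((∏ p ∈ T, p : ℕ) : ℝ) ≤ (Y : ℝ) ^ (499 / 1000 : ℝ)), R T)

open Classical in
/-- the mass of the elements satisfying all conditions of `U` -/
noncomputable def WS (S : Finset ℕ) (ω : ℕ → ℝ) (g : ℕ → ℕ → Prop) (U : Finset ℕ) : ℝ :=
  ∑ n ∈ S.filter (fun n => ∀ p ∈ U, g p n), ω n


/-- elementary symmetric functions -/
noncomputable def Ef (x : ℕ → ℝ) (M : Finset ℕ) (k : ℕ) : ℝ :=
  ∑ D ∈ M.powersetCard k, ∏ p ∈ D, x p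

theorem Ef_zero (x : ℕ → ℝ) (M : Finset ℕ) : Ef x M 0 = 1 := by simp [Ef]

theorem Ef_empty (x : ℕ → ℝ) (k : ℕ) : Ef x ∅ (k + 1) = 0 := by
  unfold Ef
  rw [Finset.powersetCard_eq_empty.2 (by simp)]
  simp

theorem Ef_insert (x : ℕ → ℝ) (a : ℕ) (M : Finset ℕ) (ha : a ∉ M) (k : ℕ) :
    Ef x (insert a M) (k + 1) = Ef x M (k + 1) + x a * Ef x M k := by
  unfold Ef
  rw [Finset.powersetCard_succ_insert ha, Finset.sum_union, Finset.sum_image, Finset.mul_sum]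
  · congr 1
    refine Finset.sum_congr rfl fun D hD => ?_
    rw [Finset.prod_insert]
    exact fun h => ha ((Finset.mem_powersetCard.1 hD).1 h)
  · intro D hD D' hD' h
    have h1 : a ∉ D := fun h => ha ((Finset.mem_powersetCard.1 hD).1 h)
    have h2 : a ∉ D' := fun h => ha ((Finset.mem_powersetCard.1 hD').1 h)
    rw [← Finset.erase_insert h1, ← Finset.erase_insert h2]
    exact congrArg (fun s => s.erase a) h
  · rw [Finset.disjoint_left]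
    intro D hD hD'
    rw [Finset.mem_image] at hD'
    obtain ⟨D', _, rfl⟩ := hD'
    exact ha ((Finset.mem_powersetCard.1 hD).1 (Finset.mem_insert_self a D'))

theorem Ef_nonneg (x : ℕ → ℝ) (M : Finset ℕ) (hx : ∀ p ∈ M, 0 ≤ x p) (k : ℕ) : 0 ≤ Ef x M k :=
  Finset.sum_nonneg fun D hD => Finset.prod_nonneg fun p hp =>
    hx p ((Finset.mem_powersetCard.1 hD).1 hp)

theorem prod_01 (x : ℕ → ℝ) (M : Finset ℕ) (hx : ∀ p ∈ M, 0 ≤ x p ∧ x p ≤ 1) :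
    0 ≤ ∏ p ∈ M, (1 - x p) ∧ ∏ p ∈ M, (1 - x p) ≤ 1 := by
  refine ⟨Finset.prod_nonneg fun p hp => ?_, Finset.prod_le_one (fun p hp => ?_) fun p hp => ?_⟩
  · linarith [(hx p hp).2]
  · linarith [(hx p hp).2]
  · linarith [(hx p hp).1]

theorem bonf (x : ℕ → ℝ) (M : Finset ℕ) (hx : ∀ p ∈ M, 0 ≤ x p ∧ x p ≤ 1) : ∀ k : ℕ,
    0 ≤ (-1 : ℝ) ^ k * (∑ j ∈ range (k + 1), (-1 : ℝ) ^ j * Ef x M j - ∏ p ∈ M, (1 - x p)) := by
  induction M using Finset.induction_on with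
  | empty =>
    intro k
    rw [Finset.sum_range_succ']
    simp [Ef_empty, Ef_zero]
  | insert a M ha ih =>
    have hx' : ∀ p ∈ M, 0 ≤ x p ∧ x p ≤ 1 := fun p hp => hx p (Finset.mem_insert_of_mem hp)
    have hxa := hx a (Finset.mem_insert_self a M)
    intro k
    cases k with
    | zero =>
      have h1 := (prod_01 x (insert a M) hx).2
      simp only [zero_add, Finset.sum_range_one, pow_zero, one_mul, Ef_zero]
      linarith
    | succ k =>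
      have key : ∑ j ∈ range (k + 1 + 1), (-1 : ℝ) ^ j * Ef x (insert a M) j =
          ∑ j ∈ range (k + 1 + 1), (-1 : ℝ) ^ j * Ef x M j -
            x a * ∑ j ∈ range (k + 1), (-1 : ℝ) ^ j * Ef x M j := by
        rw [Finset.sum_range_succ' _ (k + 1), Finset.sum_range_succ' _ (k + 1), Finset.mul_sum,
          Ef_zero, Ef_zero]
        have : ∀ j ∈ range (k + 1), (-1 : ℝ) ^ (j + 1) * Ef x (insert a M) (j + 1) =
            (-1 : ℝ) ^ (j + 1) * Ef x M (j + 1) - x a * ((-1 : ℝ) ^ j * Ef x M j) := by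
          intro j _
          rw [Ef_insert x a M ha, pow_succ]
          ring
        rw [Finset.sum_congr rfl this, Finset.sum_sub_distrib]
        ring
      rw [key, Finset.prod_insert ha]
      have h1 := ih hx' (k + 1)
      have h2 := mul_nonneg hxa.1 (ih hx' k)
      have e : (-1 : ℝ) ^ (k + 1) * (∑ j ∈ range (k + 1 + 1), (-1 : ℝ) ^ j * Ef x M j -
            x a * ∑ j ∈ range (k + 1), (-1 : ℝ) ^ j * Ef x M j - (1 - x a) * ∏ p ∈ M, (1 - x p)) =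
          (-1 : ℝ) ^ (k + 1) * (∑ j ∈ range (k + 1 + 1), (-1 : ℝ) ^ j * Ef x M j -
            ∏ p ∈ M, (1 - x p)) + x a * ((-1 : ℝ) ^ k *
            (∑ j ∈ range (k + 1), (-1 : ℝ) ^ j * Ef x M j - ∏ p ∈ M, (1 - x p))) := by
        rw [pow_succ]
        ring
      rw [e]
      exact add_nonneg h1 h2

theorem pow_aux (a s : ℝ) (ha : 0 ≤ a) (hs : 0 ≤ s) (k : ℕ) :
    s ^ (k + 1) + (k + 1) * (a * s ^ k) ≤ (a + s) ^ (k + 1) := by
  induction k with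
  | zero => simp [add_comm]
  | succ k ih =>
    have h1 := mul_le_mul_of_nonneg_left ih (add_nonneg ha hs)
    have h2 : 0 ≤ ((k : ℝ) + 1) * (a * a * s ^ k) := by positivity
    have e : (a + s) ^ (k + 1 + 1) = (a + s) * (a + s) ^ (k + 1) := pow_succ' _ _
    rw [e]
    push_cast
    have e2 : (a + s) * (s ^ (k + 1) + (k + 1) * (a * s ^ k)) =
        s ^ (k + 1 + 1) + (k + 1 + 1) * (a * s ^ (k + 1)) + ((k : ℝ) + 1) * (a * a * s ^ k) := by
      ring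
    linarith

theorem Ef_le (x : ℕ → ℝ) (M : Finset ℕ) (hx : ∀ p ∈ M, 0 ≤ x p) : ∀ k : ℕ,
    Ef x M k ≤ (∑ p ∈ M, x p) ^ k / k.factorial := by
  induction M using Finset.induction_on with
  | empty =>
    intro k
    cases k with
    | zero => simp [Ef_zero]
    | succ k => simp [Ef_empty]
  | insert a M ha ih =>
    have hx' : ∀ p ∈ M, 0 ≤ x p := fun p hp => hx p (Finset.mem_insert_of_mem hp)
    have hxa := hx a (Finset.mem_insert_self a M)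
    intro k
    cases k with
    | zero => simp [Ef_zero]
    | succ k =>
      rw [Ef_insert x a M ha, Finset.sum_insert ha]
      set s := ∑ p ∈ M, x p with hs
      have hs0 : 0 ≤ s := Finset.sum_nonneg hx'
      have h1 := ih hx' (k + 1)
      have h2 := mul_le_mul_of_nonneg_left (ih hx' k) hxa
      have h3 := pow_aux (x a) s hxa hs0 k
      have hf : (0 : ℝ) < (k + 1).factorial := by positivity
      have hf2 : ((k + 1).factorial : ℝ) = (k + 1) * k.factorial := by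
        rw [Nat.factorial_succ]
        push_cast
        ring
      have hf3 : (0 : ℝ) < k.factorial := by positivity
      calc Ef x M (k + 1) + x a * Ef x M k ≤
            s ^ (k + 1) / (k + 1).factorial + x a * (s ^ k / k.factorial) := add_le_add h1 h2
        _ = (s ^ (k + 1) + (k + 1) * (x a * s ^ k)) / (k + 1).factorial := by
            rw [hf2]
            field_simp
        _ ≤ (x a + s) ^ (k + 1) / (k + 1).factorial := by
            rw [div_le_div_iff_of_pos_right hf]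
            exact h3

theorem sum_le_exp (x : ℕ → ℝ) (M : Finset ℕ) (hx : ∀ p ∈ M, 0 ≤ x p) (A : Finset (Finset ℕ))
    (hA : A ⊆ M.powerset) (lam : ℝ) (hl : ∑ p ∈ M, x p ≤ lam) :
    ∑ D ∈ A, ∏ p ∈ D, x p ≤ Real.exp lam := by
  calc ∑ D ∈ A, ∏ p ∈ D, x p ≤ ∑ D ∈ M.powerset, ∏ p ∈ D, x p := by
        refine Finset.sum_le_sum_of_subset_of_nonneg hA fun D hD _ => ?_
        exact Finset.prod_nonneg fun p hp => hx p (Finset.mem_powerset.1 hD hp)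
    _ = ∏ p ∈ M, (1 + x p) := by
        rw [Finset.prod_one_add]
    _ ≤ ∏ p ∈ M, Real.exp (x p) := by
        refine Finset.prod_le_prod (fun p hp => by linarith [hx p hp]) fun p hp => ?_
        rw [add_comm]
        exact Real.add_one_le_exp _
    _ = Real.exp (∑ p ∈ M, x p) := (Real.exp_sum _ _).symm
    _ ≤ Real.exp lam := Real.exp_le_exp.2 hl

/-- the family of small sets -/
def Fam (M : Finset ℕ) (k : ℕ) : Finset (Finset ℕ) := M.powerset.filter (fun D => D.card ≤ k)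

theorem Fam_sum (M : Finset ℕ) (k : ℕ) (x : ℕ → ℝ) :
    ∑ D ∈ Fam M k, (-1 : ℝ) ^ D.card * ∏ p ∈ D, x p =
      ∑ j ∈ range (k + 1), (-1 : ℝ) ^ j * Ef x M j := by
  have hm : ∀ D ∈ Fam M k, D.card ∈ range (k + 1) := by
    intro D hD
    rw [Fam, Finset.mem_filter] at hD
    rw [Finset.mem_range]
    omega
  rw [← Finset.sum_fiberwise_of_maps_to hm]
  refine Finset.sum_congr rfl fun j hj => ?_
  have e : (Fam M k).filter (fun D => D.card = j) = M.powersetCard j := by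
    ext D
    rw [Fam, Finset.mem_filter, Finset.mem_filter, Finset.mem_powersetCard, Finset.mem_powerset]
    rw [Finset.mem_range] at hj
    constructor
    · rintro ⟨⟨h1, _⟩, h3⟩
      exact ⟨h1, h3⟩
    · rintro ⟨h1, h3⟩
      exact ⟨⟨h1, by omega⟩, h3⟩
  rw [e, Ef, Finset.mul_sum]
  refine Finset.sum_congr rfl fun D hD => ?_
  rw [(Finset.mem_powersetCard.1 hD).2]

open Classical in
/-- indicator -/
noncomputable def ind (g : ℕ → ℕ → Prop) (n p : ℕ) : ℝ := if g p n then 1 else 0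

theorem ind_01 (g : ℕ → ℕ → Prop) (n p : ℕ) : 0 ≤ ind g n p ∧ ind g n p ≤ 1 := by
  unfold ind
  split_ifs <;> norm_num

open Classical in
theorem ind_prod (g : ℕ → ℕ → Prop) (n : ℕ) (D : Finset ℕ) :
    ∏ p ∈ D, ind g n p = if ∀ p ∈ D, g p n then 1 else 0 := by
  unfold ind
  rw [Finset.prod_ite_zero]
  simp

open Classical in
theorem ind_prod' (g : ℕ → ℕ → Prop) (n : ℕ) (D : Finset ℕ) :
    ∏ p ∈ D, (1 - ind g n p) = if ∀ p ∈ D, ¬ g p n then 1 else 0 := by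
  have : ∀ p ∈ D, (1 - ind g n p) = if ¬ g p n then 1 else 0 := by
    intro p _
    unfold ind
    split_ifs <;> simp_all
  rw [Finset.prod_congr rfl this, Finset.prod_ite_zero]
  simp

open Classical in
theorem ws_mul (S : Finset ℕ) (ω : ℕ → ℝ) (g : ℕ → ℕ → Prop) (D T : Finset ℕ) :
    ∑ n ∈ S.filter (fun n => ∀ p ∈ T, g p n), ω n * ∏ p ∈ D, ind g n p = WS S ω g (D ∪ T) := by
  unfold WS
  rw [Finset.sum_filter, Finset.sum_filter]
  refine Finset.sum_congr rfl fun n _ => ?_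
  rw [ind_prod]
  by_cases h1 : ∀ p ∈ T, g p n
  · by_cases h2 : ∀ p ∈ D, g p n
    · have h3 : ∀ p ∈ D ∪ T, g p n := by
        intro p hp
        rcases Finset.mem_union.1 hp with h | h
        · exact h2 p h
        · exact h1 p h
      rw [if_pos h1, if_pos h2, if_pos h3, mul_one]
    · have h3 : ¬ ∀ p ∈ D ∪ T, g p n := fun h => h2 fun p hp => h p (Finset.mem_union_left _ hp)
      rw [if_pos h1, if_neg h2, if_neg h3, mul_zero]
  · have h3 : ¬ ∀ p ∈ D ∪ T, g p n := fun h => h1 fun p hp => h p (Finset.mem_union_right _ hp)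
    rw [if_neg h1, if_neg h3]

open Classical in
theorem ws_fam (S : Finset ℕ) (ω : ℕ → ℝ) (g : ℕ → ℕ → Prop) (A : Finset (Finset ℕ))
    (c : Finset ℕ → ℝ) (T : Finset ℕ) :
    ∑ n ∈ S.filter (fun n => ∀ p ∈ T, g p n), ω n * ∑ D ∈ A, c D * ∏ p ∈ D, ind g n p =
      ∑ D ∈ A, c D * WS S ω g (D ∪ T) := by
  simp_rw [Finset.mul_sum]
  rw [Finset.sum_comm]
  refine Finset.sum_congr rfl fun D _ => ?_
  rw [← ws_mul, Finset.mul_sum]
  refine Finset.sum_congr rfl fun n _ => ?_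
  ring

theorem ws_fam0 (S : Finset ℕ) (ω : ℕ → ℝ) (g : ℕ → ℕ → Prop) (A : Finset (Finset ℕ))
    (c : Finset ℕ → ℝ) :
    ∑ n ∈ S, ω n * ∑ D ∈ A, c D * ∏ p ∈ D, ind g n p =
      ∑ D ∈ A, c D * WS S ω g D := by
  classical
  have h := ws_fam S ω g A c ∅
  simpa using h

open Classical in
/-- the error terms -/
noncomputable def Rf (P : Finset ℕ) (Er : Finset ℕ → Finset ℕ → ℝ) (A : Finset (Finset ℕ))
    (T : Finset ℕ) : ℝ := if T ⊆ P then ∑ D ∈ A, Er D T else 0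

open Classical in
theorem loc (S : Finset ℕ) (ω : ℕ → ℝ) (g : ℕ → ℕ → Prop) (P : Finset ℕ) (h : ℕ → ℝ)
    (hP : ∀ p, p ∉ P → h p = 0) (Er : Finset ℕ → Finset ℕ → ℝ) (A : Finset (Finset ℕ))
    (c : Finset ℕ → ℝ) (hc : ∀ D ∈ A, |c D| ≤ 1) (T : Finset ℕ)
    (g' : ℕ → ℕ → Prop) (hg' : ∀ p n, g' p n ↔ (p ∈ P ∧ g p n))
    (hE : T ⊆ P → ∀ D ∈ A, |WS S ω g (D ∪ T) - WS S ω g D * ∏ p ∈ T, h p| ≤ Er D T) :
    |∑ n ∈ S.filter (fun n => ∀ p ∈ T, g' p n),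
        ω n * ∑ D ∈ A, c D * ∏ p ∈ D, ind g n p -
      (∑ D ∈ A, c D * WS S ω g D) * ∏ p ∈ T, h p| ≤ Rf P Er A T := by
  unfold Rf
  by_cases hT : T ⊆ P
  · rw [if_pos hT]
    have e : S.filter (fun n => ∀ p ∈ T, g' p n) = S.filter (fun n => ∀ p ∈ T, g p n) := by
      refine Finset.filter_congr fun n _ => ?_
      exact ⟨fun h p hp => ((hg' p n).1 (h p hp)).2, fun h p hp => (hg' p n).2 ⟨hT hp, h p hp⟩⟩
    rw [e, ws_fam, Finset.sum_mul, ← Finset.sum_sub_distrib]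
    refine (Finset.abs_sum_le_sum_abs _ _).trans (Finset.sum_le_sum fun D hD => ?_)
    have e2 : c D * WS S ω g (D ∪ T) - c D * WS S ω g D * ∏ p ∈ T, h p =
        c D * (WS S ω g (D ∪ T) - WS S ω g D * ∏ p ∈ T, h p) := by ring
    rw [e2, abs_mul]
    have h1 := hE hT D hD
    have h2 := hc D hD
    calc |c D| * |WS S ω g (D ∪ T) - WS S ω g D * ∏ p ∈ T, h p| ≤
          1 * |WS S ω g (D ∪ T) - WS S ω g D * ∏ p ∈ T, h p| :=
          mul_le_mul_of_nonneg_right h2 (abs_nonneg _)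
      _ ≤ Er D T := by rw [one_mul]; exact h1
  · rw [if_neg hT]
    obtain ⟨q, hq, hqP⟩ := Finset.not_subset.1 hT
    have e : S.filter (fun n => ∀ p ∈ T, g' p n) = ∅ := by
      refine Finset.filter_eq_empty_iff.2 fun n _ h => hqP ((hg' q n).1 (h q hq)).1
    rw [e, Finset.sum_empty, Finset.prod_eq_zero hq (hP q hqP), mul_zero, sub_zero, abs_zero]

open Classical in
theorem rf_sum (P Z : Finset ℕ) (hPZ : P ⊆ Z) (Er : Finset ℕ → Finset ℕ → ℝ)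
    (A : Finset (Finset ℕ)) (sz : Finset ℕ → Prop) :
    ∑ T ∈ Z.powerset.filter sz, Rf P Er A T =
      ∑ D ∈ A, ∑ T ∈ P.powerset.filter sz, Er D T := by
  unfold Rf
  rw [Finset.sum_comm, ← Finset.sum_filter]
  refine Finset.sum_congr ?_ fun _ _ => rfl
  ext T
  simp only [Finset.mem_filter, Finset.mem_powerset]
  constructor
  · rintro ⟨⟨_, h2⟩, h3⟩
    exact ⟨h3, h2⟩
  · rintro ⟨h1, h2⟩
    exact ⟨⟨h1.trans hPZ, h2⟩, h1⟩


theorem Rf_nonneg (P : Finset ℕ) (Er : Finset ℕ → Finset ℕ → ℝ) (hE : ∀ D T, 0 ≤ Er D T)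
    (A : Finset (Finset ℕ)) (T : Finset ℕ) : 0 ≤ Rf P Er A T := by
  unfold Rf
  split_ifs
  · exact Finset.sum_nonneg fun D _ => hE D T
  · exact le_rfl

/-- the pointwise inequality -/
theorem ptw (a b y θ E : ℝ) (ha : a = 0 ∨ a = 1) (hb : b = 0 ∨ b = 1) (hy : y ≤ 1) (h1 : a ≤ θ)
    (h2 : θ - a ≤ E) : θ * y - E - b ≤ a * (1 - b) * y := by
  have h3 : (θ - a) * y ≤ (θ - a) * 1 := mul_le_mul_of_nonneg_left hy (by linarith)
  rcases ha with rfl | rfl <;> rcases hb with rfl | rfl <;> nlinarith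

open Classical in
theorem PZ_sub (Y : ℕ) (P : Finset ℕ) (hPZ : P ⊆ PZ Y (17 / 50)) (p : ℕ) :
    (p ∈ PZ Y (1 / 8) ∧ p ∈ P) ↔ (p ∈ P ∧ tt Y p < 1 / 8) := by
  unfold PZ at *
  rw [Finset.mem_filter]
  constructor
  · rintro ⟨⟨_, _, h⟩, h2⟩
    exact ⟨h2, h⟩
  · rintro ⟨h, h2⟩
    have h3 := Finset.mem_filter.1 (hPZ h)
    exact ⟨⟨h3.1, h3.2.1, h2⟩, h⟩

open Classical in
theorem pr_sub (Y : ℕ) (P : Finset ℕ) (hPZ : P ⊆ PZ Y (17 / 50)) (g : ℕ → ℕ → Prop) (n : ℕ)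
    (g' : ℕ → ℕ → Prop) (hg' : ∀ p n, g' p n ↔ (p ∈ P ∧ g p n)) :
    (pr Y (1 / 8) (17 / 50)).filter (fun p => g' p n) =
      P.filter (fun p => 1 / 8 ≤ tt Y p ∧ g p n) := by
  ext p
  rw [Finset.mem_filter, Finset.mem_filter, hg']
  unfold pr
  unfold PZ at hPZ
  rw [Finset.mem_filter]
  constructor
  · rintro ⟨⟨_, _, h, _⟩, h2, h3⟩
    exact ⟨h2, h, h3⟩
  · rintro ⟨h, h2, h3⟩
    have h4 := Finset.mem_filter.1 (hPZ h)
    exact ⟨⟨h4.1, h4.2.1, h2, h4.2.2⟩, h, h3⟩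

open Classical in
theorem ML (hAK : S_AK) (κ : ℕ) : ∃ ε₁ η c₀ C₀ : ℝ, 0 < ε₁ ∧ ε₁ ≤ 1 / 8 ∧ 0 < η ∧ 0 < c₀ ∧ 0 < C₀ ∧
    ∃ Y0 : ℕ, ∀ Y : ℕ, Y0 ≤ Y →
    ∀ (S : Finset ℕ) (g : ℕ → ℕ → Prop) (P Mid : Finset ℕ) (l1 r : ℕ) (h hm ω : ℕ → ℝ) (F MM ε' X3 lam0 δE : ℝ)
      (Er : Finset ℕ → Finset ℕ → ℝ),
    P ⊆ PZ Y (17 / 50) → Disjoint Mid P → l1 ∉ Mid → l1 ∉ P →
    (∀ p, p ∉ P → h p = 0) → (∀ p ∈ P, 0 ≤ h p ∧ h p ≤ 1 ∧ h p ≤ κ / ((p : ℝ) - 1)) →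
    Mer (pr Y ε₁ (17 / 50)) (tt Y) h ε₁ (17 / 50) η →
    (∀ n ∈ S, 0 ≤ ω n) → 0 ≤ F → 0 ≤ MM → 0 ≤ ε' → 0 ≤ δE → 0 ≤ X3 → (∀ D T, 0 ≤ Er D T) →
    (∀ p ∈ Mid, 0 ≤ hm p ∧ hm p ≤ 1) → ∑ p ∈ Mid, hm p ≤ lam0 →
    (∀ D ⊆ Mid, D.card ≤ 2 * r + 1 → |WS S ω g D - MM * F * ∏ p ∈ D, hm p| ≤ ε' * F * ∏ p ∈ D, hm p) →
    WS S ω g {l1} ≤ X3 * F →
    (∀ D T : Finset ℕ, ((D ⊆ Mid ∧ D.card ≤ 2 * r + 1) ∨ D = {l1}) → T ⊆ P →
      ((∏ p ∈ T, p : ℕ) : ℝ) ≤ (Y : ℝ) ^ (499 / 1000 : ℝ) →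
      |WS S ω g (D ∪ T) - WS S ω g D * ∏ p ∈ T, h p| ≤ Er D T) →
    (∀ D ⊆ Mid, D.card ≤ 2 * r + 1 →
      ∑ T ∈ P.powerset.filter (fun T => ((∏ p ∈ T, p : ℕ) : ℝ) ≤ (Y : ℝ) ^ (499 / 1000 : ℝ)), Er D T ≤ δE * F * ∏ p ∈ D, hm p) →
    ∑ T ∈ P.powerset.filter (fun T => ((∏ p ∈ T, p : ℕ) : ℝ) ≤ (Y : ℝ) ^ (499 / 1000 : ℝ)), Er {l1} T ≤ δE * F →
    F * ((c₀ * (MM * ∏ p ∈ Mid, (1 - hm p) - ε' * Real.exp lam0) -
        C₀ * ((MM + ε') * (lam0 ^ (2 * r + 1) / (2 * r + 1).factorial)) - C₀ * X3) *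
        ∏ p ∈ P.filter (fun p => tt Y p < 1 / 8), (1 - h p) - 30 * Real.log Y * δE * Real.exp lam0) ≤
      ∑ n ∈ S.filter (fun n => (∀ p ∈ Mid, ¬ g p n) ∧ ¬ g l1 n ∧ ∀ p ∈ P, tt Y p < 1 / 8 → ¬ g p n),
        ω n * (1 - (1 / 2) * ((P.filter (fun p => 1 / 8 ≤ tt Y p ∧ g p n)).card : ℝ)) := by
  classical
  obtain ⟨ε₁, η, c₀, C₀, h1, h2, h3, h4, h5, Y0, hY0⟩ := hAK κ
  refine ⟨ε₁, η, c₀, C₀, h1, h2, h3, h4, h5, Y0, ?_⟩
  intro Y hY S g P Mid l1 r h hm ω F MM ε' X3 lam0 δE Er hPZ hMidP hl1M hl1P hP0 hP hMer hω hF hMM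
    hε' hδ hX3 hEr hhm hlam hWS hWS1 hErr hS1 hS2
  have hcond1 : ∀ p ∈ PZ Y (17 / 50), 0 ≤ h p ∧ h p ≤ 1 := by
    intro p _
    by_cases hp : p ∈ P
    · exact ⟨(hP p hp).1, (hP p hp).2.1⟩
    · rw [hP0 p hp]
      norm_num
  have hcond2 : ∀ p ∈ PZ Y (1 / 8), κ < p → h p ≤ κ / ((p : ℝ) - 1) := by
    intro p _ hκp
    by_cases hp : p ∈ P
    · exact (hP p hp).2.2
    · rw [hP0 p hp]
      have h6 : (1 : ℝ) ≤ p := by exact_mod_cast (by omega : 1 ≤ p)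
      exact div_nonneg (Nat.cast_nonneg _) (by linarith)
  obtain ⟨g', hg'⟩ : ∃ g' : ℕ → ℕ → Prop, ∀ p n, g' p n ↔ (p ∈ P ∧ g p n) :=
    ⟨fun p n => p ∈ P ∧ g p n, fun _ _ => Iff.rfl⟩
  have AK := hY0 Y hY S g' h hcond1 hcond2 hMer
  have gen : ∀ (A : Finset (Finset ℕ)) (c : Finset ℕ → ℝ), (∀ D ∈ A, |c D| ≤ 1) →
      (∀ D ∈ A, (D ⊆ Mid ∧ D.card ≤ 2 * r + 1) ∨ D = {l1}) →
      (∀ n ∈ S, 0 ≤ ω n * ∑ D ∈ A, c D * ∏ p ∈ D, ind g n p) → _ :=
    fun A c hc hA hpos =>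
      AK (fun n => ω n * ∑ D ∈ A, c D * ∏ p ∈ D, ind g n p) (∑ D ∈ A, c D * WS S ω g D)
        (Rf P Er A) hpos
        (by
          rw [← ws_fam0]
          exact Finset.sum_nonneg hpos)
        (Rf_nonneg P Er hEr A)
        (fun T _ hsz => loc S ω g P h hP0 Er A c hc T g' hg' fun hTP D hD => hErr D T (hA D hD) hTP hsz)
  simp only [rf_sum P _ hPZ] at gen
  set Pi := ∏ p ∈ P.filter (fun p => tt Y p < 1 / 8), (1 - h p) with hPi
  have ePi : ∏ p ∈ PZ Y (1 / 8), (1 - h p) = Pi := by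
    rw [hPi]
    symm
    refine Finset.prod_subset (fun p hp => ?_) fun p hp hp' => ?_
    · rw [Finset.mem_filter] at hp
      exact ((PZ_sub Y P hPZ p).2 hp).1
    · have hpP : p ∉ P := fun h => hp' (Finset.mem_filter.2 ((PZ_sub Y P hPZ p).1 ⟨hp, h⟩))
      rw [hP0 p hpP, sub_zero]
  have hPi0 : 0 ≤ Pi := Finset.prod_nonneg fun p hp => by
    linarith [(hP p (Finset.mem_filter.1 hp).1).2.1]
  set S' := S.filter (fun n => ∀ p ∈ PZ Y (1 / 8), ¬ g' p n) with hS'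
  set y : ℕ → ℝ := fun n =>
    1 - (1 / 2) * ((P.filter (fun p => 1 / 8 ≤ tt Y p ∧ g p n)).card : ℝ) with hy
  have ey : ∀ n, 1 - (1 / 2) * (((pr Y (1 / 8) (17 / 50)).filter
      (fun p => g' p n)).card : ℝ) = y n := by
    intro n
    rw [hy, pr_sub Y P hPZ g n g' hg']
  simp only [ey, ePi] at gen
  have hindnn : ∀ n (D : Finset ℕ), 0 ≤ ∏ p ∈ D, ind g n p := fun n D =>
    Finset.prod_nonneg fun p _ => (ind_01 g n p).1
  set a : ℕ → ℝ := fun n => ∏ p ∈ Mid, (1 - ind g n p) with ha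
  have ha01 : ∀ n, a n = 0 ∨ a n = 1 := by
    intro n
    rw [ha]
    simp only
    rw [ind_prod']
    split_ifs
    · right; rfl
    · left; rfl
  have hb01 : ∀ n, ind g n l1 = 0 ∨ ind g n l1 = 1 := by
    intro n
    unfold ind
    split_ifs
    · right; rfl
    · left; rfl
  have hup : ∀ n, a n ≤ ∑ D ∈ Fam Mid (2 * r), (-1 : ℝ) ^ D.card * ∏ p ∈ D, ind g n p := by
    intro n
    rw [Fam_sum]
    have := bonf (ind g n) Mid (fun p _ => ind_01 g n p) (2 * r)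
    rw [pow_mul, neg_one_sq, one_pow, one_mul] at this
    linarith
  have hlow : ∀ n, ∑ D ∈ Fam Mid (2 * r), (-1 : ℝ) ^ D.card * ∏ p ∈ D, ind g n p - a n ≤
      ∑ D ∈ Mid.powersetCard (2 * r + 1), 1 * ∏ p ∈ D, ind g n p := by
    intro n
    rw [Fam_sum]
    have := bonf (ind g n) Mid (fun p _ => ind_01 g n p) (2 * r + 1)
    rw [Finset.sum_range_succ _ (2 * r + 1), pow_succ, pow_mul, neg_one_sq, one_pow, one_mul] at this
    simp only [one_mul]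
    change _ ≤ Ef (ind g n) Mid (2 * r + 1)
    linarith
  have ha0 : ∀ n, 0 ≤ a n := fun n => by rcases ha01 n with h | h <;> rw [h] <;> norm_num
  -- the three applications
  have g1 := (gen (Fam Mid (2 * r)) (fun D => (-1) ^ D.card)
    (fun D _ => by rw [abs_pow, abs_neg, abs_one, one_pow])
    (fun D hD => by
      rw [Fam, Finset.mem_filter, Finset.mem_powerset] at hD
      exact Or.inl ⟨hD.1, by omega⟩)
    (fun n hn => mul_nonneg (hω n hn) ((ha0 n).trans (hup n)))).1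
  have g2 := (gen (Mid.powersetCard (2 * r + 1)) (fun _ => 1)
    (fun D _ => by rw [abs_one])
    (fun D hD => by
      rw [Finset.mem_powersetCard] at hD
      exact Or.inl ⟨hD.1, by omega⟩)
    (fun n hn => mul_nonneg (hω n hn) (Finset.sum_nonneg fun D _ => by
      rw [one_mul]
      exact hindnn n D))).2
  have g3 := (gen {{l1}} (fun _ => 1)
    (fun D _ => by rw [abs_one])
    (fun D hD => by
      rw [Finset.mem_singleton] at hD
      exact Or.inr hD)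
    (fun n hn => mul_nonneg (hω n hn) (Finset.sum_nonneg fun D _ => by
      rw [one_mul]
      exact hindnn n D))).2
  -- the main terms
  have hhm0 : ∀ p ∈ Mid, 0 ≤ hm p := fun p hp => (hhm p hp).1
  have hprod0 : ∀ D ⊆ Mid, 0 ≤ ∏ p ∈ D, hm p := fun D hD =>
    Finset.prod_nonneg fun p hp => hhm0 p (hD hp)
  have hs0 : 0 ≤ ∑ p ∈ Mid, hm p := Finset.sum_nonneg hhm0
  have hlam0 : 0 ≤ lam0 := hs0.trans hlam
  have hexp : 1 ≤ Real.exp lam0 := Real.one_le_exp hlam0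
  have hFamM : ∀ D ∈ Fam Mid (2 * r), D ⊆ Mid ∧ D.card ≤ 2 * r + 1 := by
    intro D hD
    rw [Fam, Finset.mem_filter, Finset.mem_powerset] at hD
    exact ⟨hD.1, by omega⟩
  have hPsM : ∀ D ∈ Mid.powersetCard (2 * r + 1), D ⊆ Mid ∧ D.card ≤ 2 * r + 1 := by
    intro D hD
    rw [Finset.mem_powersetCard] at hD
    exact ⟨hD.1, by omega⟩
  have hX1 : F * (MM * ∏ p ∈ Mid, (1 - hm p) - ε' * Real.exp lam0) ≤
      ∑ D ∈ Fam Mid (2 * r), (-1 : ℝ) ^ D.card * WS S ω g D := by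
    have e1 : ∀ D ∈ Fam Mid (2 * r), MM * F * ((-1 : ℝ) ^ D.card * ∏ p ∈ D, hm p) -
        ε' * F * ∏ p ∈ D, hm p ≤ (-1 : ℝ) ^ D.card * WS S ω g D := by
      intro D hD
      have e2 := hWS D (hFamM D hD).1 (hFamM D hD).2
      have e3 : |(-1 : ℝ) ^ D.card * (WS S ω g D - MM * F * ∏ p ∈ D, hm p)| ≤
          ε' * F * ∏ p ∈ D, hm p := by
        rw [abs_mul, abs_pow, abs_neg, abs_one, one_pow, one_mul]
        exact e2
      have e4 := (abs_le.1 e3).1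
      have e5 : (-1 : ℝ) ^ D.card * (WS S ω g D - MM * F * ∏ p ∈ D, hm p) =
        (-1 : ℝ) ^ D.card * WS S ω g D - MM * F * ((-1 : ℝ) ^ D.card * ∏ p ∈ D, hm p) := by ring
      linarith
    refine le_trans ?_ (Finset.sum_le_sum e1)
    rw [Finset.sum_sub_distrib, ← Finset.mul_sum, ← Finset.mul_sum, Fam_sum]
    have e6 := bonf hm Mid hhm (2 * r)
    rw [pow_mul, neg_one_sq, one_pow, one_mul] at e6
    have e7 := sum_le_exp hm Mid hhm0 (Fam Mid (2 * r))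
      (fun D hD => Finset.mem_powerset.2 (hFamM D hD).1) lam0 hlam
    have e8 := mul_le_mul_of_nonneg_left e7 (mul_nonneg hε' hF)
    have e9 := mul_nonneg (mul_nonneg hMM hF) e6
    nlinarith
  have hX2 : ∑ D ∈ Mid.powersetCard (2 * r + 1), 1 * WS S ω g D ≤
      F * ((MM + ε') * (lam0 ^ (2 * r + 1) / (2 * r + 1).factorial)) := by
    have e1 : ∀ D ∈ Mid.powersetCard (2 * r + 1), 1 * WS S ω g D ≤
        ((MM + ε') * F) * ∏ p ∈ D, hm p := by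
      intro D hD
      have e2 := hWS D (hPsM D hD).1 (hPsM D hD).2
      have e4 := (abs_le.1 e2).2
      linarith
    refine (Finset.sum_le_sum e1).trans ?_
    rw [← Finset.mul_sum]
    change (MM + ε') * F * Ef hm Mid (2 * r + 1) ≤ _
    have e5 := Ef_le hm Mid hhm0 (2 * r + 1)
    have e6 : (∑ p ∈ Mid, hm p) ^ (2 * r + 1) / ((2 * r + 1).factorial : ℝ) ≤
        lam0 ^ (2 * r + 1) / (2 * r + 1).factorial :=
      div_le_div_of_nonneg_right (pow_le_pow_left₀ hs0 hlam _) (by positivity)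
    have e7 := mul_le_mul_of_nonneg_left (e5.trans e6)
      (mul_nonneg (add_nonneg hMM hε') hF)
    linarith
  have hX3 : ∑ D ∈ ({{l1}} : Finset (Finset ℕ)), 1 * WS S ω g D ≤ F * X3 := by
    rw [Finset.sum_singleton, one_mul]
    linarith
  -- the error terms
  have hδF : 0 ≤ δE * F := mul_nonneg hδ hF
  have hR1 : ∑ D ∈ Fam Mid (2 * r), ∑ T ∈ P.powerset.filter
      (fun T => ((∏ p ∈ T, p : ℕ) : ℝ) ≤ (Y : ℝ) ^ (499 / 1000 : ℝ)), Er D T ≤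
      δE * F * Real.exp lam0 := by
    refine (Finset.sum_le_sum fun D hD => hS1 D (hFamM D hD).1 (hFamM D hD).2).trans ?_
    rw [← Finset.mul_sum]
    exact mul_le_mul_of_nonneg_left (sum_le_exp hm Mid hhm0 (Fam Mid (2 * r))
      (fun D hD => Finset.mem_powerset.2 (hFamM D hD).1) lam0 hlam) hδF
  have hR2 : ∑ D ∈ Mid.powersetCard (2 * r + 1), ∑ T ∈ P.powerset.filter
      (fun T => ((∏ p ∈ T, p : ℕ) : ℝ) ≤ (Y : ℝ) ^ (499 / 1000 : ℝ)), Er D T ≤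
      δE * F * Real.exp lam0 := by
    refine (Finset.sum_le_sum fun D hD => hS1 D (hPsM D hD).1 (hPsM D hD).2).trans ?_
    rw [← Finset.mul_sum]
    exact mul_le_mul_of_nonneg_left (sum_le_exp hm Mid hhm0 (Mid.powersetCard (2 * r + 1))
      (fun D hD => Finset.mem_powerset.2 (hPsM D hD).1) lam0 hlam) hδF
  have hR3 : ∑ D ∈ ({{l1}} : Finset (Finset ℕ)), ∑ T ∈ P.powerset.filter
      (fun T => ((∏ p ∈ T, p : ℕ) : ℝ) ≤ (Y : ℝ) ^ (499 / 1000 : ℝ)), Er D T ≤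
      δE * F * Real.exp lam0 := by
    rw [Finset.sum_singleton]
    refine hS2.trans ?_
    have := mul_le_mul_of_nonneg_left hexp hδF
    linarith
  have hlog : 0 ≤ Real.log Y := Real.log_natCast_nonneg Y
  -- the right hand side
  have hrhs : ∑ n ∈ S.filter (fun n => (∀ p ∈ Mid, ¬ g p n) ∧ ¬ g l1 n ∧
      ∀ p ∈ P, tt Y p < 1 / 8 → ¬ g p n), ω n * y n =
      ∑ n ∈ S', ω n * (a n * (1 - ind g n l1) * y n) := by
    rw [hS', Finset.sum_filter, Finset.sum_filter]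
    refine Finset.sum_congr rfl fun n _ => ?_
    have e1 : (∀ p ∈ PZ Y (1 / 8), ¬ g' p n) ↔ (∀ p ∈ P, tt Y p < 1 / 8 → ¬ g p n) := by
      constructor
      · intro h p hp hp' hg
        exact h p ((PZ_sub Y P hPZ p).2 ⟨hp, hp'⟩).1 ((hg' p n).2 ⟨hp, hg⟩)
      · intro h p hp hg
        have h6 := (hg' p n).1 hg
        have h7 := (PZ_sub Y P hPZ p).1 ⟨hp, h6.1⟩
        exact h p h7.1 h7.2 h6.2
    have e2 : a n = if ∀ p ∈ Mid, ¬ g p n then 1 else 0 := by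
      rw [ha]
      simp only
      rw [ind_prod']
    have e3 : ind g n l1 = if g l1 n then 1 else 0 := rfl
    have e4 : (∀ p ∈ Mid, ¬ g p n) → a n = 1 := fun h => by rw [e2, if_pos h]
    have e5 : (¬ ∀ p ∈ Mid, ¬ g p n) → a n = 0 := fun h => by rw [e2, if_neg h]
    have e6 : g l1 n → ind g n l1 = 1 := fun h => by rw [e3, if_pos h]
    have e7 : ¬ g l1 n → ind g n l1 = 0 := fun h => by rw [e3, if_neg h]
    split_ifs with A B B
    · rw [e4 A.1, e7 A.2.1]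
      ring
    · exact absurd (e1.2 A.2.2) B
    · by_cases q2 : ∀ p ∈ Mid, ¬ g p n
      · by_cases q3 : g l1 n
        · rw [e6 q3]
          ring
        · exact absurd ⟨q2, q3, e1.1 B⟩ A
      · rw [e5 q2]
        ring
    · rfl
  have hpt : ∑ n ∈ S', (ω n * ∑ D ∈ Fam Mid (2 * r), (-1 : ℝ) ^ D.card * ∏ p ∈ D, ind g n p) * y n -
      ∑ n ∈ S', ω n * ∑ D ∈ Mid.powersetCard (2 * r + 1), 1 * ∏ p ∈ D, ind g n p -
      ∑ n ∈ S', ω n * ∑ D ∈ ({{l1}} : Finset (Finset ℕ)), 1 * ∏ p ∈ D, ind g n p ≤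
      ∑ n ∈ S', ω n * (a n * (1 - ind g n l1) * y n) := by
    rw [← Finset.sum_sub_distrib, ← Finset.sum_sub_distrib]
    refine Finset.sum_le_sum fun n hn => ?_
    have hnS : n ∈ S := by
      rw [hS'] at hn
      simp only [Finset.mem_filter] at hn
      exact hn.1
    have hωn := hω n hnS
    have e1 : ∑ D ∈ ({{l1}} : Finset (Finset ℕ)), 1 * ∏ p ∈ D, ind g n p = ind g n l1 := by
      rw [Finset.sum_singleton, one_mul, Finset.prod_singleton]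
    rw [e1]
    have hyn : y n ≤ 1 := by
      rw [hy]
      simp only
      have : (0 : ℝ) ≤ ((P.filter (fun p => 1 / 8 ≤ tt Y p ∧ g p n)).card : ℝ) := Nat.cast_nonneg _
      linarith
    have e2 := mul_le_mul_of_nonneg_left (ptw (a n) (ind g n l1) (y n) _ _ (ha01 n) (hb01 n) hyn
      (hup n) (hlow n)) hωn
    refine le_trans (le_of_eq ?_) e2
    ring
  rw [hrhs]
  refine le_trans ?_ hpt
  have f1 := mul_le_mul_of_nonneg_left (mul_le_mul_of_nonneg_right hX1 hPi0) h4.le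
  have f2 := mul_le_mul_of_nonneg_left (mul_le_mul_of_nonneg_right hX2 hPi0) h5.le
  have f3 := mul_le_mul_of_nonneg_left (mul_le_mul_of_nonneg_right hX3 hPi0) h5.le
  have hl10 : 0 ≤ 10 * Real.log Y := by linarith
  have f4 := mul_le_mul_of_nonneg_left hR1 hl10
  have f5 := mul_le_mul_of_nonneg_left hR2 hl10
  have f6 := mul_le_mul_of_nonneg_left hR3 hl10
  have e : F * ((c₀ * (MM * ∏ p ∈ Mid, (1 - hm p) - ε' * Real.exp lam0) -
        C₀ * ((MM + ε') * (lam0 ^ (2 * r + 1) / (2 * r + 1).factorial)) - C₀ * X3) * Pi -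
        30 * Real.log Y * δE * Real.exp lam0) =
      c₀ * (F * (MM * ∏ p ∈ Mid, (1 - hm p) - ε' * Real.exp lam0) * Pi) -
      C₀ * (F * ((MM + ε') * (lam0 ^ (2 * r + 1) / (2 * r + 1).factorial)) * Pi) -
      C₀ * (F * X3 * Pi) - 10 * Real.log Y * (δE * F * Real.exp lam0) -
      10 * Real.log Y * (δE * F * Real.exp lam0) - 10 * Real.log Y * (δE * F * Real.exp lam0) := by
    ring
  rw [e]
  linarith

end SubC

end Pool.Agent.H536.OC
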