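import Mathlib
import Pool.Agent.H536.OC.C12
import Pool.Agent.H536.OC.SubC

open Finset Filter Topology

/-! From the averaged prime sums to the masses of the sieve. -/

namespace Pool.Agent.H536.OC

open Pool.Agent.H378R2 Pool.Agent.H262R3.Lk
open Pool.Agent.H536.OB
open SubC (WS)

/-- extension of a choice of classes -/
def ext (U : Finset ℕ) (φ : (p : ℕ) → p ∈ U → ℕ) (p : ℕ) : ℕ := if h : p ∈ U then φ p h else 0

open Classical in
theorem cl_exp (S U : Finset ℕ) (H : ℕ → Finset ℕ) (ω : ℕ → ℝ) :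
    ∑ t ∈ S.filter (fun t => ∀ p ∈ U, t % p ∈ H p), ω t =
      ∑ φ ∈ U.pi H, ∑ t ∈ S.filter (fun t => ∀ p ∈ U, t % p = ext U φ p), ω t := by
  rw [← sum_fiberwise_of_maps_to (g := fun t => (fun p (_ : p ∈ U) => t % p)) (t := U.pi H)]
  · apply sum_congr rfl
    intro φ hφ
    congr 1
    ext t
    simp only [mem_filter]
    rw [Finset.mem_pi] at hφ
    constructor
    · rintro ⟨⟨h1, h2⟩, h3⟩
      refine ⟨h1, fun p hp => ?_⟩
      unfold ext
      rw [dif_pos hp, ← h3]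
    · rintro ⟨h1, h2⟩
      have h3 : (fun p (_ : p ∈ U) => t % p) = φ := by
        funext p hp
        have := h2 p hp
        unfold ext at this
        rw [dif_pos hp] at this
        exact this
      refine ⟨⟨h1, fun p hp => ?_⟩, h3⟩
      have := h2 p hp
      unfold ext at this
      rw [dif_pos hp] at this
      rw [this]
      exact hφ p hp
  · intro t ht
    rw [mem_filter] at ht
    rw [Finset.mem_pi]
    exact fun p hp => ht.2 p hp

theorem ext_mem {U : Finset ℕ} {H : ℕ → Finset ℕ} {φ : (p : ℕ) → p ∈ U → ℕ} (h : φ ∈ U.pi H) {p : ℕ} (hp : p ∈ U) :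
    ext U φ p ∈ H p := by
  unfold ext
  rw [dif_pos hp]
  exact Finset.mem_pi.1 h p hp

/-- the weight of the prime at the place `t` -/
noncomputable def om (N : ℕ) (T : ℝ) (Q B t : ℕ) : ℝ := KN N T (Q * t + B) * ArithmeticFunction.vonMangoldt (Q * t + B)

theorem om_nonneg (N : ℕ) (T : ℝ) (Q B t : ℕ) : 0 ≤ om N T Q B t :=
  mul_nonneg (KN_nonneg _ _ _) ArithmeticFunction.vonMangoldt_nonneg

theorem prime_prod_ne {U : Finset ℕ} (hU : ∀ p ∈ U, p.Prime) : 0 < ∏ p ∈ U, p :=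
  Finset.prod_pos fun p hp => (hU p hp).pos

theorem mod_prod {t t0 : ℕ} {U : Finset ℕ} (hU : ∀ p ∈ U, p.Prime) : t ≡ t0 [MOD ∏ p ∈ U, p] ↔ ∀ p ∈ U, t ≡ t0 [MOD p] := by
  have := modEq_prod (Q := 1) (n := t) (B' := t0) U (fun p hp => ⟨hU p hp, fun h => (hU p hp).one_lt.ne' (Nat.dvd_one.1 h)⟩)
  rw [one_mul] at this
  rw [this]
  constructor
  · exact fun h => h.2
  · exact fun h => ⟨Nat.modEq_one, h⟩

open Classical in
theorem CJ {N : ℕ} (hN : 0 < N) {T : ℝ} (hT : 1 ≤ T) {Nm Q B : ℕ} (hNm : 3 * Real.exp (101 / 100 * T) ≤ Nm) (hB1 : 1 ≤ B)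
    (hBQ : B ≤ Q) {U : Finset ℕ} (hU : ∀ p ∈ U, p.Prime) {c : ℕ → ℕ} (hc : ∀ p ∈ U, c p < p) :
    ∃ t0 : ℕ, (∀ p ∈ U, t0 ≡ c p [MOD p]) ∧ ∑ t ∈ (range (Nm + 1)).filter (fun t => ∀ p ∈ U, t % p = c p), om N T Q B t =
      JJ N T (Q * ∏ p ∈ U, p) (Q * t0 + B) := by
  obtain ⟨t0, _, ht0⟩ := crt_ex (Q := 1) 0 U (fun p hp => ⟨hU p hp, fun h => (hU p hp).one_lt.ne' (Nat.dvd_one.1 h)⟩) c
  refine ⟨t0, ht0, ?_⟩
  have hQ : 0 < Q := by omega
  rw [JJ_eq hN hT hNm]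
  have hcond : ∀ t : ℕ, (∀ p ∈ U, t % p = c p) ↔ t ≡ t0 [MOD ∏ p ∈ U, p] := by
    intro t
    rw [mod_prod hU]
    apply forall₂_congr
    intro p hp
    have h1 := ht0 p hp
    unfold Nat.ModEq at h1 ⊢
    rw [h1, Nat.mod_eq_of_lt (hc p hp)]
  have h1 : ∑ t ∈ (range (Nm + 1)).filter (fun t => ∀ p ∈ U, t % p = c p), om N T Q B t =
      ∑ t ∈ ((range (Nm + 1)).filter (fun t => ∀ p ∈ U, t % p = c p)).filter (fun t => Q * t + B ≤ Nm), om N T Q B t := by
    symm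
    apply sum_filter_of_ne
    intro t _ hne
    by_contra hlt
    push Not at hlt
    apply hne
    unfold om
    have h2 : 1 ≤ Q * t + B := by omega
    rw [KN_zero hN (by linarith) h2 (Or.inr _), zero_mul]
    have h3 : 3 * Real.exp (101 / 100 * T) ≤ ((Q * t + B : ℕ) : ℝ) := hNm.trans (by exact_mod_cast hlt.le)
    rw [Real.le_log_iff_exp_le (lt_of_lt_of_le (by positivity) h3), Real.exp_add]
    have h4 := Real.exp_one_lt_d9
    have h5 := Real.exp_pos (101 / 100 * T)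
    nlinarith
  rw [h1]
  apply sum_nbij (fun t => Q * t + B)
  · intro t ht
    rw [mem_filter, mem_filter, hcond] at ht
    rw [mem_filter, mem_Icc]
    refine ⟨⟨by omega, ht.2⟩, ?_⟩
    apply Nat.ModEq.add_right
    exact Nat.ModEq.mul_left' Q ht.1.2
  · intro t _ t' _ h
    simp only at h
    have : Q * t = Q * t' := by omega
    exact Nat.eq_of_mul_eq_mul_left hQ this
  · intro n hn
    rw [mem_coe, mem_filter, mem_Icc] at hn
    obtain ⟨⟨h2, h3⟩, h4⟩ := hn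
    have h5 : n ≡ B [MOD Q] := by
      have h6 := h4.of_dvd (Nat.dvd_mul_right Q (∏ p ∈ U, p))
      have h7 : Q * t0 + B ≡ B [MOD Q] := by
        unfold Nat.ModEq
        rw [Nat.mul_add_mod]
      exact h6.trans h7
    have h8 : B ≤ n := by
      by_contra hlt
      push Not at hlt
      have h9 := (Nat.modEq_iff_dvd' hlt.le).1 h5
      have h10 := Nat.le_of_dvd (by omega) h9
      omega
    obtain ⟨t, ht⟩ := (Nat.modEq_iff_dvd' h8).1 h5.symm
    have hnt : n = Q * t + B := by omega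
    refine ⟨t, ?_, hnt.symm⟩
    rw [mem_coe, mem_filter, mem_filter, mem_range, hcond]
    refine ⟨⟨?_, ?_⟩, by omega⟩
    · have : t ≤ Q * t := Nat.le_mul_of_pos_left t hQ
      omega
    · rw [hnt] at h4
      have h9 : Q * t ≡ Q * t0 [MOD Q * ∏ p ∈ U, p] := Nat.ModEq.add_right_cancel' B h4
      exact Nat.ModEq.mul_left_cancel' hQ.ne' h9
  · intro t _
    rfl

theorem cop_class {Q B t0 : ℕ} {U : Finset ℕ} (hBQ : B.Coprime Q) (hU : ∀ p ∈ U, p.Prime) {c : ℕ → ℕ}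
    (ht0 : ∀ p ∈ U, t0 ≡ c p [MOD p]) (hc : ∀ p ∈ U, ¬ p ∣ Q → ¬ p ∣ Q * c p + B) :
    (Q * t0 + B).Coprime (Q * ∏ p ∈ U, p) := by
  have h1 : (Q * t0 + B).Coprime Q := by
    have h0 : Q * t0 + B ≡ B [MOD Q] := by
      unfold Nat.ModEq
      rw [Nat.mul_add_mod]
    rw [Nat.coprime_iff_gcd_eq_one, h0.gcd_eq]
    exact hBQ
  apply Nat.Coprime.mul_right h1
  apply Nat.Coprime.prod_right
  intro p hp
  apply Nat.Coprime.symm
  rw [Nat.Prime.coprime_iff_not_dvd (hU p hp)]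
  intro hd
  by_cases hpQ : p ∣ Q
  · have h2 : p ∣ Nat.gcd (Q * t0 + B) Q := Nat.dvd_gcd hd hpQ
    rw [h1] at h2
    exact (hU p hp).one_lt.ne' (Nat.dvd_one.1 h2)
  · apply hc p hp hpQ
    have h2 : Q * t0 + B ≡ Q * c p + B [MOD p] := ((ht0 p hp).mul_left Q).add_right B
    exact (Nat.modEq_zero_iff_dvd.1 (h2.symm.trans (Nat.modEq_zero_iff_dvd.2 hd)))

/-- the size of the group after one more prime -/
noncomputable def psi (Q p : ℕ) : ℝ := if p ∣ Q then (p : ℝ) else (p : ℝ) - 1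

theorem psi_pos {Q p : ℕ} (hp : p.Prime) : 0 < psi Q p := by
  unfold psi
  have : (2 : ℝ) ≤ p := by exact_mod_cast hp.two_le
  split_ifs <;> linarith

theorem psi_ge {Q p : ℕ} (hp : p.Prime) : (p : ℝ) - 1 ≤ psi Q p := by
  unfold psi
  split_ifs <;> linarith

theorem totQ {Q : ℕ} (U : Finset ℕ) (hU : ∀ p ∈ U, p.Prime) :
    ((Q * ∏ p ∈ U, p).totient : ℝ) = Q.totient * ∏ p ∈ U, psi Q p := by
  classical
  induction U using Finset.induction_on with
  | empty => simp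
  | insert p U hp ih =>
    have hpp := hU p (mem_insert_self _ _)
    have ih' := ih fun r hr => hU r (mem_insert_of_mem hr)
    rw [prod_insert hp, prod_insert hp]
    have e : Q * (p * ∏ r ∈ U, r) = p * (Q * ∏ r ∈ U, r) := by ring
    rw [e]
    have hiff : p ∣ Q * ∏ r ∈ U, r ↔ p ∣ Q := by
      constructor
      · intro h
        rcases (Nat.Prime.dvd_mul hpp).1 h with h | h
        · exact h
        · obtain ⟨r, hr, hpr⟩ := (Prime.dvd_finsetProd_iff hpp.prime _).1 h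
          have := (Nat.prime_dvd_prime_iff_eq hpp (hU r (mem_insert_of_mem hr))).1 hpr
          subst this
          exact absurd hr hp
      · exact fun h => h.mul_right _
    unfold psi
    by_cases hpQ : p ∣ Q
    · rw [Nat.totient_mul_of_prime_of_dvd hpp (hiff.2 hpQ), Nat.cast_mul, ih', if_pos hpQ]
      unfold psi
      ring
    · rw [Nat.totient_mul_of_prime_of_not_dvd hpp (fun h => hpQ (hiff.1 h)), Nat.cast_mul, ih', if_neg hpQ,
        Nat.cast_sub hpp.one_lt.le, Nat.cast_one]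
      unfold psi
      ring

open Classical in
/-- hypothesis (i) -/
theorem inp1 {N : ℕ} (hN : 0 < N) {T : ℝ} (hT : 1 ≤ T) {Nm Q B : ℕ} (hNm : 3 * Real.exp (101 / 100 * T) ≤ Nm) (hB1 : 1 ≤ B)
    (hBQ : B ≤ Q) (hBc : B.Coprime Q) {H : ℕ → Finset ℕ} {D : Finset ℕ} (hD : ∀ p ∈ D, p.Prime ∧ H p ⊆ range p ∧
      (¬ p ∣ Q → ∀ c ∈ H p, ¬ p ∣ Q * c + B)) {MM e : ℝ}
    (hJ : ∀ b : ℕ, b ≡ B [MOD Q] → b.Coprime (Q * ∏ p ∈ D, p) → |((Q * ∏ p ∈ D, p).totient : ℝ) * JJ N T (Q * ∏ p ∈ D, p) b - MM| ≤ e) :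
    |WS (range (Nm + 1)) (om N T Q B) (fun p t => t % p ∈ H p) D - MM * (1 / Q.totient) * ∏ p ∈ D, (((H p).card : ℝ) / psi Q p)| ≤
      e * (1 / Q.totient) * ∏ p ∈ D, (((H p).card : ℝ) / psi Q p) := by
  have hDp : ∀ p ∈ D, p.Prime := fun p hp => (hD p hp).1
  have hQ : 0 < Q := by omega
  have hφQ : (0 : ℝ) < Q.totient := by exact_mod_cast Nat.totient_pos.2 hQ
  have hψ : 0 < ∏ p ∈ D, psi Q p := Finset.prod_pos fun p hp => psi_pos (hDp p hp)
  have htot := totQ (Q := Q) D hDp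
  set φD : ℝ := ((Q * ∏ p ∈ D, p).totient : ℝ) with hφD
  have hφD0 : 0 < φD := by rw [htot]; positivity
  have e1 : (1 / (Q.totient : ℝ)) * ∏ p ∈ D, (((H p).card : ℝ) / psi Q p) = ((D.pi H).card : ℝ) * (1 / φD) := by
    rw [card_pi, prod_div_distrib, htot, Nat.cast_prod, one_div, one_div, mul_inv, div_eq_mul_inv]
    ring
  have e2 : WS (range (Nm + 1)) (om N T Q B) (fun p t => t % p ∈ H p) D = ∑ φ ∈ D.pi H, ∑ t ∈ (range (Nm + 1)).filter (fun t => ∀ p ∈ D, t % p = ext D φ p), om N T Q B t := by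
    unfold WS
    rw [← cl_exp]
    apply sum_congr _ (fun _ _ => rfl)
    ext t
    simp only [mem_filter]
  rw [e2, mul_assoc, mul_assoc, e1]
  have e3 : MM * (((D.pi H).card : ℝ) * (1 / φD)) = ∑ φ ∈ D.pi H, MM / φD := by
    rw [sum_const, nsmul_eq_mul]; ring
  have e4 : e * (((D.pi H).card : ℝ) * (1 / φD)) = ∑ φ ∈ D.pi H, e / φD := by
    rw [sum_const, nsmul_eq_mul]; ring
  rw [e3, e4, ← sum_sub_distrib]
  refine (abs_sum_le_sum_abs _ _).trans (sum_le_sum ?_)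
  intro φ hφ
  have hcl : ∀ p ∈ D, ext D φ p < p := fun p hp => mem_range.1 ((hD p hp).2.1 (ext_mem hφ hp))
  obtain ⟨t0, ht0, hsum⟩ := CJ hN hT hNm hB1 hBQ hDp hcl
  rw [hsum]
  have hcop := cop_class (t0 := t0) hBc hDp (c := ext D φ) ht0 (fun p hp hpQ => (hD p hp).2.2 hpQ _ (ext_mem hφ hp))
  have h1 := hJ (Q * t0 + B) (by unfold Nat.ModEq; rw [Nat.mul_add_mod]) hcop
  have h2 : JJ N T (Q * ∏ p ∈ D, p) (Q * t0 + B) - MM / φD = (φD * JJ N T (Q * ∏ p ∈ D, p) (Q * t0 + B) - MM) / φD := by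
    field_simp
  rw [h2, abs_div, abs_of_pos hφD0]
  exact div_le_div_of_nonneg_right h1 hφD0.le

theorem Bc_existsJ (N : ℕ) (T : ℝ) (Q : ℕ) (hQ : 0 < Q) : ∃ Bc : ℕ → ℕ, (∀ q, 1 ≤ q → (Bc q).Coprime (Q * q)) ∧
    (∀ q, 1 ≤ q → ∀ b' : ℕ, b'.Coprime (Q * q) → |EJ N T Q q b'| ≤ |EJ N T Q q (Bc q)|) := by
  classical
  have h1 : ∀ q : ℕ, ∃ b : ℕ, 1 ≤ q → (b.Coprime (Q * q) ∧
      ∀ b' : ℕ, b'.Coprime (Q * q) → |EJ N T Q q b'| ≤ |EJ N T Q q b|) := by
    intro q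
    by_cases hq : 1 ≤ q
    · have hQq : 0 < Q * q := Nat.mul_pos hQ hq
      obtain ⟨b, hb, hmax⟩ := Finset.exists_max_image ((range (Q * q + 1)).filter (fun b => b.Coprime (Q * q)))
        (fun b => |EJ N T Q q b|) ⟨1, by
          rw [mem_filter, mem_range]
          exact ⟨by omega, Nat.coprime_one_left _⟩⟩
      refine ⟨b, fun _ => ⟨(mem_filter.1 hb).2, fun b' hb' => ?_⟩⟩
      have hper : EJ N T Q q b' = EJ N T Q q (b' % (Q * q)) := by
        have e1 : ∀ Y : ℝ, pc Y (Q * q) b' = pc Y (Q * q) (b' % (Q * q)) := by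
          intro Y
          unfold pc
          congr 1
          ext n
          rw [mem_filter, mem_filter]
          have h2 : b' % (Q * q) ≡ b' [MOD (Q * q)] := Nat.mod_modEq _ _
          constructor
          · rintro ⟨h3, h4⟩
            exact ⟨h3, h4.trans h2.symm⟩
          · rintro ⟨h3, h4⟩
            exact ⟨h3, h4.trans h2⟩
        have e2 : ∀ Y : ℝ, pc Y Q b' = pc Y Q (b' % (Q * q)) := by
          intro Y
          unfold pc
          congr 1
          ext n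
          rw [mem_filter, mem_filter]
          have h2 : b' % (Q * q) ≡ b' [MOD Q] := (Nat.mod_modEq _ _).of_mul_right q
          constructor
          · rintro ⟨h3, h4⟩
            exact ⟨h3, h4.trans h2.symm⟩
          · rintro ⟨h3, h4⟩
            exact ⟨h3, h4.trans h2⟩
        unfold EJ JJ
        simp_rw [e1, e2]
      rw [hper]
      apply hmax
      rw [mem_filter, mem_range]
      refine ⟨(Nat.mod_lt _ hQq).trans (Nat.lt_succ_self _), ?_⟩
      have : (b' % (Q * q)).gcd (Q * q) = b'.gcd (Q * q) := (Nat.mod_modEq b' (Q * q)).gcd_eq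
      rw [Nat.coprime_iff_gcd_eq_one, this]
      exact hb'
    · exact ⟨0, fun h => absurd h hq⟩
  choose Bc hBc using h1
  exact ⟨Bc, fun q hq => (hBc q hq).1, fun q hq => (hBc q hq).2⟩

end Pool.Agent.H536.OC
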