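import Mathlib
import Pool.Agent.H536.OC.C13

open Finset Filter Topology

/-! From the averaged prime sums to the masses of the sieve, part 2. -/

namespace Pool.Agent.H536.OC

open Pool.Agent.H378R2 Pool.Agent.H262R3.Lk
open Pool.Agent.H536.OB
open SubC (WS)

open Classical in
theorem WS_exp (S : Finset ℕ) (ω : ℕ → ℝ) (H : ℕ → Finset ℕ) (D : Finset ℕ) :
    WS S ω (fun p t => t % p ∈ H p) D = ∑ φ ∈ D.pi H, ∑ t ∈ S.filter (fun t => ∀ p ∈ D, t % p = ext D φ p), ω t := by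
  unfold WS
  rw [← cl_exp]
  apply sum_congr _ (fun _ _ => rfl)
  ext t
  simp only [mem_filter]

open Classical in
theorem WS_exp2 (S : Finset ℕ) (ω : ℕ → ℝ) (H : ℕ → Finset ℕ) {D T : Finset ℕ} (hDT : Disjoint D T) :
    WS S ω (fun p t => t % p ∈ H p) (D ∪ T) = ∑ φ ∈ D.pi H, ∑ ψ ∈ T.pi H,
      ∑ t ∈ S.filter (fun t => ∀ p ∈ D ∪ T, t % p = if p ∈ D then ext D φ p else ext T ψ p), ω t := by
  have h1 : WS S ω (fun p t => t % p ∈ H p) (D ∪ T) =
      ∑ t ∈ (S.filter (fun t => ∀ p ∈ T, t % p ∈ H p)).filter (fun t => ∀ p ∈ D, t % p ∈ H p), ω t := by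
    unfold WS
    apply sum_congr _ (fun _ _ => rfl)
    ext t
    simp only [mem_filter, mem_union]
    constructor
    · rintro ⟨h1, h2⟩
      exact ⟨⟨h1, fun p hp => h2 p (Or.inr hp)⟩, fun p hp => h2 p (Or.inl hp)⟩
    · rintro ⟨⟨h1, h2⟩, h3⟩
      refine ⟨h1, fun p hp => ?_⟩
      rcases hp with hp | hp
      · exact h3 p hp
      · exact h2 p hp
  rw [h1, cl_exp]
  apply sum_congr rfl
  intro φ hφ
  have h2 : (S.filter (fun t => ∀ p ∈ T, t % p ∈ H p)).filter (fun t => ∀ p ∈ D, t % p = ext D φ p) =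
      (S.filter (fun t => ∀ p ∈ D, t % p = ext D φ p)).filter (fun t => ∀ p ∈ T, t % p ∈ H p) := by
    ext t
    simp only [mem_filter]
    tauto
  rw [h2, cl_exp]
  apply sum_congr rfl
  intro ψ hψ
  apply sum_congr _ (fun _ _ => rfl)
  ext t
  simp only [mem_filter, mem_union]
  constructor
  · rintro ⟨⟨h3, h4⟩, h5⟩
    refine ⟨h3, fun p hp => ?_⟩
    by_cases hpD : p ∈ D
    · rw [if_pos hpD]; exact h4 p hpD
    · rw [if_neg hpD]
      rcases hp with hp | hp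
      · exact absurd hp hpD
      · exact h5 p hp
  · rintro ⟨h3, h4⟩
    refine ⟨⟨h3, fun p hp => ?_⟩, fun p hp => ?_⟩
    · have := h4 p (Or.inl hp)
      rwa [if_pos hp] at this
    · have := h4 p (Or.inr hp)
      rwa [if_neg (fun h => disjoint_left.1 hDT h hp)] at this

open Classical in
/-- hypothesis (ii) -/
theorem inp2 (κ A : ℕ) : ∃ C0 : ℕ, ∀ C1 : ℕ, C0 ≤ C1 → ∀ᶠ T : ℝ in atTop, ∀ (N Q B Nm Y : ℕ) (H : ℕ → Finset ℕ) (P D : Finset ℕ), 0 < N →
    1 ≤ B → B ≤ Q → B.Coprime Q → 3 * Real.exp (101 / 100 * T) ≤ Nm → (Y : ℝ) ≤ Real.exp T →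
    (∀ p ∈ D, p.Prime ∧ p ≤ ⌊T ^ C1⌋₊ ∧ H p ⊆ range p ∧ (¬ p ∣ Q → ∀ c ∈ H p, ¬ p ∣ Q * c + B)) →
    ((Q * ∏ p ∈ D, p : ℕ) : ℝ) ≤ (Real.exp T) ^ (1 / 100000 : ℝ) →
    (∀ p ∈ P, p.Prime ∧ ⌊T ^ C1⌋₊ < p ∧ ¬ p ∣ Q ∧ H p ⊆ range p ∧ (H p).card ≤ κ ∧ ∀ c ∈ H p, ¬ p ∣ Q * c + B) →
    ∃ Er : Finset ℕ → ℝ, (∀ T', 0 ≤ Er T') ∧
      (∀ T' ⊆ P, |WS (range (Nm + 1)) (om N T Q B) (fun p t => t % p ∈ H p) (D ∪ T') -
        WS (range (Nm + 1)) (om N T Q B) (fun p t => t % p ∈ H p) D * ∏ p ∈ T', (((H p).card : ℝ) / ((p : ℝ) - 1))| ≤ Er T') ∧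
      ∑ T' ∈ P.powerset.filter (fun T' => ((∏ p ∈ T', p : ℕ) : ℝ) ≤ (Y : ℝ) ^ (499 / 1000 : ℝ)), Er T' ≤
        (1 / T ^ A) * (1 / (Q.totient : ℝ)) * ∏ p ∈ D, (((H p).card : ℝ) / psi Q p) := by
  obtain ⟨C0, hrel⟩ := relJ (A + κ) (1 / 1000) (by norm_num) (by norm_num)
  refine ⟨C0, fun C1 hC01 => ?_⟩
  filter_upwards [hrel, eventually_ge_atTop (1 : ℝ)] with T hT hT1
  intro N Q B Nm Y H P D hN hB1 hBQ hBc hNm hY hD hQD hP
  have hQ : 0 < Q := by omega
  have hDp : ∀ p ∈ D, p.Prime := fun p hp => (hD p hp).1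
  have hPp : ∀ p ∈ P, p.Prime := fun p hp => (hP p hp).1
  have hDpos := prime_prod_ne hDp
  obtain ⟨Q', hQ'⟩ : ∃ Q' : ℕ, Q' = Q * ∏ p ∈ D, p := ⟨_, rfl⟩
  have hQ'pos : 0 < Q' := by rw [hQ']; exact Nat.mul_pos hQ hDpos
  have hDP : ∀ p ∈ P, p ∉ D := by
    intro p hp hpD
    have h1 := (hP p hp).2.1
    have h2 := (hD p hpD).2.1
    omega
  have hPQ' : ∀ p ∈ P, ¬ p ∣ Q' := by
    intro p hp hd
    rw [hQ'] at hd
    rcases (Nat.Prime.dvd_mul (hPp p hp)).1 hd with h | h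
    · exact (hP p hp).2.2.1 h
    · obtain ⟨r, hr, hpr⟩ := (Prime.dvd_finsetProd_iff (hPp p hp).prime _).1 h
      have := (Nat.prime_dvd_prime_iff_eq (hPp p hp) (hDp r hr)).1 hpr
      subst this
      exact hDP p hp hr
  obtain ⟨Bc, hBc1, hBc2⟩ := Bc_existsJ N T Q' hQ'pos
  set P0 := Q' * ∏ p ∈ (Icc 1 ⌊T ^ C1⌋₊).filter Nat.Prime, p with hP0
  have hrelJ := hT N Q' P0 hN hQ'pos (by
    rw [hQ']
    have : (1 / 1000 / 100 : ℝ) = 1 / 100000 := by norm_num
    rw [this]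
    exact hQD) (dvd_mul_right _ _) (by
    intro p hp hple'
    have hple : p ≤ ⌊T ^ C1⌋₊ := hple'.trans (Nat.floor_le_floor (pow_le_pow_right₀ hT1 hC01))
    rw [hP0]
    apply Dvd.dvd.mul_left
    exact dvd_prod_of_mem (fun q => q) (mem_filter.2 ⟨mem_Icc.2 ⟨hp.one_lt.le, hple⟩, hp⟩)) Bc hBc1
  set cD : ℝ := ((D.pi H).card : ℝ) with hcD
  have hcD0 : 0 ≤ cD := by rw [hcD]; positivity
  refine ⟨fun T' => cD * ((κ : ℝ) ^ T'.card * |EJ N T Q' (∏ p ∈ T', p) (Bc (∏ p ∈ T', p))|), ?_, ?_, ?_⟩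
  · intro T'
    positivity
  · intro T' hT'
    have hT'p : ∀ p ∈ T', p.Prime := fun p hp => hPp p (hT' hp)
    have hdis : Disjoint D T' := by
      rw [disjoint_left]
      intro p hp hp'
      exact hDP p (hT' hp') hp
    have hprod : ∏ p ∈ T', (((H p).card : ℝ) / ((p : ℝ) - 1)) = ((T'.pi H).card : ℝ) * (1 / ((∏ p ∈ T', p).totient : ℝ)) := by
      rw [card_pi, prod_div_distrib, tot_prod T' hT'p, Nat.cast_prod, one_div, div_eq_mul_inv]
    have hcardT : ((T'.pi H).card : ℝ) ≤ (κ : ℝ) ^ T'.card := by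
      rw [card_pi]
      push_cast
      rw [← prod_const]
      exact prod_le_prod (fun _ _ => Nat.cast_nonneg _) (fun p hp => by exact_mod_cast (hP p (hT' hp)).2.2.2.2.1)
    rw [WS_exp2 _ _ _ hdis, WS_exp, hprod, sum_mul, ← sum_sub_distrib]
    have hterm : ∀ φ ∈ D.pi H, |∑ ψ ∈ T'.pi H, ∑ t ∈ (range (Nm + 1)).filter (fun t => ∀ p ∈ D ∪ T', t % p = if p ∈ D then ext D φ p else ext T' ψ p), om N T Q B t -
        (∑ t ∈ (range (Nm + 1)).filter (fun t => ∀ p ∈ D, t % p = ext D φ p), om N T Q B t) * (((T'.pi H).card : ℝ) * (1 / ((∏ p ∈ T', p).totient : ℝ)))| ≤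
        (κ : ℝ) ^ T'.card * |EJ N T Q' (∏ p ∈ T', p) (Bc (∏ p ∈ T', p))| := by
      intro φ hφ
      have e1 : (∑ t ∈ (range (Nm + 1)).filter (fun t => ∀ p ∈ D, t % p = ext D φ p), om N T Q B t) * (((T'.pi H).card : ℝ) * (1 / ((∏ p ∈ T', p).totient : ℝ))) =
          ∑ ψ ∈ T'.pi H, (∑ t ∈ (range (Nm + 1)).filter (fun t => ∀ p ∈ D, t % p = ext D φ p), om N T Q B t) * (1 / ((∏ p ∈ T', p).totient : ℝ)) := by
        rw [sum_const, nsmul_eq_mul]; ring
      rw [e1, ← sum_sub_distrib]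
      refine (abs_sum_le_sum_abs _ _).trans ?_
      have h3 : ∀ ψ ∈ T'.pi H, |∑ t ∈ (range (Nm + 1)).filter (fun t => ∀ p ∈ D ∪ T', t % p = if p ∈ D then ext D φ p else ext T' ψ p), om N T Q B t -
          (∑ t ∈ (range (Nm + 1)).filter (fun t => ∀ p ∈ D, t % p = ext D φ p), om N T Q B t) * (1 / ((∏ p ∈ T', p).totient : ℝ))| ≤
          |EJ N T Q' (∏ p ∈ T', p) (Bc (∏ p ∈ T', p))| := by
        intro ψ hψ
        have hUp : ∀ p ∈ D ∪ T', p.Prime := by
          intro p hp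
          rcases mem_union.1 hp with hp | hp
          · exact hDp p hp
          · exact hT'p p hp
        have hcU : ∀ p ∈ D ∪ T', (if p ∈ D then ext D φ p else ext T' ψ p) ∈ H p := by
          intro p hp
          by_cases hpD : p ∈ D
          · rw [if_pos hpD]; exact ext_mem hφ hpD
          · rw [if_neg hpD]
            rcases mem_union.1 hp with hp | hp
            · exact absurd hp hpD
            · exact ext_mem hψ hp
        have hHU : ∀ p ∈ D ∪ T', H p ⊆ range p ∧ (¬ p ∣ Q → ∀ c ∈ H p, ¬ p ∣ Q * c + B) := by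
          intro p hp
          rcases mem_union.1 hp with hp | hp
          · exact (hD p hp).2.2
          · exact ⟨(hP p (hT' hp)).2.2.2.1, fun _ => (hP p (hT' hp)).2.2.2.2.2⟩
        obtain ⟨t0, ht0, hs0⟩ := CJ hN hT1 (Q := Q) (B := B) hNm hB1 hBQ hUp (c := fun p => if p ∈ D then ext D φ p else ext T' ψ p)
          (fun p hp => mem_range.1 ((hHU p hp).1 (hcU p hp)))
        have hcop := cop_class (t0 := t0) hBc hUp (c := fun p => if p ∈ D then ext D φ p else ext T' ψ p) ht0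
          (fun p hp hpQ => (hHU p hp).2 hpQ _ (hcU p hp))
        obtain ⟨t1, ht1, hs1⟩ := CJ hN hT1 (Q := Q) (B := B) hNm hB1 hBQ hDp (c := ext D φ)
          (fun p hp => mem_range.1 ((hD p hp).2.2.1 (ext_mem hφ hp)))
        rw [hs0, hs1]
        -- the base class
        have hbase : JJ N T (Q * ∏ p ∈ D, p) (Q * t1 + B) = JJ N T (Q * ∏ p ∈ D, p) (Q * t0 + B) := by
          have h4 : t1 ≡ t0 [MOD ∏ p ∈ D, p] := by
            rw [mod_prod hDp]
            intro p hp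
            have h5 := ht0 p (mem_union_left _ hp)
            simp only [if_pos hp] at h5
            exact (ht1 p hp).trans h5.symm
          have h5 : Q * t1 + B ≡ Q * t0 + B [MOD Q * ∏ p ∈ D, p] := (Nat.ModEq.mul_left' Q h4).add_right B
          unfold JJ pc
          apply sum_congr rfl
          intro i _
          congr 1
          apply sum_congr _ (fun _ _ => rfl)
          ext n
          simp only [mem_filter]
          constructor
          · rintro ⟨h6, h7⟩; exact ⟨h6, h7.trans h5⟩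
          · rintro ⟨h6, h7⟩; exact ⟨h6, h7.trans h5.symm⟩
        rw [hbase, prod_union hdis, ← mul_assoc, ← hQ']
        have hcop' : (Q * t0 + B).Coprime (Q' * ∏ p ∈ T', p) := by
          rw [prod_union hdis, ← mul_assoc, ← hQ'] at hcop
          exact hcop
        exact hBc2 _ (prime_prod_ne hT'p) _ hcop'
      refine (sum_le_sum h3).trans ?_
      rw [sum_const, nsmul_eq_mul]
      exact mul_le_mul_of_nonneg_right hcardT (abs_nonneg _)
    refine (abs_sum_le_sum_abs _ _).trans ((sum_le_sum hterm).trans ?_)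
    rw [sum_const, nsmul_eq_mul]
  · -- the total error
    rw [← mul_sum]
    have hψ : 0 < ∏ p ∈ D, psi Q p := Finset.prod_pos fun p hp => psi_pos (hDp p hp)
    have hφQ : (0 : ℝ) < Q.totient := by exact_mod_cast Nat.totient_pos.2 hQ
    have htot := totQ (Q := Q) D hDp
    rw [← hQ'] at htot
    have hφQ' : (0 : ℝ) < Q'.totient := by exact_mod_cast Nat.totient_pos.2 hQ'pos
    have e1 : (1 / T ^ A) * (1 / (Q.totient : ℝ)) * ∏ p ∈ D, (((H p).card : ℝ) / psi Q p) = cD * (1 / ((Q'.totient : ℝ) * T ^ A)) := by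
      rw [hcD, card_pi, prod_div_distrib, htot, Nat.cast_prod]
      rw [one_div, one_div, one_div, mul_inv, mul_inv, div_eq_mul_inv]
      ring
    rw [e1]
    apply mul_le_mul_of_nonneg_left _ hcD0
    have hlevel : ∀ T' ∈ P.powerset.filter (fun T' => ((∏ p ∈ T', p : ℕ) : ℝ) ≤ (Y : ℝ) ^ (499 / 1000 : ℝ)),
        ∏ p ∈ T', p ≤ ⌊(Real.exp T) ^ (1 / 2 - 1 / 1000 : ℝ)⌋₊ := by
      intro T' hT'
      rw [mem_filter] at hT'
      apply Nat.le_floor
      refine hT'.2.trans ?_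
      have : (1 / 2 - 1 / 1000 : ℝ) = 499 / 1000 := by norm_num
      rw [this]
      exact Real.rpow_le_rpow (Nat.cast_nonneg _) hY (by norm_num)
    have g1 : ∀ T' ∈ P.powerset.filter (fun T' => ((∏ p ∈ T', p : ℕ) : ℝ) ≤ (Y : ℝ) ^ (499 / 1000 : ℝ)),
        (κ : ℝ) ^ T'.card * |EJ N T Q' (∏ p ∈ T', p) (Bc (∏ p ∈ T', p))| ≤
        ((∏ p ∈ T', p).divisors.card : ℝ) ^ (A + κ) * |EJ N T Q' (∏ p ∈ T', p) (Bc (∏ p ∈ T', p))| := by
      intro T' hT'
      rw [mem_filter, mem_powerset] at hT'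
      apply mul_le_mul_of_nonneg_right _ (abs_nonneg _)
      rw [card_div_prod T' fun p hp => hPp p (hT'.1 hp)]
      push_cast
      rw [← pow_mul, mul_comm, pow_mul]
      apply pow_le_pow_left₀ (Nat.cast_nonneg _)
      have k1 : κ < 2 ^ κ := Nat.lt_two_pow_self
      have k2 : 2 ^ κ ≤ 2 ^ (A + κ) := Nat.pow_le_pow_right (by norm_num) (by omega)
      exact_mod_cast k1.le.trans k2
    refine (sum_le_sum g1).trans ?_
    have g2 : Set.InjOn (fun T' : Finset ℕ => ∏ p ∈ T', p)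
        (P.powerset.filter (fun T' : Finset ℕ => ((∏ p ∈ T', p : ℕ) : ℝ) ≤ (Y : ℝ) ^ (499 / 1000 : ℝ)) : Set (Finset ℕ)) := by
      intro T1 hT1 T2 hT2 h
      rw [mem_coe, mem_filter, mem_powerset] at hT1 hT2
      exact prod_mem_inj (fun p hp => hPp p (hT1.1 hp)) (fun p hp => hPp p (hT2.1 hp)) h
    rw [← sum_image (f := fun q => (q.divisors.card : ℝ) ^ (A + κ) * |EJ N T Q' q (Bc q)|) g2]
    have g3 : ∑ q ∈ (P.powerset.filter (fun T' : Finset ℕ => ((∏ p ∈ T', p : ℕ) : ℝ) ≤ (Y : ℝ) ^ (499 / 1000 : ℝ))).image (fun T' : Finset ℕ => ∏ p ∈ T', p),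
        (q.divisors.card : ℝ) ^ (A + κ) * |EJ N T Q' q (Bc q)| ≤
        ∑ q ∈ LSBV.QQ 1 P0 ⌊(Real.exp T) ^ (1 / 2 - 1 / 1000 : ℝ)⌋₊, (q.divisors.card : ℝ) ^ (A + κ) * |EJ N T Q' q (Bc q)| := by
      apply sum_le_sum_of_subset_of_nonneg
      · intro q hq
        rw [mem_image] at hq
        obtain ⟨T', hT', rfl⟩ := hq
        have hlev := hlevel T' hT'
        rw [mem_filter, mem_powerset] at hT'
        rw [LSBV.mem_QQ]
        have hTp : ∀ p ∈ T', p.Prime := fun p hp => hPp p (hT'.1 hp)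
        refine ⟨⟨prime_prod_ne hTp, hlev⟩, ?_, ?_⟩
        · apply Finset.squarefree_prod_of_pairwise_isCoprime
          · intro p hp r hr hpr
            exact Nat.coprime_iff_isRelPrime.1 ((Nat.coprime_primes (hTp p hp) (hTp r hr)).2 hpr)
          · intro p hp
            exact (hTp p hp).prime.squarefree
        · apply Nat.Coprime.prod_left
          intro p hp
          rw [Nat.Prime.coprime_iff_not_dvd (hTp p hp), one_mul]
          have hpP := hP p (hT'.1 hp)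
          intro hd
          rw [hP0] at hd
          rcases (Nat.Prime.dvd_mul hpP.1).1 hd with h | h
          · exact hPQ' p (hT'.1 hp) h
          · obtain ⟨r, hr, hpr⟩ := (Prime.dvd_finsetProd_iff hpP.1.prime _).1 h
            rw [mem_filter, mem_Icc] at hr
            have := (Nat.prime_dvd_prime_iff_eq hpP.1 hr.2).1 hpr
            subst this
            have := hpP.2.1
            omega
      · intro q _ _
        positivity
    refine g3.trans (hrelJ.trans ?_)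
    apply one_div_le_one_div_of_le (by positivity)
    apply mul_le_mul_of_nonneg_left _ hφQ'.le
    exact pow_le_pow_right₀ hT1 (by omega)

end Pool.Agent.H536.OC
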