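import Mathlib
import Pool.Agent.H536.OC.C14
import Pool.Agent.H536.OB.N5a

open Finset Filter Topology

/-! Small masses. -/

namespace Pool.Agent.H536.OC

open Pool.Agent.H378R2 Pool.Agent.H262R3.Lk
open Pool.Agent.H536.OB
open SubC (WS)

/-- one prime -/
theorem WS_one {κ : ℕ} {C : ℝ} (hC : 0 < C)
    (hup : ∀ (N : ℕ) (T : ℝ) (q b : ℕ), 0 < N → 3 ≤ T → 1 ≤ q → ((q ^ 8 : ℕ) : ℝ) ≤ Real.exp T → b.Coprime q → JJ N T q b ≤ C * T / q.totient)
    {N : ℕ} (hN : 0 < N) {T : ℝ} (hT : 3 ≤ T) {Nm Q B : ℕ} (hNm : 3 * Real.exp (101 / 100 * T) ≤ Nm) (hB1 : 1 ≤ B)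
    (hBQ : B ≤ Q) (hBc : B.Coprime Q) {H : ℕ → Finset ℕ} {p : ℕ} (hp : p.Prime) (hH : H p ⊆ range p) (hκ : (H p).card ≤ κ)
    (hz : ¬ p ∣ Q → ∀ c ∈ H p, ¬ p ∣ Q * c + B) (h8 : (((Q * p) ^ 8 : ℕ) : ℝ) ≤ Real.exp T) :
    WS (range (Nm + 1)) (om N T Q B) (fun p t => t % p ∈ H p) {p} ≤ (κ * C * T / ((p : ℝ) - 1)) * (1 / (Q.totient : ℝ)) := by
  have hQ : 0 < Q := by omega
  have hp1 : (0 : ℝ) < (p : ℝ) - 1 := by
    have : (2 : ℝ) ≤ p := by exact_mod_cast hp.two_le
    linarith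
  have hφ : (0 : ℝ) < Q.totient := by exact_mod_cast Nat.totient_pos.2 hQ
  have hT0 : 0 < T := by linarith
  have hs : ∀ q ∈ ({p} : Finset ℕ), q.Prime := by
    intro q hq
    rw [mem_singleton] at hq
    rw [hq]; exact hp
  rw [WS_exp]
  have h1 : ∀ φ ∈ ({p} : Finset ℕ).pi H, ∑ t ∈ (range (Nm + 1)).filter (fun t => ∀ q ∈ ({p} : Finset ℕ), t % q = ext {p} φ q), om N T Q B t ≤
      C * T / (((p : ℝ) - 1) * Q.totient) := by
    intro φ hφ'
    obtain ⟨t0, ht0, hs0⟩ := CJ hN (by linarith : 1 ≤ T) (Q := Q) (B := B) hNm hB1 hBQ hs (c := ext {p} φ) (fun q hq => by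
      have := ext_mem hφ' hq
      rw [mem_singleton] at hq
      rw [hq] at this ⊢
      exact mem_range.1 (hH this))
    have hcop := cop_class (t0 := t0) hBc hs (c := ext {p} φ) ht0 (fun q hq hqQ => by
      have := ext_mem hφ' hq
      rw [mem_singleton] at hq
      rw [hq] at this hqQ ⊢
      exact hz hqQ _ this)
    rw [hs0, prod_singleton]
    rw [prod_singleton] at hcop
    have h2 := hup N T (Q * p) (Q * t0 + B) hN hT (Nat.mul_pos hQ hp.pos) h8 hcop
    refine h2.trans ?_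
    apply div_le_div_of_nonneg_left (by positivity) (by positivity)
    have h3 := totQ (Q := Q) {p} hs
    rw [prod_singleton, prod_singleton] at h3
    rw [h3, mul_comm]
    exact mul_le_mul_of_nonneg_left (psi_ge hp) hφ.le
  refine (sum_le_sum h1).trans ?_
  rw [sum_const, nsmul_eq_mul, card_pi, prod_singleton]
  have h4 : ((H p).card : ℝ) ≤ κ := by exact_mod_cast hκ
  calc ((H p).card : ℝ) * (C * T / (((p : ℝ) - 1) * Q.totient)) ≤ κ * (C * T / (((p : ℝ) - 1) * Q.totient)) :=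
        mul_le_mul_of_nonneg_right h4 (by positivity)
    _ = _ := by field_simp

open Classical in
/-- the prime powers -/
theorem np_mass' {N : ℕ} (hN : 0 < N) {T : ℝ} (hT : 3 ≤ T) {Nm Q B : ℕ} (hNm : 3 * Real.exp (101 / 100 * T) ≤ Nm) (hB1 : 1 ≤ B)
    (hBQ : B ≤ Q) : ∑ t ∈ (range (Nm + 1)).filter (fun t => ¬ (Q * t + B).Prime), om N T Q B t ≤ 12 * T ^ 2 * Real.exp (-(T / 2)) := by
  have hQ : 0 < Q := by omega
  refine le_trans ?_ (np_mass hN hT Nm hNm)
  have h1 : ∑ t ∈ (range (Nm + 1)).filter (fun t => ¬ (Q * t + B).Prime), om N T Q B t =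
      ∑ t ∈ ((range (Nm + 1)).filter (fun t => ¬ (Q * t + B).Prime)).filter (fun t => Q * t + B ≤ Nm), om N T Q B t := by
    symm
    apply sum_filter_of_ne
    intro t _ hne
    by_contra hlt
    push Not at hlt
    apply hne
    unfold om
    have h2 : 1 ≤ Q * t + B := by omega
    rw [KN_zero hN (by linarith) h2 (Or.inr _), zero_mul]
    have h3 : 3 * Real.exp (101 / 100 * T) ≤ ((Q * t + B : ℕ) : ℝ) := hNm.trans (by exact_mod_cast hlt.le)
    rw [Real.le_log_iff_exp_le (lt_of_lt_of_le (by positivity) h3), Real.exp_add]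
    have h4 := Real.exp_one_lt_d9
    have h5 := Real.exp_pos (101 / 100 * T)
    nlinarith
  rw [h1]
  have hinj : Set.InjOn (fun t => Q * t + B) (((range (Nm + 1)).filter (fun t => ¬ (Q * t + B).Prime)).filter (fun t => Q * t + B ≤ Nm) : Set ℕ) := by
    intro t _ t' _ h
    simp only at h
    have : Q * t = Q * t' := by omega
    exact Nat.eq_of_mul_eq_mul_left hQ this
  have h2 := sum_image (f := fun n => KN N T n * ArithmeticFunction.vonMangoldt n) hinj
  unfold om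
  rw [← h2]
  apply sum_le_sum_of_subset_of_nonneg
  · intro n hn
    rw [mem_image] at hn
    obtain ⟨t, ht, rfl⟩ := hn
    rw [mem_filter, mem_filter] at ht
    rw [mem_filter, mem_Icc]
    exact ⟨⟨by omega, ht.2⟩, ht.1.2⟩
  · intro n _ _
    exact mul_nonneg (KN_nonneg _ _ _) ArithmeticFunction.vonMangoldt_nonneg

/-- pointwise bound -/
theorem om_le {N : ℕ} (hN : 0 < N) {T : ℝ} (hT : 1 ≤ T) {Q B t : ℕ} (hB1 : 1 ≤ B) : om N T Q B t ≤ 48 * T * Real.exp (-T) := by
  set n := Q * t + B with hn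
  have hn1 : 1 ≤ n := by omega
  have hn0 : (0 : ℝ) < n := by exact_mod_cast hn1
  have hT0 : 0 < T := by linarith
  unfold om
  rw [← hn]
  by_cases h : Real.log n ≤ T ∨ 101 / 100 * T + 1 ≤ Real.log n
  · rw [KN_zero hN hT0 hn1 h, zero_mul]
    positivity
  · push Not at h
    have h1 : KN N T n ≤ 16 / n := by
      rw [le_div_iff₀ hn0]
      exact KN_le hN hT hn1
    have h2 : ArithmeticFunction.vonMangoldt n ≤ Real.log n := ArithmeticFunction.vonMangoldt_le_log
    have h3 : Real.log n ≤ 3 * T := by linarith [h.2]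
    have h4 : Real.exp T ≤ n := by
      rw [← Real.le_log_iff_exp_le hn0]
      exact h.1.le
    have h5 : 16 / (n : ℝ) ≤ 16 * Real.exp (-T) := by
      rw [div_le_iff₀ hn0]
      have : Real.exp (-T) * Real.exp T = 1 := by rw [← Real.exp_add]; simp
      calc (16 : ℝ) = 16 * (Real.exp (-T) * Real.exp T) := by rw [this]; ring
        _ ≤ 16 * (Real.exp (-T) * n) := by gcongr
        _ = _ := by ring
    calc KN N T n * ArithmeticFunction.vonMangoldt n ≤ (16 * Real.exp (-T)) * (3 * T) :=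
          mul_le_mul (h1.trans h5) (h2.trans h3) ArithmeticFunction.vonMangoldt_nonneg (by positivity)
      _ = _ := by ring

open Classical in
/-- the squares -/
theorem sq_mass {N : ℕ} (hN : 0 < N) {T : ℝ} (hT : 20 ≤ T) {Nm Q B : ℕ} (hNm2 : (Nm : ℝ) ≤ 4 * Real.exp (101 / 100 * T)) (hB1 : 1 ≤ B)
    {Sq : ℕ → ℕ → Prop} {SS : Finset ℕ} (hSq : ∀ p ∈ SS, ∀ n : ℕ, (((range n).filter (fun t => Sq p t)).card : ℝ) ≤ n / (p : ℝ) ^ 2 + 3)
    (hSS : ∀ p ∈ SS, p.Prime ∧ Real.exp (T / 9) < p ∧ (p : ℝ) ≤ Real.exp (17 / 50 * T)) :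
    ∑ p ∈ SS, ∑ t ∈ (range (Nm + 1)).filter (fun t => Sq p t), om N T Q B t ≤ 1000 * T * Real.exp (-(T / 11)) := by
  have hT0 : 0 < T := by linarith
  have h1 : ∀ p ∈ SS, ∑ t ∈ (range (Nm + 1)).filter (fun t => Sq p t), om N T Q B t ≤
      (5 * Real.exp (101 / 100 * T) / (p : ℝ) ^ 2 + 3) * (48 * T * Real.exp (-T)) := by
    intro p hp
    have h2 := hSq p hp (Nm + 1)
    have h3 : ∑ t ∈ (range (Nm + 1)).filter (fun t => Sq p t), om N T Q B t ≤
        ((((range (Nm + 1)).filter (fun t => Sq p t)).card : ℕ) : ℝ) * (48 * T * Real.exp (-T)) := by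
      rw [← nsmul_eq_mul]
      exact sum_le_card_nsmul _ _ _ (fun t _ => om_le hN (by linarith) hB1)
    refine h3.trans (mul_le_mul_of_nonneg_right (h2.trans ?_) (by positivity))
    apply add_le_add _ le_rfl
    apply div_le_div_of_nonneg_right _ (by positivity)
    push_cast
    have : 1 ≤ Real.exp (101 / 100 * T) := Real.one_le_exp (by linarith)
    linarith
  refine (sum_le_sum h1).trans ?_
  rw [← sum_mul, sum_add_distrib, sum_const, nsmul_eq_mul]
  -- number of elements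
  have hcard : ((SS.card : ℕ) : ℝ) ≤ Real.exp (17 / 50 * T) := by
    have h2 : SS ⊆ Icc 1 ⌊Real.exp (17 / 50 * T)⌋₊ := by
      intro p hp
      rw [mem_Icc]
      exact ⟨(hSS p hp).1.one_lt.le, Nat.le_floor (hSS p hp).2.2⟩
    have h3 := card_le_card h2
    rw [Nat.card_Icc, Nat.add_sub_cancel] at h3
    calc ((SS.card : ℕ) : ℝ) ≤ (⌊Real.exp (17 / 50 * T)⌋₊ : ℝ) := by exact_mod_cast h3
      _ ≤ _ := Nat.floor_le (Real.exp_pos _).le
  have hsum : ∑ p ∈ SS, 5 * Real.exp (101 / 100 * T) / (p : ℝ) ^ 2 ≤ 5 * Real.exp (101 / 100 * T) * (2 * Real.exp (-(T / 9))) := by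
    have hy1 : 1 ≤ ⌊Real.exp (T / 9)⌋₊ := Nat.le_floor (by rw [Nat.cast_one]; exact Real.one_le_exp (by positivity))
    have h2 := sq_sum hy1 SS (fun n hn => by
      have := (hSS n hn).2.1
      exact (Nat.floor_lt (Real.exp_pos _).le).2 this)
    have h3 : ∑ p ∈ SS, 5 * Real.exp (101 / 100 * T) / (p : ℝ) ^ 2 ≤ 5 * Real.exp (101 / 100 * T) * ∑ n ∈ SS, 1 / ((n : ℝ) * ((n : ℝ) - 1)) := by
      rw [mul_sum]
      apply sum_le_sum
      intro p hp
      have hp2 : (2 : ℝ) ≤ p := by exact_mod_cast (hSS p hp).1.two_le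
      rw [div_eq_mul_one_div]
      apply mul_le_mul_of_nonneg_left _ (by positivity)
      apply one_div_le_one_div_of_le (mul_pos (by linarith) (by linarith))
      nlinarith
    refine h3.trans (mul_le_mul_of_nonneg_left (h2.trans ?_) (by positivity))
    have h4 : Real.exp (T / 9) / 2 ≤ (⌊Real.exp (T / 9)⌋₊ : ℝ) := by
      have h5 := Nat.lt_floor_add_one (Real.exp (T / 9))
      have h6 : (2 : ℝ) ≤ Real.exp (T / 9) := by
        have := Real.add_one_le_exp (T / 9)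
        linarith
      linarith
    calc 1 / (⌊Real.exp (T / 9)⌋₊ : ℝ) ≤ 1 / (Real.exp (T / 9) / 2) := one_div_le_one_div_of_le (by positivity) h4
      _ = 2 * Real.exp (-(T / 9)) := by rw [Real.exp_neg]; field_simp
  calc (∑ p ∈ SS, 5 * Real.exp (101 / 100 * T) / (p : ℝ) ^ 2 + (SS.card : ℝ) * 3) * (48 * T * Real.exp (-T)) ≤
      (5 * Real.exp (101 / 100 * T) * (2 * Real.exp (-(T / 9))) + Real.exp (17 / 50 * T) * 3) * (48 * T * Real.exp (-T)) := by gcongr
    _ = 480 * T * Real.exp (101 / 100 * T + -(T / 9) + -T) + 144 * T * Real.exp (17 / 50 * T + -T) := by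
        rw [Real.exp_add, Real.exp_add, Real.exp_add]
        ring
    _ ≤ 480 * T * Real.exp (-(T / 11)) + 144 * T * Real.exp (-(T / 11)) := by
        gcongr
        · linarith
        · linarith
    _ ≤ _ := by
        have := mul_pos hT0 (Real.exp_pos (-(T / 11)))
        nlinarith

end Pool.Agent.H536.OC
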