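import Mathlib
import Pool.Agent.H536.OC.C15

open Finset Filter Topology

/-! Parameters of the sieve. -/

namespace Pool.Agent.H536.OC

theorem poly_exp (C : ℝ) (n : ℕ) {ε : ℝ} (hε : 0 < ε) : ∀ᶠ T : ℝ in atTop, C * T ^ n ≤ Real.exp (ε * T) := by
  have h1 := (Real.tendsto_pow_mul_exp_neg_atTop_nhds_zero n)
  have h2 : Tendsto (fun T : ℝ => ε * T) atTop atTop := tendsto_id.const_mul_atTop hε
  have h3 := h1.comp h2
  have h4 : Tendsto (fun T : ℝ => C / ε ^ n * ((ε * T) ^ n * Real.exp (-(ε * T)))) atTop (𝓝 0) := by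
    have := h3.const_mul (C / ε ^ n)
    simpa using this
  have h5 : ∀ᶠ T : ℝ in atTop, C / ε ^ n * ((ε * T) ^ n * Real.exp (-(ε * T))) < 1 := h4.eventually (gt_mem_nhds one_pos)
  filter_upwards [h5] with T hT
  have e1 : C / ε ^ n * ((ε * T) ^ n * Real.exp (-(ε * T))) = C * T ^ n * Real.exp (-(ε * T)) := by
    rw [mul_pow]
    field_simp
  rw [e1, Real.exp_neg, ← div_eq_mul_inv, div_lt_one (Real.exp_pos _)] at hT
  exact hT.le

theorem facts16 (κ C1 m Y0 : ℕ) (ε₁ δ W0 E K c3 : ℝ) (hε₁ : 0 < ε₁) (hε₁1 : ε₁ ≤ 1) (hδ : 0 < δ) (hδ1 : δ ≤ ε₁ / 4)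
    (hE : 0 < E) (hK : 0 ≤ K) (hc3 : 0 < c3) : ∀ᶠ T : ℝ in atTop,
    20 ≤ T ∧ Y0 ≤ ⌊Real.exp T⌋₊ ∧ 3 ≤ Real.exp (δ * T) ∧ T ^ m ≤ Real.exp (δ * T) / 2 ∧ T ^ C1 < (Real.exp T / 2) ^ ε₁ ∧
      Real.exp (2 * δ * T) < (Real.exp T / 2) ^ ε₁ ∧ W0 ≤ √T ∧
      30 * T * E / T ^ (2 * κ + 2) + K / T ^ (2 * κ + 1) + Real.exp (T / 50) * (12 * T ^ 2 * Real.exp (-(T / 2)) + 1000 * T * Real.exp (-(T / 11))) +
        48 * T * Real.exp (-(T / 200)) < c3 * T / T ^ (2 * κ) := by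
  have hexp := Real.tendsto_exp_atTop
  have h1 : ∀ᶠ T : ℝ in atTop, (Y0 : ℝ) ≤ Real.exp T := hexp.eventually_ge_atTop _
  have h2 : ∀ᶠ T : ℝ in atTop, (3 : ℝ) ≤ Real.exp (δ * T) := by
    have := poly_exp 3 0 hδ
    filter_upwards [this] with T hT
    simpa using hT
  have h3 : ∀ᶠ T : ℝ in atTop, 2 * T ^ m ≤ Real.exp (δ * T) := poly_exp 2 m hδ
  have h4 : ∀ᶠ T : ℝ in atTop, 4 * T ^ C1 ≤ Real.exp (ε₁ * T) := poly_exp 4 C1 hε₁
  have h5 : ∀ᶠ T : ℝ in atTop, 4 * T ^ 0 ≤ Real.exp (ε₁ / 2 * T) := poly_exp 4 0 (by positivity)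
  have h6 : ∀ᶠ T : ℝ in atTop, W0 ≤ √T := (Real.tendsto_sqrt_atTop).eventually_ge_atTop _
  have h7 : ∀ᶠ T : ℝ in atTop, (1012 * 8 / c3) * T ^ (2 * κ + 2) ≤ Real.exp (1 / 20 * T) := poly_exp _ _ (by norm_num)
  have h8 : ∀ᶠ T : ℝ in atTop, (384 / c3) * T ^ (2 * κ) ≤ Real.exp (1 / 200 * T) := poly_exp _ _ (by norm_num)
  filter_upwards [h1, h2, h3, h4, h5, h6, h7, eventually_ge_atTop (20 : ℝ), eventually_gt_atTop (240 * E / c3), eventually_ge_atTop (8 * K / c3), h8] with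
    T k1 k2 k3 k4 k5 k6 k7 k8 k9 k10 k11
  have hT0 : 0 < T := by linarith
  have hT1 : 1 ≤ T := by linarith
  have hpow : (Real.exp T / 2) ^ ε₁ = Real.exp (ε₁ * T) / 2 ^ ε₁ := by
    rw [Real.div_rpow (Real.exp_pos _).le (by norm_num), ← Real.exp_mul, mul_comm]
  have h2e : (2 : ℝ) ^ ε₁ ≤ 2 := by
    calc (2 : ℝ) ^ ε₁ ≤ 2 ^ (1 : ℝ) := Real.rpow_le_rpow_of_exponent_le (by norm_num) hε₁1
      _ = 2 := Real.rpow_one 2
  have h2e0 : (0 : ℝ) < 2 ^ ε₁ := by positivity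
  refine ⟨k8, Nat.le_floor k1, k2, by linarith, ?_, ?_, k6, ?_⟩
  · rw [hpow, lt_div_iff₀ h2e0]
    have : 0 < T ^ C1 := by positivity
    nlinarith
  · rw [hpow, lt_div_iff₀ h2e0]
    rw [pow_zero, mul_one] at k5
    have e1 : Real.exp (ε₁ * T) = Real.exp (ε₁ / 2 * T) * Real.exp (ε₁ / 2 * T) := by rw [← Real.exp_add]; ring_nf
    have e2 : Real.exp (2 * δ * T) ≤ Real.exp (ε₁ / 2 * T) := by
      apply Real.exp_le_exp.2
      nlinarith
    have e3 := Real.exp_pos (ε₁ / 2 * T)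
    have e4 := Real.exp_pos (2 * δ * T)
    calc Real.exp (2 * δ * T) * 2 ^ ε₁ ≤ Real.exp (ε₁ / 2 * T) * 2 := mul_le_mul e2 h2e h2e0.le e3.le
      _ < Real.exp (ε₁ / 2 * T) * Real.exp (ε₁ / 2 * T) := mul_lt_mul_of_pos_left (by linarith) e3
      _ = _ := e1.symm
  · set V := T / T ^ (2 * κ) with hV
    have hV0 : 0 < V := by positivity
    have e0 : c3 * T / T ^ (2 * κ) = c3 * V := by rw [hV]; ring
    rw [e0]
    have t1 : 30 * T * E / T ^ (2 * κ + 2) < c3 / 8 * V := by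
      have e1 : 30 * T * E / T ^ (2 * κ + 2) = (30 * E / T ^ 2) * V := by rw [hV, pow_add]; field_simp
      rw [e1]
      apply mul_lt_mul_of_pos_right _ hV0
      rw [div_lt_iff₀ (by positivity)]
      rw [div_lt_iff₀ hc3] at k9
      have : T * c3 ≤ T ^ 2 * c3 := by
        apply mul_le_mul_of_nonneg_right _ hc3.le
        nlinarith
      linarith
    have t2 : K / T ^ (2 * κ + 1) ≤ c3 / 8 * V := by
      have e1 : K / T ^ (2 * κ + 1) = (K / T ^ 2) * V := by rw [hV, pow_add]; field_simp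
      rw [e1]
      apply mul_le_mul_of_nonneg_right _ hV0.le
      rw [div_le_iff₀ (by positivity)]
      rw [div_le_iff₀ hc3] at k10
      have : T * c3 ≤ T ^ 2 * c3 := by
        apply mul_le_mul_of_nonneg_right _ hc3.le
        nlinarith
      linarith
    have t3 : Real.exp (T / 50) * (12 * T ^ 2 * Real.exp (-(T / 2)) + 1000 * T * Real.exp (-(T / 11))) ≤ c3 / 8 * V := by
      have e1 : 12 * T ^ 2 * Real.exp (-(T / 2)) + 1000 * T * Real.exp (-(T / 11)) ≤ 1012 * T ^ 2 * Real.exp (-(T / 11)) := by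
        have g1 : Real.exp (-(T / 2)) ≤ Real.exp (-(T / 11)) := Real.exp_le_exp.2 (by linarith)
        have g2 : T ≤ T ^ 2 := by nlinarith
        have g3 := Real.exp_pos (-(T / 11))
        calc 12 * T ^ 2 * Real.exp (-(T / 2)) + 1000 * T * Real.exp (-(T / 11)) ≤
            12 * T ^ 2 * Real.exp (-(T / 11)) + 1000 * T ^ 2 * Real.exp (-(T / 11)) := by gcongr
          _ = _ := by ring
      have e2 : Real.exp (T / 50) * Real.exp (-(T / 11)) ≤ Real.exp (-(1 / 20 * T)) := by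
        rw [← Real.exp_add]
        apply Real.exp_le_exp.2
        linarith
      have e3 : 1012 * T ^ 2 * Real.exp (-(1 / 20 * T)) ≤ c3 / 8 * V := by
        rw [Real.exp_neg, ← div_eq_mul_inv, div_le_iff₀ (Real.exp_pos _)]
        have e4 : 1012 * T ^ 2 = c3 / 8 * (1 / T ^ (2 * κ)) * ((1012 * 8 / c3) * T ^ (2 * κ + 2)) := by
          rw [pow_add]; field_simp
        rw [e4]
        calc c3 / 8 * (1 / T ^ (2 * κ)) * ((1012 * 8 / c3) * T ^ (2 * κ + 2)) ≤ c3 / 8 * (1 / T ^ (2 * κ)) * Real.exp (1 / 20 * T) := by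
              gcongr
          _ ≤ c3 / 8 * V * Real.exp (1 / 20 * T) := by
              rw [hV]
              gcongr
      calc Real.exp (T / 50) * (12 * T ^ 2 * Real.exp (-(T / 2)) + 1000 * T * Real.exp (-(T / 11))) ≤
          Real.exp (T / 50) * (1012 * T ^ 2 * Real.exp (-(T / 11))) := mul_le_mul_of_nonneg_left e1 (Real.exp_pos _).le
        _ = 1012 * T ^ 2 * (Real.exp (T / 50) * Real.exp (-(T / 11))) := by ring
        _ ≤ 1012 * T ^ 2 * Real.exp (-(1 / 20 * T)) := by gcongr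
        _ ≤ _ := e3
    have t4 : 48 * T * Real.exp (-(T / 200)) ≤ c3 / 8 * V := by
      have e1 : Real.exp (-(T / 200)) = (Real.exp (1 / 200 * T))⁻¹ := by rw [← Real.exp_neg]; ring_nf
      rw [e1, ← div_eq_mul_inv, div_le_iff₀ (Real.exp_pos _)]
      have e2 : 48 * T = c3 / 8 * V * ((384 / c3) * T ^ (2 * κ)) := by
        rw [hV]; field_simp; norm_num
      calc 48 * T = c3 / 8 * V * ((384 / c3) * T ^ (2 * κ)) := e2
        _ ≤ c3 / 8 * V * Real.exp (1 / 200 * T) := by gcongr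
    have := mul_pos hc3 hV0
    nlinarith

/-- the middle primes -/
theorem mid_lam {κ C1 : ℕ} {Cm : ℝ} (hCm : 0 ≤ Cm) (hC1 : 1 ≤ C1)
    (hmid : ∀ y z : ℕ, 2 ≤ y → y ≤ z → ∑ p ∈ (Ioc y z).filter Nat.Prime, 1 / ((p : ℝ) - 1) ≤ 2 * (Real.log (Real.log z / Real.log y) + Cm / Real.log y))
    {T : ℝ} (hT : 9 ≤ T) {w : ℕ} (hw1 : T ≤ (w : ℝ) ^ 2) (hw2 : (w : ℝ) ≤ T) :
    ∑ p ∈ (Ioc w ⌊T ^ C1⌋₊).filter Nat.Prime, (κ : ℝ) / ((p : ℝ) - 1) ≤ κ * (2 * (Real.log (2 * C1) + Cm)) := by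
  have hT0 : 0 < T := by linarith
  have hw3 : (3 : ℝ) ≤ w := by
    by_contra h
    push Not at h
    have h0 : (0 : ℝ) ≤ w := Nat.cast_nonneg w
    nlinarith
  have hlw : 1 ≤ Real.log w := by
    rw [Real.le_log_iff_exp_le (by linarith)]
    have := Real.exp_one_lt_d9
    linarith
  have hwZ : w ≤ ⌊T ^ C1⌋₊ := by
    apply Nat.le_floor
    refine hw2.trans ?_
    exact le_self_pow₀ (by linarith) (by omega)
  have h1 := hmid w ⌊T ^ C1⌋₊ (by exact_mod_cast (by linarith : (2 : ℝ) ≤ w)) hwZ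
  have h2 : Real.log (⌊T ^ C1⌋₊ : ℝ) ≤ C1 * Real.log T := by
    rw [← Real.log_pow]
    apply Real.log_le_log
    · exact_mod_cast (by
        have : (3 : ℝ) ≤ (⌊T ^ C1⌋₊ : ℝ) := hw3.trans (by exact_mod_cast hwZ)
        exact_mod_cast (by linarith : (0 : ℝ) < (⌊T ^ C1⌋₊ : ℝ)))
    · exact Nat.floor_le (by positivity)
  have h3 : Real.log T ≤ 2 * Real.log w := by
    have := Real.log_le_log hT0 hw1
    rwa [Real.log_pow, Nat.cast_ofNat] at this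
  have hC1r : (1 : ℝ) ≤ C1 := by exact_mod_cast hC1
  have h4 : Real.log (⌊T ^ C1⌋₊ : ℝ) / Real.log w ≤ 2 * C1 := by
    rw [div_le_iff₀ (by linarith)]
    nlinarith
  have h5 : 0 < Real.log (⌊T ^ C1⌋₊ : ℝ) / Real.log w := by
    apply div_pos _ (by linarith)
    have : Real.log w ≤ Real.log (⌊T ^ C1⌋₊ : ℝ) := Real.log_le_log (by linarith) (by exact_mod_cast hwZ)
    linarith
  have h6 := Real.log_le_log h5 h4
  have h7 : Cm / Real.log w ≤ Cm := div_le_self hCm hlw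
  have h8 : ∑ p ∈ (Ioc w ⌊T ^ C1⌋₊).filter Nat.Prime, (κ : ℝ) / ((p : ℝ) - 1) =
      κ * ∑ p ∈ (Ioc w ⌊T ^ C1⌋₊).filter Nat.Prime, 1 / ((p : ℝ) - 1) := by
    rw [mul_sum]
    apply sum_congr rfl
    intro p _
    ring
  rw [h8]
  apply mul_le_mul_of_nonneg_left _ (Nat.cast_nonneg κ)
  linarith

theorem prod_exp {s : Finset ℕ} {f : ℕ → ℝ} {lam : ℝ} (h : ∀ p ∈ s, 0 ≤ f p ∧ f p ≤ 1 / 2) (hs : ∑ p ∈ s, f p ≤ lam) :
    Real.exp (-(2 * lam)) ≤ ∏ p ∈ s, (1 - f p) := by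
  have h1 : ∏ p ∈ s, Real.exp (-(2 * f p)) ≤ ∏ p ∈ s, (1 - f p) := by
    apply prod_le_prod (fun _ _ => (Real.exp_pos _).le)
    intro p hp
    obtain ⟨h0, h2⟩ := h p hp
    -- exp(-2x) ≤ 1 - x on [0,1/2]
    have h3 : Real.exp (-(2 * f p)) * (1 + 2 * f p) ≤ 1 := by
      calc Real.exp (-(2 * f p)) * (1 + 2 * f p) ≤ Real.exp (-(2 * f p)) * Real.exp (2 * f p) := by
            apply mul_le_mul_of_nonneg_left _ (Real.exp_pos _).le
            linarith [Real.add_one_le_exp (2 * f p)]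
        _ = 1 := by rw [← Real.exp_add]; simp
    have h4 : 1 ≤ (1 - f p) * (1 + 2 * f p) := by nlinarith
    have h5 : 0 < 1 + 2 * f p := by linarith
    by_contra h6
    push Not at h6
    have := mul_lt_mul_of_pos_right h6 h5
    linarith
  refine le_trans ?_ h1
  rw [← Real.exp_sum]
  apply Real.exp_le_exp.2
  rw [sum_neg_distrib, ← mul_sum]
  linarith

end Pool.Agent.H536.OC
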