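import Mathlib
import Pool.Graph.R_seed8.Y882.JR.Core5
import Pool.Graph.R_seed8.W366.DC.SFX

open Finset

/-! Subtask A (helper536): weighted linear sieve (Kuhn's weights) from the universal weights `core5`. -/

namespace Pool.Agent.H536.OC

open Pool.Agent.Y882 Pool.Agent.W23.DC

namespace AKL

section
open Classical

/-- product of the primes of `P` which sift `n` -/
noncomputable def NN (P : Finset ℕ) (g : ℕ → ℕ → Prop) (n : ℕ) : ℕ :=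
  ∏ p ∈ P.filter (fun p => g p n), p

theorem dvd_NN {P : Finset ℕ} (hP : ∀ p ∈ P, p.Prime) (g : ℕ → ℕ → Prop) (n : ℕ) {p : ℕ}
    (hp : p ∈ P) : p ∣ NN P g n ↔ g p n := by
  unfold NN
  constructor
  · intro h
    rw [Prime.dvd_finset_prod_iff (hP p hp).prime] at h
    obtain ⟨q, hq, hpq⟩ := h
    rw [mem_filter] at hq
    have : p = q := (Nat.prime_dvd_prime_iff_eq (hP p hp) (hP q hq.1)).1 hpq
    rw [this]; exact hq.2
  · intro h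
    exact Finset.dvd_prod_of_mem _ (mem_filter.2 ⟨hp, h⟩)

theorem VV_NN {P : Finset ℕ} (hP : ∀ p ∈ P, p.Prime) (g : ℕ → ℕ → Prop) (n : ℕ)
    (w : Finset ℕ → ℝ) :
    VV P w (fun p => if p ∣ NN P g n then 1 else 0) =
      ∑ T ∈ P.powerset, w T * (if ∀ p ∈ T, g p n then 1 else 0) := by
  unfold VV
  refine sum_congr rfl fun T hT => ?_
  rw [mem_powerset] at hT
  congr 1
  rw [prod_ite_zero, prod_const_one]
  have : (∀ p ∈ T, p ∣ NN P g n) ↔ ∀ p ∈ T, g p n :=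
    forall₂_congr fun p hp => dvd_NN hP g n (hT hp)
  by_cases h : ∀ p ∈ T, g p n
  · rw [if_pos h, if_pos (this.2 h)]
  · rw [if_neg h, if_neg (fun h' => h (this.1 h'))]

theorem sum_VV {P : Finset ℕ} (hP : ∀ p ∈ P, p.Prime) (g : ℕ → ℕ → Prop)
    (w : Finset ℕ → ℝ) (S : Finset ℕ) (ω : ℕ → ℝ) :
    ∑ n ∈ S, ω n * VV P w (fun p => if p ∣ NN P g n then 1 else 0) =
      ∑ T ∈ P.powerset, w T * ∑ n ∈ S.filter (fun n => ∀ p ∈ T, g p n), ω n := by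
  simp only [VV_NN hP, mul_sum]
  rw [sum_comm]
  refine sum_congr rfl fun T hT => ?_
  rw [sum_filter]
  refine sum_congr rfl fun n hn => ?_
  split_ifs <;> ring

theorem err {P : Finset ℕ} (w : Finset ℕ → ℝ) (A R : Finset ℕ → ℝ) (X B : ℝ) (h : ℕ → ℝ)
    (hw : ∀ T, |w T| ≤ B) (hB : 0 ≤ B) (D : Finset (Finset ℕ))
    (hD : ∀ T, T ⊆ P → w T ≠ 0 → T ∈ D)
    (hA : ∀ T ∈ D, T ⊆ P → |A T - X * ∏ p ∈ T, h p| ≤ R T) (hR : ∀ T ∈ D, 0 ≤ R T) :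
    |∑ T ∈ P.powerset, w T * A T - X * VV P w h| ≤ B * ∑ T ∈ D, R T := by
  have e : ∑ T ∈ P.powerset, w T * A T - X * VV P w h =
      ∑ T ∈ P.powerset, w T * (A T - X * ∏ p ∈ T, h p) := by
    unfold VV
    rw [mul_sum, ← sum_sub_distrib]
    refine sum_congr rfl fun T _ => ?_
    ring
  rw [e]
  calc |∑ T ∈ P.powerset, w T * (A T - X * ∏ p ∈ T, h p)|
      ≤ ∑ T ∈ P.powerset, |w T * (A T - X * ∏ p ∈ T, h p)| := abs_sum_le_sum_abs _ _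
    _ = ∑ T ∈ P.powerset.filter (fun T => w T ≠ 0), |w T * (A T - X * ∏ p ∈ T, h p)| := by
        rw [sum_filter]
        refine sum_congr rfl fun T _ => ?_
        split_ifs with h0
        · rfl
        · rw [not_not] at h0
          rw [h0]; simp
    _ ≤ ∑ T ∈ P.powerset.filter (fun T => w T ≠ 0), B * R T := by
        refine sum_le_sum fun T hT => ?_
        rw [mem_filter, mem_powerset] at hT
        rw [abs_mul]
        have h1 := hD T hT.1 hT.2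
        exact mul_le_mul (hw T) (hA T h1 hT.1) (abs_nonneg _) hB
    _ ≤ ∑ T ∈ D, B * R T := by
        refine sum_le_sum_of_subset_of_nonneg ?_ fun T hT _ => mul_nonneg hB (hR T hT)
        intro T hT
        rw [mem_filter, mem_powerset] at hT
        exact hD T hT.1 hT.2
    _ = _ := by rw [mul_sum]

theorem upper_gen {P : Finset ℕ} (hP : ∀ p ∈ P, p.Prime) (g : ℕ → ℕ → Prop)
    (w : Finset ℕ → ℝ) (S : Finset ℕ) (ω : ℕ → ℝ) (hω : ∀ n ∈ S, 0 ≤ ω n)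
    (R : Finset ℕ → ℝ) (X B : ℝ) (h : ℕ → ℝ)
    (hw : ∀ T, |w T| ≤ B) (hB : 0 ≤ B) (D : Finset (Finset ℕ))
    (hD : ∀ T, T ⊆ P → w T ≠ 0 → T ∈ D)
    (hA : ∀ T ∈ D, T ⊆ P →
      |∑ n ∈ S.filter (fun n => ∀ p ∈ T, g p n), ω n - X * ∏ p ∈ T, h p| ≤ R T)
    (hR : ∀ T ∈ D, 0 ≤ R T)
    (hN : ∀ N : ℕ, (if ∀ p ∈ P, ¬ p ∣ N then (1 : ℝ) else 0) ≤
      VV P w (fun p => if p ∣ N then 1 else 0)) :
    ∑ n ∈ S.filter (fun n => ∀ p ∈ P, ¬ g p n), ω n ≤ X * VV P w h + B * ∑ T ∈ D, R T := by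
  have h1 := (abs_le.1 (err w (fun T => ∑ n ∈ S.filter (fun n => ∀ p ∈ T, g p n), ω n) R X B h hw hB D
    hD hA hR)).2
  rw [← sum_VV hP g w S ω] at h1
  have h2 : ∑ n ∈ S.filter (fun n => ∀ p ∈ P, ¬ g p n), ω n ≤
      ∑ n ∈ S, ω n * VV P w (fun p => if p ∣ NN P g n then 1 else 0) := by
    rw [sum_filter]
    refine sum_le_sum fun n hn => ?_
    have h3 := hN (NN P g n)
    have h4 : (∀ p ∈ P, ¬ p ∣ NN P g n) ↔ ∀ p ∈ P, ¬ g p n :=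
      forall₂_congr fun p hp => not_congr (dvd_NN hP g n hp)
    have h5 : (if ∀ p ∈ P, ¬ g p n then ω n else 0) =
        ω n * (if ∀ p ∈ P, ¬ p ∣ NN P g n then (1 : ℝ) else 0) := by
      by_cases h : ∀ p ∈ P, ¬ g p n
      · rw [if_pos h, if_pos (h4.2 h), mul_one]
      · rw [if_neg h, if_neg (fun h' => h (h4.1 h')), mul_zero]
    rw [h5]
    exact mul_le_mul_of_nonneg_left h3 (hω n hn)
  linarith

theorem lower_gen {P : Finset ℕ} (hP : ∀ p ∈ P, p.Prime) (g : ℕ → ℕ → Prop)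
    (w : Finset ℕ → ℝ) (S : Finset ℕ) (ω : ℕ → ℝ) (hω : ∀ n ∈ S, 0 ≤ ω n)
    (R : Finset ℕ → ℝ) (X B : ℝ) (h : ℕ → ℝ)
    (hw : ∀ T, |w T| ≤ B) (hB : 0 ≤ B) (D : Finset (Finset ℕ))
    (hD : ∀ T, T ⊆ P → w T ≠ 0 → T ∈ D)
    (hA : ∀ T ∈ D, T ⊆ P →
      |∑ n ∈ S.filter (fun n => ∀ p ∈ T, g p n), ω n - X * ∏ p ∈ T, h p| ≤ R T)
    (hR : ∀ T ∈ D, 0 ≤ R T)
    (hN : ∀ N : ℕ, VV P w (fun p => if p ∣ N then 1 else 0) ≤
      (if ∀ p ∈ P, ¬ p ∣ N then (1 : ℝ) else 0)) :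
    X * VV P w h - B * ∑ T ∈ D, R T ≤ ∑ n ∈ S.filter (fun n => ∀ p ∈ P, ¬ g p n), ω n := by
  have h1 := (abs_le.1 (err w (fun T => ∑ n ∈ S.filter (fun n => ∀ p ∈ T, g p n), ω n) R X B h hw hB D
    hD hA hR)).1
  rw [← sum_VV hP g w S ω] at h1
  have h2 : ∑ n ∈ S, ω n * VV P w (fun p => if p ∣ NN P g n then 1 else 0) ≤
      ∑ n ∈ S.filter (fun n => ∀ p ∈ P, ¬ g p n), ω n := by
    rw [sum_filter]
    refine sum_le_sum fun n hn => ?_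
    have h3 := hN (NN P g n)
    have h4 : (∀ p ∈ P, ¬ p ∣ NN P g n) ↔ ∀ p ∈ P, ¬ g p n :=
      forall₂_congr fun p hp => not_congr (dvd_NN hP g n hp)
    have h5 : (if ∀ p ∈ P, ¬ g p n then ω n else 0) =
        ω n * (if ∀ p ∈ P, ¬ p ∣ NN P g n then (1 : ℝ) else 0) := by
      by_cases h : ∀ p ∈ P, ¬ g p n
      · rw [if_pos h, if_pos (h4.2 h), mul_one]
      · rw [if_neg h, if_neg (fun h' => h (h4.1 h')), mul_zero]
    rw [h5]
    exact mul_le_mul_of_nonneg_left h3 (hω n hn)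
  linarith

/-! ### primes -/

theorem mem_PZ {Y p : ℕ} {ζ : ℝ} : p ∈ PZ Y ζ ↔ (1 ≤ p ∧ p ≤ Y) ∧ p.Prime ∧ tt Y p < ζ := by
  unfold PZ
  rw [mem_filter, mem_Icc]

theorem mem_pr {Y p : ℕ} {u v : ℝ} :
    p ∈ pr Y u v ↔ (1 ≤ p ∧ p ≤ Y) ∧ p.Prime ∧ u ≤ tt Y p ∧ tt Y p < v := by
  unfold pr
  rw [mem_filter, mem_Icc]

theorem PZ_prime {Y : ℕ} {ζ : ℝ} : ∀ p ∈ PZ Y ζ, p.Prime := fun _ hp => (mem_PZ.1 hp).2.1

theorem PZ_mono {Y : ℕ} {ζ ζ' : ℝ} (h : ζ ≤ ζ') : PZ Y ζ ⊆ PZ Y ζ' := by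
  intro p hp
  rw [mem_PZ] at hp ⊢
  exact ⟨hp.1, hp.2.1, hp.2.2.trans_le h⟩

theorem filter_pr {Y : ℕ} {u v a b : ℝ} (h1 : u ≤ a) (h2 : b ≤ v) :
    (pr Y u v).filter (fun p => a ≤ tt Y p ∧ tt Y p < b) = pr Y a b := by
  ext p
  rw [mem_filter, mem_pr, mem_pr]
  constructor
  · rintro ⟨⟨h3, h4, -, -⟩, h5, h6⟩
    exact ⟨h3, h4, h5, h6⟩
  · rintro ⟨h3, h4, h5, h6⟩
    exact ⟨⟨h3, h4, h1.trans h5, h6.trans_le h2⟩, h5, h6⟩

theorem Mer_restrict {Y : ℕ} {h : ℕ → ℝ} {ε₁ ε₂ w w' η η' : ℝ} (hε : ε₁ ≤ ε₂) (hw : w' ≤ w)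
    (hη : η ≤ η') (hM : Mer (pr Y ε₁ w) (tt Y) h ε₁ w η) :
    Mer (pr Y ε₂ w') (tt Y) h ε₂ w' η' := by
  intro a b h1 h2 h3
  have h4 := hM a b (hε.trans h1) h2 (h3.trans hw)
  rw [filter_pr (hε.trans h1) (h3.trans hw)] at h4
  rw [filter_pr h1 h3]
  exact h4.trans hη

theorem Mer_pr {Y : ℕ} {h : ℕ → ℝ} {ε₁ w η a b : ℝ} (hM : Mer (pr Y ε₁ w) (tt Y) h ε₁ w η)
    (h1 : ε₁ ≤ a) (h2 : a ≤ b) (h3 : b ≤ w) : ∑ p ∈ pr Y a b, h p ≤ Real.log (b / a) + η := by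
  have h4 := hM a b h1 h2 h3
  rw [filter_pr h1 h3] at h4
  have := (abs_le.1 h4).2
  linarith

theorem pr_split {Y : ℕ} {a b c : ℝ} (h1 : a ≤ b) (h2 : b ≤ c) :
    pr Y a c = pr Y a b ∪ pr Y b c := by
  ext p
  rw [mem_union, mem_pr, mem_pr, mem_pr]
  constructor
  · rintro ⟨h3, h4, h5, h6⟩
    rcases lt_or_ge (tt Y p) b with h7 | h7
    · exact Or.inl ⟨h3, h4, h5, h7⟩
    · exact Or.inr ⟨h3, h4, h7, h6⟩
  · rintro (⟨h3, h4, h5, h6⟩ | ⟨h3, h4, h5, h6⟩)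
    · exact ⟨h3, h4, h5, h6.trans_le h2⟩
    · exact ⟨h3, h4, h1.trans h5, h6⟩

theorem pr_disj {Y : ℕ} {a b c : ℝ} : Disjoint (pr Y a b) (pr Y b c) := by
  rw [disjoint_left]
  intro p hp hp'
  rw [mem_pr] at hp hp'
  exact absurd hp.2.2.2 (not_lt.2 hp'.2.2.1)

theorem sum_pr_split {Y : ℕ} {a b c : ℝ} (h1 : a ≤ b) (h2 : b ≤ c) (u : ℕ → ℝ) :
    ∑ p ∈ pr Y a c, u p = ∑ p ∈ pr Y a b, u p + ∑ p ∈ pr Y b c, u p := by
  rw [pr_split h1 h2, sum_union pr_disj]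

theorem pr_subset_PZ {Y : ℕ} {a b c : ℝ} (h : b ≤ c) : pr Y a b ⊆ PZ Y c := by
  intro p hp
  rw [mem_pr] at hp
  rw [mem_PZ]
  exact ⟨hp.1, hp.2.1, hp.2.2.2.trans_le h⟩

theorem notMem_PZ {Y p : ℕ} {a b c : ℝ} (hp : p ∈ pr Y a b) (h : c ≤ a) : p ∉ PZ Y c := by
  intro hp'
  rw [mem_pr] at hp
  rw [mem_PZ] at hp'
  exact absurd hp'.2.2 (not_lt.2 (h.trans hp.2.2.1))

/-- the index set of the error terms -/
noncomputable def DD (Y : ℕ) (p1 : ℕ) : Finset (Finset ℕ) :=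
  (PZ Y (1 / 8)).powerset.filter
    (fun T => ((∏ p ∈ insert p1 T, p : ℕ) : ℝ) ≤ (Y : ℝ) ^ (499 / 1000 : ℝ))

noncomputable def E1 (Y : ℕ) (R : Finset ℕ → ℝ) (p1 : ℕ) : ℝ := ∑ T ∈ DD Y p1, R (insert p1 T)

noncomputable def EA (Y : ℕ) (R : Finset ℕ → ℝ) : ℝ :=
  ∑ T ∈ (PZ Y (17 / 50)).powerset.filter
    (fun T => ((∏ p ∈ T, p : ℕ) : ℝ) ≤ (Y : ℝ) ^ (499 / 1000 : ℝ)), R T

theorem sum_E1_le (Y : ℕ) (R : Finset ℕ → ℝ) (hR : ∀ T, 0 ≤ R T) :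
    ∑ p1 ∈ pr Y (1 / 8) (17 / 50), E1 Y R p1 ≤ EA Y R := by
  unfold E1 EA
  rw [sum_sigma']
  have hinj : Set.InjOn (fun x : (_ : ℕ) × Finset ℕ => insert x.1 x.2)
      ((pr Y (1 / 8) (17 / 50)).sigma fun p1 => DD Y p1 : Finset _) := by
    rintro ⟨p, T⟩ h1 ⟨q, U⟩ h2 h3
    simp only at h3
    rw [mem_coe, mem_sigma] at h1 h2
    simp only [DD, mem_filter, mem_powerset] at h1 h2
    have hpq : p = q := by
      have h4 : p ∈ insert q U := by rw [← h3]; exact mem_insert_self _ _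
      rcases mem_insert.1 h4 with h5 | h5
      · exact h5
      · exact absurd (h2.2.1 h5) (notMem_PZ h1.1 le_rfl)
    subst hpq
    have h6 : p ∉ T := fun h => notMem_PZ h1.1 le_rfl (h1.2.1 h)
    have h7 : p ∉ U := fun h => notMem_PZ h1.1 le_rfl (h2.2.1 h)
    have h8 : T = U := by
      rw [← erase_insert h6, h3, erase_insert h7]
    rw [h8]
  rw [← sum_image (f := R) hinj]
  refine sum_le_sum_of_subset_of_nonneg ?_ fun T _ _ => hR T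
  intro T hT
  rw [mem_image] at hT
  obtain ⟨⟨p, U⟩, h1, rfl⟩ := hT
  rw [mem_sigma] at h1
  simp only [DD, mem_filter, mem_powerset] at h1 ⊢
  refine ⟨?_, h1.2.2⟩
  rw [insert_subset_iff]
  exact ⟨pr_subset_PZ le_rfl h1.1, h1.2.1.trans (PZ_mono (by norm_num))⟩

/-- the sum over the unsifted `n` with `g p1 n` -/
noncomputable def BB (P S : Finset ℕ) (g : ℕ → ℕ → Prop) (ω : ℕ → ℝ) (p1 : ℕ) : ℝ :=
  ∑ n ∈ (S.filter (fun n => g p1 n)).filter (fun n => ∀ p ∈ P, ¬ g p n), ω n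

theorem cell (κ : ℕ) (A0 : ℝ) (F f : ℝ → ℝ) (hSF : SF A0 F f) (a b ε : ℝ) (ha : 1 / 8 ≤ a)
    (hab : a ≤ b) (hb : b ≤ 17 / 50) (hε : 0 < ε) :
    ∃ ε₁ η : ℝ, 0 < ε₁ ∧ ε₁ ≤ 1 / 8 ∧ 0 < η ∧ ∃ Y0 : ℕ, ∀ Y : ℕ, Y0 ≤ Y →
    ∀ (S : Finset ℕ) (g : ℕ → ℕ → Prop) (h : ℕ → ℝ),
    (∀ p ∈ PZ Y (17 / 50), 0 ≤ h p ∧ h p ≤ 1) →
    (∀ p ∈ PZ Y (1 / 8), κ < p → h p ≤ κ / ((p : ℝ) - 1)) →
    Mer (pr Y ε₁ (1 / 8)) (tt Y) h ε₁ (1 / 8) η →
    ∀ (ω : ℕ → ℝ) (X : ℝ) (R : Finset ℕ → ℝ), (∀ n ∈ S, 0 ≤ ω n) → 0 ≤ X → (∀ T, 0 ≤ R T) →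
    (∀ T : Finset ℕ, T ⊆ PZ Y (17 / 50) → ((∏ p ∈ T, p : ℕ) : ℝ) ≤ (Y : ℝ) ^ (499 / 1000 : ℝ) →
      |∑ n ∈ S.filter (fun n => ∀ p ∈ T, g p n), ω n - X * ∏ p ∈ T, h p| ≤ R T) →
    ∀ p1 ∈ pr Y a b, BB (PZ Y (1 / 8)) S g ω p1 ≤
      X * h p1 * ((F (8 * (498 / 1000 - b)) + ε) * ∏ p ∈ PZ Y (1 / 8), (1 - h p)) +
        5 * Real.log Y * E1 Y R p1 := by
  obtain ⟨ε₁, η, h1, h2, h3, Y0, hY0⟩ := JR.core5 κ A0 F f hSF (498 / 1000 - b) (1 / 8)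
    (499 / 1000 - b) ε (by norm_num) (by linarith) (by linarith) (by linarith) hε
  refine ⟨ε₁, η, h1, h2, h3, max Y0 2, fun Y hY S g h hh hκ hM ω X R hω hX hR hA p1 hp1 => ?_⟩
  obtain ⟨wU, wL, k1, k2, k3, k4⟩ := hY0 Y ((le_max_left _ _).trans hY)
  have hY2 : 2 ≤ Y := (le_max_right _ _).trans hY
  have hYr : (2 : ℝ) ≤ Y := by exact_mod_cast hY2
  have hlog : 0 ≤ Real.log Y := Real.log_nonneg (by linarith)
  have hsub : PZ Y (1 / 8) ⊆ PZ Y (17 / 50) := PZ_mono (by norm_num)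
  have hp1' := mem_pr.1 hp1
  have hp1PZ : p1 ∈ PZ Y (17 / 50) := pr_subset_PZ hb hp1
  have hp1n : p1 ∉ PZ Y (1 / 8) := notMem_PZ hp1 ha
  have hp1Y : (p1 : ℝ) < (Y : ℝ) ^ b := (tt_lt Y p1 b hY2 hp1'.2.1.pos).1 hp1'.2.2.2
  have key := (k4 h (fun p hp => (hh p (hsub hp)).1) (fun p hp => (hh p (hsub hp)).2) hκ hM).2
  have e8 : (498 / 1000 - b) / (1 / 8) = 8 * (498 / 1000 - b) := by ring
  rw [e8] at key
  have main := upper_gen (P := PZ Y (1 / 8)) PZ_prime g wU (S.filter (fun n => g p1 n)) ω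
    (fun n hn => hω n (mem_filter.1 hn).1) (fun T => R (insert p1 T)) (X * h p1)
    (5 * Real.log Y) h (fun T => (k1 T).1) (by positivity) (DD Y p1) ?_ ?_ (fun T _ => hR _) ?_
  · refine main.trans ?_
    have h4 : X * h p1 * VV (PZ Y (1 / 8)) wU h ≤
        X * h p1 * ((F (8 * (498 / 1000 - b)) + ε) * ∏ p ∈ PZ Y (1 / 8), (1 - h p)) :=
      mul_le_mul_of_nonneg_left key (mul_nonneg hX (hh p1 hp1PZ).1)
    unfold E1
    linarith
  · intro T hT hw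
    unfold DD
    rw [mem_filter, mem_powerset]
    refine ⟨hT, ?_⟩
    have h4 := k2 T hT (Or.inl hw)
    have h5 : p1 ∉ T := fun h => hp1n (hT h)
    rw [prod_insert h5]
    push_cast at h4 ⊢
    have h6 : (Y : ℝ) ^ (499 / 1000 : ℝ) = (Y : ℝ) ^ b * (Y : ℝ) ^ (499 / 1000 - b) := by
      rw [← Real.rpow_add (by linarith)]
      congr 1
      ring
    rw [h6]
    exact mul_le_mul hp1Y.le h4 (by positivity) (by positivity)
  · intro T hT hT'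
    unfold DD at hT
    rw [mem_filter, mem_powerset] at hT
    have h5 : p1 ∉ T := fun h => hp1n (hT' h)
    have h6 := hA (insert p1 T) (insert_subset_iff.2 ⟨hp1PZ, hT'.trans hsub⟩) hT.2
    rw [prod_insert h5, ← mul_assoc] at h6
    rw [filter_filter]
    simp only [forall_mem_insert] at h6
    exact h6
  · intro N
    exact (k3 N).2

theorem cell_sum {Y : ℕ} {a b ε₁ η X V c L : ℝ} {h B E : ℕ → ℝ}
    (hM : Mer (pr Y ε₁ (17 / 50)) (tt Y) h ε₁ (17 / 50) η) (ha : ε₁ ≤ a) (hab : a ≤ b)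
    (hb : b ≤ 17 / 50) (hX : 0 ≤ X) (hV : 0 ≤ V) (hc : 0 ≤ c)
    (hB : ∀ p1 ∈ pr Y a b, B p1 ≤ X * h p1 * (c * V) + L * E p1) :
    ∑ p1 ∈ pr Y a b, B p1 ≤ X * V * (c * (Real.log (b / a) + η)) + L * ∑ p1 ∈ pr Y a b, E p1 := by
  have h1 := Mer_pr hM ha hab hb
  calc ∑ p1 ∈ pr Y a b, B p1 ≤ ∑ p1 ∈ pr Y a b, (X * h p1 * (c * V) + L * E p1) := sum_le_sum hB
    _ = X * V * c * ∑ p1 ∈ pr Y a b, h p1 + L * ∑ p1 ∈ pr Y a b, E p1 := by
        rw [sum_add_distrib, mul_sum, mul_sum]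
        congr 1
        refine sum_congr rfl fun p _ => ?_
        ring
    _ ≤ X * V * c * (Real.log (b / a) + η) + L * ∑ p1 ∈ pr Y a b, E p1 := by
        have h2 : 0 ≤ X * V * c := by positivity
        have := mul_le_mul_of_nonneg_left h1 h2
        linarith
    _ = _ := by ring

theorem log_le_quad {x y : ℝ} (hx : 0 < x) (hy : 0 ≤ y) (h : x ≤ 1 + y + y ^ 2 / 2) :
    Real.log x ≤ y := by
  rw [Real.log_le_iff_le_exp hx]
  exact h.trans (Real.quadratic_le_exp_of_nonneg hy)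

theorem log_lower : (1.089 : ℝ) ≤ Real.log (2984 / 1000) := by
  have h1 : Real.log (2984 / 1000) = 1 + Real.log (2984 / 1000 / Real.exp 1) := by
    rw [Real.log_div (by norm_num) (Real.exp_pos 1).ne', Real.log_exp]
    ring
  have h2 : 1 - (2984 / 1000 / Real.exp 1)⁻¹ ≤ Real.log (2984 / 1000 / Real.exp 1) :=
    Real.one_sub_inv_le_log_of_pos (div_pos (by norm_num) (Real.exp_pos 1))
  have h3 : (2984 / 1000 / Real.exp 1)⁻¹ = Real.exp 1 / (2984 / 1000) := by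
    rw [inv_div]
  rw [h3] at h2
  have h4 := Real.exp_one_lt_d9
  have h5 : Real.exp 1 / (2984 / 1000) ≤ 0.911 := by
    rw [div_le_iff₀ (by norm_num)]
    linarith
  rw [h1]
  linarith

theorem numer (A0 η f0 F1 F2 F3 F4 F5 : ℝ) (hA : 0 < A0) (hη0 : 0 < η) (hη : η ≤ 1 / 1000)
    (hf : f0 = A0 * Real.log (2984 / 1000) / (3984 / 1000))
    (h1 : F1 = A0 / (2640 / 1000)) (h2 : F2 = A0 / (2296 / 1000)) (h3 : F3 = A0 / (1952 / 1000))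
    (h4 : F4 = A0 / (1608 / 1000)) (h5 : F5 = A0 / (1264 / 1000)) :
    A0 / 100 ≤ (f0 - A0 / 1000) - 1 / 2 * (
      (F1 + A0 / 1000) * (Real.log (168 / 1000 / (1 / 8)) + η) +
      (F2 + A0 / 1000) * (Real.log (211 / 1000 / (168 / 1000)) + η) +
      (F3 + A0 / 1000) * (Real.log (254 / 1000 / (211 / 1000)) + η) +
      (F4 + A0 / 1000) * (Real.log (297 / 1000 / (254 / 1000)) + η) +
      (F5 + A0 / 1000) * (Real.log (17 / 50 / (297 / 1000)) + η)) := by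
  have l0 := log_lower
  have l1 : Real.log (168 / 1000 / (1 / 8)) ≤ 0.2993 :=
    log_le_quad (by norm_num) (by norm_num) (by norm_num)
  have l2 : Real.log (211 / 1000 / (168 / 1000)) ≤ 0.2297 :=
    log_le_quad (by norm_num) (by norm_num) (by norm_num)
  have l3 : Real.log (254 / 1000 / (211 / 1000)) ≤ 0.1866 :=
    log_le_quad (by norm_num) (by norm_num) (by norm_num)
  have l4 : Real.log (297 / 1000 / (254 / 1000)) ≤ 0.1571 :=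
    log_le_quad (by norm_num) (by norm_num) (by norm_num)
  have l5 : Real.log (17 / 50 / (297 / 1000)) ≤ 0.1357 :=
    log_le_quad (by norm_num) (by norm_num) (by norm_num)
  have b0 : A0 * 1.089 / (3984 / 1000) ≤ f0 := by
    rw [hf]
    have := mul_le_mul_of_nonneg_left l0 hA.le
    exact div_le_div_of_nonneg_right this (by norm_num)
  have b1 : (F1 + A0 / 1000) * (Real.log (168 / 1000 / (1 / 8)) + η) ≤
      (F1 + A0 / 1000) * (0.2993 + 1 / 1000) :=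
    mul_le_mul_of_nonneg_left (by linarith) (by rw [h1]; positivity)
  have b2 : (F2 + A0 / 1000) * (Real.log (211 / 1000 / (168 / 1000)) + η) ≤
      (F2 + A0 / 1000) * (0.2297 + 1 / 1000) :=
    mul_le_mul_of_nonneg_left (by linarith) (by rw [h2]; positivity)
  have b3 : (F3 + A0 / 1000) * (Real.log (254 / 1000 / (211 / 1000)) + η) ≤
      (F3 + A0 / 1000) * (0.1866 + 1 / 1000) :=
    mul_le_mul_of_nonneg_left (by linarith) (by rw [h3]; positivity)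
  have b4 : (F4 + A0 / 1000) * (Real.log (297 / 1000 / (254 / 1000)) + η) ≤
      (F4 + A0 / 1000) * (0.1571 + 1 / 1000) :=
    mul_le_mul_of_nonneg_left (by linarith) (by rw [h4]; positivity)
  have b5 : (F5 + A0 / 1000) * (Real.log (17 / 50 / (297 / 1000)) + η) ≤
      (F5 + A0 / 1000) * (0.1357 + 1 / 1000) :=
    mul_le_mul_of_nonneg_left (by linarith) (by rw [h5]; positivity)
  have c0 : A0 * 1.089 / (3984 / 1000) = A0 * (1.089 / (3984 / 1000)) := by ring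
  have c1 : F1 = A0 * (1000 / 2640) := by rw [h1]; ring
  have c2 : F2 = A0 * (1000 / 2296) := by rw [h2]; ring
  have c3 : F3 = A0 * (1000 / 1952) := by rw [h3]; ring
  have c4 : F4 = A0 * (1000 / 1608) := by rw [h4]; ring
  have c5 : F5 = A0 * (1000 / 1264) := by rw [h5]; ring
  rw [c0] at b0
  rw [c1] at b1 ⊢
  rw [c2] at b2 ⊢
  rw [c3] at b3 ⊢
  rw [c4] at b4 ⊢
  rw [c5] at b5 ⊢
  norm_num at b0 b1 b2 b3 b4 b5 ⊢
  linarith

theorem count_id (S P Q : Finset ℕ) (g : ℕ → ℕ → Prop) (ω : ℕ → ℝ) :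
    ∑ n ∈ S.filter (fun n => ∀ p ∈ P, ¬ g p n),
        ω n * (1 - (1 / 2) * ((Q.filter (fun p => g p n)).card : ℝ)) =
      ∑ n ∈ S.filter (fun n => ∀ p ∈ P, ¬ g p n), ω n - 1 / 2 * ∑ p1 ∈ Q, BB P S g ω p1 := by
  have h1 : ∀ p1, BB P S g ω p1 =
      ∑ n ∈ S.filter (fun n => ∀ p ∈ P, ¬ g p n), if g p1 n then ω n else 0 := by
    intro p1
    unfold BB
    rw [filter_comm, sum_filter]
  simp only [h1]
  rw [sum_comm, mul_sum, ← sum_sub_distrib]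
  refine sum_congr rfl fun n _ => ?_
  rw [← sum_filter, sum_const, nsmul_eq_mul]
  ring

end

end AKL

open AKL

open Classical in
theorem AK (κ : ℕ) : ∃ ε₁ η c₀ C₀ : ℝ, 0 < ε₁ ∧ ε₁ ≤ 1 / 8 ∧ 0 < η ∧ 0 < c₀ ∧ 0 < C₀ ∧
    ∃ Y0 : ℕ, ∀ Y : ℕ, Y0 ≤ Y → ∀ (S : Finset ℕ) (g : ℕ → ℕ → Prop) (h : ℕ → ℝ),
    (∀ p ∈ PZ Y (17 / 50), 0 ≤ h p ∧ h p ≤ 1) →
    (∀ p ∈ PZ Y (1 / 8), κ < p → h p ≤ κ / ((p : ℝ) - 1)) →
    Mer (pr Y ε₁ (17 / 50)) (tt Y) h ε₁ (17 / 50) η →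
    ∀ (ω : ℕ → ℝ) (X : ℝ) (R : Finset ℕ → ℝ), (∀ n ∈ S, 0 ≤ ω n) → 0 ≤ X → (∀ T, 0 ≤ R T) →
    (∀ T : Finset ℕ, T ⊆ PZ Y (17 / 50) → ((∏ p ∈ T, p : ℕ) : ℝ) ≤ (Y : ℝ) ^ (499 / 1000 : ℝ) →
      |∑ n ∈ S.filter (fun n => ∀ p ∈ T, g p n), ω n - X * ∏ p ∈ T, h p| ≤ R T) →
    (c₀ * (X * ∏ p ∈ PZ Y (1 / 8), (1 - h p)) - 10 * Real.log Y *
        ∑ T ∈ (PZ Y (17 / 50)).powerset.filter (fun T => ((∏ p ∈ T, p : ℕ) : ℝ) ≤ (Y : ℝ) ^ (499 / 1000 : ℝ)), R T ≤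
      ∑ n ∈ S.filter (fun n => ∀ p ∈ PZ Y (1 / 8), ¬ g p n),
        ω n * (1 - (1 / 2) * (((pr Y (1 / 8) (17 / 50)).filter (fun p => g p n)).card : ℝ))) ∧
    (∑ n ∈ S.filter (fun n => ∀ p ∈ PZ Y (1 / 8), ¬ g p n), ω n ≤
      C₀ * (X * ∏ p ∈ PZ Y (1 / 8), (1 - h p)) + 10 * Real.log Y *
        ∑ T ∈ (PZ Y (17 / 50)).powerset.filter (fun T => ((∏ p ∈ T, p : ℕ) : ℝ) ≤ (Y : ℝ) ^ (499 / 1000 : ℝ)), R T) := by
  obtain ⟨A0, F, f, hSF⟩ := Pool.Agent.W366.DC.SFX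
  have hA0 := hSF.pos
  have he : 0 < A0 / 1000 := by positivity
  obtain ⟨ε0, η0, p01, p02, p03, Y0, hY0⟩ := JR.core5 κ A0 F f hSF (498 / 1000) (1 / 8)
    (499 / 1000) (A0 / 1000) (by norm_num) (by norm_num) (by norm_num) (by norm_num) he
  obtain ⟨ε1, η1, p11, p12, p13, Y1, hY1⟩ := cell κ A0 F f hSF (1 / 8) (168 / 1000) (A0 / 1000)
    (by norm_num) (by norm_num) (by norm_num) he
  obtain ⟨ε2, η2, p21, p22, p23, Y2, hY2⟩ := cell κ A0 F f hSF (168 / 1000) (211 / 1000) (A0 / 1000)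
    (by norm_num) (by norm_num) (by norm_num) he
  obtain ⟨ε3, η3, p31, p32, p33, Y3, hY3⟩ := cell κ A0 F f hSF (211 / 1000) (254 / 1000) (A0 / 1000)
    (by norm_num) (by norm_num) (by norm_num) he
  obtain ⟨ε4, η4, p41, p42, p43, Y4, hY4⟩ := cell κ A0 F f hSF (254 / 1000) (297 / 1000) (A0 / 1000)
    (by norm_num) (by norm_num) (by norm_num) he
  obtain ⟨ε5, η5, p51, p52, p53, Y5, hY5⟩ := cell κ A0 F f hSF (297 / 1000) (17 / 50) (A0 / 1000)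
    (by norm_num) (by norm_num) (by norm_num) he
  obtain ⟨ε, hε, i0, i1, i2, i3, i4, i5⟩ : ∃ ε : ℝ, 0 < ε ∧ ε ≤ ε0 ∧ ε ≤ ε1 ∧ ε ≤ ε2 ∧ ε ≤ ε3 ∧
      ε ≤ ε4 ∧ ε ≤ ε5 :=
    ⟨min ε0 (min ε1 (min ε2 (min ε3 (min ε4 ε5)))), by positivity, by simp, by simp, by simp,
      by simp, by simp, by simp⟩
  obtain ⟨η, hη, j0, j1, j2, j3, j4, j5, j6⟩ : ∃ η : ℝ, 0 < η ∧ η ≤ η0 ∧ η ≤ η1 ∧ η ≤ η2 ∧
      η ≤ η3 ∧ η ≤ η4 ∧ η ≤ η5 ∧ η ≤ 1 / 1000 :=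
    ⟨min η0 (min η1 (min η2 (min η3 (min η4 (min η5 (1 / 1000)))))), by positivity, by simp,
      by simp, by simp, by simp, by simp, by simp, by simp⟩
  have hF1 : 1 ≤ F (498 / 1000 / (1 / 8)) := hSF.F1 _ (by norm_num)
  refine ⟨ε, η, A0 / 100, F (498 / 1000 / (1 / 8)) + A0 / 1000, hε, i0.trans p02, hη, by positivity,
    by linarith, Y0 + Y1 + Y2 + Y3 + Y4 + Y5 + 2, ?_⟩
  intro Y hY S g h hh hκ hM ω X R hω hX hR hA
  have hYr : (2 : ℝ) ≤ Y := by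
    have : 2 ≤ Y := by omega
    exact_mod_cast this
  have hlog : 0 ≤ Real.log Y := Real.log_nonneg (by linarith)
  have hsub : PZ Y (1 / 8) ⊆ PZ Y (17 / 50) := PZ_mono (by norm_num)
  have hV : 0 ≤ ∏ p ∈ PZ Y (1 / 8), (1 - h p) :=
    prod_nonneg fun p hp => by linarith [(hh p (hsub hp)).2]
  set V : ℝ := ∏ p ∈ PZ Y (1 / 8), (1 - h p) with hVdef
  change A0 / 100 * (X * V) - 10 * Real.log Y * EA Y R ≤ _ ∧ _ ≤ _ + 10 * Real.log Y * EA Y R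
  have hEA : 0 ≤ EA Y R := sum_nonneg fun T _ => hR T
  -- sieve weights
  obtain ⟨wU, wL, k1, k2, k3, k4⟩ := hY0 Y (by omega)
  obtain ⟨k5, k6⟩ := k4 h (fun p hp => (hh p (hsub hp)).1) (fun p hp => (hh p (hsub hp)).2) hκ
    (Mer_restrict i0 (by norm_num) j0 hM)
  set D0 : Finset (Finset ℕ) := (PZ Y (1 / 8)).powerset.filter
    (fun T => ((∏ p ∈ T, p : ℕ) : ℝ) ≤ (Y : ℝ) ^ (499 / 1000 : ℝ)) with hD0
  have hD0le : ∑ T ∈ D0, R T ≤ EA Y R := by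
    unfold EA
    refine sum_le_sum_of_subset_of_nonneg ?_ fun T _ _ => hR T
    exact filter_subset_filter _ (powerset_mono.2 hsub)
  have hA' : ∀ T ∈ D0, T ⊆ PZ Y (1 / 8) →
      |∑ n ∈ S.filter (fun n => ∀ p ∈ T, g p n), ω n - X * ∏ p ∈ T, h p| ≤ R T := by
    intro T hT hT'
    rw [hD0, mem_filter] at hT
    exact hA T (hT'.trans hsub) hT.2
  have low := lower_gen (P := PZ Y (1 / 8)) PZ_prime g wL S ω hω R X (5 * Real.log Y) h
    (fun T => (k1 T).2) (by positivity) D0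
    (fun T hT hw => mem_filter.2 ⟨mem_powerset.2 hT, k2 T hT (Or.inr hw)⟩) hA' (fun T _ => hR T)
    (fun N => (k3 N).1)
  have upp := upper_gen (P := PZ Y (1 / 8)) PZ_prime g wU S ω hω R X (5 * Real.log Y) h
    (fun T => (k1 T).1) (by positivity) D0
    (fun T hT hw => mem_filter.2 ⟨mem_powerset.2 hT, k2 T hT (Or.inl hw)⟩) hA' (fun T _ => hR T)
    (fun N => (k3 N).2)
  rw [← hVdef] at k5 k6
  have m5 := mul_le_mul_of_nonneg_left k5 hX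
  have m6 := mul_le_mul_of_nonneg_left k6 hX
  have hE5 : 5 * Real.log Y * ∑ T ∈ D0, R T ≤ 5 * Real.log Y * EA Y R :=
    mul_le_mul_of_nonneg_left hD0le (by positivity)
  have hE0 : 0 ≤ 5 * Real.log Y * EA Y R := by positivity
  constructor
  · have cid := count_id S (PZ Y (1 / 8)) (pr Y (1 / 8) (17 / 50)) g ω
    refine le_trans ?_ (le_of_eq (cid.symm.trans ?_))
    swap
    · congr!
    -- the cells
    have q1 := hY1 Y (by omega) S g h hh hκ (Mer_restrict i1 (by norm_num) j1 hM) ω X R hω hX hR hA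
    have q2 := hY2 Y (by omega) S g h hh hκ (Mer_restrict i2 (by norm_num) j2 hM) ω X R hω hX hR hA
    have q3 := hY3 Y (by omega) S g h hh hκ (Mer_restrict i3 (by norm_num) j3 hM) ω X R hω hX hR hA
    have q4 := hY4 Y (by omega) S g h hh hκ (Mer_restrict i4 (by norm_num) j4 hM) ω X R hω hX hR hA
    have q5 := hY5 Y (by omega) S g h hh hκ (Mer_restrict i5 (by norm_num) j5 hM) ω X R hω hX hR hA
    rw [← hVdef] at q1 q2 q3 q4 q5
    have v1 : F (8 * (498 / 1000 - 168 / 1000)) = A0 / (2640 / 1000) := by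
      rw [hSF.F3 _ (by norm_num) (by norm_num)]; norm_num
    have v2 : F (8 * (498 / 1000 - 211 / 1000)) = A0 / (2296 / 1000) := by
      rw [hSF.F3 _ (by norm_num) (by norm_num)]; norm_num
    have v3 : F (8 * (498 / 1000 - 254 / 1000)) = A0 / (1952 / 1000) := by
      rw [hSF.F3 _ (by norm_num) (by norm_num)]; norm_num
    have v4 : F (8 * (498 / 1000 - 297 / 1000)) = A0 / (1608 / 1000) := by
      rw [hSF.F3 _ (by norm_num) (by norm_num)]; norm_num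
    have v5 : F (8 * (498 / 1000 - 17 / 50)) = A0 / (1264 / 1000) := by
      rw [hSF.F3 _ (by norm_num) (by norm_num)]; norm_num
    have v0 : f (498 / 1000 / (1 / 8)) = A0 * Real.log (2984 / 1000) / (3984 / 1000) := by
      rw [hSF.f4 _ (by norm_num) (by norm_num)]; norm_num
    have w1 := cell_sum (c := F (8 * (498 / 1000 - 168 / 1000)) + A0 / 1000) hM
      (by linarith) (by norm_num) (by norm_num) hX hV (by rw [v1]; positivity) q1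
    have w2 := cell_sum (c := F (8 * (498 / 1000 - 211 / 1000)) + A0 / 1000) hM
      (by linarith) (by norm_num) (by norm_num) hX hV (by rw [v2]; positivity) q2
    have w3 := cell_sum (c := F (8 * (498 / 1000 - 254 / 1000)) + A0 / 1000) hM
      (by linarith) (by norm_num) (by norm_num) hX hV (by rw [v3]; positivity) q3
    have w4 := cell_sum (c := F (8 * (498 / 1000 - 297 / 1000)) + A0 / 1000) hM
      (by linarith) (by norm_num) (by norm_num) hX hV (by rw [v4]; positivity) q4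
    have w5 := cell_sum (c := F (8 * (498 / 1000 - 17 / 50)) + A0 / 1000) hM
      (by linarith) (by norm_num) (by norm_num) hX hV (by rw [v5]; positivity) q5
    have sp : ∀ u : ℕ → ℝ, ∑ p ∈ pr Y (1 / 8) (17 / 50), u p =
        ∑ p ∈ pr Y (1 / 8) (168 / 1000), u p + (∑ p ∈ pr Y (168 / 1000) (211 / 1000), u p +
        (∑ p ∈ pr Y (211 / 1000) (254 / 1000), u p + (∑ p ∈ pr Y (254 / 1000) (297 / 1000), u p +
          ∑ p ∈ pr Y (297 / 1000) (17 / 50), u p))) := by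
      intro u
      rw [sum_pr_split (b := 168 / 1000) (by norm_num) (by norm_num),
        sum_pr_split (a := 168 / 1000) (b := 211 / 1000) (by norm_num) (by norm_num),
        sum_pr_split (a := 211 / 1000) (b := 254 / 1000) (by norm_num) (by norm_num),
        sum_pr_split (a := 254 / 1000) (b := 297 / 1000) (by norm_num) (by norm_num)]
    have hE1 := sum_E1_le Y R hR
    rw [sp] at hE1
    rw [sp]
    have num := numer A0 η _ _ _ _ _ _ hA0 hη j6 v0 v1 v2 v3 v4 v5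
    have num' := mul_le_mul_of_nonneg_left num (mul_nonneg hX hV)
    have hE1' := mul_le_mul_of_nonneg_left hE1 (by positivity : 0 ≤ 5 * Real.log Y)
    clear_value V
    generalize (∑ p ∈ pr Y (1 / 8) (168 / 1000), BB (PZ Y (1 / 8)) S g ω p) = b1 at *
    generalize (∑ p ∈ pr Y (168 / 1000) (211 / 1000), BB (PZ Y (1 / 8)) S g ω p) = b2 at *
    generalize (∑ p ∈ pr Y (211 / 1000) (254 / 1000), BB (PZ Y (1 / 8)) S g ω p) = b3 at *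
    generalize (∑ p ∈ pr Y (254 / 1000) (297 / 1000), BB (PZ Y (1 / 8)) S g ω p) = b4 at *
    generalize (∑ p ∈ pr Y (297 / 1000) (17 / 50), BB (PZ Y (1 / 8)) S g ω p) = b5 at *
    linarith
  · refine (le_of_eq ?_).trans (upp.trans ?_)
    · congr!
    linarith

end Pool.Agent.H536.OC
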