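import Mathlib
import Pool.Graph.R_seed8.Y882.JR.Core5
import Pool.Agent.H536.OB.E11

open Finset Filter Topology

/-! Statements of the pieces (helper536). -/

namespace Pool.Agent.H536.OC

open Pool.Agent.Y882 Pool.Agent.W23.DC Pool.Agent.H536.OB
open Pool.Agent.H318R2.Cr (V Pz mem_Pz V_pos cz_bounds one_sub_inv_pos)
open Pool.Agent.H262R3.Lk (wM)

open Classical in
theorem PSL : ∃ (K : ℝ) (M0 : ℕ), 0 < K ∧ ∀ (A3 M q : ℕ) [NeZero q] (χ : DirichletCharacter ℂ q), M0 ≤ M → q ≤ M ^ 2 →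
    2 ≤ q → (∀ p : ℕ, p.Prime → p ≤ wM M → p ∣ q) → χ ≠ 1 → χ ^ 2 = 1 →
    ∑ p ∈ (Ioc (M ^ 32) (M ^ A3)).filter (fun p => p.Prime ∧ cr χ p = 1), 1 / (p : ℝ) ≤ K * (3 * A3 + 1) * ell (M ^ 32) χ := by
  obtain ⟨K, M0, hK, hbl⟩ := block
  refine ⟨K, M0 + 3, by positivity, ?_⟩
  intro A3 M q _ χ hM hqM hq2 hwq hχ hχ2
  have hM3 : 3 ≤ M := by omega
  have hMr : (3 : ℝ) ≤ M := by exact_mod_cast hM3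
  have hlM : 1 ≤ Real.log M := by
    rw [Real.le_log_iff_exp_le (by linarith)]
    have := Real.exp_one_lt_d9
    linarith
  have hell := ell_pos (z := M ^ 32) hχ hχ2
  set z := M ^ 32 with hz
  have hz0 : 0 < z := Nat.pow_pos (by omega)
  have key : ∀ I : ℕ, ∑ p ∈ (Ioc z (2 ^ I * z)).filter (fun p => p.Prime ∧ cr χ p = 1), 1 / (p : ℝ) ≤
      I * (K / Real.log M * ell z χ) := by
    intro I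
    induction I with
    | zero => simp
    | succ I ih =>
      have h1 : (Ioc z (2 ^ (I + 1) * z)).filter (fun p => p.Prime ∧ cr χ p = 1) =
          (Ioc z (2 ^ I * z)).filter (fun p => p.Prime ∧ cr χ p = 1) ∪
          (Ioc (2 ^ I * z) (2 * (2 ^ I * z))).filter (fun p => p.Prime ∧ cr χ p = 1) := by
        rw [← filter_union]
        congr 1
        ext p
        rw [mem_union, mem_Ioc, mem_Ioc, mem_Ioc]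
        have h2 : z ≤ 2 ^ I * z := Nat.le_mul_of_pos_left z (by positivity)
        have h3 : 2 ^ (I + 1) * z = 2 * (2 ^ I * z) := by rw [pow_succ]; ring
        omega
      have hdis : Disjoint ((Ioc z (2 ^ I * z)).filter (fun p => p.Prime ∧ cr χ p = 1))
          ((Ioc (2 ^ I * z) (2 * (2 ^ I * z))).filter (fun p => p.Prime ∧ cr χ p = 1)) := by
        apply disjoint_filter_filter
        rw [Finset.disjoint_left]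
        intro p hp hp'
        rw [mem_Ioc] at hp hp'
        omega
      rw [h1, sum_union hdis]
      have h4 : M ^ 30 ≤ 2 ^ I * z := by
        calc M ^ 30 ≤ z := Nat.pow_le_pow_right (by omega) (by norm_num)
          _ ≤ 2 ^ I * z := Nat.le_mul_of_pos_left z (by positivity)
      have h5 := hbl M q χ (2 ^ I * z) (by omega) hqM hq2 hwq hχ hχ2 h4
      have hx0 : (0 : ℝ) < ((2 ^ I * z : ℕ) : ℝ) := by exact_mod_cast Nat.mul_pos (by positivity) hz0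
      have h6 : ∑ p ∈ (Ioc (2 ^ I * z) (2 * (2 ^ I * z))).filter (fun p => p.Prime ∧ cr χ p = 1), 1 / (p : ℝ) ≤
          K / Real.log M * ell z χ := by
        have h7 : ∀ p ∈ (Ioc (2 ^ I * z) (2 * (2 ^ I * z))).filter (fun p => p.Prime ∧ cr χ p = 1), 1 / (p : ℝ) ≤ 1 / ((2 ^ I * z : ℕ) : ℝ) := by
          intro p hp
          rw [mem_filter, mem_Ioc] at hp
          exact one_div_le_one_div_of_le hx0 (by exact_mod_cast hp.1.1.le)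
        refine (sum_le_sum h7).trans ?_
        rw [sum_const, nsmul_eq_mul]
        calc (((Ioc (2 ^ I * z) (2 * (2 ^ I * z))).filter (fun p => p.Prime ∧ cr χ p = 1)).card : ℝ) * (1 / ((2 ^ I * z : ℕ) : ℝ)) ≤
              (K * ((2 ^ I * z : ℕ) : ℝ) / Real.log M * ell z χ) * (1 / ((2 ^ I * z : ℕ) : ℝ)) :=
              mul_le_mul_of_nonneg_right h5 (by positivity)
          _ = K / Real.log M * ell z χ := by field_simp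
      push_cast
      linarith
  set I := A3 * (Nat.log 2 M + 1) with hI
  have hI1 : M ^ A3 ≤ 2 ^ I * z := by
    calc M ^ A3 ≤ (2 ^ (Nat.log 2 M + 1)) ^ A3 := Nat.pow_le_pow_left (Nat.lt_pow_succ_log_self (by norm_num) M).le _
      _ = 2 ^ I := by rw [← pow_mul, hI, mul_comm]
      _ ≤ 2 ^ I * z := Nat.le_mul_of_pos_right _ hz0
  have h8 : ∑ p ∈ (Ioc z (M ^ A3)).filter (fun p => p.Prime ∧ cr χ p = 1), 1 / (p : ℝ) ≤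
      ∑ p ∈ (Ioc z (2 ^ I * z)).filter (fun p => p.Prime ∧ cr χ p = 1), 1 / (p : ℝ) := by
    apply sum_le_sum_of_subset_of_nonneg
    · apply filter_subset_filter
      exact Ioc_subset_Ioc_right hI1
    · intro p _ _
      positivity
  refine h8.trans ((key I).trans ?_)
  have hIr : (I : ℝ) ≤ (3 * A3 + 1) * Real.log M := by
    have h9 : (Nat.log 2 M : ℝ) * Real.log 2 ≤ Real.log M := by
      have k3 : ((2 : ℝ) ^ Nat.log 2 M) ≤ M := by exact_mod_cast Nat.pow_log_le_self 2 (by omega)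
      have k4 := Real.log_le_log (by positivity) k3
      rwa [Real.log_pow] at k4
    have h10 := Real.log_two_gt_d9
    have h11 : (Nat.log 2 M : ℝ) ≤ 2 * Real.log M := by
      have : (0 : ℝ) ≤ (Nat.log 2 M : ℝ) := Nat.cast_nonneg _
      nlinarith
    rw [hI]
    push_cast
    have h12 : (0 : ℝ) ≤ A3 := Nat.cast_nonneg _
    nlinarith
  calc (I : ℝ) * (K / Real.log M * ell z χ) ≤ ((3 * A3 + 1) * Real.log M) * (K / Real.log M * ell z χ) := by gcongr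
    _ = K * (3 * A3 + 1) * ell z χ := by
        field_simp


open Classical in
/-- the sieve situation: `H p` are the forbidden classes of `t` modulo `p`, the primes are `Q t + B` -/
structure Sit (κ : ℕ) (δ T : ℝ) (Q B w : ℕ) (H : ℕ → Finset ℕ) (Sq : ℕ → ℕ → Prop) : Prop where
  hB1 : 1 ≤ B
  hBQ : B ≤ Q
  hco : B.Coprime Q
  hQ : Q ≤ ⌊Real.exp (δ * T)⌋₊ ^ 2
  hwM : wM ⌊Real.exp (δ * T)⌋₊ ≤ w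
  hw1 : T ≤ (w : ℝ) ^ 2
  hw2 : (w : ℝ) ≤ T
  hwQ : ∀ p : ℕ, p.Prime → p ≤ w → p ∣ Q
  hH : ∀ p : ℕ, p.Prime → w < p → H p ⊆ range p ∧ (H p).card ≤ κ ∧ ∀ c ∈ H p, ¬ p ∣ Q * c + B
  hSq : ∀ p n : ℕ, p ∈ pr ⌊Real.exp T⌋₊ (1 / 8) (17 / 50) → (((range n).filter (fun t => Sq p t)).card : ℝ) ≤ (n : ℝ) / (p : ℝ) ^ 2 + 3

open Classical in
/-- the conclusion: there are more than `exp (99/100 T)` good `t` -/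
def Good (T : ℝ) (Q B w : ℕ) (H : ℕ → Finset ℕ) (Sq : ℕ → ℕ → Prop) : Prop :=
  ∀ G : Finset ℕ, (G.card : ℝ) ≤ Real.exp (99 / 100 * T) → ∃ t : ℕ, t ∉ G ∧ (Q * t + B).Prime ∧ Real.exp (T / 2) < ((Q * t + B : ℕ) : ℝ) ∧ ((Q * t + B : ℕ) : ℝ) ≤ 3 * Real.exp (101 / 100 * T) ∧
    (∀ p : ℕ, p.Prime → w < p → tt ⌊Real.exp T⌋₊ p < 1 / 8 → t % p ∉ H p) ∧
    ((pr ⌊Real.exp T⌋₊ (1 / 8) (17 / 50)).filter (fun p => t % p ∈ H p)).card ≤ 1 ∧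
    ∀ p ∈ pr ⌊Real.exp T⌋₊ (1 / 8) (17 / 50), ¬ Sq p t

/-- the situation without a very exceptional character with `χ(B) = 1` -/
def S_NPW : Prop := ∀ κ : ℕ, ∃ ε₁ η CE : ℝ, 0 < ε₁ ∧ ε₁ ≤ 1 / 8 ∧ 0 < η ∧ 0 < CE ∧
  ∀ c2 : ℝ, 0 < c2 → c2 ≤ 1 → ∃ δ0 : ℝ, 0 < δ0 ∧ ∀ δ : ℝ, 0 < δ → δ ≤ δ0 → ∃ T0 : ℝ, ∀ T : ℝ, T0 ≤ T →
  ∀ (Q B w : ℕ) [NeZero Q] (H : ℕ → Finset ℕ) (Sq : ℕ → ℕ → Prop), Sit κ δ T Q B w H Sq →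
  Mer (pr ⌊Real.exp T⌋₊ ε₁ (17 / 50)) (tt ⌊Real.exp T⌋₊) (fun p => ((H p).card : ℝ) / ((p : ℝ) - 1)) ε₁ (17 / 50) η →
  (∃ χ : DirichletCharacter ℂ Q, χ ≠ 1 ∧ χ ^ 2 = 1 ∧ cr χ B = 1 ∧ ell (⌊Real.exp (δ * T)⌋₊ ^ 32) χ ≤ CE * c2 * δ) ∨
    Good T Q B w H Sq

/-- the situation with a very exceptional character with `χ(B) = 1` -/
def S_PW : Prop := ∀ κ : ℕ, ∃ ε₁ η c3 : ℝ, 0 < ε₁ ∧ ε₁ ≤ 1 / 8 ∧ 0 < η ∧ 0 < c3 ∧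
  ∃ δ0 : ℝ, 0 < δ0 ∧ ∀ δ : ℝ, 0 < δ → δ ≤ δ0 → ∃ T0 : ℝ, ∀ T : ℝ, T0 ≤ T →
  ∀ (Q B w : ℕ) [NeZero Q] (H : ℕ → Finset ℕ) (Sq : ℕ → ℕ → Prop), Sit κ δ T Q B w H Sq →
  Mer (pr ⌊Real.exp T⌋₊ ε₁ (17 / 50)) (tt ⌊Real.exp T⌋₊) (fun p => ((H p).card : ℝ) / ((p : ℝ) - 1)) ε₁ (17 / 50) η →
  ∀ χ : DirichletCharacter ℂ Q, χ ≠ 1 → χ ^ 2 = 1 → cr χ B = 1 → ell (⌊Real.exp (δ * T)⌋₊ ^ 32) χ ≤ c3 * δ →
    Good T Q B w H Sq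

/-- the fundamental lemma for the weights `1 * χ` -/
def S_fund2 : Prop := ∀ κ : ℕ, ∃ e0 : ℝ, 0 < e0 ∧ e0 ≤ 1 / 200 ∧ ∀ ε₂ : ℝ, 0 < ε₂ → ε₂ ≤ e0 → ∃ N0 : ℕ,
  ∀ (Y w q : ℕ) [NeZero q] (χ : DirichletCharacter ℂ q) (P : Finset ℕ), N0 ≤ Y → N0 ≤ w →
  (q : ℝ) ≤ (Y : ℝ) ^ (ε₂ / 100) → χ ≠ 1 → χ ^ 2 = 1 → (∀ p ∈ P, p.Prime ∧ w < p ∧ (p : ℝ) ≤ (Y : ℝ) ^ ε₂) →
  ∀ (B : ℕ) (H : ℕ → Finset ℕ), 1 ≤ B → B ≤ q → B.Coprime q → cr χ B = 1 →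
  (∀ p ∈ P, H p ⊆ range p ∧ (H p).card ≤ κ ∧ (¬ p ∣ q → ∃ c ∈ H p, p ∣ q * c + B)) →
  (Y : ℝ) ^ (-(ε₂ / 10)) ≤ LV χ * VV χ P H ∧
  ∀ T0 : ℕ, (Y : ℝ) ^ (48 / 100 : ℝ) ≤ T0 →
    |SS χ B T0 P H - 2 * (T0 * (LV χ * VV χ P H))| ≤ (T0 * (LV χ * VV χ P H)) / 4

open Classical in
/-- the composite values -/
def S_comps : Prop := ∀ κ : ℕ, ∃ e0 K : ℝ, 0 < e0 ∧ e0 ≤ 1 / 200 ∧ 0 < K ∧ ∀ ε₂ : ℝ, 0 < ε₂ → ε₂ ≤ e0 →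
  ∀ δ : ℝ, 0 < δ → δ ≤ ε₂ / 1000 → ∃ T0 : ℝ, ∀ T : ℝ, T0 ≤ T →
  ∀ (w q : ℕ) [NeZero q] (χ : DirichletCharacter ℂ q), wM ⌊Real.exp (δ * T)⌋₊ ≤ w →
  (∀ p : ℕ, p.Prime → p ≤ w → p ∣ q) → q ≤ ⌊Real.exp (δ * T)⌋₊ ^ 2 → χ ≠ 1 → χ ^ 2 = 1 →
  ∀ (P : Finset ℕ) (B : ℕ) (H : ℕ → Finset ℕ),
  P = (Icc 1 ⌊Real.exp T⌋₊).filter (fun p => p.Prime ∧ w < p ∧ (p : ℝ) ≤ ((⌊Real.exp T⌋₊ : ℕ) : ℝ) ^ ε₂) →
  1 ≤ B → B ≤ q → B.Coprime q → cr χ B = 1 →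
  (∀ p ∈ P, H p ⊆ range p ∧ (H p).card ≤ κ ∧ (¬ p ∣ q → ∃ c ∈ H p, p ∣ q * c + B)) →
  ((⌊Real.exp T⌋₊ : ℕ) : ℝ) ^ (-(ε₂ / 10)) ≤ LV χ * VV χ P H ∧
  (∀ t < ⌊Real.exp T⌋₊, (∀ p ∈ P, t % p ∉ H p) → rr χ (q * t + B) ≤ 2 ^ ⌊2 / ε₂⌋₊) ∧
  ∑ t ∈ (range ⌊Real.exp T⌋₊).filter (fun t => (∀ p ∈ P, t % p ∉ H p) ∧ ¬ (q * t + B).Prime), rr χ (q * t + B) ≤
    (K / δ * ell (⌊Real.exp (δ * T)⌋₊ ^ 32) χ + ((⌊Real.exp T⌋₊ : ℕ) : ℝ) ^ (-(ε₂ / 2))) *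
      (((⌊Real.exp T⌋₊ : ℕ) : ℝ) * (LV χ * VV χ P H))

/-- products over the primes between two powers -/
def S_ratio : Prop := ∀ (κ : ℕ) (ε₂ : ℝ), 0 < ε₂ → ∃ c : ℝ, 0 < c ∧ ∃ Y0 : ℕ, ∀ Y : ℕ, Y0 ≤ Y →
  ∀ (A : Finset ℕ) (g : ℕ → ℝ), (∀ p ∈ A, p.Prime ∧ (Y : ℝ) ^ ε₂ < p ∧ p ≤ Y) → (∀ p ∈ A, 0 ≤ g p ∧ g p ≤ κ / (p : ℝ)) →
  c ≤ ∏ p ∈ A, (1 - g p)

open Classical in
/-- the weighted linear sieve for the weights `1 * χ`: PROVED (helper734) -/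
def S_plusAK : Prop := ∀ κ : ℕ, ∃ ε₁ η c₀ : ℝ, 0 < ε₁ ∧ ε₁ ≤ 1 / 8 ∧ 0 < η ∧ 0 < c₀ ∧
    ∃ Y0 : ℕ, ∀ Y : ℕ, Y0 ≤ Y → ∀ (Q : ℕ) [NeZero Q] (χ : DirichletCharacter ℂ Q) (B : ℕ) (H : ℕ → Finset ℕ)
      (P : Finset ℕ), χ ≠ 1 → χ ^ 2 = 1 → 1 ≤ B → B ≤ Q → B.Coprime Q → cr χ B = 1 →
    (Q : ℝ) ≤ (Y : ℝ) ^ (1 / 10000 : ℝ) → P ⊆ PZ Y (17 / 50) → (∀ p ∈ P, 4 * κ + 4 ≤ p) →
    (∀ p ∈ P, H p ⊆ range p ∧ (H p).card ≤ κ) →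
    Mer (pr Y ε₁ (17 / 50)) (tt Y) (fun p => if p ∈ P then gg χ B H p else 0) ε₁ (17 / 50) η →
    c₀ * (Y * (LV χ * ∏ p ∈ P.filter (fun p => tt Y p < 1 / 8), (1 - gg χ B H p))) ≤
      ∑ t ∈ (range Y).filter (fun t => ∀ p ∈ P, tt Y p < 1 / 8 → t % p ∉ H p),
        rr χ (Q * t + B) * (1 - (1 / 2) * ((P.filter (fun p => 1 / 8 ≤ tt Y p ∧ t % p ∈ H p)).card : ℝ))

/-- Mertens with exceptions: PROVED (helper721) -/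
def S_MerX : Prop := ∀ (ε₁ η : ℝ) (κ CE : ℕ), 0 < ε₁ → ε₁ ≤ 1 / 8 → 0 < η → ∃ Y0 : ℕ, ∀ Y : ℕ, Y0 ≤ Y →
    ∀ (h : ℕ → ℝ) (E : ℕ), E ≠ 0 → (E : ℝ) ≤ (Y : ℝ) ^ CE →
    (∀ p ∈ pr Y ε₁ (17 / 50), ¬ p ∣ E → |h p - 1 / ((p : ℝ) - 1)| ≤ κ / (p : ℝ) ^ 2) →
    (∀ p ∈ pr Y ε₁ (17 / 50), p ∣ E → 0 ≤ h p ∧ h p ≤ κ / ((p : ℝ) - 1)) →
    Mer (pr Y ε₁ (17 / 50)) (tt Y) h ε₁ (17 / 50) η

/-- the main theorem: a prime value of `c n + d`, the forms `a_i n + b_i` free of small primes, one of them a `P₃` -/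
def S_U3 : Prop := ∀ k : ℕ, ∃ δ ε T0 : ℝ, 0 < δ ∧ 0 < ε ∧ ∀ T : ℝ, T0 ≤ T →
  ∀ (c d : ℕ) (a b : Fin k → ℤ) (i0 : Fin k), 1 ≤ d → d ≤ c → (c : ℝ) ≤ Real.exp (δ * T) →
  a i0 ≠ 0 → (c : ℤ) * b i0 ≠ d * a i0 → |((a i0 : ℤ) : ℝ)| ≤ Real.exp (T / 500) →
  |((b i0 : ℤ) : ℝ)| ≤ Real.exp (1019 / 1000 * T) →
  (∀ p : ℕ, p.Prime → ∃ n : ℕ, ¬ p ∣ c * n + d ∧ ∀ i, ¬ (p : ℤ) ∣ a i * n + b i) →
  ∀ G : Finset ℕ, (G.card : ℝ) ≤ Real.exp (99 / 100 * T) → ∃ n : ℕ, n ∉ G ∧ (c * n + d).Prime ∧ Real.exp (T / 2) < ((c * n + d : ℕ) : ℝ) ∧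
    ((c * n + d : ℕ) : ℝ) ≤ 3 * Real.exp (101 / 100 * T) ∧
    (∀ i, ∀ p : ℕ, p.Prime → (p : ℝ) ≤ Real.exp (ε * T) → ¬ (p : ℤ) ∣ a i * n + b i) ∧
    (∀ p : ℕ, p.Prime → (p : ℝ) ≤ Real.exp (T / 9) → ¬ (p : ℤ) ∣ a i0 * n + b i0) ∧
    1 < (a i0 * n + b i0).natAbs ∧ ArithmeticFunction.cardFactors (a i0 * n + b i0).natAbs ≤ 3

end Pool.Agent.H536.OC
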