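import Mathlib
import Pool.Agent.H536.OC.C16
import Pool.Agent.H536.OC.SubA
import Pool.Agent.H536.OC.Wd

open Finset Filter Topology

/-! Lemmas for the final assembly. -/

namespace Pool.Agent.H536.OC

open Pool.Agent.Y882 Pool.Agent.W23.DC Pool.Agent.H536.OB
open SubC (WS)

open Classical in
/-- the elements which are not good -/
theorem split_bd {S : Finset ℕ} {ω : ℕ → ℝ} (hω : ∀ t, 0 ≤ ω t) {A Np : ℕ → Prop} {cnt : ℕ → ℝ} (hcnt : ∀ t, 0 ≤ cnt t)
    {SS BB : Finset ℕ} {Sq g : ℕ → ℕ → Prop}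
    (h : ∀ t ∈ S, A t → ω t ≠ 0 → ¬ Np t → (∀ p ∈ SS, ¬ Sq p t) → (∀ p ∈ BB, ¬ g p t) → 2 ≤ cnt t) :
    ∑ t ∈ S.filter A, ω t * (1 - (1 / 2) * cnt t) ≤
      ∑ t ∈ S.filter Np, ω t + ∑ p ∈ SS, ∑ t ∈ S.filter (fun t => Sq p t), ω t + ∑ p ∈ BB, WS S ω g {p} := by
  have e1 : ∑ t ∈ S.filter Np, ω t = ∑ t ∈ S, (if Np t then ω t else 0) := by rw [sum_filter]
  have e2 : ∑ p ∈ SS, ∑ t ∈ S.filter (fun t => Sq p t), ω t = ∑ t ∈ S, ∑ p ∈ SS, (if Sq p t then ω t else 0) := by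
    rw [sum_comm]
    exact sum_congr rfl fun p _ => by rw [sum_filter]
  have e3 : ∑ p ∈ BB, WS S ω g {p} = ∑ t ∈ S, ∑ p ∈ BB, (if g p t then ω t else 0) := by
    rw [sum_comm]
    apply sum_congr rfl
    intro p _
    unfold WS
    rw [sum_filter]
    apply sum_congr rfl
    intro t _
    simp
  rw [e1, e2, e3, ← sum_add_distrib, ← sum_add_distrib, sum_filter]
  apply sum_le_sum
  intro t ht
  have hn1 : 0 ≤ (if Np t then ω t else 0) := by split_ifs; exacts [hω t, le_rfl]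
  have hn2 : 0 ≤ ∑ p ∈ SS, (if Sq p t then ω t else 0) := sum_nonneg fun p _ => by split_ifs; exacts [hω t, le_rfl]
  have hn3 : 0 ≤ ∑ p ∈ BB, (if g p t then ω t else 0) := sum_nonneg fun p _ => by split_ifs; exacts [hω t, le_rfl]
  by_cases hA : A t
  · rw [if_pos hA]
    have hle : ω t * (1 - (1 / 2) * cnt t) ≤ ω t := by
      have := mul_nonneg (hω t) (hcnt t)
      nlinarith
    by_cases h0 : ω t = 0
    · rw [h0] at hle ⊢
      simp
    by_cases h1 : Np t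
    · rw [if_pos h1] at hn1 ⊢
      linarith
    by_cases h2 : ∃ p ∈ SS, Sq p t
    · obtain ⟨p, hp, hs⟩ := h2
      have h3 := single_le_sum (f := fun p => if Sq p t then ω t else 0) (fun p _ => by
        split_ifs
        exacts [hω t, le_rfl]) hp
      simp only [hs, if_true] at h3
      linarith
    by_cases h4 : ∃ p ∈ BB, g p t
    · obtain ⟨p, hp, hs⟩ := h4
      have h3 := single_le_sum (f := fun p => if g p t then ω t else 0) (fun p _ => by
        split_ifs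
        exacts [hω t, le_rfl]) hp
      simp only [hs, if_true] at h3
      linarith
    push Not at h2 h4
    have h5 := h t ht hA h0 h1 h2 h4
    have h6 : ω t * (1 - (1 / 2) * cnt t) ≤ 0 := mul_nonpos_of_nonneg_of_nonpos (hω t) (by linarith)
    linarith
  · rw [if_neg hA]
    linarith

/-- lower bound of the product -/
theorem VP_low (κ : ℕ) : ∃ c : ℝ, 0 < c ∧ ∀ (P : Finset ℕ) (x : ℕ → ℕ) (z : ℕ), 2 ≤ z →
    (∀ p ∈ P, p.Prime ∧ 2 * κ + 2 ≤ p ∧ p ≤ z) → (∀ p ∈ P, x p ≤ κ) →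
    (c / Real.log z) ^ (2 * κ) ≤ ∏ p ∈ P, (1 - (x p : ℝ) / ((p : ℝ) - 1)) := by
  obtain ⟨c, hc, h⟩ := VF_low κ
  refine ⟨c, hc, fun P x z hz hP hx => ?_⟩
  have h1 := h P (fun p => range (x p)) z hz hP (fun p hp => by rw [card_range]; exact hx p hp)
  refine h1.trans (le_of_eq ?_)
  unfold VF
  apply prod_congr rfl
  intro p _
  rw [card_range, mul_one_div]

/-- the primes of the big ranges -/
theorem pr_facts {T : ℝ} (hT : 20 ≤ T) {ε : ℝ} {p : ℕ} (hp : p ∈ pr ⌊Real.exp T⌋₊ ε (17 / 50)) :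
    p.Prime ∧ (p : ℝ) ≤ Real.exp (17 / 50 * T) ∧ (Real.exp T / 2) ^ ε ≤ (p : ℝ) ∨ ε < 0 := by
  by_cases hε : ε < 0
  · exact Or.inr hε
  left
  push Not at hε
  unfold pr at hp
  rw [mem_filter, mem_Icc] at hp
  obtain ⟨⟨h1, h2⟩, h3, h4, h5⟩ := hp
  set Y := ⌊Real.exp T⌋₊ with hY
  have hexp : (20 : ℝ) ≤ Real.exp T := by
    have := Real.add_one_le_exp T
    linarith
  have hYle : (Y : ℝ) ≤ Real.exp T := Nat.floor_le (by positivity)
  have hYlt : Real.exp T < Y + 1 := Nat.lt_floor_add_one _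
  have hY2 : Real.exp T / 2 ≤ Y := by linarith
  have hY2r : (2 : ℝ) ≤ Y := by linarith
  have hY2n : 2 ≤ Y := by exact_mod_cast hY2r
  have hY0 : (0 : ℝ) < Y := by linarith
  refine ⟨h3, ?_, ?_⟩
  · have h6 := ((tt_lt Y p (17 / 50) hY2n h3.pos).1 h5).le
    refine h6.trans ?_
    calc (Y : ℝ) ^ (17 / 50 : ℝ) ≤ (Real.exp T) ^ (17 / 50 : ℝ) := Real.rpow_le_rpow hY0.le hYle (by norm_num)
      _ = Real.exp (17 / 50 * T) := by rw [← Real.exp_mul]; ring_nf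
  · have h6 : ¬ (p : ℝ) < (Y : ℝ) ^ ε := fun h => not_lt.2 h4 ((tt_lt Y p ε hY2n h3.pos).2 h)
    push Not at h6
    refine le_trans ?_ h6
    exact Real.rpow_le_rpow (by positivity) hY2 hε

end Pool.Agent.H536.OC
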