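import Mathlib
import Pool.Agent.H536.OC.C17

open Finset Filter Topology

/-! The world without a very exceptional character. -/

namespace Pool.Agent.H536.OC

open Pool.Agent.Y882 Pool.Agent.W23.DC Pool.Agent.H536.OB
open SubC (WS)

/-- the final numerical comparison -/
theorem fin_num {F φ MM cM T E0 ε ε' ρ c₀ C₀ X3 Pr cmid V cV Y30 K m1 m2 m3 S3 : ℝ}
    (hF : F = 1 / φ) (hφ : 0 < φ) (hc₀ : 0 < c₀) (hC₀ : 0 < C₀) (hcmid : 0 < cmid) (hcM : 0 < cM) (hT : 0 < T) (hE0 : 0 < E0)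
    (hMM : cM * T ≤ MM) (hε0 : 0 < ε) (hε' : ε' = ε * T) (hε1 : ε ≤ cM) (hε2 : ε * (8 * E0) ≤ cM * cmid) (hρ : ρ * (8 * C₀) ≤ c₀ * cmid) (hρ0 : 0 ≤ ρ)
    (hX3 : X3 * (8 * C₀) ≤ c₀ * cM * cmid * T)
    (hPr : cmid ≤ Pr) (hV : V ≥ cV) (hcV : 0 ≤ cV)
    (hmain : F * ((c₀ * (MM * Pr - ε' * E0) - C₀ * ((MM + ε') * ρ) - C₀ * X3) * V - Y30) ≤ m1 + m2 + m3)
    (hm3 : m3 ≤ K * F) (hphi : φ * (m1 + m2) ≤ S3)
    (hfin : Y30 + K + S3 < c₀ * cmid * cM / 2 * T * cV) : False := by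
  have hMM0 : 0 < MM := lt_of_lt_of_le (by positivity) hMM
  have h1 : ε * T ≤ MM := by nlinarith
  have h2 : c₀ * cmid * cM / 2 * T ≤ c₀ * (MM * Pr - ε' * E0) - C₀ * ((MM + ε') * ρ) - C₀ * X3 := by
    have k1 : c₀ * (MM * cmid) ≤ c₀ * (MM * Pr) := by gcongr
    have k2 : c₀ * (ε' * E0) ≤ c₀ * cmid * MM / 8 := by
      rw [hε']
      have : ε * T * (8 * E0) ≤ cM * cmid * T := by nlinarith
      have k3 : cM * cmid * T ≤ cmid * MM := by nlinarith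
      have k4 : ε * T * E0 ≤ cmid * MM / 8 := by linarith
      calc c₀ * (ε * T * E0) ≤ c₀ * (cmid * MM / 8) := by gcongr
        _ = _ := by ring
    have k5 : C₀ * ((MM + ε') * ρ) ≤ c₀ * cmid * MM / 4 := by
      rw [hε']
      calc C₀ * ((MM + ε * T) * ρ) ≤ C₀ * ((MM + MM) * ρ) := by gcongr
        _ = MM / 4 * (ρ * (8 * C₀)) := by ring
        _ ≤ MM / 4 * (c₀ * cmid) := by gcongr
        _ = _ := by ring
    have k6 : C₀ * X3 ≤ c₀ * cmid * MM / 8 := by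
      have : c₀ * cM * cmid * T ≤ c₀ * cmid * MM := by
        calc c₀ * cM * cmid * T = c₀ * cmid * (cM * T) := by ring
          _ ≤ c₀ * cmid * MM := by gcongr
      linarith
    have k7 : c₀ * cmid * cM / 2 * T ≤ c₀ * cmid * MM / 2 := by
      calc c₀ * cmid * cM / 2 * T = c₀ * cmid / 2 * (cM * T) := by ring
        _ ≤ c₀ * cmid / 2 * MM := by gcongr
        _ = _ := by ring
    nlinarith
  have h3 : c₀ * cmid * cM / 2 * T * cV ≤ (c₀ * (MM * Pr - ε' * E0) - C₀ * ((MM + ε') * ρ) - C₀ * X3) * V := by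
    apply mul_le_mul h2 hV hcV
    exact le_trans (by positivity) h2
  have h4 : φ * F = 1 := by rw [hF]; field_simp
  have h5 : (c₀ * (MM * Pr - ε' * E0) - C₀ * ((MM + ε') * ρ) - C₀ * X3) * V - Y30 ≤ φ * (m1 + m2 + m3) := by
    have := mul_le_mul_of_nonneg_left hmain hφ.le
    rwa [← mul_assoc, h4, one_mul] at this
  have h6 : φ * m3 ≤ K := by
    calc φ * m3 ≤ φ * (K * F) := by gcongr
      _ = K * (φ * F) := by ring
      _ = K := by rw [h4, mul_one]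
  have h7 : φ * (m1 + m2 + m3) = φ * (m1 + m2) + φ * m3 := by ring
  linarith

end Pool.Agent.H536.OC
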