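import Mathlib
import Pool.Agent.H536.OC.C19

open Finset Filter Topology

/-! The world without a very exceptional character: assembly. -/

namespace Pool.Agent.H536.OC

open Pool.Agent.Y882 Pool.Agent.W23.DC Pool.Agent.H536.OB
open SubC (WS)

open Classical in
theorem NPW : S_NPW := by
  intro κ
  obtain ⟨ε₁, η, c₀, C₀, hε₁, hε₁8, hη, hc₀, hC₀, Y0, hML⟩ := SubC.ML (fun κ => AK κ) κ
  obtain ⟨CE, hCE, hDT⟩ := DT
  obtain ⟨CJ, hCJ, hJup⟩ := JJ_up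
  obtain ⟨Cm, hCm, hmid⟩ := mid_sum
  obtain ⟨cV, hcV, hVP⟩ := VP_low κ
  obtain ⟨C0', hinp2⟩ := inp2 κ (2 * κ + 2)
  obtain ⟨C1, hC1def⟩ : ∃ C1 : ℕ, C1 = max C0' (2 * κ + 3) := ⟨_, rfl⟩
  have hC1a : C0' ≤ C1 := by omega
  have hC1b : 2 * κ + 3 ≤ C1 := by omega
  obtain ⟨lam0, hlam0⟩ : ∃ lam0 : ℝ, lam0 = κ * (2 * (Real.log (2 * C1) + Cm)) := ⟨_, rfl⟩
  obtain ⟨cmid, hcmid⟩ : ∃ c, c = Real.exp (-(2 * lam0)) := ⟨_, rfl⟩
  have hcmid0 : 0 < cmid := by rw [hcmid]; exact Real.exp_pos _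
  obtain ⟨r, hr⟩ : ∃ r : ℕ, lam0 ^ (2 * r + 1) / (2 * r + 1).factorial ≤ c₀ * cmid / (8 * C₀) := by
    have h1 := FloorSemiring.tendsto_pow_div_factorial_atTop lam0
    have h2 := h1.eventually (gt_mem_nhds (by positivity : 0 < c₀ * cmid / (8 * C₀)))
    obtain ⟨n0, hn0⟩ := eventually_atTop.1 h2
    exact ⟨n0, (hn0 (2 * n0 + 1) (by omega)).le⟩
  refine ⟨ε₁, η, 32 * CE, hε₁, hε₁8, hη, by positivity, ?_⟩
  intro c2 hc2 hc21
  obtain ⟨cM, hcM⟩ : ∃ c : ℝ, c = c2 / 100000000 := ⟨_, rfl⟩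
  have hcM0 : 0 < cM := by rw [hcM]; positivity
  obtain ⟨ε, hεdef⟩ : ∃ ε : ℝ, ε = min cM (cM * cmid / (8 * Real.exp lam0)) := ⟨_, rfl⟩
  have hε : 0 < ε := by rw [hεdef]; positivity
  have hε1 : ε ≤ cM := by rw [hεdef]; exact min_le_left _ _
  have hε2 : ε ≤ cM * cmid / (8 * Real.exp lam0) := by rw [hεdef]; exact min_le_right _ _
  obtain ⟨N', δd, T0d, hN', hδd, hT0d, hD⟩ := hDT c2 hc2 hc21 ε hε
  refine ⟨min (δd / 32) (min (1 / 300000) (ε₁ / 4)), by positivity, ?_⟩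
  intro δ hδ hδle
  have hδ1 : 32 * δ ≤ δd := by
    have := hδle.trans (min_le_left _ _)
    linarith
  have hδ2 : δ ≤ 1 / 300000 := hδle.trans ((min_le_right _ _).trans (min_le_left _ _))
  have hδ3 : δ ≤ ε₁ / 4 := hδle.trans ((min_le_right _ _).trans (min_le_right _ _))
  obtain ⟨W0, hW0⟩ : ∃ W0 : ℝ, W0 = max (4 * (κ : ℝ) + 4) (8 * C₀ * κ * CJ / (c₀ * cM * cmid)) := ⟨_, rfl⟩
  obtain ⟨m, hm⟩ : ∃ m : ℕ, m = C1 * (2 * r + 1) := ⟨_, rfl⟩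
  have hev := facts16 κ C1 m Y0 ε₁ δ W0 (Real.exp lam0) (2 * κ * CJ) (c₀ * cmid * cM / 2 * cV ^ (2 * κ)) hε₁ (by linarith) hδ hδ3
    (Real.exp_pos _) (by positivity) (by positivity)
  obtain ⟨T1, hT1⟩ := eventually_atTop.1 (hev.and ((hinp2 C1 hC1a).and (eventually_ge_atTop T0d)))
  refine ⟨T1, fun T hT Q B w _ H Sq hS hMer => ?_⟩
  obtain ⟨⟨hT20, hY0, hM3, hTm, hTC1, hQε, hWT, hfin⟩, hin2, hTd⟩ := hT1 T hT
  have hT0 : 0 < T := by linarith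
  obtain ⟨M, hM⟩ : ∃ M : ℕ, M = ⌊Real.exp (δ * T)⌋₊ := ⟨_, rfl⟩
  have hM3' : 3 ≤ M := by rw [hM]; exact Nat.le_floor (by exact_mod_cast hM3)
  have hMle : (M : ℝ) ≤ Real.exp (δ * T) := by rw [hM]; exact Nat.floor_le (Real.exp_pos _).le
  have hMr : (3 : ℝ) ≤ M := by exact_mod_cast hM3'
  have hQM : Q ≤ M ^ 2 := by rw [hM]; exact hS.hQ
  have hz32 : 32 ≤ M ^ 32 := by
    calc 32 ≤ 3 ^ 32 := by norm_num
      _ ≤ M ^ 32 := Nat.pow_le_pow_left hM3' 32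
  have hQDD : (Q * M * M) ^ 8 ≤ M ^ 32 := by
    calc (Q * M * M) ^ 8 ≤ (M ^ 2 * M * M) ^ 8 := by gcongr
      _ = M ^ 32 := by ring
  have hlM : Real.log M ≤ δ * T := by
    rw [Real.log_le_iff_le_exp (by linarith)]
    exact hMle
  have hlogz : Real.log ((M ^ 32 : ℕ) : ℝ) ≤ 32 * (δ * T) := by
    push_cast
    rw [Real.log_pow]
    push_cast
    linarith
  rcases hD (M ^ 32) Q M B T hz32 (by omega) hQDD hS.hco hTd (hlogz.trans (by nlinarith)) with ⟨MM, l1, hMM, hl1, hJ⟩ | ⟨χ, h1, h2, h3, h4⟩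
  · right
    have hMM' : cM * T ≤ MM := by
      rw [hcM]
      calc c2 / 100000000 * T = c2 * T / 100000000 := by ring
        _ ≤ MM := hMM
    rw [hM] at hJ
    exact npw_main hε₁ hε₁8 hc₀ hC₀ hCJ hCm hcV hML hJup hmid hVP hC1b hlam0 hcmid hr hcM0 hε hε1 hε2 hδ hδ2 hm
      (by rw [hW0]; exact le_max_left _ _) (by rw [hW0]; exact le_max_right _ _) rfl hT20 hY0 hTm hTC1 hQε hWT hfin hin2 hS hMer
      (by positivity : 0 < 4 * N') hMM' hl1 hJ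
  · left
    refine ⟨χ, h1, h2, h3, ?_⟩
    rw [← hM]
    refine h4.trans ?_
    have h5 : Real.log ((M ^ 32 : ℕ) : ℝ) / T ≤ 32 * δ := by
      rw [div_le_iff₀ hT0]
      linarith
    calc CE * c2 * (Real.log ((M ^ 32 : ℕ) : ℝ) / T) ≤ CE * c2 * (32 * δ) := by gcongr
      _ = _ := by ring

end Pool.Agent.H536.OC
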