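import Mathlib
import Pool.Agent.H536.OC.Wd

open Finset Filter Topology

/-! Subtask (helper536), proved by helper344: the W-trick and the combination of the two worlds. -/

namespace Pool.Agent.H536.OC

open Pool.Agent.Y882 Pool.Agent.W23.DC Pool.Agent.H536.OB
open Pool.Agent.H318R2.Cr (V Pz mem_Pz V_pos cz_bounds one_sub_inv_pos)
open Pool.Agent.H262R3.Lk (wM)

namespace U3X

theorem tr_nat {p x y c d : ℕ} (h : x ≡ y [MOD p]) (hd : p ∣ c * x + d) : p ∣ c * y + d := by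
  have h1 : c * x + d ≡ c * y + d [MOD p] := Nat.ModEq.add_right _ (Nat.ModEq.mul_left _ h)
  exact (Nat.modEq_zero_iff_dvd).1 (h1.symm.trans ((Nat.modEq_zero_iff_dvd).2 hd))

theorem tr_int {p x y : ℕ} {a b : ℤ} (h : x ≡ y [MOD p]) (hd : (p : ℤ) ∣ a * x + b) : (p : ℤ) ∣ a * y + b := by
  have h0 : (x : ℤ) ≡ y [ZMOD p] := (Int.natCast_modEq_iff).2 h
  have h1 : a * x + b ≡ a * y + b [ZMOD p] := Int.ModEq.add_right _ (Int.ModEq.mul_left _ h0)
  exact (Int.modEq_zero_iff_dvd).1 (h1.symm.trans ((Int.modEq_zero_iff_dvd).2 hd))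

theorem cnt_class {m n : ℕ} (S : Finset ℕ) (hS : S ⊆ range n)
    (hc : ∀ x ∈ S, ∀ y ∈ S, x % m = y % m) : (S.card : ℝ) ≤ (n : ℝ) / m + 1 := by
  have h1 : S.card ≤ n / m + 1 := by
    rw [← card_range (n / m + 1)]
    apply card_le_card_of_injOn (fun x => x / m)
    · intro x hx
      have := mem_range.1 (hS hx)
      rw [mem_coe, mem_range]
      exact Nat.lt_succ_of_le (Nat.div_le_div_right this.le)
    · intro x hx y hy h
      have h2 := hc x hx y hy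
      have h3 : x / m = y / m := h
      rw [← Nat.div_add_mod x m, ← Nat.div_add_mod y m, h2, h3]
  calc (S.card : ℝ) ≤ ((n / m + 1 : ℕ) : ℝ) := by exact_mod_cast h1
    _ ≤ (n : ℝ) / m + 1 := by
        push_cast
        have := @Nat.cast_div_le ℝ _ _ _ n m
        linarith

theorem lin_unique {m : ℕ} {A C : ℤ} (hA : IsCoprime (m : ℤ) A) {x y : ℕ} (hx : (m : ℤ) ∣ A * x + C)
    (hy : (m : ℤ) ∣ A * y + C) : x % m = y % m := by
  have h1 : (m : ℤ) ∣ A * ((x : ℤ) - y) := by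
    have := dvd_sub hx hy
    have e : A * (x : ℤ) + C - (A * y + C) = A * ((x : ℤ) - y) := by ring
    rwa [e] at this
  have h2 : (m : ℤ) ∣ (x : ℤ) - y := hA.dvd_of_dvd_mul_left h1
  have h3 : (y : ℤ) ≡ x [ZMOD m] := (Int.modEq_iff_dvd).2 h2
  exact ((Int.natCast_modEq_iff).1 h3).symm

theorem lin_exists {p : ℕ} (hp : p.Prime) {A : ℤ} (C : ℤ) (hA : ¬ (p : ℤ) ∣ A) :
    ∃ x < p, (p : ℤ) ∣ A * ((x : ℕ) : ℤ) + C := by
  haveI : Fact p.Prime := ⟨hp⟩
  have hA0 : (A : ZMod p) ≠ 0 := fun h => hA ((ZMod.intCast_zmod_eq_zero_iff_dvd A p).1 h)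
  refine ⟨(-(C : ZMod p) / A).val, ZMod.val_lt _, ?_⟩
  rw [← ZMod.intCast_zmod_eq_zero_iff_dvd]
  push_cast
  rw [ZMod.natCast_zmod_val]
  field_simp
  ring

theorem pcop {p : ℕ} (hp : p.Prime) {A : ℤ} (h : ¬ (p : ℤ) ∣ A) : IsCoprime (p : ℤ) A :=
  ((Nat.prime_iff_prime_int.1 hp).irreducible.coprime_iff_not_dvd).2 h

open Classical in
/-- the forbidden classes -/
noncomputable def HX {k : ℕ} (Q B W ν : ℕ) (a b : Fin k → ℤ) (i0 : Fin k) (z : ℝ) (p : ℕ) : Finset ℕ :=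
  (range p).filter (fun x => ¬ p ∣ Q * x + B ∧ ∃ i, (i = i0 ∨ Real.log p ≤ z) ∧ (p : ℤ) ∣ a i * ((W * x + ν : ℕ) : ℤ) + b i)

theorem mem_HX {k : ℕ} {Q B W ν : ℕ} {a b : Fin k → ℤ} {i0 : Fin k} {z : ℝ} {p x : ℕ} :
    x ∈ HX Q B W ν a b i0 z p ↔ x < p ∧ ¬ p ∣ Q * x + B ∧ ∃ i, (i = i0 ∨ Real.log p ≤ z) ∧ (p : ℤ) ∣ a i * ((W * x + ν : ℕ) : ℤ) + b i := by
  unfold HX
  rw [mem_filter, mem_range]

theorem HX_sub {k : ℕ} (Q B W ν : ℕ) (a b : Fin k → ℤ) (i0 : Fin k) (z : ℝ) (p : ℕ) :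
    HX Q B W ν a b i0 z p ⊆ range p := by
  intro x hx
  rw [mem_HX] at hx
  exact mem_range.2 hx.1

theorem one_class {W ν p : ℕ} {a b : ℤ} (hp : p.Prime) (hpW : ¬ p ∣ W) (h : ∃ n : ℕ, ¬ (p : ℤ) ∣ a * n + b) {x y : ℕ}
    (hxp : x < p) (hyp : y < p) (hx : (p : ℤ) ∣ a * ((W * x + ν : ℕ) : ℤ) + b) (hy : (p : ℤ) ∣ a * ((W * y + ν : ℕ) : ℤ) + b) : x = y := by
  have hpi := Nat.prime_iff_prime_int.1 hp
  by_cases ha : (p : ℤ) ∣ a
  · exfalso
    obtain ⟨n, hn⟩ := h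
    apply hn
    have h1 : (p : ℤ) ∣ b := (Int.dvd_add_right (ha.mul_right _)).1 hx
    exact dvd_add (ha.mul_right _) h1
  · have hW : ¬ (p : ℤ) ∣ (W : ℤ) := fun h => hpW (Int.natCast_dvd_natCast.1 h)
    have hA : ¬ (p : ℤ) ∣ a * W := fun h => (hpi.dvd_or_dvd h).elim ha hW
    have e : ∀ x : ℕ, a * ((W * x + ν : ℕ) : ℤ) + b = (a * W) * x + (a * ν + b) := by
      intro x
      push_cast
      ring
    rw [e] at hx hy
    have := lin_unique (pcop hp hA) hx hy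
    rwa [Nat.mod_eq_of_lt hxp, Nat.mod_eq_of_lt hyp] at this

theorem HX_card {k : ℕ} {Q B W ν : ℕ} {a b : Fin k → ℤ} {i0 : Fin k} {z : ℝ} {p : ℕ} (hp : p.Prime) (hpW : ¬ p ∣ W)
    (h : ∃ n : ℕ, ∀ i, ¬ (p : ℤ) ∣ a i * n + b i) : (HX Q B W ν a b i0 z p).card ≤ k := by
  classical
  have h1 : HX Q B W ν a b i0 z p ⊆ (univ : Finset (Fin k)).biUnion
      (fun i => (range p).filter (fun x => (p : ℤ) ∣ a i * ((W * x + ν : ℕ) : ℤ) + b i)) := by
    intro x hx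
    rw [mem_HX] at hx
    obtain ⟨hx1, _, i, _, hi⟩ := hx
    rw [mem_biUnion]
    exact ⟨i, mem_univ _, mem_filter.2 ⟨mem_range.2 hx1, hi⟩⟩
  refine (card_le_card h1).trans ?_
  refine (card_biUnion_le_card_mul _ _ 1 ?_).trans (by simp)
  intro i _
  rw [card_le_one]
  intro x hx y hy
  rw [mem_filter, mem_range] at hx hy
  obtain ⟨n, hn⟩ := h
  exact one_class hp hpW ⟨n, hn i⟩ hx.1 hy.1 hx.2 hy.2

theorem HX_one {k : ℕ} {c d W ν : ℕ} {a b : Fin k → ℤ} {i0 : Fin k} {z : ℝ} {p : ℕ} (hp : p.Prime) (hpW : ¬ p ∣ W)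
    (hpa : ¬ (p : ℤ) ∣ a i0) (hpD : ¬ (p : ℤ) ∣ c * b i0 - d * a i0) (hz : z < Real.log p) :
    (HX (c * W) (c * ν + d) W ν a b i0 z p).card = 1 := by
  have hpi := Nat.prime_iff_prime_int.1 hp
  have hW : ¬ (p : ℤ) ∣ (W : ℤ) := fun h => hpW (Int.natCast_dvd_natCast.1 h)
  have hA : ¬ (p : ℤ) ∣ a i0 * W := fun h => (hpi.dvd_or_dvd h).elim hpa hW
  have e : ∀ x : ℕ, a i0 * ((W * x + ν : ℕ) : ℤ) + b i0 = (a i0 * W) * x + (a i0 * ν + b i0) := by
    intro x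
    push_cast
    ring
  obtain ⟨x, hx1, hx2⟩ := lin_exists hp (a i0 * ν + b i0) hA
  rw [card_eq_one]
  refine ⟨x, ?_⟩
  ext y
  rw [mem_HX, mem_singleton]
  constructor
  · rintro ⟨hy1, _, i, hi, hi2⟩
    have hi0 : i = i0 := hi.elim id (fun h => absurd h (not_le.2 hz))
    rw [hi0, e] at hi2
    have := lin_unique (pcop hp hA) hi2 hx2
    rwa [Nat.mod_eq_of_lt hy1, Nat.mod_eq_of_lt hx1] at this
  · intro hy
    rw [hy]
    have hx3 : (p : ℤ) ∣ a i0 * ((W * x + ν : ℕ) : ℤ) + b i0 := by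
      rw [e]
      exact hx2
    refine ⟨hx1, fun hd => hpD ?_, i0, Or.inl rfl, hx3⟩
    have hd' : (p : ℤ) ∣ ((c * W * x + (c * ν + d) : ℕ) : ℤ) := Int.natCast_dvd_natCast.2 hd
    have h5 : (c : ℤ) * b i0 - d * a i0 = c * (a i0 * ((W * x + ν : ℕ) : ℤ) + b i0) - a i0 * ((c * W * x + (c * ν + d) : ℕ) : ℤ) := by
      push_cast
      ring
    rw [h5]
    exact dvd_sub (hx3.mul_left _) (hd'.mul_left _)

theorem crt_nu {k : ℕ} (c d : ℕ) (a b : Fin k → ℤ) (w W : ℕ) (hW : 0 < W) (hWd : ∀ p : ℕ, p.Prime → p ≤ w → p ∣ W)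
    (hadm : ∀ p : ℕ, p.Prime → ∃ n : ℕ, ¬ p ∣ c * n + d ∧ ∀ i, ¬ (p : ℤ) ∣ a i * n + b i) :
    ∃ ν < W, ∀ p : ℕ, p.Prime → p ≤ w → ¬ p ∣ c * ν + d ∧ ∀ i, ¬ (p : ℤ) ∣ a i * ν + b i := by
  classical
  have h1 : ∀ p : ℕ, ∃ n : ℕ, p.Prime → (¬ p ∣ c * n + d ∧ ∀ i, ¬ (p : ℤ) ∣ a i * n + b i) := by
    intro p
    by_cases hp : p.Prime
    · obtain ⟨n, hn⟩ := hadm p hp
      exact ⟨n, fun _ => hn⟩
    · exact ⟨0, fun h => absurd h hp⟩
  choose f hf using h1
  obtain ⟨x, hx⟩ := Nat.chineseRemainderOfFinset f id ((range (w + 1)).filter Nat.Prime)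
    (by
      intro p hp
      exact (mem_filter.1 hp).2.ne_zero)
    (by
      intro p hp q hq hpq
      rw [mem_coe, mem_filter] at hp hq
      exact (Nat.coprime_primes hp.2 hq.2).2 hpq)
  refine ⟨x % W, Nat.mod_lt _ hW, fun p hp hpw => ?_⟩
  have h2 : x % W ≡ f p [MOD p] := by
    have h3 : x % W ≡ x [MOD p] := (Nat.mod_modEq x W).of_dvd (hWd p hp hpw)
    exact h3.trans (hx p (mem_filter.2 ⟨mem_range.2 (by omega), hp⟩))
  obtain ⟨h4, h5⟩ := hf p hp
  exact ⟨fun h => h4 (tr_nat h2 h), fun i h => h5 i (tr_int h2 h)⟩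

/-- the large factors -/
theorem rough_Om (U : ℝ) (hU : 1 < U) (N : ℕ) (hN : N ≠ 0) (h : ∀ p : ℕ, p.Prime → p ∣ N → U ≤ p) :
    U ^ ArithmeticFunction.cardFactors N ≤ N := by
  rw [ArithmeticFunction.cardFactors_apply]
  have h1 : ∀ l : List ℕ, (∀ p ∈ l, U ≤ ((p : ℕ) : ℝ)) → U ^ l.length ≤ ((l.prod : ℕ) : ℝ) := by
    intro l
    induction l with
    | nil => intro _; simp
    | cons p l ih =>
      intro hl
      rw [List.length_cons, List.prod_cons, pow_succ, mul_comm]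
      push_cast
      have h2 := hl p List.mem_cons_self
      have h3 := ih (fun q hq => hl q (List.mem_cons_of_mem _ hq))
      have h4 : (0 : ℝ) < U ^ l.length := by positivity
      have h5 : (0 : ℝ) ≤ (p : ℝ) := Nat.cast_nonneg _
      exact mul_le_mul h2 (by exact_mod_cast h3) h4.le h5
  have h2 := h1 N.primeFactorsList (fun p hp => h p (Nat.prime_of_mem_primeFactorsList hp) (Nat.dvd_of_mem_primeFactorsList hp))
  rwa [Nat.prod_primeFactorsList hN] at h2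

theorem Om2 (U : ℝ) (hU : 1 < U) (N : ℕ) (hN : N ≠ 0) (h : ∀ p : ℕ, p.Prime → p ∣ N → U ≤ p) (hN3 : (N : ℝ) < U ^ 3) :
    ArithmeticFunction.cardFactors N ≤ 2 := by
  by_contra hc
  push Not at hc
  have h1 := rough_Om U hU N hN h
  have h2 : U ^ 3 ≤ U ^ ArithmeticFunction.cardFactors N := pow_le_pow_right₀ hU.le hc
  linarith

theorem Om3 (U : ℝ) (hU : 1 < U) (N : ℕ) (hN : N ≠ 0) (hN3 : (N : ℝ) < U ^ 3)
    (h1 : ∀ p q : ℕ, p.Prime → q.Prime → p ∣ N → q ∣ N → (p : ℝ) < U → (q : ℝ) < U → p = q)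
    (h2 : ∀ p : ℕ, p.Prime → (p : ℝ) < U → ¬ p ^ 2 ∣ N) : ArithmeticFunction.cardFactors N ≤ 3 := by
  by_cases hs : ∃ p : ℕ, p.Prime ∧ p ∣ N ∧ (p : ℝ) < U
  · obtain ⟨p, hp, ⟨N', hN'⟩, hpU⟩ := hs
    have hN'0 : N' ≠ 0 := by
      rintro rfl
      exact hN (by rw [hN', mul_zero])
    have h3 : ArithmeticFunction.cardFactors N' ≤ 2 := by
      apply Om2 U hU N' hN'0
      · intro q hq hqN
        by_contra hc
        push Not at hc
        have hqN2 : q ∣ N := by rw [hN']; exact hqN.mul_left _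
        have h4 := h1 p q hp hq (by rw [hN']; exact dvd_mul_right _ _) hqN2 hpU hc
        apply h2 p hp hpU
        rw [hN', sq]
        exact mul_dvd_mul_left _ (h4 ▸ hqN)
      · refine lt_of_le_of_lt ?_ hN3
        have : N' ≤ N := by
          rw [hN']
          exact Nat.le_mul_of_pos_left _ hp.pos
        exact_mod_cast this
    rw [hN', ArithmeticFunction.cardFactors_mul hp.ne_zero hN'0, ArithmeticFunction.cardFactors_apply_prime hp]
    omega
  · push Not at hs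
    exact (Om2 U hU N hN hs hN3).trans (by norm_num)

theorem log_floor_exp {x : ℝ} (hx : 1 ≤ x) : x - 1 ≤ Real.log ⌊Real.exp x⌋₊ ∧ Real.log ⌊Real.exp x⌋₊ ≤ x ∧ 1 ≤ ⌊Real.exp x⌋₊ := by
  have h1 : Real.exp x - 1 < ⌊Real.exp x⌋₊ := Nat.sub_one_lt_floor _
  have h2 : (⌊Real.exp x⌋₊ : ℝ) ≤ Real.exp x := Nat.floor_le (Real.exp_pos _).le
  have h3 : Real.exp (x - 1) ≤ Real.exp x - 1 := by
    have h4 : Real.exp x = Real.exp (x - 1) * Real.exp 1 := by rw [← Real.exp_add]; ring_nf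
    have h5 : 2 ≤ Real.exp 1 := by have := Real.add_one_le_exp (1:ℝ); linarith
    have h6 : 1 ≤ Real.exp (x - 1) := Real.one_le_exp (by linarith)
    nlinarith
  have h0 : (0:ℝ) < ⌊Real.exp x⌋₊ := by linarith [Real.exp_pos (x-1)]
  refine ⟨?_, ?_, ?_⟩
  · rw [Real.le_log_iff_exp_le h0]; linarith
  · calc _ ≤ Real.log (Real.exp x) := Real.log_le_log h0 h2
      _ = x := Real.log_exp x
  · exact_mod_cast h0

theorem num (δ e0 : ℝ) (hδ : 0 < δ) (hδ1 : δ ≤ 1 / 1000) (he0 : 0 < e0) : ∃ T1 : ℝ, ∀ T : ℝ, T1 ≤ T →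
    10000 ≤ T ∧ T - 1 ≤ Real.log ⌊Real.exp T⌋₊ ∧ Real.log ⌊Real.exp T⌋₊ ≤ T ∧ Real.log T < e0 * (T - 1) ∧
    T ≤ (wM ⌊Real.exp (δ * T)⌋₊ : ℝ) ^ 2 ∧ (wM ⌊Real.exp (δ * T)⌋₊ : ℝ) ≤ T ∧ 1 ≤ ⌊Real.exp (δ * T)⌋₊ := by
  refine ⟨10000 + 16 / δ ^ 2 + 8 / e0 ^ 2, fun T hT => ?_⟩
  have p1 : 0 < 16 / δ ^ 2 := by positivity
  have p2 : 0 < 8 / e0 ^ 2 := by positivity
  have hT1 : 10000 ≤ T := by linarith
  have hT2 : 16 / δ ^ 2 ≤ T := by linarith
  have hT3 : 8 / e0 ^ 2 ≤ T := by linarith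
  rw [div_le_iff₀ (by positivity)] at hT2 hT3
  obtain ⟨a1, a2, _⟩ := log_floor_exp (x := T) (by linarith)
  have hδT : 16000 ≤ δ * T := by
    have h1 : 16 ≤ (δ * T) * (1 / 1000) := by
      calc (16 : ℝ) ≤ T * δ ^ 2 := hT2
        _ = (δ * T) * δ := by ring
        _ ≤ (δ * T) * (1 / 1000) := by gcongr
    linarith
  obtain ⟨b1, b2, b3⟩ := log_floor_exp (x := δ * T) (by linarith)
  have w1 : (wM ⌊Real.exp (δ * T)⌋₊ : ℝ) ≤ Real.log ⌊Real.exp (δ * T)⌋₊ / 2 := by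
    unfold Pool.Agent.H262R3.Lk.wM
    exact Nat.floor_le (by linarith)
  have w2 : Real.log ⌊Real.exp (δ * T)⌋₊ / 2 - 1 < (wM ⌊Real.exp (δ * T)⌋₊ : ℝ) := by
    unfold Pool.Agent.H262R3.Lk.wM
    exact Nat.sub_one_lt_floor _
  have w3 : δ * T / 4 ≤ (wM ⌊Real.exp (δ * T)⌋₊ : ℝ) := by linarith
  refine ⟨hT1, a1, a2, ?_, ?_, ?_, b3⟩
  · rw [Real.log_lt_iff_lt_exp (by linarith)]
    have hy : e0 * T / 2 ≤ e0 * (T - 1) := by nlinarith
    have hy0 : 0 ≤ e0 * (T - 1) := mul_nonneg he0.le (by linarith)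
    have h1 := Real.quadratic_le_exp_of_nonneg hy0
    have h2 : (e0 * T / 2) ^ 2 ≤ (e0 * (T - 1)) ^ 2 := pow_le_pow_left₀ (by positivity) hy 2
    have h3 : T ≤ (e0 * T / 2) ^ 2 / 2 := by
      calc T = 8 * T / 8 := by ring
        _ ≤ (T * e0 ^ 2) * T / 8 := by
            apply div_le_div_of_nonneg_right _ (by norm_num)
            exact mul_le_mul_of_nonneg_right hT3 (by linarith)
        _ = (e0 * T / 2) ^ 2 / 2 := by ring
    linarith
  · calc T = 16 * T / 16 := by ring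
      _ ≤ (T * δ ^ 2) * T / 16 := by
          apply div_le_div_of_nonneg_right _ (by norm_num)
          exact mul_le_mul_of_nonneg_right hT2 (by linarith)
      _ = (δ * T / 4) ^ 2 := by ring
      _ ≤ _ := pow_le_pow_left₀ (by positivity) w3 2
  · have : δ * T ≤ 1 / 1000 * T := by gcongr
    linarith

end U3X

open U3X in
theorem U3 (h1 : S_MerX) (h2 : S_NPW) (h3 : S_PW) : S_U3 := by
  classical
  intro k
  obtain ⟨e1N, etN, CE, he1N, he1N8, hetN, hCE, h2'⟩ := h2 k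
  obtain ⟨e1P, etP, c3, he1P, he1P8, hetP, hc3, d0P, hd0P, h3'⟩ := h3 k
  obtain ⟨c2, hc2⟩ : ∃ c2, c2 = min 1 (c3 / CE) := ⟨_, rfl⟩
  have hc20 : 0 < c2 := by rw [hc2]; positivity
  have hc21 : c2 ≤ 1 := by rw [hc2]; exact min_le_left _ _
  have hc2c : CE * c2 ≤ c3 := by
    calc CE * c2 ≤ CE * (c3 / CE) := by gcongr; rw [hc2]; exact min_le_right _ _
      _ = c3 := by field_simp
  obtain ⟨d0N, hd0N, h2''⟩ := h2' c2 hc20 hc21
  obtain ⟨δ, hδ⟩ : ∃ δ, δ = min (min d0N d0P) (1 / 1000) := ⟨_, rfl⟩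
  have hδ0 : 0 < δ := by rw [hδ]; positivity
  have hδN : δ ≤ d0N := by rw [hδ]; exact (min_le_left _ _).trans (min_le_left _ _)
  have hδP : δ ≤ d0P := by rw [hδ]; exact (min_le_left _ _).trans (min_le_right _ _)
  have hδ1 : δ ≤ 1 / 1000 := by rw [hδ]; exact min_le_right _ _
  obtain ⟨T0N, hT0N⟩ := h2'' δ hδ0 hδN
  obtain ⟨T0P, hT0P⟩ := h3' δ hδ0 hδP
  obtain ⟨e0, he0⟩ : ∃ e0, e0 = min e1N e1P / 2 := ⟨_, rfl⟩
  have he00 : 0 < e0 := by rw [he0]; positivity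
  have he0N : e0 < e1N := by
    have := min_le_left e1N e1P
    rw [he0]
    have h4 : 0 < min e1N e1P := by positivity
    linarith
  have he0P : e0 < e1P := by
    have := min_le_right e1N e1P
    rw [he0]
    have h4 : 0 < min e1N e1P := by positivity
    linarith
  obtain ⟨YN, hYN⟩ := h1 e1N etN k 4 he1N he1N8 hetN
  obtain ⟨YP, hYP⟩ := h1 e1P etP k 4 he1P he1P8 hetP
  obtain ⟨T1, hT1⟩ := num δ e0 hδ0 hδ1 he00
  refine ⟨δ, min (e0 / 2) (1 / 20), max (max T0N T0P) (max T1 (YN + YP + 1)), hδ0, by positivity, ?_⟩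
  intro T hT c d a b i0 hd1 hdc hc ha0 hne haT hbT hadm G hG
  have hTN : T0N ≤ T := ((le_max_left _ _).trans (le_max_left _ _)).trans hT
  have hTP : T0P ≤ T := ((le_max_right _ _).trans (le_max_left _ _)).trans hT
  have hTT1 : T1 ≤ T := ((le_max_left _ _).trans (le_max_right _ _)).trans hT
  have hTY : (YN : ℝ) + YP + 1 ≤ T := ((le_max_right _ _).trans (le_max_right _ _)).trans hT
  obtain ⟨n1, n2, n3, n4, n5, n6, n7⟩ := hT1 T hTT1
  specialize hT0N T hTN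
  specialize hT0P T hTP
  have hYbig : YN + YP ≤ ⌊Real.exp T⌋₊ := by
    apply Nat.le_floor
    have := Real.add_one_le_exp T
    push_cast
    linarith
  specialize hYN ⌊Real.exp T⌋₊ (by omega)
  specialize hYP ⌊Real.exp T⌋₊ (by omega)
  obtain ⟨L, hL⟩ : ∃ L : ℝ, L = Real.log ⌊Real.exp T⌋₊ := ⟨_, rfl⟩
  obtain ⟨Y, hY⟩ : ∃ Y : ℕ, Y = ⌊Real.exp T⌋₊ := ⟨_, rfl⟩
  rw [← hL] at n2 n3
  rw [← hY] at hYN hYP hL
  have hL0 : 0 < L := by linarith
  have hY1 : 1 ≤ Y := by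
    rw [hY]
    exact (log_floor_exp (by linarith)).2.2
  have hYr : (0 : ℝ) < Y := by exact_mod_cast hY1
  have hYL : (Y : ℝ) = Real.exp L := by rw [hL, Real.exp_log hYr]
  have ttlt : ∀ (p : ℕ) (x : ℝ), tt Y p < x ↔ Real.log p < x * L := by
    intro p x
    unfold Pool.Agent.W23.DC.tt
    rw [← hL, div_lt_iff₀ hL0]
  have ttle : ∀ (p : ℕ) (x : ℝ), x ≤ tt Y p ↔ x * L ≤ Real.log p := by
    intro p x
    unfold Pool.Agent.W23.DC.tt
    rw [← hL, le_div_iff₀ hL0]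
  have mpr : ∀ (p : ℕ) (u v : ℝ), p ∈ pr Y u v → p.Prime ∧ u * L ≤ Real.log p ∧ Real.log p < v * L := by
    intro p u v hp
    unfold Pool.Agent.W23.DC.pr at hp
    rw [mem_filter] at hp
    exact ⟨hp.2.1, (ttle p u).1 hp.2.2.1, (ttlt p v).1 hp.2.2.2⟩
  obtain ⟨M, hM⟩ : ∃ M : ℕ, M = ⌊Real.exp (δ * T)⌋₊ := ⟨_, rfl⟩
  rw [← hM] at n5 n6 n7
  obtain ⟨w, hw⟩ : ∃ w : ℕ, w = wM M := ⟨_, rfl⟩
  rw [← hw] at n5 n6
  obtain ⟨W, hW⟩ : ∃ W : ℕ, W = Pool.Agent.H262R3.Lk.WT M ∅ := ⟨_, rfl⟩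
  have hWpos : 0 < W := by rw [hW]; exact Pool.Agent.H262R3.Lk.WT_pos M ∅
  have hWM : W ≤ M := by rw [hW]; exact Pool.Agent.H262R3.Lk.WT_le M n7 ∅
  have hWd : ∀ p : ℕ, p.Prime → p ≤ w → p ∣ W := by
    intro p hp h
    apply Nat.dvd_of_mem_primeFactors
    rw [hW, Pool.Agent.H262R3.Lk.WT_pf, sdiff_empty, Pool.Agent.H262R2.UP.mem_Pz]
    exact ⟨by rw [← hw]; exact h, hp⟩
  have hWn : ∀ p : ℕ, p.Prime → w < p → ¬ p ∣ W := by
    intro p hp h hd
    have h4 : p ∈ W.primeFactors := Nat.mem_primeFactors.2 ⟨hp, hd, hWpos.ne'⟩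
    rw [hW, Pool.Agent.H262R3.Lk.WT_pf, sdiff_empty, Pool.Agent.H262R2.UP.mem_Pz, ← hw] at h4
    omega
  have hcM : c ≤ M := by rw [hM]; exact Nat.le_floor hc
  have hc1 : 1 ≤ c := hd1.trans hdc
  have hMr : (M : ℝ) ≤ Real.exp (δ * T) := by rw [hM]; exact Nat.floor_le (Real.exp_pos _).le
  obtain ⟨ν, hνW, hν⟩ := crt_nu c d a b w W hWpos hWd hadm
  -- large primes
  have hbig : ∀ p : ℕ, e0 * L ≤ Real.log p → w < p := by
    intro p hp
    have h4 : Real.log T < Real.log p := by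
      have : e0 * (T - 1) ≤ e0 * L := by gcongr
      linarith
    have hp0 : (0 : ℝ) < p := by
      rcases Nat.eq_zero_or_pos p with h | h
      · rw [h, Nat.cast_zero, Real.log_zero] at h4
        have := Real.log_pos (show (1 : ℝ) < T by linarith)
        linarith
      · exact_mod_cast h
    have h5 := (Real.log_lt_log_iff (by linarith) hp0).1 h4
    have h6 : (w : ℝ) < p := by linarith
    exact_mod_cast h6
  obtain ⟨H, hH⟩ : ∃ H : ℕ → Finset ℕ, H = HX (c * W) (c * ν + d) W ν a b i0 (e0 * L) := ⟨_, rfl⟩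
  obtain ⟨v, hv⟩ : ∃ v : ℕ → ℤ, v = fun t : ℕ => a i0 * ((W * t + ν : ℕ) : ℤ) + b i0 := ⟨_, rfl⟩
  have hvt : ∀ t : ℕ, v t = a i0 * ((W * t + ν : ℕ) : ℤ) + b i0 := fun t => by rw [hv]
  have hvlin : ∀ t : ℕ, v t = (a i0 * W) * t + (a i0 * ν + b i0) := by
    intro t
    rw [hvt]
    push_cast
    ring
  obtain ⟨Sq, hSq⟩ : ∃ Sq : ℕ → ℕ → Prop, Sq = fun p t => ((p ^ 2 : ℕ) : ℤ) ∣ v t ∨ v t = 1 ∨ v t = -1 := ⟨_, rfl⟩
  have hnd : ∀ p : ℕ, p.Prime → (1 / 8) * L ≤ Real.log p → ¬ (p : ℤ) ∣ a i0 := by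
    intro p hp hpL hd
    have h4 : (p : ℤ) ≤ |a i0| := Int.le_of_dvd (abs_pos.2 ha0) ((dvd_abs _ _).2 hd)
    have h5 : (p : ℝ) ≤ |((a i0 : ℤ) : ℝ)| := by
      rw [← Int.cast_abs]
      exact_mod_cast h4
    have h6 : Real.log p ≤ T / 500 := by
      rw [← Real.log_exp (T / 500)]
      exact Real.log_le_log (by exact_mod_cast hp.pos) (h5.trans haT)
    linarith
  have e0le : e0 ≤ 1 / 16 := by
    rw [he0]
    have := min_le_left e1N e1P
    linarith
  have hB1 : 1 ≤ c * ν + d := by omega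
  have hcong : ∀ t : ℕ, c * W * t + (c * ν + d) = c * (W * t + ν) + d := by intro t; ring
  haveI hQne : NeZero (c * W) := ⟨(Nat.mul_pos (by omega) hWpos).ne'⟩
  have hsit : Sit k δ T (c * W) (c * ν + d) w H Sq := by
    refine ⟨hB1, ?_, ?_, ?_, ?_, n5, n6, ?_, ?_, ?_⟩
    · calc c * ν + d ≤ c * ν + c := by omega
        _ = c * (ν + 1) := by ring
        _ ≤ c * W := Nat.mul_le_mul_left _ hνW
    · apply Nat.coprime_of_dvd
      intro p hp hp1 hp2
      rcases Nat.lt_or_ge w p with h | h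
      · rcases (Nat.Prime.dvd_mul hp).1 hp2 with h4 | h4
        · have h5 : p ∣ d := (Nat.dvd_add_right (h4.mul_right _)).1 hp1
          obtain ⟨n, hn, _⟩ := hadm p hp
          exact hn (dvd_add (h4.mul_right _) h5)
        · exact hWn p hp h h4
      · exact (hν p hp h).1 hp1
    · rw [← hM, sq]
      exact Nat.mul_le_mul hcM hWM
    · rw [← hM, hw]
    · intro p hp h
      exact (hWd p hp h).mul_left _
    · intro p hp h
      rw [hH]
      refine ⟨HX_sub _ _ _ _ _ _ _ _ _, HX_card hp (hWn p hp h) ?_, ?_⟩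
      · obtain ⟨n, _, hn⟩ := hadm p hp
        exact ⟨n, hn⟩
      · intro x hx
        rw [mem_HX] at hx
        exact hx.2.1
    · intro p n hp
      rw [← hY] at hp
      obtain ⟨hpp, hp1, _⟩ := mpr p _ _ hp
      have hwp : w < p := by
        apply hbig
        have : e0 * L ≤ 1 / 8 * L := by gcongr; linarith
        linarith
      have hpW := hWn p hpp hwp
      have hpa := hnd p hpp hp1
      have hpi := Nat.prime_iff_prime_int.1 hpp
      have hA : ¬ (p : ℤ) ∣ a i0 * W := fun h => (hpi.dvd_or_dvd h).elim hpa (fun h => hpW (Int.natCast_dvd_natCast.1 h))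
      have hA0 : a i0 * (W : ℤ) ≠ 0 := fun h => hA (by rw [h]; exact dvd_zero _)
      have hcop : IsCoprime ((p ^ 2 : ℕ) : ℤ) (a i0 * W) := by
        push_cast
        exact (pcop hpp hA).pow_left
      have hsub : (range n).filter (fun t => Sq p t) ⊆
          (range n).filter (fun t => ((p ^ 2 : ℕ) : ℤ) ∣ v t) ∪ ((range n).filter (fun t => v t = 1) ∪ (range n).filter (fun t => v t = -1)) := by
        intro t ht
        rw [mem_filter, hSq] at ht
        rw [mem_union, mem_union, mem_filter, mem_filter, mem_filter]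
        rcases ht.2 with h | h | h
        · exact Or.inl ⟨ht.1, h⟩
        · exact Or.inr (Or.inl ⟨ht.1, h⟩)
        · exact Or.inr (Or.inr ⟨ht.1, h⟩)
      have hone : ∀ z : ℤ, ((range n).filter (fun t => v t = z)).card ≤ 1 := by
        intro z
        rw [card_le_one]
        intro x hx y hy
        rw [mem_filter] at hx hy
        have h4 : v x = v y := by rw [hx.2, hy.2]
        rw [hvlin, hvlin] at h4
        have h5 : (x : ℤ) = y := mul_left_cancel₀ hA0 (add_right_cancel h4)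
        exact_mod_cast h5
      have hS1 : (((range n).filter (fun t => ((p ^ 2 : ℕ) : ℤ) ∣ v t)).card : ℝ) ≤ (n : ℝ) / ((p ^ 2 : ℕ) : ℝ) + 1 := by
        apply cnt_class _ (filter_subset _ _)
        intro x hx y hy
        rw [mem_filter, hvlin] at hx hy
        exact lin_unique hcop hx.2 hy.2
      have h4 := (card_le_card hsub).trans ((card_union_le _ _).trans (Nat.add_le_add_left (card_union_le _ _) _))
      have h5 := hone 1
      have h6 := hone (-1)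
      have h7 : (((range n).filter (fun t => Sq p t)).card : ℝ) ≤ (((range n).filter (fun t => ((p ^ 2 : ℕ) : ℤ) ∣ v t)).card : ℝ) + 2 := by
        have : ((range n).filter (fun t => Sq p t)).card ≤ ((range n).filter (fun t => ((p ^ 2 : ℕ) : ℤ) ∣ v t)).card + 2 := by omega
        exact_mod_cast this
      push_cast at hS1
      push_cast at h7
      have h8 : (((range n).filter (fun t => Sq p t)).card : ℝ) ≤ (n : ℝ) / (p : ℝ) ^ 2 + 1 + 2 := by
        refine h7.trans ?_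
        gcongr
      linarith
  -- Mertens
  obtain ⟨D, hD⟩ : ∃ D : ℤ, D = c * b i0 - d * a i0 := ⟨_, rfl⟩
  have hD0 : D ≠ 0 := by
    rw [hD]
    exact sub_ne_zero.2 hne
  obtain ⟨E, hE⟩ : ∃ E : ℕ, E = (a i0 * D).natAbs := ⟨_, rfl⟩
  have hE0 : E ≠ 0 := by
    rw [hE]
    exact Int.natAbs_ne_zero.2 (mul_ne_zero ha0 hD0)
  have hEb : (E : ℝ) ≤ (Y : ℝ) ^ 4 := by
    have h4 : (E : ℝ) = |((a i0 : ℤ) : ℝ)| * |((D : ℤ) : ℝ)| := by
      rw [hE, Nat.cast_natAbs, ← Int.cast_abs, ← Int.cast_abs, ← Int.cast_mul, ← abs_mul]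
    have hcr : (c : ℝ) ≤ Real.exp (1 / 1000 * T) := hc.trans (Real.exp_le_exp.2 (by gcongr))
    have hdr : (d : ℝ) ≤ Real.exp (1 / 1000 * T) := le_trans (by exact_mod_cast hdc) hcr
    have h5 : |((D : ℤ) : ℝ)| ≤ 2 * Real.exp (102 / 100 * T) := by
      rw [hD]
      push_cast
      calc |(c : ℝ) * (b i0 : ℝ) - d * (a i0 : ℝ)| ≤ |(c : ℝ) * (b i0 : ℝ)| + |(d : ℝ) * (a i0 : ℝ)| := abs_sub _ _
        _ = c * |((b i0 : ℤ) : ℝ)| + d * |((a i0 : ℤ) : ℝ)| := by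
            rw [abs_mul, abs_mul, Nat.abs_cast, Nat.abs_cast]
        _ ≤ Real.exp (1 / 1000 * T) * Real.exp (1019 / 1000 * T) + Real.exp (1 / 1000 * T) * Real.exp (T / 500) := by
            gcongr
        _ = Real.exp (102 / 100 * T) + Real.exp (3 / 1000 * T) := by
            rw [← Real.exp_add, ← Real.exp_add]
            ring_nf
        _ ≤ Real.exp (102 / 100 * T) + Real.exp (102 / 100 * T) := by
            have h9 : Real.exp (3 / 1000 * T) ≤ Real.exp (102 / 100 * T) := Real.exp_le_exp.2 (by linarith)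
            linarith
        _ = 2 * Real.exp (102 / 100 * T) := by ring
    have h6 : (2 : ℝ) ≤ Real.exp T := by
      have := Real.add_one_le_exp T
      linarith
    calc (E : ℝ) = |((a i0 : ℤ) : ℝ)| * |((D : ℤ) : ℝ)| := h4
      _ ≤ Real.exp (T / 500) * (Real.exp T * Real.exp (102 / 100 * T)) := by
          apply mul_le_mul haT (h5.trans _) (abs_nonneg _) (Real.exp_pos _).le
          gcongr
      _ = Real.exp (T / 500 + (T + 102 / 100 * T)) := by rw [← Real.exp_add, ← Real.exp_add]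
      _ ≤ Real.exp (4 * L) := by
          apply Real.exp_le_exp.2
          linarith
      _ = (Y : ℝ) ^ 4 := by
          rw [hYL, ← Real.exp_nat_mul]
          norm_num
  have hk1 : 1 ≤ k := by
    have := i0.2
    omega
  have hmer : ∀ e1 : ℝ, e0 < e1 → (∀ p ∈ pr Y e1 (17 / 50), ¬ p ∣ E → |((H p).card : ℝ) / ((p : ℝ) - 1) - 1 / ((p : ℝ) - 1)| ≤ k / (p : ℝ) ^ 2) ∧
      (∀ p ∈ pr Y e1 (17 / 50), p ∣ E → 0 ≤ ((H p).card : ℝ) / ((p : ℝ) - 1) ∧ ((H p).card : ℝ) / ((p : ℝ) - 1) ≤ k / ((p : ℝ) - 1)) := by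
    intro e1 he1
    refine ⟨fun p hp hpE => ?_, fun p hp hpE => ?_⟩
    · obtain ⟨hpp, hp1, _⟩ := mpr p _ _ hp
      have h4 : e0 * L < Real.log p := lt_of_lt_of_le (by gcongr) hp1
      have hwp := hbig p h4.le
      have h5 : ¬ (p : ℤ) ∣ a i0 * D := fun h => hpE (by rw [hE]; exact Int.natCast_dvd.1 h)
      have h6 : (H p).card = 1 := by
        rw [hH]
        apply HX_one hpp (hWn p hpp hwp) (fun h => h5 (h.mul_right _)) _ h4
        rw [← hD]
        exact fun h => h5 (h.mul_left _)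
      rw [h6, Nat.cast_one, sub_self, abs_zero]
      positivity
    · obtain ⟨hpp, hp1, _⟩ := mpr p _ _ hp
      have h4 : e0 * L < Real.log p := lt_of_lt_of_le (by gcongr) hp1
      have hwp := hbig p h4.le
      have h5 : (H p).card ≤ k := (hsit.hH p hpp hwp).2.1
      have h6 : (1 : ℝ) < p := by exact_mod_cast hpp.one_lt
      have h7 : (0 : ℝ) < (p : ℝ) - 1 := by linarith
      exact ⟨div_nonneg (Nat.cast_nonneg _) h7.le, div_le_div_of_nonneg_right (by exact_mod_cast h5) h7.le⟩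
  have hmN := hYN (fun p => ((H p).card : ℝ) / ((p : ℝ) - 1)) E hE0 hEb (hmer e1N he0N).1 (hmer e1N he0N).2
  have hmP := hYP (fun p => ((H p).card : ℝ) / ((p : ℝ) - 1)) E hE0 hEb (hmer e1P he0P).1 (hmer e1P he0P).2
  have hgood : Good T (c * W) (c * ν + d) w H Sq := by
    rcases hT0N (c * W) (c * ν + d) w H Sq hsit (by rw [← hY]; exact hmN) with ⟨χ, x1, x2, x3, x4⟩ | h
    · refine hT0P (c * W) (c * ν + d) w H Sq hsit (by rw [← hY]; exact hmP) χ x1 x2 x3 (x4.trans ?_)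
      gcongr
    · exact h
  obtain ⟨t, g0, g1, g2, g3, g4, g5, g6⟩ := hgood (G.image (fun n => (n - ν) / W)) (le_trans (by exact_mod_cast card_image_le) hG)
  rw [← hY] at g4 g5 g6
  rw [hcong] at g1 g2 g3
  -- no divisor of the prime
  have hPp : ∀ p : ℕ, p.Prime → Real.log p ≤ T / 2 → ¬ p ∣ c * W * (t % p) + (c * ν + d) := by
    intro p hp hpT hd
    have h4 : p ∣ c * (W * t + ν) + d := by
      have h5 : p ∣ c * W * t + (c * ν + d) := tr_nat (Nat.mod_modEq t p) hd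
      rwa [hcong] at h5
    have h5 := (Nat.prime_dvd_prime_iff_eq hp g1).1 h4
    have h6 : Real.log p ≤ Real.log (Real.exp (T / 2)) := by rw [Real.log_exp]; exact hpT
    have h7 := (Real.log_le_log_iff (by exact_mod_cast hp.pos) (Real.exp_pos _)).1 h6
    rw [← h5] at g2
    linarith
  have hdv : ∀ (i : Fin k) (p : ℕ), p.Prime → w < p → Real.log p ≤ T / 2 → (i = i0 ∨ Real.log p ≤ e0 * L) →
      (p : ℤ) ∣ a i * ((W * t + ν : ℕ) : ℤ) + b i → t % p ∈ H p := by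
    intro i p hp hwp hpT hi hd
    rw [hH, mem_HX]
    refine ⟨Nat.mod_lt _ hp.pos, hPp p hp hpT, i, hi, ?_⟩
    have h4 : W * t + ν ≡ W * (t % p) + ν [MOD p] := Nat.ModEq.add_right _ (Nat.ModEq.mul_left _ (Nat.mod_modEq t p).symm)
    exact tr_int h4 hd
  have hsmall : ∀ (i : Fin k) (p : ℕ), p.Prime → p ≤ w → ¬ (p : ℤ) ∣ a i * ((W * t + ν : ℕ) : ℤ) + b i := by
    intro i p hp hpw hd
    have h4 : W * t + ν ≡ ν [MOD p] := by
      have h5 : W * t + ν ≡ 0 + ν [MOD p] := Nat.ModEq.add_right _ ((Nat.modEq_zero_iff_dvd).2 ((hWd p hp hpw).mul_right _))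
      rwa [zero_add] at h5
    exact (hν p hp hpw).2 i (tr_int h4 hd)
  have hlow : ∀ p : ℕ, p.Prime → Real.log p < 1 / 8 * L → ¬ (p : ℤ) ∣ a i0 * ((W * t + ν : ℕ) : ℤ) + b i0 := by
    intro p hp hpL hd
    rcases Nat.lt_or_ge w p with h | h
    · exact g4 p hp h ((ttlt p _).2 hpL) (hdv i0 p hp h (by linarith) (Or.inl rfl) hd)
    · exact hsmall i0 p hp h hd
  have logle : ∀ (p : ℕ) (x : ℝ), p.Prime → (p : ℝ) ≤ Real.exp x → Real.log p ≤ x := by
    intro p x hp h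
    rw [← Real.log_exp x]
    exact Real.log_le_log (by exact_mod_cast hp.pos) h
  -- a prime in the middle range
  obtain ⟨p0, hp0⟩ : ∃ p0, p0 ∈ pr Y (1 / 8) (17 / 50) := by
    have h4 : ⌈Real.exp (1 / 8 * L)⌉₊ ≠ 0 := (Nat.ceil_pos.2 (Real.exp_pos _)).ne'
    obtain ⟨p, hp, hp1, hp2⟩ := Nat.exists_prime_lt_and_le_two_mul _ h4
    have h5 : Real.exp (1 / 8 * L) ≤ p := (Nat.le_ceil _).trans (by exact_mod_cast hp1.le)
    have h6 : (p : ℝ) ≤ 4 * Real.exp (1 / 8 * L) := by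
      have h7 : (p : ℝ) ≤ 2 * (⌈Real.exp (1 / 8 * L)⌉₊ : ℝ) := by exact_mod_cast hp2
      have h8 := Nat.ceil_lt_add_one (Real.exp_pos (1 / 8 * L)).le
      have h9 : 1 ≤ Real.exp (1 / 8 * L) := Real.one_le_exp (by positivity)
      linarith
    have hpr : (0 : ℝ) < p := by exact_mod_cast hp.pos
    have h7 : 1 / 8 * L ≤ Real.log p := (Real.le_log_iff_exp_le hpr).2 h5
    have h8 : Real.log p < 17 / 50 * L := by
      have h9 := Real.log_le_log hpr h6
      rw [Real.log_mul (by norm_num) (Real.exp_pos _).ne', Real.log_exp] at h9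
      have h10 : Real.log 4 ≤ 3 := by
        have := Real.log_le_sub_one_of_pos (show (0 : ℝ) < 4 by norm_num)
        linarith
      linarith
    refine ⟨p, ?_⟩
    unfold Pool.Agent.W23.DC.pr
    rw [mem_filter, mem_Icc]
    refine ⟨⟨hp.pos, ?_⟩, hp, (ttle p _).2 h7, (ttlt p _).2 h8⟩
    have h9 : Real.log p ≤ Real.log Y := by rw [← hL]; linarith
    exact_mod_cast (Real.log_le_log_iff hpr hYr).1 h9
  have hv1 : v t ≠ 1 ∧ v t ≠ -1 ∧ v t ≠ 0 := by
    have h4 := g6 p0 hp0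
    rw [hSq] at h4
    push Not at h4
    refine ⟨h4.2.1, h4.2.2, fun h => h4.1 ?_⟩
    rw [h]
    exact dvd_zero _
  rw [hvt] at hv1
  obtain ⟨v1, v2, v3⟩ := hv1
  have hnat0 : (a i0 * ((W * t + ν : ℕ) : ℤ) + b i0).natAbs ≠ 0 := Int.natAbs_ne_zero.2 v3
  refine ⟨W * t + ν, ?_, g1, g2, g3, ?_, ?_, ?_, ?_⟩
  · intro hmem
    apply g0
    rw [mem_image]
    refine ⟨W * t + ν, hmem, ?_⟩
    rw [Nat.add_sub_cancel]
    exact Nat.mul_div_cancel_left t hWpos
  · intro i p hp hpe hd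
    have h4 := logle p _ hp hpe
    rcases Nat.lt_or_ge w p with h | h
    · have h5 : min (e0 / 2) (1 / 20) * T ≤ e0 / 2 * T := by gcongr; exact min_le_left _ _
      have h6 : min (e0 / 2) (1 / 20) * T ≤ 1 / 20 * T := by gcongr; exact min_le_right _ _
      have h7 : e0 / 2 * T ≤ e0 * L := by nlinarith
      exact g4 p hp h ((ttlt p _).2 (by linarith)) (hdv i p hp h (by linarith) (Or.inr (h4.trans (h5.trans h7))) hd)
    · exact hsmall i p hp h hd
  · intro p hp hpe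
    have h4 := logle p _ hp hpe
    exact hlow p hp (by linarith)
  · have h4 : (a i0 * ((W * t + ν : ℕ) : ℤ) + b i0).natAbs ≠ 1 := by
      intro h
      rcases Int.natAbs_eq_iff.1 h with h5 | h5
      · exact v1 (by exact_mod_cast h5)
      · exact v2 (by exact_mod_cast h5)
    omega
  · apply Om3 (Real.exp (17 / 50 * L)) (Real.one_lt_exp_iff.2 (by positivity)) _ hnat0
    · have hn : ((W * t + ν : ℕ) : ℝ) ≤ 3 * Real.exp (101 / 100 * T) := by
        refine le_trans ?_ g3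
        have : W * t + ν ≤ c * (W * t + ν) + d := (Nat.le_mul_of_pos_left _ (by omega)).trans (Nat.le_add_right _ _)
        exact_mod_cast this
      have h4 : (((a i0 * ((W * t + ν : ℕ) : ℤ) + b i0).natAbs : ℕ) : ℝ) ≤ 4 * Real.exp (1019 / 1000 * T) := by
        rw [Nat.cast_natAbs, Int.cast_abs, Int.cast_add, Int.cast_mul, Int.cast_natCast]
        calc |(a i0 : ℝ) * ((W * t + ν : ℕ) : ℝ) + (b i0 : ℝ)| ≤ |(a i0 : ℝ) * ((W * t + ν : ℕ) : ℝ)| + |(b i0 : ℝ)| := abs_add_le _ _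
          _ = |(a i0 : ℝ)| * ((W * t + ν : ℕ) : ℝ) + |(b i0 : ℝ)| := by rw [abs_mul, Nat.abs_cast]
          _ ≤ Real.exp (T / 500) * (3 * Real.exp (101 / 100 * T)) + Real.exp (1019 / 1000 * T) := by gcongr
          _ = 3 * Real.exp (T / 500 + 101 / 100 * T) + Real.exp (1019 / 1000 * T) := by
              rw [Real.exp_add]
              ring
          _ ≤ 3 * Real.exp (1019 / 1000 * T) + Real.exp (1019 / 1000 * T) := by
              gcongr
              linarith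
          _ = 4 * Real.exp (1019 / 1000 * T) := by ring
      refine lt_of_le_of_lt h4 ?_
      have h5 : (4 : ℝ) ≤ Real.exp 3 := by
        have := Real.add_one_le_exp (3 : ℝ)
        linarith
      calc 4 * Real.exp (1019 / 1000 * T) ≤ Real.exp 3 * Real.exp (1019 / 1000 * T) := by gcongr
        _ = Real.exp (3 + 1019 / 1000 * T) := by rw [← Real.exp_add]
        _ < Real.exp ((3 : ℕ) * (17 / 50 * L)) := by
            apply Real.exp_lt_exp.2
            push_cast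
            linarith
        _ = Real.exp (17 / 50 * L) ^ 3 := by rw [Real.exp_nat_mul]
    · intro p q hp hq hpd hqd hpU hqU
      have key : ∀ p : ℕ, p.Prime → p ∣ (a i0 * ((W * t + ν : ℕ) : ℤ) + b i0).natAbs → (p : ℝ) < Real.exp (17 / 50 * L) →
          p ∈ (pr Y (1 / 8) (17 / 50)).filter (fun p => t % p ∈ H p) := by
        intro p hp hpd hpU
        have hpd' : (p : ℤ) ∣ a i0 * ((W * t + ν : ℕ) : ℤ) + b i0 := Int.natCast_dvd.2 hpd
        have hpr : (0 : ℝ) < p := by exact_mod_cast hp.pos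
        have h4 : Real.log p < 17 / 50 * L := (Real.log_lt_iff_lt_exp hpr).2 hpU
        have h5 : 1 / 8 * L ≤ Real.log p := by
          by_contra hc
          push Not at hc
          exact hlow p hp hc hpd'
        have hwp : w < p := by
          apply hbig
          have : e0 * L ≤ 1 / 8 * L := by gcongr; linarith
          linarith
        rw [mem_filter]
        refine ⟨?_, hdv i0 p hp hwp (by linarith) (Or.inl rfl) hpd'⟩
        unfold Pool.Agent.W23.DC.pr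
        rw [mem_filter, mem_Icc]
        refine ⟨⟨hp.pos, ?_⟩, hp, (ttle p _).2 h5, (ttlt p _).2 h4⟩
        have h9 : Real.log p ≤ Real.log Y := by rw [← hL]; linarith
        exact_mod_cast (Real.log_le_log_iff hpr hYr).1 h9
      exact card_le_one.1 g5 p (key p hp hpd hpU) q (key q hq hqd hqU)
    · intro p hp hpU hpd
      have hpr : (0 : ℝ) < p := by exact_mod_cast hp.pos
      have h4 : Real.log p < 17 / 50 * L := (Real.log_lt_iff_lt_exp hpr).2 hpU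
      have h5 : 1 / 8 * L ≤ Real.log p := by
        by_contra hc
        push Not at hc
        exact hlow p hp hc (Int.natCast_dvd.2 ((dvd_pow_self p two_ne_zero).trans hpd))
      have hmem : p ∈ pr Y (1 / 8) (17 / 50) := by
        unfold Pool.Agent.W23.DC.pr
        rw [mem_filter, mem_Icc]
        refine ⟨⟨hp.pos, ?_⟩, hp, (ttle p _).2 h5, (ttlt p _).2 h4⟩
        have h9 : Real.log p ≤ Real.log Y := by rw [← hL]; linarith
        exact_mod_cast (Real.log_le_log_iff hpr hYr).1 h9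
      apply g6 p hmem
      rw [hSq]
      left
      rw [hvt]
      exact Int.natCast_dvd.2 hpd

end Pool.Agent.H536.OC
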