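import Mathlib
import Pool.Agent.H536.OC.Wd

open Finset Filter Topology

/-! Subtask (helper536), proved by helper294: composite values. -/

namespace Pool.Agent.H536.OC

open Pool.Agent.Y882 Pool.Agent.W23.DC Pool.Agent.H536.OB
open Pool.Agent.H318R2.Cr (V Pz mem_Pz V_pos cz_bounds one_sub_inv_pos)
open Pool.Agent.H262R3.Lk (wM)

namespace Comps

open Classical in
/-- the part with one given prime factor -/
theorem one_p {κ : ℕ} {Y q z : ℕ} [NeZero q] {χ : DirichletCharacter ℂ q} {P : Finset ℕ}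
    (hY1 : 1 ≤ Y) (hχ2 : χ ^ 2 = 1) (hP : ∀ p ∈ P, p.Prime ∧ p ≤ z)
    (hfund : ∀ (B : ℕ) (H : ℕ → Finset ℕ), 1 ≤ B → B ≤ q → B.Coprime q → cr χ B = 1 →
      (∀ p ∈ P, H p ⊆ range p ∧ (H p).card ≤ κ ∧ (¬ p ∣ q → ∃ c ∈ H p, p ∣ q * c + B)) →
      0 < LV χ * VV χ P H ∧
      ∀ T0 : ℕ, (Y : ℝ) ^ (48 / 100 : ℝ) ≤ T0 →
        |SS χ B T0 P H - 2 * (T0 * (LV χ * VV χ P H))| ≤ (T0 * (LV χ * VV χ P H)) / 4)
    {B : ℕ} {H : ℕ → Finset ℕ} (hBq : B ≤ q) (hB1 : 1 ≤ B) (hBχ : cr χ B = 1)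
    (hH : ∀ p ∈ P, H p ⊆ range p ∧ (H p).card ≤ κ ∧ (¬ p ∣ q → ∃ c ∈ H p, p ∣ q * c + B))
    {p1 : ℕ} (hp1 : p1.Prime) (hp1z : z < p1) (hp1Y : (p1 : ℝ) ≤ (Y : ℝ) ^ (51 / 100 : ℝ))
    (hχp : cr χ p1 = 1) :
    ∑ t ∈ ((range Y).filter (fun t => ∀ p ∈ P, t % p ∉ H p)).filter (fun t => p1 ∣ q * t + B),
      rr χ (q * t + B) ≤ 9 * ((Y : ℝ) * (LV χ * VV χ P H)) * (1 / (p1 : ℝ)) := by
  have hqpos : 0 < q := Nat.pos_of_ne_zero (NeZero.ne q)
  have hYr : (1 : ℝ) ≤ Y := by exact_mod_cast hY1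
  have hYpos : (0 : ℝ) < Y := by linarith
  have hp1q : p1.Coprime q := cr_coprime hχp
  obtain ⟨N1, _, hN1, _⟩ := cls (a := q) (b := B) (W := 1) (ν := 0) (m := p1)
    (Nat.coprime_one_left _) hp1q.symm hp1.one_lt.le
  obtain ⟨t1, ht1⟩ : ∃ t1 : ℕ, t1 = N1 % p1 := ⟨_, rfl⟩
  have ht1lt : t1 < p1 := by rw [ht1]; exact Nat.mod_lt _ hp1.pos
  have hd : p1 ∣ q * t1 + B := by
    have h1 : q * t1 + B ≡ q * N1 + B [MOD p1] := by
      rw [ht1]
      exact Nat.ModEq.add_right _ (Nat.ModEq.mul_left _ (Nat.mod_modEq _ _))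
    exact (Nat.modEq_zero_iff_dvd).1 (h1.trans ((Nat.modEq_zero_iff_dvd).2 hN1))
  obtain ⟨B1, hB1e⟩ := hd
  have hB1pos : 0 < B1 := by
    rcases Nat.eq_zero_or_pos B1 with h | h
    · rw [h, mul_zero] at hB1e
      omega
    · exact h
  have hB1q : B1 ≤ q := by
    have h1 : p1 * B1 ≤ p1 * q := by
      rw [← hB1e]
      calc q * t1 + B ≤ q * (p1 - 1) + q := by
            apply Nat.add_le_add _ hBq
            exact Nat.mul_le_mul_left _ (by omega)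
        _ = q * (p1 - 1 + 1) := by ring
        _ = p1 * q := by rw [Nat.sub_add_cancel hp1.one_lt.le, mul_comm]
    exact Nat.le_of_mul_le_mul_left h1 hp1.pos
  have hB1χ : cr χ B1 = 1 := by
    have h1 : cr χ (q * t1 + B) = cr χ B := cr_AP χ t1 B
    rw [hB1e, cr_mul hχ2, hχp, hBχ, one_mul] at h1
    exact h1
  have hcop : ∀ p ∈ P, p.Coprime p1 := by
    intro p hp
    apply (Nat.coprime_primes (hP p hp).1 hp1).2
    have := (hP p hp).2
    omega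
  have hH1 : ∀ p ∈ P, H1f H p1 t1 p ⊆ range p ∧ (H1f H p1 t1 p).card ≤ κ ∧
      (¬ p ∣ q → ∃ c ∈ H1f H p1 t1 p, p ∣ q * c + B1) := by
    intro p hp
    have hh := hH p hp
    refine ⟨?_, ?_, fun hpq => ?_⟩
    · unfold H1f
      exact filter_subset _ _
    · rw [H1_card (hP p hp).1.pos (hcop p hp) hh.1]
      exact hh.2.1
    · exact H1_class (hP p hp).1 (hcop p hp) hh.1 hB1e (hh.2.2 hpq)
  have hVV : VV χ P (H1f H p1 t1) = VV χ P H := VV_congr fun p hp =>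
    H1_card (hP p hp).1.pos (hcop p hp) (hH p hp).1
  have h1 := sub_bound hχ2 (T0 := Y) hqpos hB1pos P H hp1 hχp ht1lt hB1e
  refine h1.trans ?_
  have hp0 : (0 : ℝ) < p1 := by exact_mod_cast hp1.pos
  have hT1 : (Y : ℝ) ^ (48 / 100 : ℝ) ≤ ((Y / p1 + 1 : ℕ) : ℝ) := by
    have h2 : (Y : ℝ) / p1 ≤ ((Y / p1 + 1 : ℕ) : ℝ) := by
      rw [div_le_iff₀ hp0]
      have h3 : Y ≤ (Y / p1 + 1) * p1 := by
        have h4 := Nat.div_add_mod Y p1
        have h5 := Nat.mod_lt Y hp1.pos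
        have h6 : (Y / p1 + 1) * p1 = p1 * (Y / p1) + p1 := by ring
        omega
      exact_mod_cast h3
    refine le_trans ?_ h2
    rw [le_div_iff₀ hp0]
    calc (Y : ℝ) ^ (48 / 100 : ℝ) * p1 ≤ (Y : ℝ) ^ (48 / 100 : ℝ) * (Y : ℝ) ^ (51 / 100 : ℝ) := by
          gcongr
      _ = (Y : ℝ) ^ (99 / 100 : ℝ) := by
          rw [← Real.rpow_add hYpos]
          norm_num
      _ ≤ (Y : ℝ) ^ (1 : ℝ) := Real.rpow_le_rpow_of_exponent_le hYr (by norm_num)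
      _ = Y := Real.rpow_one _
  obtain ⟨hU, hf⟩ := hfund B1 (H1f H p1 t1) hB1pos hB1q (cr_coprime hB1χ) hB1χ hH1
  have h2 := (abs_le.1 (hf _ hT1)).2
  rw [hVV] at h2 hU
  set U := LV χ * VV χ P H with hUdef
  have hT1r : ((Y / p1 + 1 : ℕ) : ℝ) ≤ 2 * (Y * (1 / (p1 : ℝ))) := by
    have h3 : ((Y / p1 : ℕ) : ℝ) ≤ (Y : ℝ) / p1 := Nat.cast_div_le
    have h4 : (p1 : ℝ) ≤ Y := by
      refine hp1Y.trans ?_
      calc (Y : ℝ) ^ (51 / 100 : ℝ) ≤ (Y : ℝ) ^ (1 : ℝ) :=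
            Real.rpow_le_rpow_of_exponent_le hYr (by norm_num)
        _ = Y := Real.rpow_one _
    have h5 : 1 ≤ (Y : ℝ) / p1 := by rwa [le_div_iff₀ hp0, one_mul]
    push_cast
    rw [mul_one_div]
    linarith
  have h6 : SS χ B1 (Y / p1 + 1) P (H1f H p1 t1) ≤ 9 / 4 * (((Y / p1 + 1 : ℕ) : ℝ) * U) := by
    linarith
  calc 2 * SS χ B1 (Y / p1 + 1) P (H1f H p1 t1) ≤ 2 * (9 / 4 * (((Y / p1 + 1 : ℕ) : ℝ) * U)) := by
        linarith
    _ ≤ 2 * (9 / 4 * ((2 * (Y * (1 / (p1 : ℝ)))) * U)) := by gcongr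
    _ = 9 * ((Y : ℝ) * U) * (1 / (p1 : ℝ)) := by ring

open Classical in
/-- the sum over the square factors -/
theorem squares {Y q z Y1 : ℕ} [NeZero q] {χ : DirichletCharacter ℂ q} {P : Finset ℕ} (hz : 1 ≤ z)
    {B : ℕ} {H : ℕ → Finset ℕ} (hBχ : cr χ B = 1) {R0 : ℕ}
    (hr : ∀ t < Y, (∀ p ∈ P, t % p ∉ H p) → rr χ (q * t + B) ≤ 2 ^ R0) :
    ∑ p1 ∈ (Ioc z Y1).filter Nat.Prime,
      ∑ t ∈ ((range Y).filter (fun t => ∀ p ∈ P, t % p ∉ H p)).filter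
        (fun t => p1 ^ 2 ∣ q * t + B), rr χ (q * t + B) ≤
      2 ^ R0 * ((Y : ℝ) * (1 / (z : ℝ)) + Y1) := by
  have hT0pos : (0 : ℝ) ≤ Y := Nat.cast_nonneg _
  have h1 : ∀ p1 ∈ (Ioc z Y1).filter Nat.Prime,
      ∑ t ∈ ((range Y).filter (fun t => ∀ p ∈ P, t % p ∉ H p)).filter
        (fun t => p1 ^ 2 ∣ q * t + B), rr χ (q * t + B) ≤
      2 ^ R0 * ((Y : ℝ) * (1 / ((p1 : ℝ) * ((p1 : ℝ) - 1))) + 1) := by
    intro p1 hp1
    rw [mem_filter, mem_Ioc] at hp1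
    refine (sq_bound (cr_coprime hBχ) P H hp1.2 (by positivity) hr).trans ?_
    apply mul_le_mul_of_nonneg_left _ (by positivity)
    apply add_le_add _ le_rfl
    rw [mul_one_div]
    have hp2 : (2 : ℝ) ≤ p1 := by exact_mod_cast hp1.2.two_le
    apply div_le_div_of_nonneg_left hT0pos
    · apply mul_pos <;> linarith
    · nlinarith
  refine (sum_le_sum h1).trans ?_
  rw [← mul_sum, sum_add_distrib, ← mul_sum]
  have h2 := sq_sum (y := z) hz ((Ioc z Y1).filter Nat.Prime) (by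
    intro n hn
    rw [mem_filter, mem_Ioc] at hn
    exact hn.1.1)
  have h3 : ∑ p1 ∈ (Ioc z Y1).filter Nat.Prime, (1 : ℝ) ≤ Y1 := by
    rw [sum_const, nsmul_eq_mul, mul_one]
    have h4 : ((Ioc z Y1).filter Nat.Prime).card ≤ Y1 := by
      refine (card_filter_le _ _).trans ?_
      rw [Nat.card_Ioc]
      omega
    exact_mod_cast h4
  gcongr

end Comps

open Comps in
theorem comps (h : S_fund2) : S_comps := by
  classical
  intro κ
  obtain ⟨e0, he0, he0', hf⟩ := h κ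
  obtain ⟨Kp, M0, hKp, hPSL⟩ := PSL
  refine ⟨e0, 63 * Kp, he0, he0', by positivity, ?_⟩
  intro ε₂ hε hεe δ hδ hδε
  obtain ⟨N0, hN0⟩ := hf ε₂ hε hεe
  have hε200 : ε₂ ≤ 1 / 200 := hεe.trans he0'
  obtain ⟨R, hR⟩ : ∃ R : ℕ, R = ⌊2 / ε₂⌋₊ := ⟨_, rfl⟩
  obtain ⟨A3, hA3⟩ : ∃ A3 : ℕ, A3 = ⌈1 / δ⌉₊ := ⟨_, rfl⟩
  have tY : Tendsto (fun T : ℝ => ⌊Real.exp T⌋₊) atTop atTop :=
    tendsto_nat_floor_atTop.comp Real.tendsto_exp_atTop
  have tδ : Tendsto (fun T : ℝ => δ * T) atTop atTop := tendsto_id.const_mul_atTop hδ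
  have tM : Tendsto (fun T : ℝ => ⌊Real.exp (δ * T)⌋₊) atTop atTop :=
    tendsto_nat_floor_atTop.comp (Real.tendsto_exp_atTop.comp tδ)
  have twM : Tendsto wM atTop atTop := by
    have h1 : Tendsto (fun M : ℕ => Real.log M / 2) atTop atTop :=
      (Real.tendsto_log_atTop.comp tendsto_natCast_atTop_atTop).atTop_div_const (by norm_num)
    exact tendsto_nat_floor_atTop.comp h1
  have tYr : Tendsto (fun T : ℝ => ((⌊Real.exp T⌋₊ : ℕ) : ℝ)) atTop atTop :=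
    tendsto_natCast_atTop_atTop.comp tY
  have t10 : Tendsto (fun T : ℝ => Real.exp (1 / 10 * (δ * T))) atTop atTop :=
    Real.tendsto_exp_atTop.comp (tδ.const_mul_atTop (by norm_num))
  have ev := ((((((tY.eventually_ge_atTop (N0 + 2)).and
    ((twM.comp tM).eventually_ge_atTop (N0 + 2))).and (tM.eventually_ge_atTop M0)).and
    (((tendsto_rpow_atTop (y := (5 / 1000 : ℝ)) (by norm_num)).comp tYr).eventually_ge_atTop 2)).and
    (((tendsto_rpow_atTop (y := (4 / 10 * ε₂ : ℝ)) (by positivity)).comp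
      tYr).eventually_ge_atTop (4 * 2 ^ R))).and (t10.eventually_ge_atTop 2)).and
    (eventually_ge_atTop (2 : ℝ))
  obtain ⟨T0, hT0⟩ := eventually_atTop.1 ev
  refine ⟨T0, fun T hT w q _ χ hw hwq hqM hχ hχ2 P B H hPdef hB1 hBq hBc hBχ hH => ?_⟩
  obtain ⟨⟨⟨⟨⟨⟨a1, a2⟩, a3⟩, a4⟩, a5⟩, a6⟩, a7⟩ := hT0 T hT
  simp only [Function.comp_apply] at a2 a4 a5
  obtain ⟨Y, hYdef⟩ : ∃ Y : ℕ, Y = ⌊Real.exp T⌋₊ := ⟨_, rfl⟩
  obtain ⟨M, hMdef⟩ : ∃ M : ℕ, M = ⌊Real.exp (δ * T)⌋₊ := ⟨_, rfl⟩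
  rw [← hYdef] at a1 a4 a5 hPdef ⊢
  rw [← hMdef] at a2 a3 hw hqM ⊢
  rw [← hR]
  have hqpos : 0 < q := Nat.pos_of_ne_zero (NeZero.ne q)
  have hw2 : N0 + 2 ≤ w := a2.trans hw
  have hq2 : 2 ≤ q := Nat.le_of_dvd hqpos (hwq 2 Nat.prime_two (by omega))
  -- sizes
  have hylo : Real.exp (T / 2) ≤ (Y : ℝ) := by
    have h1 : Real.exp T - 1 < Y := by
      rw [hYdef]
      exact Nat.sub_one_lt_floor _
    have h2 : Real.exp T = Real.exp (T / 2) * Real.exp (T / 2) := by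
      rw [← Real.exp_add]
      congr 1
      ring
    have h3 : 2 ≤ Real.exp (T / 2) := by
      have := Real.add_one_le_exp (T / 2)
      linarith
    nlinarith
  have hyhi : (Y : ℝ) ≤ Real.exp T := by
    rw [hYdef]
    exact Nat.floor_le (Real.exp_pos _).le
  have hmhi : (M : ℝ) ≤ Real.exp (δ * T) := by
    rw [hMdef]
    exact Nat.floor_le (Real.exp_pos _).le
  have hT0' : 0 ≤ T := by linarith
  have hmlo : Real.exp (9 / 10 * (δ * T)) ≤ (M : ℝ) := by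
    have h1 : Real.exp (δ * T) - 1 < M := by
      rw [hMdef]
      exact Nat.sub_one_lt_floor _
    have h2 : Real.exp (δ * T) = Real.exp (9 / 10 * (δ * T)) * Real.exp (1 / 10 * (δ * T)) := by
      rw [← Real.exp_add]
      congr 1
      ring
    have h3 : 1 ≤ Real.exp (9 / 10 * (δ * T)) := Real.one_le_exp (by positivity)
    nlinarith
  have hY2 : 2 ≤ Y := by omega
  have hYr : (2 : ℝ) ≤ Y := by exact_mod_cast hY2
  have hy1 : (1 : ℝ) ≤ Y := by linarith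
  have hypos : (0 : ℝ) < Y := by linarith
  have hyexp : ∀ a : ℝ, 0 ≤ a → Real.exp (T / 2 * a) ≤ (Y : ℝ) ^ a := by
    intro a ha
    rw [Real.exp_mul]
    exact Real.rpow_le_rpow (Real.exp_pos _).le hylo ha
  have hqy : (q : ℝ) ≤ (Y : ℝ) ^ (ε₂ / 100) := by
    have h1 : (q : ℝ) ≤ (M : ℝ) ^ 2 := by exact_mod_cast hqM
    calc (q : ℝ) ≤ (M : ℝ) ^ 2 := h1
      _ ≤ Real.exp (δ * T) ^ 2 := by gcongr
      _ = Real.exp (2 * (δ * T)) := by
          rw [← Real.exp_nat_mul]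
          norm_num
      _ ≤ Real.exp (T / 2 * (ε₂ / 100)) := by
          apply Real.exp_le_exp.2
          nlinarith
      _ ≤ _ := hyexp _ (by positivity)
  obtain ⟨z, hz⟩ : ∃ z : ℕ, z = ⌊(Y : ℝ) ^ ε₂⌋₊ := ⟨_, rfl⟩
  obtain ⟨Y1, hY1⟩ : ∃ Y1 : ℕ, Y1 = ⌊(Y : ℝ) ^ (51 / 100 : ℝ)⌋₊ := ⟨_, rfl⟩
  have hyε1 : 1 ≤ (Y : ℝ) ^ ε₂ := Real.one_le_rpow hy1 hε.le
  have hMz : M ^ 32 ≤ z := by
    rw [hz]
    apply Nat.le_floor
    push_cast
    calc (M : ℝ) ^ 32 ≤ Real.exp (δ * T) ^ 32 := by gcongr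
      _ = Real.exp (32 * (δ * T)) := by
          rw [← Real.exp_nat_mul]
          norm_num
      _ ≤ Real.exp (T / 2 * ε₂) := by
          apply Real.exp_le_exp.2
          nlinarith
      _ ≤ _ := hyexp _ hε.le
  have hz1 : 1 ≤ z := by
    rw [hz]
    exact Nat.le_floor (by exact_mod_cast hyε1)
  have hzle : (z : ℝ) ≤ (Y : ℝ) ^ ε₂ := by
    rw [hz]
    exact Nat.floor_le (by positivity)
  have hzlt : (Y : ℝ) ^ ε₂ < z + 1 := by
    rw [hz]
    exact Nat.lt_floor_add_one _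
  have hY1le : (Y1 : ℝ) ≤ (Y : ℝ) ^ (51 / 100 : ℝ) := by
    rw [hY1]
    exact Nat.floor_le (by positivity)
  have hY1M : Y1 ≤ M ^ A3 := by
    have h1 : (1 : ℝ) / δ ≤ A3 := by
      rw [hA3]
      exact Nat.le_ceil _
    have h2 : (Y1 : ℝ) ≤ (M : ℝ) ^ A3 := by
      calc (Y1 : ℝ) ≤ (Y : ℝ) ^ (51 / 100 : ℝ) := hY1le
        _ ≤ Real.exp T ^ (51 / 100 : ℝ) := Real.rpow_le_rpow hypos.le hyhi (by norm_num)
        _ = Real.exp (T * (51 / 100)) := (Real.exp_mul _ _).symm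
        _ ≤ Real.exp (A3 * (9 / 10 * (δ * T))) := by
            apply Real.exp_le_exp.2
            have h3 : 1 ≤ A3 * δ := by
              rw [div_le_iff₀ hδ] at h1
              exact h1
            nlinarith
        _ = Real.exp (9 / 10 * (δ * T)) ^ A3 := Real.exp_nat_mul _ _
        _ ≤ (M : ℝ) ^ A3 := by gcongr
    exact_mod_cast h2
  have hPprop : ∀ p ∈ P, p.Prime ∧ w < p ∧ (p : ℝ) ≤ (Y : ℝ) ^ ε₂ := by
    intro p hp
    rw [hPdef, mem_filter] at hp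
    exact hp.2
  have hPz : ∀ p ∈ P, p.Prime ∧ p ≤ z := by
    intro p hp
    obtain ⟨h1, _, h3⟩ := hPprop p hp
    refine ⟨h1, ?_⟩
    rw [hz]
    exact Nat.le_floor h3
  have hfund := fun B H b1 b2 b3 b4 b5 => hN0 Y w q χ P (by omega) (by omega) hqy hχ hχ2 hPprop B H
    b1 b2 b3 b4 b5
  obtain ⟨hU, hfU⟩ := hfund B H hB1 hBq hBc hBχ hH
  have hU0 : 0 < LV χ * VV χ P H := lt_of_lt_of_le (by positivity) hU
  -- roughness
  have hrough : ∀ t, (∀ p ∈ P, t % p ∉ H p) → ∀ p : ℕ, p.Prime → p ∣ q * t + B →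
      (Y : ℝ) ^ ε₂ < p := by
    intro t ht p hp hd
    by_contra hle
    rw [not_lt] at hle
    have hBnd : ¬ p ∣ q := by
      intro hpq
      have h1 : p ∣ B := (Nat.dvd_add_right (hpq.mul_right t)).1 hd
      have h2 := Nat.dvd_gcd h1 hpq
      rw [hBc] at h2
      exact hp.one_lt.ne' (Nat.dvd_one.1 h2)
    have hwp : w < p := by
      by_contra hwp
      exact hBnd (hwq p hp (by omega))
    have hpY : p ≤ Y := by
      have h1 : (p : ℝ) ≤ (Y : ℝ) ^ (1 : ℝ) :=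
        hle.trans (Real.rpow_le_rpow_of_exponent_le hy1 (by linarith))
      rw [Real.rpow_one] at h1
      exact_mod_cast h1
    have hpP : p ∈ P := by
      rw [hPdef, mem_filter, mem_Icc]
      exact ⟨⟨hp.one_lt.le, hpY⟩, hp, hwp, hle⟩
    obtain ⟨h1, _, h3⟩ := hH p hpP
    obtain ⟨c, hc, hcd⟩ := h3 hBnd
    have hcp : c < p := mem_range.1 (h1 hc)
    have h4 : q * t + B ≡ q * c + B [MOD p] :=
      ((Nat.modEq_zero_iff_dvd).2 hd).trans ((Nat.modEq_zero_iff_dvd).2 hcd).symm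
    have h5 : t ≡ c [MOD p] := Nat.ModEq.cancel_left_of_coprime
      ((Nat.Prime.coprime_iff_not_dvd hp).2 hBnd) (Nat.ModEq.add_right_cancel' _ h4)
    have h6 : t % p = c := by
      have : t % p = c % p := h5
      rw [this, Nat.mod_eq_of_lt hcp]
    exact ht p hpP (by rw [h6]; exact hc)
  have hn0 : ∀ t, q * t + B ≠ 0 := fun t => by omega
  have hsize : ∀ t < Y, ((q * t + B : ℕ) : ℝ) ≤ (Y : ℝ) ^ (1 + ε₂ / 100) := by
    intro t ht
    have h1 : q * t + B ≤ q * Y := by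
      calc q * t + B ≤ q * t + q := by omega
        _ = q * (t + 1) := by ring
        _ ≤ q * Y := Nat.mul_le_mul_left _ ht
    have h2 : ((q * t + B : ℕ) : ℝ) ≤ (q : ℝ) * Y := by exact_mod_cast h1
    rw [Real.rpow_add hypos, Real.rpow_one, mul_comm (Y : ℝ)]
    exact h2.trans (mul_le_mul_of_nonneg_right hqy hypos.le)
  have hOm : ∀ t < Y, (∀ p ∈ P, t % p ∉ H p) →
      ArithmeticFunction.cardFactors (q * t + B) ≤ R := by
    intro t ht hs
    have h1 := cardF_bound (N := q * t + B) (Z := 0) (R1 := 0) (R0 := R) (U := (Y : ℝ) ^ ε₂) (hn0 t)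
      (Real.one_lt_rpow (by linarith) hε)
      (fun p hp hd => Or.inr (hrough t hs p hp hd)) (by simp) (by
        refine (hsize t ht).trans ?_
        rw [← Real.rpow_natCast, ← Real.rpow_mul hypos.le]
        apply Real.rpow_le_rpow_of_exponent_le hy1
        have h2 : 2 / ε₂ < R + 1 := by
          rw [hR]
          exact Nat.lt_floor_add_one _
        rw [div_lt_iff₀ hε] at h2
        nlinarith)
    rwa [zero_add] at h1
  have hrr : ∀ t < Y, (∀ p ∈ P, t % p ∉ H p) → rr χ (q * t + B) ≤ 2 ^ R := by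
    intro t ht hs
    have h1 := tau_le _ (hn0 t)
    have h2 := hOm t ht hs
    have h3 : (q * t + B).divisors.card ≤ 2 ^ R :=
      h1.trans (Nat.pow_le_pow_right (by norm_num) h2)
    refine (rr_le_tau hχ2 _).trans ?_
    exact_mod_cast h3
  refine ⟨hU, hrr, ?_⟩
  -- the composite values
  have hY1sq : ∀ t < Y, q * t + B ≤ Y1 ^ 2 := by
    intro t ht
    have h1 := hsize t ht
    have h2 : (Y : ℝ) ^ (505 / 1000 : ℝ) ≤ Y1 := by
      have h3 : (Y : ℝ) ^ (51 / 100 : ℝ) < Y1 + 1 := by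
        rw [hY1]
        exact Nat.lt_floor_add_one _
      have h4 : (Y : ℝ) ^ (51 / 100 : ℝ) = (Y : ℝ) ^ (5 / 1000 : ℝ) * (Y : ℝ) ^ (505 / 1000 : ℝ) := by
        rw [← Real.rpow_add hypos]
        norm_num
      have h5 : 1 ≤ (Y : ℝ) ^ (505 / 1000 : ℝ) := Real.one_le_rpow hy1 (by norm_num)
      nlinarith
    have h3 : ((q * t + B : ℕ) : ℝ) ≤ (Y1 : ℝ) ^ 2 := by
      calc ((q * t + B : ℕ) : ℝ) ≤ (Y : ℝ) ^ (1 + ε₂ / 100) := h1
        _ ≤ (Y : ℝ) ^ (101 / 100 : ℝ) :=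
            Real.rpow_le_rpow_of_exponent_le hy1 (by linarith)
        _ = ((Y : ℝ) ^ (505 / 1000 : ℝ)) ^ 2 := by
            rw [← Real.rpow_natCast, ← Real.rpow_mul hypos.le]
            norm_num
        _ ≤ (Y1 : ℝ) ^ 2 := by gcongr
    exact_mod_cast h3
  have hterm : ∀ t ∈ (range Y).filter (fun t => (∀ p ∈ P, t % p ∉ H p) ∧ ¬ (q * t + B).Prime),
      rr χ (q * t + B) ≤ (if t = 0 then (1 : ℝ) else 0) +
      (∑ p ∈ (Ioc z Y1).filter (fun p => p.Prime ∧ cr χ p = 1),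
        (if p ∣ q * t + B then rr χ (q * t + B) else 0) +
      ∑ p ∈ (Ioc z Y1).filter Nat.Prime, (if p ^ 2 ∣ q * t + B then rr χ (q * t + B) else 0)) := by
    intro t ht
    rw [mem_filter, mem_range] at ht
    by_cases h1 : q * t + B = 1
    · have ht0 : t = 0 := by
        rcases Nat.eq_zero_or_pos t with h | h
        · exact h
        · have : 2 * 1 ≤ q * t := Nat.mul_le_mul hq2 h
          omega
      rw [if_pos ht0]
      have h3 : 0 ≤ ∑ p ∈ (Ioc z Y1).filter (fun p => p.Prime ∧ cr χ p = 1),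
          (if p ∣ q * t + B then rr χ (q * t + B) else 0) := by
        apply sum_nonneg
        intro p _
        split_ifs
        · exact rr_nonneg hχ2 _
        · exact le_rfl
      have h4 : 0 ≤ ∑ p ∈ (Ioc z Y1).filter Nat.Prime,
          (if p ^ 2 ∣ q * t + B then rr χ (q * t + B) else 0) := by
        apply sum_nonneg
        intro p _
        split_ifs
        · exact rr_nonneg hχ2 _
        · exact le_rfl
      have h5 : rr χ (q * t + B) = 1 := by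
        rw [h1]
        unfold rr
        rw [Nat.divisors_one, sum_singleton, cr_one]
      linarith
    · have h2 : 2 ≤ q * t + B := by omega
      have h3 : 0 ≤ (if t = 0 then (1 : ℝ) else 0) := by split_ifs <;> norm_num
      have h4 := comp_bound hχ2 (n := q * t + B) (z := z) (Y1 := Y1) h2 ht.2.2
        (by rw [cr_AP]; exact hBχ) (fun p hp hd => by
          have h5 := hrough t ht.2.1 p hp hd
          have h6 : (z : ℝ) < p := lt_of_le_of_lt hzle h5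
          exact_mod_cast h6) (hY1sq t ht.1)
      linarith
  have hsub : (range Y).filter (fun t => (∀ p ∈ P, t % p ∉ H p) ∧ ¬ (q * t + B).Prime) ⊆
      (range Y).filter (fun t => ∀ p ∈ P, t % p ∉ H p) := by
    intro t ht
    rw [mem_filter] at ht ⊢
    exact ⟨ht.1, ht.2.1⟩
  have hone : ∀ p1 ∈ (Ioc z Y1).filter (fun p => p.Prime ∧ cr χ p = 1),
      ∑ t ∈ ((range Y).filter (fun t => ∀ p ∈ P, t % p ∉ H p)).filter (fun t => p1 ∣ q * t + B),
        rr χ (q * t + B) ≤ 9 * ((Y : ℝ) * (LV χ * VV χ P H)) * (1 / (p1 : ℝ)) := by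
    intro p1 hp1
    rw [mem_filter, mem_Ioc] at hp1
    refine one_p (κ := κ) (by omega) hχ2 hPz ?_ hBq hB1 hBχ hH hp1.2.1 hp1.1.1 ?_ hp1.2.2
    · intro B' H' b1 b2 b3 b4 b5
      obtain ⟨u1, u2⟩ := hfund B' H' b1 b2 b3 b4 b5
      exact ⟨lt_of_lt_of_le (by positivity) u1, u2⟩
    · have h1 : (p1 : ℝ) ≤ Y1 := by exact_mod_cast hp1.1.2
      exact h1.trans hY1le
  have hps := hPSL A3 M q χ a3 hqM hq2 (fun p hp hpw => hwq p hp (hpw.trans hw)) hχ hχ2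
  have hps' : ∑ p ∈ (Ioc z Y1).filter (fun p => p.Prime ∧ cr χ p = 1), 1 / (p : ℝ) ≤
      Kp * (3 * A3 + 1) * ell (M ^ 32) χ := by
    refine le_trans ?_ hps
    apply sum_le_sum_of_subset_of_nonneg
    · apply filter_subset_filter
      exact Ioc_subset_Ioc hMz hY1M
    · intro p _ _
      positivity
  have hsq := squares (q := q) (Y := Y) (Y1 := Y1) (P := P) (H := H) hz1 hBχ (R0 := R) hrr
  have hell := ell_pos (z := M ^ 32) hχ hχ2
  have hmain : ∑ t ∈ (range Y).filter (fun t => (∀ p ∈ P, t % p ∉ H p) ∧ ¬ (q * t + B).Prime),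
      rr χ (q * t + B) ≤ 1 + (9 * ((Y : ℝ) * (LV χ * VV χ P H)) *
        (Kp * (3 * A3 + 1) * ell (M ^ 32) χ) + 2 ^ R * ((Y : ℝ) * (1 / (z : ℝ)) + Y1)) := by
    refine (sum_le_sum hterm).trans ?_
    have hmono : ∑ t ∈ (range Y).filter (fun t => (∀ p ∈ P, t % p ∉ H p) ∧ ¬ (q * t + B).Prime),
        ((if t = 0 then (1 : ℝ) else 0) +
        (∑ p ∈ (Ioc z Y1).filter (fun p => p.Prime ∧ cr χ p = 1),
          (if p ∣ q * t + B then rr χ (q * t + B) else 0) +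
        ∑ p ∈ (Ioc z Y1).filter Nat.Prime, (if p ^ 2 ∣ q * t + B then rr χ (q * t + B) else 0))) ≤
        ∑ t ∈ (range Y).filter (fun t => ∀ p ∈ P, t % p ∉ H p),
        ((if t = 0 then (1 : ℝ) else 0) +
        (∑ p ∈ (Ioc z Y1).filter (fun p => p.Prime ∧ cr χ p = 1),
          (if p ∣ q * t + B then rr χ (q * t + B) else 0) +
        ∑ p ∈ (Ioc z Y1).filter Nat.Prime, (if p ^ 2 ∣ q * t + B then rr χ (q * t + B) else 0))) := by
      apply sum_le_sum_of_subset_of_nonneg hsub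
      intro t _ _
      apply add_nonneg
      · split_ifs <;> norm_num
      · apply add_nonneg <;>
        · apply sum_nonneg
          intro p _
          split_ifs
          · exact rr_nonneg hχ2 _
          · exact le_rfl
    refine hmono.trans ?_
    rw [sum_add_distrib, sum_add_distrib]
    apply add_le_add
    · rw [← sum_filter]
      have h1 : (((range Y).filter (fun t => ∀ p ∈ P, t % p ∉ H p)).filter
          (fun t => t = 0)).card ≤ 1 := by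
        rw [card_le_one]
        intro x hx y hy
        rw [mem_filter] at hx hy
        rw [hx.2, hy.2]
      rw [sum_const, nsmul_eq_mul, mul_one]
      exact_mod_cast h1
    · apply add_le_add
      · rw [sum_comm]
        calc ∑ p ∈ (Ioc z Y1).filter (fun p => p.Prime ∧ cr χ p = 1),
              ∑ t ∈ (range Y).filter (fun t => ∀ p ∈ P, t % p ∉ H p),
                (if p ∣ q * t + B then rr χ (q * t + B) else 0) ≤
            ∑ p ∈ (Ioc z Y1).filter (fun p => p.Prime ∧ cr χ p = 1),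
              9 * ((Y : ℝ) * (LV χ * VV χ P H)) * (1 / (p : ℝ)) := by
              apply sum_le_sum
              intro p hp
              rw [← sum_filter]
              exact hone p hp
          _ = 9 * ((Y : ℝ) * (LV χ * VV χ P H)) *
              ∑ p ∈ (Ioc z Y1).filter (fun p => p.Prime ∧ cr χ p = 1), 1 / (p : ℝ) := by
              rw [mul_sum]
          _ ≤ 9 * ((Y : ℝ) * (LV χ * VV χ P H)) * (Kp * (3 * A3 + 1) * ell (M ^ 32) χ) :=
              mul_le_mul_of_nonneg_left hps' (by positivity)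
      · rw [sum_comm]
        refine le_trans (le_of_eq ?_) hsq
        apply sum_congr rfl
        intro p _
        rw [sum_filter]
        rw [sum_filter]
        rw [sum_filter]
  refine hmain.trans ?_
  set U := LV χ * VV χ P H with hUdef
  -- numerics
  have n1 : 9 * ((Y : ℝ) * U) * (Kp * (3 * A3 + 1) * ell (M ^ 32) χ) ≤
      63 * Kp / δ * ell (M ^ 32) χ * (Y * U) := by
    have h1 : (A3 : ℝ) < 1 / δ + 1 := by
      rw [hA3]
      exact Nat.ceil_lt_add_one (by positivity)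
    have h2 : (1 : ℝ) ≤ 1 / δ := by
      rw [le_div_iff₀ hδ, one_mul]
      linarith
    have h3 : 3 * (A3 : ℝ) + 1 ≤ 7 * (1 / δ) := by linarith
    calc 9 * ((Y : ℝ) * U) * (Kp * (3 * A3 + 1) * ell (M ^ 32) χ) ≤
          9 * ((Y : ℝ) * U) * (Kp * (7 * (1 / δ)) * ell (M ^ 32) χ) := by gcongr
      _ = 63 * Kp / δ * ell (M ^ 32) χ * (Y * U) := by ring
  have n2 : 1 + 2 ^ R * ((Y : ℝ) * (1 / (z : ℝ)) + Y1) ≤ (Y : ℝ) ^ (-(ε₂ / 2)) * (Y * U) := by
    have h1 : (Y : ℝ) * (1 / (z : ℝ)) ≤ 2 * (Y : ℝ) ^ (1 - ε₂) := by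
      have hz0 : (0 : ℝ) < z := by exact_mod_cast hz1
      have h2 : (Y : ℝ) ^ ε₂ ≤ 2 * z := by
        have : (1 : ℝ) ≤ z := by exact_mod_cast hz1
        linarith
      rw [mul_one_div, div_le_iff₀ hz0]
      have h3 : (Y : ℝ) = (Y : ℝ) ^ (1 - ε₂) * (Y : ℝ) ^ ε₂ := by
        rw [← Real.rpow_add hypos, sub_add_cancel, Real.rpow_one]
      calc (Y : ℝ) = (Y : ℝ) ^ (1 - ε₂) * (Y : ℝ) ^ ε₂ := h3
        _ ≤ (Y : ℝ) ^ (1 - ε₂) * (2 * z) := by gcongr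
        _ = 2 * (Y : ℝ) ^ (1 - ε₂) * z := by ring
    have h2 : (Y1 : ℝ) ≤ (Y : ℝ) ^ (1 - ε₂) :=
      hY1le.trans (Real.rpow_le_rpow_of_exponent_le hy1 (by linarith))
    have h3 : 1 ≤ (Y : ℝ) ^ (1 - ε₂) := Real.one_le_rpow hy1 (by linarith)
    have hR1 : (1 : ℝ) ≤ 2 ^ R := one_le_pow₀ (by norm_num)
    have h4 : 1 + 2 ^ R * ((Y : ℝ) * (1 / (z : ℝ)) + Y1) ≤ 4 * 2 ^ R * (Y : ℝ) ^ (1 - ε₂) := by
      have h5 : 2 ^ R * ((Y : ℝ) * (1 / (z : ℝ)) + Y1) ≤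
          2 ^ R * (3 * (Y : ℝ) ^ (1 - ε₂)) := by
        apply mul_le_mul_of_nonneg_left _ (by positivity)
        linarith
      have h6 : (1 : ℝ) ≤ 2 ^ R * (Y : ℝ) ^ (1 - ε₂) := by nlinarith
      linarith
    refine h4.trans ?_
    calc 4 * 2 ^ R * (Y : ℝ) ^ (1 - ε₂) ≤ (Y : ℝ) ^ (4 / 10 * ε₂) * (Y : ℝ) ^ (1 - ε₂) := by
          gcongr
      _ = (Y : ℝ) ^ (-(ε₂ / 2)) * (Y * (Y : ℝ) ^ (-(ε₂ / 10))) := by
          rw [← Real.rpow_add hypos]
          nth_rewrite 3 [← Real.rpow_one (Y : ℝ)]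
          rw [← Real.rpow_add hypos, ← Real.rpow_add hypos]
          congr 1
          ring
      _ ≤ (Y : ℝ) ^ (-(ε₂ / 2)) * (Y * U) := by gcongr
  calc 1 + (9 * ((Y : ℝ) * U) * (Kp * (3 * A3 + 1) * ell (M ^ 32) χ) +
        2 ^ R * ((Y : ℝ) * (1 / (z : ℝ)) + Y1)) ≤
        63 * Kp / δ * ell (M ^ 32) χ * (Y * U) + (Y : ℝ) ^ (-(ε₂ / 2)) * (Y * U) := by linarith
    _ = (63 * Kp / δ * ell (M ^ 32) χ + (Y : ℝ) ^ (-(ε₂ / 2))) * (Y * U) := by ring

end Pool.Agent.H536.OC
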