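import Mathlib
import Pool.Agent.H536.OC.Wd

open Finset Filter Topology

/-! Subtask (helper536), proved by helper139: the fundamental lemma for the weights `1 * χ`. -/

namespace Pool.Agent.H536.OC

open Pool.Agent.Y882 Pool.Agent.W23.DC Pool.Agent.H536.OB
open Pool.Agent.H318R2.Cr (V Pz mem_Pz V_pos cz_bounds one_sub_inv_pos)
open Pool.Agent.H262R3.Lk (wM)

theorem fund2_facts (κ : ℕ) (c c' ε₂ : ℝ) (hc : 0 < c) (hc' : 0 < c') (hε : 0 < ε₂) : ∀ᶠ Y : ℕ in atTop,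
    3 ≤ Y ∧ 3 ≤ (Y : ℝ) ^ ε₂ ∧ 208 ≤ (Y : ℝ) ^ (47 / 200 : ℝ) ∧ 16 ≤ (Y : ℝ) ^ (48 / 100 : ℝ) ∧
    (Y : ℝ) ^ (-(ε₂ / 10)) ≤ c * (Y : ℝ) ^ (-(ε₂ / 50)) * (c' / (ε₂ * Real.log Y)) ^ (2 * κ + 1) := by
  have hcast : Tendsto (fun Y : ℕ => (Y : ℝ)) atTop atTop := tendsto_natCast_atTop_atTop
  have h1 : ∀ᶠ Y : ℕ in atTop, (3 : ℝ) ≤ (Y : ℝ) ^ ε₂ :=
    ((tendsto_rpow_atTop hε).comp hcast).eventually_ge_atTop 3
  have h2 : ∀ᶠ Y : ℕ in atTop, (208 : ℝ) ≤ (Y : ℝ) ^ (47 / 200 : ℝ) :=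
    ((tendsto_rpow_atTop (by norm_num : (0 : ℝ) < 47 / 200)).comp hcast).eventually_ge_atTop 208
  have h3 : ∀ᶠ Y : ℕ in atTop, (16 : ℝ) ≤ (Y : ℝ) ^ (48 / 100 : ℝ) :=
    ((tendsto_rpow_atTop (by norm_num : (0 : ℝ) < 48 / 100)).comp hcast).eventually_ge_atTop 16
  have hpl : ∀ᶠ Y : ℕ in atTop, (ε₂ ^ (2 * κ + 1) / (c * c' ^ (2 * κ + 1))) * (Real.log Y) ^ (2 * κ + 1) ≤
      (Y : ℝ) ^ (2 * ε₂ / 25) :=
    hcast.eventually (poly_log (ε₂ ^ (2 * κ + 1) / (c * c' ^ (2 * κ + 1))) (2 * κ + 1) (by positivity))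
  filter_upwards [eventually_ge_atTop 3, h1, h2, h3, hpl] with Y g1 g2 g3 g4 g5
  refine ⟨g1, g2, g3, g4, ?_⟩
  have hY : (3 : ℝ) ≤ Y := by exact_mod_cast g1
  have hY0 : (0 : ℝ) < Y := by linarith
  have hl : 0 < Real.log Y := Real.log_pos (by linarith)
  have k1 : (Y : ℝ) ^ (-(ε₂ / 50)) = (Y : ℝ) ^ (-(ε₂ / 10)) * (Y : ℝ) ^ (2 * ε₂ / 25) := by
    rw [← Real.rpow_add hY0]
    congr 1
    ring
  rw [k1]
  have k2 : 0 < (Y : ℝ) ^ (-(ε₂ / 10)) := Real.rpow_pos_of_pos hY0 _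
  have k3 : 1 ≤ c * (Y : ℝ) ^ (2 * ε₂ / 25) * (c' / (ε₂ * Real.log Y)) ^ (2 * κ + 1) := by
    have k4 : 1 = c * ((ε₂ ^ (2 * κ + 1) / (c * c' ^ (2 * κ + 1))) * (Real.log Y) ^ (2 * κ + 1)) *
        (c' / (ε₂ * Real.log Y)) ^ (2 * κ + 1) := by
      rw [div_pow, mul_pow]
      field_simp
    calc (1 : ℝ) = c * ((ε₂ ^ (2 * κ + 1) / (c * c' ^ (2 * κ + 1))) * (Real.log Y) ^ (2 * κ + 1)) *
        (c' / (ε₂ * Real.log Y)) ^ (2 * κ + 1) := k4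
      _ ≤ _ := by gcongr
  calc (Y : ℝ) ^ (-(ε₂ / 10)) = (Y : ℝ) ^ (-(ε₂ / 10)) * 1 := (mul_one _).symm
    _ ≤ (Y : ℝ) ^ (-(ε₂ / 10)) * (c * (Y : ℝ) ^ (2 * ε₂ / 25) * (c' / (ε₂ * Real.log Y)) ^ (2 * κ + 1)) :=
        mul_le_mul_of_nonneg_left k3 k2.le
    _ = _ := by ring

theorem fund2 : S_fund2 := by
  intro κ
  obtain ⟨C, hC, hsve⟩ := SVE κ
  obtain ⟨c, hc, hLV⟩ := LV_low
  obtain ⟨c', hc', hVV⟩ := VV_low κ
  obtain ⟨e, he⟩ : ∃ e : ℕ, e = C * (C + 4) := ⟨_, rfl⟩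
  refine ⟨1 / (800 * ((e : ℝ) + 1)), by positivity, ?_, ?_⟩
  · apply one_div_le_one_div_of_le (by norm_num)
    have : (0 : ℝ) ≤ e := Nat.cast_nonneg _
    nlinarith
  intro ε₂ hε hεe
  obtain ⟨M0, hM0⟩ := eventually_atTop.1 (fund2_facts κ c c' ε₂ hc hc' hε)
  refine ⟨M0 + C + (2 * κ + 2), ?_⟩
  intro Y w q _ χ P hY hw hqY hχ hχ2 hP B H hB1 hBq hBco hBχ hH
  obtain ⟨hY3, hz3, h208, h16', hUlow⟩ := hM0 Y (by omega)
  have hYr : (3 : ℝ) ≤ Y := by exact_mod_cast hY3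
  have hY0 : (0 : ℝ) < Y := by linarith
  have hY1 : (1 : ℝ) ≤ Y := by linarith
  have hlY : 0 < Real.log Y := Real.log_pos (by linarith)
  have hq1 : 1 ≤ q := Nat.one_le_iff_ne_zero.2 (NeZero.ne q)
  have hqr : (1 : ℝ) ≤ q := by exact_mod_cast hq1
  obtain ⟨z, hz⟩ : ∃ z : ℕ, z = ⌊(Y : ℝ) ^ ε₂⌋₊ := ⟨_, rfl⟩
  have hYε0 : (0 : ℝ) ≤ (Y : ℝ) ^ ε₂ := by positivity
  have hz3' : 3 ≤ z := by
    rw [hz]
    exact Nat.le_floor (by exact_mod_cast hz3)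
  have hzr : (z : ℝ) ≤ (Y : ℝ) ^ ε₂ := by rw [hz]; exact Nat.floor_le hYε0
  have hz3r : (3 : ℝ) ≤ z := by exact_mod_cast hz3'
  have hlz0 : 0 < Real.log z := Real.log_pos (by linarith)
  have hlz : Real.log z ≤ ε₂ * Real.log Y := by
    rw [← Real.log_rpow hY0]
    exact Real.log_le_log (by linarith) hzr
  have hPz : ∀ p ∈ P, p ≤ z := fun p hp => by
    rw [hz]
    exact Nat.le_floor (hP p hp).2.2
  obtain ⟨J, hJ⟩ : ∃ J : ℕ, J = Pool.Agent.W41.JJ z := ⟨_, rfl⟩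
  have hJle : 2 ^ 2 ^ J ≤ z ^ 2 := by rw [hJ]; exact Pool.Agent.W41.JJ_le z (by omega)
  have hJlt : z < 2 ^ 2 ^ J := by rw [hJ]; exact Pool.Agent.W41.JJ_lt z
  have hJs : J + 2 ≤ 2 * z := by rw [hJ]; exact Pool.Agent.W41.JJ_small z hz3'
  have hU : (Y : ℝ) ^ (-(ε₂ / 10)) ≤ LV χ * VV χ P H := by
    have h1 := hLV q χ hχ hχ2
    have h2 := hVV q χ P H z hχ2 (by omega)
      (fun p hp => ⟨(hP p hp).1, by have := (hP p hp).2.1; omega, hPz p hp⟩)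
      (fun p hp => (hH p hp).2.1)
    have h3 : c * (Y : ℝ) ^ (-(ε₂ / 50)) ≤ LV χ := by
      refine le_trans ?_ h1
      have h4 : (q : ℝ) ^ 2 ≤ (Y : ℝ) ^ (ε₂ / 50) := by
        calc (q : ℝ) ^ 2 ≤ ((Y : ℝ) ^ (ε₂ / 100)) ^ 2 := pow_le_pow_left₀ (by linarith) hqY 2
          _ = (Y : ℝ) ^ (ε₂ / 50) := by
              rw [← Real.rpow_natCast, ← Real.rpow_mul hY0.le]
              congr 1
              push_cast
              ring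
      rw [Real.rpow_neg hY0.le, ← div_eq_mul_inv]
      exact div_le_div_of_nonneg_left hc.le (by positivity) h4
    have h5 : (c' / (ε₂ * Real.log Y)) ^ (2 * κ + 1) ≤ VV χ P H := by
      refine le_trans ?_ h2
      apply pow_le_pow_left₀ (by positivity)
      exact div_le_div_of_nonneg_left hc'.le hlz0 hlz
    have h6 : 0 < c * (Y : ℝ) ^ (-(ε₂ / 50)) := by positivity
    exact hUlow.trans (mul_le_mul h3 h5 (by positivity) (h6.le.trans h3))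
  refine ⟨hU, fun T0 hT0 => ?_⟩
  set U := LV χ * VV χ P H with hUdef
  have hU0 : 0 < U := lt_of_lt_of_le (by positivity) hU
  have hT0r16 : (16 : ℝ) ≤ T0 := h16'.trans hT0
  have hT0pos : (0 : ℝ) < T0 := by linarith
  have h16 : 16 ≤ q * T0 := by
    have h1 : 16 ≤ T0 := by exact_mod_cast hT0r16
    nlinarith
  have hmain := hsve (C + 4) J w P (by omega) (by omega) (fun p hp => ⟨(hP p hp).1, (hP p hp).2.1, by
    have := hPz p hp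
    omega⟩) q χ hχ hχ2 B H T0 hB1 hBq hBco hBχ hH h16
  have e1 : 2 * (T0 : ℝ) * LV χ * VV χ P H = 2 * (T0 * U) := by rw [hUdef]; ring
  rw [e1] at hmain
  refine hmain.trans ?_
  have h5 : ((1 / 2 : ℝ)) ^ (C + 4) * (2 * (T0 * U)) ≤ (T0 * U) / 8 := by
    have h6 : ((1 / 2 : ℝ)) ^ (C + 4) ≤ 1 / 16 := by
      rw [pow_add]
      have : ((1 / 2 : ℝ)) ^ C ≤ 1 := pow_le_one₀ (by norm_num) (by norm_num)
      norm_num
      norm_num at this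
      linarith
    have h7 : 0 ≤ 2 * (T0 * U) := by positivity
    calc ((1 / 2 : ℝ)) ^ (C + 4) * (2 * (T0 * U)) ≤ 1 / 16 * (2 * (T0 * U)) := mul_le_mul_of_nonneg_right h6 h7
      _ = (T0 * U) / 8 := by ring
  have h8 : ((J : ℝ) + 2) * (13 * (((2 ^ 2 ^ J) ^ (C * (C + 4)) : ℕ) : ℝ) ^ 2 * √((q : ℝ) * T0)) ≤ (T0 * U) / 8 := by
    rw [← he]
    have g1 : (J : ℝ) + 2 ≤ 2 * (Y : ℝ) ^ ε₂ := by
      have : (J : ℝ) + 2 ≤ 2 * z := by exact_mod_cast hJs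
      linarith
    have g2 : ((((2 ^ 2 ^ J) ^ e : ℕ) : ℝ)) ≤ (Y : ℝ) ^ (2 * (e : ℝ) * ε₂) := by
      have g3 : (2 ^ 2 ^ J) ^ e ≤ z ^ (2 * e) := by
        calc (2 ^ 2 ^ J) ^ e ≤ (z ^ 2) ^ e := Nat.pow_le_pow_left hJle e
          _ = z ^ (2 * e) := by rw [← pow_mul]
      calc ((((2 ^ 2 ^ J) ^ e : ℕ) : ℝ)) ≤ ((z ^ (2 * e) : ℕ) : ℝ) := by exact_mod_cast g3
        _ = (z : ℝ) ^ (2 * e) := by push_cast; rfl
        _ ≤ ((Y : ℝ) ^ ε₂) ^ (2 * e) := pow_le_pow_left₀ (by positivity) hzr _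
        _ = (Y : ℝ) ^ (2 * (e : ℝ) * ε₂) := by
            rw [← Real.rpow_natCast, ← Real.rpow_mul hY0.le]
            congr 1
            push_cast
            ring
    have g4 : √((q : ℝ) * T0) ≤ (Y : ℝ) ^ (ε₂ / 100) * √T0 := by
      have : √(q : ℝ) ≤ q := by
        rw [Real.sqrt_le_left (by linarith)]
        nlinarith
      rw [Real.sqrt_mul (by linarith)]
      exact mul_le_mul_of_nonneg_right (this.trans hqY) (Real.sqrt_nonneg _)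
    have g5 : (Y : ℝ) ^ (24 / 100 : ℝ) ≤ √T0 := by
      apply Real.le_sqrt_of_sq_le
      calc ((Y : ℝ) ^ (24 / 100 : ℝ)) ^ 2 = (Y : ℝ) ^ (48 / 100 : ℝ) := by
            rw [← Real.rpow_natCast, ← Real.rpow_mul hY0.le]
            congr 1
            norm_num
        _ ≤ T0 := hT0
    have g6 : 0 < √(T0 : ℝ) := Real.sqrt_pos.2 hT0pos
    have g7 : √(T0 : ℝ) * √T0 = T0 := Real.mul_self_sqrt hT0pos.le
    have he0 : (0 : ℝ) ≤ e := Nat.cast_nonneg _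
    have g9 : (Y : ℝ) ^ (ε₂ + 4 * (e : ℝ) * ε₂ + ε₂ / 100 + ε₂ / 10) ≤ (Y : ℝ) ^ (1 / 200 : ℝ) := by
      apply Real.rpow_le_rpow_of_exponent_le hY1
      have : ε₂ * (800 * ((e : ℝ) + 1)) ≤ 1 := by
        calc ε₂ * (800 * ((e : ℝ) + 1)) ≤ 1 / (800 * ((e : ℝ) + 1)) * (800 * ((e : ℝ) + 1)) :=
              mul_le_mul_of_nonneg_right hεe (by positivity)
          _ = 1 := by field_simp
      nlinarith
    have g10 : 208 * (Y : ℝ) ^ (1 / 200 : ℝ) ≤ (Y : ℝ) ^ (24 / 100 : ℝ) := by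
      calc 208 * (Y : ℝ) ^ (1 / 200 : ℝ) ≤ (Y : ℝ) ^ (47 / 200 : ℝ) * (Y : ℝ) ^ (1 / 200 : ℝ) :=
            mul_le_mul_of_nonneg_right h208 (by positivity)
        _ = (Y : ℝ) ^ (24 / 100 : ℝ) := by
            rw [← Real.rpow_add hY0]
            congr 1
            norm_num
    have g11 : 26 * (Y : ℝ) ^ (ε₂ + 4 * (e : ℝ) * ε₂ + ε₂ / 100) ≤ √T0 * (U / 8) := by
      have k1 : (Y : ℝ) ^ (ε₂ + 4 * (e : ℝ) * ε₂ + ε₂ / 100) =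
          (Y : ℝ) ^ (ε₂ + 4 * (e : ℝ) * ε₂ + ε₂ / 100 + ε₂ / 10) * (Y : ℝ) ^ (-(ε₂ / 10)) := by
        rw [← Real.rpow_add hY0]
        congr 1
        ring
      rw [k1]
      calc 26 * ((Y : ℝ) ^ (ε₂ + 4 * (e : ℝ) * ε₂ + ε₂ / 100 + ε₂ / 10) * (Y : ℝ) ^ (-(ε₂ / 10))) ≤
          26 * ((Y : ℝ) ^ (1 / 200 : ℝ) * U) := by gcongr
        _ = (208 * (Y : ℝ) ^ (1 / 200 : ℝ)) * (U / 8) := by ring
        _ ≤ √T0 * (U / 8) := mul_le_mul_of_nonneg_right (g10.trans g5) (by positivity)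
    calc ((J : ℝ) + 2) * (13 * (((2 ^ 2 ^ J) ^ e : ℕ) : ℝ) ^ 2 * √((q : ℝ) * T0)) ≤
        (2 * (Y : ℝ) ^ ε₂) * (13 * ((Y : ℝ) ^ (2 * (e : ℝ) * ε₂)) ^ 2 * ((Y : ℝ) ^ (ε₂ / 100) * √T0)) := by
          gcongr
      _ = (26 * (Y : ℝ) ^ (ε₂ + 4 * (e : ℝ) * ε₂ + ε₂ / 100)) * √T0 := by
          have k2 : ((Y : ℝ) ^ (2 * (e : ℝ) * ε₂)) ^ 2 = (Y : ℝ) ^ (4 * (e : ℝ) * ε₂) := by
            rw [← Real.rpow_natCast, ← Real.rpow_mul hY0.le]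
            congr 1
            push_cast
            ring
          rw [k2, Real.rpow_add hY0, Real.rpow_add hY0]
          ring
      _ ≤ (√T0 * (U / 8)) * √T0 := mul_le_mul_of_nonneg_right g11 g6.le
      _ = (√T0 * √T0) * U / 8 := by ring
      _ = (T0 * U) / 8 := by rw [g7]
  linarith

end Pool.Agent.H536.OC
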