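import Mathlib
import Pool.Agent.H536.OC.Wd

open Finset Filter Topology

/-! Subtask (helper536), by helper287. -/

namespace Pool.Agent.H536.OC

open Pool.Agent.Y882 Pool.Agent.W23.DC Pool.Agent.H536.OB
open Pool.Agent.H318R2.Cr (V Pz mem_Pz V_pos cz_bounds one_sub_inv_pos)
open Pool.Agent.H262R3.Lk (wM)

theorem ratio_exp {g : ℝ} (h0 : 0 ≤ g) (h1 : g ≤ 1 / 2) : Real.exp (-(2 * g)) ≤ 1 - g := by
  have h2 : 0 < 1 - g := by linarith
  rw [← Real.le_log_iff_exp_le h2]
  have h3 := Real.one_sub_inv_le_log_of_pos h2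
  refine le_trans ?_ h3
  have h4 : 1 - (1 - g)⁻¹ = -(g / (1 - g)) := by
    field_simp
    ring
  rw [h4, neg_le_neg_iff, div_le_iff₀ h2]
  nlinarith

theorem ratio : S_ratio := by
  intro κ ε hε
  obtain ⟨C, hC, hmid⟩ := mid_sum
  set K : ℝ := 2 * (Real.log (2 / ε) + C / Real.log 2) with hK
  set c : ℝ := min 1 (Real.exp (-(2 * (κ * K)))) with hc
  have hc0 : 0 < c := lt_min one_pos (Real.exp_pos _)
  -- growth
  have ht : Tendsto (fun Y : ℕ => (Y : ℝ) ^ (ε / 2)) atTop atTop :=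
    (tendsto_rpow_atTop (by positivity)).comp tendsto_natCast_atTop_atTop
  obtain ⟨Y1, hY1⟩ := eventually_atTop.1 (ht.eventually_ge_atTop (4 * κ + 4 : ℝ))
  refine ⟨c, hc0, max Y1 2, fun Y hY A g hA hg => ?_⟩
  have hYr : (2 : ℝ) ≤ Y := by exact_mod_cast (le_max_right _ _).trans hY
  have hY0 : (0 : ℝ) < Y := by linarith
  have hb := hY1 Y ((le_max_left _ _).trans hY)
  have hκ : (0 : ℝ) ≤ κ := Nat.cast_nonneg κ
  set s : ℝ := (Y : ℝ) ^ (ε / 2) with hs
  have hss : (Y : ℝ) ^ ε = s ^ 2 := by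
    rw [hs, ← Real.rpow_natCast, ← Real.rpow_mul hY0.le]
    congr 1
    push_cast
    ring
  have hs4 : 4 ≤ s := by linarith
  set y : ℕ := ⌊(Y : ℝ) ^ ε⌋₊ with hy
  have hyl : (Y : ℝ) ^ ε - 1 < y := Nat.sub_one_lt_floor _
  have hyu : (y : ℝ) ≤ (Y : ℝ) ^ ε := Nat.floor_le (by positivity)
  have hys : s ≤ y := by
    rw [hss] at hyl
    nlinarith
  have hy2 : 2 ≤ y := by
    have : (2 : ℝ) ≤ y := by linarith
    exact_mod_cast this
  have hprod : Real.exp (-(2 * ∑ p ∈ A, g p)) ≤ ∏ p ∈ A, (1 - g p) := by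
    rw [mul_sum, ← sum_neg_distrib, Real.exp_sum]
    refine prod_le_prod (fun p _ => (Real.exp_pos _).le) fun p hp => ?_
    refine ratio_exp (hg p hp).1 ((hg p hp).2.trans ?_)
    have h1 : (Y : ℝ) ^ ε < p := (hA p hp).2.1
    rw [hss] at h1
    have hp0 : (0 : ℝ) < p := by nlinarith
    rw [div_le_div_iff₀ hp0 (by norm_num)]
    nlinarith
  rcases A.eq_empty_or_nonempty with hAe | ⟨p0, hp0⟩
  · subst hAe
    simp only [prod_empty]
    exact min_le_left _ _
  have hyY : y ≤ Y := by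
    have h1 := (hA p0 hp0).2
    have h2 : (p0 : ℝ) ≤ Y := by exact_mod_cast h1.2
    have h3 : (y : ℝ) ≤ Y := by linarith [h1.1]
    exact_mod_cast h3
  have hsum : ∑ p ∈ A, g p ≤ κ * K := by
    have h1 : ∑ p ∈ A, g p ≤ κ * ∑ p ∈ A, 1 / ((p : ℝ) - 1) := by
      rw [mul_sum]
      refine sum_le_sum fun p hp => (hg p hp).2.trans ?_
      have hp2 : (2 : ℝ) ≤ p := by exact_mod_cast (hA p hp).1.two_le
      rw [mul_one_div]
      exact div_le_div_of_nonneg_left hκ (by linarith) (by linarith)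
    have h2 : ∑ p ∈ A, 1 / ((p : ℝ) - 1) ≤ ∑ p ∈ (Ioc y Y).filter Nat.Prime, 1 / ((p : ℝ) - 1) := by
      refine sum_le_sum_of_subset_of_nonneg ?_ ?_
      · intro p hp
        obtain ⟨h3, h4, h5⟩ := hA p hp
        rw [mem_filter, mem_Ioc]
        refine ⟨⟨?_, h5⟩, h3⟩
        have : (y : ℝ) < p := by linarith
        exact_mod_cast this
      · intro p hp _
        rw [mem_filter] at hp
        have hp2 : (2 : ℝ) ≤ p := by exact_mod_cast hp.2.two_le
        have : (0 : ℝ) < (p : ℝ) - 1 := by linarith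
        positivity
    have h3 := hmid y Y hy2 hyY
    have hly : 0 < Real.log y := Real.log_pos (by linarith)
    have hlY : 0 < Real.log Y := Real.log_pos (by linarith)
    have h4 : Real.log (Real.log Y / Real.log y) ≤ Real.log (2 / ε) := by
      apply Real.log_le_log (by positivity)
      rw [div_le_div_iff₀ hly hε]
      have h5 := Real.log_le_log (by linarith) hys
      rw [hs, Real.log_rpow hY0] at h5
      linarith
    have h5 : C / Real.log y ≤ C / Real.log 2 := by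
      refine div_le_div_of_nonneg_left hC (Real.log_pos (by norm_num)) ?_
      exact Real.log_le_log (by norm_num) (by linarith)
    have h6 : ∑ p ∈ A, 1 / ((p : ℝ) - 1) ≤ K := by
      rw [hK]
      linarith
    exact h1.trans (mul_le_mul_of_nonneg_left h6 hκ)
  refine (min_le_right _ _).trans (le_trans ?_ hprod)
  apply Real.exp_le_exp.2
  linarith

end Pool.Agent.H536.OC
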