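import Mathlib
import Pool.Graph.R_seed8.W23.DC.Defs
import Pool.Graph.R_seed8.W378.DC.MP

open Finset

/-! Subtask D (helper536): Mertens' condition for densities close to `1/(p-1)` with few exceptions. -/

namespace Pool.Agent.H536.OC

open Pool.Agent.W23.DC

theorem MerX_low {Y : ℕ} (hY : 2 ≤ Y) {ε₁ a b : ℝ} (ha : ε₁ ≤ a) {p : ℕ} (hp : p ∈ pr Y a b) :
    (Y : ℝ) ^ ε₁ ≤ p := by
  have hY1 : (1 : ℝ) < Y := by exact_mod_cast (by omega : 1 < Y)
  have hY0 : (0 : ℝ) < Y := by linarith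
  have hL : 0 < Real.log Y := Real.log_pos hY1
  unfold pr at hp
  rw [Finset.mem_filter] at hp
  obtain ⟨-, hpp, h1, -⟩ := hp
  have hp0 : (0 : ℝ) < p := by exact_mod_cast hpp.pos
  have h2 : ε₁ ≤ tt Y p := ha.trans h1
  unfold tt at h2
  rw [le_div_iff₀ hL] at h2
  rw [Real.rpow_def_of_pos hY0, ← Real.le_log_iff_exp_le hp0, mul_comm]
  exact h2

theorem MerX_card {Y : ℕ} (hY : 2 ≤ Y) {ε₁ a b : ℝ} (hε : 0 < ε₁) (ha : ε₁ ≤ a) {E CE : ℕ}
    (hE : E ≠ 0) (hEY : (E : ℝ) ≤ (Y : ℝ) ^ CE) :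
    (((pr Y a b).filter (fun p => p ∣ E)).card : ℝ) ≤ CE / ε₁ := by
  have hY1 : (1 : ℝ) < Y := by exact_mod_cast (by omega : 1 < Y)
  have hY0 : (0 : ℝ) < Y := by linarith
  set D := (pr Y a b).filter (fun p => p ∣ E) with hD
  have hdvd : ∏ p ∈ D, p ∣ E := by
    apply Finset.prod_primes_dvd
    · intro p hp
      rw [hD, Finset.mem_filter] at hp
      have := hp.1
      unfold pr at this
      rw [Finset.mem_filter] at this
      exact this.2.1.prime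
    · intro p hp
      rw [hD, Finset.mem_filter] at hp
      exact hp.2
  have h1 : ((∏ p ∈ D, p : ℕ) : ℝ) ≤ (E : ℝ) := by
    exact_mod_cast Nat.le_of_dvd (Nat.pos_of_ne_zero hE) hdvd
  have h2 : ((Y : ℝ) ^ ε₁) ^ D.card ≤ ((∏ p ∈ D, p : ℕ) : ℝ) := by
    rw [Nat.cast_prod, ← Finset.prod_const]
    apply Finset.prod_le_prod
    · intro p _
      exact (Real.rpow_pos_of_pos hY0 _).le
    · intro p hp
      rw [hD, Finset.mem_filter] at hp
      exact MerX_low hY ha hp.1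
  have h3 : (Y : ℝ) ^ (ε₁ * D.card) ≤ (Y : ℝ) ^ (CE : ℝ) := by
    rw [Real.rpow_mul hY0.le, Real.rpow_natCast, Real.rpow_natCast]
    exact h2.trans (h1.trans hEY)
  have h4 := (Real.rpow_le_rpow_left_iff hY1).1 h3
  rw [le_div_iff₀ hε]
  linarith

theorem MerX (ε₁ η : ℝ) (κ CE : ℕ) (hε₁ : 0 < ε₁) (hε₁2 : ε₁ ≤ 1 / 8) (hη : 0 < η) : ∃ Y0 : ℕ, ∀ Y : ℕ, Y0 ≤ Y →
    ∀ (h : ℕ → ℝ) (E : ℕ), E ≠ 0 → (E : ℝ) ≤ (Y : ℝ) ^ CE →
    (∀ p ∈ pr Y ε₁ (17 / 50), ¬ p ∣ E → |h p - 1 / ((p : ℝ) - 1)| ≤ κ / (p : ℝ) ^ 2) →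
    (∀ p ∈ pr Y ε₁ (17 / 50), p ∣ E → 0 ≤ h p ∧ h p ≤ κ / ((p : ℝ) - 1)) →
    Mer (pr Y ε₁ (17 / 50)) (tt Y) h ε₁ (17 / 50) η := by
  obtain ⟨N₀, hN₀⟩ := Pool.Agent.W378.DC.MP ε₁ (η / 2) hε₁ (by positivity)
  set T : ℝ := κ + CE / ε₁ * (κ + 1) with hT
  have hT0 : 0 ≤ T := by positivity
  have hev : ∀ᶠ N : ℕ in Filter.atTop, 2 * T / η + 2 ≤ (N : ℝ) ^ ε₁ :=
    ((tendsto_rpow_atTop hε₁).comp tendsto_natCast_atTop_atTop).eventually_ge_atTop _
  obtain ⟨N₁, hN₁⟩ := Filter.eventually_atTop.1 hev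
  refine ⟨max (max N₀ N₁) 2, fun Y hY h E hE hEY h1 h2 => ?_⟩
  have hY2 : 2 ≤ Y := (le_max_right _ _).trans hY
  have hYN0 : N₀ ≤ Y := (le_max_left _ _).trans ((le_max_left _ _).trans hY)
  have hYN1 : N₁ ≤ Y := (le_max_right _ _).trans ((le_max_left _ _).trans hY)
  have hy := hN₁ Y hYN1
  set y : ℝ := (Y : ℝ) ^ ε₁ with hydef
  have hTη : 0 ≤ 2 * T / η := by positivity
  have hy1 : 1 ≤ y - 1 := by linarith
  have hy0 : 0 < y - 1 := by linarith
  have hTy : T / (y - 1) ≤ η / 2 := by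
    rw [div_le_iff₀ hy0]
    have h3 : 2 * T / η ≤ y - 1 := by linarith
    rw [div_le_iff₀ hη] at h3
    linarith
  have hY1 : (1 : ℝ) < Y := by exact_mod_cast (by omega : 1 < Y)
  intro a b ha hab hb
  have hfil : (pr Y ε₁ (17 / 50)).filter (fun p => a ≤ tt Y p ∧ tt Y p < b) = pr Y a b := by
    unfold pr
    ext p
    simp only [Finset.mem_filter]
    constructor
    · rintro ⟨⟨h3, h4, -, -⟩, h5, h6⟩
      exact ⟨h3, h4, h5, h6⟩
    · rintro ⟨h3, h4, h5, h6⟩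
      exact ⟨⟨h3, h4, ha.trans h5, lt_of_lt_of_le h6 hb⟩, h5, h6⟩
  have hfil' : ∀ inst : DecidablePred (fun p => a ≤ tt Y p ∧ tt Y p < b),
      @Finset.filter _ (fun p => a ≤ tt Y p ∧ tt Y p < b) inst (pr Y ε₁ (17 / 50)) = pr Y a b := by
    intro inst
    rw [← hfil]
    congr
  rw [hfil']
  have hsub : ∀ p ∈ pr Y a b, p ∈ pr Y ε₁ (17 / 50) := by
    intro p hp
    rw [← hfil, Finset.mem_filter] at hp
    exact hp.1
  have hM := hN₀ Y hYN0 a b ha hab (hb.trans (by norm_num))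
  -- the difference
  have hdiff : |∑ p ∈ pr Y a b, h p - ∑ p ∈ pr Y a b, 1 / ((p : ℝ) - 1)| ≤ T / (y - 1) := by
    rw [← Finset.sum_sub_distrib]
    refine (Finset.abs_sum_le_sum_abs _ _).trans ?_
    rw [← Finset.sum_filter_add_sum_filter_not (pr Y a b) (fun p => p ∣ E)]
    have hA : ∑ p ∈ (pr Y a b).filter (fun p => p ∣ E), |h p - 1 / ((p : ℝ) - 1)| ≤
        CE / ε₁ * (κ + 1) / (y - 1) := by
      have h3 : ∑ p ∈ (pr Y a b).filter (fun p => p ∣ E), |h p - 1 / ((p : ℝ) - 1)| ≤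
          ((pr Y a b).filter (fun p => p ∣ E)).card • ((κ + 1) / (y - 1)) := by
        apply Finset.sum_le_card_nsmul
        intro p hp
        rw [Finset.mem_filter] at hp
        have hlow := MerX_low hY2 ha hp.1
        rw [← hydef] at hlow
        have hp1 : 0 < (p : ℝ) - 1 := by linarith
        obtain ⟨h4, h5⟩ := h2 p (hsub p hp.1) hp.2
        have h6 : |h p - 1 / ((p : ℝ) - 1)| ≤ (κ + 1) / ((p : ℝ) - 1) := by
          have h7 : 0 < 1 / ((p : ℝ) - 1) := by positivity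
          have h8 : (0 : ℝ) ≤ κ / ((p : ℝ) - 1) := by positivity
          rw [add_div, abs_le]
          constructor <;> linarith
        refine h6.trans ?_
        apply div_le_div_of_nonneg_left (by positivity) hy0
        linarith
      refine h3.trans ?_
      rw [nsmul_eq_mul, mul_div_assoc]
      apply mul_le_mul_of_nonneg_right _ (by positivity)
      exact MerX_card hY2 hε₁ ha hE hEY
    have hB : ∑ p ∈ (pr Y a b).filter (fun p => ¬ p ∣ E), |h p - 1 / ((p : ℝ) - 1)| ≤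
        κ / (y - 1) := by
      have h3 : ∑ p ∈ (pr Y a b).filter (fun p => ¬ p ∣ E), |h p - 1 / ((p : ℝ) - 1)| ≤
          ∑ p ∈ (pr Y a b).filter (fun p => ¬ p ∣ E),
            κ * (1 / ((p : ℝ) - 1) - 1 / (p : ℝ)) := by
        apply Finset.sum_le_sum
        intro p hp
        rw [Finset.mem_filter] at hp
        have hlow := MerX_low hY2 ha hp.1
        rw [← hydef] at hlow
        have hp1 : 0 < (p : ℝ) - 1 := by linarith
        have hp0 : 0 < (p : ℝ) := by linarith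
        refine (h1 p (hsub p hp.1) hp.2).trans ?_
        rw [div_eq_mul_one_div]
        apply mul_le_mul_of_nonneg_left _ (by positivity)
        rw [div_sub_div _ _ hp1.ne' hp0.ne', div_le_div_iff₀ (by positivity) (by positivity)]
        nlinarith
      have h4 : ∑ p ∈ (pr Y a b).filter (fun p => ¬ p ∣ E),
            (κ : ℝ) * (1 / ((p : ℝ) - 1) - 1 / (p : ℝ)) ≤
          ∑ p ∈ pr Y a b, κ * (1 / ((p : ℝ) - 1) - 1 / (p : ℝ)) := by
        apply Finset.sum_le_sum_of_subset_of_nonneg (Finset.filter_subset _ _)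
        intro p hp _
        have hlow := MerX_low hY2 ha hp
        rw [← hydef] at hlow
        have hp1 : 0 < (p : ℝ) - 1 := by linarith
        have h5 : 1 / (p : ℝ) ≤ 1 / ((p : ℝ) - 1) :=
          one_div_le_one_div_of_le hp1 (by linarith)
        have : (0 : ℝ) ≤ κ := Nat.cast_nonneg _
        exact mul_nonneg this (by linarith)
      refine h3.trans (h4.trans ?_)
      rw [← Finset.mul_sum, div_eq_mul_one_div]
      apply mul_le_mul_of_nonneg_left _ (Nat.cast_nonneg _)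
      rw [Pool.Agent.W378.DC.TMP.pr_eq hY2 (hb.trans (by norm_num))]
      have hya : y ≤ (Y : ℝ) ^ a := Real.rpow_le_rpow_of_exponent_le hY1.le ha
      have hc := Nat.le_ceil ((Y : ℝ) ^ a)
      have hc2 : (2 : ℝ) ≤ (⌈(Y : ℝ) ^ a⌉₊ : ℝ) := by linarith
      have hc3 : 2 ≤ ⌈(Y : ℝ) ^ a⌉₊ := by exact_mod_cast hc2
      have hAB : ⌈(Y : ℝ) ^ a⌉₊ - 1 ≤ ⌈(Y : ℝ) ^ b⌉₊ - 1 :=
        Nat.sub_le_sub_right (Nat.ceil_mono (Real.rpow_le_rpow_of_exponent_le hY1.le hab)) 1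
      refine (Pool.Agent.W378.DC.TMP.shift_prime (by omega) hAB).2.trans ?_
      apply one_div_le_one_div_of_le hy0
      rw [Nat.cast_sub (by omega)]
      push_cast
      linarith
    have hfin : T / (y - 1) = CE / ε₁ * (κ + 1) / (y - 1) + κ / (y - 1) := by
      rw [hT, add_div]
      ring
    rw [hfin]
    linarith
  have h9 : ∑ p ∈ pr Y a b, h p - Real.log (b / a) =
      (∑ p ∈ pr Y a b, h p - ∑ p ∈ pr Y a b, 1 / ((p : ℝ) - 1)) +
      (∑ p ∈ pr Y a b, 1 / ((p : ℝ) - 1) - Real.log (b / a)) := by ring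
  rw [h9]
  refine (abs_add_le _ _).trans ?_
  linarith

end Pool.Agent.H536.OC
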