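import Mathlib
import Pool.Agent.H536.OC.C20
import Pool.Agent.H536.OC.SubD
import Pool.Agent.H536.OC.SubE
import Pool.Agent.H536.OC.Sfund2
import Pool.Agent.H536.OC.Sratio
import Pool.Agent.H536.OC.Scomps
import Pool.Agent.H536.OC.SPW
import Pool.Agent.H536.OC.SU3
import Pool.Agent.H536.OC.Wc

open Finset Filter Topology

/-! All the pieces together. -/

namespace Pool.Agent.H536.OC

theorem U3all : S_U3 :=
  U3 (fun ε₁ η κ CE h1 h2 h3 => MerX ε₁ η κ CE h1 h2 h3) NPW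
    (PW (fun κ => SubE.plusAK (fun κ => AK κ) κ) (comps fund2) ratio)

theorem U3c : S_U3c := by
  classical
  intro k
  obtain ⟨δ, ε, T0, hδ, hε, h⟩ := U3all k
  obtain ⟨T1, hT1⟩ := eventually_atTop.1 (poly_exp 4 0 (ε := 1 / 100) (by norm_num))
  refine ⟨δ, ε, max T0 (max T1 1), hδ, hε, ?_⟩
  intro T hT c d a b i0 hd1 hdc hc ha0 hne haT hbT hadm
  have hTT0 : T0 ≤ T := (le_max_left _ _).trans hT
  have hTT1 : T1 ≤ T := ((le_max_left _ _).trans (le_max_right _ _)).trans hT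
  have hT1' : 1 ≤ T := ((le_max_right _ _).trans (le_max_right _ _)).trans hT
  have h4 : 4 ≤ Real.exp (1 / 100 * T) := by
    have := hT1 T hTT1
    simpa using this
  obtain ⟨X, hX⟩ : ∃ X : ℝ, X = Real.exp (98 / 100 * T) := ⟨_, rfl⟩
  have hX1 : 1 ≤ X := by rw [hX]; exact Real.one_le_exp (by positivity)
  have hX99 : 4 * X ≤ Real.exp (99 / 100 * T) := by
    rw [hX]
    calc 4 * Real.exp (98 / 100 * T) ≤ Real.exp (1 / 100 * T) * Real.exp (98 / 100 * T) := by gcongr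
      _ = Real.exp (99 / 100 * T) := by rw [← Real.exp_add]; ring_nf
  set Good1 : ℕ → Prop := fun n => (c * n + d).Prime ∧
    Real.exp (98 / 100 * T) < ((c * n + d : ℕ) : ℝ) ∧ ((c * n + d : ℕ) : ℝ) ≤ 3 * Real.exp (101 / 100 * T) ∧
    (∀ i, ∀ p : ℕ, p.Prime → (p : ℝ) ≤ Real.exp (ε * T) → ¬ (p : ℤ) ∣ a i * n + b i) ∧
    (∀ p : ℕ, p.Prime → (p : ℝ) ≤ Real.exp (T / 9) → ¬ (p : ℤ) ∣ a i0 * n + b i0) ∧
    1 < (a i0 * n + b i0).natAbs ∧ ArithmeticFunction.cardFactors (a i0 * n + b i0).natAbs ≤ 3 with hG1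
  refine ⟨(range (⌊3 * Real.exp (101 / 100 * T)⌋₊ + 1)).filter Good1, ?_, fun n hn => (mem_filter.1 hn).2⟩
  by_contra hcon
  push Not at hcon
  have hGc : ((((range (⌊3 * Real.exp (101 / 100 * T)⌋₊ + 1)).filter Good1 ∪ range (⌊X⌋₊ + 1)).card : ℕ) : ℝ) ≤ Real.exp (99 / 100 * T) := by
    have h5 := card_union_le ((range (⌊3 * Real.exp (101 / 100 * T)⌋₊ + 1)).filter Good1) (range (⌊X⌋₊ + 1))
    rw [card_range] at h5
    have h6 : ((((range (⌊3 * Real.exp (101 / 100 * T)⌋₊ + 1)).filter Good1 ∪ range (⌊X⌋₊ + 1)).card : ℕ) : ℝ) ≤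
        (((range (⌊3 * Real.exp (101 / 100 * T)⌋₊ + 1)).filter Good1).card : ℝ) + (⌊X⌋₊ + 1) := by exact_mod_cast h5
    have h7 := Nat.floor_le (by linarith : 0 ≤ X)
    have h8 := hcon.trans (le_of_eq hX.symm)
    linarith
  obtain ⟨n, hnG, g1, g2, g3, g4, g5, g6, g7⟩ := h T hTT0 c d a b i0 hd1 hdc hc ha0 hne haT hbT hadm _ hGc
  rw [mem_union, not_or] at hnG
  have hc1 : 1 ≤ c := hd1.trans hdc
  have hncd : n ≤ c * n + d := (Nat.le_mul_of_pos_left n (by omega)).trans (Nat.le_add_right _ _)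
  apply hnG.1
  rw [mem_filter, mem_range, Nat.lt_succ_iff]
  refine ⟨Nat.le_floor (le_trans (by exact_mod_cast hncd) g3), g1, ?_, g3, g4, g5, g6, g7⟩
  rw [← hX]
  have h8 : ⌊X⌋₊ + 1 ≤ n := by
    have := hnG.2
    rw [mem_range] at this
    omega
  have h9 := Nat.lt_floor_add_one X
  have h10 : ((⌊X⌋₊ : ℝ)) + 1 ≤ ((c * n + d : ℕ) : ℝ) := by exact_mod_cast h8.trans hncd
  linarith

end Pool.Agent.H536.OC
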