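import Mathlib
import Pool.Agent.H536.OC.Wc

open Finset Filter Topology

/-! Subtask (helper536), proved by helper97. -/

set_option autoImplicit false

namespace Pool.Agent.H536.OC

/-- primes `a + k d` with `k` (or `k / 2`, if `a` and `d` are odd) a `P₃` -/
theorem chow3 (h : S_U3c) : ∃ A X0 : ℕ, ∀ X : ℕ, X0 ≤ X → ∀ d a : ℕ, 2 ≤ d → 1 ≤ a → a < d → a.Coprime d → d ^ A ≤ X →
    ∃ S : Finset ℕ, (X : ℝ) ^ (97 / 100 : ℝ) ≤ S.card ∧ ∀ p ∈ S, p.Prime ∧ p ≤ X ∧
      ∃ m : ℕ, p = a + (if Even (a + d) then 2 * m else m) * d ∧ 1 < m ∧ ArithmeticFunction.cardFactors m ≤ 3 ∧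
        ∀ l : ℕ, l.Prime → l ∣ m → (X : ℝ) ^ (11 / 100 : ℝ) < l := by
  obtain ⟨δ, ε, T0, hδ, hε, hmain⟩ := h 1
  refine ⟨⌈4 / δ⌉₊, ⌈Real.exp (30000 + 2 * |T0| + 2 / δ)⌉₊, ?_⟩
  intro X hX d a hd ha had hcop hdA
  have hexp : Real.exp (30000 + 2 * |T0| + 2 / δ) ≤ X := (Nat.le_ceil _).trans (by exact_mod_cast hX)
  have hX0 : (0 : ℝ) < X := (Real.exp_pos _).trans_le hexp
  set L : ℝ := Real.log X with hL
  have hL0 : 30000 + 2 * |T0| + 2 / δ ≤ L := by
    rw [hL, Real.le_log_iff_exp_le hX0]
    exact hexp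
  have hT0a := le_abs_self T0
  have hT0n := abs_nonneg T0
  have hdδ : 0 < 2 / δ := by positivity
  have hlog3 : Real.log 3 ≤ 2 := by
    have := Real.log_le_sub_one_of_pos (show (0 : ℝ) < 3 by norm_num)
    linarith
  have hlog30 : 0 ≤ Real.log 3 := Real.log_nonneg (by norm_num)
  set T : ℝ := 100 / 101 * (L - Real.log 3) with hT
  have hTT0 : T0 ≤ T := by
    rw [hT]; linarith
  have hT1 : 0 ≤ T := by
    rw [hT]; linarith
  -- the modulus
  set c : ℕ := if Even (a + d) then 2 * d else d with hc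
  have hcd : d ≤ c := by
    rw [hc]; split_ifs <;> omega
  have hc2 : c ≤ 2 * d := by
    rw [hc]; split_ifs <;> omega
  have hodd : Odd (c + a) := by
    rw [hc]
    split_ifs with he
    · -- both are odd
      have ha' : Odd a := by
        rw [← Nat.not_even_iff_odd]
        intro hae
        have hde : Even d := (Nat.even_add.1 he).1 hae
        have h2 : 2 ∣ Nat.gcd a d := Nat.dvd_gcd hae.two_dvd hde.two_dvd
        rw [hcop] at h2
        omega
      exact (even_two_mul d).add_odd ha'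
    · rw [← Nat.not_even_iff_odd, add_comm]
      exact he
  have hpc : ∀ p : ℕ, p.Prime → p ∣ c → p ∣ a → False := by
    intro p hp h1 h2
    have h3 : ¬ p ∣ d := fun h4 => by
      have h5 : p ∣ Nat.gcd a d := Nat.dvd_gcd h2 h4
      rw [hcop] at h5
      exact hp.one_lt.ne' (Nat.dvd_one.1 h5)
    rw [hc] at h1
    split_ifs at h1 with he
    · rcases (hp.dvd_mul).1 h1 with h4 | h4
      · have hp2 : p = 2 := (Nat.prime_dvd_prime_iff_eq hp Nat.prime_two).1 h4
        have h5 : p ∣ c + a := by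
          rw [hc, if_pos he]
          exact dvd_add h1 h2
        rw [hp2] at h5
        exact (Nat.not_even_iff_odd.2 hodd) (even_iff_two_dvd.2 h5)
      · exact h3 h4
    · exact h3 h1
  have hlogd : Real.log d ≤ δ / 4 * L := by
    have hd0 : (1 : ℝ) ≤ d := by exact_mod_cast (by omega : 1 ≤ d)
    have h1 : (((d ^ ⌈4 / δ⌉₊ : ℕ)) : ℝ) ≤ X := by exact_mod_cast hdA
    rw [Nat.cast_pow] at h1
    have h2 := Real.log_le_log (by positivity) h1
    rw [Real.log_pow] at h2
    have h3 : 4 / δ ≤ (⌈4 / δ⌉₊ : ℝ) := Nat.le_ceil _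
    have h4 : 0 ≤ Real.log d := Real.log_nonneg hd0
    have h5 : 4 / δ * Real.log d ≤ L := (mul_le_mul_of_nonneg_right h3 h4).trans h2
    have h6 : δ / 4 * (4 / δ * Real.log d) ≤ δ / 4 * L :=
      mul_le_mul_of_nonneg_left h5 (by positivity)
    have h7 : δ / 4 * (4 / δ * Real.log d) = Real.log d := by field_simp
    rw [h7] at h6
    exact h6
  have hcT : (c : ℝ) ≤ Real.exp (δ * T) := by
    have hd0 : (0 : ℝ) < d := by exact_mod_cast (by omega : 0 < d)
    have h1 : (c : ℝ) ≤ 2 * d := by exact_mod_cast hc2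
    refine h1.trans ?_
    rw [← Real.log_le_iff_le_exp (by positivity), Real.log_mul two_ne_zero hd0.ne']
    have h2 : Real.log 2 ≤ 1 := by
      have := Real.log_le_sub_one_of_pos (show (0 : ℝ) < 2 by norm_num)
      linarith
    have h3 : δ * L ≥ δ * 30000 + 2 := by
      have h4 : δ * (30000 + 2 / δ) ≤ δ * L := mul_le_mul_of_nonneg_left (by linarith) hδ.le
      have h5 : δ * (30000 + 2 / δ) = δ * 30000 + 2 := by field_simp
      linarith
    have h6 : δ * Real.log 3 ≤ δ * 2 := mul_le_mul_of_nonneg_left hlog3 hδ.le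
    have h7 : δ * T = 100 / 101 * (δ * L) - 100 / 101 * (δ * Real.log 3) := by rw [hT]; ring
    rw [h7]
    have h8 : δ / 4 * L = 1 / 4 * (δ * L) := by ring
    rw [h8] at hlogd
    nlinarith
  have hadm : ∀ p : ℕ, p.Prime → ∃ n : ℕ, ¬ p ∣ c * n + a ∧
      ∀ i : Fin 1, ¬ (p : ℤ) ∣ (fun _ => (1 : ℤ)) i * n + (fun _ => (0 : ℤ)) i := by
    intro p hp
    by_cases h1 : p ∣ c + a
    · have hp2 : p ≠ 2 := by
        rintro rfl
        exact (Nat.not_even_iff_odd.2 hodd) (even_iff_two_dvd.2 h1)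
      refine ⟨2, ?_, fun i => ?_⟩
      · intro h2
        have h3 : p ∣ c := by
          have h4 := (Nat.dvd_add_right h1).1 (show p ∣ (c + a) + c by
            have : (c + a) + c = c * 2 + a := by ring
            rw [this]; exact h2)
          exact h4
        have h5 : p ∣ a := (Nat.dvd_add_right h3).1 h1
        exact hpc p hp h3 h5
      · simp only [one_mul, add_zero]
        intro h2
        have h3 : p ∣ 2 := by exact_mod_cast h2
        exact hp2 ((Nat.prime_dvd_prime_iff_eq hp Nat.prime_two).1 h3)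
    · refine ⟨1, by rwa [mul_one], fun i => ?_⟩
      simp only [one_mul, add_zero]
      intro h2
      have h3 : p ∣ 1 := by exact_mod_cast h2
      exact hp.one_lt.ne' (Nat.dvd_one.1 h3)
  obtain ⟨S, hScard, hS⟩ := hmain T hTT0 c a (fun _ => 1) (fun _ => 0) 0 ha (by omega) hcT
    one_ne_zero (by
      simp only [mul_zero, mul_one, ne_eq]
      intro h0
      have : (a : ℤ) = 0 := h0.symm
      have : a = 0 := by exact_mod_cast this
      omega)
    (by
      simp only [Int.cast_one, abs_one]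
      exact Real.one_le_exp (by positivity))
    (by
      simp only [Int.cast_zero, abs_zero]
      exact (Real.exp_pos _).le) hadm
  have hXpow : ∀ s : ℝ, (X : ℝ) ^ s = Real.exp (s * L) := fun s => by
    rw [Real.rpow_def_of_pos hX0, mul_comm]
  have hc0 : 0 < c := by omega
  refine ⟨S.image (fun n => c * n + a), ?_, ?_⟩
  · rw [card_image_of_injective]
    · refine le_trans ?_ hScard.le
      rw [hXpow, Real.exp_le_exp, hT]
      linarith
    · intro x y hxy
      have h1 : c * x = c * y := by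
        have : c * x + a = c * y + a := hxy
        omega
      exact Nat.eq_of_mul_eq_mul_left hc0 h1
  · intro p hp
    rw [mem_image] at hp
    obtain ⟨n, hn, rfl⟩ := hp
    obtain ⟨h1, -, h3, -, h5, h6, h7⟩ := hS n hn
    have en : ((fun _ : Fin 1 => (1 : ℤ)) 0 * (n : ℤ) + (fun _ : Fin 1 => (0 : ℤ)) 0).natAbs = n := by
      simp
    rw [en] at h6 h7
    refine ⟨h1, ?_, n, ?_, h6, h7, ?_⟩
    · have h8 : 3 * Real.exp (101 / 100 * T) = X := by
        have : 101 / 100 * T = Real.log X - Real.log 3 := by rw [hT]; ring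
        rw [this, Real.exp_sub, Real.exp_log hX0, Real.exp_log (by norm_num)]
        ring
      rw [h8] at h3
      exact_mod_cast h3
    · rw [hc]
      split_ifs <;> ring
    · intro l hl hln
      have h8 := h5 l hl
      by_contra hcon
      push Not at hcon
      apply h8 (hcon.trans ?_)
      · simp only [one_mul, add_zero]
        exact_mod_cast hln
      · rw [hXpow, Real.exp_le_exp, hT]
        linarith

end Pool.Agent.H536.OC
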