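import Mathlib
import Pool.Agent.H536.OC.Wc

open Finset Filter Topology

/-! Subtask (helper536), proved by helper357. -/

namespace Pool.Agent.H536.OC

theorem cun_list_pow (y : ℝ) (hy : 0 ≤ y) : ∀ l : List ℕ, (∀ p ∈ l, y ≤ (p : ℝ)) → y ^ l.length ≤ ((l.prod : ℕ) : ℝ) := by
  intro l
  induction l with
  | nil => intro _; simp
  | cons a l ih =>
    intro h
    have h1 := ih (fun p hp => h p (List.mem_cons_of_mem _ hp))
    have h2 := h a List.mem_cons_self
    rw [List.length_cons, List.prod_cons, pow_succ, mul_comm, Nat.cast_mul]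
    exact mul_le_mul h2 h1 (by positivity) (by positivity)

theorem cun_card (y : ℝ) (hy : 0 ≤ y) (v : ℕ) (hv : v ≠ 0) (h : ∀ p : ℕ, p.Prime → p ∣ v → y ≤ (p : ℝ)) :
    y ^ (ArithmeticFunction.cardFactors v) ≤ (v : ℝ) := by
  rw [ArithmeticFunction.cardFactors_apply]
  have h1 := cun_list_pow y hy v.primeFactorsList (fun p hp => h p (Nat.prime_of_mem_primeFactorsList hp) (Nat.dvd_of_mem_primeFactorsList hp))
  rwa [Nat.prod_primeFactorsList hv] at h1

/-- the common core -/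
theorem cun_core (h : S_U3c) : ∀ k : ℕ, ∃ A R : ℕ, ∀ (T : ℕ) (t : Fin k → ℕ), (∀ i, t i ≤ T) → ∀ j l : Fin k,
    ∀ X : ℕ, 2 ^ (A * (T + 1)) ≤ X → ∀ (d : ℕ) (b : Fin k → ℕ), 1 ≤ d → d ≤ 2 ^ t j →
    2 ^ t j * b l ≠ d * 2 ^ t l → (∀ i, b i ≤ 2 ^ (t i + 1)) →
    (∀ p : ℕ, p.Prime → ∃ n : ℕ, ¬ p ∣ 2 ^ t j * n + d ∧ ∀ i, ¬ p ∣ 2 ^ t i * n + b i) →
    ∃ S : Finset ℕ, (X : ℝ) ^ (97 / 100 : ℝ) ≤ S.card ∧ ∀ n ∈ S, 2 ^ t j * n + d ≤ X ∧
      (2 ^ t j * n + d).Prime ∧ ArithmeticFunction.cardFactors (2 ^ t l * n + b l) ≤ 3 ∧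
      ∀ i, ArithmeticFunction.cardFactors (2 ^ t i * n + b i) ≤ R := by
  intro k
  obtain ⟨δ, ε, T0, hδ, hε, hmain⟩ := h k
  refine ⟨8000 + ⌈4 * T0⌉₊ + ⌈2 / δ⌉₊, ⌈4 / ε⌉₊, ?_⟩
  set A : ℕ := 8000 + ⌈4 * T0⌉₊ + ⌈2 / δ⌉₊ with hA
  intro T t ht j l X hX d b hd1 hd2 hne hb hadm
  have hA1 : (8000 : ℝ) ≤ A := by
    rw [hA]; push_cast
    have h1 : (0 : ℝ) ≤ (⌈4 * T0⌉₊ : ℝ) := Nat.cast_nonneg _
    have h2 : (0 : ℝ) ≤ (⌈2 / δ⌉₊ : ℝ) := Nat.cast_nonneg _
    linarith
  have hA2 : 4 * T0 ≤ A := by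
    rw [hA]; push_cast
    have h1 : 4 * T0 ≤ (⌈4 * T0⌉₊ : ℝ) := Nat.le_ceil _
    have h2 : (0 : ℝ) ≤ (⌈2 / δ⌉₊ : ℝ) := Nat.cast_nonneg _
    linarith
  have hA3 : 2 / δ ≤ A := by
    rw [hA]; push_cast
    have h1 : 2 / δ ≤ (⌈2 / δ⌉₊ : ℝ) := Nat.le_ceil _
    have h2 : (0 : ℝ) ≤ (⌈4 * T0⌉₊ : ℝ) := Nat.cast_nonneg _
    linarith
  have hX0 : 0 < X := lt_of_lt_of_le (by positivity) hX
  have hXr : (0 : ℝ) < X := by exact_mod_cast hX0
  have hlx : (A : ℝ) * (T + 1) * Real.log 2 ≤ Real.log X := by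
    have h1 : ((2 : ℝ) ^ (A * (T + 1))) ≤ X := by exact_mod_cast hX
    have h2 := Real.log_le_log (by positivity) h1
    rw [Real.log_pow] at h2
    push_cast at h2
    exact h2
  have hl2 := Real.log_two_gt_d9
  have hl2' := Real.log_two_lt_d9
  have hT0 : (0 : ℝ) ≤ T := Nat.cast_nonneg _
  have hlog3 : Real.log 3 ≤ 12 / 10 := by
    rw [Real.log_le_iff_le_exp (by norm_num)]
    have h1 : (3 : ℝ) ≤ (1 + 12 / 10 / 10 : ℝ) ^ 10 := by norm_num
    have h2 : (1 + 12 / 10 / 10 : ℝ) ≤ Real.exp (12 / 10 / 10) := by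
      have := Real.add_one_le_exp (12 / 10 / 10 : ℝ)
      linarith
    calc (3 : ℝ) ≤ (1 + 12 / 10 / 10 : ℝ) ^ 10 := h1
      _ ≤ (Real.exp (12 / 10 / 10)) ^ 10 := by gcongr
      _ = Real.exp (12 / 10) := by rw [← Real.exp_nat_mul]; norm_num
  have hlog30 : 0 ≤ Real.log 3 := Real.log_nonneg (by norm_num)
  set lx := Real.log X with hlxd
  have hAlx : (A : ℝ) / 2 ≤ lx := by
    have h1 : (A : ℝ) * 1 ≤ A * (T + 1) := mul_le_mul_of_nonneg_left (by linarith) (by linarith)
    have h2 : (A : ℝ) * (T + 1) * (1 / 2) ≤ A * (T + 1) * Real.log 2 := mul_le_mul_of_nonneg_left (by linarith) (by linarith)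
    linarith
  set L : ℝ := 100 / 101 * (lx - Real.log 3) with hL
  have hLlx : lx / 2 ≤ L := by
    rw [hL]
    nlinarith
  have hLpos : 0 < L := by linarith
  have hLT0 : T0 ≤ L := by linarith
  -- sizes of powers of two
  have hpow : ∀ s : ℕ, s ≤ T + 1 → ((2 : ℝ) ^ s) ≤ Real.exp (2 * L / A) := by
    intro s hs
    have hs' : (s : ℝ) ≤ T + 1 := by exact_mod_cast hs
    have h1 : (2 : ℝ) ^ s = Real.exp (s * Real.log 2) := by
      rw [mul_comm, Real.exp_mul, Real.exp_log (by norm_num), Real.rpow_natCast]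
    rw [h1]
    apply Real.exp_le_exp.mpr
    rw [le_div_iff₀ (by linarith)]
    have h2 : (s : ℝ) * Real.log 2 * A ≤ (A : ℝ) * (T + 1) * Real.log 2 := by
      have : (s : ℝ) * Real.log 2 ≤ (T + 1) * Real.log 2 := by
        apply mul_le_mul_of_nonneg_right hs' (by linarith)
      nlinarith
    linarith
  have hfracδ : 2 * L / A ≤ δ * L := by
    have h1 : 2 ≤ A * δ := by rwa [div_le_iff₀ hδ] at hA3
    rw [div_le_iff₀ (by linarith)]
    nlinarith
  have hfrac500 : 2 * L / A ≤ L / 500 := by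
    rw [div_le_div_iff₀ (by linarith) (by norm_num)]
    nlinarith
  have hexpL : Real.exp (101 / 100 * L) = X / 3 := by
    have : 101 / 100 * L = lx - Real.log 3 := by rw [hL]; ring
    rw [this, Real.exp_sub, hlxd, Real.exp_log hXr, Real.exp_log (by norm_num)]
  obtain ⟨S, hS1, hS2⟩ := hmain L hLT0 (2 ^ t j) d (fun i => ((2 ^ t i : ℕ) : ℤ)) (fun i => (b i : ℤ)) l hd1 hd2
    (by push_cast; exact (hpow _ (by have := ht j; omega)).trans (Real.exp_le_exp.mpr hfracδ))
    (by positivity)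
    (by
      intro h1
      apply hne
      have h2 : ((2 ^ t j * b l : ℕ) : ℤ) = ((d * 2 ^ t l : ℕ) : ℤ) := by push_cast; push_cast at h1; exact h1
      exact_mod_cast h2)
    (by
      push_cast
      rw [abs_of_nonneg (by positivity)]
      exact (hpow _ (by have := ht l; omega)).trans (Real.exp_le_exp.mpr hfrac500))
    (by
      push_cast
      rw [abs_of_nonneg (by positivity)]
      have h1 : (b l : ℝ) ≤ 2 ^ (t l + 1) := by exact_mod_cast hb l
      refine h1.trans ((hpow _ (by have := ht l; omega)).trans (Real.exp_le_exp.mpr ?_))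
      linarith)
    (by
      intro p hp
      obtain ⟨n, hn1, hn2⟩ := hadm p hp
      refine ⟨n, hn1, fun i => ?_⟩
      have := hn2 i
      intro h3
      apply this
      have h4 : (p : ℤ) ∣ ((2 ^ t i * n + b i : ℕ) : ℤ) := by push_cast; push_cast at h3; exact h3
      exact_mod_cast h4)
  refine ⟨S, ?_, ?_⟩
  · refine le_trans ?_ hS1.le
    rw [Real.rpow_def_of_pos hXr]
    apply Real.exp_le_exp.mpr
    rw [hL]
    nlinarith
  · intro n hn
    obtain ⟨hp, h1, h2, h3, h4, h5, h6⟩ := hS2 n hn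
    have hle : 2 ^ t j * n + d ≤ X := by
      rw [hexpL] at h2
      have : ((2 ^ t j * n + d : ℕ) : ℝ) ≤ X := by
        calc ((2 ^ t j * n + d : ℕ) : ℝ) ≤ 3 * (X / 3) := h2
          _ = X := by ring
      exact_mod_cast this
    have hcast : ∀ i, (((2 ^ t i : ℕ) : ℤ) * n + (b i : ℤ)).natAbs = 2 ^ t i * n + b i := by
      intro i
      have : (((2 ^ t i : ℕ) : ℤ) * n + (b i : ℤ)) = ((2 ^ t i * n + b i : ℕ) : ℤ) := by push_cast; ring
      rw [this, Int.natAbs_natCast]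
    refine ⟨hle, hp, ?_, ?_⟩
    · have := h6
      rw [hcast] at this
      exact this
    · intro i
      by_cases hv : 2 ^ t i * n + b i = 0
      · rw [hv]; simp
      · have hlow : ∀ p : ℕ, p.Prime → p ∣ 2 ^ t i * n + b i → Real.exp (ε * L) ≤ (p : ℝ) := by
          intro p hpp hdvd
          by_contra hcon
          push Not at hcon
          apply h3 i p hpp hcon.le
          have h7 : (p : ℤ) ∣ ((2 ^ t i * n + b i : ℕ) : ℤ) := by exact_mod_cast hdvd
          push_cast at h7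
          push_cast
          exact h7
        have h8 := cun_card (Real.exp (ε * L)) (Real.exp_pos _).le _ hv hlow
        have hn : n ≤ X := by
          calc n ≤ 2 ^ t j * n := Nat.le_mul_of_pos_left n (by positivity)
            _ ≤ X := by omega
        have h9 : 2 ^ t i * n + b i ≤ X * X := by
          have h10 : 2 ^ t i ≤ 2 ^ T := Nat.pow_le_pow_right (by norm_num) (ht i)
          have h11 : b i ≤ 2 ^ t i * 2 := by rw [← pow_succ]; exact hb i
          have h12 : 2 ≤ X := by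
            calc 2 = 2 ^ 1 := by norm_num
              _ ≤ 2 ^ (A * (T + 1)) := Nat.pow_le_pow_right (by norm_num) (by
                have : 1 ≤ A := by omega
                nlinarith)
              _ ≤ X := hX
          have h13 : 2 ^ (T + 1) ≤ X := by
            refine le_trans (Nat.pow_le_pow_right (by norm_num) ?_) hX
            have : 1 ≤ A := by omega
            nlinarith
          calc 2 ^ t i * n + b i ≤ 2 ^ t i * n + 2 ^ t i * 2 := by omega
            _ = 2 ^ t i * (n + 2) := by ring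
            _ ≤ 2 ^ T * (X + X) := Nat.mul_le_mul h10 (by omega)
            _ = 2 ^ (T + 1) * X := by ring
            _ ≤ X * X := Nat.mul_le_mul_right _ h13
        have h10 : Real.exp (ε * L) ^ ArithmeticFunction.cardFactors (2 ^ t i * n + b i) ≤ (X : ℝ) * X := by
          refine h8.trans ?_
          exact_mod_cast h9
        rw [← Real.exp_nat_mul] at h10
        have h11 := Real.log_le_log (Real.exp_pos _) h10
        rw [Real.log_exp, Real.log_mul hXr.ne' hXr.ne'] at h11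
        rw [← hlxd] at h11
        have h12 : (ArithmeticFunction.cardFactors (2 ^ t i * n + b i) : ℝ) ≤ 4 / ε := by
          rw [le_div_iff₀ hε]
          have h13 : (ArithmeticFunction.cardFactors (2 ^ t i * n + b i) : ℝ) * (ε * L) ≤ 4 * L := by linarith
          have h14 : ((ArithmeticFunction.cardFactors (2 ^ t i * n + b i) : ℝ) * ε) * L ≤ 4 * L := by linarith
          exact le_of_mul_le_mul_right h14 hLpos
        have h13 : (ArithmeticFunction.cardFactors (2 ^ t i * n + b i) : ℝ) ≤ (⌈4 / ε⌉₊ : ℝ) := h12.trans (Nat.le_ceil _)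
        exact_mod_cast h13

/-- Cunningham sequences of the first kind at arbitrary times -/
theorem cun1p (h : S_U3c) : ∀ k : ℕ, ∃ A R : ℕ, ∀ (T : ℕ) (t : Fin k → ℕ), (∀ i, t i ≤ T) → ∀ j l : Fin k, t j ≠ t l →
    ∀ X : ℕ, 2 ^ (A * (T + 1)) ≤ X → ∃ S : Finset ℕ, (X : ℝ) ^ (97 / 100 : ℝ) ≤ S.card ∧ ∀ p ∈ S, p ≤ X ∧
      (2 ^ t j * (p + 1) - 1).Prime ∧ ArithmeticFunction.cardFactors (2 ^ t l * (p + 1) - 1) ≤ 3 ∧
      ∀ i, ArithmeticFunction.cardFactors (2 ^ t i * (p + 1) - 1) ≤ R := by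
  intro k
  obtain ⟨A, R, hAR⟩ := cun_core h k
  refine ⟨A, R, ?_⟩
  intro T t ht j l hjl X hX
  have hpos : ∀ s : ℕ, 1 ≤ 2 ^ s := fun s => Nat.one_le_two_pow
  have hinj : (2 : ℕ) ^ t j ≠ 2 ^ t l := fun h1 => hjl (Nat.pow_right_injective le_rfl h1)
  by_cases htj : t j = 0
  · have hl1 : t l ≠ 0 := by omega
    obtain ⟨S, hS1, hS2⟩ := hAR T t ht j l X hX 1 (fun i => 2 ^ (t i + 1) - 1) le_rfl (hpos _)
      (by
        rw [htj]
        have h1 := hpos (t l)
        have h2 : 2 ≤ 2 ^ t l := by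
          calc 2 = 2 ^ 1 := by norm_num
            _ ≤ 2 ^ t l := Nat.pow_le_pow_right (by norm_num) (by omega)
        rw [pow_succ]
        simp only [pow_zero, one_mul]
        omega)
      (by intro i; simp)
      (by
        intro p hp
        have hp2 := hp.two_le
        refine ⟨2 * p - 2, ?_, ?_⟩
        · rw [htj]
          simp only [pow_zero, one_mul]
          intro h1
          have h2 : 2 * p - 2 + 1 + 1 = p * 2 := by omega
          have h3 : p ∣ 1 := (Nat.dvd_add_right h1).mp (by rw [h2]; exact dvd_mul_right _ _)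
          exact hp.one_lt.ne' (Nat.dvd_one.mp h3)
        · intro i h1
          have h2 : 2 ^ t i * (2 * p - 2) + (2 ^ (t i + 1) - 1) + 1 = p * (2 ^ t i * 2) := by
            have h3 : 2 ^ t i * (2 * p - 2) = 2 ^ t i * (2 * p) - 2 ^ t i * 2 := by rw [Nat.mul_sub]
            have h4 : 2 ^ t i * 2 ≤ 2 ^ t i * (2 * p) := Nat.mul_le_mul_left _ (by omega)
            have h5 := hpos (t i)
            rw [h3, pow_succ]
            have h6 : p * (2 ^ t i * 2) = 2 ^ t i * (2 * p) := by ring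
            omega
          have h3 : p ∣ 1 := (Nat.dvd_add_right h1).mp (by rw [h2]; exact dvd_mul_right _ _)
          exact hp.one_lt.ne' (Nat.dvd_one.mp h3))
    have hval : ∀ i n, 2 ^ t i * ((n + 1) + 1) - 1 = 2 ^ t i * n + (2 ^ (t i + 1) - 1) := by
      intro i n
      have h5 := hpos (t i)
      rw [pow_succ]
      have h6 : 2 ^ t i * (n + 1 + 1) = 2 ^ t i * n + 2 ^ t i * 2 := by ring
      omega
    refine ⟨S.image (· + 1), ?_, ?_⟩
    · rw [card_image_of_injective _ (add_left_injective 1)]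
      exact hS1
    · intro p hp
      rw [mem_image] at hp
      obtain ⟨n, hn, rfl⟩ := hp
      obtain ⟨h1, h2, h3, h4⟩ := hS2 n hn
      refine ⟨?_, ?_, ?_, ?_⟩
      · rw [htj] at h1
        simpa using h1
      · rw [hval, htj]
        rw [htj] at h2
        simpa using h2
      · rw [hval]; exact h3
      · intro i
        rw [hval]; exact h4 i
  · have h2j : 2 ≤ 2 ^ t j := by
      calc 2 = 2 ^ 1 := by norm_num
        _ ≤ 2 ^ t j := Nat.pow_le_pow_right (by norm_num) (by omega)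
    obtain ⟨S, hS1, hS2⟩ := hAR T t ht j l X hX (2 ^ t j - 1) (fun i => 2 ^ t i - 1) (by omega) (by omega)
      (by
        intro h1
        have h2 := hpos (t l)
        have h3 : 2 ^ t j * (2 ^ t l - 1) = 2 ^ t j * 2 ^ t l - 2 ^ t j := by rw [Nat.mul_sub, mul_one]
        have h4 : (2 ^ t j - 1) * 2 ^ t l = 2 ^ t j * 2 ^ t l - 2 ^ t l := by rw [Nat.sub_mul, one_mul]
        have h5 : 2 ^ t j ≤ 2 ^ t j * 2 ^ t l := Nat.le_mul_of_pos_right _ (by omega)
        have h6 : 2 ^ t l ≤ 2 ^ t j * 2 ^ t l := Nat.le_mul_of_pos_left _ (by omega)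
        apply hinj
        rw [h3, h4] at h1
        omega)
      (by
        intro i
        have : 2 ^ t i ≤ 2 ^ (t i + 1) := Nat.pow_le_pow_right (by norm_num) (by omega)
        omega)
      (by
        intro p hp
        have hp2 := hp.two_le
        have key : ∀ s : ℕ, ¬ p ∣ 2 ^ s * (p - 1) + (2 ^ s - 1) := by
          intro s h1
          have h2 : 2 ^ s * (p - 1) + (2 ^ s - 1) + 1 = p * 2 ^ s := by
            have h3 : 2 ^ s * (p - 1) = 2 ^ s * p - 2 ^ s := by rw [Nat.mul_sub, mul_one]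
            have h4 : 2 ^ s ≤ 2 ^ s * p := Nat.le_mul_of_pos_right _ (by omega)
            have h5 := hpos s
            rw [h3]
            have h6 : p * 2 ^ s = 2 ^ s * p := by ring
            omega
          have h3 : p ∣ 1 := (Nat.dvd_add_right h1).mp (by rw [h2]; exact dvd_mul_right _ _)
          exact hp.one_lt.ne' (Nat.dvd_one.mp h3)
        exact ⟨p - 1, key _, fun i => key _⟩)
    have hval : ∀ s n : ℕ, 2 ^ s * (n + 1) - 1 = 2 ^ s * n + (2 ^ s - 1) := by
      intro s n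
      have h5 := hpos s
      have h6 : 2 ^ s * (n + 1) = 2 ^ s * n + 2 ^ s := by ring
      omega
    refine ⟨S, hS1, ?_⟩
    intro n hn
    obtain ⟨h1, h2, h3, h4⟩ := hS2 n hn
    refine ⟨?_, ?_, ?_, ?_⟩
    · calc n ≤ 2 ^ t j * n := Nat.le_mul_of_pos_left n (by positivity)
        _ ≤ X := by omega
    · rw [hval]; exact h2
    · rw [hval]; exact h3
    · intro i
      rw [hval]; exact h4 i

/-- Cunningham sequences of the second kind at arbitrary times -/
theorem cun2p (h : S_U3c) : ∀ k : ℕ, ∃ A R : ℕ, ∀ (T : ℕ) (t : Fin k → ℕ), (∀ i, t i ≤ T) → ∀ j l : Fin k, t j ≠ t l →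
    ∀ X : ℕ, 2 ^ (A * (T + 1)) ≤ X → ∃ S : Finset ℕ, (X : ℝ) ^ (97 / 100 : ℝ) ≤ S.card ∧ ∀ p ∈ S, 1 ≤ p ∧ p ≤ X ∧
      (2 ^ t j * (p - 1) + 1).Prime ∧ ArithmeticFunction.cardFactors (2 ^ t l * (p - 1) + 1) ≤ 3 ∧
      ∀ i, ArithmeticFunction.cardFactors (2 ^ t i * (p - 1) + 1) ≤ R := by
  intro k
  obtain ⟨A, R, hAR⟩ := cun_core h k
  refine ⟨A, R, ?_⟩
  intro T t ht j l hjl X hX
  have hpos : ∀ s : ℕ, 1 ≤ 2 ^ s := fun s => Nat.one_le_two_pow
  have hinj : (2 : ℕ) ^ t j ≠ 2 ^ t l := fun h1 => hjl (Nat.pow_right_injective le_rfl h1)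
  obtain ⟨S, hS1, hS2⟩ := hAR T t ht j l X hX 1 (fun i => 1) le_rfl (hpos _)
    (by simpa using hinj)
    (by intro i; exact hpos _)
    (by
      intro p hp
      have key : ∀ s : ℕ, ¬ p ∣ 2 ^ s * 0 + 1 := by
        intro s h1
        simp only [mul_zero, zero_add] at h1
        exact hp.one_lt.ne' (Nat.dvd_one.mp h1)
      exact ⟨0, key _, fun i => key _⟩)
  refine ⟨S.image (· + 1), ?_, ?_⟩
  · rw [card_image_of_injective _ (add_left_injective 1)]
    exact hS1
  · intro p hp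
    rw [mem_image] at hp
    obtain ⟨n, hn, rfl⟩ := hp
    obtain ⟨h1, h2, h3, h4⟩ := hS2 n hn
    refine ⟨by omega, ?_, ?_, ?_, ?_⟩
    · have h5 : n ≤ 2 ^ t j * n := Nat.le_mul_of_pos_left n (by positivity)
      omega
    · simpa using h2
    · simpa using h3
    · intro i
      simpa using h4 i

end Pool.Agent.H536.OC
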