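import Mathlib

open Finset

/-! The main theorem with forbidden classes, as a statement (helper536). -/

namespace Pool.Agent.H536.OC

/-- many `n` with `c n + d` prime, `a n + b` a product of at most three primes, and `n` outside of at most `κ` forbidden classes
modulo every prime `p ≤ exp (ε T)`, uniformly for all `c ≤ exp (δ T)` -/
def S_U5 : Prop := ∀ κ : ℕ, ∃ δ ε T0 : ℝ, 0 < δ ∧ 0 < ε ∧ ∀ T : ℝ, T0 ≤ T →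
  ∀ (c d : ℕ) (a b : ℤ) (F : ℕ → Finset ℕ), 1 ≤ d → d ≤ c → (c : ℝ) ≤ Real.exp (δ * T) →
  a ≠ 0 → (c : ℤ) * b ≠ d * a → |((a : ℤ) : ℝ)| ≤ Real.exp (T / 500) →
  |((b : ℤ) : ℝ)| ≤ Real.exp (1019 / 1000 * T) → (∀ p : ℕ, p.Prime → (F p).card ≤ κ) →
  (∀ p : ℕ, p.Prime → ∃ n : ℕ, ¬ p ∣ c * n + d ∧ ¬ (p : ℤ) ∣ a * n + b ∧ n % p ∉ F p) →
  ∃ S : Finset ℕ, Real.exp (98 / 100 * T) < S.card ∧ ∀ n ∈ S, (c * n + d).Prime ∧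
    Real.exp (98 / 100 * T) < ((c * n + d : ℕ) : ℝ) ∧ ((c * n + d : ℕ) : ℝ) ≤ 3 * Real.exp (101 / 100 * T) ∧
    (∀ p : ℕ, p.Prime → (p : ℝ) ≤ Real.exp (ε * T) → n % p ∉ F p) ∧
    (∀ p : ℕ, p.Prime → (p : ℝ) ≤ Real.exp (T / 9) → ¬ (p : ℤ) ∣ a * n + b) ∧
    1 < (a * n + b).natAbs ∧ ArithmeticFunction.cardFactors (a * n + b).natAbs ≤ 3

end Pool.Agent.H536.OC
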