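import Mathlib
import Pool.Agent.H536.OC.Wf

open Finset

/-! The main theorem with polynomial values free of small prime factors (helper536). -/

namespace Pool.Agent.H536.OC

open Polynomial

/-- many `n` with `c n + d` prime, `a n + b` a product of at most three primes, and the values of given polynomials free of
small prime factors, uniformly for all `c ≤ exp (δ T)` and all coefficients of the polynomials -/
def S_P : Prop := ∀ k D : ℕ, ∃ δ ε T0 : ℝ, 0 < δ ∧ 0 < ε ∧ ∀ T : ℝ, T0 ≤ T →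
  ∀ (c d : ℕ) (a b : ℤ) (f : Fin k → ℤ[X]), 1 ≤ d → d ≤ c → (c : ℝ) ≤ Real.exp (δ * T) →
  a ≠ 0 → (c : ℤ) * b ≠ d * a → |((a : ℤ) : ℝ)| ≤ Real.exp (T / 500) →
  |((b : ℤ) : ℝ)| ≤ Real.exp (1019 / 1000 * T) → (∀ i, (f i).natDegree ≤ D) →
  (∀ p : ℕ, p.Prime → ∃ n : ℕ, ¬ p ∣ c * n + d ∧ ¬ (p : ℤ) ∣ a * n + b ∧ ∀ i, ¬ (p : ℤ) ∣ (f i).eval (n : ℤ)) →
  ∃ S : Finset ℕ, Real.exp (98 / 100 * T) < S.card ∧ ∀ n ∈ S, (c * n + d).Prime ∧
    Real.exp (98 / 100 * T) < ((c * n + d : ℕ) : ℝ) ∧ ((c * n + d : ℕ) : ℝ) ≤ 3 * Real.exp (101 / 100 * T) ∧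
    (∀ i, ∀ p : ℕ, p.Prime → (p : ℝ) ≤ Real.exp (ε * T) → ¬ (p : ℤ) ∣ (f i).eval (n : ℤ)) ∧
    (∀ p : ℕ, p.Prime → (p : ℝ) ≤ Real.exp (T / 9) → ¬ (p : ℤ) ∣ a * n + b) ∧
    1 < (a * n + b).natAbs ∧ ArithmeticFunction.cardFactors (a * n + b).natAbs ≤ 3

theorem poly_tr {p : ℕ} {f : ℤ[X]} {x y : ℕ} (h : x ≡ y [MOD p]) : (p : ℤ) ∣ f.eval (x : ℤ) ↔ (p : ℤ) ∣ f.eval (y : ℤ) := by
  have h0 : (x : ℤ) ≡ y [ZMOD p] := (Int.natCast_modEq_iff).2 h
  have h1 : (p : ℤ) ∣ f.eval (y : ℤ) - f.eval (x : ℤ) := ((Int.modEq_iff_dvd).1 h0).trans (Polynomial.sub_dvd_eval_sub _ _ f)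
  constructor
  · intro hd
    have := dvd_add h1 hd
    simpa using this
  · intro hd
    have := dvd_sub hd h1
    simpa using this

theorem roots_card {p : ℕ} (hp : p.Prime) (f : ℤ[X]) (h : ∃ n : ℕ, ¬ (p : ℤ) ∣ f.eval (n : ℤ)) :
    ((range p).filter (fun x : ℕ => (p : ℤ) ∣ f.eval (x : ℤ))).card ≤ f.natDegree := by
  classical
  haveI : Fact p.Prime := ⟨hp⟩
  obtain ⟨n, hn⟩ := h
  have hev : ∀ x : ℕ, (p : ℤ) ∣ f.eval (x : ℤ) ↔ (f.map (Int.castRingHom (ZMod p))).eval (x : ZMod p) = 0 := by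
    intro x
    rw [Polynomial.eval_natCast_map, ← ZMod.intCast_zmod_eq_zero_iff_dvd]
    simp
  have hne : f.map (Int.castRingHom (ZMod p)) ≠ 0 := by
    intro h0
    apply hn
    rw [hev, h0, Polynomial.eval_zero]
  have h1 : ((range p).filter (fun x : ℕ => (p : ℤ) ∣ f.eval (x : ℤ))).card ≤ (f.map (Int.castRingHom (ZMod p))).roots.toFinset.card := by
    apply card_le_card_of_injOn (fun x : ℕ => (x : ZMod p))
    · intro x hx
      rw [mem_coe, mem_filter] at hx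
      rw [mem_coe, Multiset.mem_toFinset, Polynomial.mem_roots hne]
      exact (hev x).1 hx.2
    · intro x hx y hy hxy
      rw [mem_coe, mem_filter, mem_range] at hx hy
      have := (ZMod.natCast_eq_natCast_iff x y p).1 hxy
      exact Nat.ModEq.eq_of_lt_of_lt this hx.1 hy.1
  refine h1.trans ((Multiset.toFinset_card_le _).trans ((Polynomial.card_roots' _).trans ?_))
  exact Polynomial.natDegree_map_le

theorem SPoly (h : S_U5) : S_P := by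
  classical
  intro k D
  obtain ⟨δ, ε, T0, hδ, hε, h1⟩ := h (k * D)
  refine ⟨δ, ε, T0, hδ, hε, ?_⟩
  intro T hT c d a b f hd1 hdc hc ha0 hne haT hbT hdeg hadm
  have h1' := h1 T hT c d a b (fun p => (range p).filter (fun x : ℕ => ∃ i, (p : ℤ) ∣ (f i).eval (x : ℤ)))
    hd1 hdc hc ha0 hne haT hbT ?_ ?_
  · obtain ⟨S, hS, h2⟩ := h1'
    refine ⟨S, hS, fun n hn => ?_⟩
    obtain ⟨g1, g2, g3, g4, g5, g6, g7⟩ := h2 n hn
    refine ⟨g1, g2, g3, fun i p hp hpe hd => ?_, g5, g6, g7⟩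
    apply g4 p hp hpe
    rw [mem_filter, mem_range]
    exact ⟨Nat.mod_lt _ hp.pos, i, (poly_tr (Nat.mod_modEq n p)).2 hd⟩
  · intro p hp
    have h3 : (range p).filter (fun x : ℕ => ∃ i, (p : ℤ) ∣ (f i).eval (x : ℤ)) ⊆
        (univ : Finset (Fin k)).biUnion (fun i => (range p).filter (fun x : ℕ => (p : ℤ) ∣ (f i).eval (x : ℤ))) := by
      intro x hx
      rw [mem_filter] at hx
      obtain ⟨i, hi⟩ := hx.2
      rw [mem_biUnion]
      exact ⟨i, mem_univ _, mem_filter.2 ⟨hx.1, hi⟩⟩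
    refine (card_le_card h3).trans ((card_biUnion_le_card_mul _ _ D ?_).trans (by simp))
    intro i _
    obtain ⟨n, _, _, hn⟩ := hadm p hp
    exact (roots_card hp (f i) ⟨n, hn i⟩).trans (hdeg i)
  · intro p hp
    obtain ⟨n, hn1, hn2, hn3⟩ := hadm p hp
    refine ⟨n, hn1, hn2, fun hmem => ?_⟩
    rw [mem_filter] at hmem
    obtain ⟨i, hi⟩ := hmem.2
    exact hn3 i ((poly_tr (Nat.mod_modEq n p)).1 hi)

end Pool.Agent.H536.OC
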