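import Mathlib
import Pool.Agent.H536.OC.Wg

open Finset Filter Topology

/-! Subtask (helper536), proved by helper297. -/

namespace Pool.Agent.H536.OC

/-- a product of numbers which are at least `y` -/
theorem dub_pow_le (y : ℝ) (hy : 0 ≤ y) (l : List ℕ) (h : ∀ p ∈ l, y ≤ (p : ℝ)) :
    y ^ l.length ≤ ((l.prod : ℕ) : ℝ) := by
  induction l with
  | nil => simp
  | cons p l ih =>
    rw [List.length_cons, List.prod_cons, pow_succ', Nat.cast_mul]
    exact mul_le_mul (h p List.mem_cons_self) (ih fun q hq => h q (List.mem_cons_of_mem _ hq))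
      (pow_nonneg hy _) (Nat.cast_nonneg _)

theorem dub_pow_omega (y : ℝ) (hy : 0 ≤ y) {m : ℕ} (hm : m ≠ 0)
    (h : ∀ p : ℕ, p.Prime → p ∣ m → y ≤ (p : ℝ)) :
    y ^ ArithmeticFunction.cardFactors m ≤ (m : ℝ) := by
  have h1 := dub_pow_le y hy m.primeFactorsList fun p hp =>
    h p (Nat.prime_of_mem_primeFactorsList hp) (Nat.dvd_of_mem_primeFactorsList hp)
  rw [Nat.prod_primeFactorsList hm] at h1
  rwa [ArithmeticFunction.cardFactors_apply]

/-- `Ω(m) ≤ ⌈4 / ε⌉` -/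
theorem dub_omega {ε T L : ℝ} (hε : 0 < ε) (hL : 1 ≤ L) (hT : L / 2 ≤ T) {m : ℕ} (hm : m ≠ 0)
    (h : ∀ p : ℕ, p.Prime → (p : ℝ) ≤ Real.exp (ε * T) → ¬ p ∣ m) (hmL : (m : ℝ) ≤ Real.exp (2 * L)) :
    ArithmeticFunction.cardFactors m ≤ ⌈4 / ε⌉₊ := by
  have h1 := dub_pow_omega (Real.exp (ε * T)) (Real.exp_pos _).le hm
    (fun p hp hpd => by
      by_contra hcon
      push Not at hcon
      exact h p hp hcon.le hpd)
  have h3 := h1.trans hmL
  rw [← Real.exp_nat_mul] at h3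
  have h4 := Real.exp_le_exp.1 h3
  have h5 : ((ArithmeticFunction.cardFactors m : ℕ) : ℝ) ≤ 4 / ε := by
    rw [le_div_iff₀ hε]
    by_contra hcon
    push Not at hcon
    have h7 : 0 < L / 2 := by linarith
    have h8 : 4 * (L / 2) < ((ArithmeticFunction.cardFactors m : ℕ) : ℝ) * ε * (L / 2) :=
      mul_lt_mul_of_pos_right hcon h7
    have h9 : ((ArithmeticFunction.cardFactors m : ℕ) : ℝ) * ε * (L / 2) ≤
        ((ArithmeticFunction.cardFactors m : ℕ) : ℝ) * ε * T := by gcongr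
    linarith
  have h6 : ((ArithmeticFunction.cardFactors m : ℕ) : ℝ) ≤ (⌈4 / ε⌉₊ : ℝ) :=
    h5.trans (Nat.le_ceil _)
  exact_mod_cast h6

theorem dub_three : ∀ e f : ZMod 3, (e = 2 ∨ e = 1) → (f = 2 ∨ f = 1) →
    e ≠ 0 ∧ e + e ≠ 0 ∧ e + f - e ≠ 0 ∧ e + f - e + f ≠ 0 := by
  decide

/-- a residue class avoiding four classes -/
theorem dub_class (n : ℕ) (e f : ℤ) (hn : Even n) (he : e = 2 ∨ e = -2) (hf : f = 2 ∨ f = -2)
    (h3 : (3 : ℤ) ∣ n - (e + f)) (l : ℕ) (hl : l.Prime) :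
    ∃ v : ZMod l, v ≠ 0 ∧ v + e ≠ 0 ∧ (n : ZMod l) - v ≠ 0 ∧ (n : ZMod l) - v + f ≠ 0 := by
  have := Fact.mk hl
  by_cases hl2 : l = 2
  · subst hl2
    have e1 : (n : ZMod 2) = 0 := by
      rw [ZMod.natCast_eq_zero_iff]
      exact hn.two_dvd
    have e2 : (e : ZMod 2) = 0 := by
      rw [ZMod.intCast_zmod_eq_zero_iff_dvd]
      rcases he with rfl | rfl <;> decide
    have e3 : (f : ZMod 2) = 0 := by
      rw [ZMod.intCast_zmod_eq_zero_iff_dvd]
      rcases hf with rfl | rfl <;> decide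
    refine ⟨1, one_ne_zero, ?_, ?_, ?_⟩
    · rw [e2, add_zero]
      exact one_ne_zero
    · rw [e1, zero_sub]
      exact neg_ne_zero.2 one_ne_zero
    · rw [e1, e3, add_zero, zero_sub]
      exact neg_ne_zero.2 one_ne_zero
  · by_cases hl3 : l = 3
    · subst hl3
      have e1 : (n : ZMod 3) = (e : ZMod 3) + f := by
        have h4 : (((n : ℤ) - (e + f) : ℤ) : ZMod 3) = 0 := by
          rw [ZMod.intCast_zmod_eq_zero_iff_dvd]
          exact h3
        push_cast at h4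
        linear_combination h4
      rw [e1]
      have e2 : (e : ZMod 3) = 2 ∨ (e : ZMod 3) = 1 := by
        rcases he with rfl | rfl
        · exact Or.inl rfl
        · exact Or.inr rfl
      have e3 : (f : ZMod 3) = 2 ∨ (f : ZMod 3) = 1 := by
        rcases hf with rfl | rfl
        · exact Or.inl rfl
        · exact Or.inr rfl
      exact ⟨(e : ZMod 3), dub_three _ _ e2 e3⟩
    · have hl5 : 5 ≤ l := by
        have h2 := hl.two_le
        by_contra hc
        have h4 : l = 4 := by omega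
        subst h4
        exact absurd hl (by decide)
      obtain ⟨v, -, hv⟩ : ∃ v ∈ (univ : Finset (ZMod l)),
          v ∉ ({0, -(e : ZMod l), (n : ZMod l), (n : ZMod l) + f} : Finset (ZMod l)) := by
        apply Finset.exists_mem_notMem_of_card_lt_card
        rw [Finset.card_univ, ZMod.card]
        exact lt_of_le_of_lt Finset.card_le_four (by omega)
      simp only [Finset.mem_insert, Finset.mem_singleton, not_or] at hv
      obtain ⟨v1, v2, v3, v4⟩ := hv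
      refine ⟨v, v1, fun h => v2 ?_, fun h => v3 ?_, fun h => v4 ?_⟩
      · linear_combination h
      · linear_combination -h
      · linear_combination -h

/-- admissibility -/
theorem dub_adm (n q b d : ℕ) (e f : ℤ) (hn : Even n) (he : e = 2 ∨ e = -2) (hf : f = 2 ∨ f = -2)
    (h3 : (3 : ℤ) ∣ n - (e + f)) (hd : d ≡ b [MOD q])
    (hq : ∀ l : ℕ, l.Prime → l ∣ q → ¬ (l : ℤ) ∣ b * (b + e) * (n - b) * (n - b + f))
    (l : ℕ) (hl : l.Prime) :
    ∃ t : ℕ, ¬ l ∣ q * t + d ∧ ¬ (l : ℤ) ∣ -(q : ℤ) * t + ((n : ℤ) - d) ∧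
      ¬ (l : ℤ) ∣ (q : ℤ) * t + (d + e) ∧ ¬ (l : ℤ) ∣ -(q : ℤ) * t + ((n : ℤ) - d + f) := by
  -- it suffices to find a value of `q t + d`
  have key : ∀ v : ZMod l, (∃ t : ℕ, (q : ZMod l) * t + d = v) → v ≠ 0 → v + e ≠ 0 →
      (n : ZMod l) - v ≠ 0 → (n : ZMod l) - v + f ≠ 0 →
      ∃ t : ℕ, ¬ l ∣ q * t + d ∧ ¬ (l : ℤ) ∣ -(q : ℤ) * t + ((n : ℤ) - d) ∧
      ¬ (l : ℤ) ∣ (q : ℤ) * t + (d + e) ∧ ¬ (l : ℤ) ∣ -(q : ℤ) * t + ((n : ℤ) - d + f) := by
    rintro v ⟨t, ht⟩ h0 h1 h2 h4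
    refine ⟨t, fun h => h0 ?_, fun h => h2 ?_, fun h => h1 ?_, fun h => h4 ?_⟩
    · rw [← ZMod.natCast_eq_zero_iff] at h
      push_cast at h
      rw [← ht, h]
    · rw [← ZMod.intCast_zmod_eq_zero_iff_dvd] at h
      push_cast at h
      rw [← ht]
      linear_combination h
    · rw [← ZMod.intCast_zmod_eq_zero_iff_dvd] at h
      push_cast at h
      rw [← ht]
      linear_combination h
    · rw [← ZMod.intCast_zmod_eq_zero_iff_dvd] at h
      push_cast at h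
      rw [← ht]
      linear_combination h
  by_cases hlq : l ∣ q
  · have h1 := hq l hl hlq
    have hdb : (d : ZMod l) = (b : ZMod l) := by
      rw [ZMod.natCast_eq_natCast_iff]
      exact Nat.ModEq.of_dvd hlq hd
    rw [← ZMod.intCast_zmod_eq_zero_iff_dvd] at h1
    push_cast at h1
    rw [← hdb] at h1
    have := Fact.mk hl
    change (d : ZMod l) * (d + e) * (n - d) * (n - d + f) ≠ 0 at h1
    rw [mul_ne_zero_iff, mul_ne_zero_iff, mul_ne_zero_iff] at h1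
    exact key (d : ZMod l) ⟨0, by simp⟩ h1.1.1.1 h1.1.1.2 h1.1.2 h1.2
  · have := Fact.mk hl
    have hq0 : (q : ZMod l) ≠ 0 := by
      rw [Ne, ZMod.natCast_eq_zero_iff]
      exact hlq
    obtain ⟨v, h0, h1, h2, h4⟩ := dub_class n e f hn he hf h3 l hl
    refine key v ⟨((v - d) * (q : ZMod l)⁻¹).val, ?_⟩ h0 h1 h2 h4
    rw [ZMod.natCast_zmod_val]
    field_simp
    ring

open Polynomial in
/-- `n = p + m`, `p` prime, `m` a `P₃`, `p + e` and `m + f` almost prime (`e, f = ±2`), `p ≡ b (mod q)` -/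
theorem dub (h : S_P) : ∃ (δ : ℝ) (R X0 : ℕ), 0 < δ ∧ ∀ n : ℕ, X0 ≤ n → Even n → ∀ e f : ℤ, (e = 2 ∨ e = -2) →
    (f = 2 ∨ f = -2) → (3 : ℤ) ∣ n - (e + f) → ∀ q b : ℕ, 1 ≤ q → (q : ℝ) ≤ (n : ℝ) ^ δ →
    (∀ l : ℕ, l.Prime → l ∣ q → ¬ (l : ℤ) ∣ b * (b + e) * (n - b) * (n - b + f)) →
    ∃ S : Finset ℕ, (n : ℝ) ^ (97 / 100 : ℝ) ≤ S.card ∧ ∀ p ∈ S, p.Prime ∧ p < n ∧ p ≡ b [MOD q] ∧
      0 < (p : ℤ) + e ∧ ArithmeticFunction.cardFactors ((p : ℤ) + e).natAbs ≤ R ∧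
      1 < n - p ∧ ArithmeticFunction.cardFactors (n - p) ≤ 3 ∧
      (∀ l : ℕ, l.Prime → l ∣ n - p → (n : ℝ) ^ (11 / 100 : ℝ) < l) ∧
      0 < (n : ℤ) - p + f ∧ ArithmeticFunction.cardFactors ((n : ℤ) - p + f).natAbs ≤ R := by
  obtain ⟨δ, ε, T0, hδ, hε, hU⟩ := h 2 1
  have hm : 0 < min δ (1 / 500) := lt_min hδ (by norm_num)
  refine ⟨min δ (1 / 500) / 2, ⌈4 / ε⌉₊, ⌈Real.exp (max 40000 (2 * |T0| + 6))⌉₊, by positivity, ?_⟩
  intro n hn hne e f he hf h3 q b hq hqn hadm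
  have hn1 : Real.exp (max 40000 (2 * |T0| + 6)) ≤ n := (Nat.le_ceil _).trans (by exact_mod_cast hn)
  have hnpos : (0 : ℝ) < n := (Real.exp_pos _).trans_le hn1
  obtain ⟨L, hL⟩ : ∃ L, L = Real.log n := ⟨_, rfl⟩
  have hnL : (n : ℝ) = Real.exp L := by rw [hL, Real.exp_log hnpos]
  have hL1 : max 40000 (2 * |T0| + 6) ≤ L := by
    rw [hL]
    exact (Real.le_log_iff_exp_le hnpos).2 hn1
  have hL500 : 40000 ≤ L := (le_max_left _ _).trans hL1
  have hLT : 2 * |T0| + 6 ≤ L := (le_max_right _ _).trans hL1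
  have h7a : Real.log 12 ≤ 3 := by
    rw [Real.log_le_iff_le_exp (by norm_num)]
    have h1 := Real.exp_one_gt_d9
    have h2 : Real.exp 3 = Real.exp 1 * Real.exp 1 * Real.exp 1 := by
      rw [← Real.exp_add, ← Real.exp_add]; norm_num
    have h4 : (2.7 : ℝ) * 2.7 ≤ Real.exp 1 * Real.exp 1 := by nlinarith
    rw [h2]
    nlinarith
  have h7b : 0 < Real.log 12 := Real.log_pos (by norm_num)
  obtain ⟨T, hT⟩ : ∃ T, T = 100 / 101 * (L - Real.log 12) := ⟨_, rfl⟩
  have hTa : 100 / 101 * (L - 3) ≤ T := by rw [hT]; linarith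
  have hTb : T ≤ 100 / 101 * L := by rw [hT]; linarith
  have hT2 : L / 2 ≤ T := by linarith
  have hT0 : T0 ≤ T := by
    have h1 := le_abs_self T0
    have h2 := abs_nonneg T0
    linarith
  have hrp : ∀ a : ℝ, (n : ℝ) ^ a = Real.exp (L * a) := by
    intro a
    rw [Real.rpow_def_of_pos hnpos, ← hL]
  rw [hrp] at hqn
  have hqL : ∀ a : ℝ, min δ (1 / 500) ≤ a → (q : ℝ) ≤ Real.exp (a * T) := by
    intro a ha
    refine hqn.trans (Real.exp_le_exp.2 ?_)
    have ha0 : 0 < a := hm.trans_le ha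
    have h1 : L * (min δ (1 / 500) / 2) ≤ L * (a / 2) := by
      have : 0 ≤ L := by linarith
      gcongr
    have h2 : a * (L / 2) ≤ a * T := by
      have : L / 2 ≤ T := by linarith
      gcongr
    linarith
  -- the representative of `b`
  obtain ⟨d, hd1, hdq, hd⟩ : ∃ d : ℕ, 1 ≤ d ∧ d ≤ q ∧ d ≡ b [MOD q] := by
    by_cases h0 : b % q = 0
    · refine ⟨q, hq, le_rfl, ?_⟩
      unfold Nat.ModEq
      rw [Nat.mod_self, h0]
    · exact ⟨b % q, Nat.one_le_iff_ne_zero.2 h0, (Nat.mod_lt _ (by omega)).le, Nat.mod_modEq _ _⟩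
  have hqn2 : (q : ℝ) ≤ n := by
    rw [hnL]
    refine hqn.trans (Real.exp_le_exp.2 ?_)
    have h1 : min δ (1 / 500) ≤ 1 / 500 := min_le_right _ _
    nlinarith
  have hdn : d ≤ n := by
    have : q ≤ n := by exact_mod_cast hqn2
    omega
  have ev0 : ∀ t : ℕ, (C (q : ℤ) * X + C ((d : ℤ) + e) : ℤ[X]).eval (t : ℤ) = (q : ℤ) * t + (d + e) := by
    intro t
    simp
  have ev1 : ∀ t : ℕ, (C (-(q : ℤ)) * X + C ((n : ℤ) - d + f) : ℤ[X]).eval (t : ℤ) =
      -(q : ℤ) * t + ((n : ℤ) - d + f) := by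
    intro t
    simp
  obtain ⟨S, hS, hSn⟩ := hU T hT0 q d (-(q : ℤ)) ((n : ℤ) - d)
    ![(C (q : ℤ) * X + C ((d : ℤ) + e) : ℤ[X]), (C (-(q : ℤ)) * X + C ((n : ℤ) - d + f) : ℤ[X])]
    hd1 hdq (hqL δ (min_le_left _ _)) (by
      have : (q : ℤ) ≠ 0 := by exact_mod_cast (by omega : q ≠ 0)
      exact neg_ne_zero.2 this)
    (by
      intro h1
      have h2 : (q : ℤ) * n = 0 := by linear_combination h1
      rcases mul_eq_zero.1 h2 with h4 | h4
      · have : q = 0 := by exact_mod_cast h4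
        omega
      · have : (n : ℝ) = 0 := by exact_mod_cast h4
        linarith)
    (by
      have h1 : |((-(q : ℤ) : ℤ) : ℝ)| = q := by
        push_cast
        rw [abs_neg, abs_of_nonneg (Nat.cast_nonneg q)]
      rw [h1]
      have h2 := hqL (1 / 500) (min_le_right _ _)
      rwa [one_div_mul_eq_div] at h2)
    (by
      have h0 : ((d : ℕ) : ℝ) ≤ n := by exact_mod_cast hdn
      have h1 : |(((n : ℤ) - (d : ℤ) : ℤ) : ℝ)| ≤ n := by
        push_cast
        rw [abs_of_nonneg (by linarith)]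
        have : (0 : ℝ) ≤ d := Nat.cast_nonneg d
        linarith
      refine h1.trans ?_
      rw [hnL]
      exact Real.exp_le_exp.2 (by linarith))
    (by
      intro i
      fin_cases i
      · exact natDegree_linear_le
      · exact natDegree_linear_le)
    (by
      intro p hp
      obtain ⟨t, h1, h2, h4, h5⟩ := dub_adm n q b d e f hne he hf h3 hd hadm p hp
      refine ⟨t, h1, h2, fun i => ?_⟩
      fin_cases i
      · change ¬ (p : ℤ) ∣ (C (q : ℤ) * X + C ((d : ℤ) + e) : ℤ[X]).eval (t : ℤ)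
        rw [ev0]
        exact h4
      · change ¬ (p : ℤ) ∣ (C (-(q : ℤ)) * X + C ((n : ℤ) - d + f) : ℤ[X]).eval (t : ℤ)
        rw [ev1]
        exact h5)
  have h101 : Real.exp (101 / 100 * T) = n / 12 := by
    rw [hT]
    have : 101 / 100 * (100 / 101 * (L - Real.log 12)) = L - Real.log 12 := by ring
    rw [this, Real.exp_sub, Real.exp_log (by norm_num), ← hnL]
  have hinj : Function.Injective fun t : ℕ => q * t + d := by
    intro x y hxy
    have h1 : q * x = q * y := Nat.add_right_cancel hxy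
    exact Nat.eq_of_mul_eq_mul_left (by omega) h1
  have h97 : (n : ℝ) ^ (97 / 100 : ℝ) ≤ Real.exp (98 / 100 * T) := by
    rw [hrp]
    exact Real.exp_le_exp.2 (by linarith)
  have hbig : (8 : ℝ) ≤ Real.exp (98 / 100 * T) := by
    have := Real.add_one_le_exp (98 / 100 * T)
    linarith
  have heR : -2 ≤ e ∧ e ≤ 2 := by rcases he with rfl | rfl <;> norm_num
  have hfR : -2 ≤ f ∧ f ≤ 2 := by rcases hf with rfl | rfl <;> norm_num
  have hn8 : (8 : ℝ) ≤ n := by
    have := Real.add_one_le_exp L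
    rw [hnL]
    linarith
  have hn2L : (2 : ℝ) * n ≤ Real.exp (2 * L) := by
    have h1 : Real.exp (2 * L) = Real.exp L * Real.exp L := by rw [← Real.exp_add]; ring_nf
    rw [h1, ← hnL]
    nlinarith
  refine ⟨S.image fun t => q * t + d, ?_, ?_⟩
  · rw [Finset.card_image_of_injective S hinj]
    exact h97.trans hS.le
  · intro p hpS
    obtain ⟨t, ht, hpt⟩ := Finset.mem_image.1 hpS
    obtain ⟨hp, hp1, hp2, hi, hl, hm1, hm3⟩ := hSn t ht
    have hi0 := hi 0
    have hi1 := hi 1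
    change ∀ l : ℕ, l.Prime → (l : ℝ) ≤ Real.exp (ε * T) →
      ¬ (l : ℤ) ∣ (C (q : ℤ) * X + C ((d : ℤ) + e) : ℤ[X]).eval (t : ℤ) at hi0
    change ∀ l : ℕ, l.Prime → (l : ℝ) ≤ Real.exp (ε * T) →
      ¬ (l : ℤ) ∣ (C (-(q : ℤ)) * X + C ((n : ℤ) - d + f) : ℤ[X]).eval (t : ℤ) at hi1
    rw [ev0] at hi0
    rw [ev1] at hi1
    have hpt' : q * t + d = p := hpt
    have hptz : (q : ℤ) * t + d = p := by exact_mod_cast hpt'
    rw [hpt'] at hp hp1 hp2
    rw [h101] at hp2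
    have hp8 : 8 < (p : ℝ) := lt_of_le_of_lt hbig hp1
    have hp8' : 8 < p := by exact_mod_cast hp8
    have hp4 : 4 * p ≤ n := by
      have : 4 * (p : ℝ) ≤ n := by linarith
      exact_mod_cast this
    have z0 : (q : ℤ) * t + (d + e) = (p : ℤ) + e := by rw [← hptz]; ring
    have z1 : -(q : ℤ) * t + ((n : ℤ) - d + f) = (n : ℤ) - p + f := by rw [← hptz]; ring
    have z2 : -(q : ℤ) * t + ((n : ℤ) - d) = ((n - p : ℕ) : ℤ) := by
      rw [Nat.cast_sub (by omega), ← hptz]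
      ring
    rw [z0] at hi0
    rw [z1] at hi1
    rw [z2, Int.natAbs_natCast] at hm1 hm3
    rw [z2] at hl
    have hnat : ∀ z : ℤ, ∀ l : ℕ, l ∣ z.natAbs → (l : ℤ) ∣ z := fun z l hlz =>
      Int.natCast_dvd.2 hlz
    have hsz : ∀ z : ℤ, 0 < z → z ≤ 2 * n → ((z.natAbs : ℕ) : ℝ) ≤ Real.exp (2 * L) := by
      intro z hz0 hz
      have h1 : z.natAbs ≤ 2 * n := by omega
      have h2 : ((z.natAbs : ℕ) : ℝ) ≤ 2 * n := by exact_mod_cast h1
      exact h2.trans hn2L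
    refine ⟨hp, by omega, ?_, by omega, ?_, hm1, hm3, ?_, by omega, ?_⟩
    · refine Nat.ModEq.trans ?_ hd
      unfold Nat.ModEq
      rw [← hpt', Nat.mul_add_mod]
    · apply dub_omega hε (by linarith) hT2 (by omega)
      · intro l hl1 hl2 hl3
        exact hi0 l hl1 hl2 (hnat _ _ hl3)
      · exact hsz _ (by omega) (by omega)
    · intro l hl1 hl2
      by_contra hcon
      push Not at hcon
      refine hl l hl1 (hcon.trans ?_) (by exact_mod_cast hl2)
      rw [hrp]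
      exact Real.exp_le_exp.2 (by linarith)
    · apply dub_omega hε (by linarith) hT2 (by omega)
      · intro l hl1 hl2 hl3
        exact hi1 l hl1 hl2 (hnat _ _ hl3)
      · exact hsz _ (by omega) (by omega)

end Pool.Agent.H536.OC

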