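import Mathlib
import Pool.Graph.R_seed8.H921R2.TatePole.Dedekind

open Finset Filter Topology

/-! Statement: the Euler product of the Dedekind zeta function, logarithmic form (helper536). -/

namespace Pool.Agent.H536.OC

open NumberField IsDedekindDomain
open Pool.Agent.H921R2.TatePole (nm ZK)

/-- the logarithm of the Euler product of the zeta function of a number field -/
def S_Eu : Prop := ∀ (K : Type) [Field K] [NumberField K] (x : ℝ), 1 < x →
  Real.log (ZK K x) = ∑' v : HeightOneSpectrum (𝓞 K), -Real.log (1 - (nm v : ℝ) ^ (-x))

end Pool.Agent.H536.OC
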