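import Mathlib
import Pool.Agent.H536.OC.Wi

open Finset Filter Topology

/-! The Euler product of the Dedekind zeta function, logarithmic form (helper707). -/

namespace Pool.Agent.H536.OC

open NumberField IsDedekindDomain
open Pool.Agent.H921R2.TatePole (nm ZK aK aK_nonneg sum_ideals_le sum_smooth_le ZK_summable nm_rpow_le_half prod_one_add_le)

namespace EuP

section
variable {K : Type*} [Field K] [NumberField K]

/-- an upper bound for all finite Euler products bounds the zeta value -/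
lemma ZK_le {x : ℝ} (hx : 1 < x) (C : ℝ)
    (hprod : ∀ F : Finset (HeightOneSpectrum (𝓞 K)), ∏ v ∈ F, (1 - (nm v : ℝ) ^ (-x))⁻¹ ≤ C) :
    ZK K x ≤ C := by
  classical
  unfold ZK
  refine Real.tsum_le_of_sum_range_le (fun n => ?_) fun X => ?_
  · split_ifs
    · exact le_rfl
    · exact mul_nonneg (aK_nonneg n) (by positivity)
  · -- the set of nonzero ideals of norm `< X`
    set A : Finset (Ideal (𝓞 K)) := ((Ideal.finite_setOfPred_absNorm_le (S := 𝓞 K) X).subset
      (t := {I : Ideal (𝓞 K) | Ideal.absNorm I < X ∧ I ≠ ⊥}) (by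
        rintro I ⟨h, _⟩; exact h.le)).toFinset with hA
    have hAmem : ∀ I, I ∈ A ↔ Ideal.absNorm I < X ∧ I ≠ ⊥ := by
      intro I; rw [hA]; simp
    have hsum : ∑ n ∈ Finset.range X, (if n = 0 then 0 else aK K n * (n : ℝ) ^ (-x)) ≤
        ∑ I ∈ A, ((Ideal.absNorm I : ℕ) : ℝ) ^ (-x) := by
      have e1 : ∑ I ∈ A, ((Ideal.absNorm I : ℕ) : ℝ) ^ (-x) =
          ∑ n ∈ Finset.range X, ∑ I ∈ A with Ideal.absNorm I = n,
            ((Ideal.absNorm I : ℕ) : ℝ) ^ (-x) := by
        rw [Finset.sum_fiberwise_of_maps_to]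
        intro I hI
        exact Finset.mem_range.mpr ((hAmem I).mp hI).1
      rw [e1]
      refine Finset.sum_le_sum fun n hn => ?_
      split_ifs with hn0
      · exact Finset.sum_nonneg fun I _ => by positivity
      · have e2 : ∑ I ∈ A with Ideal.absNorm I = n, ((Ideal.absNorm I : ℕ) : ℝ) ^ (-x) =
            ({I ∈ A | Ideal.absNorm I = n}.card : ℝ) * (n : ℝ) ^ (-x) := by
          rw [Finset.sum_congr rfl (g := fun _ => (n : ℝ) ^ (-x)) (fun I hI => by
            rw [(Finset.mem_filter.mp hI).2])]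
          simp
        rw [e2]
        refine mul_le_mul_of_nonneg_right ?_ (by positivity)
        unfold aK
        have hfin : Finite {J : Ideal (𝓞 K) // Ideal.absNorm J = n} :=
          Set.Finite.to_subtype (Ideal.finite_setOfPred_absNorm_eq (S := 𝓞 K) n)
        have := Fintype.ofFinite {J : Ideal (𝓞 K) // Ideal.absNorm J = n}
        rw [Nat.card_eq_fintype_card]
        norm_cast
        rw [← Finset.card_univ]
        refine Finset.card_le_card_of_injOn (f := fun J => J.1) (fun J _ => ?_)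
          (fun J _ J' _ h => Subtype.ext h)
        simp only [Finset.coe_filter, Set.mem_ofPred_eq]
        refine ⟨(hAmem _).mpr ⟨by rw [J.2]; exact Finset.mem_range.mp hn, ?_⟩, J.2⟩
        intro h0
        apply hn0
        rw [← J.2, h0, Ideal.absNorm_bot]
    refine hsum.trans ?_
    -- the primes dividing some ideal of `A`
    have hF : ∃ F : Finset (HeightOneSpectrum (𝓞 K)), ∀ I ∈ A, ∀ v : HeightOneSpectrum (𝓞 K),
        v.asIdeal ∣ I → v ∈ F := by
      have hfin : (⋃ I ∈ A, {v : HeightOneSpectrum (𝓞 K) | v.asIdeal ∣ I}).Finite := by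
        refine Set.Finite.biUnion A.finite_toSet fun I hI => ?_
        refine Ideal.finite_factors ?_
        rw [Ideal.zero_eq_bot]
        exact ((hAmem I).mp hI).2
      refine ⟨hfin.toFinset, fun I hI v hv => ?_⟩
      rw [Set.Finite.mem_toFinset]
      exact Set.mem_biUnion (x := I) hI hv
    obtain ⟨F, hF⟩ := hF
    exact (sum_smooth_le hx F A fun I hI => ⟨((hAmem I).mp hI).2, hF I hI⟩).trans (hprod F)

/-- the product of truncated geometric series is a sum over distinct ideals -/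
lemma prod_trunc (x : ℝ) (M : ℕ) (F : Finset (HeightOneSpectrum (𝓞 K))) :
    ∃ A : Finset (Ideal (𝓞 K)), (∀ I ∈ A, I ≠ ⊥ ∧ ∀ v : HeightOneSpectrum (𝓞 K),
      v.asIdeal ∣ I → v ∈ F) ∧
      ∏ v ∈ F, ∑ k ∈ Finset.range M, ((nm v : ℝ) ^ (-x)) ^ k =
        ∑ I ∈ A, ((Ideal.absNorm I : ℕ) : ℝ) ^ (-x) := by
  classical
  induction F using Finset.induction_on with
  | empty =>
    refine ⟨{⊤}, fun I hI => ?_, by simp⟩
    rw [Finset.mem_singleton] at hI
    subst hI
    refine ⟨top_ne_bot, fun v hv => ?_⟩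
    exfalso
    rw [Ideal.dvd_iff_le, top_le_iff] at hv
    exact v.isPrime.ne_top hv
  | insert q F hq ih =>
    obtain ⟨B, hB1, hB2⟩ := ih
    have hqB : ∀ J ∈ B, ¬ q.asIdeal ∣ J := fun J hJ hd => hq ((hB1 J hJ).2 q hd)
    have hqne : q.asIdeal ≠ 0 := by rw [Ideal.zero_eq_bot]; exact q.ne_bot
    have hinj : Set.InjOn (fun z : ℕ × Ideal (𝓞 K) => q.asIdeal ^ z.1 * z.2)
        ((Finset.range M ×ˢ B : Finset (ℕ × Ideal (𝓞 K))) : Set (ℕ × Ideal (𝓞 K))) := by
      have key : ∀ (k k' : ℕ) (J J' : Ideal (𝓞 K)), J ∈ B → k ≤ k' →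
          q.asIdeal ^ k * J = q.asIdeal ^ k' * J' → k = k' ∧ J = J' := by
        intro k k' J J' hJ hk h
        obtain ⟨m, rfl⟩ := Nat.exists_eq_add_of_le hk
        rw [pow_add, mul_assoc] at h
        have h2 := mul_left_cancel₀ (pow_ne_zero k hqne) h
        rcases Nat.eq_zero_or_pos m with hm | hm
        · subst hm
          rw [pow_zero, one_mul] at h2
          exact ⟨rfl, h2⟩
        · exfalso
          apply hqB J hJ
          rw [h2]
          exact Dvd.dvd.mul_right (dvd_pow_self _ hm.ne') _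
      rintro ⟨k, J⟩ hz ⟨k', J'⟩ hz' h
      rw [Finset.mem_coe, Finset.mem_product] at hz hz'
      simp only at h hz hz'
      rcases le_total k k' with hk | hk
      · obtain ⟨h1, h2⟩ := key k k' J J' hz.2 hk h
        rw [h1, h2]
      · obtain ⟨h1, h2⟩ := key k' k J' J hz'.2 hk h.symm
        rw [h1, h2]
    refine ⟨(Finset.range M ×ˢ B).image (fun z => q.asIdeal ^ z.1 * z.2), fun I hI => ?_, ?_⟩
    · obtain ⟨⟨k, J⟩, hz, rfl⟩ := Finset.mem_image.mp hI
      rw [Finset.mem_product] at hz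
      simp only at hz ⊢
      refine ⟨?_, fun v hv => ?_⟩
      · rw [← Ideal.zero_eq_bot]
        refine mul_ne_zero (pow_ne_zero k hqne) ?_
        rw [Ideal.zero_eq_bot]
        exact (hB1 J hz.2).1
      · rcases v.prime.dvd_or_dvd hv with h1 | h1
        · have h2 := v.prime.dvd_of_dvd_pow h1
          have h3 : v = q := HeightOneSpectrum.ext
            (associated_iff_eq.mp (v.prime.associated_of_dvd q.prime h2))
          rw [h3]
          exact Finset.mem_insert_self _ _
        · exact Finset.mem_insert_of_mem ((hB1 J hz.2).2 v h1)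
    · rw [Finset.prod_insert hq, hB2, Finset.sum_image hinj, Finset.sum_product,
        Finset.sum_mul_sum]
      refine Finset.sum_congr rfl fun k _ => Finset.sum_congr rfl fun J _ => ?_
      rw [map_mul, map_pow]
      push_cast
      rw [Real.mul_rpow (by positivity) (by positivity)]
      congr 1
      change _ = (((nm q : ℕ) : ℝ) ^ k) ^ (-x)
      rw [← Real.rpow_natCast, ← Real.rpow_mul (by positivity), ← Real.rpow_natCast,
        ← Real.rpow_mul (by positivity)]
      congr 1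
      ring

/-- finite Euler products are at most the zeta value -/
lemma prod_inv_le {x : ℝ} (hx : 1 < x) (F : Finset (HeightOneSpectrum (𝓞 K))) :
    ∏ v ∈ F, (1 - (nm v : ℝ) ^ (-x))⁻¹ ≤ ZK K x := by
  have ht : Tendsto (fun M : ℕ => ∏ v ∈ F, ∑ k ∈ Finset.range M, ((nm v : ℝ) ^ (-x)) ^ k) atTop
      (𝓝 (∏ v ∈ F, (1 - (nm v : ℝ) ^ (-x))⁻¹)) := by
    refine tendsto_finsetProd _ fun v _ => ?_
    have hu0 : 0 ≤ (nm v : ℝ) ^ (-x) := by positivity
    have hu1 : (nm v : ℝ) ^ (-x) < 1 := lt_of_le_of_lt (nm_rpow_le_half v hx.le) (by norm_num)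
    exact (hasSum_geometric_of_lt_one hu0 hu1).tendsto_sum_nat
  refine le_of_tendsto' ht fun M => ?_
  obtain ⟨A, hA1, hA2⟩ := prod_trunc (K := K) x M F
  rw [hA2]
  exact sum_ideals_le hx A fun I hI => (hA1 I hI).1

lemma log_prod_inv {x : ℝ} (hx : 1 < x) (F : Finset (HeightOneSpectrum (𝓞 K))) :
    Real.log (∏ v ∈ F, (1 - (nm v : ℝ) ^ (-x))⁻¹) =
      ∑ v ∈ F, -Real.log (1 - (nm v : ℝ) ^ (-x)) := by
  rw [Real.log_prod (fun v _ => by
    have := nm_rpow_le_half v hx.le
    exact inv_ne_zero (by linarith))]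
  exact Finset.sum_congr rfl fun v _ => Real.log_inv _

lemma prod_inv_pos {x : ℝ} (hx : 1 < x) (F : Finset (HeightOneSpectrum (𝓞 K))) :
    0 < ∏ v ∈ F, (1 - (nm v : ℝ) ^ (-x))⁻¹ :=
  Finset.prod_pos fun v _ => by
    have := nm_rpow_le_half v hx.le
    exact inv_pos.mpr (by linarith)

lemma term_nonneg {x : ℝ} (hx : 1 < x) (v : HeightOneSpectrum (𝓞 K)) :
    0 ≤ -Real.log (1 - (nm v : ℝ) ^ (-x)) := by
  have h1 := nm_rpow_le_half v hx.le
  have h2 : 0 ≤ (nm v : ℝ) ^ (-x) := by positivity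
  have := Real.log_nonpos (x := 1 - (nm v : ℝ) ^ (-x)) (by linarith) (by linarith)
  linarith

end

end EuP

open EuP in
theorem eu : S_Eu := by
  intro K _ _ x hx
  have hpos : 0 < ZK K x := by
    have h := prod_one_add_le (K := K) hx ∅
    rw [Finset.prod_empty] at h
    linarith
  have hfin : ∀ F : Finset (HeightOneSpectrum (𝓞 K)),
      ∑ v ∈ F, -Real.log (1 - (nm v : ℝ) ^ (-x)) ≤ Real.log (ZK K x) := by
    intro F
    rw [← log_prod_inv hx F]
    exact Real.log_le_log (prod_inv_pos hx F) (prod_inv_le hx F)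
  have hs : Summable (fun v : HeightOneSpectrum (𝓞 K) => -Real.log (1 - (nm v : ℝ) ^ (-x))) :=
    summable_of_sum_le (fun v => term_nonneg hx v) hfin
  refine le_antisymm ?_ (hs.tsum_le_of_sum_le hfin)
  rw [Real.log_le_iff_le_exp hpos]
  refine ZK_le hx _ fun F => ?_
  rw [← Real.log_le_iff_le_exp (prod_inv_pos hx F), log_prod_inv hx F]
  exact hs.sum_le_tsum F (fun v _ => term_nonneg hx v)

end Pool.Agent.H536.OC
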