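import Mathlib
import Pool.Graph.R_seed8.W23.DC.Defs
import Pool.Graph.R_seed8.H474R2.PG.Defs

open Finset Filter Topology

/-! Statements: prime arguments and values of one irreducible polynomial, uniformly in progressions (helper536). -/

namespace Pool.Agent.H536.OC

open Polynomial
open Pool.Agent.W23.DC (tt pr Mer)
open Pool.Agent.H474R2.PG (rho)

open Classical in
/-- the abstract weighted sieve with one prime form: `F p` are forbidden classes modulo `p`, of density `1 / (p - 1)` on average for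
the large primes -/
def S_U6 : Prop := ∀ κ : ℕ, ∃ δ ε₁ η T0 : ℝ, 0 < δ ∧ 0 < ε₁ ∧ ε₁ ≤ 1 / 8 ∧ 0 < η ∧ ∀ T : ℝ, T0 ≤ T →
  ∀ (c d : ℕ) (F : ℕ → Finset ℕ), 1 ≤ d → d ≤ c → (c : ℝ) ≤ Real.exp (δ * T) →
  (∀ p : ℕ, p.Prime → (F p).card ≤ κ) →
  (∀ p : ℕ, p.Prime → ∃ n : ℕ, ¬ p ∣ c * n + d ∧ n % p ∉ F p) →
  Mer (pr ⌊Real.exp T⌋₊ ε₁ (17 / 50)) (tt ⌊Real.exp T⌋₊)
    (fun p => (((range p).filter (fun x => x ∈ F p ∧ ¬ p ∣ c * x + d)).card : ℝ) / ((p : ℝ) - 1)) ε₁ (17 / 50) η →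
  ∀ G : Finset ℕ, (G.card : ℝ) ≤ Real.exp (99 / 100 * T) → ∃ n : ℕ, n ∉ G ∧ (c * n + d).Prime ∧
    Real.exp (T / 2) < ((c * n + d : ℕ) : ℝ) ∧ ((c * n + d : ℕ) : ℝ) ≤ 3 * Real.exp (101 / 100 * T) ∧
    (∀ p : ℕ, p.Prime → tt ⌊Real.exp T⌋₊ p < 1 / 8 → n % p ∉ F p) ∧
    ((pr ⌊Real.exp T⌋₊ (1 / 8) (17 / 50)).filter (fun p => n % p ∈ F p)).card ≤ 1

/-- the logarithm of the zeta function of `f` -/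
def S_Rlim : Prop := ∀ f : ℤ[X], Irreducible f → 0 < f.natDegree → ∃ L : ℝ,
  Tendsto (fun x : ℝ => ∑' p : Nat.Primes, ((rho f (p : ℕ) : ℝ) - 1) * ((p : ℕ) : ℝ) ^ (-x)) (𝓝[>] 1) (𝓝 L)

/-- a Tauberian theorem (Karamata) -/
def S_Kar : Prop := ∀ (h : ℕ → ℝ) (C : ℝ), (∀ p : ℕ, p.Prime → 0 ≤ h p ∧ h p ≤ C) →
  (∃ L : ℝ, Tendsto (fun x : ℝ => ∑' p : Nat.Primes, (h (p : ℕ) - 1) * ((p : ℕ) : ℝ) ^ (-x)) (𝓝[>] 1) (𝓝 L)) →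
  ∀ ε₁ η : ℝ, 0 < ε₁ → 0 < η → ∃ Y0 : ℕ, ∀ Y : ℕ, Y0 ≤ Y → ∀ a b : ℝ, ε₁ ≤ a → a ≤ b → b ≤ 1 →
    |∑ p ∈ pr Y a b, h p / ((p : ℝ) - 1) - Real.log (b / a)| ≤ η

/-- Mertens' condition for the roots of `f`, with exceptions -/
def S_MerF : Prop := ∀ f : ℤ[X], Irreducible f → 0 < f.natDegree →
  ∀ (ε₁ η : ℝ) (κ CE : ℕ), 0 < ε₁ → ε₁ ≤ 1 / 8 → 0 < η → ∃ Y0 : ℕ, ∀ Y : ℕ, Y0 ≤ Y →
    ∀ (h : ℕ → ℝ) (E : ℕ), E ≠ 0 → (E : ℝ) ≤ (Y : ℝ) ^ CE →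
    (∀ p ∈ pr Y ε₁ (17 / 50), ¬ p ∣ E → h p = (rho f p : ℝ) / ((p : ℝ) - 1)) →
    (∀ p ∈ pr Y ε₁ (17 / 50), p ∣ E → 0 ≤ h p ∧ h p ≤ κ / ((p : ℝ) - 1)) →
    Mer (pr Y ε₁ (17 / 50)) (tt Y) h ε₁ (17 / 50) η

open Classical in
/-- values divisible by the square of a prime -/
def S_SqF : Prop := ∀ f : ℤ[X], Irreducible f → 0 < f.natDegree → ∃ B0 : ℕ, ∀ (u v : ℤ) (N p : ℕ), p.Prime → B0 < p →
  ¬ (p : ℤ) ∣ u →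
  (((range N).filter (fun n : ℕ => ((p ^ 2 : ℕ) : ℤ) ∣ f.eval (u * n + v))).card : ℝ) ≤ f.natDegree * ((N : ℝ) / (p : ℝ) ^ 2 + 1)

/-- the number of prime factors -/
def S_OmF : Prop := ∀ (m k : ℕ) (U z : ℝ), m ≠ 0 → 1 < z → z ≤ U → (m : ℝ) < U ^ k * z →
  (∀ p : ℕ, p.Prime → p ∣ m → z ≤ p) →
  (∀ p q : ℕ, p.Prime → q.Prime → p ∣ m → q ∣ m → (p : ℝ) < U → (q : ℝ) < U → p = q) →
  (∀ p : ℕ, p.Prime → (p : ℝ) < U → ¬ p ^ 2 ∣ m) → ArithmeticFunction.cardFactors m ≤ k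

/-- one irreducible polynomial of degree `g ≥ 2`: prime arguments `c n + d`, value `f (u n + v)` with at most `3 g` prime factors, and `n`
outside of at most `κ` forbidden classes modulo the small primes, uniformly for all `c ≤ exp (δ T)` -/
def S_F : Prop := ∀ f : ℤ[X], Irreducible f → 2 ≤ f.natDegree → ∀ κ : ℕ, ∃ δ ε T0 : ℝ, 0 < δ ∧ 0 < ε ∧ ∀ T : ℝ, T0 ≤ T →
  ∀ (c d : ℕ) (u v : ℤ) (F : ℕ → Finset ℕ), 1 ≤ d → d ≤ c → (c : ℝ) ≤ Real.exp (δ * T) →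
  u ≠ 0 → |((u : ℤ) : ℝ)| ≤ Real.exp (T / 500) → |((v : ℤ) : ℝ)| ≤ Real.exp (101 / 100 * T) →
  (∀ p : ℕ, p.Prime → (F p).card ≤ κ) →
  (∀ p : ℕ, p.Prime → ∃ n : ℕ, ¬ p ∣ c * n + d ∧ ¬ (p : ℤ) ∣ f.eval (u * n + v) ∧ n % p ∉ F p) →
  ∃ S : Finset ℕ, Real.exp (98 / 100 * T) < S.card ∧ ∀ n ∈ S, (c * n + d).Prime ∧
    Real.exp (98 / 100 * T) < ((c * n + d : ℕ) : ℝ) ∧ ((c * n + d : ℕ) : ℝ) ≤ 3 * Real.exp (101 / 100 * T) ∧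
    (∀ p : ℕ, p.Prime → (p : ℝ) ≤ Real.exp (ε * T) → n % p ∉ F p) ∧
    (∀ p : ℕ, p.Prime → (p : ℝ) ≤ Real.exp (T / 9) → ¬ (p : ℤ) ∣ f.eval (u * n + v)) ∧
    1 < (f.eval (u * n + v)).natAbs ∧ ArithmeticFunction.cardFactors (f.eval (u * n + v)).natAbs ≤ 3 * f.natDegree

end Pool.Agent.H536.OC
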