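import Mathlib
import Pool.Agent.H536.OC.Wg
import Pool.Agent.H536.OC.Wh

set_option autoImplicit false

open Finset Filter Topology

/-! Subtask polyF (helper536), proved by helper155: arithmetic lemmas. -/

namespace Pool.Agent.H536.OC

open Polynomial
open Pool.Agent.W23.DC (tt pr Mer)
open Pool.Agent.H474R2.PG (rho)

namespace PF

/-- size of the coefficients -/
noncomputable def AA (f : ℤ[X]) : ℝ := ∑ i ∈ range (f.natDegree + 1), |((f.coeff i : ℤ) : ℝ)|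

theorem AA_nonneg (f : ℤ[X]) : 0 ≤ AA f := sum_nonneg fun _ _ => abs_nonneg _

theorem scale_bound (f : ℤ[X]) (c m : ℤ) (B : ℝ) (hc : |((c : ℤ) : ℝ)| ≤ B)
    (hm : |((m : ℤ) : ℝ)| ≤ B) :
    |(((scaleRoots f c).eval m : ℤ) : ℝ)| ≤ AA f * B ^ f.natDegree := by
  have hB : 0 ≤ B := (abs_nonneg _).trans hc
  rw [eval_eq_sum_range, natDegree_scaleRoots, Int.cast_sum]
  refine (abs_sum_le_sum_abs _ _).trans ?_
  unfold AA
  rw [sum_mul]
  refine sum_le_sum fun i hi => ?_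
  rw [mem_range] at hi
  rw [coeff_scaleRoots]
  push_cast
  rw [abs_mul, abs_mul, abs_pow, abs_pow, mul_assoc]
  refine mul_le_mul_of_nonneg_left ?_ (abs_nonneg _)
  calc |(c : ℝ)| ^ (f.natDegree - i) * |(m : ℝ)| ^ i ≤ B ^ (f.natDegree - i) * B ^ i := by gcongr
    _ = B ^ f.natDegree := by
        rw [← pow_add]
        congr 1
        omega

theorem eval_bound (f : ℤ[X]) (y : ℤ) (B : ℝ) (hB : 1 ≤ B) (hy : |((y : ℤ) : ℝ)| ≤ B) :
    |((f.eval y : ℤ) : ℝ)| ≤ AA f * B ^ f.natDegree := by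
  have h := scale_bound f 1 y B (by simpa using hB) hy
  rwa [scaleRoots_one] at h

theorem scale_ne (f : ℤ[X]) (hf : Irreducible f) (hd : 2 ≤ f.natDegree) (c m : ℤ) (hc : c ≠ 0) :
    (scaleRoots f c).eval m ≠ 0 := by
  intro h
  have hprim : f.IsPrimitive := hf.isPrimitive (by omega)
  have hirr : Irreducible (f.map (Int.castRingHom ℚ)) :=
    (IsPrimitive.Int.irreducible_iff_irreducible_map_cast hprim).1 hf
  have hcq : ((c : ℤ) : ℚ) ≠ 0 := by exact_mod_cast hc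
  have h1 := scaleRoots_eval₂_mul (p := f) (Int.castRingHom ℚ) ((m : ℚ) / c) c
  have e1 : (Int.castRingHom ℚ) c * ((m : ℚ) / c) = (Int.castRingHom ℚ) m := by
    simp only [eq_intCast]
    field_simp
  rw [e1, eval₂_at_apply, h, map_zero] at h1
  have h2 : eval₂ (Int.castRingHom ℚ) ((m : ℚ) / c) f = 0 := by
    have h3 : (Int.castRingHom ℚ) c ^ f.natDegree ≠ 0 := by
      simp only [eq_intCast]
      exact pow_ne_zero _ hcq
    exact (mul_eq_zero.1 h1.symm).resolve_left h3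
  have h3 : (f.map (Int.castRingHom ℚ)).IsRoot ((m : ℚ) / c) := by
    rw [IsRoot.def, eval_map]
    exact h2
  have h4 := degree_eq_one_of_irreducible_of_root hirr h3
  have h5 : (f.map (Int.castRingHom ℚ)).natDegree = f.natDegree :=
    natDegree_map_eq_of_injective (RingHom.injective_int _) f
  have h6 : (f.map (Int.castRingHom ℚ)).natDegree = 1 := natDegree_eq_of_degree_eq_some h4
  omega

/-- congruences -/
theorem ev_congr {p : ℤ} {f : ℤ[X]} {x y : ℤ} (h : p ∣ x - y) : p ∣ f.eval x ↔ p ∣ f.eval y := by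
  have h1 : p ∣ f.eval x - f.eval y := h.trans (Polynomial.sub_dvd_eval_sub _ _ f)
  constructor
  · intro hd
    have := dvd_sub hd h1
    simpa using this
  · intro hd
    have := dvd_add h1 hd
    simpa using this

/-- a common divisor of `f (u x + v)` and `c x + d` -/
theorem com_dvd {f : ℤ[X]} {p : ℤ} {c d u v x : ℤ} (h1 : p ∣ f.eval (u * x + v))
    (h2 : p ∣ c * x + d) : p ∣ (scaleRoots f c).eval (c * v - u * d) := by
  have h3 : (scaleRoots f c).eval (c * (u * x + v)) = c ^ f.natDegree * f.eval (u * x + v) := by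
    have := scaleRoots_eval₂_mul (p := f) (RingHom.id ℤ) (u * x + v) c
    simpa [eval₂_id] using this
  rw [← ev_congr (x := c * (u * x + v)), h3]
  · exact h1.mul_left _
  · have e : c * (u * x + v) - (c * v - u * d) = u * (c * x + d) := by ring
    rw [e]
    exact h2.mul_left _

theorem lin_exists {p : ℕ} (hp : p.Prime) {A : ℤ} (C : ℤ) (hA : ¬ (p : ℤ) ∣ A) :
    ∃ x < p, (p : ℤ) ∣ A * ((x : ℕ) : ℤ) + C := by
  haveI : Fact p.Prime := ⟨hp⟩
  have hA0 : (A : ZMod p) ≠ 0 := fun h => hA ((ZMod.intCast_zmod_eq_zero_iff_dvd A p).1 h)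
  refine ⟨(-(C : ZMod p) / A).val, ZMod.val_lt _, ?_⟩
  rw [← ZMod.intCast_zmod_eq_zero_iff_dvd]
  push_cast
  rw [ZMod.natCast_zmod_val]
  field_simp
  ring

theorem pcop {p : ℕ} (hp : p.Prime) {A : ℤ} (h : ¬ (p : ℤ) ∣ A) : IsCoprime (p : ℤ) A :=
  ((Nat.prime_iff_prime_int.1 hp).irreducible.coprime_iff_not_dvd).2 h

/-- a linear substitution permutes the classes -/
theorem rho_lin (f : ℤ[X]) {p : ℕ} (hp : p.Prime) (u v : ℤ) (hu : ¬ (p : ℤ) ∣ u) :
    ((range p).filter (fun x : ℕ => (p : ℤ) ∣ f.eval (u * (x : ℤ) + v))).card = rho f p := by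
  have hp0 : (0 : ℤ) < p := by exact_mod_cast hp.pos
  unfold rho
  refine card_bij (fun x _ => ((u * (x : ℤ) + v) % p).toNat) ?_ ?_ ?_
  · intro x hx
    rw [mem_filter, mem_range] at hx ⊢
    have h1 : 0 ≤ (u * (x : ℤ) + v) % p := Int.emod_nonneg _ hp0.ne'
    have h2 : (u * (x : ℤ) + v) % p < p := Int.emod_lt_of_pos _ hp0
    refine ⟨by omega, ?_⟩
    rw [Int.toNat_of_nonneg h1, ev_congr (y := u * (x : ℤ) + v)]
    · exact hx.2
    · refine ⟨-((u * (x : ℤ) + v) / p), ?_⟩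
      rw [Int.emod_def]
      ring
  · intro x hx y hy hxy
    rw [mem_filter, mem_range] at hx hy
    have h1 : 0 ≤ (u * (x : ℤ) + v) % p := Int.emod_nonneg _ hp0.ne'
    have h2 : 0 ≤ (u * (y : ℤ) + v) % p := Int.emod_nonneg _ hp0.ne'
    have h3 : (u * (x : ℤ) + v) % p = (u * (y : ℤ) + v) % p := by
      have := congrArg (fun n : ℕ => (n : ℤ)) hxy
      simpa only [Int.toNat_of_nonneg h1, Int.toNat_of_nonneg h2] using this
    have h4 : (p : ℤ) ∣ u * ((y : ℤ) - x) := by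
      have h5 : u * (x : ℤ) + v ≡ u * (y : ℤ) + v [ZMOD p] := h3
      have h6 := h5.dvd
      have e : u * (y : ℤ) + v - (u * (x : ℤ) + v) = u * ((y : ℤ) - x) := by ring
      rwa [e] at h6
    have h5 : (p : ℤ) ∣ (y : ℤ) - x := (pcop hp hu).dvd_of_dvd_mul_left h4
    have h6 : (x : ℤ) ≡ y [ZMOD p] := (Int.modEq_iff_dvd).2 h5
    exact Nat.ModEq.eq_of_lt_of_lt ((Int.natCast_modEq_iff).1 h6) hx.1 hy.1
  · intro a ha
    rw [mem_filter, mem_range] at ha
    obtain ⟨x, hx, hxd⟩ := lin_exists hp (v - a) hu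
    have h1 : (a : ℤ) ≡ u * (x : ℤ) + v [ZMOD p] := by
      rw [Int.modEq_iff_dvd]
      have e : u * (x : ℤ) + v - a = u * (x : ℤ) + (v - a) := by ring
      rw [e]
      exact hxd
    have h2 : (u * (x : ℤ) + v) % p = a := by
      have h3 : (a : ℤ) % p = (u * (x : ℤ) + v) % p := h1
      rw [← h3]
      exact Int.emod_eq_of_lt (by positivity) (by exact_mod_cast ha.1)
    refine ⟨x, ?_, ?_⟩
    · rw [mem_filter, mem_range]
      refine ⟨hx, ?_⟩
      rw [ev_congr (y := (a : ℤ))]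
      · exact ha.2
      · exact h1.dvd
    · show ((u * (x : ℤ) + v) % p).toNat = a
      rw [h2, Int.toNat_natCast]

/-- the number of arguments with a given value -/
theorem val_card (f : ℤ[X]) (hd : 2 ≤ f.natDegree) (u v : ℤ) (hu : u ≠ 0) (z : ℤ) (N : ℕ) :
    ((range N).filter (fun n : ℕ => f.eval (u * (n : ℤ) + v) = z)).card ≤ f.natDegree := by
  classical
  set q : ℤ[X] := f.comp (C u * X + C v) - C z with hq
  have h1 : (f.comp (C u * X + C v)).natDegree = f.natDegree := by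
    rw [natDegree_comp, natDegree_linear hu, mul_one]
  have hq0 : q ≠ 0 := by
    intro h
    rw [hq, sub_eq_zero] at h
    rw [h, natDegree_C] at h1
    omega
  have hqd : q.natDegree ≤ f.natDegree := by
    rw [hq, natDegree_sub_C, h1]
  have h2 : ((range N).filter (fun n : ℕ => f.eval (u * (n : ℤ) + v) = z)).card ≤
      q.roots.toFinset.card := by
    apply card_le_card_of_injOn (fun n : ℕ => (n : ℤ))
    · intro n hn
      rw [mem_coe, mem_filter] at hn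
      rw [mem_coe, Multiset.mem_toFinset, mem_roots hq0, IsRoot.def, hq, eval_sub, eval_comp,
        eval_add, eval_mul, eval_C, eval_C, eval_C, eval_X, hn.2, sub_self]
    · intro x _ y _ hxy
      have h3 : (x : ℤ) = y := hxy
      exact_mod_cast h3
  exact h2.trans ((Multiset.toFinset_card_le _).trans ((card_roots' _).trans hqd))

/-- the classes of `f (u x + v)` -/
theorem cls_card {p : ℕ} (hp : p.Prime) (f : ℤ[X]) (u v : ℤ)
    (h : ∃ n : ℕ, ¬ (p : ℤ) ∣ f.eval (u * (n : ℤ) + v)) :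
    ((range p).filter (fun x : ℕ => (p : ℤ) ∣ f.eval (u * (x : ℤ) + v))).card ≤ f.natDegree := by
  have e : ∀ x : ℕ, f.eval (u * (x : ℤ) + v) = (f.comp (C u * X + C v)).eval (x : ℤ) := by
    intro x
    rw [eval_comp, eval_add, eval_mul, eval_C, eval_C, eval_X]
  simp only [e] at h ⊢
  refine (roots_card hp _ h).trans ?_
  refine natDegree_comp_le.trans ?_
  have h1 : (C u * X + C v : ℤ[X]).natDegree ≤ 1 := natDegree_linear_le
  calc f.natDegree * (C u * X + C v : ℤ[X]).natDegree ≤ f.natDegree * 1 := Nat.mul_le_mul_left _ h1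
    _ = f.natDegree := mul_one _

theorem log_floor_exp {x : ℝ} (hx : 1 ≤ x) : x - 1 ≤ Real.log ⌊Real.exp x⌋₊ ∧
    Real.log ⌊Real.exp x⌋₊ ≤ x ∧ 1 ≤ ⌊Real.exp x⌋₊ := by
  have h1 : Real.exp x - 1 < ⌊Real.exp x⌋₊ := Nat.sub_one_lt_floor _
  have h2 : (⌊Real.exp x⌋₊ : ℝ) ≤ Real.exp x := Nat.floor_le (Real.exp_pos _).le
  have h3 : Real.exp (x - 1) ≤ Real.exp x - 1 := by
    have h4 : Real.exp x = Real.exp (x - 1) * Real.exp 1 := by rw [← Real.exp_add]; ring_nf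
    have h5 : 2 ≤ Real.exp 1 := by have := Real.add_one_le_exp (1:ℝ); linarith
    have h6 : 1 ≤ Real.exp (x - 1) := Real.one_le_exp (by linarith)
    nlinarith
  have h0 : (0:ℝ) < ⌊Real.exp x⌋₊ := by linarith [Real.exp_pos (x-1)]
  refine ⟨?_, ?_, ?_⟩
  · rw [Real.le_log_iff_exp_le h0]; linarith
  · calc _ ≤ Real.log (Real.exp x) := Real.log_le_log h0 h2
      _ = x := Real.log_exp x
  · exact Nat.one_le_iff_ne_zero.2 (by
      intro h
      rw [h] at h0
      simp at h0)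

/-- the sum of `1 / p ^ 2` -/
theorem sq_sum (P : Finset ℕ) (a : ℝ) (ha : 1 ≤ a) (hP : ∀ p ∈ P, a ≤ (p : ℝ)) :
    ∑ p ∈ P, 1 / (p : ℝ) ^ 2 ≤ 2 / a := by
  obtain ⟨n, hn⟩ : ∃ n : ℕ, ∀ p ∈ P, p < n := ⟨P.sup id + 1, fun p hp =>
    Nat.lt_succ_of_le (Finset.le_sup (f := id) hp)⟩
  have hk : 1 ≤ ⌈a⌉₊ := Nat.one_le_iff_ne_zero.2 (Nat.ceil_pos.2 (by linarith)).ne'
  have hsub : P ⊆ Ioo (⌈a⌉₊ - 1) n := by
    intro p hp
    rw [mem_Ioo]
    have h1 : ⌈a⌉₊ ≤ p := Nat.ceil_le.2 (hP p hp)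
    exact ⟨by omega, hn p hp⟩
  have h2 := sum_Ioo_inv_sq_le (α := ℝ) (⌈a⌉₊ - 1) n
  have h3 : (((⌈a⌉₊ - 1 : ℕ) : ℝ)) + 1 = ⌈a⌉₊ := by
    rw [Nat.cast_sub hk]
    push_cast
    ring
  rw [h3] at h2
  calc ∑ p ∈ P, 1 / (p : ℝ) ^ 2 ≤ ∑ p ∈ Ioo (⌈a⌉₊ - 1) n, 1 / (p : ℝ) ^ 2 :=
        sum_le_sum_of_subset_of_nonneg hsub fun _ _ _ => by positivity
    _ = ∑ p ∈ Ioo (⌈a⌉₊ - 1) n, ((p : ℝ) ^ 2)⁻¹ := by simp only [one_div]
    _ ≤ 2 / (⌈a⌉₊ : ℝ) := h2
    _ ≤ 2 / a := by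
        have := Nat.le_ceil a
        gcongr

end PF

end Pool.Agent.H536.OC

/-! Subtask polyF (helper536), proved by helper155: the assembly. -/

namespace Pool.Agent.H536.OC

open Polynomial
open Pool.Agent.W23.DC (tt pr Mer)
open Pool.Agent.H474R2.PG (rho)

namespace PF

theorem numP (g B0 : ℕ) (A : ℝ) (hA : 0 ≤ A) : ∃ T1 : ℝ, ∀ T L : ℝ, T1 ≤ T →
    T - 1 ≤ L → L ≤ T → 10000 ≤ T ∧
    Real.exp (T / 500) * (A * (2 * Real.exp (102 / 100 * T)) ^ g) ≤
      Real.exp (((2 * g + 4 : ℕ) : ℝ) * L) ∧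
    A * (4 * Real.exp (1012 / 1000 * T)) ^ g <
      Real.exp (17 / 50 * L) ^ (3 * g) * Real.exp (1 / 8 * L) ∧
    (3 + 20 * (g : ℝ)) * Real.exp (98 / 100 * T) ≤ Real.exp (99 / 100 * T) ∧
    (B0 : ℝ) < Real.exp (1 / 8 * L) := by
  refine ⟨10000 + 8 * (A + 4 * g + 2) + 100 * (20 * g + 4) + 8 * B0 + 8, fun T L hT hL1 hL2 => ?_⟩
  have hg0 : (0 : ℝ) ≤ g := Nat.cast_nonneg g
  have hB0 : (0 : ℝ) ≤ B0 := Nat.cast_nonneg B0
  have hT1 : 10000 ≤ T := by nlinarith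
  have hAe : A ≤ Real.exp A := by
    have := Real.add_one_le_exp A
    linarith
  have hexp : ∀ (q : ℝ) (k : ℕ), 0 ≤ q → q ≤ Real.exp (k : ℝ) → ∀ x : ℝ,
      (q * Real.exp x) ^ g ≤ Real.exp (k * g + g * x) := by
    intro q k hq0 hq x
    calc (q * Real.exp x) ^ g ≤ (Real.exp (k : ℝ) * Real.exp x) ^ g := by gcongr
      _ = Real.exp (k * g + g * x) := by
          rw [← Real.exp_add, ← Real.exp_nat_mul]
          congr 1
          ring
  have h2e : (2 : ℝ) ≤ Real.exp ((1 : ℕ) : ℝ) := by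
    have := Real.add_one_le_exp ((1 : ℕ) : ℝ)
    push_cast at this ⊢
    linarith
  have h4e : (4 : ℝ) ≤ Real.exp ((2 : ℕ) : ℝ) := by
    have h3 : Real.exp ((2 : ℕ) : ℝ) = Real.exp ((1 : ℕ) : ℝ) * Real.exp ((1 : ℕ) : ℝ) := by
      rw [← Real.exp_add]
      norm_num
    rw [h3]
    nlinarith
  refine ⟨hT1, ?_, ?_, ?_, ?_⟩
  · calc Real.exp (T / 500) * (A * (2 * Real.exp (102 / 100 * T)) ^ g)
        ≤ Real.exp (T / 500) * (Real.exp A * Real.exp (((1 : ℕ) : ℝ) * g + g * (102 / 100 * T))) := by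
          have := hexp 2 1 (by norm_num) h2e (102 / 100 * T)
          gcongr
      _ = Real.exp (T / 500 + (A + (((1 : ℕ) : ℝ) * g + g * (102 / 100 * T)))) := by
          rw [← Real.exp_add, ← Real.exp_add]
      _ ≤ Real.exp (((2 * g + 4 : ℕ) : ℝ) * L) := by
          apply Real.exp_le_exp.2
          push_cast
          have h3 : (2 * (g : ℝ) + 4) * (T - 1) ≤ (2 * (g : ℝ) + 4) * L :=
            mul_le_mul_of_nonneg_left hL1 (by positivity)
          have h4 : 0 ≤ (g : ℝ) * (T - 10000) := mul_nonneg hg0 (by linarith)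
          nlinarith
  · calc A * (4 * Real.exp (1012 / 1000 * T)) ^ g
        ≤ Real.exp A * Real.exp (((2 : ℕ) : ℝ) * g + g * (1012 / 1000 * T)) := by
          have := hexp 4 2 (by norm_num) h4e (1012 / 1000 * T)
          gcongr
      _ = Real.exp (A + (((2 : ℕ) : ℝ) * g + g * (1012 / 1000 * T))) := by rw [← Real.exp_add]
      _ < Real.exp (((3 * g : ℕ) : ℝ) * (17 / 50 * L) + 1 / 8 * L) := by
          apply Real.exp_lt_exp.2
          push_cast
          have h3 : (g : ℝ) * (T - 1) ≤ (g : ℝ) * L := mul_le_mul_of_nonneg_left hL1 hg0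
          have h4 : 0 ≤ (g : ℝ) * (T - 10000) := mul_nonneg hg0 (by linarith)
          nlinarith
      _ = Real.exp (17 / 50 * L) ^ (3 * g) * Real.exp (1 / 8 * L) := by
          rw [Real.exp_add, Real.exp_nat_mul]
  · have h3 : (3 + 20 * (g : ℝ)) ≤ Real.exp (1 / 100 * T) := by
      have := Real.add_one_le_exp (1 / 100 * T)
      linarith
    calc (3 + 20 * (g : ℝ)) * Real.exp (98 / 100 * T)
        ≤ Real.exp (1 / 100 * T) * Real.exp (98 / 100 * T) := by gcongr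
      _ = Real.exp (99 / 100 * T) := by
          rw [← Real.exp_add]
          ring_nf
  · have := Real.add_one_le_exp (1 / 8 * L)
    linarith

/-- Mertens' condition -/
theorem merP {f : ℤ[X]} (hf : Irreducible f) (hg : 2 ≤ f.natDegree) {e1 η : ℝ} {κ : ℕ}
    {Y : ℕ} (hY1 : 1 ≤ Y) {z : ℝ} {c d : ℕ} {u v : ℤ} {F : ℕ → Finset ℕ} (hc : 1 ≤ c) (hu : u ≠ 0)
    (hz : ∀ p ∈ pr Y e1 (17 / 50), z < Real.log p)
    (hcard : ∀ p : ℕ, p.Prime → ((range p).filter (fun x : ℕ => (p : ℤ) ∣ f.eval (u * (x : ℤ) + v) ∨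
      (Real.log p ≤ z ∧ x ∈ F p))).card ≤ κ)
    (hE : |((u : ℤ) : ℝ)| * |(((scaleRoots f (c : ℤ)).eval ((c : ℤ) * v - u * d) : ℤ) : ℝ)| ≤
      (Y : ℝ) ^ (2 * f.natDegree + 4))
    (hM : ∀ (h : ℕ → ℝ) (E : ℕ), E ≠ 0 → (E : ℝ) ≤ (Y : ℝ) ^ (2 * f.natDegree + 4) →
      (∀ p ∈ pr Y e1 (17 / 50), ¬ p ∣ E → h p = (rho f p : ℝ) / ((p : ℝ) - 1)) →
      (∀ p ∈ pr Y e1 (17 / 50), p ∣ E → 0 ≤ h p ∧ h p ≤ κ / ((p : ℝ) - 1)) →
      Mer (pr Y e1 (17 / 50)) (tt Y) h e1 (17 / 50) η) :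
    Mer (pr Y e1 (17 / 50)) (tt Y)
      (fun p => (((range p).filter (fun x => x ∈ (range p).filter (fun x : ℕ =>
        (p : ℤ) ∣ f.eval (u * (x : ℤ) + v) ∨ (Real.log p ≤ z ∧ x ∈ F p)) ∧
        ¬ p ∣ c * x + d)).card : ℝ) / ((p : ℝ) - 1)) e1 (17 / 50) η := by
  classical
  obtain ⟨N1, hN1⟩ : ∃ N1 : ℤ, N1 = (scaleRoots f (c : ℤ)).eval ((c : ℤ) * v - u * d) := ⟨_, rfl⟩
  have hN0 : N1 ≠ 0 := by
    rw [hN1]
    exact scale_ne f hf hg _ _ (by exact_mod_cast (by omega : c ≠ 0))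
  rw [← hN1] at hE
  have hpp : ∀ p ∈ pr Y e1 (17 / 50), p.Prime := by
    intro p hp
    unfold Pool.Agent.W23.DC.pr at hp
    exact (mem_filter.1 hp).2.1
  have hNE : ∀ q : ℕ, ¬ q ∣ (u * N1).natAbs → ¬ (q : ℤ) ∣ u ∧ ¬ (q : ℤ) ∣ N1 := by
    intro q hq
    exact ⟨fun h => hq (Int.natCast_dvd.1 (h.mul_right _)),
      fun h => hq (Int.natCast_dvd.1 (h.mul_left _))⟩
  refine hM _ (u * N1).natAbs (Int.natAbs_ne_zero.2 (mul_ne_zero hu hN0)) ?_ ?_ ?_
  · rw [Nat.cast_natAbs, Int.cast_abs, Int.cast_mul, abs_mul]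
    exact hE
  · intro p hp hpE
    obtain ⟨hpu, hpN⟩ := hNE p hpE
    have hpr := hpp p hp
    have hzp := hz p hp
    have e : (range p).filter (fun x => x ∈ (range p).filter (fun x : ℕ =>
        (p : ℤ) ∣ f.eval (u * (x : ℤ) + v) ∨ (Real.log p ≤ z ∧ x ∈ F p)) ∧
        ¬ p ∣ c * x + d) = (range p).filter (fun x : ℕ => (p : ℤ) ∣ f.eval (u * (x : ℤ) + v)) := by
      ext x
      rw [mem_filter, mem_filter, mem_filter]
      constructor
      · rintro ⟨h1, ⟨_, h2 | h2⟩, _⟩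
        · exact ⟨h1, h2⟩
        · exact absurd h2.1 (not_le.2 hzp)
      · rintro ⟨h1, h2⟩
        refine ⟨h1, ⟨h1, Or.inl h2⟩, fun h3 => hpN ?_⟩
        rw [hN1]
        refine com_dvd h2 ?_
        exact_mod_cast h3
    show (((range p).filter (fun x => x ∈ (range p).filter (fun x : ℕ =>
        (p : ℤ) ∣ f.eval (u * (x : ℤ) + v) ∨ (Real.log p ≤ z ∧ x ∈ F p)) ∧
        ¬ p ∣ c * x + d)).card : ℝ) / ((p : ℝ) - 1) = _
    rw [e, rho_lin f hpr u v hpu]
  · intro p hp hpE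
    have hpr := hpp p hp
    have h6 : (1 : ℝ) < p := by exact_mod_cast hpr.one_lt
    have h7 : (0 : ℝ) < (p : ℝ) - 1 := by linarith
    have h8 : ((range p).filter (fun x => x ∈ (range p).filter (fun x : ℕ =>
        (p : ℤ) ∣ f.eval (u * (x : ℤ) + v) ∨ (Real.log p ≤ z ∧ x ∈ F p)) ∧
        ¬ p ∣ c * x + d)).card ≤ κ := by
      refine (card_le_card ?_).trans (hcard p hpr)
      intro x hx
      rw [mem_filter] at hx
      exact hx.2.1
    exact ⟨div_nonneg (Nat.cast_nonneg _) h7.le,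
      div_le_div_of_nonneg_right (by exact_mod_cast h8) h7.le⟩

end PF

end Pool.Agent.H536.OC

/-! Subtask polyF (helper536), proved by helper155: the theorem. -/

namespace Pool.Agent.H536.OC

open Polynomial
open Pool.Agent.W23.DC (tt pr Mer)
open Pool.Agent.H474R2.PG (rho)

open PF

theorem polyF (h6 : S_U6) (hM : S_MerF) (hs : S_SqF) (ho : S_OmF) : S_F := by
  classical
  intro f hf hg κ
  obtain ⟨δ6, e1, η, T06, hδ6, he1, he18, hη, h6'⟩ := h6 (κ + f.natDegree)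
  obtain ⟨Y0, hY0⟩ := hM f hf (by omega) e1 η (κ + f.natDegree) (2 * f.natDegree + 4) he1 he18 hη
  obtain ⟨B0, hB0⟩ := hs f hf (by omega)
  obtain ⟨T1, hT1⟩ := numP f.natDegree B0 (AA f) (AA_nonneg f)
  refine ⟨min δ6 (1 / 1000), min (e1 / 4) (1 / 20), max T06 (max T1 (Y0 + 1)), by positivity,
    by positivity, ?_⟩
  intro T hT c d u v F hd1 hdc hc hu0 hu hv hF hadm
  have hTT0 : T06 ≤ T := (le_max_left _ _).trans hT
  have hTT1 : T1 ≤ T := ((le_max_left _ _).trans (le_max_right _ _)).trans hT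
  have hTY : (Y0 : ℝ) + 1 ≤ T := ((le_max_right _ _).trans (le_max_right _ _)).trans hT
  have hY0' : Y0 ≤ ⌊Real.exp T⌋₊ := by
    apply Nat.le_floor
    have := Real.add_one_le_exp T
    linarith
  have hT1' : 1 ≤ T := by
    have : (0 : ℝ) ≤ Y0 := Nat.cast_nonneg _
    linarith
  obtain ⟨l1, l2, l3⟩ := log_floor_exp hT1'
  have h6'' := h6' T hTT0
  obtain ⟨Y, hY⟩ : ∃ Y : ℕ, Y = ⌊Real.exp T⌋₊ := ⟨_, rfl⟩
  rw [← hY] at l1 l2 l3 h6'' hY0'
  obtain ⟨L, hL⟩ : ∃ L : ℝ, L = Real.log Y := ⟨_, rfl⟩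
  rw [← hL] at l1 l2
  obtain ⟨n1, n2, n3, n4, n5⟩ := hT1 T L hTT1 l1 l2
  have hL0 : 0 < L := by linarith
  have hYr : (0 : ℝ) < Y := by exact_mod_cast l3
  have hYL : (Y : ℝ) = Real.exp L := by rw [hL, Real.exp_log hYr]
  have ttlt : ∀ (p : ℕ) (x : ℝ), tt Y p < x ↔ Real.log p < x * L := by
    intro p x
    unfold Pool.Agent.W23.DC.tt
    rw [← hL, div_lt_iff₀ hL0]
  have ttle : ∀ (p : ℕ) (x : ℝ), x ≤ tt Y p ↔ x * L ≤ Real.log p := by
    intro p x
    unfold Pool.Agent.W23.DC.tt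
    rw [← hL, le_div_iff₀ hL0]
  have mpr : ∀ (p : ℕ) (u v : ℝ), p ∈ pr Y u v → p.Prime ∧ u * L ≤ Real.log p ∧ Real.log p < v * L := by
    intro p u v hp
    unfold Pool.Agent.W23.DC.pr at hp
    rw [mem_filter] at hp
    exact ⟨hp.2.1, (ttle p u).1 hp.2.2.1, (ttlt p v).1 hp.2.2.2⟩
  have hmem : ∀ p : ℕ, p.Prime → 1 / 8 * L ≤ Real.log p → Real.log p < 17 / 50 * L →
      p ∈ pr Y (1 / 8) (17 / 50) := by
    intro p hp h1 h2
    have hpr : (0 : ℝ) < p := by exact_mod_cast hp.pos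
    unfold Pool.Agent.W23.DC.pr
    rw [mem_filter, mem_Icc]
    refine ⟨⟨hp.pos, ?_⟩, hp, (ttle p _).2 h1, (ttlt p _).2 h2⟩
    have h9 : Real.log p ≤ Real.log Y := by rw [← hL]; linarith
    exact_mod_cast (Real.log_le_log_iff hpr hYr).1 h9
  have logle : ∀ (p : ℕ) (x : ℝ), p.Prime → (p : ℝ) ≤ Real.exp x → Real.log p ≤ x := by
    intro p x hp h
    rw [← Real.log_exp x]
    exact Real.log_le_log (by exact_mod_cast hp.pos) h
  have hc1 : 1 ≤ c := hd1.trans hdc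
  obtain ⟨F', hF'⟩ : ∃ F' : ℕ → Finset ℕ, F' = fun p => (range p).filter (fun x : ℕ =>
    (p : ℤ) ∣ f.eval (u * (x : ℤ) + v) ∨ (Real.log p ≤ e1 / 2 * L ∧ x ∈ F p)) := ⟨_, rfl⟩
  have memF' : ∀ p x : ℕ, x ∈ F' p ↔ x < p ∧ ((p : ℤ) ∣ f.eval (u * (x : ℤ) + v) ∨
      (Real.log p ≤ e1 / 2 * L ∧ x ∈ F p)) := by
    intro p x
    rw [hF', mem_filter, mem_range]
  have modF : ∀ p n : ℕ, (p : ℤ) ∣ f.eval (u * ((n % p : ℕ) : ℤ) + v) ↔
      (p : ℤ) ∣ f.eval (u * (n : ℤ) + v) := by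
    intro p n
    apply ev_congr
    have e : u * ((n % p : ℕ) : ℤ) + v - (u * (n : ℤ) + v) = u * (((n % p : ℕ) : ℤ) - n) := by ring
    rw [e]
    apply Dvd.dvd.mul_left
    have h1 : (n : ℤ) ≡ ((n % p : ℕ) : ℤ) [ZMOD p] :=
      (Int.natCast_modEq_iff).2 (Nat.mod_modEq n p).symm
    exact h1.dvd
  have hcard : ∀ p : ℕ, p.Prime → (F' p).card ≤ κ + f.natDegree := by
    intro p hp
    have hsub : F' p ⊆ F p ∪ (range p).filter (fun x : ℕ => (p : ℤ) ∣ f.eval (u * (x : ℤ) + v)) := by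
      intro x hx
      rw [memF'] at hx
      rw [mem_union, mem_filter, mem_range]
      rcases hx.2 with h | h
      · exact Or.inr ⟨hx.1, h⟩
      · exact Or.inl h.2
    obtain ⟨n, _, hn, _⟩ := hadm p hp
    exact (card_le_card hsub).trans ((card_union_le _ _).trans
      (Nat.add_le_add (hF p hp) (cls_card hp f u v ⟨n, hn⟩)))
  have hadm' : ∀ p : ℕ, p.Prime → ∃ n : ℕ, ¬ p ∣ c * n + d ∧ n % p ∉ F' p := by
    intro p hp
    obtain ⟨n, h1, h2, h3⟩ := hadm p hp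
    refine ⟨n, h1, fun h => ?_⟩
    rw [memF'] at h
    rcases h.2 with h | h
    · exact h2 ((modF p n).1 h)
    · exact h3 h.2
  -- the size of the exceptional number
  have hcT : (c : ℝ) ≤ Real.exp (1 / 1000 * T) := by
    refine hc.trans (Real.exp_le_exp.2 ?_)
    have := min_le_right δ6 (1 / 1000)
    nlinarith
  have hcT6 : (c : ℝ) ≤ Real.exp (δ6 * T) := by
    refine hc.trans (Real.exp_le_exp.2 ?_)
    have := min_le_left δ6 (1 / 1000)
    nlinarith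
  have hdT : (d : ℝ) ≤ Real.exp (1 / 1000 * T) := le_trans (by exact_mod_cast hdc) hcT
  have hEb : |((u : ℤ) : ℝ)| * |(((scaleRoots f (c : ℤ)).eval ((c : ℤ) * v - u * d) : ℤ) : ℝ)| ≤
      (Y : ℝ) ^ (2 * f.natDegree + 4) := by
    have h1 : |(((scaleRoots f (c : ℤ)).eval ((c : ℤ) * v - u * d) : ℤ) : ℝ)| ≤
        AA f * (2 * Real.exp (102 / 100 * T)) ^ f.natDegree := by
      have hE1 : 1 ≤ Real.exp (1 / 1000 * T) := Real.one_le_exp (by positivity)
      have hE2 : Real.exp (1 / 1000 * T) ≤ Real.exp (102 / 100 * T) :=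
        Real.exp_le_exp.2 (by linarith)
      apply scale_bound
      · push_cast
        rw [Nat.abs_cast]
        linarith [Real.exp_pos (102 / 100 * T)]
      · push_cast
        calc |(c : ℝ) * (v : ℝ) - u * (d : ℝ)| ≤ |(c : ℝ) * (v : ℝ)| + |(u : ℝ) * d| := abs_sub _ _
          _ = c * |((v : ℤ) : ℝ)| + |((u : ℤ) : ℝ)| * d := by
              rw [abs_mul, abs_mul, Nat.abs_cast, Nat.abs_cast]
          _ ≤ Real.exp (1 / 1000 * T) * Real.exp (101 / 100 * T) +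
              Real.exp (T / 500) * Real.exp (1 / 1000 * T) := by gcongr
          _ = Real.exp (1 / 1000 * T + 101 / 100 * T) + Real.exp (T / 500 + 1 / 1000 * T) := by
              rw [← Real.exp_add, ← Real.exp_add]
          _ ≤ Real.exp (102 / 100 * T) + Real.exp (102 / 100 * T) :=
              add_le_add (Real.exp_le_exp.2 (by linarith)) (Real.exp_le_exp.2 (by linarith))
          _ = 2 * Real.exp (102 / 100 * T) := by ring
    calc |((u : ℤ) : ℝ)| * |(((scaleRoots f (c : ℤ)).eval ((c : ℤ) * v - u * d) : ℤ) : ℝ)|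
        ≤ Real.exp (T / 500) * (AA f * (2 * Real.exp (102 / 100 * T)) ^ f.natDegree) := by gcongr
      _ ≤ Real.exp (((2 * f.natDegree + 4 : ℕ) : ℝ) * L) := n2
      _ = (Y : ℝ) ^ (2 * f.natDegree + 4) := by rw [hYL, Real.exp_nat_mul]
  have hmer := merP (F := F) (d := d) (v := v) (z := e1 / 2 * L) (e1 := e1) (η := η) hf hg l3 hc1 hu0
    (fun p hp => by
      obtain ⟨_, hp1, _⟩ := mpr p _ _ hp
      have : e1 / 2 * L < e1 * L := by nlinarith
      linarith)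
    (fun p hp => by
      have h1 := hcard p hp
      rw [hF'] at h1
      exact h1) hEb (fun h E => hY0 Y hY0' h E)
  have hmer' : Mer (pr Y e1 (17 / 50)) (tt Y)
      (fun p => (((range p).filter (fun x => x ∈ F' p ∧ ¬ p ∣ c * x + d)).card : ℝ) /
        ((p : ℝ) - 1)) e1 (17 / 50) η := by
    rw [hF']
    exact hmer
  -- the exceptional sets
  obtain ⟨N, hN⟩ : ∃ N : ℕ, N = ⌊3 * Real.exp (101 / 100 * T)⌋₊ + 1 := ⟨_, rfl⟩
  have hNb : (N : ℝ) ≤ 4 * Real.exp (101 / 100 * T) := by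
    have h1 : (⌊3 * Real.exp (101 / 100 * T)⌋₊ : ℝ) ≤ 3 * Real.exp (101 / 100 * T) :=
      Nat.floor_le (by positivity)
    have h2 : 1 ≤ Real.exp (101 / 100 * T) := Real.one_le_exp (by positivity)
    rw [hN]
    push_cast
    linarith
  obtain ⟨X, hX⟩ : ∃ X : ℝ, X = Real.exp (98 / 100 * T) := ⟨_, rfl⟩
  have hX1 : 1 ≤ X := by rw [hX]; exact Real.one_le_exp (by positivity)
  obtain ⟨GS, hGS⟩ : ∃ GS : Finset ℕ, GS = (pr Y (1 / 8) (17 / 50)).biUnion (fun p =>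
    (range N).filter (fun n : ℕ => ((p ^ 2 : ℕ) : ℤ) ∣ f.eval (u * n + v))) := ⟨_, rfl⟩
  obtain ⟨GV, hGV⟩ : ∃ GV : Finset ℕ, GV = ((range N).filter (fun n : ℕ => f.eval (u * (n : ℤ) + v) = 0) ∪
    ((range N).filter (fun n : ℕ => f.eval (u * (n : ℤ) + v) = 1) ∪
    (range N).filter (fun n : ℕ => f.eval (u * (n : ℤ) + v) = -1))) := ⟨_, rfl⟩
  have hg0 : (0 : ℝ) ≤ f.natDegree := Nat.cast_nonneg _
  have hpl : ∀ p ∈ pr Y (1 / 8) (17 / 50), Real.exp (1 / 8 * L) ≤ (p : ℝ) ∧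
      (p : ℝ) < Real.exp (17 / 50 * L) := by
    intro p hp
    obtain ⟨hpp, h1, h2⟩ := mpr p _ _ hp
    have hpr : (0 : ℝ) < p := by exact_mod_cast hpp.pos
    exact ⟨(Real.le_log_iff_exp_le hpr).1 h1, (Real.log_lt_iff_lt_exp hpr).1 h2⟩
  have hndu : ∀ p : ℕ, p.Prime → Real.exp (1 / 8 * L) ≤ (p : ℝ) → ¬ (p : ℤ) ∣ u := by
    intro p hp hpL hd
    have h4 : (p : ℤ) ≤ |u| := Int.le_of_dvd (abs_pos.2 hu0) ((dvd_abs _ _).2 hd)
    have h5 : (p : ℝ) ≤ |((u : ℤ) : ℝ)| := by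
      rw [← Int.cast_abs]
      exact_mod_cast h4
    have h6 : Real.exp (T / 500) < Real.exp (1 / 8 * L) := Real.exp_lt_exp.2 (by linarith)
    linarith
  have hGSc : (GS.card : ℝ) ≤ 17 * f.natDegree * X := by
    have h1 : (GS.card : ℝ) ≤ ∑ p ∈ pr Y (1 / 8) (17 / 50),
        (f.natDegree * ((N : ℝ) / (p : ℝ) ^ 2 + 1)) := by
      have h2 : (GS.card : ℝ) ≤ ∑ p ∈ pr Y (1 / 8) (17 / 50),
          (((range N).filter (fun n : ℕ => ((p ^ 2 : ℕ) : ℤ) ∣ f.eval (u * n + v))).card : ℝ) := by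
        rw [hGS]
        exact_mod_cast card_biUnion_le
      refine h2.trans (sum_le_sum fun p hp => ?_)
      obtain ⟨hpp, _, _⟩ := mpr p _ _ hp
      have hp1 := (hpl p hp).1
      refine hB0 u v N p hpp ?_ (hndu p hpp hp1)
      have : (B0 : ℝ) < p := lt_of_lt_of_le n5 hp1
      exact_mod_cast this
    have h2 : ∑ p ∈ pr Y (1 / 8) (17 / 50), ((f.natDegree : ℝ) * ((N : ℝ) / (p : ℝ) ^ 2 + 1)) =
        (f.natDegree : ℝ) * ((N : ℝ) * ∑ p ∈ pr Y (1 / 8) (17 / 50), 1 / (p : ℝ) ^ 2 +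
          ((pr Y (1 / 8) (17 / 50)).card : ℝ)) := by
      rw [← mul_sum, sum_add_distrib, mul_sum, sum_const, nsmul_eq_mul, mul_one]
      congr 2
      exact sum_congr rfl fun p _ => by rw [mul_one_div]
    have h3 : ∑ p ∈ pr Y (1 / 8) (17 / 50), 1 / (p : ℝ) ^ 2 ≤ 2 / Real.exp (1 / 8 * L) :=
      sq_sum _ _ (Real.one_le_exp (by positivity)) fun p hp => (hpl p hp).1
    have h4 : ((pr Y (1 / 8) (17 / 50)).card : ℝ) ≤ Real.exp (17 / 50 * L) := by
      have h5 : pr Y (1 / 8) (17 / 50) ⊆ Icc 1 ⌊Real.exp (17 / 50 * L)⌋₊ := by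
        intro p hp
        obtain ⟨hpp, _, _⟩ := mpr p _ _ hp
        rw [mem_Icc]
        exact ⟨hpp.pos, Nat.le_floor (hpl p hp).2.le⟩
      have h6 := card_le_card h5
      rw [Nat.card_Icc, Nat.add_sub_cancel] at h6
      have h7 : (⌊Real.exp (17 / 50 * L)⌋₊ : ℝ) ≤ Real.exp (17 / 50 * L) :=
        Nat.floor_le (Real.exp_pos _).le
      exact le_trans (by exact_mod_cast h6) h7
    have h5 : (N : ℝ) * (2 / Real.exp (1 / 8 * L)) ≤ 16 * X := by
      have h6 : 2 / Real.exp (1 / 8 * L) = 2 * Real.exp (-(1 / 8 * L)) := by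
        rw [Real.exp_neg]
        rfl
      have h7 : Real.exp (-(1 / 8 * L)) ≤ Real.exp (1 / 8 - 1 / 8 * T) :=
        Real.exp_le_exp.2 (by linarith)
      have h8 : Real.exp (1 / 8 - 1 / 8 * T) * Real.exp (101 / 100 * T) ≤ 2 * X := by
        have h9 : (2 : ℝ) ≤ Real.exp 1 := by
          have := Real.add_one_le_exp (1 : ℝ)
          linarith
        have h10 : Real.exp (1 / 8 - 1 / 8 * T) * Real.exp (101 / 100 * T) ≤ X := by
          rw [← Real.exp_add, hX]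
          exact Real.exp_le_exp.2 (by linarith)
        linarith
      rw [h6]
      calc (N : ℝ) * (2 * Real.exp (-(1 / 8 * L)))
          ≤ (4 * Real.exp (101 / 100 * T)) * (2 * Real.exp (1 / 8 - 1 / 8 * T)) := by gcongr
        _ = 8 * (Real.exp (1 / 8 - 1 / 8 * T) * Real.exp (101 / 100 * T)) := by ring
        _ ≤ 8 * (2 * X) := by gcongr
        _ = 16 * X := by ring
    have h6 : Real.exp (17 / 50 * L) ≤ X := by
      rw [hX]
      exact Real.exp_le_exp.2 (by linarith)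
    rw [h2] at h1
    refine h1.trans ?_
    calc (f.natDegree : ℝ) * (N * ∑ p ∈ pr Y (1 / 8) (17 / 50), 1 / (p : ℝ) ^ 2 +
          (pr Y (1 / 8) (17 / 50)).card)
        ≤ f.natDegree * (N * (2 / Real.exp (1 / 8 * L)) + Real.exp (17 / 50 * L)) := by gcongr
      _ ≤ f.natDegree * (16 * X + X) := by gcongr
      _ = 17 * f.natDegree * X := by ring
  have hGVc : (GV.card : ℝ) ≤ 3 * f.natDegree * X := by
    have h1 : GV.card ≤ f.natDegree + (f.natDegree + f.natDegree) := by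
      rw [hGV]
      exact (card_union_le _ _).trans (Nat.add_le_add (val_card f hg u v hu0 0 N)
        ((card_union_le _ _).trans (Nat.add_le_add (val_card f hg u v hu0 1 N)
          (val_card f hg u v hu0 (-1) N))))
    have h2 : (GV.card : ℝ) ≤ 3 * f.natDegree := by
      have : GV.card ≤ 3 * f.natDegree := by omega
      exact_mod_cast this
    calc (GV.card : ℝ) ≤ 3 * f.natDegree * 1 := by rw [mul_one]; exact h2
      _ ≤ 3 * f.natDegree * X := by gcongr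
  -- the good set
  obtain ⟨Good1, hG1⟩ : ∃ Good1 : ℕ → Prop, Good1 = fun n => (c * n + d).Prime ∧
    Real.exp (98 / 100 * T) < ((c * n + d : ℕ) : ℝ) ∧ ((c * n + d : ℕ) : ℝ) ≤ 3 * Real.exp (101 / 100 * T) ∧
    (∀ p : ℕ, p.Prime → (p : ℝ) ≤ Real.exp (min (e1 / 4) (1 / 20) * T) → n % p ∉ F p) ∧
    (∀ p : ℕ, p.Prime → (p : ℝ) ≤ Real.exp (T / 9) → ¬ (p : ℤ) ∣ f.eval (u * n + v)) ∧
    1 < (f.eval (u * n + v)).natAbs ∧ ArithmeticFunction.cardFactors (f.eval (u * n + v)).natAbs ≤ 3 * f.natDegree := ⟨_, rfl⟩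
  refine ⟨(range N).filter Good1, ?_, fun n hn => ?_⟩
  swap
  · have := (mem_filter.1 hn).2
    rw [hG1] at this
    exact this
  by_contra hcon
  rw [not_lt, ← hX] at hcon
  obtain ⟨G, hG⟩ : ∃ G : Finset ℕ, G = ((range N).filter Good1 ∪ range (⌊X⌋₊ + 1)) ∪ (GS ∪ GV) :=
    ⟨_, rfl⟩
  have hGc : (G.card : ℝ) ≤ Real.exp (99 / 100 * T) := by
    have h1 : G.card ≤ (((range N).filter Good1).card + (⌊X⌋₊ + 1)) + (GS.card + GV.card) := by
      rw [hG]
      refine (card_union_le _ _).trans (Nat.add_le_add ?_ (card_union_le _ _))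
      have := card_union_le ((range N).filter Good1) (range (⌊X⌋₊ + 1))
      rwa [card_range] at this
    have h2 : (G.card : ℝ) ≤ ((((range N).filter Good1).card : ℝ) + (⌊X⌋₊ + 1)) +
        (GS.card + GV.card) := by exact_mod_cast h1
    have h3 := Nat.floor_le (by linarith : 0 ≤ X)
    rw [← hX] at n4
    refine le_trans ?_ n4
    nlinarith
  obtain ⟨n, hnG, g1, g2, g3, g4, g5⟩ := h6'' c d F' hd1 hdc hcT6 hcard hadm' hmer' G hGc
  rw [hG, mem_union, mem_union, mem_union, not_or, not_or, not_or] at hnG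
  obtain ⟨⟨hn1, hn2⟩, hn3, hn4⟩ := hnG
  have hncd : n ≤ c * n + d := (Nat.le_mul_of_pos_left n (by omega)).trans (Nat.le_add_right _ _)
  have hnN : n ∈ range N := by
    rw [mem_range, hN, Nat.lt_succ_iff]
    exact Nat.le_floor (le_trans (by exact_mod_cast hncd) g3)
  have hnr : (n : ℝ) ≤ 3 * Real.exp (101 / 100 * T) := le_trans (by exact_mod_cast hncd) g3
  have hlow : ∀ p : ℕ, p.Prime → Real.log p < 1 / 8 * L → ¬ (p : ℤ) ∣ f.eval (u * (n : ℤ) + v) := by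
    intro p hp hpL hd
    refine g4 p hp ((ttlt p _).2 hpL) ?_
    rw [memF']
    exact ⟨Nat.mod_lt _ hp.pos, Or.inl ((modF p n).2 hd)⟩
  have hval : f.eval (u * (n : ℤ) + v) ≠ 0 ∧ f.eval (u * (n : ℤ) + v) ≠ 1 ∧
      f.eval (u * (n : ℤ) + v) ≠ -1 := by
    rw [hGV, mem_union, mem_union, mem_filter, mem_filter, mem_filter] at hn4
    exact ⟨fun h => hn4 (Or.inl ⟨hnN, h⟩), fun h => hn4 (Or.inr (Or.inl ⟨hnN, h⟩)),
      fun h => hn4 (Or.inr (Or.inr ⟨hnN, h⟩))⟩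
  obtain ⟨v1, v2, v3⟩ := hval
  have hnat0 : (f.eval (u * (n : ℤ) + v)).natAbs ≠ 0 := Int.natAbs_ne_zero.2 v1
  apply hn1
  rw [mem_filter]
  refine ⟨hnN, ?_⟩
  rw [hG1]
  refine ⟨g1, ?_, g3, ?_, ?_, ?_, ?_⟩
  · rw [← hX]
    have h8 : ⌊X⌋₊ + 1 ≤ n := by
      rw [mem_range] at hn2
      omega
    have h9 := Nat.lt_floor_add_one X
    have h10 : ((⌊X⌋₊ : ℝ)) + 1 ≤ ((c * n + d : ℕ) : ℝ) := by exact_mod_cast h8.trans hncd
    linarith
  · intro p hp hpe hd
    have h4 := logle p _ hp hpe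
    have h5 : min (e1 / 4) (1 / 20) * T ≤ e1 / 4 * T := by gcongr; exact min_le_left _ _
    have h6 : min (e1 / 4) (1 / 20) * T ≤ 1 / 20 * T := by gcongr; exact min_le_right _ _
    have h7 : e1 / 4 * T ≤ e1 / 2 * L := by nlinarith
    refine g4 p hp ((ttlt p _).2 (by linarith)) ?_
    rw [memF']
    exact ⟨Nat.mod_lt _ hp.pos, Or.inr ⟨by linarith, hd⟩⟩
  · intro p hp hpe
    have h4 := logle p _ hp hpe
    exact hlow p hp (by linarith)
  · have h4 : (f.eval (u * (n : ℤ) + v)).natAbs ≠ 1 := by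
      intro h
      rcases Int.natAbs_eq_iff.1 h with h5 | h5
      · exact v2 (by exact_mod_cast h5)
      · exact v3 (by exact_mod_cast h5)
    omega
  · refine ho _ (3 * f.natDegree) (Real.exp (17 / 50 * L)) (Real.exp (1 / 8 * L)) hnat0
      (Real.one_lt_exp_iff.2 (by positivity)) (Real.exp_le_exp.2 (by linarith)) ?_ ?_ ?_ ?_
    · refine lt_of_le_of_lt ?_ n3
      rw [Nat.cast_natAbs, Int.cast_abs]
      have hE1 : 1 ≤ Real.exp (1012 / 1000 * T) := Real.one_le_exp (by positivity)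
      apply eval_bound _ _ _ (by linarith)
      rw [Int.cast_add, Int.cast_mul, Int.cast_natCast]
      calc |(u : ℝ) * (n : ℝ) + (v : ℝ)| ≤ |(u : ℝ) * (n : ℝ)| + |(v : ℝ)| := abs_add_le _ _
        _ = |(u : ℝ)| * (n : ℝ) + |(v : ℝ)| := by rw [abs_mul, Nat.abs_cast]
        _ ≤ Real.exp (T / 500) * (3 * Real.exp (101 / 100 * T)) + Real.exp (101 / 100 * T) := by
            gcongr
        _ = 3 * Real.exp (T / 500 + 101 / 100 * T) + Real.exp (101 / 100 * T) := by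
            rw [Real.exp_add]
            ring
        _ ≤ 3 * Real.exp (1012 / 1000 * T) + Real.exp (1012 / 1000 * T) := by
            have h9 : Real.exp (T / 500 + 101 / 100 * T) ≤ Real.exp (1012 / 1000 * T) :=
              Real.exp_le_exp.2 (by linarith)
            have h10 : Real.exp (101 / 100 * T) ≤ Real.exp (1012 / 1000 * T) :=
              Real.exp_le_exp.2 (by linarith)
            linarith
        _ = 4 * Real.exp (1012 / 1000 * T) := by ring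
    · intro p hp hpd
      have hpr : (0 : ℝ) < p := by exact_mod_cast hp.pos
      by_contra hlt
      rw [not_le] at hlt
      exact hlow p hp ((Real.log_lt_iff_lt_exp hpr).2 hlt) (Int.natCast_dvd.2 hpd)
    · intro p q hp hq hpd hqd hpU hqU
      have key : ∀ p : ℕ, p.Prime → p ∣ (f.eval (u * (n : ℤ) + v)).natAbs →
          (p : ℝ) < Real.exp (17 / 50 * L) →
          p ∈ (pr Y (1 / 8) (17 / 50)).filter (fun p => n % p ∈ F' p) := by
        intro p hp hpd hpU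
        have hpd' : (p : ℤ) ∣ f.eval (u * (n : ℤ) + v) := Int.natCast_dvd.2 hpd
        have hpr : (0 : ℝ) < p := by exact_mod_cast hp.pos
        have h4 : Real.log p < 17 / 50 * L := (Real.log_lt_iff_lt_exp hpr).2 hpU
        have h5 : 1 / 8 * L ≤ Real.log p := by
          by_contra hc
          rw [not_le] at hc
          exact hlow p hp hc hpd'
        rw [mem_filter]
        refine ⟨hmem p hp h5 h4, ?_⟩
        rw [memF']
        exact ⟨Nat.mod_lt _ hp.pos, Or.inl ((modF p n).2 hpd')⟩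
      exact card_le_one.1 g5 p (key p hp hpd hpU) q (key q hq hqd hqU)
    · intro p hp hpU hpd
      have hpr : (0 : ℝ) < p := by exact_mod_cast hp.pos
      have h4 : Real.log p < 17 / 50 * L := (Real.log_lt_iff_lt_exp hpr).2 hpU
      have h5 : 1 / 8 * L ≤ Real.log p := by
        by_contra hc
        rw [not_le] at hc
        exact hlow p hp hc (Int.natCast_dvd.2 ((dvd_pow_self p two_ne_zero).trans hpd))
      apply hn3
      rw [hGS, mem_biUnion]
      refine ⟨p, hmem p hp h5 h4, ?_⟩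
      rw [mem_filter]
      exact ⟨hnN, Int.natCast_dvd.2 hpd⟩

end Pool.Agent.H536.OC
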