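import Mathlib
import Pool.Agent.H536.OC.Wg

open Finset Filter Topology

/-! Subtask (helper536). -/

namespace Pool.Agent.H536.OC

/-- a product of numbers which are at least `y` -/
theorem floor_pow_le (y : ℝ) (hy : 0 ≤ y) (l : List ℕ) (h : ∀ p ∈ l, y ≤ (p : ℝ)) :
    y ^ l.length ≤ ((l.prod : ℕ) : ℝ) := by
  induction l with
  | nil => simp
  | cons p l ih =>
    rw [List.length_cons, List.prod_cons, pow_succ', Nat.cast_mul]
    exact mul_le_mul (h p List.mem_cons_self) (ih fun q hq => h q (List.mem_cons_of_mem _ hq))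
      (pow_nonneg hy _) (Nat.cast_nonneg _)

theorem floor_pow_omega (y : ℝ) (hy : 0 ≤ y) {m : ℕ} (hm : m ≠ 0)
    (h : ∀ p : ℕ, p.Prime → p ∣ m → y ≤ (p : ℝ)) :
    y ^ ArithmeticFunction.cardFactors m ≤ (m : ℝ) := by
  have h1 := floor_pow_le y hy m.primeFactorsList fun p hp =>
    h p (Nat.prime_of_mem_primeFactorsList hp) (Nat.dvd_of_mem_primeFactorsList hp)
  rw [Nat.prod_primeFactorsList hm] at h1
  rwa [ArithmeticFunction.cardFactors_apply]

/-- the polynomial `(B - X) ^ 2 - 2` -/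
noncomputable def floorPoly (B : ℕ) : Polynomial ℤ := (Polynomial.C (B : ℤ) - Polynomial.X) ^ 2 - Polynomial.C 2

theorem floorPoly_eval (B : ℕ) (x : ℤ) : (floorPoly B).eval x = ((B : ℤ) - x) ^ 2 - 2 := by
  simp only [floorPoly, Polynomial.eval_sub, Polynomial.eval_pow, Polynomial.eval_C, Polynomial.eval_X]

theorem floorPoly_deg (B : ℕ) : (floorPoly B).natDegree ≤ 2 := by
  unfold floorPoly
  refine (Polynomial.natDegree_sub_le _ _).trans (max_le ?_ ?_)
  · refine Polynomial.natDegree_pow_le.trans ?_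
    have h1 : (Polynomial.C (B : ℤ) - Polynomial.X).natDegree ≤ 1 := by
      refine (Polynomial.natDegree_sub_le _ _).trans (max_le ?_ ?_)
      · rw [Polynomial.natDegree_C]; exact Nat.zero_le _
      · exact Polynomial.natDegree_X_le
    omega
  · rw [Polynomial.natDegree_C]
    exact Nat.zero_le _

/-- admissibility -/
theorem floor_adm (m d B : ℕ) (hcop : d.Coprime m) (hpar : Odd m → Even (B + d)) (p : ℕ) (hp : p.Prime) :
    ∃ t : ℕ, ¬ p ∣ m * t + d ∧ ¬ (p : ℤ) ∣ -1 * (t : ℤ) + (B : ℤ) ∧ ¬ (p : ℤ) ∣ (floorPoly B).eval (t : ℤ) := by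
  have hp1 : ¬ (p : ℤ) ∣ 1 := by
    intro h
    have h1 : p ∣ 1 := by exact_mod_cast h
    exact hp.one_lt.ne' (Nat.dvd_one.1 h1)
  -- the two candidates
  have hA : ¬ p ∣ m * (B + 1) + d →
      ∃ t : ℕ, ¬ p ∣ m * t + d ∧ ¬ (p : ℤ) ∣ -1 * (t : ℤ) + (B : ℤ) ∧ ¬ (p : ℤ) ∣ (floorPoly B).eval (t : ℤ) := by
    intro h
    refine ⟨B + 1, h, ?_, ?_⟩
    · intro h1
      apply hp1
      have h2 := h1.neg_right
      have h3 : -(-1 * (((B + 1 : ℕ)) : ℤ) + (B : ℤ)) = 1 := by push_cast; ring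
      rwa [h3] at h2
    · rw [floorPoly_eval]
      intro h1
      apply hp1
      have h2 := h1.neg_right
      have h3 : -(((B : ℤ) - ((B + 1 : ℕ) : ℤ)) ^ 2 - 2) = 1 := by push_cast; ring
      rwa [h3] at h2
  by_cases hpm : p ∣ m
  · apply hA
    intro h
    have h1 : p ∣ d := (Nat.dvd_add_right (hpm.mul_right _)).1 h
    have h2 := Nat.dvd_gcd h1 hpm
    rw [Nat.Coprime] at hcop
    rw [hcop] at h2
    exact hp.one_lt.ne' (Nat.dvd_one.1 h2)
  · by_cases h2 : p = 2
    · apply hA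
      subst h2
      have hodd : Odd m := by
        rw [← Nat.not_even_iff_odd]
        intro h
        exact hpm h.two_dvd
      have h3 := hpar hodd
      intro h4
      obtain ⟨u, hu⟩ := hodd
      obtain ⟨v, hv⟩ := h3
      obtain ⟨w, hw⟩ := h4
      have h5 : m * (B + 1) + d = 2 * (u * (B + 1)) + (B + d) + 1 := by
        rw [hu]; ring
      omega
    · by_cases h3 : p ∣ m * (B + 1) + d
      · refine ⟨B + p - 1, ?_, ?_, ?_⟩
        · intro h4
          have hpp := hp.two_le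
          -- the difference is `m (p - 2)`
          have h5 : (p : ℤ) ∣ 2 * (m : ℤ) := by
            have h6 : (p : ℤ) ∣ ((m * (B + 1) + d : ℕ) : ℤ) := Int.natCast_dvd_natCast.2 h3
            have h7 : (p : ℤ) ∣ ((m * (B + p - 1) + d : ℕ) : ℤ) := Int.natCast_dvd_natCast.2 h4
            have h8 : (p : ℤ) ∣ (p : ℤ) * m := dvd_mul_right _ _
            have h9 : ((B + p - 1 : ℕ) : ℤ) = B + p - 1 := by
              rw [Nat.cast_sub (by omega)]; push_cast; ring
            have h10 : 2 * (m : ℤ) = ((m * (B + 1) + d : ℕ) : ℤ) - ((m * (B + p - 1) + d : ℕ) : ℤ) + (p : ℤ) * m := by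
              rw [Nat.cast_add, Nat.cast_add, Nat.cast_mul, Nat.cast_mul, h9]
              push_cast
              ring
            rw [h10]
            exact dvd_add (dvd_sub h6 h7) h8
          have h6 : p ∣ 2 * m := by exact_mod_cast h5
          rcases (Nat.Prime.dvd_mul hp).1 h6 with h7 | h7
          · exact h2 ((Nat.prime_dvd_prime_iff_eq hp Nat.prime_two).1 h7)
          · exact hpm h7
        · intro h4
          apply hp1
          have hpp := hp.two_le
          have h9 : ((B + p - 1 : ℕ) : ℤ) = B + p - 1 := by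
            rw [Nat.cast_sub (by omega)]; push_cast; ring
          rw [h9] at h4
          have h5 := dvd_add h4 (dvd_refl (p : ℤ))
          have h6 : -1 * ((B : ℤ) + p - 1) + B + p = 1 := by ring
          rwa [h6] at h5
        · rw [floorPoly_eval]
          intro h4
          apply hp1
          have hpp := hp.two_le
          have h9 : ((B + p - 1 : ℕ) : ℤ) = B + p - 1 := by
            rw [Nat.cast_sub (by omega)]; push_cast; ring
          rw [h9] at h4
          have h5 : (p : ℤ) ∣ (p : ℤ) * (p - 2) := dvd_mul_right _ _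
          have h6 := dvd_sub h5 h4
          have h7 : (p : ℤ) * (p - 2) - (((B : ℤ) - (B + p - 1)) ^ 2 - 2) = 1 := by ring
          rwa [h7] at h6
      · exact hA h3

/-- all residue classes: `p ≡ d (mod m)` prime, `q = ⌊(n - p) / m⌋` a `P₃`, `q ^ 2 - 2` almost prime -/
theorem floorA (h : S_P) : ∃ (δ : ℝ) (R X0 : ℕ), 0 < δ ∧ ∀ n m d : ℕ, X0 ≤ n → (m : ℝ) ≤ (n : ℝ) ^ δ →
    1 ≤ d → d ≤ m → d.Coprime m → (Odd m → Even ((n - d) / m + d)) →
    ∃ S : Finset ℕ, (n : ℝ) ^ (97 / 100 : ℝ) ≤ S.card ∧ ∀ p ∈ S, p.Prime ∧ p < n ∧ p ≡ d [MOD m] ∧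
      1 < (n - p) / m ∧ ArithmeticFunction.cardFactors ((n - p) / m) ≤ 3 ∧
      (∀ l : ℕ, l.Prime → l ∣ (n - p) / m → (n : ℝ) ^ (11 / 100 : ℝ) < l) ∧
      ArithmeticFunction.cardFactors (((n - p) / m) ^ 2 - 2) ≤ R := by
  obtain ⟨δ, ε, T0, hδ, hε, hU⟩ := h 1 2
  have hm : 0 < min δ 1 := lt_min hδ one_pos
  refine ⟨min δ 1 / 2, ⌈4 / ε⌉₊, ⌈Real.exp (max 40000 (2 * |T0| + 8))⌉₊, by positivity, ?_⟩
  intro n m d hn hmn hd1 hdm hcop hpar
  have hn1 : Real.exp (max 40000 (2 * |T0| + 8)) ≤ n := (Nat.le_ceil _).trans (by exact_mod_cast hn)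
  have hnpos : (0 : ℝ) < n := (Real.exp_pos _).trans_le hn1
  obtain ⟨L, hL⟩ : ∃ L, L = Real.log n := ⟨_, rfl⟩
  have hnL : (n : ℝ) = Real.exp L := by rw [hL, Real.exp_log hnpos]
  have hL1 : max 40000 (2 * |T0| + 8) ≤ L := by
    rw [hL]
    exact (Real.le_log_iff_exp_le hnpos).2 hn1
  have hL40 : 40000 ≤ L := (le_max_left _ _).trans hL1
  have hLT : 2 * |T0| + 8 ≤ L := (le_max_right _ _).trans hL1
  have h12a : Real.log 12 ≤ 3 := by
    rw [Real.log_le_iff_le_exp (by norm_num)]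
    have h1 := Real.exp_one_gt_d9
    have h2 : Real.exp 3 = Real.exp 1 * Real.exp 1 * Real.exp 1 := by
      rw [← Real.exp_add, ← Real.exp_add]; norm_num
    rw [h2]
    have h3 : (2.7 : ℝ) ≤ Real.exp 1 := by linarith
    have h4 : (7 : ℝ) ≤ Real.exp 1 * Real.exp 1 := by nlinarith
    nlinarith
  have h12b : 0 < Real.log 12 := Real.log_pos (by norm_num)
  obtain ⟨T, hT⟩ : ∃ T, T = 100 / 101 * (L - Real.log 12) := ⟨_, rfl⟩
  have hTa : 100 / 101 * (L - 3) ≤ T := by rw [hT]; linarith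
  have hTb : T ≤ 100 / 101 * L := by rw [hT]; linarith
  have hT0 : T0 ≤ T := by
    have h1 := le_abs_self T0
    have h2 := abs_nonneg T0
    linarith
  have hrp : ∀ u : ℝ, (n : ℝ) ^ u = Real.exp (L * u) := by
    intro u
    rw [Real.rpow_def_of_pos hnpos, ← hL]
  have hc : (m : ℝ) ≤ Real.exp (δ * T) := by
    refine hmn.trans ?_
    rw [hrp]
    apply Real.exp_le_exp.2
    have h1 : L * (min δ 1 / 2) ≤ L * (δ / 2) := by
      have h2 : min δ 1 ≤ δ := min_le_left _ _
      have : 0 ≤ L := by linarith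
      gcongr
    have h2 : δ * (L / 2) ≤ δ * T := by
      have : L / 2 ≤ T := by linarith
      gcongr
    linarith
  obtain ⟨B, hB⟩ : ∃ B, B = (n - d) / m := ⟨_, rfl⟩
  rw [← hB] at hpar
  have hBn : B ≤ n := by
    rw [hB]
    exact (Nat.div_le_self _ _).trans (Nat.sub_le _ _)
  obtain ⟨S, hS, hSn⟩ := hU T hT0 m d (-1) B (fun _ => floorPoly B) hd1 hdm hc (by norm_num)
    (by
      intro h1
      have h2 : (0 : ℤ) ≤ (m : ℤ) * (B : ℤ) := by positivity
      have h3 : (1 : ℤ) ≤ (d : ℤ) := by exact_mod_cast hd1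
      linarith)
    (by
      have h1 : |(((-1 : ℤ)) : ℝ)| = 1 := by norm_num
      rw [h1]
      exact Real.one_le_exp (by linarith))
    (by
      have h1 : |(((B : ℕ) : ℤ) : ℝ)| ≤ n := by
        rw [Int.cast_natCast, abs_of_nonneg (Nat.cast_nonneg B)]
        exact_mod_cast hBn
      refine h1.trans ?_
      rw [hnL]
      exact Real.exp_le_exp.2 (by linarith))
    (fun _ => floorPoly_deg B)
    (by
      intro p hp
      obtain ⟨t, h1, h2, h3⟩ := floor_adm m d B hcop hpar p hp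
      exact ⟨t, h1, h2, fun _ => h3⟩)
  have h101 : 3 * Real.exp (101 / 100 * T) = n / 4 := by
    rw [hT]
    have : 101 / 100 * (100 / 101 * (L - Real.log 12)) = L - Real.log 12 := by ring
    rw [this, Real.exp_sub, Real.exp_log (by norm_num), ← hnL]
    ring
  have h97 : (n : ℝ) ^ (97 / 100 : ℝ) ≤ Real.exp (98 / 100 * T) := by
    rw [hrp]
    exact Real.exp_le_exp.2 (by linarith)
  have hinj : Function.Injective fun t : ℕ => m * t + d := by
    intro x y hxy
    have h1 : m * x = m * y := Nat.add_right_cancel hxy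
    exact Nat.eq_of_mul_eq_mul_left (by omega) h1
  refine ⟨S.image fun t => m * t + d, ?_, ?_⟩
  · rw [Finset.card_image_of_injective S hinj]
    exact h97.trans hS.le
  intro p hpS
  obtain ⟨t, ht, rfl⟩ := Finset.mem_image.1 hpS
  obtain ⟨hp, -, hp2, he, hl, hm1, hm3⟩ := hSn t ht
  rw [h101] at hp2
  have hplt : m * t + d < n := by
    have : ((m * t + d : ℕ) : ℝ) < n := by linarith
    exact_mod_cast this
  have htB : t ≤ B := by
    rw [hB, Nat.le_div_iff_mul_le (by omega), mul_comm]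
    omega
  have hq : (n - (m * t + d)) / m = B - t := by
    have h1 : n - (m * t + d) = (n - d) - m * t := by omega
    rw [h1, Nat.sub_mul_div, hB]
  obtain ⟨q, hqB⟩ : ∃ q, B = t + q := ⟨B - t, by omega⟩
  have hqq : B - t = q := by omega
  have hz : (-1 : ℤ) * (t : ℤ) + (B : ℤ) = q := by
    rw [hqB]; push_cast; ring
  simp only [hz] at hl hm1 hm3
  rw [Int.natAbs_natCast] at hm1 hm3
  change (m * t + d).Prime ∧ m * t + d < n ∧ m * t + d ≡ d [MOD m] ∧
      1 < (n - (m * t + d)) / m ∧ ArithmeticFunction.cardFactors ((n - (m * t + d)) / m) ≤ 3 ∧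
      (∀ l : ℕ, l.Prime → l ∣ (n - (m * t + d)) / m → (n : ℝ) ^ (11 / 100 : ℝ) < l) ∧
      ArithmeticFunction.cardFactors (((n - (m * t + d)) / m) ^ 2 - 2) ≤ _
  rw [hq, hqq]
  refine ⟨hp, hplt, ?_, hm1, hm3, ?_, ?_⟩
  · unfold Nat.ModEq
    rw [Nat.mul_add_mod]
  · intro l hl1 hl2
    by_contra hcon
    push Not at hcon
    refine hl l hl1 (hcon.trans ?_) (by exact_mod_cast hl2)
    rw [hrp]
    exact Real.exp_le_exp.2 (by linarith)
  · -- the almost prime
    have hq4 : 4 ≤ q ^ 2 := by nlinarith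
    have hqn : q ≤ n := by omega
    have hcast : ((q ^ 2 - 2 : ℕ) : ℤ) = (q : ℤ) ^ 2 - 2 := by
      rw [Nat.cast_sub (by omega)]; push_cast; ring
    have h1 := floor_pow_omega (Real.exp (ε * T)) (Real.exp_pos _).le (m := q ^ 2 - 2) (by omega)
      (fun p hp hpd => by
        by_contra hcon
        push Not at hcon
        apply he 0 p hp hcon.le
        rw [floorPoly_eval]
        have h2 : (p : ℤ) ∣ ((q ^ 2 - 2 : ℕ) : ℤ) := Int.natCast_dvd_natCast.2 hpd
        rw [hcast] at h2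
        have h3 : (B : ℤ) - t = q := by rw [hqB]; push_cast; ring
        rwa [h3])
    have h2 : ((q ^ 2 - 2 : ℕ) : ℝ) ≤ Real.exp (2 * L) := by
      have h3 : ((q ^ 2 - 2 : ℕ) : ℝ) ≤ (q : ℝ) ^ 2 := by
        exact_mod_cast Nat.sub_le _ _
      have h4 : (q : ℝ) ≤ Real.exp L := by
        rw [← hnL]
        exact_mod_cast hqn
      have h5 : Real.exp (2 * L) = Real.exp L ^ 2 := by
        rw [← Real.exp_nat_mul]; norm_num
      rw [h5]
      exact h3.trans (pow_le_pow_left₀ (Nat.cast_nonneg _) h4 2)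
    have h3 := h1.trans h2
    rw [← Real.exp_nat_mul] at h3
    have h4 := Real.exp_le_exp.1 h3
    have h5 : ((ArithmeticFunction.cardFactors (q ^ 2 - 2) : ℕ) : ℝ) ≤ 4 / ε := by
      rw [le_div_iff₀ hε]
      by_contra hcon
      push Not at hcon
      have h6 : L / 2 ≤ T := by linarith
      have h7 : 0 < L / 2 := by linarith
      have h8 : 4 * (L / 2) < ((ArithmeticFunction.cardFactors (q ^ 2 - 2) : ℕ) : ℝ) * ε * (L / 2) :=
        mul_lt_mul_of_pos_right hcon h7
      have h9 : ((ArithmeticFunction.cardFactors (q ^ 2 - 2) : ℕ) : ℝ) * ε * (L / 2) ≤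
          ((ArithmeticFunction.cardFactors (q ^ 2 - 2) : ℕ) : ℝ) * ε * T := by gcongr
      linarith
    have h6 : ((ArithmeticFunction.cardFactors (q ^ 2 - 2) : ℕ) : ℝ) ≤ (⌈4 / ε⌉₊ : ℝ) :=
      h5.trans (Nat.le_ceil _)
    exact_mod_cast h6

theorem floor_div1 (m q s d : ℕ) (hs : s < m) (hd : d ≤ s) : (m * q + s - d) / m = q := by
  have h1 : m * q + s - d = (s - d) + m * q := by omega
  rw [h1, Nat.add_mul_div_left _ _ (by omega), Nat.div_eq_of_lt (by omega), zero_add]

theorem floor_div2 (m q s d : ℕ) (hq : 1 ≤ q) (hd : s < d) (hd' : d ≤ m) : (m * q + s - d) / m = q - 1 := by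
  obtain ⟨r, rfl⟩ := Nat.exists_eq_add_of_le' hq
  have h1 : m * (r + 1) + s - d = (m + s - d) + m * r := by
    rw [mul_add, mul_one]; omega
  rw [h1, Nat.add_mul_div_left _ _ (by omega), Nat.div_eq_of_lt (by omega)]
  omega

/-- for admissible pairs `(m, n)` there is a class with the right parity -/
theorem floorB (n m : ℕ) (hm : 1 ≤ m) (hn : 2 * m + 1 < n) (h1 : m = 1 → Even n) (h3 : m = 3 → n % 6 ≠ 1) :
    ∃ d : ℕ, 1 ≤ d ∧ d ≤ m ∧ d.Coprime m ∧ (Odd m → Even ((n - d) / m + d)) := by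
  by_cases hodd : Odd m
  · by_cases hm1 : m = 1
    · subst hm1
      refine ⟨1, le_rfl, le_rfl, Nat.coprime_one_left _, fun _ => ?_⟩
      have h2 := h1 rfl
      rw [Nat.even_iff] at h2 ⊢
      rw [Nat.div_one]
      omega
    by_cases hm3 : m = 3
    · subst hm3
      have h2 := h3 rfl
      by_cases h4 : n % 6 = 2 ∨ n % 6 = 3
      · refine ⟨2, by norm_num, by norm_num, by norm_num, fun _ => ?_⟩
        rw [Nat.even_iff]
        omega
      · refine ⟨1, by norm_num, by norm_num, by norm_num, fun _ => ?_⟩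
        rw [Nat.even_iff]
        omega
    have hodd2 := Nat.odd_iff.1 hodd
    have hm5 : 5 ≤ m := by omega
    obtain ⟨q, hq⟩ : ∃ q, q = n / m := ⟨_, rfl⟩
    obtain ⟨s, hs⟩ : ∃ s, s = n % m := ⟨_, rfl⟩
    have hsm : s < m := by rw [hs]; exact Nat.mod_lt _ (by omega)
    have hn' : n = m * q + s := by rw [hq, hs]; exact (Nat.div_add_mod n m).symm
    have hq1 : 1 ≤ q := by
      rw [hq, Nat.le_div_iff_mul_le (by omega)]
      omega
    have hc2 : Nat.Coprime 2 m := (Nat.coprime_two_left).2 hodd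
    rw [hn']
    rcases Nat.even_or_odd q with hqe | hqo
    · rw [Nat.even_iff] at hqe
      by_cases hs2 : 2 ≤ s
      · refine ⟨2, by norm_num, by omega, hc2, fun _ => ?_⟩
        rw [floor_div1 m q s 2 hsm hs2, Nat.even_iff]
        omega
      · by_cases hs0 : s = 0
        · refine ⟨1, le_rfl, hm, Nat.coprime_one_left _, fun _ => ?_⟩
          rw [floor_div2 m q s 1 hq1 (by omega) hm, Nat.even_iff]
          omega
        · refine ⟨m - 2, by omega, by omega, ?_, fun _ => ?_⟩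
          · rw [Nat.coprime_iff_gcd_eq_one]
            have h5 : Nat.gcd (m - 2) m = Nat.gcd (m - 2) 2 := by
              have h6 : m = 2 + (m - 2) := by omega
              conv_lhs => rw [h6]
              rw [show 2 + (m - 2) - 2 = m - 2 by omega, Nat.gcd_add_self_right]
            rw [h5, ← Nat.coprime_iff_gcd_eq_one, Nat.coprime_two_right, Nat.odd_iff]
            omega
          · rw [floor_div2 m q s (m - 2) hq1 (by omega) (by omega), Nat.even_iff]
            omega
    · rw [Nat.odd_iff] at hqo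
      by_cases hs1 : 1 ≤ s
      · refine ⟨1, le_rfl, hm, Nat.coprime_one_left _, fun _ => ?_⟩
        rw [floor_div1 m q s 1 hsm hs1, Nat.even_iff]
        omega
      · refine ⟨2, by norm_num, by omega, hc2, fun _ => ?_⟩
        rw [floor_div2 m q s 2 hq1 (by omega) (by omega), Nat.even_iff]
        omega
  · exact ⟨1, le_rfl, hm, Nat.coprime_one_left _, fun h => absurd h hodd⟩

end Pool.Agent.H536.OC
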