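import Mathlib

open Finset

/-! Statements for the subtasks on primitive roots (helper536). -/

namespace Pool.Agent.H536.OC

/-- the conditions of the problem on the prime `q` apart from the Frobenius condition: `W` consists of
`q`-units and the index of its image in `(ℤ/q)ˣ` divides `k` -/
def Admits (W : Subgroup ℚˣ) (k q : ℕ) : Prop :=
  (∀ w ∈ W, padicValRat q (w : ℚ) = 0) ∧
  (Subgroup.closure {u : (ZMod q)ˣ | ∃ w ∈ W,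
      (((w : ℚ).num : ℤ) : ZMod q) = (u : ZMod q) * (((w : ℚ).den : ℕ) : ZMod q)}).index ∣ k

/-- multiplicative independence -/
def MI {r : ℕ} (w : Fin r → ℚˣ) : Prop := ∀ j : Fin r → ℤ, ∏ i, w i ^ j i = 1 → j = 0

/-- the products with the exponents `(2 t) ^ i` -/
def vdm {r : ℕ} {G : Type} [CommGroup G] (w : Fin r → G) (t : ℕ) : G := ∏ i, w i ^ ((2 * t) ^ (i : ℕ))

/-- few primes modulo which the elements `w i` generate a small group (Gupta, Murty) -/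
def S_GM : Prop := ∀ (r : ℕ) (w : Fin r → ℚˣ), 1 ≤ r → MI w → ∃ C : ℝ, 0 < C ∧ ∀ y : ℝ, 1 ≤ y → ∀ Q : Finset ℕ,
  (∀ p ∈ Q, p.Prime ∧ ∃ N : ℕ, 0 < N ∧ (N : ℝ) ≤ y ∧ ∀ i, (((w i : ℚ).num : ℤ) : ZMod p) ≠ 0 ∧
    (((w i : ℚ).den : ℕ) : ZMod p) ≠ 0 ∧ (((w i : ℚ).num : ℤ) : ZMod p) ^ N = (((w i : ℚ).den : ℕ) : ZMod p) ^ N) →
  (Q.card : ℝ) ≤ C * y ^ (1 + 1 / (r : ℝ))

open Classical in
/-- Vandermonde: at most eleven of the products are `l`-th powers, if not all the `u i` are -/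
def S_VD : Prop := ∀ (p l : ℕ) [Fact p.Prime], l.Prime → l ∣ p - 1 → 68 < l → ∀ u : Fin 12 → (ZMod p)ˣ,
  (∃ i, u i ^ ((p - 1) / l) ≠ 1) → ((Icc 1 34).filter (fun t : ℕ => vdm u t ^ ((p - 1) / l) = 1)).card ≤ 11

/-- the index -/
def S_ind : Prop := ∀ (p g n k : ℕ) [Fact p.Prime] (a : (ZMod p)ˣ), p - 1 = g * n → 0 < n →
  (∀ l : ℕ, l.Prime → l ∣ n → a ^ ((p - 1) / l) ≠ 1) →
  (g ∣ k ∨ ((∃ j : ℕ, g ∣ 2 ^ j * k) ∧ ∀ u : ZMod p, (a : ZMod p) ≠ u ^ 2)) →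
  (Subgroup.zpowers a).index ∣ k

/-- Lenstra's sets for one of the products, uniformly in the modulus -/
def S_Len : Prop := ∃ δ : ℝ, 0 < δ ∧ ∀ w : Fin 12 → ℚˣ, MI w → ∃ X0 : ℕ, ∀ X : ℕ, X0 ≤ X →
  ∀ f e k : ℕ, 2 ∣ f → 0 < f → (f : ℝ) ≤ (X : ℝ) ^ δ → e.Coprime f →
  (Nat.gcd (e - 1) f ∣ k ∨ ((∃ j : ℕ, Nat.gcd (e - 1) f ∣ 2 ^ j * k) ∧
    ∀ q : ℕ, q.Prime → q ≡ e [MOD f] → ∀ u : ZMod q, (((w 0 : ℚ).num : ℤ) : ZMod q) ≠ u ^ 2 * (((w 0 : ℚ).den : ℕ) : ZMod q))) →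
  ∃ t ∈ Icc 1 34, ∃ S : Finset ℕ, (X : ℝ) ^ (97 / 100 : ℝ) ≤ S.card ∧
    ∀ q ∈ S, q.Prime ∧ q ≤ X ∧ (X : ℝ) ^ (97 / 100 : ℝ) ≤ q ∧ q ≡ e [MOD f] ∧ Admits (Subgroup.zpowers (vdm w t)) k q

end Pool.Agent.H536.OC
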