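import Mathlib
import Pool.Agent.H536.OC.Wa

open Finset Filter Topology

/-! Subtask (helper536): few primes modulo which `r` independent rationals generate a small group. -/

namespace Pool.Agent.H536.OC

namespace GML

/-- the difference whose prime factors are counted -/
def D {r : ℕ} (a b : Fin r → ℤ) (c : Fin r → ℤ) : ℤ :=
  ∏ i, a i ^ (c i).toNat * b i ^ (-(c i)).toNat - ∏ i, a i ^ (-(c i)).toNat * b i ^ (c i).toNat

theorem one_fac {F : Type} [Field F] {a b : F} (ha : a ≠ 0) (hb : b ≠ 0) (c : ℤ) :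
    (a / b) ^ c * (a ^ (-c).toNat * b ^ c.toNat) = a ^ c.toNat * b ^ (-c).toNat := by
  rcases le_total 0 c with h | h
  · obtain ⟨n, rfl⟩ := Int.eq_ofNat_of_zero_le h
    have e1 : ((n : ℤ)).toNat = n := Int.toNat_natCast n
    have e2 : (-(n : ℤ)).toNat = 0 := by omega
    rw [e1, e2, pow_zero, pow_zero, zpow_natCast, div_pow]
    field_simp
  · obtain ⟨n, hn⟩ := Int.eq_ofNat_of_zero_le (neg_nonneg.2 h)
    have hc : c = -(n : ℤ) := by omega
    subst hc
    have e1 : (-(n : ℤ)).toNat = 0 := by omega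
    have e2 : (-(-(n : ℤ))).toNat = n := by omega
    rw [e1, e2, pow_zero, pow_zero, zpow_neg, zpow_natCast, div_pow]
    field_simp

theorem prod_fac {F : Type} [Field F] {r : ℕ} (a b : Fin r → ℤ) (ha : ∀ i, (a i : F) ≠ 0)
    (hb : ∀ i, (b i : F) ≠ 0) (c : Fin r → ℤ) :
    (∏ i, ((a i : F) / (b i : F)) ^ c i) * (∏ i, (a i : F) ^ (-(c i)).toNat * (b i : F) ^ (c i).toNat) =
      ∏ i, (a i : F) ^ (c i).toNat * (b i : F) ^ (-(c i)).toNat := by
  rw [← Finset.prod_mul_distrib]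
  exact Finset.prod_congr rfl fun i _ => one_fac (ha i) (hb i) (c i)

theorem cast_D {F : Type} [Field F] {r : ℕ} (a b : Fin r → ℤ) (c : Fin r → ℤ) :
    ((D a b c : ℤ) : F) = (∏ i, (a i : F) ^ (c i).toNat * (b i : F) ^ (-(c i)).toNat) -
      ∏ i, (a i : F) ^ (-(c i)).toNat * (b i : F) ^ (c i).toNat := by
  unfold D
  push_cast
  rfl

theorem iff_D {F : Type} [Field F] {r : ℕ} (a b : Fin r → ℤ) (ha : ∀ i, (a i : F) ≠ 0)
    (hb : ∀ i, (b i : F) ≠ 0) (c : Fin r → ℤ) :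
    ∏ i, ((a i : F) / (b i : F)) ^ c i = 1 ↔ ((D a b c : ℤ) : F) = 0 := by
  have h := prod_fac a b ha hb c
  rw [cast_D, ← h]
  have hne : (∏ i, (a i : F) ^ (-(c i)).toNat * (b i : F) ^ (c i).toNat) ≠ 0 :=
    Finset.prod_ne_zero_iff.2 fun i _ => mul_ne_zero (pow_ne_zero _ (ha i)) (pow_ne_zero _ (hb i))
  constructor
  · intro h1
    rw [h1, one_mul, sub_self]
  · intro h1
    have h2 : (∏ i, ((a i : F) / (b i : F)) ^ c i) *
        (∏ i, (a i : F) ^ (-(c i)).toNat * (b i : F) ^ (c i).toNat) =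
        1 * (∏ i, (a i : F) ^ (-(c i)).toNat * (b i : F) ^ (c i).toNat) := by
      rw [one_mul]
      exact sub_eq_zero.1 h1
    exact mul_right_cancel₀ hne h2

theorem term_le {H : ℤ} (hH : 1 ≤ H) {r E : ℕ} (a b : Fin r → ℤ) (ha : ∀ i, |a i| ≤ H)
    (hb : ∀ i, |b i| ≤ H) (m n : Fin r → ℕ) (hmn : ∀ i, m i + n i ≤ E) :
    |∏ i, a i ^ m i * b i ^ n i| ≤ (H ^ E) ^ r := by
  rw [Finset.abs_prod]
  have h1 : ∀ i ∈ (Finset.univ : Finset (Fin r)), |a i ^ m i * b i ^ n i| ≤ H ^ E := by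
    intro i _
    rw [abs_mul, abs_pow, abs_pow]
    calc |a i| ^ m i * |b i| ^ n i ≤ H ^ m i * H ^ n i :=
          mul_le_mul (pow_le_pow_left₀ (abs_nonneg _) (ha i) _)
            (pow_le_pow_left₀ (abs_nonneg _) (hb i) _) (pow_nonneg (abs_nonneg _) _)
            (pow_nonneg (by omega) _)
      _ = H ^ (m i + n i) := (pow_add _ _ _).symm
      _ ≤ H ^ E := pow_le_pow_right₀ hH (hmn i)
  refine (Finset.prod_le_prod (fun i _ => abs_nonneg _) h1).trans (le_of_eq ?_)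
  rw [Finset.prod_const, Finset.card_univ, Fintype.card_fin]

theorem D_le {h r E : ℕ} (a b : Fin r → ℤ) (ha : ∀ i, |a i| ≤ 2 ^ h)
    (hb : ∀ i, |b i| ≤ 2 ^ h) (c : Fin r → ℤ) (hc : ∀ i, |c i| ≤ E) :
    |D a b c| ≤ 2 ^ (1 + h * E * r) := by
  have hH : (1 : ℤ) ≤ 2 ^ h := one_le_pow₀ (by norm_num)
  have h1 := term_le (E := E) hH a b ha hb (fun i => (c i).toNat) (fun i => (-(c i)).toNat)
    (fun i => by
      have := abs_le.1 (hc i)
      omega)
  have h2 := term_le (E := E) hH a b ha hb (fun i => (-(c i)).toNat) (fun i => (c i).toNat)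
    (fun i => by
      have := abs_le.1 (hc i)
      omega)
  have e : (2 : ℤ) ^ (1 + h * E * r) = (((2 : ℤ) ^ h) ^ E) ^ r + (((2 : ℤ) ^ h) ^ E) ^ r := by
    rw [← pow_mul, ← pow_mul, pow_add]
    ring
  rw [e]
  unfold D
  exact (abs_sub _ _).trans (add_le_add h1 h2)

theorem card_pf {n k : ℕ} (hn : n ≠ 0) (h : n ≤ 2 ^ k) : n.primeFactors.card ≤ k := by
  have h1 : ∏ p ∈ n.primeFactors, p ≤ n := Nat.le_of_dvd (Nat.pos_of_ne_zero hn)
    (Nat.prod_primeFactors_dvd n)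
  have h2 : 2 ^ n.primeFactors.card ≤ ∏ p ∈ n.primeFactors, p :=
    Finset.pow_card_le_prod _ _ _ fun p hp => (Nat.prime_of_mem_primeFactors hp).two_le
  exact (Nat.pow_le_pow_iff_right (by norm_num)).1 ((h2.trans h1).trans h)

theorem pigeon {p : ℕ} (hp : p.Prime) {r N E : ℕ} (hN : 0 < N) (hE : N < (E + 1) ^ r)
    (a b : Fin r → ℤ) (ha : ∀ i, ((a i : ℤ) : ZMod p) ≠ 0) (hb : ∀ i, ((b i : ℤ) : ZMod p) ≠ 0)
    (hab : ∀ i, ((a i : ℤ) : ZMod p) ^ N = ((b i : ℤ) : ZMod p) ^ N) :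
    ∃ c : Fin r → ℤ, c ≠ 0 ∧ (∀ i, |c i| ≤ E) ∧ (p : ℤ) ∣ D a b c := by
  have : Fact p.Prime := ⟨hp⟩
  classical
  set x : Fin r → ZMod p := fun i => (a i : ZMod p) / (b i : ZMod p) with hx
  have hx0 : ∀ i, x i ≠ 0 := fun i => div_ne_zero (ha i) (hb i)
  have hxN : ∀ i, x i ^ N = 1 := fun i => by
    rw [hx]
    simp only
    rw [div_pow, hab, div_self (pow_ne_zero _ (hb i))]
  set f : (Fin r → Fin (E + 1)) → ZMod p := fun e => ∏ i, x i ^ (e i : ℕ) with hf
  have hmap : Set.MapsTo f ((Finset.univ : Finset (Fin r → Fin (E + 1))) : Set _)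
      ((Polynomial.nthRoots N (1 : ZMod p)).toFinset : Set (ZMod p)) := by
    intro e _
    rw [Finset.mem_coe, Multiset.mem_toFinset, Polynomial.mem_nthRoots hN, hf]
    simp only
    rw [← Finset.prod_pow]
    refine Finset.prod_eq_one fun i _ => ?_
    rw [← pow_mul, mul_comm, pow_mul, hxN, one_pow]
  have hcard : (Polynomial.nthRoots N (1 : ZMod p)).toFinset.card <
      (Finset.univ : Finset (Fin r → Fin (E + 1))).card := by
    refine lt_of_le_of_lt ((Multiset.toFinset_card_le _).trans (Polynomial.card_nthRoots N 1)) ?_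
    rw [Finset.card_univ, Fintype.card_pi_const, Fintype.card_fin]
    exact hE
  obtain ⟨e, _, e', _, hne, hee⟩ := Finset.exists_ne_map_eq_of_card_lt_of_maps_to hcard hmap
  refine ⟨fun i => ((e i : ℕ) : ℤ) - ((e' i : ℕ) : ℤ), ?_, ?_, ?_⟩
  · intro h0
    refine hne ?_
    funext i
    have h1 := congrFun h0 i
    simp only [Pi.zero_apply] at h1
    exact Fin.ext (by omega)
  · intro i
    have h1 := (e i).isLt
    have h2 := (e' i).isLt
    show |((e i : ℕ) : ℤ) - ((e' i : ℕ) : ℤ)| ≤ E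
    rw [abs_le]
    constructor <;> omega
  · rw [← ZMod.intCast_zmod_eq_zero_iff_dvd] 
    rw [← iff_D a b ha hb]
    have h1 : ∀ i, (((a i : ℤ) : ZMod p) / ((b i : ℤ) : ZMod p)) ^ (((e i : ℕ) : ℤ) - ((e' i : ℕ) : ℤ)) =
        x i ^ (e i : ℕ) * (x i ^ (e' i : ℕ))⁻¹ := by
      intro i
      rw [zpow_sub₀ (hx0 i), zpow_natCast, zpow_natCast, div_eq_mul_inv]
    rw [Finset.prod_congr rfl fun i _ => h1 i, Finset.prod_mul_distrib, Finset.prod_inv_distrib]
    have h2 : ∏ i, x i ^ (e i : ℕ) = ∏ i, x i ^ (e' i : ℕ) := hee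
    rw [h2]
    exact mul_inv_cancel₀ (Finset.prod_ne_zero_iff.2 fun i _ => pow_ne_zero _ (hx0 i))

end GML

open GML in
theorem gm : S_GM := by
  intro r w hr hMI
  classical
  set a : Fin r → ℤ := fun i => (w i : ℚ).num with ha
  set b : Fin r → ℤ := fun i => ((w i : ℚ).den : ℤ) with hb
  -- a bound for the heights
  obtain ⟨h, hh⟩ : ∃ h : ℕ, ∀ i, |a i| ≤ 2 ^ h ∧ |b i| ≤ 2 ^ h := by
    refine ⟨∑ i, ((a i).natAbs + (b i).natAbs), fun i => ?_⟩
    have h1 : (a i).natAbs + (b i).natAbs ≤ ∑ i, ((a i).natAbs + (b i).natAbs) :=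
      Finset.single_le_sum (f := fun i => (a i).natAbs + (b i).natAbs) (fun _ _ => Nat.zero_le _)
        (Finset.mem_univ i)
    have h2 : ∑ i, ((a i).natAbs + (b i).natAbs) ≤ 2 ^ (∑ i, ((a i).natAbs + (b i).natAbs)) :=
      Nat.lt_two_pow_self.le
    have h3 : (((∑ i, ((a i).natAbs + (b i).natAbs) : ℕ) : ℕ) : ℤ) ≤
        2 ^ (∑ i, ((a i).natAbs + (b i).natAbs)) := by exact_mod_cast h2
    have h4 : (((a i).natAbs + (b i).natAbs : ℕ) : ℤ) ≤ ((∑ i, ((a i).natAbs + (b i).natAbs) : ℕ) : ℤ) := by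
      exact_mod_cast h1
    rw [Int.abs_eq_natAbs, Int.abs_eq_natAbs]
    push_cast at h4 h3 ⊢
    constructor
    · refine le_trans ?_ h3
      refine le_trans ?_ h4
      have := abs_nonneg (b i)
      linarith
    · refine le_trans ?_ h3
      refine le_trans ?_ h4
      have := abs_nonneg (a i)
      linarith
  have hr0 : (0 : ℝ) < r := by exact_mod_cast hr
  refine ⟨3 ^ r * (1 + h * r), by positivity, fun y hy Q hQ => ?_⟩
  set E : ℕ := ⌊y ^ (1 / (r : ℝ))⌋₊ with hE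
  have hy0 : 0 < y := lt_of_lt_of_le one_pos hy
  have hyr : (1 : ℝ) ≤ y ^ (1 / (r : ℝ)) := Real.one_le_rpow hy (by positivity)
  have hE1 : 1 ≤ E := Nat.one_le_floor_iff _ |>.2 hyr 
  have hEle : (E : ℝ) ≤ y ^ (1 / (r : ℝ)) := Nat.floor_le (by positivity)
  have hpow : (y ^ (1 / (r : ℝ))) ^ r = y := by
    rw [← Real.rpow_natCast, ← Real.rpow_mul hy0.le, one_div, inv_mul_cancel₀ hr0.ne', Real.rpow_one]
  have hElt : y < ((E + 1 : ℕ) : ℝ) ^ r := by
    have h1 : y ^ (1 / (r : ℝ)) < ((E + 1 : ℕ) : ℝ) := by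
      push_cast
      exact Nat.lt_floor_add_one _
    calc y = (y ^ (1 / (r : ℝ))) ^ r := hpow.symm
      _ < _ := pow_lt_pow_left₀ h1 (by positivity) (by omega)
  set cs : Finset (Fin r → ℤ) := (Fintype.piFinset fun _ : Fin r => Finset.Icc (-(E : ℤ)) E).filter
    (fun c => c ≠ 0) with hcs
  -- the differences do not vanish
  have hD0 : ∀ c : Fin r → ℤ, c ≠ 0 → D a b c ≠ 0 := by
    intro c hc h0
    refine hc (hMI c ?_)
    have ha' : ∀ i, ((a i : ℤ) : ℚ) ≠ 0 := fun i => by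
      rw [ha]
      exact_mod_cast Rat.num_ne_zero.2 (w i).ne_zero
    have hb' : ∀ i, ((b i : ℤ) : ℚ) ≠ 0 := fun i => by
      have h1 := (w i : ℚ).den_nz
      simp only [hb]
      exact_mod_cast h1
    have h1 := (iff_D (F := ℚ) a b ha' hb' c).2 (by rw [h0]; simp)
    apply Units.ext
    rw [Units.val_one, ← h1, Units.coe_prod]
    refine Finset.prod_congr rfl fun i _ => ?_
    rw [Units.val_zpow_eq_zpow_val]
    congr 1
    rw [ha, hb]
    simp only [Int.cast_natCast]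
    exact (Rat.num_div_den (w i : ℚ)).symm
  have hsub : Q ⊆ cs.biUnion fun c => (D a b c).natAbs.primeFactors := by
    intro p hp
    obtain ⟨hpp, N, hN0, hNy, hN⟩ := hQ p hp
    have hNE : N < (E + 1) ^ r := by
      have : (N : ℝ) < ((E + 1 : ℕ) : ℝ) ^ r := lt_of_le_of_lt hNy hElt
      exact_mod_cast this
    obtain ⟨c, hc0, hcE, hcD⟩ := pigeon hpp hN0 hNE a b (fun i => (hN i).1)
      (fun i => by
        have := (hN i).2.1
        rw [hb]
        simpa using this)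
      (fun i => by
        have := (hN i).2.2
        rw [hb]
        simpa using this)
    rw [Finset.mem_biUnion]
    refine ⟨c, ?_, ?_⟩
    · rw [hcs, Finset.mem_filter, Fintype.mem_piFinset]
      exact ⟨fun i => Finset.mem_Icc.2 (abs_le.1 (hcE i)), hc0⟩
    · rw [Nat.mem_primeFactors]
      exact ⟨hpp, Int.natCast_dvd.1 hcD, Int.natAbs_ne_zero.2 (hD0 c hc0)⟩
  have hcard1 : Q.card ≤ cs.card * (1 + h * E * r) := by
    refine (Finset.card_le_card hsub).trans (Finset.card_biUnion_le_card_mul _ _ _ fun c hc => ?_)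
    rw [hcs, Finset.mem_filter, Fintype.mem_piFinset] at hc
    have h1 := D_le (h := h) (E := E) a b (fun i => (hh i).1) (fun i => (hh i).2) c
      (fun i => abs_le.2 (Finset.mem_Icc.1 (hc.1 i)))
    refine card_pf (Int.natAbs_ne_zero.2 (hD0 c hc.2)) ?_
    have h2 : (((D a b c).natAbs : ℕ) : ℤ) ≤ ((2 ^ (1 + h * E * r) : ℕ) : ℤ) := by
      push_cast
      exact h1
    exact_mod_cast h2
  have hcard2 : cs.card ≤ (2 * E + 1) ^ r := by
    refine (Finset.card_filter_le _ _).trans (le_of_eq ?_)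
    rw [Fintype.card_piFinset, Finset.prod_const, Finset.card_univ, Fintype.card_fin, Int.card_Icc]
    congr 1
    omega
  have hcard3 : (Q.card : ℝ) ≤ ((2 * E + 1 : ℕ) : ℝ) ^ r * (1 + h * E * r) := by
    have h1 : Q.card ≤ (2 * E + 1) ^ r * (1 + h * E * r) :=
      hcard1.trans (Nat.mul_le_mul_right _ hcard2)
    exact_mod_cast h1
  refine hcard3.trans ?_
  have hEr : (1 : ℝ) ≤ E := by exact_mod_cast hE1
  have h5 : ((2 * E + 1 : ℕ) : ℝ) ^ r ≤ 3 ^ r * y := by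
    have h6 : ((2 * E + 1 : ℕ) : ℝ) ≤ 3 * y ^ (1 / (r : ℝ)) := by
      push_cast
      linarith
    calc ((2 * E + 1 : ℕ) : ℝ) ^ r ≤ (3 * y ^ (1 / (r : ℝ))) ^ r :=
          pow_le_pow_left₀ (by positivity) h6 r
      _ = 3 ^ r * y := by rw [mul_pow, hpow]
  have h7 : (1 : ℝ) + h * E * r ≤ (1 + h * r) * y ^ (1 / (r : ℝ)) := by
    have h8 : (h : ℝ) * E * r ≤ h * r * y ^ (1 / (r : ℝ)) := by
      have : (h : ℝ) * E * r = h * r * E := by ring
      rw [this]
      exact mul_le_mul_of_nonneg_left hEle (by positivity)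
    linarith
  calc ((2 * E + 1 : ℕ) : ℝ) ^ r * (1 + h * E * r) ≤
        (3 ^ r * y) * ((1 + h * r) * y ^ (1 / (r : ℝ))) :=
        mul_le_mul h5 h7 (by positivity) (by positivity)
    _ = 3 ^ r * (1 + h * r) * y ^ (1 + 1 / (r : ℝ)) := by
        rw [Real.rpow_add hy0, Real.rpow_one]
        ring

end Pool.Agent.H536.OC
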