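import Mathlib
import Pool.Agent.H536.OC.Wc

open Finset Filter Topology

/-! Subtask (helper536). -/

namespace Pool.Agent.H536.OC

/-- admissibility -/
theorem gold_adm (N q b d : ℕ) (hN : Even N) (hd : d ≡ b [MOD q])
    (hbq : b.Coprime q) (hNb : ((N : ℤ) - b).gcd q = 1) (p : ℕ) (hp : p.Prime) :
    ∃ n : ℕ, ¬ p ∣ q * n + d ∧ ¬ (p : ℤ) ∣ -(q : ℤ) * n + ((N : ℤ) - d) := by
  by_cases hpq : p ∣ q
  · refine ⟨0, ?_, ?_⟩
    · intro h
      rw [mul_zero, zero_add] at h
      have h1 : d.gcd q = 1 := (Nat.ModEq.gcd_eq hd).trans hbq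
      have h2 := Nat.dvd_gcd h hpq
      rw [h1] at h2
      exact hp.one_lt.ne' (Nat.dvd_one.1 h2)
    · intro h
      have h1 : (q : ℤ) ∣ (b : ℤ) - d := (Nat.modEq_iff_dvd.1 hd)
      have h2 : (p : ℤ) ∣ (b : ℤ) - d := (Int.natCast_dvd_natCast.2 hpq).trans h1
      have h3 : (p : ℤ) ∣ (N : ℤ) - b := by
        have h4 : (N : ℤ) - b = (-(q : ℤ) * ((0 : ℕ) : ℤ) + ((N : ℤ) - d)) - ((b : ℤ) - d) := by
          push_cast; ring
        rw [h4]
        exact h.sub h2
      have h5 := Int.dvd_coe_gcd h3 (Int.natCast_dvd_natCast.2 hpq)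
      rw [hNb] at h5
      have h6 : p ∣ 1 := by exact_mod_cast h5
      exact hp.one_lt.ne' (Nat.dvd_one.1 h6)
  · have := Fact.mk hp
    have hq0 : (q : ZMod p) ≠ 0 := by
      rw [Ne, ZMod.natCast_eq_zero_iff]
      exact hpq
    -- a value `v` different from `0` and `N`
    obtain ⟨v, hv0, hvN⟩ : ∃ v : ZMod p, v ≠ 0 ∧ v ≠ (N : ZMod p) := by
      by_cases h1 : (N : ZMod p) = 1
      · refine ⟨2, ?_, ?_⟩
        · intro h2
          have h3 : p ∣ 2 := by
            rw [← ZMod.natCast_eq_zero_iff]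
            exact_mod_cast h2
          have h4 : p = 2 := (Nat.prime_dvd_prime_iff_eq hp Nat.prime_two).1 h3
          subst h4
          have h5 : (N : ZMod 2) = 0 := by
            rw [ZMod.natCast_eq_zero_iff]
            exact hN.two_dvd
          rw [h5] at h1
          exact zero_ne_one h1
        · rw [h1]
          intro h2
          have h3 : (1 : ZMod p) = 0 := by linear_combination h2
          exact one_ne_zero h3
      · exact ⟨1, one_ne_zero, fun h => h1 h.symm⟩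
    refine ⟨((v - d) * (q : ZMod p)⁻¹).val, ?_, ?_⟩
    · intro h
      rw [← ZMod.natCast_eq_zero_iff] at h
      push_cast at h
      rw [ZMod.natCast_zmod_val] at h
      apply hv0
      rw [← h]
      field_simp
      ring
    · intro h
      rw [← ZMod.intCast_zmod_eq_zero_iff_dvd] at h
      push_cast at h
      rw [ZMod.natCast_zmod_val] at h
      apply hvN
      have h2 : -(q : ZMod p) * ((v - d) * (q : ZMod p)⁻¹) = -(v - d) := by
        field_simp
      rw [h2] at h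
      linear_combination -h

/-- Goldbach with `P₃` and primes in progressions to power moduli, many representations -/
theorem gold2 (h : S_U3c) : ∃ δ : ℝ, 0 < δ ∧ ∃ N0 : ℕ, ∀ N : ℕ, N0 ≤ N → Even N → ∀ q b : ℕ, 1 ≤ q → (q : ℝ) ≤ (N : ℝ) ^ δ →
    b.Coprime q → (((N : ℤ) - b).gcd q = 1) → ∃ S : Finset ℕ, (N : ℝ) ^ (97 / 100 : ℝ) ≤ S.card ∧
    ∀ p ∈ S, p.Prime ∧ p ≡ b [MOD q] ∧ (N : ℝ) ^ (97 / 100 : ℝ) ≤ p ∧ 2 * p < N ∧
      ArithmeticFunction.cardFactors (N - p) ≤ 3 ∧ ∀ l : ℕ, l.Prime → l ∣ N - p → (N : ℝ) ^ (11 / 100 : ℝ) < l := by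
  obtain ⟨δ, ε, T0, hδ, hε, hU⟩ := h 1
  have hm : 0 < min δ (1 / 500) := lt_min hδ (by norm_num)
  refine ⟨min δ (1 / 500) / 2, by positivity, ⌈Real.exp (max 20000 (2 * |T0| + 4))⌉₊, ?_⟩
  intro N hN hNe q b hq hqN hbq hNb
  have hN1 : Real.exp (max 20000 (2 * |T0| + 4)) ≤ N := (Nat.le_ceil _).trans (by exact_mod_cast hN)
  have hNpos : (0 : ℝ) < N := (Real.exp_pos _).trans_le hN1
  obtain ⟨L, hL⟩ : ∃ L, L = Real.log N := ⟨_, rfl⟩
  have hNL : (N : ℝ) = Real.exp L := by rw [hL, Real.exp_log hNpos]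
  have hL1 : max 20000 (2 * |T0| + 4) ≤ L := by
    rw [hL]
    exact (Real.le_log_iff_exp_le hNpos).2 hN1
  have hL500 : 20000 ≤ L := (le_max_left _ _).trans hL1
  have hLT : 2 * |T0| + 4 ≤ L := (le_max_right _ _).trans hL1
  have h7a : Real.log 7 ≤ 2 := by
    rw [Real.log_le_iff_le_exp (by norm_num)]
    have h1 := Real.exp_one_gt_d9
    have h2 : Real.exp 2 = Real.exp 1 * Real.exp 1 := by rw [← Real.exp_add]; norm_num
    rw [h2]
    nlinarith
  have h7b : 0 < Real.log 7 := Real.log_pos (by norm_num)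
  obtain ⟨T, hT⟩ : ∃ T, T = 100 / 101 * (L - Real.log 7) := ⟨_, rfl⟩
  have hTa : 100 / 101 * (L - 2) ≤ T := by rw [hT]; linarith
  have hTb : T ≤ 100 / 101 * L := by rw [hT]; linarith
  have hT0 : T0 ≤ T := by
    have h1 := le_abs_self T0
    have h2 := abs_nonneg T0
    linarith
  have hrp : ∀ a : ℝ, (N : ℝ) ^ a = Real.exp (L * a) := by
    intro a
    rw [Real.rpow_def_of_pos hNpos, ← hL]
  rw [hrp] at hqN
  have hqL : ∀ a : ℝ, min δ (1 / 500) ≤ a → (q : ℝ) ≤ Real.exp (a * T) := by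
    intro a ha
    refine hqN.trans (Real.exp_le_exp.2 ?_)
    have ha0 : 0 < a := hm.trans_le ha
    have h1 : L * (min δ (1 / 500) / 2) ≤ L * (a / 2) := by
      have : 0 ≤ L := by linarith
      gcongr
    have h2 : a * (L / 2) ≤ a * T := by
      have : L / 2 ≤ T := by linarith
      gcongr
    linarith
  -- the representative of `b`
  obtain ⟨d, hd1, hdq, hd⟩ : ∃ d : ℕ, 1 ≤ d ∧ d ≤ q ∧ d ≡ b [MOD q] := by
    by_cases h0 : b % q = 0
    · refine ⟨q, hq, le_rfl, ?_⟩
      unfold Nat.ModEq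
      rw [Nat.mod_self, h0]
    · exact ⟨b % q, Nat.one_le_iff_ne_zero.2 h0, (Nat.mod_lt _ (by omega)).le, Nat.mod_modEq _ _⟩
  have hqN2 : (q : ℝ) ≤ N := by
    rw [hNL]
    refine hqN.trans (Real.exp_le_exp.2 ?_)
    have h1 : min δ (1 / 500) ≤ 1 / 500 := min_le_right _ _
    nlinarith
  have hdN : d ≤ N := by
    have : q ≤ N := by exact_mod_cast hqN2
    omega
  obtain ⟨S, hS, hSn⟩ := hU T hT0 q d (fun _ => -(q : ℤ)) (fun _ => (N : ℤ) - d)
    0 hd1 hdq (hqL δ (min_le_left _ _)) (by simp; omega)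
    (by
      intro h1
      have h2 : (q : ℤ) * N = 0 := by linear_combination h1
      rcases mul_eq_zero.1 h2 with h3 | h3
      · have : q = 0 := by exact_mod_cast h3
        omega
      · have : (N : ℝ) = 0 := by exact_mod_cast h3
        linarith)
    (by
      have h1 : |((-(q : ℤ) : ℤ) : ℝ)| = q := by
        push_cast
        rw [abs_neg, abs_of_nonneg (Nat.cast_nonneg q)]
      rw [h1]
      have h2 := hqL (1 / 500) (min_le_right _ _)
      rwa [one_div_mul_eq_div] at h2)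
    (by
      have h0 : ((d : ℕ) : ℝ) ≤ N := by exact_mod_cast hdN
      have h1 : |(((N : ℤ) - (d : ℤ) : ℤ) : ℝ)| ≤ N := by
        push_cast
        rw [abs_of_nonneg (by linarith)]
        have : (0 : ℝ) ≤ d := Nat.cast_nonneg d
        linarith
      refine h1.trans ?_
      rw [hNL]
      exact Real.exp_le_exp.2 (by linarith))
    (by
      intro p hp
      obtain ⟨n, h1, h2⟩ := gold_adm N q b d hNe hd hbq hNb p hp
      exact ⟨n, h1, fun _ => h2⟩)
  have h101 : Real.exp (101 / 100 * T) = N / 7 := by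
    rw [hT]
    have : 101 / 100 * (100 / 101 * (L - Real.log 7)) = L - Real.log 7 := by ring
    rw [this, Real.exp_sub, Real.exp_log (by norm_num), ← hNL]
  have hinj : Function.Injective fun n : ℕ => q * n + d := by
    intro x y hxy
    have h1 : q * x = q * y := Nat.add_right_cancel hxy
    exact Nat.eq_of_mul_eq_mul_left (by omega) h1
  have h97 : (N : ℝ) ^ (97 / 100 : ℝ) ≤ Real.exp (98 / 100 * T) := by
    rw [hrp]
    exact Real.exp_le_exp.2 (by linarith)
  refine ⟨S.image fun n => q * n + d, ?_, ?_⟩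
  · rw [Finset.card_image_of_injective S hinj]
    exact h97.trans hS.le
  · intro p hpS
    obtain ⟨n, hn, rfl⟩ := Finset.mem_image.1 hpS
    obtain ⟨hp, hp1, hp2, -, hl, hm1, hm3⟩ := hSn n hn
    rw [h101] at hp2
    have hpN : q * n + d ≤ N := by
      have : ((q * n + d : ℕ) : ℝ) ≤ N := by linarith
      exact_mod_cast this
    obtain ⟨m, hmN⟩ : ∃ m, q * n + d + m = N := ⟨N - (q * n + d), by omega⟩
    have hmz : -(q : ℤ) * n + ((N : ℤ) - d) = m := by
      rw [← hmN]
      push_cast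
      ring
    simp only [hmz] at hl hm1 hm3
    rw [Int.natAbs_natCast] at hm3
    have hmN' : N - (q * n + d) = m := by omega
    rw [hmN']
    refine ⟨hp, ?_, h97.trans hp1.le, ?_, hm3, ?_⟩
    · refine Nat.ModEq.trans ?_ hd
      unfold Nat.ModEq
      rw [Nat.mul_add_mod]
    · have h2 : 2 * ((q * n + d : ℕ) : ℝ) < N := by linarith
      exact_mod_cast h2
    · intro l hl1 hl2
      by_contra hcon
      push Not at hcon
      refine hl l hl1 (hcon.trans ?_) (by exact_mod_cast hl2)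
      rw [hrp]
      exact Real.exp_le_exp.2 (by linarith)

end Pool.Agent.H536.OC
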