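import Mathlib
import Pool.Agent.H536.OC.Wh
import Pool.Graph.R_seed8.W378.DC.MP

open Finset Filter Topology

namespace Pool.Agent.H536.OC.TKarM

/-- zeta -/
noncomputable def Z (x : ℝ) : ℝ := ∑' n : ℕ, 1 / (n : ℝ) ^ x

/-- the prime zeta function -/
noncomputable def PZ (x : ℝ) : ℝ := ∑' p : Nat.Primes, ((p : ℕ) : ℝ) ^ (-x)

/-- `n ↦ n^(-x)` -/
noncomputable def rpowHom (x : ℝ) (hx : x ≠ 0) : ℕ →*₀ ℝ where
  toFun n := (n : ℝ) ^ (-x)
  map_zero' := by simp [hx]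
  map_one' := by simp
  map_mul' m n := by push_cast; exact Real.mul_rpow (by positivity) (by positivity)

theorem sumP {x : ℝ} (hx : 1 < x) : Summable (fun p : Nat.Primes => ((p : ℕ) : ℝ) ^ (-x)) :=
  Nat.Primes.summable_rpow.2 (by linarith)

theorem p_two (p : Nat.Primes) : (2 : ℝ) ≤ ((p : ℕ) : ℝ) := by exact_mod_cast p.2.two_le

theorem pow_le_half {x : ℝ} (hx : 1 < x) (p : Nat.Primes) : ((p : ℕ) : ℝ) ^ (-x) ≤ 1 / 2 := by
  have h2 := p_two p
  have h1 : ((p : ℕ) : ℝ) ^ (-x) ≤ ((p : ℕ) : ℝ) ^ (-1 : ℝ) :=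
    Real.rpow_le_rpow_of_exponent_le (by linarith) (by linarith)
  rw [Real.rpow_neg_one] at h1
  refine h1.trans ?_
  rw [← one_div]
  exact one_div_le_one_div_of_le (by norm_num) h2

theorem pow_pos' (x : ℝ) (p : Nat.Primes) : 0 < ((p : ℕ) : ℝ) ^ (-x) :=
  Real.rpow_pos_of_pos (by have := p_two p; linarith) _

theorem log_bd {y : ℝ} (h0 : 0 < y) (h1 : y ≤ 1 / 2) : y ≤ -Real.log (1 - y) ∧ -Real.log (1 - y) ≤ y + 2 * y ^ 2 := by
  constructor
  · have := Real.log_le_sub_one_of_pos (show (0 : ℝ) < 1 - y by linarith)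
    linarith
  · have h := Real.abs_log_sub_add_sum_range_le (x := y) (by rw [abs_of_pos h0]; linarith) 1
    simp only [Finset.sum_range_one, Nat.cast_zero, zero_add, pow_one, div_one] at h
    rw [abs_of_pos h0] at h
    have h2 := (abs_le.1 h).1
    have h3 : y ^ (1 + 1) / (1 - y) ≤ 2 * y ^ 2 := by
      rw [div_le_iff₀ (by linarith), show y ^ (1 + 1) = y ^ 2 by norm_num]
      nlinarith [mul_nonneg (sq_nonneg y) (show (0 : ℝ) ≤ 1 / 2 - y by linarith)]
    linarith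

theorem sq_eq (x : ℝ) (p : Nat.Primes) : (((p : ℕ) : ℝ) ^ (-x)) ^ 2 = ((p : ℕ) : ℝ) ^ (-(2 * x)) := by
  rw [← Real.rpow_natCast, ← Real.rpow_mul (by have := p_two p; linarith)]
  congr 1
  push_cast
  ring

theorem logZ {x : ℝ} (hx : 1 < x) : PZ x ≤ Real.log (Z x) ∧ Real.log (Z x) ≤ PZ x + 2 * PZ 2 := by
  have hx0 : x ≠ 0 := by linarith
  have hs1 := sumP hx
  have hs2 : Summable (fun p : Nat.Primes => ((p : ℕ) : ℝ) ^ (-x) + 2 * (((p : ℕ) : ℝ) ^ (-x)) ^ 2) := by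
    apply hs1.add
    apply Summable.mul_left
    simp_rw [sq_eq]
    exact sumP (by linarith)
  have hsl : Summable (fun p : Nat.Primes => -Real.log (1 - ((p : ℕ) : ℝ) ^ (-x))) := by
    refine Summable.of_nonneg_of_le (fun p => ?_) (fun p => (log_bd (pow_pos' x p) (pow_le_half hx p)).2) hs2
    exact (pow_pos' x p).le.trans (log_bd (pow_pos' x p) (pow_le_half hx p)).1
  have hprod : HasProd (fun p : Nat.Primes => (1 - rpowHom x hx0 (p : ℕ))⁻¹) (∑' n : ℕ, rpowHom x hx0 n) := by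
    apply EulerProduct.eulerProduct_completely_multiplicative_hasProd
    have : ∀ n : ℕ, ‖rpowHom x hx0 n‖ = (n : ℝ) ^ (-x) := fun n => Real.norm_of_nonneg (Real.rpow_nonneg (Nat.cast_nonneg n) _)
    simp_rw [this]
    exact Real.summable_nat_rpow.2 (by linarith)
  have hZ : (∑' n : ℕ, rpowHom x hx0 n) = Z x := by
    unfold Z
    apply tsum_congr
    intro n
    show (n : ℝ) ^ (-x) = _
    rw [Real.rpow_neg (Nat.cast_nonneg n), one_div]
  have hprod2 : HasProd (fun p : Nat.Primes => (1 - rpowHom x hx0 (p : ℕ))⁻¹)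
      (Real.exp (∑' p : Nat.Primes, -Real.log (1 - ((p : ℕ) : ℝ) ^ (-x)))) := by
    apply Real.hasProd_of_hasSum_log
    · intro p
      have := pow_le_half hx p
      have h3 : rpowHom x hx0 (p : ℕ) = ((p : ℕ) : ℝ) ^ (-x) := rfl
      rw [h3]
      exact inv_pos.2 (by linarith)
    · have h4 : (fun p : Nat.Primes => Real.log ((1 - rpowHom x hx0 (p : ℕ))⁻¹)) =
        (fun p : Nat.Primes => -Real.log (1 - ((p : ℕ) : ℝ) ^ (-x))) := by
        funext p
        rw [Real.log_inv]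
        rfl
      rw [h4]
      exact hsl.hasSum
  have hE : Z x = Real.exp (∑' p : Nat.Primes, -Real.log (1 - ((p : ℕ) : ℝ) ^ (-x))) := by
    rw [← hZ]
    exact hprod.unique hprod2
  rw [hE, Real.log_exp]
  constructor
  · exact hs1.tsum_le_tsum (fun p => (log_bd (pow_pos' x p) (pow_le_half hx p)).1) hsl
  · refine (hsl.tsum_le_tsum (fun p => (log_bd (pow_pos' x p) (pow_le_half hx p)).2) hs2).trans ?_
    have h5 : Summable (fun p : Nat.Primes => 2 * (((p : ℕ) : ℝ) ^ (-x)) ^ 2) := by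
      apply Summable.mul_left
      simp_rw [sq_eq]
      exact sumP (by linarith)
    rw [hs1.tsum_add h5]
    apply add_le_add le_rfl
    rw [tsum_mul_left]
    apply mul_le_mul_of_nonneg_left _ (by norm_num)
    simp_rw [sq_eq]
    apply (sumP (by linarith)).tsum_le_tsum _ (sumP (by norm_num))
    intro p
    apply Real.rpow_le_rpow_of_exponent_le (by have := p_two p; linarith) (by linarith)

/-- the weight -/
noncomputable def W (s : ℝ) (p : ℕ) : ℝ := (p : ℝ) ^ (-(1 + s)) * (1 - (p : ℝ) ^ (-s))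

theorem x_mem {s : ℝ} (hs : 0 < s) (p : Nat.Primes) : ((p : ℕ) : ℝ) ^ (-s) ∈ Set.Icc (0 : ℝ) 1 := by
  have h2 := p_two p
  constructor
  · positivity
  · exact Real.rpow_le_one_of_one_le_of_nonpos (by linarith) (by linarith)

theorem W_nonneg {s : ℝ} (hs : 0 < s) (p : Nat.Primes) : 0 ≤ W s p := by
  unfold W
  have := (x_mem hs p).2
  exact mul_nonneg (by positivity) (by linarith)

theorem W_pow (s : ℝ) (p : Nat.Primes) (j : ℕ) : W s p * (((p : ℕ) : ℝ) ^ (-s)) ^ j =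
    ((p : ℕ) : ℝ) ^ (-(1 + ((j : ℝ) + 1) * s)) - ((p : ℕ) : ℝ) ^ (-(1 + ((j : ℝ) + 2) * s)) := by
  have h2 := p_two p
  have hp : (0 : ℝ) < ((p : ℕ) : ℝ) := by linarith
  unfold W
  have e1 : (((p : ℕ) : ℝ) ^ (-s)) ^ j = ((p : ℕ) : ℝ) ^ (-s * j) := by
    rw [Real.rpow_mul hp.le, Real.rpow_natCast]
  rw [e1, mul_sub, mul_one, sub_mul, ← Real.rpow_add hp, ← Real.rpow_add hp, ← Real.rpow_add hp]
  congr 2 <;> ring

theorem W_eq (s : ℝ) (p : Nat.Primes) : W s p = ((p : ℕ) : ℝ) ^ (-(1 + s)) - ((p : ℕ) : ℝ) ^ (-(1 + 2 * s)) := by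
  have := W_pow s p 0
  simpa using this

theorem sumW {s : ℝ} (hs : 0 < s) : Summable (fun p : Nat.Primes => W s p) := by
  simp_rw [W_eq]
  exact (sumP (by linarith)).sub (sumP (by linarith))

theorem mass : ∃ K s0 : ℝ, 0 < K ∧ 0 < s0 ∧ ∀ s : ℝ, 0 < s → s < s0 → ∑' p : Nat.Primes, W s p ≤ K := by
  have h := tendsto_sub_mul_tsum_nat_rpow
  have h1 : ∀ᶠ x : ℝ in 𝓝[>] 1, (x - 1) * Z x ∈ Set.Ioo (1 / 2 : ℝ) 2 := by
    apply h (Ioo_mem_nhds (by norm_num) (by norm_num))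
  rw [eventually_nhdsWithin_iff, Metric.eventually_nhds_iff] at h1
  obtain ⟨e, he, h1⟩ := h1
  have h2 : ∀ t : ℝ, 0 < t → t < e → 1 / (2 * t) < Z (1 + t) ∧ Z (1 + t) < 2 / t := by
    intro t ht hte
    have h3 := h1 (y := 1 + t) (by rw [Real.dist_eq]; rw [show (1 : ℝ) + t - 1 = t by ring, abs_of_pos ht]; exact hte)
      (by show (1 : ℝ) < 1 + t; linarith)
    rw [show (1 : ℝ) + t - 1 = t by ring] at h3
    obtain ⟨h4, h5⟩ := h3
    constructor
    · rw [div_lt_iff₀ (by positivity)]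
      linarith
    · rw [lt_div_iff₀ ht]
      linarith
  refine ⟨Real.log 8 + 2 * PZ 2, e / 2, ?_, by positivity, ?_⟩
  · have : 0 ≤ PZ 2 := tsum_nonneg fun p => (pow_pos' 2 p).le
    have := Real.log_pos (show (1 : ℝ) < 8 by norm_num)
    linarith
  · intro s hs hse
    have e1 : ∑' p : Nat.Primes, W s p = PZ (1 + s) - PZ (1 + 2 * s) := by
      simp_rw [W_eq]
      exact (sumP (by linarith)).tsum_sub (sumP (by linarith))
    rw [e1]
    have k1 := (logZ (x := 1 + s) (by linarith)).1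
    have k2 := (logZ (x := 1 + 2 * s) (by linarith)).2
    have k3 := h2 s hs (by linarith)
    have k4 := h2 (2 * s) (by linarith) (by linarith)
    have p1 : 0 < Z (1 + s) := lt_trans (by positivity) k3.1
    have p2 : 0 < Z (1 + 2 * s) := lt_trans (by positivity) k4.1
    have k5 : Real.log (Z (1 + s)) ≤ Real.log 8 + Real.log (Z (1 + 2 * s)) := by
      rw [← Real.log_mul (by norm_num) p2.ne']
      apply Real.log_le_log p1
      have : 8 * (1 / (2 * (2 * s))) = 2 / s := by field_simp; norm_num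
      nlinarith [k3.2, k4.1]
    linarith


/-! ### continuous test functions -/

/-- the hypothesis on the coefficients -/
def Hyp (m : ℕ → ℝ) (C : ℝ) : Prop := (∀ p : Nat.Primes, |m p| ≤ C) ∧
  ∃ L : ℝ, Tendsto (fun x : ℝ => ∑' p : Nat.Primes, m (p : ℕ) * ((p : ℕ) : ℝ) ^ (-x)) (𝓝[>] 1) (𝓝 L)

theorem sum_mul {m : ℕ → ℝ} {C : ℝ} (hm : ∀ p : Nat.Primes, |m p| ≤ C) {F : Nat.Primes → ℝ} (hF0 : ∀ p, 0 ≤ F p) (hF : Summable F) :
    Summable (fun p : Nat.Primes => m (p : ℕ) * F p) := by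
  apply Summable.of_norm_bounded (g := fun p => C * F p) (hF.mul_left C)
  intro p
  rw [norm_mul, Real.norm_eq_abs, Real.norm_of_nonneg (hF0 p)]
  exact mul_le_mul_of_nonneg_right (hm p) (hF0 p)

theorem poly_tendsto {m : ℕ → ℝ} {C : ℝ} (hm : Hyp m C) (q : Polynomial ℝ) :
    Tendsto (fun s : ℝ => ∑' p : Nat.Primes, m (p : ℕ) * (W s p * q.eval (((p : ℕ) : ℝ) ^ (-s)))) (𝓝[>] 0) (𝓝 0) := by
  obtain ⟨hmC, L, hL⟩ := hm
  set D : ℝ → ℝ := fun x => ∑' p : Nat.Primes, m (p : ℕ) * ((p : ℕ) : ℝ) ^ (-x) with hD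
  have key : ∀ s : ℝ, 0 < s → ∑' p : Nat.Primes, m (p : ℕ) * (W s p * q.eval (((p : ℕ) : ℝ) ^ (-s))) =
      ∑ j ∈ range (q.natDegree + 1), q.coeff j * (D (1 + ((j : ℝ) + 1) * s) - D (1 + ((j : ℝ) + 2) * s)) := by
    intro s hs
    have hpos : ∀ c : ℝ, 0 < c → Summable (fun p : Nat.Primes => m (p : ℕ) * ((p : ℕ) : ℝ) ^ (-(1 + c * s))) := by
      intro c hc
      exact sum_mul hmC (fun p => (pow_pos' _ p).le) (sumP (by have := mul_pos hc hs; linarith))
    have h1 : ∀ p : Nat.Primes, m (p : ℕ) * (W s p * q.eval (((p : ℕ) : ℝ) ^ (-s))) =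
        ∑ j ∈ range (q.natDegree + 1), q.coeff j * (m (p : ℕ) * ((p : ℕ) : ℝ) ^ (-(1 + ((j : ℝ) + 1) * s)) -
          m (p : ℕ) * ((p : ℕ) : ℝ) ^ (-(1 + ((j : ℝ) + 2) * s))) := by
      intro p
      rw [Polynomial.eval_eq_sum_range, mul_sum, mul_sum]
      apply sum_congr rfl
      intro j _
      rw [← mul_sub, ← W_pow]
      ring
    simp_rw [h1]
    have hsj : ∀ j ∈ range (q.natDegree + 1), Summable (fun p : Nat.Primes => q.coeff j *
        (m (p : ℕ) * ((p : ℕ) : ℝ) ^ (-(1 + ((j : ℝ) + 1) * s)) - m (p : ℕ) * ((p : ℕ) : ℝ) ^ (-(1 + ((j : ℝ) + 2) * s)))) := by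
      intro j _
      exact ((hpos _ (by positivity)).sub (hpos _ (by positivity))).mul_left _
    rw [Summable.tsum_finsetSum hsj]
    apply sum_congr rfl
    intro j _
    rw [tsum_mul_left, (hpos _ (by positivity)).tsum_sub (hpos _ (by positivity))]
  have h2 : ∀ c : ℝ, 0 < c → Tendsto (fun s : ℝ => D (1 + c * s)) (𝓝[>] 0) (𝓝 L) := by
    intro c hc
    apply hL.comp
    apply tendsto_nhdsWithin_iff.2
    constructor
    · have : Tendsto (fun s : ℝ => 1 + c * s) (𝓝 0) (𝓝 (1 + c * 0)) := by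
        apply Continuous.tendsto
        fun_prop
      rw [mul_zero, add_zero] at this
      exact this.mono_left nhdsWithin_le_nhds
    · filter_upwards [self_mem_nhdsWithin] with s hs
      have := mul_pos hc (show (0 : ℝ) < s from hs)
      show (1 : ℝ) < 1 + c * s
      linarith
  have h3 : Tendsto (fun s : ℝ => ∑ j ∈ range (q.natDegree + 1), q.coeff j * (D (1 + ((j : ℝ) + 1) * s) - D (1 + ((j : ℝ) + 2) * s)))
      (𝓝[>] 0) (𝓝 (∑ j ∈ range (q.natDegree + 1), q.coeff j * (L - L))) := by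
    apply tendsto_finsetSum
    intro j _
    apply Tendsto.const_mul
    exact (h2 _ (by positivity)).sub (h2 _ (by positivity))
  simp only [sub_self, mul_zero, sum_const_zero] at h3
  refine h3.congr' ?_
  filter_upwards [self_mem_nhdsWithin] with s hs
  exact (key s hs).symm

theorem g_tendsto {m : ℕ → ℝ} {C : ℝ} (hm : Hyp m C) {g : ℝ → ℝ} (hg : ContinuousOn g (Set.Icc 0 1)) :
    Tendsto (fun s : ℝ => ∑' p : Nat.Primes, m (p : ℕ) * (W s p * g (((p : ℕ) : ℝ) ^ (-s)))) (𝓝[>] 0) (𝓝 0) := by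
  obtain ⟨K, s0, hK, hs0, hmass⟩ := mass
  have hC0 : 0 ≤ C := (abs_nonneg _).trans (hm.1 ⟨2, Nat.prime_two⟩)
  obtain ⟨G, hG⟩ := isCompact_Icc.exists_bound_of_continuousOn hg
  rw [Metric.tendsto_nhds]
  intro ε hε
  obtain ⟨q, hq⟩ := exists_polynomial_near_of_continuousOn 0 1 g hg (ε / (2 * (C + 1) * K)) (by positivity)
  obtain ⟨Q, hQ⟩ := isCompact_Icc.exists_bound_of_continuousOn (q.continuous.continuousOn (s := Set.Icc 0 1))
  have h1 := (Metric.tendsto_nhds.1 (poly_tendsto hm q)) (ε / 2) (by positivity)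
  have h2 : ∀ᶠ s : ℝ in 𝓝[>] 0, s < s0 := (eventually_lt_nhds hs0).filter_mono nhdsWithin_le_nhds
  filter_upwards [h1, h2, self_mem_nhdsWithin] with s h3 h4 hs
  have hs : 0 < s := hs
  rw [Real.dist_eq, sub_zero] at h3 ⊢
  have bsum : ∀ (f : ℝ → ℝ) (M : ℝ), (∀ x ∈ Set.Icc (0 : ℝ) 1, ‖f x‖ ≤ M) →
      Summable (fun p : Nat.Primes => m (p : ℕ) * (W s p * f (((p : ℕ) : ℝ) ^ (-s)))) := by
    intro f M hM
    apply Summable.of_norm_bounded (g := fun p : Nat.Primes => C * (W s p * M)) (((sumW hs).mul_right M).mul_left C)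
    intro p
    rw [norm_mul, norm_mul, Real.norm_eq_abs, Real.norm_of_nonneg (W_nonneg hs p)]
    exact mul_le_mul (hm.1 p) (mul_le_mul_of_nonneg_left (hM _ (x_mem hs p)) (W_nonneg hs p))
      (mul_nonneg (W_nonneg hs p) (norm_nonneg _)) hC0
  have e1 := (bsum g G hG).tsum_sub (bsum (fun x => q.eval x) Q hQ)
  have h5 : |∑' p : Nat.Primes, (m (p : ℕ) * (W s p * g (((p : ℕ) : ℝ) ^ (-s))) -
      m (p : ℕ) * (W s p * q.eval (((p : ℕ) : ℝ) ^ (-s))))| ≤ C * K * (ε / (2 * (C + 1) * K)) := by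
    rw [← Real.norm_eq_abs]
    refine (tsum_of_norm_bounded (g := fun p : Nat.Primes => C * (W s p * (ε / (2 * (C + 1) * K))))
      (((sumW hs).mul_right _).mul_left C).hasSum ?_).trans ?_
    · intro p
      rw [← mul_sub, ← mul_sub, norm_mul, norm_mul, Real.norm_eq_abs, Real.norm_of_nonneg (W_nonneg hs p)]
      refine mul_le_mul (hm.1 p) (mul_le_mul_of_nonneg_left ?_ (W_nonneg hs p))
        (mul_nonneg (W_nonneg hs p) (norm_nonneg _)) hC0
      rw [Real.norm_eq_abs, abs_sub_comm]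
      exact (hq _ (x_mem hs p)).le
    · rw [tsum_mul_left, tsum_mul_right, ← mul_assoc]
      apply mul_le_mul_of_nonneg_right _ (by positivity)
      exact mul_le_mul_of_nonneg_left (hmass s hs h4) hC0
  have h6 : C * K * (ε / (2 * (C + 1) * K)) < ε / 2 := by
    have : C * K * (ε / (2 * (C + 1) * K)) = ε / 2 * (C / (C + 1)) := by field_simp
    rw [this]
    have : C / (C + 1) < 1 := by rw [div_lt_one (by positivity)]; linarith
    nlinarith
  rw [e1] at h5
  have h7 := abs_sub_abs_le_abs_sub (∑' p : Nat.Primes, m (p : ℕ) * (W s p * g (((p : ℕ) : ℝ) ^ (-s))))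
    (∑' p : Nat.Primes, m (p : ℕ) * (W s p * q.eval (((p : ℕ) : ℝ) ^ (-s))))
  linarith

end Pool.Agent.H536.OC.TKarM


namespace Pool.Agent.H536.OC.TKarM

open Pool.Agent.W23.DC (tt pr Mer)

/-- the test function attached to `ψ` -/
noncomputable def gf (ψ : ℝ → ℝ) (a b : ℝ) (x : ℝ) : ℝ :=
  ψ (-Real.log (max x (Real.exp (-b)))) / (max x (Real.exp (-b)) * (1 - min x (Real.exp (-a))))

theorem gf_cont {ψ : ℝ → ℝ} (hψ : Continuous ψ) {a b : ℝ} (ha : 0 < a) : Continuous (gf ψ a b) := by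
  unfold gf
  have h1 : ∀ x : ℝ, 0 < max x (Real.exp (-b)) := fun x => lt_max_of_lt_right (Real.exp_pos _)
  have h2 : ∀ x : ℝ, 0 < 1 - min x (Real.exp (-a)) := by
    intro x
    have : Real.exp (-a) < 1 := by rw [← Real.exp_zero]; exact Real.exp_lt_exp.2 (by linarith)
    have := min_le_right x (Real.exp (-a))
    linarith
  apply Continuous.div
  · apply hψ.comp
    apply Continuous.neg
    apply Continuous.log
    · fun_prop
    · intro x; exact (h1 x).ne'
  · fun_prop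
  · intro x
    exact (mul_pos (h1 x) (h2 x)).ne'

theorem gf_eq {ψ : ℝ → ℝ} {a b : ℝ} (hab : a ≤ b) (h0 : ∀ t, t ≤ a ∨ b ≤ t → ψ t = 0) {t : ℝ} (ht : 0 < t) :
    Real.exp (-t) * (1 - Real.exp (-t)) * gf ψ a b (Real.exp (-t)) = ψ t := by
  unfold gf
  rcases le_total t a with h1 | h1
  · have h2 : Real.exp (-b) ≤ Real.exp (-t) := Real.exp_le_exp.2 (by linarith)
    rw [max_eq_left h2, Real.log_exp, neg_neg, h0 t (Or.inl h1)]
    simp
  · rcases le_total b t with h3 | h3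
    · have h2 : Real.exp (-t) ≤ Real.exp (-b) := Real.exp_le_exp.2 (by linarith)
      rw [max_eq_right h2, Real.log_exp, neg_neg, h0 t (Or.inr h3), h0 b (Or.inr le_rfl)]
      simp
    · have h2 : Real.exp (-b) ≤ Real.exp (-t) := Real.exp_le_exp.2 (by linarith)
      have h4 : Real.exp (-t) ≤ Real.exp (-a) := Real.exp_le_exp.2 (by linarith)
      rw [max_eq_left h2, min_eq_left h4, Real.log_exp, neg_neg]
      have h5 : Real.exp (-t) < 1 := by rw [← Real.exp_zero]; exact Real.exp_lt_exp.2 (by linarith)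
      have h6 := Real.exp_pos (-t)
      have h7 : (1 : ℝ) - Real.exp (-t) ≠ 0 := by linarith
      field_simp

theorem tt_pos {N : ℕ} (hN : 2 ≤ N) (p : Nat.Primes) : 0 < tt N p := by
  unfold tt
  apply div_pos
  · exact Real.log_pos (by have := p_two p; linarith)
  · exact Real.log_pos (by exact_mod_cast (by omega : 1 < N))

theorem W_tt (N : ℕ) (p : Nat.Primes) : ((p : ℕ) : ℝ) ^ (-(1 / Real.log N)) = Real.exp (-tt N p) := by
  have hp : (0 : ℝ) < ((p : ℕ) : ℝ) := by have := p_two p; linarith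
  rw [Real.rpow_def_of_pos hp]
  congr 1
  unfold tt
  ring

theorem W_gf {ψ : ℝ → ℝ} {a b : ℝ} (hab : a ≤ b) (h0 : ∀ t, t ≤ a ∨ b ≤ t → ψ t = 0) {N : ℕ} (hN : 2 ≤ N) (p : Nat.Primes) :
    W (1 / Real.log N) p * gf ψ a b (((p : ℕ) : ℝ) ^ (-(1 / Real.log N))) = 1 / ((p : ℕ) : ℝ) * ψ (tt N p) := by
  have hp : (0 : ℝ) < ((p : ℕ) : ℝ) := by have := p_two p; linarith
  unfold W
  have e1 : ((p : ℕ) : ℝ) ^ (-(1 + 1 / Real.log N)) = 1 / ((p : ℕ) : ℝ) * ((p : ℕ) : ℝ) ^ (-(1 / Real.log N)) := by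
    rw [show -(1 + 1 / Real.log N) = -1 + -(1 / Real.log N) by ring, Real.rpow_add hp, Real.rpow_neg_one, one_div ((p : ℕ) : ℝ)]
  rw [e1, W_tt N p]
  have h := gf_eq hab h0 (tt_pos hN p)
  calc 1 / ((p : ℕ) : ℝ) * Real.exp (-tt N p) * (1 - Real.exp (-tt N p)) * gf ψ a b (Real.exp (-tt N p))
      = 1 / ((p : ℕ) : ℝ) * (Real.exp (-tt N p) * (1 - Real.exp (-tt N p)) * gf ψ a b (Real.exp (-tt N p))) := by ring
    _ = _ := by rw [h]

theorem s_tendsto : Tendsto (fun N : ℕ => 1 / Real.log N) atTop (𝓝[>] 0) := by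
  apply tendsto_nhdsWithin_iff.2
  constructor
  · have h1 : Tendsto (fun N : ℕ => Real.log N) atTop atTop := Real.tendsto_log_atTop.comp tendsto_natCast_atTop_atTop
    simp_rw [one_div]
    exact tendsto_inv_atTop_zero.comp h1
  · filter_upwards [eventually_ge_atTop 2] with N hN
    exact one_div_pos.2 (Real.log_pos (by exact_mod_cast (by omega : 1 < N)))

/-- comparison with weights `1/p` -/
theorem cmp1 {m : ℕ → ℝ} {C : ℝ} (hm : Hyp m C) {ψ : ℝ → ℝ} (hψ : Continuous ψ) {a b : ℝ} (ha : 0 < a) (hab : a ≤ b)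
    (h0 : ∀ t, t ≤ a ∨ b ≤ t → ψ t = 0) :
    Tendsto (fun N : ℕ => ∑' p : Nat.Primes, m (p : ℕ) * (1 / ((p : ℕ) : ℝ) * ψ (tt N p))) atTop (𝓝 0) := by
  have h := (g_tendsto hm (gf_cont (b := b) hψ ha).continuousOn).comp s_tendsto
  refine h.congr' ?_
  filter_upwards [eventually_ge_atTop 2] with N hN
  show ∑' p : Nat.Primes, m (p : ℕ) * (W (1 / Real.log N) p * gf ψ a b (((p : ℕ) : ℝ) ^ (-(1 / Real.log N)))) = _
  simp_rw [W_gf hab h0 hN]

theorem psi_bdd {ψ : ℝ → ℝ} (hψ : Continuous ψ) {a b : ℝ} (h0 : ∀ t, t ≤ a ∨ b ≤ t → ψ t = 0) : ∃ M : ℝ, 0 ≤ M ∧ ∀ t, |ψ t| ≤ M := by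
  obtain ⟨M, hM⟩ := (isCompact_Icc (a := a) (b := b)).exists_bound_of_continuousOn hψ.continuousOn
  refine ⟨max M 0, le_max_right _ _, fun t => ?_⟩
  by_cases ht : t ∈ Set.Icc a b
  · exact (hM t ht).trans (le_max_left _ _)
  · rw [Set.mem_Icc, not_and_or, not_le, not_le] at ht
    have : ψ t = 0 := h0 t (by rcases ht with h | h; exact Or.inl h.le; exact Or.inr h.le)
    rw [this, abs_zero]
    exact le_max_right _ _

/-- the difference of the weights -/
theorem cmp2 {m : ℕ → ℝ} {C : ℝ} (hm : ∀ p : Nat.Primes, |m p| ≤ C) {ψ : ℝ → ℝ} (hψ : Continuous ψ) {a b : ℝ} (ha : 0 < a)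
    (h0 : ∀ t, t ≤ a ∨ b ≤ t → ψ t = 0) :
    (∀ N : ℕ, Summable (fun p : Nat.Primes => m (p : ℕ) * ((1 / (((p : ℕ) : ℝ) - 1) - 1 / ((p : ℕ) : ℝ)) * ψ (tt N p)))) ∧
    Tendsto (fun N : ℕ => ∑' p : Nat.Primes, m (p : ℕ) * ((1 / (((p : ℕ) : ℝ) - 1) - 1 / ((p : ℕ) : ℝ)) * ψ (tt N p))) atTop (𝓝 0) := by
  obtain ⟨M, hM0, hM⟩ := psi_bdd hψ h0
  have hC0 : 0 ≤ C := (abs_nonneg _).trans (hm ⟨2, Nat.prime_two⟩)
  have hw : ∀ p : Nat.Primes, 0 ≤ 1 / (((p : ℕ) : ℝ) - 1) - 1 / ((p : ℕ) : ℝ) ∧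
      1 / (((p : ℕ) : ℝ) - 1) - 1 / ((p : ℕ) : ℝ) ≤ 2 * ((p : ℕ) : ℝ) ^ (-(2 : ℝ)) := by
    intro p
    have h2 := p_two p
    have h3 : 1 / (((p : ℕ) : ℝ) - 1) - 1 / ((p : ℕ) : ℝ) = 1 / ((((p : ℕ) : ℝ) - 1) * ((p : ℕ) : ℝ)) := by
      have : ((p : ℕ) : ℝ) - 1 ≠ 0 := by linarith
      field_simp
      ring
    rw [h3]
    constructor
    · apply one_div_nonneg.2
      nlinarith
    · rw [Real.rpow_neg (by linarith), show (2 : ℝ) = ((2 : ℕ) : ℝ) by norm_num, Real.rpow_natCast, ← div_eq_mul_inv, div_le_div_iff₀ (by nlinarith) (by positivity)]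
      push_cast
      nlinarith
  have hb : ∀ (N : ℕ) (p : Nat.Primes), ‖m (p : ℕ) * ((1 / (((p : ℕ) : ℝ) - 1) - 1 / ((p : ℕ) : ℝ)) * ψ (tt N p))‖ ≤
      C * (2 * ((p : ℕ) : ℝ) ^ (-(2 : ℝ)) * M) := by
    intro N p
    rw [norm_mul, norm_mul, Real.norm_eq_abs, Real.norm_of_nonneg (hw p).1]
    refine mul_le_mul (hm p) (mul_le_mul (hw p).2 (hM _) (norm_nonneg _) ?_) (mul_nonneg (hw p).1 (norm_nonneg _)) hC0
    exact (hw p).1.trans (hw p).2
  have hsb : Summable (fun p : Nat.Primes => C * (2 * ((p : ℕ) : ℝ) ^ (-(2 : ℝ)) * M)) :=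
    (((sumP (by norm_num)).mul_left 2).mul_right M).mul_left C
  refine ⟨fun N => hsb.of_norm_bounded (hb N), ?_⟩
  have h := tendsto_tsum_of_dominated_convergence (𝓕 := (atTop : Filter ℕ))
    (f := fun (N : ℕ) (p : Nat.Primes) => m (p : ℕ) * ((1 / (((p : ℕ) : ℝ) - 1) - 1 / ((p : ℕ) : ℝ)) * ψ (tt N p)))
    (g := fun _ => (0 : ℝ)) hsb ?_ (Eventually.of_forall hb)
  · simpa using h
  · intro p
    have h1 : ∀ᶠ N : ℕ in atTop, tt N p < a := by
      have h2 : Tendsto (fun N : ℕ => tt N p) atTop (𝓝 0) := by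
        have h3 : Tendsto (fun N : ℕ => Real.log N) atTop atTop := Real.tendsto_log_atTop.comp tendsto_natCast_atTop_atTop
        exact h3.const_div_atTop _
      exact h2.eventually_lt_const ha
    refine tendsto_const_nhds.congr' ?_
    filter_upwards [h1] with N hN
    rw [h0 _ (Or.inl hN.le)]
    simp

/-- the sum over all primes is a finite sum -/
theorem tsum_pr (F : ℕ → ℝ) {ψ : ℝ → ℝ} {a b : ℝ} (hb : b ≤ 1) (h0 : ∀ t, t ≤ a ∨ b ≤ t → ψ t = 0) {N : ℕ} (hN : 2 ≤ N) :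
    Summable (fun p : Nat.Primes => F p * ψ (tt N p)) ∧
    ∑' p : Nat.Primes, F p * ψ (tt N p) = ∑ p ∈ pr N a b, F p * ψ (tt N p) := by
  classical
  have hz : ∀ n : ℕ, n ∉ pr N a b → Set.indicator {p : ℕ | p.Prime} (fun p : ℕ => F p * ψ (tt N p)) n = 0 := by
    intro n hn
    by_cases hp : n.Prime
    · rw [Set.indicator_of_mem (by exact hp)]
      have : ψ (tt N n) = 0 := by
        by_contra hne
        apply hn
        have h1 : a < tt N n := not_le.1 fun h => hne (h0 _ (Or.inl h))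
        have h2 : tt N n < b := not_le.1 fun h => hne (h0 _ (Or.inr h))
        unfold pr
        rw [Finset.mem_filter, Finset.mem_Icc]
        refine ⟨⟨hp.one_lt.le, ?_⟩, hp, h1.le, h2⟩
        have hL : 0 < Real.log N := Real.log_pos (by exact_mod_cast (by omega : 1 < N))
        unfold tt at h2
        rw [div_lt_iff₀ hL] at h2
        have h3 : Real.log n < Real.log N := by nlinarith
        have h4 : (n : ℝ) < N := (Real.log_lt_log_iff (by exact_mod_cast hp.pos) (by exact_mod_cast (by omega : 0 < N))).1 h3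
        exact (by exact_mod_cast h4.le)
      rw [this, mul_zero]
    · rw [Set.indicator_of_notMem (by exact hp)]
  have hs : Summable (Set.indicator {p : ℕ | p.Prime} (fun p : ℕ => F p * ψ (tt N p))) :=
    summable_of_ne_finset_zero (s := pr N a b) hz
  constructor
  · exact (summable_subtype_iff_indicator (f := fun p : ℕ => F p * ψ (tt N p)) (s := {p : ℕ | p.Prime})).2 hs
  · have e1 : ∑' p : Nat.Primes, F p * ψ (tt N p) = ∑' n : ℕ, Set.indicator {p : ℕ | p.Prime} (fun p : ℕ => F p * ψ (tt N p)) n :=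
      tsum_subtype {p : ℕ | p.Prime} (fun p : ℕ => F p * ψ (tt N p))
    rw [e1, tsum_eq_sum hz]
    apply sum_congr rfl
    intro p hp
    unfold pr at hp
    rw [Finset.mem_filter] at hp
    rw [Set.indicator_of_mem (by exact hp.2.1)]

/-- comparison with the weights `1/(p-1)` -/
theorem cmp3 {m : ℕ → ℝ} {C : ℝ} (hm : Hyp m C) {ψ : ℝ → ℝ} (hψ : Continuous ψ) {a b : ℝ} (ha : 0 < a) (hab : a ≤ b) (hb : b ≤ 1)
    (h0 : ∀ t, t ≤ a ∨ b ≤ t → ψ t = 0) :
    Tendsto (fun N : ℕ => ∑ p ∈ pr N a b, m p * (1 / ((p : ℝ) - 1)) * ψ (tt N p)) atTop (𝓝 0) := by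
  have h1 := cmp1 hm hψ ha hab h0
  obtain ⟨h2, h3⟩ := cmp2 hm.1 hψ ha h0
  have h4 := h1.add h3
  rw [add_zero] at h4
  refine h4.congr' ?_
  filter_upwards [eventually_ge_atTop 2] with N hN
  have k1 := tsum_pr (fun p => m p * (1 / ((p : ℝ) - 1))) hb h0 hN
  have k2 := tsum_pr (fun p => m p * (1 / (p : ℝ))) hb h0 hN
  rw [← k1.2]
  have k3 : Summable (fun p : Nat.Primes => m (p : ℕ) * (1 / ((p : ℕ) : ℝ) * ψ (tt N p))) := by
    refine k2.1.congr fun p => ?_
    ring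
  rw [← k3.tsum_add (h2 N)]
  apply tsum_congr
  intro p
  ring

end Pool.Agent.H536.OC.TKarM


namespace Pool.Agent.H536.OC.TKarM

open Pool.Agent.W23.DC (tt pr Mer St_MP)

/-- the trapezoid -/
noncomputable def trap (a b δ : ℝ) (t : ℝ) : ℝ := max 0 (min 1 (min ((t - a) / δ + 1) ((b - t) / δ + 1)))

theorem trap_cont (a b δ : ℝ) : Continuous (trap a b δ) := by
  unfold trap
  fun_prop

theorem trap_nonneg (a b δ t : ℝ) : 0 ≤ trap a b δ t := le_max_left _ _

theorem trap_le (a b δ t : ℝ) : trap a b δ t ≤ 1 := max_le (by norm_num) (min_le_left _ _)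

theorem trap_one {a b δ t : ℝ} (hδ : 0 < δ) (h1 : a ≤ t) (h2 : t ≤ b) : trap a b δ t = 1 := by
  unfold trap
  have e1 : 0 ≤ (t - a) / δ := div_nonneg (by linarith) hδ.le
  have e2 : 0 ≤ (b - t) / δ := div_nonneg (by linarith) hδ.le
  rw [min_eq_left (le_min (by linarith) (by linarith))]
  norm_num

theorem trap_zero {a b δ t : ℝ} (hδ : 0 < δ) (h : t ≤ a - δ ∨ b + δ ≤ t) : trap a b δ t = 0 := by
  unfold trap
  apply max_eq_left
  rcases h with h | h
  · refine (min_le_right _ _).trans ((min_le_left _ _).trans ?_)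
    have : (t - a) / δ ≤ -1 := by rw [div_le_iff₀ hδ]; linarith
    linarith
  · refine (min_le_right _ _).trans ((min_le_right _ _).trans ?_)
    have : (b - t) / δ ≤ -1 := by rw [div_le_iff₀ hδ]; linarith
    linarith

theorem pr_mem {N p : ℕ} {a b : ℝ} (hp : p ∈ pr N a b) : p.Prime ∧ a ≤ tt N p ∧ tt N p < b := by
  unfold pr at hp
  rw [Finset.mem_filter] at hp
  exact hp.2

theorem pr_mono {N : ℕ} {a b a' b' : ℝ} (ha : a' ≤ a) (hb : b ≤ b') : pr N a b ⊆ pr N a' b' := by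
  intro p hp
  unfold pr at hp ⊢
  rw [Finset.mem_filter] at hp ⊢
  exact ⟨hp.1, hp.2.1, ha.trans hp.2.2.1, hp.2.2.2.trans_le hb⟩

theorem u_pos {p : ℕ} (hp : p.Prime) : 0 < 1 / ((p : ℝ) - 1) := by
  have : (2 : ℝ) ≤ p := by exact_mod_cast hp.two_le
  exact one_div_pos.2 (by linarith)

variable {h : ℕ → ℝ} {C : ℝ}

theorem up (hh : ∀ p : ℕ, p.Prime → 0 ≤ h p) (hm : Hyp (fun p => h p - 1) C) {a b δ : ℝ} (hδ : 0 < δ) (ha : δ < a) (hab : a ≤ b)
    (hb : b + δ ≤ 1) {ε : ℝ} (hε : 0 < ε) :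
    ∀ᶠ N : ℕ in atTop, ∑ p ∈ pr N a b, h p / ((p : ℝ) - 1) ≤ ε + ∑ p ∈ pr N (a - δ) (b + δ), 1 / ((p : ℝ) - 1) := by
  have k := cmp3 hm (trap_cont a b δ) (show 0 < a - δ by linarith) (show a - δ ≤ b + δ by linarith) hb (fun t ht => trap_zero hδ ht)
  filter_upwards [k.eventually_lt_const hε] with N hN
  have e1 : ∑ p ∈ pr N a b, h p / ((p : ℝ) - 1) ≤ ∑ p ∈ pr N (a - δ) (b + δ), h p * (1 / ((p : ℝ) - 1)) * trap a b δ (tt N p) := by
    have e2 : ∑ p ∈ pr N a b, h p / ((p : ℝ) - 1) = ∑ p ∈ pr N a b, h p * (1 / ((p : ℝ) - 1)) * trap a b δ (tt N p) := by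
      apply sum_congr rfl
      intro p hp
      have hp' := pr_mem hp
      rw [trap_one hδ hp'.2.1 hp'.2.2.le, mul_one, mul_one_div]
    rw [e2]
    apply sum_le_sum_of_subset_of_nonneg (pr_mono (by linarith) (by linarith))
    intro p hp _
    have hp' := pr_mem hp
    exact mul_nonneg (mul_nonneg (hh p hp'.1) (u_pos hp'.1).le) (trap_nonneg _ _ _ _)
  have e3 : ∑ p ∈ pr N (a - δ) (b + δ), h p * (1 / ((p : ℝ) - 1)) * trap a b δ (tt N p) =
      ∑ p ∈ pr N (a - δ) (b + δ), (h p - 1) * (1 / ((p : ℝ) - 1)) * trap a b δ (tt N p) +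
      ∑ p ∈ pr N (a - δ) (b + δ), 1 / ((p : ℝ) - 1) * trap a b δ (tt N p) := by
    rw [← sum_add_distrib]
    apply sum_congr rfl
    intro p _
    ring
  have e4 : ∑ p ∈ pr N (a - δ) (b + δ), 1 / ((p : ℝ) - 1) * trap a b δ (tt N p) ≤ ∑ p ∈ pr N (a - δ) (b + δ), 1 / ((p : ℝ) - 1) := by
    apply sum_le_sum
    intro p hp
    have hp' := pr_mem hp
    exact mul_le_of_le_one_right (u_pos hp'.1).le (trap_le _ _ _ _)
  linarith

theorem low (hh : ∀ p : ℕ, p.Prime → 0 ≤ h p) (hm : Hyp (fun p => h p - 1) C) {a b δ : ℝ} (hδ : 0 < δ) (ha : 0 < a) (hab : a + δ ≤ b - δ)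
    (hb : b ≤ 1) {ε : ℝ} (hε : 0 < ε) :
    ∀ᶠ N : ℕ in atTop, -ε + ∑ p ∈ pr N (a + δ) (b - δ), 1 / ((p : ℝ) - 1) ≤ ∑ p ∈ pr N a b, h p / ((p : ℝ) - 1) := by
  have k := cmp3 hm (trap_cont (a + δ) (b - δ) δ) ha (show a ≤ b by linarith) hb
    (fun t ht => trap_zero hδ (by rcases ht with h | h; left; linarith; right; linarith))
  filter_upwards [k.eventually_const_lt (show -ε < 0 by linarith)] with N hN
  have e1 : ∑ p ∈ pr N a b, h p * (1 / ((p : ℝ) - 1)) * trap (a + δ) (b - δ) δ (tt N p) ≤ ∑ p ∈ pr N a b, h p / ((p : ℝ) - 1) := by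
    apply sum_le_sum
    intro p hp
    have hp' := pr_mem hp
    rw [mul_one_div]
    exact mul_le_of_le_one_right (div_nonneg (hh p hp'.1) (by have := u_pos hp'.1; exact (one_div_pos.1 this).le)) (trap_le _ _ _ _)
  have e3 : ∑ p ∈ pr N a b, h p * (1 / ((p : ℝ) - 1)) * trap (a + δ) (b - δ) δ (tt N p) =
      ∑ p ∈ pr N a b, (h p - 1) * (1 / ((p : ℝ) - 1)) * trap (a + δ) (b - δ) δ (tt N p) +
      ∑ p ∈ pr N a b, 1 / ((p : ℝ) - 1) * trap (a + δ) (b - δ) δ (tt N p) := by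
    rw [← sum_add_distrib]
    apply sum_congr rfl
    intro p _
    ring
  have e4 : ∑ p ∈ pr N (a + δ) (b - δ), 1 / ((p : ℝ) - 1) ≤ ∑ p ∈ pr N a b, 1 / ((p : ℝ) - 1) * trap (a + δ) (b - δ) δ (tt N p) := by
    have e5 : ∑ p ∈ pr N (a + δ) (b - δ), 1 / ((p : ℝ) - 1) =
        ∑ p ∈ pr N (a + δ) (b - δ), 1 / ((p : ℝ) - 1) * trap (a + δ) (b - δ) δ (tt N p) := by
      apply sum_congr rfl
      intro p hp
      have hp' := pr_mem hp
      rw [trap_one hδ hp'.2.1 hp'.2.2.le, mul_one]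
    rw [e5]
    apply sum_le_sum_of_subset_of_nonneg (pr_mono (by linarith) (by linarith))
    intro p hp _
    have hp' := pr_mem hp
    exact mul_nonneg (u_pos hp'.1).le (trap_nonneg _ _ _ _)
  linarith

/-- pointwise, away from `1` -/
theorem pt (hh : ∀ p : ℕ, p.Prime → 0 ≤ h p) (hm : Hyp (fun p => h p - 1) C) {a b : ℝ} (ha : 0 < a) (hab : a < b) (hb : b < 1) :
    Tendsto (fun N : ℕ => ∑ p ∈ pr N a b, h p / ((p : ℝ) - 1)) atTop (𝓝 (Real.log (b / a))) := by
  rw [Metric.tendsto_nhds]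
  intro ε hε
  -- choice of `δ`
  have c1 : ∀ᶠ δ : ℝ in 𝓝 0, Real.log ((b + δ) / (a - δ)) < Real.log (b / a) + ε / 4 := by
    have : ContinuousAt (fun δ : ℝ => Real.log ((b + δ) / (a - δ))) 0 := by
      apply ContinuousAt.log
      · apply ContinuousAt.div
        · fun_prop
        · fun_prop
        · simpa using ha.ne'
      · simp only [add_zero, sub_zero]
        exact (div_pos (ha.trans hab) ha).ne'
    have h2 := this.tendsto
    simp only [add_zero, sub_zero] at h2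
    exact h2.eventually_lt_const (by linarith)
  have c2 : ∀ᶠ δ : ℝ in 𝓝 0, Real.log (b / a) - ε / 4 < Real.log ((b - δ) / (a + δ)) := by
    have : ContinuousAt (fun δ : ℝ => Real.log ((b - δ) / (a + δ))) 0 := by
      apply ContinuousAt.log
      · apply ContinuousAt.div
        · fun_prop
        · fun_prop
        · simpa using ha.ne'
      · simp only [add_zero, sub_zero]
        exact (div_pos (ha.trans hab) ha).ne'
    have h2 := this.tendsto
    simp only [add_zero, sub_zero] at h2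
    exact h2.eventually_const_lt (by linarith)
  have c3 : ∀ᶠ δ : ℝ in 𝓝 0, δ < a / 2 ∧ δ < 1 - b ∧ δ < (b - a) / 2 :=
    (eventually_lt_nhds (by linarith)).and ((eventually_lt_nhds (by linarith)).and (eventually_lt_nhds (by linarith)))
  have c4 : ∀ᶠ δ : ℝ in 𝓝[>] 0, 0 < δ := by filter_upwards [self_mem_nhdsWithin] with δ hδ using hδ
  obtain ⟨δ, ⟨⟨d1, d2⟩, d3, d4, d5⟩, d6⟩ := (((c1.and c2).and c3).filter_mono nhdsWithin_le_nhds |>.and c4).exists
  obtain ⟨N0, hN0⟩ := Pool.Agent.W378.DC.MP (a / 2) (ε / 4) (by positivity) (by positivity)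
  filter_upwards [up hh hm d6 (show δ < a by linarith) hab.le (show b + δ ≤ 1 by linarith) (show 0 < ε / 4 by positivity),
    low hh hm d6 ha (show a + δ ≤ b - δ by linarith) hb.le (show 0 < ε / 4 by positivity), eventually_ge_atTop N0] with N k1 k2 k3
  have k4 := (abs_le.1 (hN0 N k3 (a - δ) (b + δ) (by linarith) (by linarith) (by linarith))).2
  have k5 := (abs_le.1 (hN0 N k3 (a + δ) (b - δ) (by linarith) (by linarith) (by linarith))).1
  rw [Real.dist_eq, abs_lt]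
  constructor <;> linarith

theorem tt_sq (Y p : ℕ) : tt (Y ^ 2) p = tt Y p / 2 := by
  unfold tt
  push_cast
  rw [Real.log_pow, div_div]
  push_cast
  ring

theorem pr_sq {Y : ℕ} (hY : 2 ≤ Y) {a b : ℝ} (hb : b ≤ 1) : pr (Y ^ 2) (a / 2) (b / 2) = pr Y a b := by
  ext p
  unfold pr
  rw [Finset.mem_filter, Finset.mem_filter, Finset.mem_Icc, Finset.mem_Icc, tt_sq]
  constructor
  · rintro ⟨⟨h1, h2⟩, hp, h3, h4⟩
    refine ⟨⟨h1, ?_⟩, hp, by linarith, by linarith⟩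
    have h5 : tt Y p < 1 := by linarith
    have hL : 0 < Real.log Y := Real.log_pos (by exact_mod_cast (by omega : 1 < Y))
    unfold tt at h5
    rw [div_lt_iff₀ hL, one_mul] at h5
    have h4 : (p : ℝ) < Y := (Real.log_lt_log_iff (by exact_mod_cast hp.pos) (by exact_mod_cast (by omega : 0 < Y))).1 h5
    exact (by exact_mod_cast h4.le)
  · rintro ⟨⟨h1, h2⟩, hp, h3, h4⟩
    refine ⟨⟨h1, ?_⟩, hp, by linarith, by linarith⟩
    nlinarith

/-- pointwise -/
theorem pt2 (hh : ∀ p : ℕ, p.Prime → 0 ≤ h p) (hm : Hyp (fun p => h p - 1) C) {a b : ℝ} (ha : 0 < a) (hab : a ≤ b) (hb : b ≤ 1) :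
    Tendsto (fun N : ℕ => ∑ p ∈ pr N a b, h p / ((p : ℝ) - 1)) atTop (𝓝 (Real.log (b / a))) := by
  rcases hab.eq_or_lt with h1 | h1
  · subst h1
    rw [div_self ha.ne', Real.log_one]
    have : ∀ N : ℕ, pr N a a = ∅ := by
      intro N
      apply Finset.eq_empty_of_forall_notMem
      intro p hp
      have := pr_mem hp
      linarith [this.2.1, this.2.2]
    simp_rw [this, sum_empty]
    exact tendsto_const_nhds
  · have k := (pt hh hm (show 0 < a / 2 by linarith) (show a / 2 < b / 2 by linarith) (show b / 2 < 1 by linarith)).comp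
      (tendsto_pow_atTop (α := ℕ) (n := 2) (by norm_num))
    have e1 : b / 2 / (a / 2) = b / a := by field_simp
    rw [e1] at k
    refine k.congr' ?_
    filter_upwards [eventually_ge_atTop 2] with Y hY
    show ∑ p ∈ pr (Y ^ 2) (a / 2) (b / 2), h p / ((p : ℝ) - 1) = _
    rw [pr_sq hY hb]

theorem pr_add {N : ℕ} {e a b : ℝ} (hea : e ≤ a) (hab : a ≤ b) (f : ℕ → ℝ) :
    ∑ p ∈ pr N e b, f p = ∑ p ∈ pr N e a, f p + ∑ p ∈ pr N a b, f p := by
  classical
  rw [← sum_union]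
  · apply sum_congr _ (fun _ _ => rfl)
    ext p
    unfold pr
    rw [Finset.mem_union, Finset.mem_filter, Finset.mem_filter, Finset.mem_filter]
    constructor
    · rintro ⟨h1, hp, h2, h3⟩
      rcases lt_or_ge (tt N p) a with h4 | h4
      · exact Or.inl ⟨h1, hp, h2, h4⟩
      · exact Or.inr ⟨h1, hp, h4, h3⟩
    · rintro (⟨h1, hp, h2, h3⟩ | ⟨h1, hp, h2, h3⟩)
      · exact ⟨h1, hp, h2, h3.trans_le hab⟩
      · exact ⟨h1, hp, hea.trans h2, h3⟩
  · rw [Finset.disjoint_left]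
    intro p h1 h2
    have h3 := (pr_mem h1).2.2
    have h4 := (pr_mem h2).2.1
    linarith

/-- the clamped grid -/
noncomputable def cl (e : ℝ) (n i : ℕ) : ℝ := max e (min 1 ((i : ℝ) / n))

theorem unif (hh : ∀ p : ℕ, p.Prime → 0 ≤ h p) (hm : Hyp (fun p => h p - 1) C) {e η : ℝ} (he : 0 < e) (he1 : e ≤ 1) (hη : 0 < η) :
    ∀ᶠ N : ℕ in atTop, ∀ t : ℝ, e ≤ t → t ≤ 1 → |∑ p ∈ pr N e t, h p / ((p : ℝ) - 1) - Real.log (t / e)| ≤ η := by
  obtain ⟨n, hn⟩ := exists_nat_gt (2 / (e * η))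
  have hn0 : 0 < (n : ℝ) := lt_trans (by positivity) hn
  have hstep : (1 : ℝ) / n / e ≤ η / 2 := by
    rw [div_div, div_le_div_iff₀ (by positivity) (by norm_num)]
    rw [div_lt_iff₀ (by positivity)] at hn
    nlinarith
  have hcl1 : ∀ i, e ≤ cl e n i := fun i => le_max_left _ _
  have hcl2 : ∀ i, cl e n i ≤ 1 := fun i => max_le he1 (min_le_left _ _)
  have hgrid : ∀ᶠ N : ℕ in atTop, ∀ i ∈ range (n + 2), |∑ p ∈ pr N e (cl e n i), h p / ((p : ℝ) - 1) - Real.log (cl e n i / e)| < η / 2 := by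
    rw [eventually_all_finset]
    intro i _
    have k := Metric.tendsto_nhds.1 (pt2 hh hm he (hcl1 i) (hcl2 i)) (η / 2) (by positivity)
    simpa only [Real.dist_eq] using k
  filter_upwards [hgrid] with N hN t ht1 ht2
  set i := ⌊t * n⌋₊ with hi
  have htn : 0 ≤ t * n := mul_nonneg (he.le.trans ht1) hn0.le
  have hi1 : (i : ℝ) ≤ t * n := Nat.floor_le htn
  have hi2 : t * n < (i : ℝ) + 1 := Nat.lt_floor_add_one _
  have hin : i ≤ n := by
    have : (i : ℝ) ≤ n := by nlinarith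
    exact_mod_cast this
  have l1 : cl e n i ≤ t := by
    apply max_le ht1
    refine (min_le_right _ _).trans ?_
    rw [div_le_iff₀ hn0]
    exact hi1
  have l2 : t ≤ cl e n (i + 1) := by
    refine le_trans ?_ (le_max_right _ _)
    apply le_min ht2
    rw [le_div_iff₀ hn0]
    push_cast
    exact hi2.le
  have l3 : cl e n (i + 1) ≤ cl e n i + 1 / n := by
    unfold cl
    apply max_le
    · have := le_max_left e (min 1 ((i : ℝ) / n))
      have : 0 < 1 / (n : ℝ) := by positivity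
      linarith
    · have h1 := le_max_right e (min 1 ((i : ℝ) / n))
      have h2 : min 1 (((i + 1 : ℕ) : ℝ) / n) ≤ min 1 ((i : ℝ) / n) + 1 / n := by
        rw [← min_add_add_right]
        apply le_min
        · have : 0 < 1 / (n : ℝ) := by positivity
          have := min_le_left 1 (((i + 1 : ℕ) : ℝ) / n)
          linarith
        · refine (min_le_right _ _).trans ?_
          push_cast
          rw [add_div]
      linarith
  have m1 := abs_lt.1 (hN i (mem_range.2 (by omega)))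
  have m2 := abs_lt.1 (hN (i + 1) (mem_range.2 (by omega)))
  have hmono : ∀ {x y : ℝ}, x ≤ y → ∑ p ∈ pr N e x, h p / ((p : ℝ) - 1) ≤ ∑ p ∈ pr N e y, h p / ((p : ℝ) - 1) := by
    intro x y hxy
    apply sum_le_sum_of_subset_of_nonneg (pr_mono le_rfl hxy)
    intro p hp _
    have hp' := pr_mem hp
    exact div_nonneg (hh p hp'.1) (one_div_pos.1 (u_pos hp'.1)).le
  have n1 := hmono l1
  have n2 := hmono l2
  have q1 : 0 < cl e n i := he.trans_le (hcl1 i)
  have q2 : 0 < cl e n (i + 1) := he.trans_le (hcl1 (i + 1))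
  have q3 : 0 < t := he.trans_le ht1
  have hlog : Real.log (cl e n (i + 1) / e) ≤ Real.log (cl e n i / e) + η / 2 := by
    rw [Real.log_div q2.ne' he.ne', Real.log_div q1.ne' he.ne']
    have r1 : Real.log (cl e n (i + 1)) - Real.log (cl e n i) ≤ cl e n (i + 1) / cl e n i - 1 := by
      rw [← Real.log_div q2.ne' q1.ne']
      exact Real.log_le_sub_one_of_pos (div_pos q2 q1)
    have r2 : cl e n (i + 1) / cl e n i - 1 ≤ 1 / n / e := by
      rw [div_sub_one q1.ne', div_le_div_iff₀ q1 he]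
      have := hcl1 i
      have r3 : 0 ≤ 1 / (n : ℝ) := by positivity
      nlinarith
    linarith
  have g1 : Real.log (cl e n i / e) ≤ Real.log (t / e) := Real.log_le_log (div_pos q1 he) (div_le_div_of_nonneg_right l1 he.le)
  have g2 : Real.log (t / e) ≤ Real.log (cl e n (i + 1) / e) := Real.log_le_log (div_pos q3 he) (div_le_div_of_nonneg_right l2 he.le)
  rw [abs_le]
  constructor <;> linarith [m1.1, m1.2, m2.1, m2.2]

end Pool.Agent.H536.OC.TKarM

namespace Pool.Agent.H536.OC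

theorem karM : S_Kar := by
  intro h C hC hL e η he hη
  obtain ⟨L, hL⟩ := hL
  have hC0 : 0 ≤ C := (hC 2 Nat.prime_two).1.trans (hC 2 Nat.prime_two).2
  have hm : Pool.Agent.H536.OC.TKarM.Hyp (fun p => h p - 1) (C + 1) := by
    refine ⟨fun p => ?_, L, hL⟩
    have := hC p p.2
    rw [abs_le]
    constructor <;> linarith [this.1, this.2]
  by_cases he1 : e ≤ 1
  · have k := Pool.Agent.H536.OC.TKarM.unif (fun p hp => (hC p hp).1) hm he he1 (show 0 < η / 2 by positivity)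
    obtain ⟨Y0, hY0⟩ := eventually_atTop.1 k
    refine ⟨Y0, fun Y hY a b hea hab hb => ?_⟩
    have k1 := hY0 Y hY a hea (hab.trans hb)
    have k2 := hY0 Y hY b (hea.trans hab) hb
    have e1 := Pool.Agent.H536.OC.TKarM.pr_add (N := Y) hea hab (fun p => h p / ((p : ℝ) - 1))
    have ha : 0 < a := he.trans_le hea
    have hb0 : 0 < b := ha.trans_le hab
    have e2 : Real.log (b / a) = Real.log (b / e) - Real.log (a / e) := by
      rw [Real.log_div hb0.ne' ha.ne', Real.log_div hb0.ne' he.ne', Real.log_div ha.ne' he.ne']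
      ring
    rw [abs_le] at k1 k2 ⊢
    rw [e2]
    constructor <;> linarith [k1.1, k1.2, k2.1, k2.2]
  · exact ⟨0, fun Y _ a b hea hab hb => absurd (hea.trans (hab.trans hb)) he1⟩

end Pool.Agent.H536.OC
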