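import Mathlib
import Pool.Agent.H536.OC.Wa
import Pool.Agent.H536.OC.Wf

open Finset Filter Topology

/-! Subtask (helper536), proved by helper161. -/

namespace Pool.Agent.H536.OC

/-- the residue of the rational number `x` modulo `q` is `a` -/
def lenR (q : ℕ) (x : ℚˣ) (a : (ZMod q)ˣ) : Prop :=
  (((x : ℚ).den : ℕ) : ZMod q) ≠ 0 ∧
    (((x : ℚ).num : ℤ) : ZMod q) = (a : ZMod q) * (((x : ℚ).den : ℕ) : ZMod q)

theorem lenR_one {q : ℕ} [Fact q.Prime] : lenR q 1 1 := by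
  constructor <;> simp

theorem lenR_mul {q : ℕ} [Fact q.Prime] {x y : ℚˣ} {a b : (ZMod q)ˣ} (hx : lenR q x a)
    (hy : lenR q y b) : lenR q (x * y) (a * b) := by
  have h1 : ((((x * y : ℚˣ) : ℚ).den : ℕ) : ZMod q) ≠ 0 := by
    intro h
    rw [ZMod.natCast_eq_zero_iff] at h
    have h2 : q ∣ (x : ℚ).den * (y : ℚ).den := by
      refine h.trans ?_
      rw [Units.val_mul]
      exact Rat.mul_den_dvd _ _
    have h3 : (((x : ℚ).den : ℕ) : ZMod q) * (((y : ℚ).den : ℕ) : ZMod q) = 0 := by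
      rw [← Nat.cast_mul, ZMod.natCast_eq_zero_iff]
      exact h2
    rcases mul_eq_zero.1 h3 with h4 | h4
    · exact hx.1 h4
    · exact hy.1 h4
  refine ⟨h1, ?_⟩
  have h2 := congrArg (Int.cast (R := ZMod q)) (Rat.mul_num_den' (x : ℚ) (y : ℚ))
  push_cast at h2
  rw [hx.2, hy.2] at h2
  rw [Units.val_mul, Units.val_mul]
  have h3 : (((x : ℚ).den : ℕ) : ZMod q) * (((y : ℚ).den : ℕ) : ZMod q) ≠ 0 :=
    mul_ne_zero hx.1 hy.1
  apply mul_right_cancel₀ h3
  linear_combination h2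

theorem lenR_pow {q : ℕ} [Fact q.Prime] {x : ℚˣ} {a : (ZMod q)ˣ} (hx : lenR q x a) (n : ℕ) :
    lenR q (x ^ n) (a ^ n) := by
  induction n with
  | zero => rw [pow_zero, pow_zero]; exact lenR_one
  | succ n ih => rw [pow_succ, pow_succ]; exact lenR_mul ih hx

theorem lenR_vdm {q : ℕ} [Fact q.Prime] {r : ℕ} {w : Fin r → ℚˣ} {u : Fin r → (ZMod q)ˣ}
    (h : ∀ i, lenR q (w i) (u i)) (t : ℕ) : lenR q (vdm w t) (vdm u t) := by
  unfold vdm
  have h1 : ∀ s : Finset (Fin r), lenR q (∏ i ∈ s, w i ^ ((2 * t) ^ (i : ℕ)))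
      (∏ i ∈ s, u i ^ ((2 * t) ^ (i : ℕ))) := by
    intro s
    induction s using Finset.induction_on with
    | empty => rw [prod_empty, prod_empty]; exact lenR_one
    | insert i s hi ih =>
      rw [prod_insert hi, prod_insert hi]
      exact lenR_mul (lenR_pow (h i) _) ih
  exact h1 univ

/-- the group of the `q`-units -/
def lenH (q : ℕ) [Fact q.Prime] : Subgroup ℚˣ where
  carrier := {x | padicValRat q (x : ℚ) = 0}
  one_mem' := by
    show padicValRat q ((1 : ℚˣ) : ℚ) = 0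
    rw [Units.val_one]
    exact padicValRat.one
  mul_mem' := by
    intro x y hx hy
    show padicValRat q ((x * y : ℚˣ) : ℚ) = 0
    rw [Units.val_mul, padicValRat.mul x.ne_zero y.ne_zero]
    have h1 : padicValRat q (x : ℚ) = 0 := hx
    have h2 : padicValRat q (y : ℚ) = 0 := hy
    rw [h1, h2, add_zero]
  inv_mem' := by
    intro x hx
    show padicValRat q ((x⁻¹ : ℚˣ) : ℚ) = 0
    rw [Units.val_inv_eq_inv_val, padicValRat.inv]
    have h1 : padicValRat q (x : ℚ) = 0 := hx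
    rw [h1, neg_zero]

theorem lenH_mem {q : ℕ} [Fact q.Prime] {x : ℚˣ} (h1 : (x : ℚ).num.natAbs < q)
    (h2 : (x : ℚ).den < q) : x ∈ lenH q := by
  show padicValRat q (x : ℚ) = 0
  have h3 : (x : ℚ).num ≠ 0 := Rat.num_ne_zero.2 x.ne_zero
  rw [padicValRat_def]
  have h4 : padicValInt q (x : ℚ).num = 0 := by
    unfold padicValInt
    apply padicValNat.eq_zero_of_not_dvd
    intro h
    exact absurd (Nat.le_of_dvd (Int.natAbs_pos.2 h3) h) (not_le.2 h1)
  have h5 : padicValNat q (x : ℚ).den = 0 := by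
    apply padicValNat.eq_zero_of_not_dvd
    intro h
    exact absurd (Nat.le_of_dvd (x : ℚ).pos h) (not_le.2 h2)
  rw [h4, h5]
  simp

theorem len_ne {q : ℕ} {x : ℚˣ} (h1 : (x : ℚ).num.natAbs < q)
    (h2 : (x : ℚ).den < q) : (((x : ℚ).num : ℤ) : ZMod q) ≠ 0 ∧ (((x : ℚ).den : ℕ) : ZMod q) ≠ 0 := by
  have h3 : (x : ℚ).num ≠ 0 := Rat.num_ne_zero.2 x.ne_zero
  constructor
  · intro h
    rw [ZMod.intCast_zmod_eq_zero_iff_dvd] at h
    have h4 : q ∣ (x : ℚ).num.natAbs := Int.natCast_dvd.1 h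
    exact absurd (Nat.le_of_dvd (Int.natAbs_pos.2 h3) h4) (not_le.2 h1)
  · intro h
    rw [ZMod.natCast_eq_zero_iff] at h
    exact absurd (Nat.le_of_dvd (x : ℚ).pos h) (not_le.2 h2)

theorem len_omega {n : ℕ} (h : ArithmeticFunction.cardFactors n ≤ 3) : n.primeFactors.card ≤ 3 := by
  refine le_trans ?_ h
  rw [ArithmeticFunction.cardFactors_apply]
  show (n.primeFactorsList.toFinset).card ≤ _
  exact List.toFinset_card_le _

/-- the local step -/
theorem len_good (hv : S_VD) (hi : S_ind) (w : Fin 12 → ℚˣ) (q g n' k : ℕ) (hq : q.Prime)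
    (hB : ∀ i, (w i : ℚ).num.natAbs < q ∧ (w i : ℚ).den < q) (hg : q - 1 = g * n') (hn : 0 < n')
    (hcf : ArithmeticFunction.cardFactors n' ≤ 3) (hl : ∀ l : ℕ, l.Prime → l ∣ n' → 68 < l)
    (hbad : ∀ l : ℕ, l.Prime → l ∣ n' → ∃ i, (((w i : ℚ).num : ℤ) : ZMod q) ^ ((q - 1) / l) ≠
      (((w i : ℚ).den : ℕ) : ZMod q) ^ ((q - 1) / l))
    (hk : g ∣ k ∨ ((∃ j : ℕ, g ∣ 2 ^ j * k) ∧
      ∀ u : ZMod q, (((w 0 : ℚ).num : ℤ) : ZMod q) ≠ u ^ 2 * (((w 0 : ℚ).den : ℕ) : ZMod q))) :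
    ∃ t ∈ Icc 1 34, Admits (Subgroup.zpowers (vdm w t)) k q := by
  classical
  have := Fact.mk hq
  obtain ⟨u, hu⟩ : ∃ u : Fin 12 → (ZMod q)ˣ, ∀ i, lenR q (w i) (u i) := by
    refine ⟨fun i => Units.mk0 _ (len_ne (hB i).1 (hB i).2).1 *
      (Units.mk0 _ (len_ne (hB i).1 (hB i).2).2)⁻¹, fun i => ⟨(len_ne (hB i).1 (hB i).2).2, ?_⟩⟩
    rw [Units.val_mul, Units.val_inv_eq_inv_val, Units.val_mk0, Units.val_mk0, mul_assoc,
      inv_mul_cancel₀ (len_ne (hB i).1 (hB i).2).2, mul_one]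
  -- the bad exponents
  obtain ⟨B, hBd⟩ : ∃ B : ℕ → Finset ℕ, ∀ l, B l = (Icc 1 34).filter
      (fun t : ℕ => vdm u t ^ ((q - 1) / l) = 1) := ⟨_, fun _ => rfl⟩
  have hBc : ∀ l ∈ n'.primeFactors, (B l).card ≤ 11 := by
    intro l hl'
    have hlp := Nat.prime_of_mem_primeFactors hl'
    have hln := Nat.dvd_of_mem_primeFactors hl'
    rw [hBd]
    have h1 := hv q l hlp (by rw [hg]; exact Dvd.dvd.mul_left hln g) (hl l hlp hln) u (by
      obtain ⟨i, hi'⟩ := hbad l hlp hln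
      refine ⟨i, fun h => hi' ?_⟩
      have h2 : ((u i : (ZMod q)ˣ) : ZMod q) ^ ((q - 1) / l) = 1 := by
        rw [← Units.val_pow_eq_pow_val, h, Units.val_one]
      rw [(hu i).2, mul_pow, h2, one_mul])
    refine le_trans (card_le_card fun x hx => ?_) h1
    rw [mem_filter] at hx ⊢
    exact hx
  have hcard : (n'.primeFactors.biUnion B).card < (Icc 1 34 : Finset ℕ).card := by
    calc (n'.primeFactors.biUnion B).card ≤ n'.primeFactors.card * 11 :=
          card_biUnion_le_card_mul _ _ _ hBc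
      _ ≤ 3 * 11 := Nat.mul_le_mul_right _ (len_omega hcf)
      _ < (Icc 1 34 : Finset ℕ).card := by simp
  obtain ⟨t, ht, htB⟩ := exists_mem_notMem_of_card_lt_card hcard
  refine ⟨t, ht, ?_⟩
  have hgood : ∀ l : ℕ, l.Prime → l ∣ n' → vdm u t ^ ((q - 1) / l) ≠ 1 := by
    intro l hlp hln h
    apply htB
    rw [mem_biUnion]
    refine ⟨l, Nat.mem_primeFactors.2 ⟨hlp, hln, hn.ne'⟩, ?_⟩
    rw [hBd, mem_filter]
    exact ⟨ht, h⟩
  have hind : (Subgroup.zpowers (vdm u t)).index ∣ k := by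
    refine hi q g n' k (vdm u t) hg hn hgood ?_
    rcases hk with h | ⟨h, h'⟩
    · exact Or.inl h
    · refine Or.inr ⟨h, fun v hv' => ?_⟩
      -- `vdm u t = u 0 * s ^ 2`
      have e1 : vdm u t = u 0 * (∏ i : Fin 11, u i.succ ^ (t * (2 * t) ^ (i : ℕ))) ^ 2 := by
        unfold vdm
        rw [Fin.prod_univ_succ, ← prod_pow]
        congr 1
        · simp
        · refine prod_congr rfl fun i _ => ?_
          rw [← pow_mul, Fin.val_succ]
          congr 1
          ring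
      obtain ⟨s, hs⟩ : ∃ s : (ZMod q)ˣ, s = ∏ i : Fin 11, u i.succ ^ (t * (2 * t) ^ (i : ℕ)) :=
        ⟨_, rfl⟩
      rw [← hs] at e1
      rw [e1, Units.val_mul, Units.val_pow_eq_pow_val] at hv'
      apply h' (v * ((s⁻¹ : (ZMod q)ˣ) : ZMod q))
      rw [(hu 0).2]
      congr 1
      rw [mul_pow, ← hv', mul_assoc, ← mul_pow, ← Units.val_mul, mul_inv_cancel, Units.val_one,
        one_pow, mul_one]
  refine ⟨?_, ?_⟩
  · intro x hx
    have h1 : Subgroup.zpowers (vdm w t) ≤ lenH q := by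
      rw [Subgroup.zpowers_le]
      exact Subgroup.prod_mem _ fun i _ => Subgroup.pow_mem _ (lenH_mem (hB i).1 (hB i).2) _
    exact h1 hx
  · refine dvd_trans (Subgroup.index_dvd_of_le ?_) hind
    rw [Subgroup.zpowers_le]
    exact Subgroup.subset_closure ⟨vdm w t, Subgroup.mem_zpowers _, (lenR_vdm hu t).2⟩

theorem len_class {p : ℕ} (hp : p.Prime) {k : ℕ} (hk : k < p) (a b : Fin k → ℤ)
    (ha : ∀ i, ¬ (p : ℤ) ∣ a i) : ∃ n : ℕ, ∀ i, ¬ (p : ℤ) ∣ a i * n + b i := by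
  by_contra h
  push Not at h
  choose f hf using h
  obtain ⟨x, hx, y, hy, hxy, he⟩ := Finset.exists_ne_map_eq_of_card_lt_of_maps_to (s := range p)
    (t := (univ : Finset (Fin k))) (f := f) (by simpa using hk) (fun _ _ => mem_univ _)
  have h1 := hf x
  have h2 := hf y
  rw [← he] at h2
  have h3 : (p : ℤ) ∣ a (f x) * ((x : ℤ) - y) := by
    have h4 := dvd_sub h1 h2
    have h5 : a (f x) * (x : ℤ) + b (f x) - (a (f x) * (y : ℤ) + b (f x)) = a (f x) * ((x : ℤ) - y) := by ring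
    rwa [h5] at h4
  rcases (Nat.prime_iff_prime_int.1 hp).dvd_or_dvd h3 with h4 | h4
  · exact ha _ h4
  · have hx' := mem_range.1 hx
    have hy' := mem_range.1 hy
    have h5 : (x : ℤ) - y = 0 := by
      apply Int.eq_zero_of_abs_lt_dvd h4
      rw [abs_lt]
      constructor <;> omega
    apply hxy
    omega

/-- admissibility -/
theorem len_adm (f e g : ℕ) (hf2 : 2 ∣ f) (hf : 0 < f) (hcop : e.Coprime f)
    (hg : g = Nat.gcd (e - 1) f) (p : ℕ) (hp : p.Prime) :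
    ∃ n : ℕ, ¬ p ∣ f * n + e ∧ ¬ (p : ℤ) ∣ ((f / g : ℕ) : ℤ) * n + (((e - 1) / g : ℕ) : ℤ) := by
  have hg0 : 0 < g := by rw [hg]; exact Nat.gcd_pos_of_pos_right _ hf
  have hgf : g ∣ f := by rw [hg]; exact Nat.gcd_dvd_right _ _
  have hge : g ∣ e - 1 := by rw [hg]; exact Nat.gcd_dvd_left _ _
  by_cases hpf : p ∣ f
  · have hpe : ∀ n : ℕ, ¬ p ∣ f * n + e := by
      intro n h
      have h1 : p ∣ e := (Nat.dvd_add_right (Dvd.dvd.mul_right hpf n)).1 h
      have h2 := Nat.dvd_gcd h1 hpf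
      rw [hcop] at h2
      exact hp.one_lt.ne' (Nat.dvd_one.1 h2)
    by_cases hpa : p ∣ f / g
    · refine ⟨0, hpe 0, fun h => ?_⟩
      have h1 : p ∣ (e - 1) / g := by
        rw [Nat.cast_zero, mul_zero, zero_add] at h
        exact_mod_cast h
      have h2 : Nat.Coprime ((e - 1) / g) (f / g) := by
        have := Nat.coprime_div_gcd_div_gcd (m := e - 1) (n := f) (by rw [← hg]; exact hg0)
        rwa [← hg] at this
      have h3 := Nat.dvd_gcd h1 hpa
      rw [h2] at h3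
      exact hp.one_lt.ne' (Nat.dvd_one.1 h3)
    · by_cases hpb : p ∣ (e - 1) / g
      · refine ⟨1, hpe 1, fun h => hpa ?_⟩
        have h1 : p ∣ f / g + (e - 1) / g := by
          rw [Nat.cast_one, mul_one] at h
          exact_mod_cast h
        exact (Nat.dvd_add_left hpb).1 h1
      · refine ⟨0, hpe 0, fun h => hpb ?_⟩
        rw [Nat.cast_zero, mul_zero, zero_add] at h
        exact_mod_cast h
  · have hp3 : 2 < p := by
      have h2 := hp.two_le
      rcases Nat.lt_or_ge 2 p with h | h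
      · exact h
      · have : p = 2 := by omega
        rw [this] at hpf
        exact absurd hf2 hpf
    have hpa : ¬ p ∣ f / g := fun h => hpf (h.trans (Nat.div_dvd_of_dvd hgf))
    obtain ⟨n, hn⟩ := len_class hp (k := 2) hp3
      (Fin.cons ((f : ℕ) : ℤ) (fun _ => ((f / g : ℕ) : ℤ)) : Fin 2 → ℤ)
      (Fin.cons ((e : ℕ) : ℤ) (fun _ => (((e - 1) / g : ℕ) : ℤ)) : Fin 2 → ℤ) (by
        intro i
        refine Fin.cases ?_ (fun i => ?_) i
        · rw [Fin.cons_zero]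
          exact fun h => hpf (by exact_mod_cast h)
        · rw [Fin.cons_succ]
          exact fun h => hpa (by exact_mod_cast h))
    refine ⟨n, fun h => ?_, ?_⟩
    · have h1 := hn 0
      rw [Fin.cons_zero, Fin.cons_zero] at h1
      exact h1 (by exact_mod_cast h)
    · have h1 := hn (Fin.succ 0)
      rw [Fin.cons_succ, Fin.cons_succ] at h1
      exact h1

theorem len_exp5 : (68 : ℝ) ≤ Real.exp 5 := by
  have h1 := Real.exp_one_gt_d9
  have h2 : Real.exp 5 = Real.exp 1 ^ 5 := by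
    rw [← Real.exp_nat_mul]
    norm_num
  rw [h2]
  have h3 : (2.7 : ℝ) ≤ Real.exp 1 := by linarith
  calc (68 : ℝ) ≤ 2.7 ^ 5 := by norm_num
    _ ≤ Real.exp 1 ^ 5 := pow_le_pow_left₀ (by norm_num) h3 5

theorem len (h : S_U5) (hg : S_GM) (hv : S_VD) (hi : S_ind) : S_Len := by
  classical
  obtain ⟨δ, ε, T0, hδ, hε, hU⟩ := h 0
  have hm : 0 < min δ (1 / 500) := lt_min hδ (by norm_num)
  refine ⟨min δ (1 / 500) / 2, by positivity, fun w hw => ?_⟩
  obtain ⟨C, hC, hGM⟩ := hg 12 w (by norm_num) hw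
  obtain ⟨B, hBd⟩ : ∃ B : ℕ, B = ∑ i, ((w i : ℚ).num.natAbs + (w i : ℚ).den) := ⟨_, rfl⟩
  have hBi : ∀ i, (w i : ℚ).num.natAbs ≤ B ∧ (w i : ℚ).den ≤ B := by
    intro i
    have h1 : (w i : ℚ).num.natAbs + (w i : ℚ).den ≤ B := by
      rw [hBd]
      exact single_le_sum (f := fun i => (w i : ℚ).num.natAbs + (w i : ℚ).den)
        (fun _ _ => Nat.zero_le _) (mem_univ i)
    omega
  obtain ⟨M, hM⟩ : ∃ M : ℝ, M = max 100000 (max (2 * |T0| + 4) (max (400 * (|Real.log C| + 4))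
    (4 * Real.log ((B : ℝ) + 1)))) := ⟨_, rfl⟩
  refine ⟨⌈Real.exp M⌉₊, ?_⟩
  intro X hX f e k hf2 hf hfX hcop hk
  have hX1 : Real.exp M ≤ X := (Nat.le_ceil _).trans (by exact_mod_cast hX)
  have hXpos : (0 : ℝ) < X := (Real.exp_pos _).trans_le hX1
  obtain ⟨L, hL⟩ : ∃ L, L = Real.log X := ⟨_, rfl⟩
  have hXL : (X : ℝ) = Real.exp L := by rw [hL, Real.exp_log hXpos]
  have hL1 : M ≤ L := by
    rw [hL]
    exact (Real.le_log_iff_exp_le hXpos).2 hX1
  have hLa : 100000 ≤ L := le_trans (by rw [hM]; exact le_max_left _ _) hL1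
  have hLb : 2 * |T0| + 4 ≤ L :=
    le_trans (by rw [hM]; exact (le_max_left _ _).trans (le_max_right _ _)) hL1
  have hLc : 400 * (|Real.log C| + 4) ≤ L :=
    le_trans (by
      rw [hM]
      exact (le_max_left _ _).trans ((le_max_right _ _).trans (le_max_right _ _))) hL1
  have hLd : 4 * Real.log ((B : ℝ) + 1) ≤ L :=
    le_trans (by
      rw [hM]
      exact (le_max_right _ _).trans ((le_max_right _ _).trans (le_max_right _ _))) hL1
  have h7a : Real.log 3 ≤ 2 := by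
    rw [Real.log_le_iff_le_exp (by norm_num)]
    have h1 := Real.exp_one_gt_d9
    have h2 : Real.exp 2 = Real.exp 1 * Real.exp 1 := by rw [← Real.exp_add]; norm_num
    rw [h2]
    nlinarith
  have h7b : 0 < Real.log 3 := Real.log_pos (by norm_num)
  obtain ⟨T, hT⟩ : ∃ T, T = 100 / 101 * (L - Real.log 3) := ⟨_, rfl⟩
  have hTa : 100 / 101 * (L - 2) ≤ T := by rw [hT]; linarith
  have hTb : T ≤ 100 / 101 * L := by rw [hT]; linarith
  have hT2 : L / 2 ≤ T := by linarith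
  have hT0 : T0 ≤ T := by
    have h1 := le_abs_self T0
    have h2 := abs_nonneg T0
    linarith
  have hrp : ∀ a : ℝ, (X : ℝ) ^ a = Real.exp (L * a) := by
    intro a
    rw [Real.rpow_def_of_pos hXpos, ← hL]
  rw [hrp] at hfX
  have hfL : ∀ a : ℝ, min δ (1 / 500) ≤ a → (f : ℝ) ≤ Real.exp (a * T) := by
    intro a ha
    refine hfX.trans (Real.exp_le_exp.2 ?_)
    have ha0 : 0 < a := hm.trans_le ha
    have h1 : L * (min δ (1 / 500) / 2) ≤ L * (a / 2) := by
      have : 0 ≤ L := by linarith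
      gcongr
    have h2 : a * (L / 2) ≤ a * T := by
      gcongr
    linarith
  have h101 : 3 * Real.exp (101 / 100 * T) = X := by
    rw [hT]
    have : 101 / 100 * (100 / 101 * (L - Real.log 3)) = L - Real.log 3 := by ring
    rw [this, Real.exp_sub, Real.exp_log (by norm_num), ← hXL]
    ring
  have h98 : (X : ℝ) ^ (97 / 100 : ℝ) ≤ Real.exp (98 / 100 * T) / 68 := by
    rw [hrp, le_div_iff₀ (by norm_num)]
    calc Real.exp (L * (97 / 100)) * 68 ≤ Real.exp (L * (97 / 100)) * Real.exp 5 :=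
          mul_le_mul_of_nonneg_left len_exp5 (Real.exp_pos _).le
      _ = Real.exp (L * (97 / 100) + 5) := (Real.exp_add _ _).symm
      _ ≤ Real.exp (98 / 100 * T) := Real.exp_le_exp.2 (by linarith)
  have h98' : (X : ℝ) ^ (97 / 100 : ℝ) ≤ Real.exp (98 / 100 * T) :=
    h98.trans (div_le_self (Real.exp_pos _).le (by norm_num))
  -- the residue
  have hf2' : 2 ≤ f := Nat.le_of_dvd hf hf2
  obtain ⟨e0, he0⟩ : ∃ e0, e0 = e % f := ⟨_, rfl⟩
  have he0f : e0 < f := by rw [he0]; exact Nat.mod_lt _ hf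
  have he0e : e0 ≡ e [MOD f] := by rw [he0]; exact Nat.mod_modEq _ _
  have hcop0 : e0.Coprime f := (Nat.ModEq.gcd_eq he0e).trans hcop
  have he01 : 1 ≤ e0 := by
    rcases Nat.eq_zero_or_pos e0 with h0 | h0
    · rw [h0, Nat.coprime_zero_left] at hcop0
      omega
    · exact h0
  have he1 : 1 ≤ e := by
    rcases Nat.eq_zero_or_pos e with h0 | h0
    · rw [h0, Nat.coprime_zero_left] at hcop
      omega
    · exact h0
  obtain ⟨g, hgd⟩ : ∃ g, g = Nat.gcd (e0 - 1) f := ⟨_, rfl⟩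
  have hge : Nat.gcd (e - 1) f = g := by
    rw [hgd]
    refine Nat.ModEq.gcd_eq ?_
    have h1 : e0 - 1 + 1 ≡ e - 1 + 1 [MOD f] := by
      rw [Nat.sub_add_cancel he01, Nat.sub_add_cancel he1]
      exact he0e
    exact (Nat.ModEq.add_right_cancel' 1 h1).symm
  rw [hge] at hk
  have hg0 : 0 < g := by rw [hgd]; exact Nat.gcd_pos_of_pos_right _ hf
  have hgf : g ∣ f := by rw [hgd]; exact Nat.gcd_dvd_right _ _
  have hge0 : g ∣ e0 - 1 := by rw [hgd]; exact Nat.gcd_dvd_left _ _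
  have hfg : 0 < f / g := Nat.div_pos (Nat.le_of_dvd hf hgf) hg0
  obtain ⟨S, hS1, hS2⟩ := hU T hT0 f e0 ((f / g : ℕ) : ℤ) (((e0 - 1) / g : ℕ) : ℤ) (fun _ => ∅)
    he01 he0f.le (hfL δ (min_le_left _ _)) (by exact_mod_cast hfg.ne') (by
      intro h1
      have h2 : f * ((e0 - 1) / g) = e0 * (f / g) := by exact_mod_cast h1
      have h3 : f * ((e0 - 1) / g) = (f / g) * (e0 - 1) := by
        obtain ⟨x, hx⟩ := hgf
        obtain ⟨y, hy⟩ := hge0
        rw [hx, hy, Nat.mul_div_cancel_left _ hg0, Nat.mul_div_cancel_left _ hg0]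
        ring
      rw [h3, mul_comm e0] at h2
      have h4 := Nat.eq_of_mul_eq_mul_left hfg h2
      omega) (by
      rw [Int.cast_natCast, abs_of_nonneg (Nat.cast_nonneg _)]
      have h1 : ((f / g : ℕ) : ℝ) ≤ f := by exact_mod_cast Nat.div_le_self _ _
      have h2 := hfL (1 / 500) (min_le_right _ _)
      rw [one_div_mul_eq_div] at h2
      exact h1.trans h2) (by
      rw [Int.cast_natCast, abs_of_nonneg (Nat.cast_nonneg _)]
      have h1 : (((e0 - 1) / g : ℕ) : ℝ) ≤ f := by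
        have : (e0 - 1) / g ≤ e0 - 1 := Nat.div_le_self _ _
        exact_mod_cast (by omega : (e0 - 1) / g ≤ f)
      have h2 := hfL (1 / 500) (min_le_right _ _)
      refine h1.trans (h2.trans (Real.exp_le_exp.2 ?_))
      linarith) (fun p _ => by simp) (by
      intro p hp
      obtain ⟨n, h1, h2⟩ := len_adm f e0 g hf2 hf hcop0 hgd p hp
      exact ⟨n, h1, h2, by simp⟩)
  obtain ⟨qq, hqq⟩ : ∃ qq : ℕ → ℕ, ∀ n, qq n = f * n + e0 := ⟨_, fun _ => rfl⟩
  obtain ⟨nn, hnn⟩ : ∃ nn : ℕ → ℕ, ∀ n, nn n = (f / g) * n + (e0 - 1) / g := ⟨_, fun _ => rfl⟩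
  have hinj : Function.Injective qq := by
    intro n n' h1
    rw [hqq, hqq] at h1
    have h3 : f * n = f * n' := by omega
    exact Nat.eq_of_mul_eq_mul_left hf h3
  have hqg : ∀ n, qq n - 1 = g * nn n := by
    intro n
    rw [hqq, hnn, mul_add, ← mul_assoc, Nat.mul_div_cancel' hgf, Nat.mul_div_cancel' hge0]
    omega
  have hqe : ∀ n, qq n ≡ e [MOD f] := by
    intro n
    refine Nat.ModEq.trans ?_ he0e
    rw [hqq]
    show (f * n + e0) % f = e0 % f
    rw [Nat.mul_add_mod]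
  -- the properties of the elements of `S`
  have hS3 : ∀ n ∈ S, (qq n).Prime ∧ Real.exp (98 / 100 * T) < ((qq n : ℕ) : ℝ) ∧
      ((qq n : ℕ) : ℝ) ≤ X ∧ (∀ p : ℕ, p.Prime → p ∣ nn n → Real.exp (T / 9) < p) ∧
      0 < nn n ∧ ArithmeticFunction.cardFactors (nn n) ≤ 3 := by
    intro n hn
    obtain ⟨h1, h2, h3, _, h5, h6, h7⟩ := hS2 n hn
    have e1 : ((f / g : ℕ) : ℤ) * n + (((e0 - 1) / g : ℕ) : ℤ) = ((nn n : ℕ) : ℤ) := by
      rw [hnn]
      push_cast
      ring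
    rw [e1, Int.natAbs_natCast] at h6 h7
    rw [h101] at h3
    rw [hqq]
    refine ⟨h1, h2, h3, fun p hp hpn => ?_, by omega, h7⟩
    by_contra hc
    push Not at hc
    refine h5 p hp hc ?_
    rw [e1]
    exact_mod_cast hpn
  have hB : ∀ n ∈ S, ∀ i, (w i : ℚ).num.natAbs < qq n ∧ (w i : ℚ).den < qq n := by
    intro n hn i
    have h1 := (hS3 n hn).2.1
    have h2 : ((B : ℝ) + 1) ≤ Real.exp (98 / 100 * T) := by
      rw [← Real.log_le_iff_le_exp (by positivity)]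
      have h3 : 0 ≤ Real.log ((B : ℝ) + 1) := Real.log_nonneg (by
        have : (0 : ℝ) ≤ B := Nat.cast_nonneg _
        linarith)
      linarith
    have h3 : B + 1 < qq n := by
      have : ((B + 1 : ℕ) : ℝ) < qq n := by
        push_cast
        linarith
      exact_mod_cast this
    have h4 := hBi i
    omega
  obtain ⟨Bad, hBad⟩ : ∃ Bad : ℕ → Prop, ∀ n, Bad n ↔ ∃ l : ℕ, l.Prime ∧ l ∣ nn n ∧
      ∀ i, (((w i : ℚ).num : ℤ) : ZMod (qq n)) ^ ((qq n - 1) / l) =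
        (((w i : ℚ).den : ℕ) : ZMod (qq n)) ^ ((qq n - 1) / l) := ⟨_, fun _ => Iff.rfl⟩
  have hgood : ∀ n ∈ S, ¬ Bad n → ∃ t ∈ Icc 1 34, Admits (Subgroup.zpowers (vdm w t)) k (qq n) := by
    intro n hn hb
    obtain ⟨h1, h2, h3, h4, h5, h6⟩ := hS3 n hn
    refine len_good hv hi w (qq n) g (nn n) k h1 (hB n hn) (hqg n) h5 h6 ?_ ?_ ?_
    · intro l hl hln
      have h8 := h4 l hl hln
      have h9 : Real.exp 5 ≤ Real.exp (T / 9) := Real.exp_le_exp.2 (by linarith)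
      have h10 : (68 : ℝ) < l := by
        have := len_exp5
        linarith
      exact_mod_cast h10
    · intro l hl hln
      by_contra hc
      push Not at hc
      exact hb ((hBad n).2 ⟨l, hl, hln, hc⟩)
    · rcases hk with hk | ⟨hk, hk'⟩
      · exact Or.inl hk
      · exact Or.inr ⟨hk, hk' (qq n) h1 (hqe n)⟩
  -- few bad elements
  have hbadc : ((S.filter Bad).card : ℝ) ≤ Real.exp (98 / 100 * T) / 2 := by
    obtain ⟨y, hy⟩ : ∃ y, y = Real.exp (Real.log 3 + (101 / 100 * T - T / 9)) := ⟨_, rfl⟩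
    have hyX : y = X / Real.exp (T / 9) := by
      rw [hy, Real.exp_add, Real.exp_log (by norm_num), Real.exp_sub, ← h101]
      ring
    have hy1 : 1 ≤ y := by
      rw [hy]
      exact Real.one_le_exp (by linarith)
    have h1 := hGM y hy1 ((S.filter Bad).image qq) (by
      intro p hp
      obtain ⟨n, hn, rfl⟩ := mem_image.1 hp
      rw [mem_filter, hBad] at hn
      obtain ⟨hnS, l, hl, hln, hli⟩ := hn
      obtain ⟨h1, h2, h3, h4, h5, h6⟩ := hS3 n hnS
      have h7 : l ∣ qq n - 1 := by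
        rw [hqg]
        exact Dvd.dvd.mul_left hln g
      have h8 : 0 < qq n - 1 := by
        rw [hqg]
        exact Nat.mul_pos hg0 h5
      refine ⟨h1, (qq n - 1) / l, Nat.div_pos (Nat.le_of_dvd h8 h7) hl.pos, ?_, fun i => ?_⟩
      · have h9 : (((qq n - 1) / l : ℕ) : ℝ) ≤ ((qq n - 1 : ℕ) : ℝ) / (l : ℝ) := Nat.cast_div_le
        have h10 : ((qq n - 1 : ℕ) : ℝ) ≤ X := by
          refine le_trans ?_ h3
          exact_mod_cast Nat.sub_le _ _
        have h11 := h4 l hl hln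
        rw [hyX]
        refine h9.trans ?_
        exact div_le_div₀ hXpos.le h10 (Real.exp_pos _) h11.le
      · have h9 := len_ne (hB n hnS i).1 (hB n hnS i).2
        exact ⟨h9.1, h9.2, hli i⟩)
    rw [card_image_of_injective _ hinj] at h1
    refine h1.trans ?_
    have h2 : C * y ^ (1 + 1 / ((12 : ℕ) : ℝ)) =
        Real.exp (Real.log C + (Real.log 3 + (101 / 100 * T - T / 9)) * (13 / 12)) := by
      rw [Real.exp_add, Real.exp_log hC, hy, ← Real.exp_mul]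
      norm_num
    rw [h2]
    have h3 : Real.exp (98 / 100 * T) / 2 ≥ Real.exp (98 / 100 * T - 1) := by
      rw [Real.exp_sub]
      have h4 := Real.add_one_le_exp (1 : ℝ)
      have h5 := Real.exp_pos (98 / 100 * T)
      refine div_le_div_of_nonneg_left h5.le (by norm_num) (by linarith)
    refine le_trans (Real.exp_le_exp.2 ?_) h3
    have h4 := le_abs_self (Real.log C)
    have h5 := abs_nonneg (Real.log C)
    linarith
  -- pigeonhole
  have hpig : ∃ t ∈ Icc 1 34, (X : ℝ) ^ (97 / 100 : ℝ) ≤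
      ((S.filter (fun n => Admits (Subgroup.zpowers (vdm w t)) k (qq n))).card : ℝ) := by
    by_contra hc
    push Not at hc
    have h1 : S.filter (fun n => ¬ Bad n) ⊆
        (Icc 1 34).biUnion fun t => S.filter (fun n => Admits (Subgroup.zpowers (vdm w t)) k (qq n)) := by
      intro n hn
      rw [mem_filter] at hn
      obtain ⟨t, ht, h2⟩ := hgood n hn.1 hn.2
      rw [mem_biUnion]
      exact ⟨t, ht, mem_filter.2 ⟨hn.1, h2⟩⟩
    have h2 : ((S.filter (fun n => ¬ Bad n)).card : ℝ) ≤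
        ∑ t ∈ Icc 1 34, ((S.filter (fun n => Admits (Subgroup.zpowers (vdm w t)) k (qq n))).card : ℝ) := by
      exact_mod_cast (card_le_card h1).trans card_biUnion_le
    have h3 : ∑ t ∈ Icc 1 34, ((S.filter (fun n => Admits (Subgroup.zpowers (vdm w t)) k (qq n))).card : ℝ) ≤
        ∑ _t ∈ (Icc 1 34 : Finset ℕ), Real.exp (98 / 100 * T) / 68 :=
      sum_le_sum fun t ht => (hc t ht).le.trans h98
    have h4 : ∑ _t ∈ (Icc 1 34 : Finset ℕ), Real.exp (98 / 100 * T) / 68 = Real.exp (98 / 100 * T) / 2 := by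
      rw [sum_const, Nat.card_Icc, nsmul_eq_mul]
      push_cast
      ring
    have h5 : (S.filter Bad).card + (S.filter (fun n => ¬ Bad n)).card = S.card :=
      card_filter_add_card_filter_not _
    have h6 : ((S.filter Bad).card : ℝ) + ((S.filter (fun n => ¬ Bad n)).card : ℝ) = S.card := by
      exact_mod_cast h5
    linarith
  obtain ⟨t, ht, htc⟩ := hpig
  refine ⟨t, ht, (S.filter (fun n => Admits (Subgroup.zpowers (vdm w t)) k (qq n))).image qq, ?_, ?_⟩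
  · rw [card_image_of_injective _ hinj]
    exact htc
  · intro q hq
    obtain ⟨n, hn, rfl⟩ := mem_image.1 hq
    rw [mem_filter] at hn
    obtain ⟨h1, h2, h3, _⟩ := hS3 n hn.1
    exact ⟨h1, by exact_mod_cast h3, h98'.trans h2.le, hqe n, hn.2⟩

/-- groups of rank at least 12 -/
theorem lenW (h : S_Len) : ∃ δ : ℝ, 0 < δ ∧ ∀ W : Subgroup ℚˣ, W.FG → (∃ w : Fin 12 → ℚˣ, (∀ i, w i ∈ W) ∧ MI w) →
    ∃ X0 : ℕ, ∀ X : ℕ, X0 ≤ X → ∀ f e k : ℕ, 2 ∣ f → 0 < f → (f : ℝ) ≤ (X : ℝ) ^ δ → e.Coprime f →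
    Nat.gcd (e - 1) f ∣ k →
    ∃ S : Finset ℕ, (X : ℝ) ^ (97 / 100 : ℝ) ≤ S.card ∧ ∀ q ∈ S, q.Prime ∧ q ≤ X ∧ q ≡ e [MOD f] ∧ Admits W k q := by
  classical
  obtain ⟨δ, hδ, h1⟩ := h
  refine ⟨δ, hδ, fun W hW ⟨w, hwW, hw⟩ => ?_⟩
  obtain ⟨X0, h2⟩ := h1 w hw
  obtain ⟨gs, hgs⟩ := hW
  obtain ⟨B, hBd⟩ : ∃ B : ℕ, B = ∑ x ∈ gs, ((x : ℚ).num.natAbs + (x : ℚ).den) := ⟨_, rfl⟩
  refine ⟨max X0 ((B + 1) ^ 2 + 1), fun X hX f e k hf2 hf hfX hcop hk => ?_⟩
  have hX0 : X0 ≤ X := (le_max_left _ _).trans hX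
  have hX1 : (B + 1) ^ 2 + 1 ≤ X := (le_max_right _ _).trans hX
  have hX2 : (1 : ℝ) ≤ X := by
    have : 1 ≤ X := by omega
    exact_mod_cast this
  have hX3 : ((B : ℝ) + 1) ≤ (X : ℝ) ^ (97 / 100 : ℝ) := by
    have h3 : (X : ℝ) ^ (1 / 2 : ℝ) ≤ (X : ℝ) ^ (97 / 100 : ℝ) :=
      Real.rpow_le_rpow_of_exponent_le hX2 (by norm_num)
    refine le_trans ?_ h3
    rw [← Real.sqrt_eq_rpow]
    apply Real.le_sqrt_of_sq_le
    have h4 : (((B + 1) ^ 2 + 1 : ℕ) : ℝ) ≤ X := by exact_mod_cast hX1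
    push_cast at h4
    linarith
  obtain ⟨t, -, S, hS1, hS2⟩ := h2 X hX0 f e k hf2 hf hfX hcop (Or.inl hk)
  refine ⟨S, hS1, fun q hq => ?_⟩
  obtain ⟨g1, g2, g3, g4, g5, g6⟩ := hS2 q hq
  have := Fact.mk g1
  refine ⟨g1, g2, g4, ?_, ?_⟩
  · have hqB : B < q := by
      have : (B : ℝ) < q := by linarith
      exact_mod_cast this
    have h3 : W ≤ lenH q := by
      rw [← hgs, Subgroup.closure_le]
      intro x hx
      have h4 : (x : ℚ).num.natAbs + (x : ℚ).den ≤ B := by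
        rw [hBd]
        exact single_le_sum (f := fun x : ℚˣ => (x : ℚ).num.natAbs + (x : ℚ).den)
          (fun _ _ => Nat.zero_le _) (mem_coe.1 hx)
      exact lenH_mem (by omega) (by omega)
    exact fun x hx => h3 hx
  · refine dvd_trans (Subgroup.index_dvd_of_le (Subgroup.closure_mono ?_)) g6
    rintro u ⟨x, hx, hxu⟩
    refine ⟨x, ?_, hxu⟩
    have h3 : Subgroup.zpowers (vdm w t) ≤ W := by
      rw [Subgroup.zpowers_le]
      exact Subgroup.prod_mem _ fun i _ => Subgroup.pow_mem _ (hwW i) _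
    exact h3 hx

end Pool.Agent.H536.OC
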