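import Mathlib
import Pool.Agent.H536.OC.Wg

open Finset Filter Topology

/-! Subtask (helper536), proved by helper720. -/

namespace Pool.Agent.H536.OC

/-- the value of `f` at the point `(x, n - x)` of the line `x + y = n` -/
noncomputable def lv (f : MvPolynomial (Fin 2) ℤ) (n x : ℤ) : ℤ := MvPolynomial.eval ![x, n - x] f

/-- the linear polynomial `α x + β y + γ` -/
noncomputable def lf (α β γ : ℤ) : MvPolynomial (Fin 2) ℤ :=
  MvPolynomial.C α * MvPolynomial.X 0 + MvPolynomial.C β * MvPolynomial.X 1 + MvPolynomial.C γ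

theorem lv_lf (α β γ n x : ℤ) : lv (lf α β γ) n x = (α - β) * x + (β * n + γ) := by
  simp [lv, lf]
  ring

/-- the polynomial `f (x₀ + u t, n - x₀ - u t)` in `t` -/
noncomputable def lp (f : MvPolynomial (Fin 2) ℤ) (n x₀ u : ℤ) : Polynomial ℤ :=
  MvPolynomial.aeval ![Polynomial.C u * Polynomial.X + Polynomial.C x₀,
    Polynomial.C (-u) * Polynomial.X + Polynomial.C (n - x₀)] f

theorem lp_eval (f : MvPolynomial (Fin 2) ℤ) (n x₀ u t : ℤ) :
    (lp f n x₀ u).eval t = lv f n (x₀ + u * t) := by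
  unfold lp lv
  induction f using MvPolynomial.induction_on with
  | C a => simp
  | add p q hp hq => simp only [map_add, Polynomial.eval_add, hp, hq]
  | mul_X p i hp =>
    rw [map_mul, Polynomial.eval_mul, hp, map_mul, MvPolynomial.aeval_X, MvPolynomial.eval_X]
    congr 1
    fin_cases i
    · simp
      ring
    · simp
      ring

theorem lp_deg {f : MvPolynomial (Fin 2) ℤ} {D : ℕ} (hf : f.totalDegree ≤ D) (n x₀ u : ℤ) :
    (lp f n x₀ u).natDegree ≤ D := by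
  have h := MvPolynomial.aeval_natDegree_le (n := 1) f hf
    ![Polynomial.C u * Polynomial.X + Polynomial.C x₀,
    Polynomial.C (-u) * Polynomial.X + Polynomial.C (n - x₀)] (by
      intro i
      fin_cases i
      · exact Polynomial.natDegree_linear_le
      · exact Polynomial.natDegree_linear_le)
  rw [mul_one] at h
  exact h

theorem lv_congr {p : ℕ} (f : MvPolynomial (Fin 2) ℤ) (n : ℤ) {x x' : ℤ} (h : (p : ℤ) ∣ x - x') :
    (p : ℤ) ∣ lv f n x ↔ (p : ℤ) ∣ lv f n x' := by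
  have h1 := h.trans (Polynomial.sub_dvd_eval_sub x x' (lp f n 0 1))
  rw [lp_eval, lp_eval, zero_add, zero_add, one_mul, one_mul] at h1
  constructor
  · intro hd
    have := dvd_sub hd h1
    simpa using this
  · intro hd
    have := dvd_add h1 hd
    simpa using this

theorem lv_bound (f : MvPolynomial (Fin 2) ℤ) {D : ℕ} (hf : f.totalDegree ≤ D) : ∃ C : ℝ, 0 ≤ C ∧
    ∀ n : ℕ, 1 ≤ n → ∀ x : ℤ, 0 ≤ x → x ≤ n → |((lv f n x : ℤ) : ℝ)| ≤ C * (n : ℝ) ^ D := by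
  refine ⟨∑ d ∈ f.support, |((f.coeff d : ℤ) : ℝ)|, Finset.sum_nonneg fun _ _ => abs_nonneg _, ?_⟩
  intro n hn x hx0 hxn
  have hn1 : (1 : ℝ) ≤ n := by exact_mod_cast hn
  unfold lv
  rw [MvPolynomial.eval_eq']
  rw [Finset.sum_mul]
  push_cast
  refine (Finset.abs_sum_le_sum_abs _ _).trans (Finset.sum_le_sum fun d hd => ?_)
  rw [Fin.prod_univ_two]
  simp only [Matrix.cons_val_zero, Matrix.cons_val_one]
  rw [abs_mul]
  refine mul_le_mul_of_nonneg_left ?_ (abs_nonneg _)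
  have h1 : |((x : ℤ) : ℝ)| ≤ n := by
    rw [abs_of_nonneg (by exact_mod_cast hx0)]
    exact_mod_cast hxn
  have h2 : |(((n : ℤ) - x : ℤ) : ℝ)| ≤ n := by
    rw [abs_of_nonneg (by exact_mod_cast (by linarith : (0 : ℤ) ≤ (n : ℤ) - x))]
    push_cast
    have : (0 : ℝ) ≤ x := by exact_mod_cast hx0
    linarith
  have h3 : d 0 + d 1 ≤ D := by
    have h4 := MvPolynomial.le_totalDegree hd
    rw [Finsupp.sum_fintype _ _ (fun _ => rfl), Fin.sum_univ_two] at h4
    exact h4.trans hf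
  rw [abs_mul, abs_pow, abs_pow]
  calc |((x : ℤ) : ℝ)| ^ d 0 * |(((n : ℤ) - x : ℤ) : ℝ)| ^ d 1 ≤ (n : ℝ) ^ d 0 * (n : ℝ) ^ d 1 := by
        gcongr
    _ = (n : ℝ) ^ (d 0 + d 1) := (pow_add _ _ _).symm
    _ ≤ (n : ℝ) ^ D := pow_le_pow_right₀ hn1 h3

/-- the starting point -/
theorem line_start {M q : ℕ} (hM : 1 ≤ M) (hq : 1 ≤ q) (K r s : ℤ) (hs : s = 1 ∨ s = -1) :
    ∃ (x₀ : ℤ) (d : ℕ), 1 ≤ d ∧ d ≤ M * q ∧ (q : ℤ) ∣ x₀ - r ∧ s * ((M : ℤ) * x₀ + K) = d := by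
  have hs2 : s * s = 1 := by rcases hs with rfl | rfl <;> norm_num
  obtain ⟨Q, hQ⟩ : ∃ Q : ℤ, Q = (M : ℤ) * q := ⟨_, rfl⟩
  have hQ0 : 0 < Q := by
    rw [hQ]
    have h1 : (0 : ℤ) < M := by exact_mod_cast hM
    have h2 : (0 : ℤ) < q := by exact_mod_cast hq
    positivity
  obtain ⟨w, hw⟩ : ∃ w : ℤ, w = s * ((M : ℤ) * r + K) := ⟨_, rfl⟩
  have h1 := Int.emod_nonneg (w - 1) hQ0.ne'
  have h2 := Int.emod_lt_of_pos (w - 1) hQ0
  have h3 := Int.mul_ediv_add_emod (w - 1) Q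
  refine ⟨r - s * q * ((w - 1) / Q), ((w - 1) % Q + 1).toNat, ?_, ?_, ?_, ?_⟩
  · omega
  · have : (((w - 1) % Q + 1).toNat : ℤ) ≤ M * q := by
      rw [Int.toNat_of_nonneg (by omega), ← hQ]
      omega
    exact_mod_cast this
  · exact ⟨-(s * ((w - 1) / Q)), by ring⟩
  · rw [Int.toNat_of_nonneg (by omega)]
    have h4 : s * ((M : ℤ) * (r - s * q * ((w - 1) / Q)) + K) =
        w - (s * s) * (Q * ((w - 1) / Q)) := by
      rw [hw, hQ]
      ring
    rw [h4, hs2]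
    linarith

/-- the range of the points -/
theorem line_range {M n P : ℕ} (hM : 1 ≤ M) {b1 g x s : ℤ} (hb0 : 0 ≤ b1) (hb1 : b1 ≤ M)
    (hs : (s = 1 ∧ 2 * (b1 * n - g) ≤ M * n) ∨ (s = -1 ∧ (M : ℤ) * n < 2 * (b1 * n - g)))
    (hx : s * ((M : ℤ) * x + (-b1 * n + g)) = P) (hg : |g| < P) (hP : 4 * P ≤ n) :
    1 ≤ x ∧ x < n := by
  have hM' : (1 : ℤ) ≤ M := by exact_mod_cast hM
  have hP' : (4 : ℤ) * P ≤ n := by exact_mod_cast hP
  have hn0 : (0 : ℤ) ≤ n := Int.natCast_nonneg n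
  have hP0 : (0 : ℤ) < P := (abs_nonneg g).trans_lt hg
  have hg1 := (abs_lt.1 hg).1
  have hg2 := (abs_lt.1 hg).2
  have hMn : (n : ℤ) ≤ M * n := by nlinarith
  have hbn : 0 ≤ b1 * n := mul_nonneg hb0 hn0
  have hbn' : b1 * n ≤ M * n := mul_le_mul_of_nonneg_right hb1 hn0
  rcases hs with ⟨rfl, h⟩ | ⟨rfl, h⟩
  · have e1 : (M : ℤ) * x = P + (b1 * n - g) := by linarith
    constructor
    · by_contra hc
      have h1 : x ≤ 0 := by omega
      have : (M : ℤ) * x ≤ 0 := mul_nonpos_of_nonneg_of_nonpos (by linarith) h1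
      linarith
    · by_contra hc
      have h1 : (n : ℤ) ≤ x := not_lt.1 hc
      have h2 : (M : ℤ) * n ≤ M * x := mul_le_mul_of_nonneg_left h1 (by linarith)
      linarith
  · have e1 : (M : ℤ) * x = b1 * n - g - P := by linarith
    constructor
    · by_contra hc
      have h1 : x ≤ 0 := by omega
      have : (M : ℤ) * x ≤ 0 := mul_nonpos_of_nonneg_of_nonpos (by linarith) h1
      linarith
    · by_contra hc
      have h1 : (n : ℤ) ≤ x := not_lt.1 hc
      have h2 : (M : ℤ) * n ≤ M * x := mul_le_mul_of_nonneg_left h1 (by linarith)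
      linarith

/-- solving congruences -/
theorem line_solve {p q : ℕ} (hp : p.Prime) {s x x₀ r : ℤ} (hs : s = 1 ∨ s = -1)
    (h1 : p ∣ q → (p : ℤ) ∣ x - r) (h2 : (q : ℤ) ∣ x₀ - r) :
    ∃ t : ℕ, (p : ℤ) ∣ (x₀ + s * q * t) - x := by
  by_cases hpq : p ∣ q
  · refine ⟨0, ?_⟩
    have h3 : (p : ℤ) ∣ x₀ - r := (Int.natCast_dvd_natCast.2 hpq).trans h2
    have h4 := dvd_sub h3 (h1 hpq)
    have e : (x₀ + s * q * ((0 : ℕ) : ℤ)) - x = x₀ - r - (x - r) := by push_cast; ring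
    rw [e]
    exact h4
  · have := Fact.mk hp
    have hq0 : (q : ZMod p) ≠ 0 := by
      rw [Ne, ZMod.natCast_eq_zero_iff]
      exact hpq
    have hs0 : ((s : ℤ) : ZMod p) ≠ 0 := by
      rcases hs with rfl | rfl
      · simp
      · simp
    refine ⟨((((x : ℤ) : ZMod p) - x₀) * ((s : ZMod p) * (q : ZMod p))⁻¹).val, ?_⟩
    rw [← ZMod.intCast_zmod_eq_zero_iff_dvd]
    push_cast
    rw [ZMod.natCast_zmod_val]
    field_simp
    ring

theorem line_omega {m : ℕ} (hm : m ≠ 0) {y : ℝ} (h : ∀ p : ℕ, p.Prime → p ∣ m → y ≤ Real.log p) :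
    (ArithmeticFunction.cardFactors m : ℝ) * y ≤ Real.log m := by
  have h1 : ∀ l : List ℕ, (∀ p ∈ l, p ≠ 0 ∧ y ≤ Real.log p) → (l.length : ℝ) * y ≤ Real.log (l.prod : ℕ) := by
    intro l
    induction l with
    | nil => intro _; simp
    | cons p l ih =>
      intro hl
      have h2 := ih (fun q hq => hl q (List.mem_cons_of_mem _ hq))
      have h3 := hl p List.mem_cons_self
      have h4 : l.prod ≠ 0 := by
        intro h5
        rw [List.prod_eq_zero_iff] at h5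
        exact (hl 0 (List.mem_cons_of_mem _ h5)).1 rfl
      rw [List.length_cons, List.prod_cons, Nat.cast_mul, Real.log_mul (by exact_mod_cast h3.1)
        (by exact_mod_cast h4)]
      rw [Nat.cast_add, Nat.cast_one]
      linarith [h3.2]
  have h2 := h1 m.primeFactorsList (fun p hp => ⟨(Nat.prime_of_mem_primeFactorsList hp).ne_zero,
    h p (Nat.prime_of_mem_primeFactorsList hp) (Nat.dvd_of_mem_primeFactorsList hp)⟩)
  rw [Nat.prod_primeFactorsList hm] at h2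
  rwa [ArithmeticFunction.cardFactors_apply]

/-- linear polynomials and almost primes along the line `x + y = n` -/
theorem line (h : S_P) : ∀ m D : ℕ, ∃ (δ : ℝ) (R : ℕ), 0 < δ ∧
    ∀ (α β γ α' β' γ' : ℤ) (f : Fin m → MvPolynomial (Fin 2) ℤ), (∀ i, (f i).totalDegree ≤ D) →
    α ≠ β → α * β ≤ 0 → α' ≠ β' → ¬ ((α - β) * β' = (α' - β') * β ∧ (α - β) * γ' = (α' - β') * γ) →
    ∃ N1 : ℕ, ∀ n : ℕ, N1 ≤ n → ∀ q r : ℕ, 1 ≤ q → (q : ℝ) ≤ (n : ℝ) ^ δ →
    (∀ p : ℕ, p.Prime → ∃ x : ℤ, (p ∣ q → (p : ℤ) ∣ x - r) ∧ ¬ (p : ℤ) ∣ lv (lf α β γ) n x ∧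
      ¬ (p : ℤ) ∣ lv (lf α' β' γ') n x ∧ ∀ i, ¬ (p : ℤ) ∣ lv (f i) n x) →
    ∃ S : Finset ℕ, (n : ℝ) ^ (97 / 100 : ℝ) ≤ S.card ∧ ∀ x ∈ S, 1 ≤ x ∧ x < n ∧ x ≡ r [MOD q] ∧
      (lv (lf α β γ) n x).natAbs.Prime ∧
      1 < (lv (lf α' β' γ') n x).natAbs ∧ ArithmeticFunction.cardFactors (lv (lf α' β' γ') n x).natAbs ≤ 3 ∧
      (∀ l : ℕ, l.Prime → l ∣ (lv (lf α' β' γ') n x).natAbs → (n : ℝ) ^ (11 / 100 : ℝ) < l) ∧
      ∀ i, lv (f i) n x ≠ 0 ∧ ArithmeticFunction.cardFactors (lv (f i) n x).natAbs ≤ R := by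
  classical
  intro m D
  obtain ⟨δ, ε, T0, hδ, hε, hU⟩ := h m D
  obtain ⟨δ₁, hδ₁⟩ : ∃ δ₁, δ₁ = min δ (1 / 500) := ⟨_, rfl⟩
  have hδ1 : 0 < δ₁ := by rw [hδ₁]; exact lt_min hδ (by norm_num)
  have hδδ : δ₁ ≤ δ := by rw [hδ₁]; exact min_le_left _ _
  have hδ5 : δ₁ ≤ 1 / 500 := by rw [hδ₁]; exact min_le_right _ _
  refine ⟨δ₁ / 4, ⌈2 * ((D : ℝ) + 1) / ε⌉₊, by positivity, ?_⟩
  intro α β γ α' β' γ' f hf hαβ hαβ0 hαβ' hind
  choose C hC0 hC using fun i => lv_bound (f i) (hf i)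
  obtain ⟨A', hA'⟩ : ∃ A', A' = α' - β' := ⟨_, rfl⟩
  have hA'0 : A' ≠ 0 := by rw [hA']; exact sub_ne_zero.2 hαβ'
  -- normal form of the first linear polynomial
  obtain ⟨e, M, b1, g, he, hM, hb0, hb1, hAM, hBg, hgg⟩ : ∃ (e : ℤ) (M : ℕ) (b1 g : ℤ),
      (e = 1 ∨ e = -1) ∧ 1 ≤ M ∧ 0 ≤ b1 ∧ b1 ≤ M ∧ α - β = e * M ∧
      (∀ n : ℤ, β * n + γ = e * (-b1 * n + g)) ∧ |g| = |γ| := by
    rcases lt_or_gt_of_ne hαβ with hlt | hgt
    · have hβ : 0 ≤ β := by
        by_contra hc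
        have h1 : β < 0 := not_le.1 hc
        have h2 : α < 0 := hlt.trans h1
        have := mul_pos_of_neg_of_neg h2 h1
        linarith
      have hα : α ≤ 0 := by
        by_contra hc
        have h1 : 0 < α := not_le.1 hc
        have h2 : 0 < β := h1.trans hlt
        have := mul_pos h1 h2
        linarith
      refine ⟨-1, (β - α).toNat, β, -γ, Or.inr rfl, by omega, hβ, ?_, ?_, fun n => by ring,
        abs_neg γ⟩
      · rw [Int.toNat_of_nonneg (by omega)]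
        omega
      · rw [Int.toNat_of_nonneg (by omega)]
        ring
    · have hβ : β ≤ 0 := by
        by_contra hc
        have h1 : 0 < β := not_le.1 hc
        have h2 : 0 < α := h1.trans hgt
        have := mul_pos h2 h1
        linarith
      have hα : 0 ≤ α := by
        by_contra hc
        have h1 : α < 0 := not_le.1 hc
        have h2 : β < 0 := hgt.trans h1
        have := mul_pos_of_neg_of_neg h1 h2
        linarith
      refine ⟨1, (α - β).toNat, -β, γ, Or.inl rfl, by omega, by omega, ?_, ?_, fun n => by ring,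
        rfl⟩
      · rw [Int.toNat_of_nonneg (by omega)]
        omega
      · rw [Int.toNat_of_nonneg (by omega)]
        ring
  have he2 : e * e = 1 := by rcases he with rfl | rfl <;> norm_num
  have hMne : (M : ℤ) ≠ 0 := by exact_mod_cast (by omega : M ≠ 0)
  have hene : e ≠ 0 := by rcases he with rfl | rfl <;> norm_num
  -- the constant
  obtain ⟨κ, hκ⟩ : ∃ κ : ℤ, κ = (α - β) * γ' - (α' - β') * γ := ⟨_, rfl⟩
  obtain ⟨Cb, hCb⟩ : ∃ Cb : ℝ, Cb = |(A' : ℝ)| * (1 + |(b1 : ℝ)| + |(γ : ℝ)|) + |(β' : ℝ)| + |(γ' : ℝ)| :=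
    ⟨_, rfl⟩
  have hCb0 : 0 ≤ Cb := by rw [hCb]; positivity
  obtain ⟨K0, hK0⟩ : ∃ K0 : ℝ, K0 = 1 + M + |(A' : ℝ)| + Cb + |(γ : ℝ)| + ∑ i, C i + |(κ : ℝ)| :=
    ⟨_, rfl⟩
  have hS0 : 0 ≤ ∑ i, C i := Finset.sum_nonneg fun i _ => hC0 i
  have hM0 : (0 : ℝ) ≤ M := Nat.cast_nonneg M
  have hK1 : 1 ≤ K0 := by
    rw [hK0]
    linarith [abs_nonneg (A' : ℝ), abs_nonneg (γ : ℝ), abs_nonneg (κ : ℝ)]
  have hKM : (M : ℝ) ≤ K0 := by
    rw [hK0]
    linarith [abs_nonneg (A' : ℝ), abs_nonneg (γ : ℝ), abs_nonneg (κ : ℝ)]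
  have hKA' : |(A' : ℝ)| ≤ K0 := by
    rw [hK0]
    linarith [abs_nonneg (A' : ℝ), abs_nonneg (γ : ℝ), abs_nonneg (κ : ℝ)]
  have hKCb : Cb ≤ K0 := by
    rw [hK0]
    linarith [abs_nonneg (A' : ℝ), abs_nonneg (γ : ℝ), abs_nonneg (κ : ℝ)]
  have hKγ : |(γ : ℝ)| ≤ K0 := by
    rw [hK0]
    linarith [abs_nonneg (A' : ℝ), abs_nonneg (γ : ℝ), abs_nonneg (κ : ℝ)]
  have hKκ : |(κ : ℝ)| < K0 := by
    rw [hK0]
    linarith [abs_nonneg (A' : ℝ), abs_nonneg (γ : ℝ), abs_nonneg (κ : ℝ)]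
  have hKC : ∀ i, C i ≤ K0 := by
    intro i
    have h1 : C i ≤ ∑ i, C i := Finset.single_le_sum (fun j _ => hC0 j) (Finset.mem_univ i)
    rw [hK0]
    linarith [abs_nonneg (A' : ℝ), abs_nonneg (γ : ℝ), abs_nonneg (κ : ℝ)]
  have hlK : 0 ≤ Real.log K0 := Real.log_nonneg hK1
  refine ⟨⌈Real.exp (30000 + 2 * |T0| + 4 * Real.log K0 / δ₁ + 2 / ε)⌉₊, ?_⟩
  intro n hn q r hq hqn hloc
  have hn1 : Real.exp (30000 + 2 * |T0| + 4 * Real.log K0 / δ₁ + 2 / ε) ≤ n :=
    (Nat.le_ceil _).trans (by exact_mod_cast hn)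
  have hnpos : (0 : ℝ) < n := (Real.exp_pos _).trans_le hn1
  obtain ⟨L, hL⟩ : ∃ L, L = Real.log n := ⟨_, rfl⟩
  have hnL : (n : ℝ) = Real.exp L := by rw [hL, Real.exp_log hnpos]
  have hL1 : 30000 + 2 * |T0| + 4 * Real.log K0 / δ₁ + 2 / ε ≤ L := by
    rw [hL]
    exact (Real.le_log_iff_exp_le hnpos).2 hn1
  have hq1 : 0 ≤ 4 * Real.log K0 / δ₁ := by positivity
  have hq2 : 0 < 2 / ε := by positivity
  have hT00 := abs_nonneg T0
  have hL3 : 30000 ≤ L := by linarith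
  have hLT : 2 * |T0| ≤ L := by linarith
  have hLK : Real.log K0 ≤ L * (δ₁ / 4) := by
    have h1 : 4 * Real.log K0 / δ₁ ≤ L := by linarith
    rw [div_le_iff₀ hδ1] at h1
    linarith
  have hLε : 2 ≤ ε * L := by
    have h1 : 2 / ε ≤ L := by linarith
    rw [div_le_iff₀ hε] at h1
    linarith
  have h12a : Real.log 12 ≤ 3 := by
    rw [Real.log_le_iff_le_exp (by norm_num)]
    have h1 := Real.exp_one_gt_d9
    have h2 : Real.exp 3 = Real.exp 1 * Real.exp 1 * Real.exp 1 := by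
      rw [← Real.exp_add, ← Real.exp_add]; norm_num
    rw [h2]
    have h3 : (2.7 : ℝ) ≤ Real.exp 1 := by linarith
    have h4 : (2.7 : ℝ) * 2.7 ≤ Real.exp 1 * Real.exp 1 := by gcongr
    have h5 : (2.7 : ℝ) * 2.7 * 2.7 ≤ Real.exp 1 * Real.exp 1 * Real.exp 1 := by gcongr
    linarith
  have h12b : 0 < Real.log 12 := Real.log_pos (by norm_num)
  obtain ⟨T, hT⟩ : ∃ T, T = 100 / 101 * (L - Real.log 12) := ⟨_, rfl⟩
  have hTa : 100 / 101 * (L - 3) ≤ T := by rw [hT]; linarith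
  have hTb : T ≤ 100 / 101 * L := by rw [hT]; linarith
  have hT2 : L / 2 ≤ T := by linarith
  have hT0 : T0 ≤ T := by
    have h1 := le_abs_self T0
    linarith
  have hrp : ∀ a : ℝ, (n : ℝ) ^ a = Real.exp (L * a) := by
    intro a
    rw [Real.rpow_def_of_pos hnpos, ← hL]
  rw [hrp] at hqn
  -- the estimates
  have F2 : K0 ≤ Real.exp (L * (δ₁ / 4)) := by
    rw [← Real.log_le_iff_le_exp (by linarith)]
    exact hLK
  have hq0 : (0 : ℝ) ≤ q := Nat.cast_nonneg q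
  have F3 : K0 * q ≤ Real.exp (δ₁ * T) := by
    calc K0 * q ≤ Real.exp (L * (δ₁ / 4)) * Real.exp (L * (δ₁ / 4)) := by gcongr
      _ = Real.exp (δ₁ * (L / 2)) := by rw [← Real.exp_add]; congr 1; ring
      _ ≤ Real.exp (δ₁ * T) := Real.exp_le_exp.2 (by gcongr)
  have hLδ : L * (δ₁ / 4) ≤ L / 2000 := by
    have : L * (δ₁ / 4) ≤ L * (1 / 500 / 4) := by
      have : 0 ≤ L := by linarith
      gcongr
    linarith
  have F5 : K0 * n ≤ Real.exp (1019 / 1000 * T) := by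
    calc K0 * n ≤ Real.exp (L * (δ₁ / 4)) * Real.exp L := by
          rw [hnL]
          gcongr
      _ = Real.exp (L * (δ₁ / 4) + L) := (Real.exp_add _ _).symm
      _ ≤ Real.exp (1019 / 1000 * T) := Real.exp_le_exp.2 (by linarith)
  have F6 : K0 < Real.exp (98 / 100 * T) :=
    F2.trans_lt (Real.exp_lt_exp.2 (by linarith))
  have F7 : 3 * Real.exp (101 / 100 * T) = n / 4 := by
    rw [hT]
    have : 101 / 100 * (100 / 101 * (L - Real.log 12)) = L - Real.log 12 := by ring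
    rw [this, Real.exp_sub, Real.exp_log (by norm_num), ← hnL]
    ring
  have F8 : (n : ℝ) ^ (97 / 100 : ℝ) ≤ Real.exp (98 / 100 * T) := by
    rw [hrp]
    exact Real.exp_le_exp.2 (by linarith)
  have F9 : (n : ℝ) ^ (11 / 100 : ℝ) ≤ Real.exp (T / 9) := by
    rw [hrp]
    exact Real.exp_le_exp.2 (by linarith)
  have F10 : 2 ≤ Real.exp (ε * T) := by
    have h1 : 1 ≤ ε * T := by
      have : ε * (L / 2) ≤ ε * T := by gcongr
      linarith
    have := Real.add_one_le_exp (ε * T)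
    linarith
  have hKn : K0 ≤ n := by
    rw [hnL]
    exact F2.trans (Real.exp_le_exp.2 (by linarith))
  have hqn' : (q : ℝ) ≤ n := by
    rw [hnL]
    exact hqn.trans (Real.exp_le_exp.2 (by linarith))
  have hn1' : (1 : ℝ) ≤ n := hK1.trans hKn
  have hn1'' : 1 ≤ n := by exact_mod_cast hn1'
  -- the direction
  obtain ⟨s, hs, hs'⟩ : ∃ s : ℤ, (s = 1 ∨ s = -1) ∧
      ((s = 1 ∧ 2 * (b1 * n - g) ≤ M * n) ∨ (s = -1 ∧ (M : ℤ) * n < 2 * (b1 * n - g))) := by
    by_cases hc : 2 * (b1 * n - g) ≤ M * n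
    · exact ⟨1, Or.inl rfl, Or.inl ⟨rfl, hc⟩⟩
    · exact ⟨-1, Or.inr rfl, Or.inr ⟨rfl, not_le.1 hc⟩⟩
  have hs2 : s * s = 1 := by rcases hs with rfl | rfl <;> norm_num
  have hsne : s ≠ 0 := by rcases hs with rfl | rfl <;> norm_num
  obtain ⟨x₀, d, hd1, hdq, hxr, hxd⟩ := line_start hM hq (-b1 * n + g) r s hs
  -- values of the linear polynomials
  have v1 : ∀ t : ℤ, lv (lf α β γ) n (x₀ + s * q * t) = (e * s) * (((M * q : ℕ) : ℤ) * t + d) := by
    intro t
    rw [lv_lf, hAM, hBg, ← hxd]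
    push_cast
    linear_combination (-e * (M * x₀ + (-b1 * n + g))) * hs2
  have v2 : ∀ t : ℤ, lv (lf α' β' γ') n (x₀ + s * q * t) =
      (A' * (s * q)) * t + (A' * x₀ + (β' * n + γ')) := by
    intro t
    rw [lv_lf, ← hA']
    ring
  have hqne : (q : ℤ) ≠ 0 := by exact_mod_cast (by omega : q ≠ 0)
  have hTpos : 0 ≤ T := by linarith
  -- application
  have hMq : ((M * q : ℕ) : ℝ) ≤ Real.exp (δ * T) := by
    push_cast
    calc (M : ℝ) * q ≤ K0 * q := by gcongr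
      _ ≤ Real.exp (δ₁ * T) := F3
      _ ≤ Real.exp (δ * T) := Real.exp_le_exp.2 (mul_le_mul_of_nonneg_right hδδ hTpos)
  have ha0 : A' * (s * q) ≠ 0 := mul_ne_zero hA'0 (mul_ne_zero hsne hqne)
  have hcb : ((M * q : ℕ) : ℤ) * (A' * x₀ + (β' * n + γ')) ≠ d * (A' * (s * q)) := by
    intro h1
    have h2 : (q : ℤ) * (M * (β' * n + γ') - (-b1 * n + g) * A') = 0 := by
      rw [← hxd] at h1
      push_cast at h1
      linear_combination h1 + ((M * x₀ + (-b1 * n + g)) * A' * q) * hs2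
    have h3 : (M : ℤ) * (β' * n + γ') - (-b1 * n + g) * A' = 0 :=
      (mul_eq_zero.1 h2).resolve_left hqne
    have h4 : (α - β) * (β' * n + γ') = (α' - β') * (β * n + γ) := by
      rw [hAM, hBg, ← hA']
      linear_combination e * h3
    have h5 : ((α - β) * β' - (α' - β') * β) * n = -κ := by
      rw [hκ]
      linear_combination h4
    by_cases hw : (α - β) * β' - (α' - β') * β = 0
    · rw [hw, zero_mul] at h5
      apply hind
      constructor
      · linarith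
      · have : κ = 0 := by linarith
        rw [hκ] at this
        linarith
    · have h6 : 1 ≤ |(α - β) * β' - (α' - β') * β| := Int.one_le_abs hw
      have h7 : |κ| = |(α - β) * β' - (α' - β') * β| * n := by
        rw [← abs_neg, ← h5, abs_mul, Nat.abs_cast]
      have h8 : (n : ℤ) ≤ |κ| := by
        rw [h7]
        have : (0 : ℤ) ≤ n := Int.natCast_nonneg n
        nlinarith
      have h9 : (n : ℝ) ≤ |(κ : ℝ)| := by exact_mod_cast h8
      linarith
  have haT : |((A' * (s * q) : ℤ) : ℝ)| ≤ Real.exp (T / 500) := by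
    have h1 : |((A' * (s * q) : ℤ) : ℝ)| = |(A' : ℝ)| * q := by
      push_cast
      rw [abs_mul, abs_mul, Nat.abs_cast]
      have : |(s : ℝ)| = 1 := by rcases hs with rfl | rfl <;> simp
      rw [this, one_mul]
    rw [h1]
    calc |(A' : ℝ)| * q ≤ K0 * q := by gcongr
      _ ≤ Real.exp (δ₁ * T) := F3
      _ ≤ Real.exp (T / 500) := Real.exp_le_exp.2 (by
          have := mul_le_mul_of_nonneg_right hδ5 hTpos
          linarith)
  have hx0 : |(x₀ : ℝ)| ≤ q + (|(b1 : ℝ)| * n + |(γ : ℝ)|) := by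
    have h1 : (M : ℤ) * |x₀| ≤ M * (q + |(-b1 * n + g)|) := by
      have h2 : (M : ℤ) * x₀ = s * d - (-b1 * n + g) := by
        linear_combination s * hxd - ((M : ℤ) * x₀ + (-b1 * n + g)) * hs2
      have h3 : (M : ℤ) * |x₀| = |(M : ℤ) * x₀| := by rw [abs_mul, Nat.abs_cast]
      rw [h3, h2]
      have h4 : |s * (d : ℤ)| = d := by
        rw [abs_mul, Nat.abs_cast]
        have : |s| = 1 := by rcases hs with rfl | rfl <;> simp
        rw [this, one_mul]
      have h5 := abs_sub (s * (d : ℤ)) (-b1 * n + g)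
      have h6 : (d : ℤ) ≤ M * q := by exact_mod_cast hdq
      have h7 : |(-b1 * n + g)| ≤ M * |(-b1 * n + g)| := by
        have h8 := abs_nonneg (-b1 * n + g)
        have h9 : (1 : ℤ) ≤ M := by exact_mod_cast hM
        nlinarith
      calc |s * (d : ℤ) - (-b1 * n + g)| ≤ |s * (d : ℤ)| + |(-b1 * n + g)| := abs_sub _ _
        _ ≤ M * q + M * |(-b1 * n + g)| := by rw [h4]; linarith
        _ = M * (q + |(-b1 * n + g)|) := by ring
    have h2 : |x₀| ≤ q + |(-b1 * n + g)| :=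
      le_of_mul_le_mul_left h1 (by exact_mod_cast hM)
    have h3 : |(-b1 * n + g)| ≤ |b1| * n + |γ| := by
      refine (abs_add_le _ _).trans ?_
      rw [abs_mul, abs_neg, Nat.abs_cast, hgg]
    have h4 : |x₀| ≤ q + (|b1| * n + |γ|) := by linarith
    exact_mod_cast h4
  have hbT : |((A' * x₀ + (β' * n + γ') : ℤ) : ℝ)| ≤ Real.exp (1019 / 1000 * T) := by
    refine le_trans ?_ F5
    refine le_trans ?_ (mul_le_mul_of_nonneg_right hKCb hnpos.le)
    push_cast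
    calc |(A' : ℝ) * x₀ + (β' * n + γ')| ≤ |(A' : ℝ) * x₀| + (|(β' : ℝ) * n| + |(γ' : ℝ)|) :=
          (abs_add_le _ _).trans (add_le_add le_rfl (abs_add_le _ _))
      _ = |(A' : ℝ)| * |(x₀ : ℝ)| + (|(β' : ℝ)| * n + |(γ' : ℝ)|) := by
          rw [abs_mul, abs_mul, Nat.abs_cast]
      _ ≤ |(A' : ℝ)| * ((1 + |(b1 : ℝ)| + |(γ : ℝ)|) * n) + (|(β' : ℝ)| * n + |(γ' : ℝ)| * n) := by
          have h1 : |(x₀ : ℝ)| ≤ (1 + |(b1 : ℝ)| + |(γ : ℝ)|) * n := by
            have h2 : |(γ : ℝ)| ≤ |(γ : ℝ)| * n := le_mul_of_one_le_right (abs_nonneg _) hn1'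
            calc |(x₀ : ℝ)| ≤ q + (|(b1 : ℝ)| * n + |(γ : ℝ)|) := hx0
              _ ≤ n + (|(b1 : ℝ)| * n + |(γ : ℝ)| * n) := by linarith
              _ = (1 + |(b1 : ℝ)| + |(γ : ℝ)|) * n := by ring
          have h3 : |(γ' : ℝ)| ≤ |(γ' : ℝ)| * n := le_mul_of_one_le_right (abs_nonneg _) hn1'
          have h4 := mul_le_mul_of_nonneg_left h1 (abs_nonneg (A' : ℝ))
          linarith
      _ = Cb * n := by rw [hCb]; ring
  obtain ⟨S, hS, hS2⟩ := hU T hT0 (M * q) d (A' * (s * q)) (A' * x₀ + (β' * n + γ'))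
    (fun i => lp (f i) n x₀ (s * q)) hd1 hdq hMq ha0 hcb haT hbT
    (fun i => lp_deg (hf i) _ _ _)
    (by
      intro p hp
      obtain ⟨x, hx1, hx2, hx3, hx4⟩ := hloc p hp
      obtain ⟨t, ht⟩ := line_solve hp hs hx1 hxr
      refine ⟨t, fun hd => hx2 ?_, fun hd => hx3 ?_, fun i hd => hx4 i ?_⟩
      · rw [← lv_congr _ _ ht, v1]
        refine Dvd.dvd.mul_left ?_ _
        exact_mod_cast hd
      · rw [← lv_congr _ _ ht, v2]
        exact hd
      · rw [lp_eval] at hd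
        rw [← lv_congr _ _ ht]
        exact hd)
  have hrange : ∀ t ∈ S, 1 ≤ x₀ + s * q * t ∧ x₀ + s * q * t < n := by
    intro t ht
    obtain ⟨hp, hp1, hp2, -⟩ := hS2 t ht
    rw [F7] at hp2
    refine line_range (P := M * q * t + d) hM hb0 hb1 hs' ?_ ?_ ?_
    · rw [Nat.cast_add, ← hxd]
      push_cast
      linear_combination (M * q * t) * hs2
    · rw [hgg]
      have h1 : |(γ : ℝ)| < ((M * q * t + d : ℕ) : ℝ) := by linarith
      exact_mod_cast h1
    · have h1 : 4 * ((M * q * t + d : ℕ) : ℝ) ≤ n := by linarith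
      exact_mod_cast h1
  have hinj : Set.InjOn (fun t : ℕ => (x₀ + s * q * t).toNat) S := by
    intro t ht t' ht' h1
    have h2 := (hrange t ht).1
    have h3 := (hrange t' ht').1
    have h4 : x₀ + s * q * t = x₀ + s * q * t' := by
      have h5 : (x₀ + s * q * t).toNat = (x₀ + s * q * t').toNat := h1
      omega
    have h5 : (s * q) * ((t : ℤ) - t') = 0 := by linear_combination h4
    have h6 := (mul_eq_zero.1 h5).resolve_left (mul_ne_zero hsne hqne)
    omega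
  refine ⟨S.image (fun t : ℕ => (x₀ + s * q * t).toNat), ?_, ?_⟩
  · rw [Finset.card_image_of_injOn hinj]
    exact F8.trans hS.le
  intro x hx
  obtain ⟨t, ht, rfl⟩ := Finset.mem_image.1 hx
  obtain ⟨hr1, hr2⟩ := hrange t ht
  obtain ⟨hp, hp1, hp2, hp3, hl, hm1, hm3⟩ := hS2 t ht
  have hcast : (((x₀ + s * q * t).toNat : ℕ) : ℤ) = x₀ + s * q * t :=
    Int.toNat_of_nonneg (by linarith)
  have hv2 := v2 t
  have hv1 := v1 t
  rw [hcast]
  refine ⟨by omega, by omega, ?_, ?_, ?_, ?_, ?_, ?_⟩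
  · -- the congruence
    rw [← Int.natCast_modEq_iff, hcast]
    apply Int.ModEq.symm
    rw [Int.modEq_iff_dvd]
    have h1 : x₀ + s * q * t - r = (x₀ - r) + q * (s * t) := by ring
    rw [h1]
    exact dvd_add hxr (Dvd.intro _ rfl)
  · rw [hv1, Int.natAbs_mul, Int.natAbs_mul]
    have h1 : e.natAbs = 1 := by rcases he with rfl | rfl <;> rfl
    have h2 : s.natAbs = 1 := by rcases hs with rfl | rfl <;> rfl
    rw [h1, h2, one_mul, one_mul]
    exact_mod_cast hp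
  · rw [hv2]
    exact hm1
  · rw [hv2]
    exact hm3
  · intro l hl1 hl2
    rw [hv2] at hl2
    by_contra hcon
    refine hl l hl1 ((not_lt.1 hcon).trans F9) ?_
    exact Int.natCast_dvd.2 hl2
  · intro i
    have hp3' : ∀ p : ℕ, p.Prime → (p : ℝ) ≤ Real.exp (ε * T) → ¬ (p : ℤ) ∣ lv (f i) n (x₀ + s * q * t) := by
      intro p hp hpe hd
      apply hp3 i p hp hpe
      rw [lp_eval]
      exact hd
    have hne : lv (f i) n (x₀ + s * q * t) ≠ 0 := by
      intro h0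
      apply hp3' 2 Nat.prime_two (by exact_mod_cast F10)
      rw [h0]
      exact dvd_zero _
    refine ⟨hne, ?_⟩
    have hne' : (lv (f i) n (x₀ + s * q * t)).natAbs ≠ 0 := Int.natAbs_ne_zero.2 hne
    have h1 : (ArithmeticFunction.cardFactors (lv (f i) n (x₀ + s * q * t)).natAbs : ℝ) * (ε * T) ≤
        Real.log ((lv (f i) n (x₀ + s * q * t)).natAbs : ℕ) := by
      apply line_omega hne'
      intro p hp hpd
      by_contra hc
      have h2 : Real.log p < ε * T := not_le.1 hc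
      have h3 : (p : ℝ) ≤ Real.exp (ε * T) := by
        have hp0 : (0 : ℝ) < p := by exact_mod_cast hp.pos
        rw [← Real.log_le_iff_le_exp hp0]
        exact h2.le
      exact hp3' p hp h3 (Int.natCast_dvd.2 hpd)
    have h2 : (((lv (f i) n (x₀ + s * q * t)).natAbs : ℕ) : ℝ) ≤ Real.exp (((D : ℝ) + 1) * L) := by
      have h3 := hC i n hn1'' (x₀ + s * q * t) (by linarith) hr2.le
      have h4 : (((lv (f i) n (x₀ + s * q * t)).natAbs : ℕ) : ℝ) =
          |((lv (f i) n (x₀ + s * q * t) : ℤ) : ℝ)| := by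
        rw [← Int.cast_natCast, Int.natCast_natAbs, Int.cast_abs]
      rw [h4]
      refine h3.trans ?_
      calc C i * (n : ℝ) ^ D ≤ n * (n : ℝ) ^ D := by
            have := (hKC i).trans hKn
            gcongr
        _ = Real.exp (((D : ℝ) + 1) * L) := by
            rw [hnL, ← Real.exp_nat_mul, ← Real.exp_add]
            congr 1
            ring
    have h3 : Real.log ((lv (f i) n (x₀ + s * q * t)).natAbs : ℕ) ≤ ((D : ℝ) + 1) * L := by
      rw [Real.log_le_iff_le_exp (by exact_mod_cast Nat.pos_of_ne_zero hne')]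
      exact h2
    have h4 : (ArithmeticFunction.cardFactors (lv (f i) n (x₀ + s * q * t)).natAbs : ℝ) ≤
        2 * ((D : ℝ) + 1) / ε := by
      rw [le_div_iff₀ hε]
      have h5 : (0 : ℝ) ≤ (ArithmeticFunction.cardFactors (lv (f i) n (x₀ + s * q * t)).natAbs : ℝ) :=
        Nat.cast_nonneg _
      have h6 : (ArithmeticFunction.cardFactors (lv (f i) n (x₀ + s * q * t)).natAbs : ℝ) * (ε * (L / 2)) ≤
          ((D : ℝ) + 1) * L := by
        refine le_trans ?_ (h1.trans h3)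
        gcongr
      have hLpos : 0 < L := by linarith
      have h7 : ((ArithmeticFunction.cardFactors (lv (f i) n (x₀ + s * q * t)).natAbs : ℝ) * ε) * L ≤
          (2 * ((D : ℝ) + 1)) * L := by linarith
      exact le_of_mul_le_mul_right h7 hLpos
    have h5 := h4.trans (Nat.le_ceil _)
    exact_mod_cast h5

end Pool.Agent.H536.OC
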