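import Mathlib
import Pool.Agent.H536.OC.SubD
import Pool.Agent.H536.OC.Wh

open Finset Filter Topology

namespace Pool.Agent.H536.OC

open Polynomial
open Pool.Agent.W23.DC (tt pr Mer)
open Pool.Agent.H474R2.PG (rho)

namespace MerFAux

theorem rho_le {f : ℤ[X]} (hf : Irreducible f) (hd : 0 < f.natDegree) {p : ℕ} (hp : p.Prime) :
    rho f p ≤ f.natDegree := by
  classical
  have : Fact p.Prime := ⟨hp⟩
  have hev : ∀ x : ℕ, (p : ℤ) ∣ f.eval (x : ℤ) ↔
      (f.map (Int.castRingHom (ZMod p))).eval (x : ZMod p) = 0 := by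
    intro x
    rw [Polynomial.eval_natCast_map, ← ZMod.intCast_zmod_eq_zero_iff_dvd]
    simp
  have hne : f.map (Int.castRingHom (ZMod p)) ≠ 0 := by
    intro h0
    have hprim : f.IsPrimitive := hf.isPrimitive (by omega)
    have hdvd : C (p : ℤ) ∣ f := by
      rw [Polynomial.C_dvd_iff_dvd_coeff]
      intro i
      rw [← ZMod.intCast_zmod_eq_zero_iff_dvd]
      have h1 := congrArg (fun g => g.coeff i) h0
      simpa [Polynomial.coeff_map] using h1
    have hu := hprim _ hdvd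
    have h2 : (p : ℤ).natAbs = 1 := Int.isUnit_iff_natAbs_eq.1 hu
    simp at h2
    exact hp.one_lt.ne' h2
  have h1 : rho f p ≤ (f.map (Int.castRingHom (ZMod p))).roots.toFinset.card := by
    unfold rho
    apply card_le_card_of_injOn (fun x : ℕ => (x : ZMod p))
    · intro x hx
      rw [mem_coe, mem_filter] at hx
      rw [mem_coe, Multiset.mem_toFinset, Polynomial.mem_roots hne]
      exact (hev x).1 hx.2
    · intro x hx y hy hxy
      rw [mem_coe, mem_filter, mem_range] at hx hy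
      have := (ZMod.natCast_eq_natCast_iff x y p).1 hxy
      exact Nat.ModEq.eq_of_lt_of_lt this hx.1 hy.1
  refine h1.trans ((Multiset.toFinset_card_le _).trans ((Polynomial.card_roots' _).trans ?_))
  exact Polynomial.natDegree_map_le

end MerFAux

theorem merF (h1 : S_Rlim) (h2 : S_Kar) : S_MerF := by
  intro f hf hd ε₁ η κ CE hε₁ hε₁2 hη
  obtain ⟨N₀, hN₀⟩ := h2 (fun p => (rho f p : ℝ)) (f.natDegree : ℝ)
    (fun p hp => ⟨Nat.cast_nonneg _, by exact_mod_cast MerFAux.rho_le hf hd hp⟩)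
    (h1 f hf hd) ε₁ (η / 2) hε₁ (by positivity)
  set T : ℝ := CE / ε₁ * (κ + f.natDegree) with hT
  have hT0 : 0 ≤ T := by positivity
  have hev : ∀ᶠ N : ℕ in Filter.atTop, 2 * T / η + 2 ≤ (N : ℝ) ^ ε₁ :=
    ((tendsto_rpow_atTop hε₁).comp tendsto_natCast_atTop_atTop).eventually_ge_atTop _
  obtain ⟨N₁, hN₁⟩ := Filter.eventually_atTop.1 hev
  refine ⟨max (max N₀ N₁) 2, fun Y hY h E hE hEY h3 h4 => ?_⟩
  have hY2 : 2 ≤ Y := (le_max_right _ _).trans hY
  have hYN0 : N₀ ≤ Y := (le_max_left _ _).trans ((le_max_left _ _).trans hY)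
  have hYN1 : N₁ ≤ Y := (le_max_right _ _).trans ((le_max_left _ _).trans hY)
  have hy := hN₁ Y hYN1
  set y : ℝ := (Y : ℝ) ^ ε₁ with hydef
  have hTη : 0 ≤ 2 * T / η := by positivity
  have hy1 : 1 ≤ y - 1 := by linarith
  have hy0 : 0 < y - 1 := by linarith
  have hTy : T / (y - 1) ≤ η / 2 := by
    rw [div_le_iff₀ hy0]
    have h3 : 2 * T / η ≤ y - 1 := by linarith
    rw [div_le_iff₀ hη] at h3
    linarith
  intro a b ha hab hb
  have hfil : (pr Y ε₁ (17 / 50)).filter (fun p => a ≤ tt Y p ∧ tt Y p < b) = pr Y a b := by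
    unfold pr
    ext p
    simp only [Finset.mem_filter]
    constructor
    · rintro ⟨⟨h3, h4, -, -⟩, h5, h6⟩
      exact ⟨h3, h4, h5, h6⟩
    · rintro ⟨h3, h4, h5, h6⟩
      exact ⟨⟨h3, h4, ha.trans h5, lt_of_lt_of_le h6 hb⟩, h5, h6⟩
  have hfil' : ∀ inst : DecidablePred (fun p => a ≤ tt Y p ∧ tt Y p < b),
      @Finset.filter _ (fun p => a ≤ tt Y p ∧ tt Y p < b) inst (pr Y ε₁ (17 / 50)) = pr Y a b := by
    intro inst
    rw [← hfil]
    ext x
    simp only [Finset.mem_filter]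
  rw [hfil']
  have hsub : ∀ p ∈ pr Y a b, p ∈ pr Y ε₁ (17 / 50) := by
    intro p hp
    rw [← hfil, Finset.mem_filter] at hp
    exact hp.1
  have hprime : ∀ p ∈ pr Y a b, p.Prime := by
    intro p hp
    unfold pr at hp
    rw [Finset.mem_filter] at hp
    exact hp.2.1
  have hM := hN₀ Y hYN0 a b ha hab (hb.trans (by norm_num))
  have hdiff : |∑ p ∈ pr Y a b, h p - ∑ p ∈ pr Y a b, (rho f p : ℝ) / ((p : ℝ) - 1)| ≤ T / (y - 1) := by
    rw [← Finset.sum_sub_distrib]
    refine (Finset.abs_sum_le_sum_abs _ _).trans ?_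
    rw [← Finset.sum_filter_add_sum_filter_not (pr Y a b) (fun p => p ∣ E)]
    have hB : ∑ p ∈ (pr Y a b).filter (fun p => ¬ p ∣ E), |h p - (rho f p : ℝ) / ((p : ℝ) - 1)| = 0 := by
      apply Finset.sum_eq_zero
      intro p hp
      rw [Finset.mem_filter] at hp
      rw [h3 p (hsub p hp.1) hp.2, sub_self, abs_zero]
    rw [hB, add_zero]
    have h5 : ∑ p ∈ (pr Y a b).filter (fun p => p ∣ E), |h p - (rho f p : ℝ) / ((p : ℝ) - 1)| ≤
        ((pr Y a b).filter (fun p => p ∣ E)).card • ((κ + f.natDegree) / (y - 1)) := by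
      apply Finset.sum_le_card_nsmul
      intro p hp
      rw [Finset.mem_filter] at hp
      have hlow := MerX_low hY2 ha hp.1
      rw [← hydef] at hlow
      have hp1 : 0 < (p : ℝ) - 1 := by linarith
      obtain ⟨h6, h7⟩ := h4 p (hsub p hp.1) hp.2
      have hr : (rho f p : ℝ) ≤ f.natDegree := by
        exact_mod_cast MerFAux.rho_le hf hd (hprime p hp.1)
      have h8 : |h p - (rho f p : ℝ) / ((p : ℝ) - 1)| ≤ (κ + f.natDegree) / ((p : ℝ) - 1) := by
        have h9 : 0 ≤ (rho f p : ℝ) / ((p : ℝ) - 1) := by positivity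
        have h10 : (rho f p : ℝ) / ((p : ℝ) - 1) ≤ f.natDegree / ((p : ℝ) - 1) :=
          div_le_div_of_nonneg_right hr hp1.le
        have h11 : (0 : ℝ) ≤ κ / ((p : ℝ) - 1) := by positivity
        rw [add_div, abs_le]
        constructor <;> linarith
      refine h8.trans ?_
      apply div_le_div_of_nonneg_left (by positivity) hy0
      linarith
    refine h5.trans ?_
    rw [nsmul_eq_mul, hT, mul_div_assoc]
    apply mul_le_mul_of_nonneg_right _ (by positivity)
    exact MerX_card hY2 hε₁ ha hE hEY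
  have h12 : ∑ p ∈ pr Y a b, h p - Real.log (b / a) =
      (∑ p ∈ pr Y a b, h p - ∑ p ∈ pr Y a b, (rho f p : ℝ) / ((p : ℝ) - 1)) +
      (∑ p ∈ pr Y a b, (rho f p : ℝ) / ((p : ℝ) - 1) - Real.log (b / a)) := by ring
  rw [h12]
  refine (abs_add_le _ _).trans ?_
  linarith

end Pool.Agent.H536.OC
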