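import Mathlib
import Pool.Agent.H536.OC.Wg

open Finset Filter Topology

/-! Subtask (helper536). -/

namespace Pool.Agent.H536.OC

/-- the coefficients of the forms `n`, `a_i n + 1` -/
def cfm {s : ℕ} (a : Fin s → ℕ) : Option (Fin s) → ℕ
  | none => 1
  | some i => a i

/-- the forms `n`, `a_i n + 1` -/
def fm {s : ℕ} (a : Fin s → ℕ) (n : ℕ) : Option (Fin s) → ℕ
  | none => n
  | some i => a i * n + 1

/-- the constant terms of the forms -/
def efm {s : ℕ} : Option (Fin s) → ℕ
  | none => 0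
  | some _ => 1

theorem fm_eq {s : ℕ} (a : Fin s → ℕ) (n : ℕ) (i : Option (Fin s)) : fm a n i = cfm a i * n + efm i := by
  cases i <;> simp [fm, cfm, efm]

/-- a product of numbers which are at least `y` -/
theorem multB_pow_le (y : ℝ) (hy : 0 ≤ y) (l : List ℕ) (h : ∀ p ∈ l, y ≤ (p : ℝ)) :
    y ^ l.length ≤ ((l.prod : ℕ) : ℝ) := by
  induction l with
  | nil => simp
  | cons p l ih =>
    rw [List.length_cons, List.prod_cons, pow_succ', Nat.cast_mul]
    exact mul_le_mul (h p List.mem_cons_self) (ih fun q hq => h q (List.mem_cons_of_mem _ hq))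
      (pow_nonneg hy _) (Nat.cast_nonneg _)

theorem multB_pow_omega (y : ℝ) (hy : 0 ≤ y) {m : ℕ} (hm : m ≠ 0)
    (h : ∀ p : ℕ, p.Prime → p ∣ m → y ≤ (p : ℝ)) :
    y ^ ArithmeticFunction.cardFactors m ≤ (m : ℝ) := by
  have h1 := multB_pow_le y hy m.primeFactorsList fun p hp =>
    h p (Nat.prime_of_mem_primeFactorsList hp) (Nat.dvd_of_mem_primeFactorsList hp)
  rw [Nat.prod_primeFactorsList hm] at h1
  rwa [ArithmeticFunction.cardFactors_apply]

theorem fm_dvd_congr {s : ℕ} (a : Fin s → ℕ) {p m n : ℕ} (h : m ≡ n [MOD p]) (i : Option (Fin s)) :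
    p ∣ fm a m i ↔ p ∣ fm a n i := by
  rw [fm_eq, fm_eq]
  have h1 : cfm a i * m + efm i ≡ cfm a i * n + efm i [MOD p] := Nat.ModEq.add_right _ (Nat.ModEq.mul_left _ h)
  exact (h1.dvd_iff dvd_rfl)

/-- each form has at most one root modulo `p` -/
theorem fm_roots {s : ℕ} (a : Fin s → ℕ) {p q r' : ℕ} (hp : p.Prime) (i : Option (Fin s))
    (hloc : p ∣ q → ¬ p ∣ fm a r' i) :
    ((range p).filter (fun x : ℕ => p ∣ fm a (q * x + r') i)).card ≤ 1 := by
  rw [card_le_one]
  intro x hx y hy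
  rw [mem_filter, mem_range] at hx hy
  obtain ⟨hx1, hx2⟩ := hx
  obtain ⟨hy1, hy2⟩ := hy
  by_cases hq : p ∣ q
  · exfalso
    apply hloc hq
    refine (fm_dvd_congr a ?_ i).1 hx2
    have : q * x + r' ≡ 0 + r' [MOD p] := Nat.ModEq.add_right _ ((Nat.modEq_zero_iff_dvd).2 (dvd_mul_of_dvd_left hq x))
    simpa using this
  · by_cases hc : p ∣ cfm a i
    · exfalso
      rw [fm_eq] at hx2
      have h1 : p ∣ efm i := (Nat.dvd_add_right (dvd_mul_of_dvd_left hc _)).1 hx2
      cases i with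
      | none =>
        simp only [cfm] at hc
        exact hp.one_lt.ne' (Nat.dvd_one.1 hc)
      | some k =>
        simp only [efm] at h1
        exact hp.one_lt.ne' (Nat.dvd_one.1 h1)
    · rw [fm_eq] at hx2 hy2
      have e1 : cfm a i * (q * x + r') + efm i ≡ cfm a i * (q * y + r') + efm i [MOD p] :=
        ((Nat.modEq_zero_iff_dvd).2 hx2).trans ((Nat.modEq_zero_iff_dvd).2 hy2).symm
      have e2 : cfm a i * (q * x + r') ≡ cfm a i * (q * y + r') [MOD p] := Nat.ModEq.add_right_cancel' _ e1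
      have e3 : q * x + r' ≡ q * y + r' [MOD p] :=
        Nat.ModEq.cancel_left_of_coprime (((Nat.Prime.coprime_iff_not_dvd hp).2 hc)) e2
      have e4 : q * x ≡ q * y [MOD p] := Nat.ModEq.add_right_cancel' _ e3
      have e5 : x ≡ y [MOD p] := Nat.ModEq.cancel_left_of_coprime (((Nat.Prime.coprime_iff_not_dvd hp).2 hq)) e4
      exact Nat.ModEq.eq_of_lt_of_lt e5 hx1 hy1

/-- one of the numbers `n`, `a_i n + 1` prime, another one a `P₃` and the others almost prime, uniformly in the multipliers -/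
theorem multB (h : S_U5) : ∀ s K : ℕ, ∃ (δ : ℝ) (R X0 : ℕ), 0 < δ ∧ ∀ X : ℕ, X0 ≤ X → ∀ a : Fin s → ℕ,
    Function.Injective a → (∀ i, 1 ≤ a i ∧ a i ≤ X ^ K) → ∀ q r : ℕ, 1 ≤ q → (q : ℝ) ≤ (X : ℝ) ^ δ →
    (∀ p : ℕ, p.Prime → ∃ n : ℕ, (p ∣ q → n ≡ r [MOD p]) ∧ ∀ i, ¬ p ∣ fm a n i) → ∀ j l : Option (Fin s), j ≠ l →
    (cfm a j : ℝ) ≤ (X : ℝ) ^ δ → (cfm a l : ℝ) ≤ (X : ℝ) ^ δ →
    ∃ S : Finset ℕ, (X : ℝ) ^ (97 / 100 : ℝ) ≤ S.card ∧ ∀ n ∈ S, n ≤ X ∧ n ≡ r [MOD q] ∧ (fm a n j).Prime ∧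
      1 < fm a n l ∧ ArithmeticFunction.cardFactors (fm a n l) ≤ 3 ∧
      (∀ p : ℕ, p.Prime → p ∣ fm a n l → (X : ℝ) ^ (11 / 100 : ℝ) < p) ∧
      ∀ i, ArithmeticFunction.cardFactors (fm a n i) ≤ R := by
  classical
  intro s K
  obtain ⟨δ, ε, T0, hδ, hε, hU⟩ := h (s + 1)
  have hm : 0 < min (δ / 4) (1 / 4000) := lt_min (by positivity) (by norm_num)
  refine ⟨min (δ / 4) (1 / 4000), ⌈2 * ((K : ℝ) + 2) / ε⌉₊, ⌈Real.exp (max 20000 (2 * |T0| + 4))⌉₊, hm, ?_⟩
  intro X hX a hinj ha q r hq1 hqX hadm j l hjl hjX hlX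
  have hX1 : Real.exp (max 20000 (2 * |T0| + 4)) ≤ X := (Nat.le_ceil _).trans (by exact_mod_cast hX)
  have hXpos : (0 : ℝ) < X := (Real.exp_pos _).trans_le hX1
  obtain ⟨L, hL⟩ : ∃ L, L = Real.log X := ⟨_, rfl⟩
  have hXL : (X : ℝ) = Real.exp L := by rw [hL, Real.exp_log hXpos]
  have hL1 : max 20000 (2 * |T0| + 4) ≤ L := by
    rw [hL]
    exact (Real.le_log_iff_exp_le hXpos).2 hX1
  have hL20 : 20000 ≤ L := (le_max_left _ _).trans hL1
  have hLT : 2 * |T0| + 4 ≤ L := (le_max_right _ _).trans hL1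
  have h3a : Real.log 3 ≤ 2 := by
    rw [Real.log_le_iff_le_exp (by norm_num)]
    have h1 := Real.exp_one_gt_d9
    have h2 : Real.exp 2 = Real.exp 1 * Real.exp 1 := by rw [← Real.exp_add]; norm_num
    rw [h2]
    nlinarith
  have h3b : 0 < Real.log 3 := Real.log_pos (by norm_num)
  obtain ⟨T, hT⟩ : ∃ T, T = 100 / 101 * (L - Real.log 3) := ⟨_, rfl⟩
  have hTa : 100 / 101 * (L - 2) ≤ T := by rw [hT]; linarith
  have hTb : T ≤ 100 / 101 * L := by rw [hT]; linarith
  have hT2 : L / 2 ≤ T := by linarith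
  have hT0 : T0 ≤ T := by
    have h1 := le_abs_self T0
    have h2 := abs_nonneg T0
    linarith
  have hrp : ∀ u : ℝ, (X : ℝ) ^ u = Real.exp (L * u) := by
    intro u
    rw [Real.rpow_def_of_pos hXpos, ← hL]
  have hm1 : min (δ / 4) (1 / 4000) ≤ δ / 4 := min_le_left _ _
  have hm2 : min (δ / 4) (1 / 4000 : ℝ) ≤ 1 / 4000 := min_le_right _ _
  set m : ℝ := min (δ / 4) (1 / 4000) with hmdef
  have hL0 : 0 ≤ L := by linarith
  -- products of a coefficient and `q`
  have hprod : ∀ i : Option (Fin s), (cfm a i : ℝ) ≤ (X : ℝ) ^ m → ((cfm a i * q : ℕ) : ℝ) ≤ Real.exp (2 * m * L) := by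
    intro i hi
    rw [hrp] at hi hqX
    push_cast
    calc (cfm a i : ℝ) * q ≤ Real.exp (L * m) * Real.exp (L * m) :=
          mul_le_mul hi hqX (Nat.cast_nonneg _) (Real.exp_pos _).le
      _ = Real.exp (2 * m * L) := by rw [← Real.exp_add]; ring_nf
  have hE1 : Real.exp (2 * m * L) ≤ Real.exp (δ * T) := by
    apply Real.exp_le_exp.2
    have h1 : 2 * m * L ≤ 2 * (δ / 4) * L := by gcongr
    have h2 : δ * (L / 2) ≤ δ * T := by gcongr
    linarith
  have hE2 : Real.exp (2 * m * L) ≤ Real.exp (T / 500) := by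
    apply Real.exp_le_exp.2
    have h1 : 2 * m * L ≤ 2 * (1 / 4000) * L := by gcongr
    linarith
  -- the representative of the residue class
  obtain ⟨r', hr'q, hr'r, hd1, hd2⟩ : ∃ r' : ℕ, r' ≤ q ∧ r' ≡ r [MOD q] ∧ 1 ≤ cfm a j * r' + efm j ∧
      cfm a j * r' + efm j ≤ cfm a j * q := by
    cases j with
    | none =>
      by_cases h0 : r % q = 0
      · refine ⟨q, le_rfl, ?_, ?_, ?_⟩
        · exact ((Nat.modEq_zero_iff_dvd).2 dvd_rfl).trans (by rw [Nat.ModEq, h0, Nat.zero_mod])
        · simpa [cfm, efm] using hq1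
        · simp [cfm, efm]
      · refine ⟨r % q, (Nat.mod_lt _ hq1).le, Nat.mod_modEq _ _, ?_, ?_⟩
        · simp only [cfm, efm]; omega
        · have := (Nat.mod_lt r hq1).le
          simpa [cfm, efm] using this
    | some k =>
      refine ⟨r % q, (Nat.mod_lt _ hq1).le, Nat.mod_modEq _ _, ?_, ?_⟩
      · simp [cfm, efm]
      · have h1 := Nat.mod_lt r hq1
        have h2 := (ha k).1
        simp only [cfm, efm]
        calc a k * (r % q) + 1 ≤ a k * (r % q) + a k := by omega
          _ = a k * (r % q + 1) := by ring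
          _ ≤ a k * q := Nat.mul_le_mul_left _ h1
  -- the local conditions at the representative
  have hloc : ∀ p : ℕ, p.Prime → p ∣ q → ∀ i, ¬ p ∣ fm a r' i := by
    intro p hp hpq i hd
    obtain ⟨n, hn1, hn2⟩ := hadm p hp
    apply hn2 i
    refine (fm_dvd_congr a ?_ i).1 hd
    exact (hr'r.of_dvd hpq).trans (hn1 hpq).symm
  have hval : ∀ (t : ℕ) (i : Option (Fin s)), fm a (q * t + r') i = cfm a i * q * t + (cfm a i * r' + efm i) := by
    intro t i
    rw [fm_eq]; ring
  obtain ⟨S, hS, hSn⟩ := hU T hT0 (cfm a j * q) (cfm a j * r' + efm j) ((cfm a l * q : ℕ) : ℤ)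
    ((cfm a l * r' + efm l : ℕ) : ℤ)
    (fun p => (range p).filter (fun x : ℕ => ∃ i, p ∣ fm a (q * x + r') i)) hd1 hd2
    ((hprod j hjX).trans hE1)
    (by
      have h1 : 1 ≤ cfm a l := by
        cases l with
        | none => simp [cfm]
        | some k => exact (ha k).1
      have : cfm a l * q ≠ 0 := Nat.mul_ne_zero (by omega) (by omega)
      exact_mod_cast this)
    (by
      intro hcon
      have hcon' : (cfm a j * q) * (cfm a l * r' + efm l) = (cfm a j * r' + efm j) * (cfm a l * q) := by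
        exact_mod_cast hcon
      have h2 : q * (cfm a j * efm l) = q * (cfm a l * efm j) := by
        have e1 : (cfm a j * q) * (cfm a l * r' + efm l) = q * (cfm a j * cfm a l * r') + q * (cfm a j * efm l) := by ring
        have e2 : (cfm a j * r' + efm j) * (cfm a l * q) = q * (cfm a j * cfm a l * r') + q * (cfm a l * efm j) := by ring
        rw [e1, e2] at hcon'
        exact Nat.add_left_cancel hcon'
      have h3 : cfm a j * efm l = cfm a l * efm j := Nat.eq_of_mul_eq_mul_left (by omega) h2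
      cases j with
      | none =>
        cases l with
        | none => exact hjl rfl
        | some k => simp [cfm, efm] at h3
      | some k =>
        cases l with
        | none => simp [cfm, efm] at h3
        | some k' =>
          simp only [cfm, efm, mul_one] at h3
          exact hjl (by rw [hinj h3]))
    (by
      have h1 := (hprod l hlX).trans hE2
      have h2 : |(((cfm a l * q : ℕ) : ℤ) : ℝ)| = ((cfm a l * q : ℕ) : ℝ) := by
        rw [Int.cast_natCast]; exact abs_of_nonneg (Nat.cast_nonneg _)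
      rw [h2]; exact h1)
    (by
      have h2 : |(((cfm a l * r' + efm l : ℕ) : ℤ) : ℝ)| = ((cfm a l * r' + efm l : ℕ) : ℝ) := by
        rw [Int.cast_natCast]; exact abs_of_nonneg (Nat.cast_nonneg _)
      rw [h2]
      have h3 : cfm a l * r' + efm l ≤ cfm a l * q + 1 := by
        have : efm l ≤ 1 := by cases l <;> simp [efm]
        have := Nat.mul_le_mul_left (cfm a l) hr'q
        omega
      have h4 : ((cfm a l * r' + efm l : ℕ) : ℝ) ≤ ((cfm a l * q : ℕ) : ℝ) + 1 := by exact_mod_cast h3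
      have h5 : (1 : ℝ) ≤ Real.exp (T / 500) := Real.one_le_exp (by linarith)
      have h6 : (2 : ℝ) ≤ Real.exp 1 := by have := Real.exp_one_gt_d9; linarith
      calc ((cfm a l * r' + efm l : ℕ) : ℝ) ≤ ((cfm a l * q : ℕ) : ℝ) + 1 := h4
        _ ≤ Real.exp (T / 500) + Real.exp (T / 500) := add_le_add ((hprod l hlX).trans hE2) h5
        _ = 2 * Real.exp (T / 500) := by ring
        _ ≤ Real.exp 1 * Real.exp (T / 500) := by gcongr
        _ = Real.exp (1 + T / 500) := (Real.exp_add _ _).symm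
        _ ≤ Real.exp (1019 / 1000 * T) := Real.exp_le_exp.2 (by linarith))
    (by
      intro p hp
      have h3 : (range p).filter (fun x : ℕ => ∃ i, p ∣ fm a (q * x + r') i) ⊆
          (univ : Finset (Option (Fin s))).biUnion (fun i => (range p).filter (fun x : ℕ => p ∣ fm a (q * x + r') i)) := by
        intro x hx
        rw [mem_filter] at hx
        obtain ⟨i, hi⟩ := hx.2
        rw [mem_biUnion]
        exact ⟨i, mem_univ _, mem_filter.2 ⟨hx.1, hi⟩⟩
      refine (card_le_card h3).trans ((card_biUnion_le_card_mul _ _ 1 ?_).trans (by simp))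
      intro i _
      exact fm_roots a hp i fun hpq => hloc p hp hpq i)
    (by
      intro p hp
      -- a good `t`
      obtain ⟨t, ht⟩ : ∃ t : ℕ, ∀ i, ¬ p ∣ fm a (q * t + r') i := by
        by_cases hpq : p ∣ q
        · refine ⟨0, fun i => ?_⟩
          simpa using hloc p hp hpq i
        · obtain ⟨n, _, hn⟩ := hadm p hp
          haveI : Fact p.Prime := ⟨hp⟩
          have hq0 : (q : ZMod p) ≠ 0 := by
            intro h0
            exact hpq ((ZMod.natCast_eq_zero_iff q p).1 h0)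
          refine ⟨(((n : ZMod p) - r') / q).val, fun i hd => hn i ?_⟩
          refine (fm_dvd_congr a ?_ i).1 hd
          rw [← ZMod.natCast_eq_natCast_iff]
          push_cast
          rw [ZMod.natCast_val, ZMod.cast_id', id, mul_div_cancel₀ _ hq0]
          ring
      refine ⟨t, ?_, ?_, ?_⟩
      · have := ht j
        rwa [hval] at this
      · have := ht l
        rw [hval] at this
        intro hd
        apply this
        exact_mod_cast hd
      · intro hmem
        rw [mem_filter] at hmem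
        obtain ⟨i, hi⟩ := hmem.2
        apply ht i
        refine (fm_dvd_congr a ?_ i).1 hi
        exact Nat.ModEq.add_right _ (Nat.ModEq.mul_left _ (Nat.mod_modEq t p)))
  have h101 : 3 * Real.exp (101 / 100 * T) = X := by
    rw [hT]
    have : 101 / 100 * (100 / 101 * (L - Real.log 3)) = L - Real.log 3 := by ring
    rw [this, Real.exp_sub, Real.exp_log (by norm_num), ← hXL]
    ring
  have h97 : (X : ℝ) ^ (97 / 100 : ℝ) ≤ Real.exp (98 / 100 * T) := by
    rw [hrp]
    exact Real.exp_le_exp.2 (by linarith)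
  have hinjt : Set.InjOn (fun t : ℕ => q * t + r') (S : Set ℕ) := by
    intro x _ y _ hxy
    have : q * x = q * y := Nat.add_right_cancel hxy
    exact Nat.eq_of_mul_eq_mul_left (by omega) this
  refine ⟨S.image (fun t => q * t + r'), ?_, ?_⟩
  · rw [card_image_of_injOn hinjt]
    exact h97.trans hS.le
  intro n hn
  rw [mem_image] at hn
  obtain ⟨t, htS, rfl⟩ := hn
  obtain ⟨hp, hp1, hp2, he, hl, hm1', hm3⟩ := hSn t htS
  rw [h101] at hp2
  have hpX : cfm a j * q * t + (cfm a j * r' + efm j) ≤ X := by exact_mod_cast hp2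
  rw [← hval] at hpX hp
  have hcj : 1 ≤ cfm a j := by
    cases j with
    | none => simp [cfm]
    | some k => exact (ha k).1
  have hnX : q * t + r' ≤ X := by
    rw [fm_eq] at hpX
    calc q * t + r' ≤ cfm a j * (q * t + r') := Nat.le_mul_of_pos_left _ hcj
      _ ≤ cfm a j * (q * t + r') + efm j := Nat.le_add_right _ _
      _ ≤ X := hpX
  have e1 : (((cfm a l * q : ℕ) : ℤ) * (t : ℤ) + ((cfm a l * r' + efm l : ℕ) : ℤ)) = ((fm a (q * t + r') l : ℕ) : ℤ) := by
    rw [hval]; push_cast; ring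
  rw [e1, Int.natAbs_natCast] at hm1' hm3
  refine ⟨hnX, ?_, hp, hm1', hm3, ?_, ?_⟩
  · have : q * t + r' ≡ 0 + r' [MOD q] := Nat.ModEq.add_right _ ((Nat.modEq_zero_iff_dvd).2 (dvd_mul_right q t))
    exact (by simpa using this : q * t + r' ≡ r' [MOD q]).trans hr'r
  · intro p hp1' hp2'
    by_contra hcon
    push Not at hcon
    refine hl p hp1' (hcon.trans ?_) ?_
    · rw [hrp]
      exact Real.exp_le_exp.2 (by linarith)
    · rw [e1]
      exact_mod_cast hp2'
  · intro i
    -- the size of the value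
    by_cases h0 : fm a (q * t + r') i = 0
    · rw [h0]; simp
    have hX2 : 2 ≤ X := by
      have : (2 : ℝ) ≤ X := by
        rw [hXL]
        have h1 := Real.add_one_le_exp L
        linarith
      exact_mod_cast this
    have hsize : fm a (q * t + r') i ≤ X ^ (K + 2) := by
      have h1 : 1 ≤ X := by omega
      cases i with
      | none =>
        simp only [fm]
        calc q * t + r' ≤ X := hnX
          _ = X ^ 1 := (pow_one X).symm
          _ ≤ X ^ (K + 2) := Nat.pow_le_pow_right h1 (by omega)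
      | some k =>
        simp only [fm]
        have h2 := (ha k).2
        have h3 : 1 ≤ X ^ (K + 1) := Nat.one_le_pow _ _ h1
        calc a k * (q * t + r') + 1 ≤ X ^ K * X + 1 := by
              have := Nat.mul_le_mul h2 hnX
              omega
          _ = X ^ (K + 1) + 1 := by rw [pow_succ]
          _ ≤ X ^ (K + 1) * 2 := by omega
          _ ≤ X ^ (K + 1) * X := Nat.mul_le_mul_left _ hX2
          _ = X ^ (K + 2) := by rw [← pow_succ]
    have h1 := multB_pow_omega (Real.exp (ε * T)) (Real.exp_pos _).le (m := fm a (q * t + r') i) h0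
      (fun p hp hpd => by
        by_contra hcon
        push Not at hcon
        refine he p hp hcon.le ?_
        rw [mem_filter, mem_range]
        refine ⟨Nat.mod_lt _ hp.pos, i, ?_⟩
        refine (fm_dvd_congr a ?_ i).1 hpd
        exact Nat.ModEq.add_right _ (Nat.ModEq.mul_left _ (Nat.mod_modEq t p).symm))
    have h2 : ((fm a (q * t + r') i : ℕ) : ℝ) ≤ Real.exp (((K : ℝ) + 2) * L) := by
      have h3 : ((fm a (q * t + r') i : ℕ) : ℝ) ≤ (X : ℝ) ^ (K + 2) := by exact_mod_cast hsize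
      refine h3.trans (le_of_eq ?_)
      rw [hXL, ← Real.exp_nat_mul]
      push_cast
      ring_nf
    have h3 := h1.trans h2
    rw [← Real.exp_nat_mul] at h3
    have h4 := Real.exp_le_exp.1 h3
    set Om := ArithmeticFunction.cardFactors (fm a (q * t + r') i) with hOm
    have h5 : ((Om : ℕ) : ℝ) ≤ 2 * ((K : ℝ) + 2) / ε := by
      rw [le_div_iff₀ hε]
      by_contra hcon
      push Not at hcon
      have h7 : 0 < L / 2 := by linarith
      have h8 : 2 * ((K : ℝ) + 2) * (L / 2) < ((Om : ℕ) : ℝ) * ε * (L / 2) :=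
        mul_lt_mul_of_pos_right hcon h7
      have h9 : ((Om : ℕ) : ℝ) * ε * (L / 2) ≤ ((Om : ℕ) : ℝ) * ε * T := by gcongr
      have h10 : 2 * ((K : ℝ) + 2) * (L / 2) = ((K : ℝ) + 2) * L := by ring
      have h11 : ((Om : ℕ) : ℝ) * (ε * T) = ((Om : ℕ) : ℝ) * ε * T := by ring
      linarith
    have h6 : ((Om : ℕ) : ℝ) ≤ (⌈2 * ((K : ℝ) + 2) / ε⌉₊ : ℝ) := h5.trans (Nat.le_ceil _)
    exact_mod_cast h6

end Pool.Agent.H536.OC
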