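import Mathlib
import Pool.Agent.H536.OC.Wc

open Finset Filter Topology

/-! Subtask (helper536), proved by helper627 (after helper962's proof of the Goldbach analogue). -/

namespace Pool.Agent.H536.OC

/-- admissibility -/
theorem pair_adm (q a d' d : ℕ) (hN : Even d) (hd : d' ≡ a [MOD q])
    (haq : a.Coprime q) (hadq : (a + d).Coprime q) (p : ℕ) (hp : p.Prime) :
    ∃ n : ℕ, ¬ p ∣ q * n + d' ∧ ¬ (p : ℤ) ∣ (q : ℤ) * n + ((d' : ℤ) + d) := by
  by_cases hpq : p ∣ q
  · refine ⟨0, ?_, ?_⟩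
    · intro h
      rw [mul_zero, zero_add] at h
      have h1 : d'.gcd q = 1 := (Nat.ModEq.gcd_eq hd).trans haq
      have h2 := Nat.dvd_gcd h hpq
      rw [h1] at h2
      exact hp.one_lt.ne' (Nat.dvd_one.1 h2)
    · intro h
      have h0 : (q : ℤ) * ((0 : ℕ) : ℤ) + ((d' : ℤ) + d) = ((d' + d : ℕ) : ℤ) := by
        push_cast; ring
      rw [h0, Int.natCast_dvd_natCast] at h
      have h1 : (d' + d).gcd q = 1 := (Nat.ModEq.gcd_eq (hd.add_right d)).trans hadq
      have h2 := Nat.dvd_gcd h hpq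
      rw [h1] at h2
      exact hp.one_lt.ne' (Nat.dvd_one.1 h2)
  · have := Fact.mk hp
    have hq0 : (q : ZMod p) ≠ 0 := by
      rw [Ne, ZMod.natCast_eq_zero_iff]
      exact hpq
    -- a value `v` different from `0` and `-d`
    obtain ⟨v, hv0, hvN⟩ : ∃ v : ZMod p, v ≠ 0 ∧ v ≠ -(d : ZMod p) := by
      by_cases h1 : -(d : ZMod p) = 1
      · refine ⟨2, ?_, ?_⟩
        · intro h2
          have h3 : p ∣ 2 := by
            rw [← ZMod.natCast_eq_zero_iff]
            exact_mod_cast h2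
          have h4 : p = 2 := (Nat.prime_dvd_prime_iff_eq hp Nat.prime_two).1 h3
          subst h4
          have h5 : (d : ZMod 2) = 0 := by
            rw [ZMod.natCast_eq_zero_iff]
            exact hN.two_dvd
          rw [h5, neg_zero] at h1
          exact zero_ne_one h1
        · rw [h1]
          intro h2
          have h3 : (1 : ZMod p) = 0 := by linear_combination h2
          exact one_ne_zero h3
      · exact ⟨1, one_ne_zero, fun h => h1 h.symm⟩
    refine ⟨((v - d') * (q : ZMod p)⁻¹).val, ?_, ?_⟩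
    · intro h
      rw [← ZMod.natCast_eq_zero_iff] at h
      push_cast at h
      rw [ZMod.natCast_zmod_val] at h
      apply hv0
      rw [← h]
      field_simp
      ring
    · intro h
      rw [← ZMod.intCast_zmod_eq_zero_iff_dvd] at h
      push_cast at h
      rw [ZMod.natCast_zmod_val] at h
      apply hvN
      have h2 : (q : ZMod p) * ((v - d') * (q : ZMod p)⁻¹) = v - d' := by
        field_simp
      rw [h2] at h
      linear_combination h

/-- prime pairs with any even difference, the second component `P₃`, in all progressions to power moduli -/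
theorem pairs3 (h : S_U3c) : ∃ δ : ℝ, 0 < δ ∧ ∃ X0 : ℕ, ∀ X : ℕ, X0 ≤ X → ∀ d : ℕ, Even d → 2 ≤ d → d ≤ X →
    ∀ q a : ℕ, 1 ≤ q → (q : ℝ) ≤ (X : ℝ) ^ δ → a.Coprime q → (a + d).Coprime q →
    ∃ S : Finset ℕ, (X : ℝ) ^ (97 / 100 : ℝ) ≤ S.card ∧
    ∀ p ∈ S, p.Prime ∧ p ≤ X ∧ p ≡ a [MOD q] ∧ (X : ℝ) ^ (97 / 100 : ℝ) ≤ p ∧
      ArithmeticFunction.cardFactors (p + d) ≤ 3 ∧ ∀ l : ℕ, l.Prime → l ∣ p + d → (X : ℝ) ^ (11 / 100 : ℝ) < l := by
  obtain ⟨δ, ε, T0, hδ, hε, hU⟩ := h 1
  have hm : 0 < min δ (1 / 500) := lt_min hδ (by norm_num)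
  refine ⟨min δ (1 / 500) / 2, by positivity, ⌈Real.exp (max 30000 (2 * |T0| + 4))⌉₊, ?_⟩
  intro X hX d hde hd2 hdX q a hq hqX haq hadq
  have hX1 : Real.exp (max 30000 (2 * |T0| + 4)) ≤ X := (Nat.le_ceil _).trans (by exact_mod_cast hX)
  have hXpos : (0 : ℝ) < X := (Real.exp_pos _).trans_le hX1
  obtain ⟨L, hL⟩ : ∃ L, L = Real.log X := ⟨_, rfl⟩
  have hXL : (X : ℝ) = Real.exp L := by rw [hL, Real.exp_log hXpos]
  have hL1 : max 30000 (2 * |T0| + 4) ≤ L := by
    rw [hL]
    exact (Real.le_log_iff_exp_le hXpos).2 hX1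
  have hL500 : 30000 ≤ L := (le_max_left _ _).trans hL1
  have hLT : 2 * |T0| + 4 ≤ L := (le_max_right _ _).trans hL1
  have h7a : Real.log 3 ≤ 2 := by
    rw [Real.log_le_iff_le_exp (by norm_num)]
    have h1 := Real.exp_one_gt_d9
    have h2 : Real.exp 2 = Real.exp 1 * Real.exp 1 := by rw [← Real.exp_add]; norm_num
    rw [h2]
    nlinarith
  have h7b : 0 < Real.log 3 := Real.log_pos (by norm_num)
  obtain ⟨T, hT⟩ : ∃ T, T = 100 / 101 * (L - Real.log 3) := ⟨_, rfl⟩
  have hTa : 100 / 101 * (L - 2) ≤ T := by rw [hT]; linarith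
  have hTb : T ≤ 100 / 101 * L := by rw [hT]; linarith
  have hT0 : T0 ≤ T := by
    have h1 := le_abs_self T0
    have h2 := abs_nonneg T0
    linarith
  have hrp : ∀ a : ℝ, (X : ℝ) ^ a = Real.exp (L * a) := by
    intro a
    rw [Real.rpow_def_of_pos hXpos, ← hL]
  rw [hrp] at hqX
  have hqL : ∀ a : ℝ, min δ (1 / 500) ≤ a → (q : ℝ) ≤ Real.exp (a * T) := by
    intro a ha
    refine hqX.trans (Real.exp_le_exp.2 ?_)
    have ha0 : 0 < a := hm.trans_le ha
    have h1 : L * (min δ (1 / 500) / 2) ≤ L * (a / 2) := by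
      have : 0 ≤ L := by linarith
      gcongr
    have h2 : a * (L / 2) ≤ a * T := by
      have : L / 2 ≤ T := by linarith
      gcongr
    linarith
  -- the representative of `a`
  obtain ⟨d', hd1, hdq, hd⟩ : ∃ d' : ℕ, 1 ≤ d' ∧ d' ≤ q ∧ d' ≡ a [MOD q] := by
    by_cases h0 : a % q = 0
    · refine ⟨q, hq, le_rfl, ?_⟩
      unfold Nat.ModEq
      rw [Nat.mod_self, h0]
    · exact ⟨a % q, Nat.one_le_iff_ne_zero.2 h0, (Nat.mod_lt _ (by omega)).le, Nat.mod_modEq _ _⟩
  have hqX2 : (q : ℝ) ≤ X := by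
    rw [hXL]
    refine hqX.trans (Real.exp_le_exp.2 ?_)
    have h1 : min δ (1 / 500) ≤ 1 / 500 := min_le_right _ _
    nlinarith
  obtain ⟨S, hS1, hS2⟩ := hU T hT0 q d' (fun _ => (q : ℤ)) (fun _ => (d' : ℤ) + d)
    0 hd1 hdq (hqL δ (min_le_left _ _)) (by
      have : (q : ℤ) ≠ 0 := by exact_mod_cast (by omega : q ≠ 0)
      simpa using this)
    (by
      intro h1
      have h2 : (q : ℤ) * d = 0 := by linear_combination h1
      rcases mul_eq_zero.1 h2 with h3 | h3
      · have : q = 0 := by exact_mod_cast h3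
        omega
      · have : d = 0 := by exact_mod_cast h3
        omega)
    (by
      have h1 : |(((q : ℤ) : ℤ) : ℝ)| = q := by
        push_cast
        rw [abs_of_nonneg (Nat.cast_nonneg q)]
      rw [h1]
      have h2 := hqL (1 / 500) (min_le_right _ _)
      rwa [one_div_mul_eq_div] at h2)
    (by
      have h0 : ((d' : ℕ) : ℝ) ≤ X := le_trans (by exact_mod_cast hdq) hqX2
      have h0' : ((d : ℕ) : ℝ) ≤ X := by exact_mod_cast hdX
      have h1 : |(((d' : ℤ) + (d : ℤ) : ℤ) : ℝ)| ≤ 2 * X := by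
        push_cast
        rw [abs_of_nonneg (by positivity)]
        linarith
      refine h1.trans ?_
      have h2 : (2 : ℝ) ≤ Real.exp 1 := by
        have := Real.add_one_le_exp (1 : ℝ)
        linarith
      calc 2 * (X : ℝ) ≤ Real.exp 1 * Real.exp L := by
            rw [← hXL]
            gcongr
        _ = Real.exp (1 + L) := (Real.exp_add _ _).symm
        _ ≤ Real.exp (1019 / 1000 * T) := Real.exp_le_exp.2 (by linarith))
    (by
      intro p hp
      obtain ⟨n, h1, h2⟩ := pair_adm q a d' d hde hd haq hadq p hp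
      exact ⟨n, h1, fun _ => h2⟩)
  have h101 : 3 * Real.exp (101 / 100 * T) = X := by
    rw [hT]
    have : 101 / 100 * (100 / 101 * (L - Real.log 3)) = L - Real.log 3 := by ring
    rw [this, Real.exp_sub, Real.exp_log (by norm_num), ← hXL]
    ring
  have h98 : (X : ℝ) ^ (97 / 100 : ℝ) ≤ Real.exp (98 / 100 * T) := by
    rw [hrp]
    exact Real.exp_le_exp.2 (by linarith)
  have hinj : Function.Injective (fun n : ℕ => q * n + d') := by
    intro n n' hnn
    have h3 : q * n = q * n' := by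
      have h4 : q * n + d' = q * n' + d' := hnn
      omega
    exact Nat.eq_of_mul_eq_mul_left (by omega) h3
  refine ⟨S.image (fun n : ℕ => q * n + d'), ?_, ?_⟩
  · rw [Finset.card_image_of_injective _ hinj]
    exact h98.trans hS1.le
  intro p hpS
  obtain ⟨n, hnS, rfl⟩ := Finset.mem_image.1 hpS
  obtain ⟨hp, hp1, hp2, -, hl, hm1, hm3⟩ := hS2 n hnS
  rw [h101] at hp2
  have hmz : (q : ℤ) * n + ((d' : ℤ) + d) = ((q * n + d' + d : ℕ) : ℤ) := by
    push_cast
    ring
  simp only [hmz] at hl hm1 hm3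
  rw [Int.natAbs_natCast] at hm3
  refine ⟨hp, by exact_mod_cast hp2, ?_, ?_, hm3, ?_⟩
  · refine Nat.ModEq.trans ?_ hd
    show (q * n + d') % q = d' % q
    rw [Nat.mul_add_mod]
  · exact h98.trans hp1.le
  · intro l hl1 hl2
    by_contra hcon
    push Not at hcon
    refine hl l hl1 (hcon.trans ?_) (by exact_mod_cast hl2)
    rw [hrp]
    exact Real.exp_le_exp.2 (by linarith)

end Pool.Agent.H536.OC
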