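import Mathlib
import Pool.Agent.H536.OC.Wg

open Finset Filter Topology

/-! Subtask (helper536), proved by helper187 (after helper627's proof of the pair version). -/

namespace Pool.Agent.H536.OC

open Polynomial in
/-- the linear polynomial `q X + c` -/
theorem shift_eval (q c x : ℤ) : (C q * X + C c : ℤ[X]).eval x = q * x + c := by
  simp

open Polynomial in
theorem shift_deg (q c : ℤ) : (C q * X + C c : ℤ[X]).natDegree ≤ 1 :=
  natDegree_linear_le

/-- a product of numbers which are at least `y` -/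
theorem shift_pow_le (y : ℝ) (hy : 0 ≤ y) (l : List ℕ) (h : ∀ p ∈ l, y ≤ (p : ℝ)) :
    y ^ l.length ≤ ((l.prod : ℕ) : ℝ) := by
  induction l with
  | nil => simp
  | cons p l ih =>
    rw [List.length_cons, List.prod_cons, pow_succ', Nat.cast_mul]
    exact mul_le_mul (h p List.mem_cons_self) (ih fun q hq => h q (List.mem_cons_of_mem _ hq))
      (pow_nonneg hy _) (Nat.cast_nonneg _)

theorem shift_pow_omega (y : ℝ) (hy : 0 ≤ y) {m : ℕ} (hm : m ≠ 0)
    (h : ∀ p : ℕ, p.Prime → p ∣ m → y ≤ (p : ℝ)) :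
    y ^ ArithmeticFunction.cardFactors m ≤ (m : ℝ) := by
  have h1 := shift_pow_le y hy m.primeFactorsList fun p hp =>
    h p (Nat.prime_of_mem_primeFactorsList hp) (Nat.dvd_of_mem_primeFactorsList hp)
  rw [Nat.prod_primeFactorsList hm] at h1
  rwa [ArithmeticFunction.cardFactors_apply]

/-- solving `q m + d' = n0` modulo `p` -/
theorem shift_solve (q a d' : ℕ) (hd : d' ≡ a [MOD q]) (p : ℕ) (hp : p.Prime) (n0 : ℤ)
    (h : p ∣ q → (p : ℤ) ∣ n0 - a) : ∃ m : ℕ, (p : ℤ) ∣ (q : ℤ) * m + d' - n0 := by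
  by_cases hpq : p ∣ q
  · refine ⟨0, ?_⟩
    have h1 : (p : ℤ) ∣ (a : ℤ) - d' :=
      (Int.natCast_dvd_natCast.2 hpq).trans ((Nat.modEq_iff_dvd).1 hd)
    have h2 := h hpq
    have h3 : (q : ℤ) * ((0 : ℕ) : ℤ) + d' - n0 = -((n0 - a) + (a - d')) := by
      push_cast; ring
    rw [h3]
    exact (dvd_neg).2 (dvd_add h2 h1)
  · have := Fact.mk hp
    have hq0 : (q : ZMod p) ≠ 0 := by
      rw [Ne, ZMod.natCast_eq_zero_iff]
      exact hpq
    refine ⟨(((n0 : ZMod p) - d') * (q : ZMod p)⁻¹).val, ?_⟩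
    rw [← ZMod.intCast_zmod_eq_zero_iff_dvd]
    push_cast
    rw [ZMod.natCast_zmod_val]
    have h2 : (q : ZMod p) * (((n0 : ZMod p) - d') * (q : ZMod p)⁻¹) = n0 - d' := by
      field_simp
    rw [h2]
    ring

/-- `p` prime, `p + h0` a `P₃`, the other `p + h_i` almost prime, in all progressions to power moduli, uniformly in large shifts -/
theorem shiftT (h : S_P) : ∀ k K : ℕ, ∃ (δ : ℝ) (R X0 : ℕ), 0 < δ ∧ ∀ X : ℕ, X0 ≤ X → ∀ (h0 : ℤ) (hs : Fin k → ℤ), h0 ≠ 0 →
    |h0| ≤ X → (∀ i, |hs i| ≤ X ^ K) → ∀ q a : ℕ, 1 ≤ q → (q : ℝ) ≤ (X : ℝ) ^ δ →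
    (∀ p : ℕ, p.Prime → ∃ n : ℤ, (p ∣ q → (p : ℤ) ∣ n - a) ∧ ¬ (p : ℤ) ∣ n ∧ ¬ (p : ℤ) ∣ n + h0 ∧ ∀ i, ¬ (p : ℤ) ∣ n + hs i) →
    ∃ S : Finset ℕ, (X : ℝ) ^ (97 / 100 : ℝ) ≤ S.card ∧
    ∀ p ∈ S, p.Prime ∧ p ≤ X ∧ p ≡ a [MOD q] ∧ (X : ℝ) ^ (97 / 100 : ℝ) ≤ p ∧ 1 < ((p : ℤ) + h0).natAbs ∧
      ArithmeticFunction.cardFactors ((p : ℤ) + h0).natAbs ≤ 3 ∧
      (∀ l : ℕ, l.Prime → l ∣ ((p : ℤ) + h0).natAbs → (X : ℝ) ^ (11 / 100 : ℝ) < l) ∧
      ∀ i, (p : ℤ) + hs i ≠ 0 ∧ ArithmeticFunction.cardFactors ((p : ℤ) + hs i).natAbs ≤ R := by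
  intro k K
  obtain ⟨δ, ε, T0, hδ, hε, hU⟩ := h k 1
  have hm : 0 < min δ (1 / 500) := lt_min hδ (by norm_num)
  refine ⟨min δ (1 / 500) / 2, ⌈2 * ((K : ℝ) + 2) / ε⌉₊,
    ⌈Real.exp (max (max 30000 (2 * |T0| + 4)) (2 / ε))⌉₊, by positivity, ?_⟩
  intro X hX h0 hs hh0 hh0X hhs q a hq hqX hadm
  have hX1 : Real.exp (max (max 30000 (2 * |T0| + 4)) (2 / ε)) ≤ X :=
    (Nat.le_ceil _).trans (by exact_mod_cast hX)
  have hXpos : (0 : ℝ) < X := (Real.exp_pos _).trans_le hX1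
  obtain ⟨L, hL⟩ : ∃ L, L = Real.log X := ⟨_, rfl⟩
  have hXL : (X : ℝ) = Real.exp L := by rw [hL, Real.exp_log hXpos]
  have hL1 : max (max 30000 (2 * |T0| + 4)) (2 / ε) ≤ L := by
    rw [hL]
    exact (Real.le_log_iff_exp_le hXpos).2 hX1
  have hL500 : 30000 ≤ L := ((le_max_left _ _).trans (le_max_left _ _)).trans hL1
  have hLT : 2 * |T0| + 4 ≤ L := ((le_max_right _ _).trans (le_max_left _ _)).trans hL1
  have hLe : 2 / ε ≤ L := (le_max_right _ _).trans hL1
  have h7a : Real.log 3 ≤ 2 := by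
    rw [Real.log_le_iff_le_exp (by norm_num)]
    have h1 := Real.exp_one_gt_d9
    have h2 : Real.exp 2 = Real.exp 1 * Real.exp 1 := by rw [← Real.exp_add]; norm_num
    rw [h2]
    nlinarith
  have h7b : 0 < Real.log 3 := Real.log_pos (by norm_num)
  obtain ⟨T, hT⟩ : ∃ T, T = 100 / 101 * (L - Real.log 3) := ⟨_, rfl⟩
  have hTa : 100 / 101 * (L - 2) ≤ T := by rw [hT]; linarith
  have hTb : T ≤ 100 / 101 * L := by rw [hT]; linarith
  have hTL : L / 2 ≤ T := by linarith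
  have hT0 : T0 ≤ T := by
    have h1 := le_abs_self T0
    have h2 := abs_nonneg T0
    linarith
  have hrp : ∀ a : ℝ, (X : ℝ) ^ a = Real.exp (L * a) := by
    intro a
    rw [Real.rpow_def_of_pos hXpos, ← hL]
  rw [hrp] at hqX
  have hqL : ∀ a : ℝ, min δ (1 / 500) ≤ a → (q : ℝ) ≤ Real.exp (a * T) := by
    intro a ha
    refine hqX.trans (Real.exp_le_exp.2 ?_)
    have ha0 : 0 < a := hm.trans_le ha
    have h1 : L * (min δ (1 / 500) / 2) ≤ L * (a / 2) := by
      have : 0 ≤ L := by linarith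
      gcongr
    have h2 : a * (L / 2) ≤ a * T := by
      gcongr
    linarith
  -- the representative of `a`
  obtain ⟨d', hd1, hdq, hd⟩ : ∃ d' : ℕ, 1 ≤ d' ∧ d' ≤ q ∧ d' ≡ a [MOD q] := by
    by_cases h0 : a % q = 0
    · refine ⟨q, hq, le_rfl, ?_⟩
      unfold Nat.ModEq
      rw [Nat.mod_self, h0]
    · exact ⟨a % q, Nat.one_le_iff_ne_zero.2 h0, (Nat.mod_lt _ (by omega)).le, Nat.mod_modEq _ _⟩
  have hqX2 : (q : ℝ) ≤ X := by
    rw [hXL]
    refine hqX.trans (Real.exp_le_exp.2 ?_)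
    have h1 : min δ (1 / 500) ≤ 1 / 500 := min_le_right _ _
    nlinarith
  obtain ⟨S, hS1, hS2⟩ := hU T hT0 q d' (q : ℤ) ((d' : ℤ) + h0)
    (fun i => Polynomial.C (q : ℤ) * Polynomial.X + Polynomial.C ((d' : ℤ) + hs i)) hd1 hdq
    (hqL δ (min_le_left _ _)) (by exact_mod_cast (by omega : q ≠ 0))
    (by
      intro h1
      have h2 : (q : ℤ) * h0 = 0 := by linear_combination h1
      rcases mul_eq_zero.1 h2 with h3 | h3
      · have : q = 0 := by exact_mod_cast h3
        omega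
      · exact hh0 h3)
    (by
      have h1 : |(((q : ℤ) : ℤ) : ℝ)| = q := by
        push_cast
        rw [abs_of_nonneg (Nat.cast_nonneg q)]
      rw [h1]
      have h2 := hqL (1 / 500) (min_le_right _ _)
      rwa [one_div_mul_eq_div] at h2)
    (by
      have h0' : ((d' : ℕ) : ℝ) ≤ X := le_trans (by exact_mod_cast hdq) hqX2
      have h0'' : |((h0 : ℤ) : ℝ)| ≤ X := by exact_mod_cast hh0X
      have h1 : |(((d' : ℤ) + h0 : ℤ) : ℝ)| ≤ 2 * X := by
        push_cast
        refine (abs_add_le _ _).trans ?_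
        rw [abs_of_nonneg (Nat.cast_nonneg d')]
        linarith
      refine h1.trans ?_
      have h2 : (2 : ℝ) ≤ Real.exp 1 := by
        have := Real.add_one_le_exp (1 : ℝ)
        linarith
      calc 2 * (X : ℝ) ≤ Real.exp 1 * Real.exp L := by
            rw [← hXL]
            gcongr
        _ = Real.exp (1 + L) := (Real.exp_add _ _).symm
        _ ≤ Real.exp (1019 / 1000 * T) := Real.exp_le_exp.2 (by linarith))
    (fun i => shift_deg _ _)
    (by
      intro p hp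
      obtain ⟨n0, g1, g2, g3, g4⟩ := hadm p hp
      obtain ⟨m, hm⟩ := shift_solve q a d' hd p hp n0 g1
      refine ⟨m, ?_, ?_, ?_⟩
      · intro hdv
        apply g2
        have h1 : (p : ℤ) ∣ (q : ℤ) * m + d' := by exact_mod_cast (Int.natCast_dvd_natCast.2 hdv)
        have h2 := dvd_sub h1 hm
        have h3 : (q : ℤ) * m + d' - ((q : ℤ) * m + d' - n0) = n0 := by ring
        rwa [h3] at h2
      · intro hdv
        apply g3
        have h2 := dvd_sub hdv hm
        have h3 : (q : ℤ) * m + (d' + h0) - ((q : ℤ) * m + d' - n0) = n0 + h0 := by ring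
        rwa [h3] at h2
      · intro i hdv
        apply g4 i
        rw [shift_eval] at hdv
        have h2 := dvd_sub hdv hm
        have h3 : (q : ℤ) * m + (d' + hs i) - ((q : ℤ) * m + d' - n0) = n0 + hs i := by ring
        rwa [h3] at h2)
  have h101 : 3 * Real.exp (101 / 100 * T) = X := by
    rw [hT]
    have : 101 / 100 * (100 / 101 * (L - Real.log 3)) = L - Real.log 3 := by ring
    rw [this, Real.exp_sub, Real.exp_log (by norm_num), ← hXL]
    ring
  have h98 : (X : ℝ) ^ (97 / 100 : ℝ) ≤ Real.exp (98 / 100 * T) := by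
    rw [hrp]
    exact Real.exp_le_exp.2 (by linarith)
  have hinj : Function.Injective (fun n : ℕ => q * n + d') := by
    intro n n' hnn
    have h3 : q * n = q * n' := by
      have h4 : q * n + d' = q * n' + d' := hnn
      omega
    exact Nat.eq_of_mul_eq_mul_left (by omega) h3
  refine ⟨S.image (fun n : ℕ => q * n + d'), ?_, ?_⟩
  · rw [Finset.card_image_of_injective _ hinj]
    exact h98.trans hS1.le
  intro p hpS
  obtain ⟨n, hnS, rfl⟩ := Finset.mem_image.1 hpS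
  obtain ⟨hp, hp1, hp2, hf, hl, hm1, hm3⟩ := hS2 n hnS
  rw [h101] at hp2
  have hpX : q * n + d' ≤ X := by exact_mod_cast hp2
  have hmz : (q : ℤ) * n + ((d' : ℤ) + h0) = (((q * n + d' : ℕ) : ℤ)) + h0 := by
    push_cast
    ring
  simp only [hmz] at hl hm1 hm3
  refine ⟨hp, hpX, ?_, ?_, hm1, hm3, ?_, ?_⟩
  · refine Nat.ModEq.trans ?_ hd
    show (q * n + d') % q = d' % q
    rw [Nat.mul_add_mod]
  · exact h98.trans hp1.le
  · intro l hl1 hl2
    by_contra hcon
    push Not at hcon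
    refine hl l hl1 (hcon.trans ?_) (Int.natCast_dvd.2 hl2)
    rw [hrp]
    exact Real.exp_le_exp.2 (by linarith)
  · intro i
    have hi : ∀ l : ℕ, l.Prime → (l : ℝ) ≤ Real.exp (ε * T) →
        ¬ (l : ℤ) ∣ (((q * n + d' : ℕ) : ℤ)) + hs i := by
      intro l hl1 hl2 hl3
      apply hf i l hl1 hl2
      rw [shift_eval]
      have : (q : ℤ) * n + ((d' : ℤ) + hs i) = (((q * n + d' : ℕ) : ℤ)) + hs i := by
        push_cast
        ring
      rwa [this]
    have hne : (((q * n + d' : ℕ) : ℤ)) + hs i ≠ 0 := by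
      intro h0
      refine hi 2 Nat.prime_two ?_ (by rw [h0]; exact dvd_zero _)
      have h1 : 1 ≤ ε * T := by
        have h2 : 2 ≤ L * ε := by
          have := (div_le_iff₀ hε).1 hLe
          linarith
        nlinarith
      have h2 := Real.add_one_le_exp (ε * T)
      push_cast
      linarith
    refine ⟨hne, ?_⟩
    obtain ⟨z, hz⟩ : ∃ z : ℤ, z = (((q * n + d' : ℕ) : ℤ)) + hs i := ⟨_, rfl⟩
    rw [← hz] at hi hne ⊢
    have h1 := shift_pow_omega (Real.exp (ε * T)) (Real.exp_pos _).le (m := z.natAbs)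
      (by rwa [Ne, Int.natAbs_eq_zero])
      (fun l hl1 hl2 => by
        by_contra hcon
        push Not at hcon
        exact hi l hl1 hcon.le (Int.natCast_dvd.2 hl2))
    have h2 : ((z.natAbs : ℕ) : ℝ) ≤ Real.exp (((K : ℝ) + 2) * L) := by
      have g1 : ((z.natAbs : ℕ) : ℝ) = |(z : ℝ)| := by
        rw [Nat.cast_natAbs, Int.cast_abs]
      have g2 : |(z : ℝ)| ≤ X + X ^ K := by
        rw [hz]
        push_cast
        refine (abs_add_le _ _).trans ?_
        have g3 : |((hs i : ℤ) : ℝ)| ≤ (X : ℝ) ^ K := by exact_mod_cast hhs i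
        have g4 : |(q : ℝ) * n + d'| ≤ X := by
          rw [abs_of_nonneg (by positivity)]
          exact_mod_cast hpX
        linarith
      have g5 : (1 : ℝ) ≤ Real.exp L := Real.one_le_exp (by linarith)
      have g6 : (2 : ℝ) ≤ Real.exp L := by
        have := Real.add_one_le_exp L
        linarith
      have g7 : ((K : ℝ) + 2) * L = L + (L + K * L) := by ring
      rw [g1, g7, Real.exp_add, Real.exp_add, Real.exp_nat_mul, ← hXL]
      rw [← hXL] at g5 g6
      have g8 : (1 : ℝ) ≤ (X : ℝ) ^ K := one_le_pow₀ g5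
      have g9 : (X : ℝ) ≤ X * X ^ K := le_mul_of_one_le_right (by linarith) g8
      have g10 : (X : ℝ) ^ K ≤ X * X ^ K := le_mul_of_one_le_left (by linarith) g5
      calc |(z : ℝ)| ≤ X + X ^ K := g2
        _ ≤ 2 * (X * X ^ K) := by linarith
        _ ≤ X * (X * X ^ K) := by gcongr
    have h3 := h1.trans h2
    rw [← Real.exp_nat_mul] at h3
    have h4 := Real.exp_le_exp.1 h3
    have h5 : ((ArithmeticFunction.cardFactors z.natAbs : ℕ) : ℝ) ≤ 2 * ((K : ℝ) + 2) / ε := by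
      rw [le_div_iff₀ hε]
      by_contra hcon
      push Not at hcon
      have h7 : 0 < L / 2 := by linarith
      have h8 : 2 * ((K : ℝ) + 2) * (L / 2) <
          ((ArithmeticFunction.cardFactors z.natAbs : ℕ) : ℝ) * ε * (L / 2) :=
        mul_lt_mul_of_pos_right hcon h7
      have h9 : ((ArithmeticFunction.cardFactors z.natAbs : ℕ) : ℝ) * ε * (L / 2) ≤
          ((ArithmeticFunction.cardFactors z.natAbs : ℕ) : ℝ) * ε * T := by gcongr
      linarith
    exact_mod_cast h5.trans (Nat.le_ceil _)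

end Pool.Agent.H536.OC
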