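import Mathlib
import Pool.Agent.H536.OC.C21
import Pool.Agent.H536.OC.Wf

open Finset Filter Topology

/-! The main theorem with arbitrary forbidden classes modulo the small primes. -/

namespace Pool.Agent.H536.OC

open Pool.Agent.Y882 Pool.Agent.W23.DC Pool.Agent.H536.OB
open Pool.Agent.H318R2.Cr (V Pz mem_Pz V_pos cz_bounds one_sub_inv_pos)
open Pool.Agent.H262R3.Lk (wM)
open U3X

namespace U5X

open Classical in
/-- the forbidden classes -/
noncomputable def HY (Q B W ν : ℕ) (a b : ℤ) (F : ℕ → Finset ℕ) (z : ℝ) (p : ℕ) : Finset ℕ :=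
  (range p).filter (fun x => ¬ p ∣ Q * x + B ∧ ((p : ℤ) ∣ a * ((W * x + ν : ℕ) : ℤ) + b ∨ (Real.log p ≤ z ∧ (W * x + ν) % p ∈ F p)))

theorem mem_HY {Q B W ν : ℕ} {a b : ℤ} {F : ℕ → Finset ℕ} {z : ℝ} {p x : ℕ} :
    x ∈ HY Q B W ν a b F z p ↔ x < p ∧ ¬ p ∣ Q * x + B ∧ ((p : ℤ) ∣ a * ((W * x + ν : ℕ) : ℤ) + b ∨ (Real.log p ≤ z ∧ (W * x + ν) % p ∈ F p)) := by
  unfold HY
  rw [mem_filter, mem_range]

theorem HY_sub (Q B W ν : ℕ) (a b : ℤ) (F : ℕ → Finset ℕ) (z : ℝ) (p : ℕ) :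
    HY Q B W ν a b F z p ⊆ range p := by
  intro x hx
  rw [mem_HY] at hx
  exact mem_range.2 hx.1

theorem HY_card {Q B W ν : ℕ} {a b : ℤ} {F : ℕ → Finset ℕ} {z : ℝ} {p : ℕ} (hp : p.Prime) (hpW : ¬ p ∣ W)
    (h : ∃ n : ℕ, ¬ (p : ℤ) ∣ a * n + b) : (HY Q B W ν a b F z p).card ≤ (F p).card + 1 := by
  classical
  have h1 : HY Q B W ν a b F z p ⊆ ((range p).filter (fun x => (W * x + ν) % p ∈ F p)) ∪
      ((range p).filter (fun x => (p : ℤ) ∣ a * ((W * x + ν : ℕ) : ℤ) + b)) := by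
    intro x hx
    rw [mem_HY] at hx
    obtain ⟨hx1, _, hx2⟩ := hx
    rw [mem_union, mem_filter, mem_filter, mem_range]
    rcases hx2 with h | h
    · exact Or.inr ⟨hx1, h⟩
    · exact Or.inl ⟨hx1, h.2⟩
  refine (card_le_card h1).trans ((card_union_le _ _).trans (Nat.add_le_add ?_ ?_))
  · apply card_le_card_of_injOn (fun x => (W * x + ν) % p)
    · intro x hx
      rw [mem_coe, mem_filter] at hx
      exact hx.2
    · intro x hx y hy hxy
      rw [mem_coe, mem_filter, mem_range] at hx hy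
      have h2 : W * x + ν ≡ W * y + ν [MOD p] := hxy
      have h3 : W * x ≡ W * y [MOD p] := Nat.ModEq.add_right_cancel' _ h2
      have h4 : x ≡ y [MOD p] := Nat.ModEq.cancel_left_of_coprime ((Nat.Prime.coprime_iff_not_dvd hp).2 hpW) h3
      exact Nat.ModEq.eq_of_lt_of_lt h4 hx.1 hy.1
  · rw [card_le_one]
    intro x hx y hy
    rw [mem_filter, mem_range] at hx hy
    exact one_class hp hpW h hx.1 hy.1 hx.2 hy.2

theorem HY_one {c d W ν : ℕ} {a b : ℤ} {F : ℕ → Finset ℕ} {z : ℝ} {p : ℕ} (hp : p.Prime) (hpW : ¬ p ∣ W)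
    (hpa : ¬ (p : ℤ) ∣ a) (hpD : ¬ (p : ℤ) ∣ c * b - d * a) (hz : z < Real.log p) :
    (HY (c * W) (c * ν + d) W ν a b F z p).card = 1 := by
  have hpi := Nat.prime_iff_prime_int.1 hp
  have hW : ¬ (p : ℤ) ∣ (W : ℤ) := fun h => hpW (Int.natCast_dvd_natCast.1 h)
  have hA : ¬ (p : ℤ) ∣ a * W := fun h => (hpi.dvd_or_dvd h).elim hpa hW
  have e : ∀ x : ℕ, a * ((W * x + ν : ℕ) : ℤ) + b = (a * W) * x + (a * ν + b) := by
    intro x
    push_cast
    ring
  obtain ⟨x, hx1, hx2⟩ := lin_exists hp (a * ν + b) hA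
  rw [card_eq_one]
  refine ⟨x, ?_⟩
  ext y
  rw [mem_HY, mem_singleton]
  constructor
  · rintro ⟨hy1, _, hi⟩
    have hi2 : (p : ℤ) ∣ a * ((W * y + ν : ℕ) : ℤ) + b := hi.elim id (fun h => absurd h.1 (not_le.2 hz))
    rw [e] at hi2
    have := lin_unique (pcop hp hA) hi2 hx2
    rwa [Nat.mod_eq_of_lt hy1, Nat.mod_eq_of_lt hx1] at this
  · intro hy
    rw [hy]
    have hx3 : (p : ℤ) ∣ a * ((W * x + ν : ℕ) : ℤ) + b := by
      rw [e]
      exact hx2
    refine ⟨hx1, fun hd => hpD ?_, Or.inl hx3⟩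
    have hd' : (p : ℤ) ∣ ((c * W * x + (c * ν + d) : ℕ) : ℤ) := Int.natCast_dvd_natCast.2 hd
    have h5 : (c : ℤ) * b - d * a = c * (a * ((W * x + ν : ℕ) : ℤ) + b) - a * ((c * W * x + (c * ν + d) : ℕ) : ℤ) := by
      push_cast
      ring
    rw [h5]
    exact dvd_sub (hx3.mul_left _) (hd'.mul_left _)

theorem crt_nu5 (c d : ℕ) (a b : ℤ) (F : ℕ → Finset ℕ) (w W : ℕ) (hW : 0 < W) (hWd : ∀ p : ℕ, p.Prime → p ≤ w → p ∣ W)
    (hadm : ∀ p : ℕ, p.Prime → ∃ n : ℕ, ¬ p ∣ c * n + d ∧ ¬ (p : ℤ) ∣ a * n + b ∧ n % p ∉ F p) :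
    ∃ ν < W, ∀ p : ℕ, p.Prime → p ≤ w → ¬ p ∣ c * ν + d ∧ ¬ (p : ℤ) ∣ a * ν + b ∧ ν % p ∉ F p := by
  classical
  have h1 : ∀ p : ℕ, ∃ n : ℕ, p.Prime → (¬ p ∣ c * n + d ∧ ¬ (p : ℤ) ∣ a * n + b ∧ n % p ∉ F p) := by
    intro p
    by_cases hp : p.Prime
    · obtain ⟨n, hn⟩ := hadm p hp
      exact ⟨n, fun _ => hn⟩
    · exact ⟨0, fun h => absurd h hp⟩
  choose f hf using h1
  obtain ⟨x, hx⟩ := Nat.chineseRemainderOfFinset f id ((range (w + 1)).filter Nat.Prime)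
    (by
      intro p hp
      exact (mem_filter.1 hp).2.ne_zero)
    (by
      intro p hp q hq hpq
      rw [mem_coe, mem_filter] at hp hq
      exact (Nat.coprime_primes hp.2 hq.2).2 hpq)
  refine ⟨x % W, Nat.mod_lt _ hW, fun p hp hpw => ?_⟩
  have h2 : x % W ≡ f p [MOD p] := by
    have h3 : x % W ≡ x [MOD p] := (Nat.mod_modEq x W).of_dvd (hWd p hp hpw)
    exact h3.trans (hx p (mem_filter.2 ⟨mem_range.2 (by omega), hp⟩))
  obtain ⟨h4, h5, h6⟩ := hf p hp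
  refine ⟨fun h => h4 (tr_nat h2 h), fun h => h5 (tr_int h2 h), fun h => h6 ?_⟩
  have h7 : x % W % p = f p % p := h2
  rwa [h7] at h

end U5X

open Classical in
/-- the version avoiding a set -/
def S_U5g : Prop := ∀ κ : ℕ, ∃ δ ε T0 : ℝ, 0 < δ ∧ 0 < ε ∧ ∀ T : ℝ, T0 ≤ T →
  ∀ (c d : ℕ) (a b : ℤ) (F : ℕ → Finset ℕ), 1 ≤ d → d ≤ c → (c : ℝ) ≤ Real.exp (δ * T) →
  a ≠ 0 → (c : ℤ) * b ≠ d * a → |((a : ℤ) : ℝ)| ≤ Real.exp (T / 500) →
  |((b : ℤ) : ℝ)| ≤ Real.exp (1019 / 1000 * T) → (∀ p : ℕ, p.Prime → (F p).card ≤ κ) →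
  (∀ p : ℕ, p.Prime → ∃ n : ℕ, ¬ p ∣ c * n + d ∧ ¬ (p : ℤ) ∣ a * n + b ∧ n % p ∉ F p) →
  ∀ G : Finset ℕ, (G.card : ℝ) ≤ Real.exp (99 / 100 * T) → ∃ n : ℕ, n ∉ G ∧ (c * n + d).Prime ∧ Real.exp (T / 2) < ((c * n + d : ℕ) : ℝ) ∧
    ((c * n + d : ℕ) : ℝ) ≤ 3 * Real.exp (101 / 100 * T) ∧
    (∀ p : ℕ, p.Prime → (p : ℝ) ≤ Real.exp (ε * T) → n % p ∉ F p) ∧
    (∀ p : ℕ, p.Prime → (p : ℝ) ≤ Real.exp (T / 9) → ¬ (p : ℤ) ∣ a * n + b) ∧
    1 < (a * n + b).natAbs ∧ ArithmeticFunction.cardFactors (a * n + b).natAbs ≤ 3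

open U5X in
theorem U5g (h1 : S_MerX) (h2 : S_NPW) (h3 : S_PW) : S_U5g := by
  classical
  intro κ
  obtain ⟨k, hk⟩ : ∃ k : ℕ, k = κ + 1 := ⟨_, rfl⟩
  obtain ⟨e1N, etN, CE, he1N, he1N8, hetN, hCE, h2'⟩ := h2 k
  obtain ⟨e1P, etP, c3, he1P, he1P8, hetP, hc3, d0P, hd0P, h3'⟩ := h3 k
  obtain ⟨c2, hc2⟩ : ∃ c2, c2 = min 1 (c3 / CE) := ⟨_, rfl⟩
  have hc20 : 0 < c2 := by rw [hc2]; positivity
  have hc21 : c2 ≤ 1 := by rw [hc2]; exact min_le_left _ _
  have hc2c : CE * c2 ≤ c3 := by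
    calc CE * c2 ≤ CE * (c3 / CE) := by gcongr; rw [hc2]; exact min_le_right _ _
      _ = c3 := by field_simp
  obtain ⟨d0N, hd0N, h2''⟩ := h2' c2 hc20 hc21
  obtain ⟨δ, hδ⟩ : ∃ δ, δ = min (min d0N d0P) (1 / 1000) := ⟨_, rfl⟩
  have hδ0 : 0 < δ := by rw [hδ]; positivity
  have hδN : δ ≤ d0N := by rw [hδ]; exact (min_le_left _ _).trans (min_le_left _ _)
  have hδP : δ ≤ d0P := by rw [hδ]; exact (min_le_left _ _).trans (min_le_right _ _)
  have hδ1 : δ ≤ 1 / 1000 := by rw [hδ]; exact min_le_right _ _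
  obtain ⟨T0N, hT0N⟩ := h2'' δ hδ0 hδN
  obtain ⟨T0P, hT0P⟩ := h3' δ hδ0 hδP
  obtain ⟨e0, he0⟩ : ∃ e0, e0 = min e1N e1P / 2 := ⟨_, rfl⟩
  have he00 : 0 < e0 := by rw [he0]; positivity
  have he0N : e0 < e1N := by
    have := min_le_left e1N e1P
    rw [he0]
    have h4 : 0 < min e1N e1P := by positivity
    linarith
  have he0P : e0 < e1P := by
    have := min_le_right e1N e1P
    rw [he0]
    have h4 : 0 < min e1N e1P := by positivity
    linarith
  obtain ⟨YN, hYN⟩ := h1 e1N etN k 4 he1N he1N8 hetN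
  obtain ⟨YP, hYP⟩ := h1 e1P etP k 4 he1P he1P8 hetP
  obtain ⟨T1, hT1⟩ := num δ e0 hδ0 hδ1 he00
  refine ⟨δ, min (e0 / 2) (1 / 20), max (max T0N T0P) (max T1 (YN + YP + 1)), hδ0, by positivity, ?_⟩
  intro T hT c d a b F hd1 hdc hc ha0 hne haT hbT hF hadm G hG
  have hTN : T0N ≤ T := ((le_max_left _ _).trans (le_max_left _ _)).trans hT
  have hTP : T0P ≤ T := ((le_max_right _ _).trans (le_max_left _ _)).trans hT
  have hTT1 : T1 ≤ T := ((le_max_left _ _).trans (le_max_right _ _)).trans hT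
  have hTY : (YN : ℝ) + YP + 1 ≤ T := ((le_max_right _ _).trans (le_max_right _ _)).trans hT
  obtain ⟨n1, n2, n3, n4, n5, n6, n7⟩ := hT1 T hTT1
  specialize hT0N T hTN
  specialize hT0P T hTP
  have hYbig : YN + YP ≤ ⌊Real.exp T⌋₊ := by
    apply Nat.le_floor
    have := Real.add_one_le_exp T
    push_cast
    linarith
  specialize hYN ⌊Real.exp T⌋₊ (by omega)
  specialize hYP ⌊Real.exp T⌋₊ (by omega)
  obtain ⟨L, hL⟩ : ∃ L : ℝ, L = Real.log ⌊Real.exp T⌋₊ := ⟨_, rfl⟩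
  obtain ⟨Y, hY⟩ : ∃ Y : ℕ, Y = ⌊Real.exp T⌋₊ := ⟨_, rfl⟩
  rw [← hL] at n2 n3
  rw [← hY] at hYN hYP hL
  have hL0 : 0 < L := by linarith
  have hY1 : 1 ≤ Y := by
    rw [hY]
    exact (log_floor_exp (by linarith)).2.2
  have hYr : (0 : ℝ) < Y := by exact_mod_cast hY1
  have hYL : (Y : ℝ) = Real.exp L := by rw [hL, Real.exp_log hYr]
  have ttlt : ∀ (p : ℕ) (x : ℝ), tt Y p < x ↔ Real.log p < x * L := by
    intro p x
    unfold Pool.Agent.W23.DC.tt
    rw [← hL, div_lt_iff₀ hL0]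
  have ttle : ∀ (p : ℕ) (x : ℝ), x ≤ tt Y p ↔ x * L ≤ Real.log p := by
    intro p x
    unfold Pool.Agent.W23.DC.tt
    rw [← hL, le_div_iff₀ hL0]
  have mpr : ∀ (p : ℕ) (u v : ℝ), p ∈ pr Y u v → p.Prime ∧ u * L ≤ Real.log p ∧ Real.log p < v * L := by
    intro p u v hp
    unfold Pool.Agent.W23.DC.pr at hp
    rw [mem_filter] at hp
    exact ⟨hp.2.1, (ttle p u).1 hp.2.2.1, (ttlt p v).1 hp.2.2.2⟩
  obtain ⟨M, hM⟩ : ∃ M : ℕ, M = ⌊Real.exp (δ * T)⌋₊ := ⟨_, rfl⟩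
  rw [← hM] at n5 n6 n7
  obtain ⟨w, hw⟩ : ∃ w : ℕ, w = wM M := ⟨_, rfl⟩
  rw [← hw] at n5 n6
  obtain ⟨W, hW⟩ : ∃ W : ℕ, W = Pool.Agent.H262R3.Lk.WT M ∅ := ⟨_, rfl⟩
  have hWpos : 0 < W := by rw [hW]; exact Pool.Agent.H262R3.Lk.WT_pos M ∅
  have hWM : W ≤ M := by rw [hW]; exact Pool.Agent.H262R3.Lk.WT_le M n7 ∅
  have hWd : ∀ p : ℕ, p.Prime → p ≤ w → p ∣ W := by
    intro p hp h
    apply Nat.dvd_of_mem_primeFactors
    rw [hW, Pool.Agent.H262R3.Lk.WT_pf, sdiff_empty, Pool.Agent.H262R2.UP.mem_Pz]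
    exact ⟨by rw [← hw]; exact h, hp⟩
  have hWn : ∀ p : ℕ, p.Prime → w < p → ¬ p ∣ W := by
    intro p hp h hd
    have h4 : p ∈ W.primeFactors := Nat.mem_primeFactors.2 ⟨hp, hd, hWpos.ne'⟩
    rw [hW, Pool.Agent.H262R3.Lk.WT_pf, sdiff_empty, Pool.Agent.H262R2.UP.mem_Pz, ← hw] at h4
    omega
  have hcM : c ≤ M := by rw [hM]; exact Nat.le_floor hc
  have hc1 : 1 ≤ c := hd1.trans hdc
  have hMr : (M : ℝ) ≤ Real.exp (δ * T) := by rw [hM]; exact Nat.floor_le (Real.exp_pos _).le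
  obtain ⟨ν, hνW, hν⟩ := crt_nu5 c d a b F w W hWpos hWd hadm
  -- large primes
  have hbig : ∀ p : ℕ, e0 * L ≤ Real.log p → w < p := by
    intro p hp
    have h4 : Real.log T < Real.log p := by
      have : e0 * (T - 1) ≤ e0 * L := by gcongr
      linarith
    have hp0 : (0 : ℝ) < p := by
      rcases Nat.eq_zero_or_pos p with h | h
      · rw [h, Nat.cast_zero, Real.log_zero] at h4
        have := Real.log_pos (show (1 : ℝ) < T by linarith)
        linarith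
      · exact_mod_cast h
    have h5 := (Real.log_lt_log_iff (by linarith) hp0).1 h4
    have h6 : (w : ℝ) < p := by linarith
    exact_mod_cast h6
  obtain ⟨H, hH⟩ : ∃ H : ℕ → Finset ℕ, H = HY (c * W) (c * ν + d) W ν a b F (e0 * L) := ⟨_, rfl⟩
  obtain ⟨v, hv⟩ : ∃ v : ℕ → ℤ, v = fun t : ℕ => a * ((W * t + ν : ℕ) : ℤ) + b := ⟨_, rfl⟩
  have hvt : ∀ t : ℕ, v t = a * ((W * t + ν : ℕ) : ℤ) + b := fun t => by rw [hv]
  have hvlin : ∀ t : ℕ, v t = (a * W) * t + (a * ν + b) := by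
    intro t
    rw [hvt]
    push_cast
    ring
  obtain ⟨Sq, hSq⟩ : ∃ Sq : ℕ → ℕ → Prop, Sq = fun p t => ((p ^ 2 : ℕ) : ℤ) ∣ v t ∨ v t = 1 ∨ v t = -1 := ⟨_, rfl⟩
  have hnd : ∀ p : ℕ, p.Prime → (1 / 8) * L ≤ Real.log p → ¬ (p : ℤ) ∣ a := by
    intro p hp hpL hd
    have h4 : (p : ℤ) ≤ |a| := Int.le_of_dvd (abs_pos.2 ha0) ((dvd_abs _ _).2 hd)
    have h5 : (p : ℝ) ≤ |((a : ℤ) : ℝ)| := by
      rw [← Int.cast_abs]
      exact_mod_cast h4
    have h6 : Real.log p ≤ T / 500 := by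
      rw [← Real.log_exp (T / 500)]
      exact Real.log_le_log (by exact_mod_cast hp.pos) (h5.trans haT)
    linarith
  have e0le : e0 ≤ 1 / 16 := by
    rw [he0]
    have := min_le_left e1N e1P
    linarith
  have hB1 : 1 ≤ c * ν + d := by omega
  have hcong : ∀ t : ℕ, c * W * t + (c * ν + d) = c * (W * t + ν) + d := by intro t; ring
  haveI hQne : NeZero (c * W) := ⟨(Nat.mul_pos (by omega) hWpos).ne'⟩
  have hsit : Sit k δ T (c * W) (c * ν + d) w H Sq := by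
    refine ⟨hB1, ?_, ?_, ?_, ?_, n5, n6, ?_, ?_, ?_⟩
    · calc c * ν + d ≤ c * ν + c := by omega
        _ = c * (ν + 1) := by ring
        _ ≤ c * W := Nat.mul_le_mul_left _ hνW
    · apply Nat.coprime_of_dvd
      intro p hp hp1 hp2
      rcases Nat.lt_or_ge w p with h | h
      · rcases (Nat.Prime.dvd_mul hp).1 hp2 with h4 | h4
        · have h5 : p ∣ d := (Nat.dvd_add_right (h4.mul_right _)).1 hp1
          obtain ⟨n, hn, _, _⟩ := hadm p hp
          exact hn (dvd_add (h4.mul_right _) h5)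
        · exact hWn p hp h h4
      · exact (hν p hp h).1 hp1
    · rw [← hM, sq]
      exact Nat.mul_le_mul hcM hWM
    · rw [← hM, hw]
    · intro p hp h
      exact (hWd p hp h).mul_left _
    · intro p hp h
      rw [hH]
      refine ⟨HY_sub _ _ _ _ _ _ _ _ _, (HY_card hp (hWn p hp h) ?_).trans ((Nat.add_le_add_right (hF p hp) 1).trans hk.ge), ?_⟩
      · obtain ⟨n, _, hn, _⟩ := hadm p hp
        exact ⟨n, hn⟩
      · intro x hx
        rw [mem_HY] at hx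
        exact hx.2.1
    · intro p n hp
      rw [← hY] at hp
      obtain ⟨hpp, hp1, _⟩ := mpr p _ _ hp
      have hwp : w < p := by
        apply hbig
        have : e0 * L ≤ 1 / 8 * L := by gcongr; linarith
        linarith
      have hpW := hWn p hpp hwp
      have hpa := hnd p hpp hp1
      have hpi := Nat.prime_iff_prime_int.1 hpp
      have hA : ¬ (p : ℤ) ∣ a * W := fun h => (hpi.dvd_or_dvd h).elim hpa (fun h => hpW (Int.natCast_dvd_natCast.1 h))
      have hA0 : a * (W : ℤ) ≠ 0 := fun h => hA (by rw [h]; exact dvd_zero _)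
      have hcop : IsCoprime ((p ^ 2 : ℕ) : ℤ) (a * W) := by
        push_cast
        exact (pcop hpp hA).pow_left
      have hsub : (range n).filter (fun t => Sq p t) ⊆
          (range n).filter (fun t => ((p ^ 2 : ℕ) : ℤ) ∣ v t) ∪ ((range n).filter (fun t => v t = 1) ∪ (range n).filter (fun t => v t = -1)) := by
        intro t ht
        rw [mem_filter, hSq] at ht
        rw [mem_union, mem_union, mem_filter, mem_filter, mem_filter]
        rcases ht.2 with h | h | h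
        · exact Or.inl ⟨ht.1, h⟩
        · exact Or.inr (Or.inl ⟨ht.1, h⟩)
        · exact Or.inr (Or.inr ⟨ht.1, h⟩)
      have hone : ∀ z : ℤ, ((range n).filter (fun t => v t = z)).card ≤ 1 := by
        intro z
        rw [card_le_one]
        intro x hx y hy
        rw [mem_filter] at hx hy
        have h4 : v x = v y := by rw [hx.2, hy.2]
        rw [hvlin, hvlin] at h4
        have h5 : (x : ℤ) = y := mul_left_cancel₀ hA0 (add_right_cancel h4)
        exact_mod_cast h5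
      have hS1 : (((range n).filter (fun t => ((p ^ 2 : ℕ) : ℤ) ∣ v t)).card : ℝ) ≤ (n : ℝ) / ((p ^ 2 : ℕ) : ℝ) + 1 := by
        apply cnt_class _ (filter_subset _ _)
        intro x hx y hy
        rw [mem_filter, hvlin] at hx hy
        exact lin_unique hcop hx.2 hy.2
      have h4 := (card_le_card hsub).trans ((card_union_le _ _).trans (Nat.add_le_add_left (card_union_le _ _) _))
      have h5 := hone 1
      have h6 := hone (-1)
      have h7 : (((range n).filter (fun t => Sq p t)).card : ℝ) ≤ (((range n).filter (fun t => ((p ^ 2 : ℕ) : ℤ) ∣ v t)).card : ℝ) + 2 := by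
        have : ((range n).filter (fun t => Sq p t)).card ≤ ((range n).filter (fun t => ((p ^ 2 : ℕ) : ℤ) ∣ v t)).card + 2 := by omega
        exact_mod_cast this
      push_cast at hS1
      push_cast at h7
      have h8 : (((range n).filter (fun t => Sq p t)).card : ℝ) ≤ (n : ℝ) / (p : ℝ) ^ 2 + 1 + 2 := by
        refine h7.trans ?_
        gcongr
      linarith
  -- Mertens
  obtain ⟨D, hD⟩ : ∃ D : ℤ, D = c * b - d * a := ⟨_, rfl⟩
  have hD0 : D ≠ 0 := by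
    rw [hD]
    exact sub_ne_zero.2 hne
  obtain ⟨E, hE⟩ : ∃ E : ℕ, E = (a * D).natAbs := ⟨_, rfl⟩
  have hE0 : E ≠ 0 := by
    rw [hE]
    exact Int.natAbs_ne_zero.2 (mul_ne_zero ha0 hD0)
  have hEb : (E : ℝ) ≤ (Y : ℝ) ^ 4 := by
    have h4 : (E : ℝ) = |((a : ℤ) : ℝ)| * |((D : ℤ) : ℝ)| := by
      rw [hE, Nat.cast_natAbs, ← Int.cast_abs, ← Int.cast_abs, ← Int.cast_mul, ← abs_mul]
    have hcr : (c : ℝ) ≤ Real.exp (1 / 1000 * T) := hc.trans (Real.exp_le_exp.2 (by gcongr))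
    have hdr : (d : ℝ) ≤ Real.exp (1 / 1000 * T) := le_trans (by exact_mod_cast hdc) hcr
    have h5 : |((D : ℤ) : ℝ)| ≤ 2 * Real.exp (102 / 100 * T) := by
      rw [hD]
      push_cast
      calc |(c : ℝ) * (b : ℝ) - d * (a : ℝ)| ≤ |(c : ℝ) * (b : ℝ)| + |(d : ℝ) * (a : ℝ)| := abs_sub _ _
        _ = c * |((b : ℤ) : ℝ)| + d * |((a : ℤ) : ℝ)| := by
            rw [abs_mul, abs_mul, Nat.abs_cast, Nat.abs_cast]
        _ ≤ Real.exp (1 / 1000 * T) * Real.exp (1019 / 1000 * T) + Real.exp (1 / 1000 * T) * Real.exp (T / 500) := by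
            gcongr
        _ = Real.exp (102 / 100 * T) + Real.exp (3 / 1000 * T) := by
            rw [← Real.exp_add, ← Real.exp_add]
            ring_nf
        _ ≤ Real.exp (102 / 100 * T) + Real.exp (102 / 100 * T) := by
            have h9 : Real.exp (3 / 1000 * T) ≤ Real.exp (102 / 100 * T) := Real.exp_le_exp.2 (by linarith)
            linarith
        _ = 2 * Real.exp (102 / 100 * T) := by ring
    have h6 : (2 : ℝ) ≤ Real.exp T := by
      have := Real.add_one_le_exp T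
      linarith
    calc (E : ℝ) = |((a : ℤ) : ℝ)| * |((D : ℤ) : ℝ)| := h4
      _ ≤ Real.exp (T / 500) * (Real.exp T * Real.exp (102 / 100 * T)) := by
          apply mul_le_mul haT (h5.trans _) (abs_nonneg _) (Real.exp_pos _).le
          gcongr
      _ = Real.exp (T / 500 + (T + 102 / 100 * T)) := by rw [← Real.exp_add, ← Real.exp_add]
      _ ≤ Real.exp (4 * L) := by
          apply Real.exp_le_exp.2
          linarith
      _ = (Y : ℝ) ^ 4 := by
          rw [hYL, ← Real.exp_nat_mul]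
          norm_num
  have hmer : ∀ e1 : ℝ, e0 < e1 → (∀ p ∈ pr Y e1 (17 / 50), ¬ p ∣ E → |((H p).card : ℝ) / ((p : ℝ) - 1) - 1 / ((p : ℝ) - 1)| ≤ k / (p : ℝ) ^ 2) ∧
      (∀ p ∈ pr Y e1 (17 / 50), p ∣ E → 0 ≤ ((H p).card : ℝ) / ((p : ℝ) - 1) ∧ ((H p).card : ℝ) / ((p : ℝ) - 1) ≤ k / ((p : ℝ) - 1)) := by
    intro e1 he1
    refine ⟨fun p hp hpE => ?_, fun p hp hpE => ?_⟩
    · obtain ⟨hpp, hp1, _⟩ := mpr p _ _ hp
      have h4 : e0 * L < Real.log p := lt_of_lt_of_le (by gcongr) hp1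
      have hwp := hbig p h4.le
      have h5 : ¬ (p : ℤ) ∣ a * D := fun h => hpE (by rw [hE]; exact Int.natCast_dvd.1 h)
      have h6 : (H p).card = 1 := by
        rw [hH]
        apply HY_one hpp (hWn p hpp hwp) (fun h => h5 (h.mul_right _)) _ h4
        rw [← hD]
        exact fun h => h5 (h.mul_left _)
      rw [h6, Nat.cast_one, sub_self, abs_zero]
      positivity
    · obtain ⟨hpp, hp1, _⟩ := mpr p _ _ hp
      have h4 : e0 * L < Real.log p := lt_of_lt_of_le (by gcongr) hp1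
      have hwp := hbig p h4.le
      have h5 : (H p).card ≤ k := (hsit.hH p hpp hwp).2.1
      have h6 : (1 : ℝ) < p := by exact_mod_cast hpp.one_lt
      have h7 : (0 : ℝ) < (p : ℝ) - 1 := by linarith
      exact ⟨div_nonneg (Nat.cast_nonneg _) h7.le, div_le_div_of_nonneg_right (by exact_mod_cast h5) h7.le⟩
  have hmN := hYN (fun p => ((H p).card : ℝ) / ((p : ℝ) - 1)) E hE0 hEb (hmer e1N he0N).1 (hmer e1N he0N).2
  have hmP := hYP (fun p => ((H p).card : ℝ) / ((p : ℝ) - 1)) E hE0 hEb (hmer e1P he0P).1 (hmer e1P he0P).2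
  have hgood : Good T (c * W) (c * ν + d) w H Sq := by
    rcases hT0N (c * W) (c * ν + d) w H Sq hsit (by rw [← hY]; exact hmN) with ⟨χ, x1, x2, x3, x4⟩ | h
    · refine hT0P (c * W) (c * ν + d) w H Sq hsit (by rw [← hY]; exact hmP) χ x1 x2 x3 (x4.trans ?_)
      gcongr
    · exact h
  obtain ⟨t, g0, g1, g2, g3, g4, g5, g6⟩ := hgood (G.image (fun n => (n - ν) / W)) (le_trans (by exact_mod_cast card_image_le) hG)
  rw [← hY] at g4 g5 g6
  rw [hcong] at g1 g2 g3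
  -- no divisor of the prime
  have hPp : ∀ p : ℕ, p.Prime → Real.log p ≤ T / 2 → ¬ p ∣ c * W * (t % p) + (c * ν + d) := by
    intro p hp hpT hd
    have h4 : p ∣ c * (W * t + ν) + d := by
      have h5 : p ∣ c * W * t + (c * ν + d) := tr_nat (Nat.mod_modEq t p) hd
      rwa [hcong] at h5
    have h5 := (Nat.prime_dvd_prime_iff_eq hp g1).1 h4
    have h6 : Real.log p ≤ Real.log (Real.exp (T / 2)) := by rw [Real.log_exp]; exact hpT
    have h7 := (Real.log_le_log_iff (by exact_mod_cast hp.pos) (Real.exp_pos _)).1 h6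
    rw [← h5] at g2
    linarith
  have hdv : ∀ (p : ℕ), p.Prime → w < p → Real.log p ≤ T / 2 →
      (p : ℤ) ∣ a * ((W * t + ν : ℕ) : ℤ) + b → t % p ∈ H p := by
    intro p hp hwp hpT hd
    rw [hH, mem_HY]
    refine ⟨Nat.mod_lt _ hp.pos, hPp p hp hpT, Or.inl ?_⟩
    have h4 : W * t + ν ≡ W * (t % p) + ν [MOD p] := Nat.ModEq.add_right _ (Nat.ModEq.mul_left _ (Nat.mod_modEq t p).symm)
    exact tr_int h4 hd
  have hWν : ∀ p : ℕ, p.Prime → p ≤ w → W * t + ν ≡ ν [MOD p] := by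
    intro p hp hpw
    have h5 : W * t + ν ≡ 0 + ν [MOD p] := Nat.ModEq.add_right _ ((Nat.modEq_zero_iff_dvd).2 ((hWd p hp hpw).mul_right _))
    rwa [zero_add] at h5
  have hsmall : ∀ (p : ℕ), p.Prime → p ≤ w → ¬ (p : ℤ) ∣ a * ((W * t + ν : ℕ) : ℤ) + b := by
    intro p hp hpw hd
    exact (hν p hp hpw).2.1 (tr_int (hWν p hp hpw) hd)
  have hdF : ∀ (p : ℕ), p.Prime → w < p → Real.log p ≤ T / 2 → Real.log p ≤ e0 * L →
      (W * t + ν) % p ∈ F p → t % p ∈ H p := by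
    intro p hp hwp hpT hpe hd
    rw [hH, mem_HY]
    refine ⟨Nat.mod_lt _ hp.pos, hPp p hp hpT, Or.inr ⟨hpe, ?_⟩⟩
    have h4 : W * t + ν ≡ W * (t % p) + ν [MOD p] := Nat.ModEq.add_right _ (Nat.ModEq.mul_left _ (Nat.mod_modEq t p).symm)
    have h5 : (W * t + ν) % p = (W * (t % p) + ν) % p := h4
    rwa [← h5]
  have hsmallF : ∀ (p : ℕ), p.Prime → p ≤ w → (W * t + ν) % p ∉ F p := by
    intro p hp hpw hd
    have h4 : (W * t + ν) % p = ν % p := hWν p hp hpw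
    rw [h4] at hd
    exact (hν p hp hpw).2.2 hd
  have hlow : ∀ p : ℕ, p.Prime → Real.log p < 1 / 8 * L → ¬ (p : ℤ) ∣ a * ((W * t + ν : ℕ) : ℤ) + b := by
    intro p hp hpL hd
    rcases Nat.lt_or_ge w p with h | h
    · exact g4 p hp h ((ttlt p _).2 hpL) (hdv p hp h (by linarith) hd)
    · exact hsmall p hp h hd
  have logle : ∀ (p : ℕ) (x : ℝ), p.Prime → (p : ℝ) ≤ Real.exp x → Real.log p ≤ x := by
    intro p x hp h
    rw [← Real.log_exp x]
    exact Real.log_le_log (by exact_mod_cast hp.pos) h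
  -- a prime in the middle range
  obtain ⟨p0, hp0⟩ : ∃ p0, p0 ∈ pr Y (1 / 8) (17 / 50) := by
    have h4 : ⌈Real.exp (1 / 8 * L)⌉₊ ≠ 0 := (Nat.ceil_pos.2 (Real.exp_pos _)).ne'
    obtain ⟨p, hp, hp1, hp2⟩ := Nat.exists_prime_lt_and_le_two_mul _ h4
    have h5 : Real.exp (1 / 8 * L) ≤ p := (Nat.le_ceil _).trans (by exact_mod_cast hp1.le)
    have h6 : (p : ℝ) ≤ 4 * Real.exp (1 / 8 * L) := by
      have h7 : (p : ℝ) ≤ 2 * (⌈Real.exp (1 / 8 * L)⌉₊ : ℝ) := by exact_mod_cast hp2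
      have h8 := Nat.ceil_lt_add_one (Real.exp_pos (1 / 8 * L)).le
      have h9 : 1 ≤ Real.exp (1 / 8 * L) := Real.one_le_exp (by positivity)
      linarith
    have hpr : (0 : ℝ) < p := by exact_mod_cast hp.pos
    have h7 : 1 / 8 * L ≤ Real.log p := (Real.le_log_iff_exp_le hpr).2 h5
    have h8 : Real.log p < 17 / 50 * L := by
      have h9 := Real.log_le_log hpr h6
      rw [Real.log_mul (by norm_num) (Real.exp_pos _).ne', Real.log_exp] at h9
      have h10 : Real.log 4 ≤ 3 := by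
        have := Real.log_le_sub_one_of_pos (show (0 : ℝ) < 4 by norm_num)
        linarith
      linarith
    refine ⟨p, ?_⟩
    unfold Pool.Agent.W23.DC.pr
    rw [mem_filter, mem_Icc]
    refine ⟨⟨hp.pos, ?_⟩, hp, (ttle p _).2 h7, (ttlt p _).2 h8⟩
    have h9 : Real.log p ≤ Real.log Y := by rw [← hL]; linarith
    exact_mod_cast (Real.log_le_log_iff hpr hYr).1 h9
  have hv1 : v t ≠ 1 ∧ v t ≠ -1 ∧ v t ≠ 0 := by
    have h4 := g6 p0 hp0
    rw [hSq] at h4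
    push Not at h4
    refine ⟨h4.2.1, h4.2.2, fun h => h4.1 ?_⟩
    rw [h]
    exact dvd_zero _
  rw [hvt] at hv1
  obtain ⟨v1, v2, v3⟩ := hv1
  have hnat0 : (a * ((W * t + ν : ℕ) : ℤ) + b).natAbs ≠ 0 := Int.natAbs_ne_zero.2 v3
  refine ⟨W * t + ν, ?_, g1, g2, g3, ?_, ?_, ?_, ?_⟩
  · intro hmem
    apply g0
    rw [mem_image]
    refine ⟨W * t + ν, hmem, ?_⟩
    rw [Nat.add_sub_cancel]
    exact Nat.mul_div_cancel_left t hWpos
  · intro p hp hpe hd
    have h4 := logle p _ hp hpe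
    rcases Nat.lt_or_ge w p with h | h
    · have h5 : min (e0 / 2) (1 / 20) * T ≤ e0 / 2 * T := by gcongr; exact min_le_left _ _
      have h6 : min (e0 / 2) (1 / 20) * T ≤ 1 / 20 * T := by gcongr; exact min_le_right _ _
      have h7 : e0 / 2 * T ≤ e0 * L := by nlinarith
      exact g4 p hp h ((ttlt p _).2 (by linarith)) (hdF p hp h (by linarith) (h4.trans (h5.trans h7)) hd)
    · exact hsmallF p hp h hd
  · intro p hp hpe
    have h4 := logle p _ hp hpe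
    exact hlow p hp (by linarith)
  · have h4 : (a * ((W * t + ν : ℕ) : ℤ) + b).natAbs ≠ 1 := by
      intro h
      rcases Int.natAbs_eq_iff.1 h with h5 | h5
      · exact v1 (by exact_mod_cast h5)
      · exact v2 (by exact_mod_cast h5)
    omega
  · apply Om3 (Real.exp (17 / 50 * L)) (Real.one_lt_exp_iff.2 (by positivity)) _ hnat0
    · have hn : ((W * t + ν : ℕ) : ℝ) ≤ 3 * Real.exp (101 / 100 * T) := by
        refine le_trans ?_ g3
        have : W * t + ν ≤ c * (W * t + ν) + d := (Nat.le_mul_of_pos_left _ (by omega)).trans (Nat.le_add_right _ _)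
        exact_mod_cast this
      have h4 : (((a * ((W * t + ν : ℕ) : ℤ) + b).natAbs : ℕ) : ℝ) ≤ 4 * Real.exp (1019 / 1000 * T) := by
        rw [Nat.cast_natAbs, Int.cast_abs, Int.cast_add, Int.cast_mul, Int.cast_natCast]
        calc |(a : ℝ) * ((W * t + ν : ℕ) : ℝ) + (b : ℝ)| ≤ |(a : ℝ) * ((W * t + ν : ℕ) : ℝ)| + |(b : ℝ)| := abs_add_le _ _
          _ = |(a : ℝ)| * ((W * t + ν : ℕ) : ℝ) + |(b : ℝ)| := by rw [abs_mul, Nat.abs_cast]
          _ ≤ Real.exp (T / 500) * (3 * Real.exp (101 / 100 * T)) + Real.exp (1019 / 1000 * T) := by gcongr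
          _ = 3 * Real.exp (T / 500 + 101 / 100 * T) + Real.exp (1019 / 1000 * T) := by
              rw [Real.exp_add]
              ring
          _ ≤ 3 * Real.exp (1019 / 1000 * T) + Real.exp (1019 / 1000 * T) := by
              gcongr
              linarith
          _ = 4 * Real.exp (1019 / 1000 * T) := by ring
      refine lt_of_le_of_lt h4 ?_
      have h5 : (4 : ℝ) ≤ Real.exp 3 := by
        have := Real.add_one_le_exp (3 : ℝ)
        linarith
      calc 4 * Real.exp (1019 / 1000 * T) ≤ Real.exp 3 * Real.exp (1019 / 1000 * T) := by gcongr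
        _ = Real.exp (3 + 1019 / 1000 * T) := by rw [← Real.exp_add]
        _ < Real.exp ((3 : ℕ) * (17 / 50 * L)) := by
            apply Real.exp_lt_exp.2
            push_cast
            linarith
        _ = Real.exp (17 / 50 * L) ^ 3 := by rw [Real.exp_nat_mul]
    · intro p q hp hq hpd hqd hpU hqU
      have key : ∀ p : ℕ, p.Prime → p ∣ (a * ((W * t + ν : ℕ) : ℤ) + b).natAbs → (p : ℝ) < Real.exp (17 / 50 * L) →
          p ∈ (pr Y (1 / 8) (17 / 50)).filter (fun p => t % p ∈ H p) := by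
        intro p hp hpd hpU
        have hpd' : (p : ℤ) ∣ a * ((W * t + ν : ℕ) : ℤ) + b := Int.natCast_dvd.2 hpd
        have hpr : (0 : ℝ) < p := by exact_mod_cast hp.pos
        have h4 : Real.log p < 17 / 50 * L := (Real.log_lt_iff_lt_exp hpr).2 hpU
        have h5 : 1 / 8 * L ≤ Real.log p := by
          by_contra hc
          push Not at hc
          exact hlow p hp hc hpd'
        have hwp : w < p := by
          apply hbig
          have : e0 * L ≤ 1 / 8 * L := by gcongr; linarith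
          linarith
        rw [mem_filter]
        refine ⟨?_, hdv p hp hwp (by linarith) hpd'⟩
        unfold Pool.Agent.W23.DC.pr
        rw [mem_filter, mem_Icc]
        refine ⟨⟨hp.pos, ?_⟩, hp, (ttle p _).2 h5, (ttlt p _).2 h4⟩
        have h9 : Real.log p ≤ Real.log Y := by rw [← hL]; linarith
        exact_mod_cast (Real.log_le_log_iff hpr hYr).1 h9
      exact card_le_one.1 g5 p (key p hp hpd hpU) q (key q hq hqd hqU)
    · intro p hp hpU hpd
      have hpr : (0 : ℝ) < p := by exact_mod_cast hp.pos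
      have h4 : Real.log p < 17 / 50 * L := (Real.log_lt_iff_lt_exp hpr).2 hpU
      have h5 : 1 / 8 * L ≤ Real.log p := by
        by_contra hc
        push Not at hc
        exact hlow p hp hc (Int.natCast_dvd.2 ((dvd_pow_self p two_ne_zero).trans hpd))
      have hmem : p ∈ pr Y (1 / 8) (17 / 50) := by
        unfold Pool.Agent.W23.DC.pr
        rw [mem_filter, mem_Icc]
        refine ⟨⟨hp.pos, ?_⟩, hp, (ttle p _).2 h5, (ttlt p _).2 h4⟩
        have h9 : Real.log p ≤ Real.log Y := by rw [← hL]; linarith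
        exact_mod_cast (Real.log_le_log_iff hpr hYr).1 h9
      apply g6 p hmem
      rw [hSq]
      left
      rw [hvt]
      exact Int.natCast_dvd.2 hpd

theorem U5 : S_U5 := by
  classical
  intro κ
  obtain ⟨δ, ε, T0, hδ, hε, h⟩ := U5g (fun ε₁ η κ CE h1 h2 h3 => MerX ε₁ η κ CE h1 h2 h3) NPW
    (PW (fun κ => SubE.plusAK (fun κ => AK κ) κ) (comps fund2) ratio) κ
  obtain ⟨T1, hT1⟩ := eventually_atTop.1 (poly_exp 4 0 (ε := 1 / 100) (by norm_num))
  refine ⟨δ, ε, max T0 (max T1 1), hδ, hε, ?_⟩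
  intro T hT c d a b F hd1 hdc hc ha0 hne haT hbT hF hadm
  have hTT0 : T0 ≤ T := (le_max_left _ _).trans hT
  have hTT1 : T1 ≤ T := ((le_max_left _ _).trans (le_max_right _ _)).trans hT
  have hT1' : 1 ≤ T := ((le_max_right _ _).trans (le_max_right _ _)).trans hT
  have h4 : 4 ≤ Real.exp (1 / 100 * T) := by
    have := hT1 T hTT1
    simpa using this
  obtain ⟨X, hX⟩ : ∃ X : ℝ, X = Real.exp (98 / 100 * T) := ⟨_, rfl⟩
  have hX1 : 1 ≤ X := by rw [hX]; exact Real.one_le_exp (by positivity)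
  have hX99 : 4 * X ≤ Real.exp (99 / 100 * T) := by
    rw [hX]
    calc 4 * Real.exp (98 / 100 * T) ≤ Real.exp (1 / 100 * T) * Real.exp (98 / 100 * T) := by gcongr
      _ = Real.exp (99 / 100 * T) := by rw [← Real.exp_add]; ring_nf
  set Good1 : ℕ → Prop := fun n => (c * n + d).Prime ∧
    Real.exp (98 / 100 * T) < ((c * n + d : ℕ) : ℝ) ∧ ((c * n + d : ℕ) : ℝ) ≤ 3 * Real.exp (101 / 100 * T) ∧
    (∀ p : ℕ, p.Prime → (p : ℝ) ≤ Real.exp (ε * T) → n % p ∉ F p) ∧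
    (∀ p : ℕ, p.Prime → (p : ℝ) ≤ Real.exp (T / 9) → ¬ (p : ℤ) ∣ a * n + b) ∧
    1 < (a * n + b).natAbs ∧ ArithmeticFunction.cardFactors (a * n + b).natAbs ≤ 3 with hG1
  refine ⟨(range (⌊3 * Real.exp (101 / 100 * T)⌋₊ + 1)).filter Good1, ?_, fun n hn => (mem_filter.1 hn).2⟩
  by_contra hcon
  push Not at hcon
  have hGc : ((((range (⌊3 * Real.exp (101 / 100 * T)⌋₊ + 1)).filter Good1 ∪ range (⌊X⌋₊ + 1)).card : ℕ) : ℝ) ≤ Real.exp (99 / 100 * T) := by
    have h5 := card_union_le ((range (⌊3 * Real.exp (101 / 100 * T)⌋₊ + 1)).filter Good1) (range (⌊X⌋₊ + 1))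
    rw [card_range] at h5
    have h6 : ((((range (⌊3 * Real.exp (101 / 100 * T)⌋₊ + 1)).filter Good1 ∪ range (⌊X⌋₊ + 1)).card : ℕ) : ℝ) ≤
        (((range (⌊3 * Real.exp (101 / 100 * T)⌋₊ + 1)).filter Good1).card : ℝ) + (⌊X⌋₊ + 1) := by exact_mod_cast h5
    have h7 := Nat.floor_le (by linarith : 0 ≤ X)
    have h8 := hcon.trans (le_of_eq hX.symm)
    linarith
  obtain ⟨n, hnG, g1, g2, g3, g4, g5, g6, g7⟩ := h T hTT0 c d a b F hd1 hdc hc ha0 hne haT hbT hF hadm _ hGc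
  rw [mem_union, not_or] at hnG
  have hc1 : 1 ≤ c := hd1.trans hdc
  have hncd : n ≤ c * n + d := (Nat.le_mul_of_pos_left n (by omega)).trans (Nat.le_add_right _ _)
  apply hnG.1
  rw [mem_filter, mem_range, Nat.lt_succ_iff]
  refine ⟨Nat.le_floor (le_trans (by exact_mod_cast hncd) g3), g1, ?_, g3, g4, g5, g6, g7⟩
  rw [← hX]
  have h8 : ⌊X⌋₊ + 1 ≤ n := by
    have := hnG.2
    rw [mem_range] at this
    omega
  have h9 := Nat.lt_floor_add_one X
  have h10 : ((⌊X⌋₊ : ℝ)) + 1 ≤ ((c * n + d : ℕ) : ℝ) := by exact_mod_cast h8.trans hncd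
  linarith

end Pool.Agent.H536.OC
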