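import Mathlib
import Pool.Agent.H536.OC.U5
import Pool.Agent.H536.OC.Wg

/-! The polynomial version of the main theorem. -/

namespace Pool.Agent.H536.OC

theorem SPall : S_P := SPoly U5

end Pool.Agent.H536.OC
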