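import Mathlib
import Pool.Agent.H536.OC.U5b
import Pool.Agent.H536.OC.SShift
import Pool.Graph.R_pool_sql_team_seeded_1acbe0a2.Y175.RC.CovB

open Finset Filter Topology

/-! Prime, `P₃` and almost primes in a pattern which is isolated at the scale of Rankin's gaps. -/

namespace Pool.Agent.H536.OC

open Pool.Agent.Y175.RC (rk cover)
open Pool.Agent.H378R2 (WW yy z2 GoodP GoodS mem_PW)

lemma rk_half : ∀ᶠ X : ℝ in atTop, 0 ≤ rk X ∧ 2 * rk X ≤ X := by
  have t1 := Real.tendsto_log_atTop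
  have t2 : Tendsto (fun y : ℝ => Real.log (Real.log y)) atTop atTop := t1.comp t1
  have t3 : Tendsto (fun y : ℝ => Real.log (Real.log (Real.log y))) atTop atTop := t1.comp t2
  have t4 : Tendsto (fun y : ℝ => Real.log (Real.log (Real.log (Real.log y)))) atTop atTop :=
    t1.comp t3
  have hlog : ∀ᶠ t : ℝ in atTop, 2 * (Real.log t) ^ 2 ≤ t := by
    have h1 := (Real.isLittleO_pow_log_id_atTop (n := 2)).bound (show (0 : ℝ) < 1 / 2 by norm_num)
    filter_upwards [h1, eventually_ge_atTop 0] with t ht ht0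
    simp only [id, Real.norm_eq_abs] at ht
    rw [abs_of_nonneg ht0] at ht
    have := (le_abs_self _).trans ht
    linarith
  filter_upwards [t1.eventually_ge_atTop 1, t2.eventually_ge_atTop 1, t3.eventually_ge_atTop 1,
    t4.eventually_ge_atTop 1, hlog, eventually_ge_atTop 1] with X h1 h2 h3 h4 h5 h6
  have hT := h1
  set T := Real.log X
  set A := Real.log T
  set B := Real.log A
  set D := Real.log B
  have hrk : rk X = T * A * D / B ^ 2 := rfl
  have hD : D ≤ B ^ 2 := by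
    have : D ≤ B - 1 := Real.log_le_sub_one_of_pos (by linarith)
    nlinarith
  have hA : A ≤ T := by
    have : A ≤ T - 1 := Real.log_le_sub_one_of_pos (by linarith)
    linarith
  rw [hrk]
  refine ⟨by positivity, ?_⟩
  rw [mul_div_assoc', div_le_iff₀ (by positivity)]
  have e1 : T * A ≤ T ^ 2 := by nlinarith
  calc 2 * (T * A * D) ≤ 2 * (T ^ 2 * B ^ 2) := by gcongr
    _ = (2 * T ^ 2) * B ^ 2 := by ring
    _ ≤ X * B ^ 2 := mul_le_mul_of_nonneg_right h5 (by positivity)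

/-- change of the scale -/
lemma rk_scale {δ : ℝ} (hδ : 0 < δ) (hδ1 : δ ≤ 1) : ∀ᶠ X : ℝ in atTop,
    δ / 4 * rk X ≤ rk (X ^ δ) ∧ 1 ≤ rk X := by
  have t1 := Real.tendsto_log_atTop
  have t2 : Tendsto (fun y : ℝ => Real.log (Real.log y)) atTop atTop := t1.comp t1
  have t3 : Tendsto (fun y : ℝ => Real.log (Real.log (Real.log y))) atTop atTop := t1.comp t2
  have t4 : Tendsto (fun y : ℝ => Real.log (Real.log (Real.log (Real.log y)))) atTop atTop :=
    t1.comp t3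
  have hlog : ∀ᶠ t : ℝ in atTop, (Real.log t) ^ 2 ≤ t := by
    have h1 := (Real.isLittleO_pow_log_id_atTop (n := 2)).bound (show (0 : ℝ) < 1 by norm_num)
    filter_upwards [h1, eventually_ge_atTop 0] with t ht ht0
    simp only [id, Real.norm_eq_abs] at ht
    rw [abs_of_nonneg ht0] at ht
    have := (le_abs_self _).trans ht
    linarith
  filter_upwards [t1.eventually_ge_atTop 1, t2.eventually_ge_atTop (max 4 (-(2 * Real.log δ))), t3.eventually_ge_atTop 4,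
    t4.eventually_ge_atTop 2, eventually_gt_atTop 0, (t2.eventually hlog)] with X h1 h2 h3 h4 h6 h7
  have h2a : 4 ≤ Real.log (Real.log X) := (le_max_left _ _).trans h2
  have h2b : -(2 * Real.log δ) ≤ Real.log (Real.log X) := (le_max_right _ _).trans h2
  have e1 : Real.log (X ^ δ) = δ * Real.log X := Real.log_rpow h6 _
  clear h2
  obtain ⟨T, hT⟩ : ∃ T, T = Real.log X := ⟨_, rfl⟩
  rw [← hT] at h1 h3 h4 h7 h2a h2b e1
  obtain ⟨A, hA⟩ : ∃ A, A = Real.log T := ⟨_, rfl⟩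
  rw [← hA] at h3 h4 h7 h2a h2b
  obtain ⟨B, hB⟩ : ∃ B, B = Real.log A := ⟨_, rfl⟩
  rw [← hB] at h3 h4 h7
  obtain ⟨D, hD⟩ : ∃ D, D = Real.log B := ⟨_, rfl⟩
  rw [← hD] at h4
  have hrk : rk X = T * A * D / B ^ 2 := by unfold rk; rw [← hT, ← hA, ← hB, ← hD]
  have hT0 : 0 < T := by linarith
  have e2 : Real.log (δ * T) = Real.log δ + A := by rw [Real.log_mul hδ.ne' hT0.ne', hA]
  obtain ⟨A', hA'⟩ : ∃ A', A' = Real.log δ + A := ⟨_, rfl⟩
  have hlδ : Real.log δ ≤ 0 := Real.log_nonpos hδ.le hδ1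
  have hA1 : A / 2 ≤ A' := by rw [hA']; linarith
  have hA2 : A' ≤ A := by rw [hA']; linarith
  have hl2 : Real.log 2 ≤ 1 := by
    have := Real.log_two_lt_d9
    linarith
  have hB1 : B / 2 ≤ Real.log A' := by
    have h8 : Real.log (A / 2) ≤ Real.log A' := Real.log_le_log (by linarith) hA1
    rw [Real.log_div (by linarith) (by norm_num), ← hB] at h8
    linarith
  have hB2 : Real.log A' ≤ B := by
    rw [hB]
    exact Real.log_le_log (by linarith) hA2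
  obtain ⟨B', hB'⟩ : ∃ B', B' = Real.log A' := ⟨_, rfl⟩
  rw [← hB'] at hB1 hB2
  have hD1 : D / 2 ≤ Real.log B' := by
    have h8 : Real.log (B / 2) ≤ Real.log B' := Real.log_le_log (by linarith) hB1
    rw [Real.log_div (by linarith) (by norm_num), ← hD] at h8
    linarith
  have hrk2 : rk (X ^ δ) = (δ * T) * A' * Real.log B' / B' ^ 2 := by
    unfold rk
    rw [e1, e2, ← hA', ← hB']
  rw [hrk2, hrk]
  have hB'0 : 0 < B' := by linarith
  constructor
  · have hA'0 : 0 ≤ A' := by linarith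
    have hLB : 0 ≤ Real.log B' := by linarith
    calc δ / 4 * (T * A * D / B ^ 2) = (δ * T) * (A / 2) * (D / 2) / B ^ 2 := by ring
      _ ≤ (δ * T) * A' * Real.log B' / B ^ 2 := by gcongr
      _ ≤ (δ * T) * A' * Real.log B' / B' ^ 2 := by
          apply div_le_div_of_nonneg_left _ (by positivity) (by gcongr)
          have : 0 ≤ Real.log B' := by linarith
          have : 0 ≤ A' := by linarith
          positivity
  · rw [le_div_iff₀ (by positivity), one_mul]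
    have h9 : B ^ 2 ≤ A := h7
    have h10 : 1 * A * 1 ≤ T * A * D := by gcongr <;> linarith
    linarith

/-- `p` prime, `p + h0` a `P₃`, `p + hs i` almost prime, everything else near `p` has a small prime factor -/
theorem iso (h : S_P) (k : ℕ) : ∃ (c : ℝ) (R X0 : ℕ), 0 < c ∧ ∀ X : ℕ, X0 ≤ X → ∀ (h0 : ℤ) (hs : Fin k → ℤ), h0 ≠ 0 →
    |((h0 : ℤ) : ℝ)| ≤ c * rk X → (∀ i, |((hs i : ℤ) : ℝ)| ≤ c * rk X) →
    (∀ p : ℕ, p.Prime → ∃ n : ℤ, ¬ (p : ℤ) ∣ n ∧ ¬ (p : ℤ) ∣ n + h0 ∧ ∀ i, ¬ (p : ℤ) ∣ n + hs i) →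
    ∃ S : Finset ℕ, (X : ℝ) ^ (97 / 100 : ℝ) ≤ S.card ∧
    ∀ p ∈ S, p.Prime ∧ p ≤ X ∧ (X : ℝ) ^ (97 / 100 : ℝ) ≤ p ∧ 1 < ((p : ℤ) + h0).natAbs ∧
      ArithmeticFunction.cardFactors ((p : ℤ) + h0).natAbs ≤ 3 ∧
      (∀ l : ℕ, l.Prime → l ∣ ((p : ℤ) + h0).natAbs → (X : ℝ) ^ (11 / 100 : ℝ) < l) ∧
      (∀ i, (p : ℤ) + hs i ≠ 0 ∧ ArithmeticFunction.cardFactors ((p : ℤ) + hs i).natAbs ≤ R) ∧
      ∀ m : ℤ, |((m : ℤ) : ℝ)| ≤ c * rk X → m ≠ 0 → m ≠ h0 → (∀ i, m ≠ hs i) →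
        ∃ l : ℕ, l.Prime ∧ (l : ℝ) ≤ Real.log X ∧ (l : ℤ) ∣ (p : ℤ) + m := by
  classical
  obtain ⟨c1, hc1, hc11, hcov⟩ := cover (k + 2)
  obtain ⟨δ0, R, X1, hδ0, hsh⟩ := shiftT h k 1
  obtain ⟨δ, hδ⟩ : ∃ δ, δ = min δ0 1 := ⟨_, rfl⟩
  have hδp : 0 < δ := by rw [hδ]; positivity
  have hδ1 : δ ≤ 1 := by rw [hδ]; exact min_le_right _ _
  have hδδ : δ ≤ δ0 := by rw [hδ]; exact min_le_left _ _
  have hcast : Tendsto (fun X : ℕ => (X : ℝ)) atTop atTop := tendsto_natCast_atTop_atTop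
  have hpow : Tendsto (fun X : ℕ => (X : ℝ) ^ δ) atTop atTop := (tendsto_rpow_atTop hδp).comp hcast
  have hrkt : Tendsto (fun X : ℝ => rk X) atTop atTop := by
    have hl : ∀ᶠ X : ℝ in atTop, Real.log X ≤ rk X := by
      have t1 := Real.tendsto_log_atTop
      have t2 : Tendsto (fun y : ℝ => Real.log (Real.log y)) atTop atTop := t1.comp t1
      have t3 : Tendsto (fun y : ℝ => Real.log (Real.log (Real.log y))) atTop atTop := t1.comp t2
      have t4 : Tendsto (fun y : ℝ => Real.log (Real.log (Real.log (Real.log y)))) atTop atTop :=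
        t1.comp t3
      have hlog : ∀ᶠ t : ℝ in atTop, (Real.log t) ^ 2 ≤ t := by
        have h1 := (Real.isLittleO_pow_log_id_atTop (n := 2)).bound (show (0 : ℝ) < 1 by norm_num)
        filter_upwards [h1, eventually_ge_atTop 0] with t ht ht0
        simp only [id, Real.norm_eq_abs] at ht
        rw [abs_of_nonneg ht0] at ht
        have := (le_abs_self _).trans ht
        linarith
      filter_upwards [t1.eventually_ge_atTop 1, t2.eventually_ge_atTop 1, t3.eventually_ge_atTop 1,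
        t4.eventually_ge_atTop 1, t2.eventually hlog] with X h1 h2 h3 h4 h5
      unfold rk
      rw [le_div_iff₀ (by positivity)]
      have h6 : (Real.log (Real.log (Real.log X))) ^ 2 ≤ Real.log (Real.log X) * 1 := by linarith
      calc Real.log X * (Real.log (Real.log (Real.log X))) ^ 2 ≤ Real.log X * (Real.log (Real.log X) * 1) := by gcongr
        _ ≤ Real.log X * (Real.log (Real.log X) * Real.log (Real.log (Real.log (Real.log X)))) := by gcongr
        _ = _ := by ring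
    exact tendsto_atTop_mono' _ hl Real.tendsto_log_atTop
  have hev := (hcast.eventually (rk_scale hδp hδ1)).and ((hpow.eventually hcov).and ((hpow.eventually rk_half).and
    (((hrkt.comp hpow).eventually_ge_atTop (8 / c1)).and ((hpow.eventually_ge_atTop 3).and (eventually_ge_atTop (max X1 3))))))
  obtain ⟨X0, hX0⟩ := eventually_atTop.1 hev
  refine ⟨c1 * δ / 16, R, X0, by positivity, ?_⟩
  intro X hX h0 hs hh0 hb0 hbs hadm
  obtain ⟨⟨e1, e2⟩, e3, ⟨e4, e5⟩, e6, e7, e8⟩ := hX0 X hX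
  have hX1 : X1 ≤ X := (le_max_left _ _).trans e8
  have hX3 : 3 ≤ X := (le_max_right _ _).trans e8
  have hXr : (3 : ℝ) ≤ X := by exact_mod_cast hX3
  obtain ⟨Z, hZ⟩ : ∃ Z : ℝ, Z = (X : ℝ) ^ δ := ⟨_, rfl⟩
  rw [← hZ] at e1 e3 e4 e5 e7
  have e6' : 8 / c1 ≤ rk Z := by
    rw [hZ]
    exact e6
  have hlZ : Real.log Z = δ * Real.log X := by rw [hZ, Real.log_rpow (by linarith)]
  have hlX : 0 < Real.log X := Real.log_pos (by linarith)
  have hZX : Z ≤ X := by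
    rw [hZ]
    calc (X : ℝ) ^ δ ≤ (X : ℝ) ^ (1 : ℝ) := Real.rpow_le_rpow_of_exponent_le (by linarith) hδ1
      _ = X := Real.rpow_one _
  obtain ⟨A, hA⟩ : ∃ A : ℝ, A = c1 * rk Z := ⟨_, rfl⟩
  have hA8 : 8 ≤ A := by
    rw [hA]
    calc (8 : ℝ) = c1 * (8 / c1) := by field_simp
      _ ≤ c1 * rk Z := by gcongr
  have hcA : c1 * δ / 16 * rk X ≤ A / 4 := by
    rw [hA]
    calc c1 * δ / 16 * rk X = c1 * (δ / 4 * rk X) / 4 := by ring
      _ ≤ c1 * rk Z / 4 := by gcongr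
  have hAX : A ≤ X := by
    rw [hA]
    calc c1 * rk Z ≤ 1 * rk Z := by gcongr
      _ ≤ 2 * rk Z := by linarith
      _ ≤ Z := e5
      _ ≤ X := hZX
  obtain ⟨M, hM⟩ : ∃ M : ℕ, M = ⌊A / 2⌋₊ := ⟨_, rfl⟩
  have hM1 : (M : ℝ) ≤ A / 2 := by rw [hM]; exact Nat.floor_le (by linarith)
  have hM2 : A / 4 ≤ M := by
    have := Nat.lt_floor_add_one (A / 2)
    rw [← hM] at this
    linarith
  have pos : ∀ m : ℤ, |(m : ℝ)| ≤ c1 * δ / 16 * rk X → 0 ≤ (M : ℤ) + m ∧ (((M : ℤ) + m : ℤ) : ℝ) ≤ A := by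
    intro m hm
    have h1 := (abs_le.1 (hm.trans hcA))
    constructor
    · have : (0 : ℝ) ≤ (((M : ℤ) + m : ℤ) : ℝ) := by
        push_cast
        linarith
      exact_mod_cast this
    · push_cast
      linarith
  -- the positions
  obtain ⟨hh, hhh⟩ : ∃ hh : Fin (k + 2) → ℤ, hh = Fin.cons 0 (Fin.cons h0 hs) := ⟨_, rfl⟩
  have hh_0 : hh 0 = 0 := by rw [hhh]; rfl
  have hh_1 : hh (Fin.succ 0) = h0 := by rw [hhh]; rfl
  have hh_2 : ∀ i : Fin k, hh (Fin.succ (Fin.succ i)) = hs i := by intro i; rw [hhh]; rfl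
  have hall : ∀ P : ℤ → Prop, P 0 → P h0 → (∀ i, P (hs i)) → ∀ j, P (hh j) := by
    intro P p0 p1 p2 j
    refine Fin.cases ?_ (fun j => ?_) j
    · rw [hh_0]; exact p0
    · refine Fin.cases ?_ (fun i => ?_) j
      · rw [hh_1]; exact p1
      · rw [hh_2]; exact p2 i
  have hhb : ∀ j, |((hh j : ℤ) : ℝ)| ≤ c1 * δ / 16 * rk X :=
    hall (fun m => |((m : ℤ) : ℝ)| ≤ c1 * δ / 16 * rk X) (by
      have : (0 : ℝ) ≤ rk X := by linarith
      simp only [Int.cast_zero, abs_zero]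
      positivity) hb0 hbs
  obtain ⟨t, ht⟩ : ∃ t : Fin (k + 2) → ℕ, t = fun j => ((M : ℤ) + hh j).toNat := ⟨_, rfl⟩
  have htz : ∀ j, ((t j : ℕ) : ℤ) = (M : ℤ) + hh j := by
    intro j
    rw [ht]
    exact Int.toNat_of_nonneg (pos _ (hhb j)).1
  choose nn hnn using hadm
  obtain ⟨u, hu⟩ : ∃ u : ℕ → ℕ, u = fun p => if hp : p.Prime then ((nn p hp - M) % (p : ℤ)).toNat else 0 := ⟨_, rfl⟩
  have hut : ∀ p : ℕ, p.Prime → ∀ j, ¬ p ∣ u p + t j := by
    intro p hp j hd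
    have hp0 : (p : ℤ) ≠ 0 := by exact_mod_cast hp.ne_zero
    have h1 : ((u p : ℕ) : ℤ) = (nn p hp - M) % (p : ℤ) := by
      rw [hu]
      simp only [dif_pos hp]
      exact Int.toNat_of_nonneg (Int.emod_nonneg _ hp0)
    have h2 : (p : ℤ) ∣ (nn p hp - M) % (p : ℤ) + (M + hh j) := by
      rw [← h1, ← htz j]
      exact_mod_cast hd
    have h3 : (p : ℤ) ∣ nn p hp + hh j := by
      have h4 : nn p hp + hh j = ((nn p hp - M) % (p : ℤ) + (M + hh j)) + ((nn p hp - M) - (nn p hp - M) % (p : ℤ)) := by ring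
      rw [h4]
      exact dvd_add h2 (Int.dvd_self_sub_emod)
    revert h3
    exact hall (fun m => ¬ (p : ℤ) ∣ nn p hp + m) (by rw [add_zero]; exact (hnn p hp).1) (hnn p hp).2.1 (hnn p hp).2.2 j
  have hgS : GoodS Z ∅ := by
    unfold GoodS
    refine ⟨fun q hq => absurd hq (notMem_empty q), ?_⟩
    rw [sum_empty]
    positivity
  obtain ⟨a, ha1, ha2⟩ := e3 1 ∅ (Or.inl rfl) hgS t u (fun p hp _ j => hut p hp j) (by
    intro j
    have h1 := (pos _ (hhb j)).2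
    rw [← htz j, hA] at h1
    exact_mod_cast h1)
  rw [← hA] at ha2
  obtain ⟨W, hW⟩ : ∃ W, W = WW Z ∅ 1 := ⟨_, rfl⟩
  rw [← hW] at ha1
  have hW1 : 1 ≤ W := by rw [hW]; exact Pool.Agent.H378R2.WW_pos _ _ _
  have hdW : ∀ p ∈ Pool.Agent.H378R2.PW Z ∅ 1, p ∣ W := by
    intro p hp
    rw [hW]
    exact dvd_prod_of_mem (fun p => p) hp
  have hWle : (W : ℝ) ≤ (X : ℝ) ^ δ0 := by
    rw [hW]
    refine (Pool.Agent.H378R2.WW_le Z (by linarith) ∅ 1).trans ?_
    rw [hlZ, Real.rpow_def_of_pos (by linarith)]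
    apply Real.exp_le_exp.2
    calc δ * Real.log X / 700 ≤ δ * Real.log X := by
          apply div_le_self (by positivity) (by norm_num)
      _ ≤ δ0 * Real.log X := by gcongr
      _ = Real.log X * δ0 := by ring
  have hloc : ∀ p : ℕ, p.Prime → ∃ n : ℤ, (p ∣ W → (p : ℤ) ∣ n - ((a + M : ℕ) : ℤ)) ∧ ¬ (p : ℤ) ∣ n ∧ ¬ (p : ℤ) ∣ n + h0 ∧
      ∀ i, ¬ (p : ℤ) ∣ n + hs i := by
    intro p hp
    by_cases hpW : p ∣ W
    · have h1 : ∀ j, ¬ (p : ℤ) ∣ ((a + M : ℕ) : ℤ) + hh j := by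
        intro j hd
        have h2 : ((a + M : ℕ) : ℤ) + hh j = ((a + t j : ℕ) : ℤ) := by
          push_cast
          rw [htz j]
          ring
        rw [h2] at hd
        have h3 : p ∣ a + t j := by exact_mod_cast hd
        have h4 := Nat.dvd_gcd h3 hpW
        rw [(ha1 j)] at h4
        exact hp.one_lt.ne' (Nat.dvd_one.1 h4)
      refine ⟨((a + M : ℕ) : ℤ), fun _ => by rw [sub_self]; exact dvd_zero _, ?_, ?_, ?_⟩
      · have := h1 0
        rwa [hh_0, add_zero] at this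
      · have := h1 (Fin.succ 0)
        rwa [hh_1] at this
      · intro i
        have := h1 (Fin.succ (Fin.succ i))
        rwa [hh_2] at this
    · exact ⟨nn p hp, fun h => absurd h hpW, (hnn p hp).1, (hnn p hp).2.1, (hnn p hp).2.2⟩
  have hAXi : ∀ m : ℤ, |(m : ℝ)| ≤ c1 * δ / 16 * rk X → |m| ≤ (X : ℤ) := by
    intro m hm
    have h1 : |(m : ℝ)| ≤ (X : ℝ) := by linarith
    rw [← Int.cast_abs] at h1
    exact_mod_cast h1
  obtain ⟨S, hS1, hS2⟩ := hsh X hX1 h0 hs hh0 (hAXi _ hb0) (fun i => by rw [pow_one]; exact hAXi _ (hbs i)) W (a + M) hW1 hWle hloc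
  refine ⟨S, hS1, fun p hp => ?_⟩
  obtain ⟨g1, g2, g3, g4, g5, g6, g7, g8⟩ := hS2 p hp
  refine ⟨g1, g2, g4, g5, g6, g7, g8, fun m hm hm0 hmh hms => ?_⟩
  obtain ⟨p1, p2⟩ := pos m hm
  obtain ⟨m', hm'⟩ : ∃ m' : ℕ, m' = ((M : ℤ) + m).toNat := ⟨_, rfl⟩
  have hm'z : ((m' : ℕ) : ℤ) = (M : ℤ) + m := by rw [hm']; exact Int.toNat_of_nonneg p1
  obtain ⟨l, hl, hlm⟩ := ha2 m' (by rw [← hm'z] at p2; exact_mod_cast p2) (by
    intro j hj
    have h1 : ((m' : ℕ) : ℤ) = ((t j : ℕ) : ℤ) := by rw [hj]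
    rw [hm'z, htz j] at h1
    have h2 : m = hh j := by linarith
    revert h2
    exact hall (fun x => m ≠ x) hm0 hmh hms j)
  have hl' := mem_PW.1 hl
  refine ⟨l, hl'.2.1, ?_, ?_⟩
  · have h1 : l ≤ yy Z := hl'.1
    have h2 : (l : ℝ) ≤ yy Z := by exact_mod_cast h1
    have h3 : (yy Z : ℝ) ≤ Real.log Z / 1000 := Nat.floor_le (by rw [hlZ]; positivity)
    rw [hlZ] at h3
    have h4 : δ * Real.log X ≤ 1 * Real.log X := by gcongr
    have h5 : 0 ≤ δ * Real.log X := by positivity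
    linarith
  · have h1 : (p : ℤ) ≡ ((a + M : ℕ) : ℤ) [ZMOD l] := by
      have h2 : p ≡ a + M [MOD l] := g3.of_dvd (hdW l hl)
      exact (Int.natCast_modEq_iff).2 h2
    have h2 : (l : ℤ) ∣ ((a + M : ℕ) : ℤ) + m := by
      have h3 : ((a + M : ℕ) : ℤ) + m = ((a + m' : ℕ) : ℤ) := by
        push_cast
        rw [hm'z]
        ring
      rw [h3]
      exact_mod_cast hlm
    have h3 : (l : ℤ) ∣ ((a + M : ℕ) : ℤ) - p := (Int.modEq_iff_dvd).1 h1
    have h4 : (p : ℤ) + m = (((a + M : ℕ) : ℤ) + m) - (((a + M : ℕ) : ℤ) - p) := by ring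
    rw [h4]
    exact dvd_sub h2 h3

end Pool.Agent.H536.OC
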