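import Mathlib
import Pool.Graph.R_seed8.H474R2.GE.RhoHoms
import Pool.Graph.R_seed8.H474R2.PG.HomsRho
import Pool.Graph.R_seed8.H921R2.TatePole.BaseChange
import Pool.Graph.R_seed8.H921R2.TatePole.Homs
import Pool.Agent.H536.OC.Wh
import Pool.Agent.H536.OC.Wi

/-! The logarithm of the zeta function of an irreducible polynomial near `1` (helper106). -/

set_option autoImplicit false

open Filter Topology

namespace Pool.Agent.H536.OC

namespace RL

open Polynomial NumberField IsDedekindDomain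
open Pool.Agent.H921R2.TatePole
open Pool.Agent.H474R2.PG (rho)

/-- the function has a finite limit at `1+` -/
def Cv (F : ℝ → ℝ) : Prop := ∃ L : ℝ, Tendsto F (𝓝[>] 1) (𝓝 L)

lemma Cv.add {F G : ℝ → ℝ} (hF : Cv F) (hG : Cv G) : Cv (fun x => F x + G x) := by
  obtain ⟨a, ha⟩ := hF
  obtain ⟨b, hb⟩ := hG
  exact ⟨a + b, ha.add hb⟩

lemma Cv.sub {F G : ℝ → ℝ} (hF : Cv F) (hG : Cv G) : Cv (fun x => F x - G x) := by
  obtain ⟨a, ha⟩ := hF
  obtain ⟨b, hb⟩ := hG
  exact ⟨a - b, ha.sub hb⟩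

lemma Cv.congr {F G : ℝ → ℝ} (hF : Cv F) (h : ∀ x : ℝ, 1 < x → G x = F x) : Cv G := by
  obtain ⟨a, ha⟩ := hF
  refine ⟨a, ha.congr' ?_⟩
  filter_upwards [self_mem_nhdsWithin] with x hx
  exact (h x hx).symm

/-- dominated convergence -/
lemma cv_tsum {ι : Type} (g : ℝ → ι → ℝ) (b : ι → ℝ) (hb : Summable b)
    (hc : ∀ i, ContinuousAt (fun x => g x i) 1) (hg : ∀ x : ℝ, 1 < x → ∀ i, |g x i| ≤ b i) :
    Cv (fun x => ∑' i, g x i) := by
  refine ⟨∑' i, g 1 i, tendsto_tsum_of_dominated_convergence hb ?_ ?_⟩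
  · intro i
    exact (hc i).tendsto.mono_left nhdsWithin_le_nhds
  · filter_upwards [self_mem_nhdsWithin] with x hx i
    rw [Real.norm_eq_abs]
    exact hg x hx i

lemma cont_rpow (n : ℝ) (hn : 0 < n) : ContinuousAt (fun x : ℝ => n ^ (-x)) 1 := by
  have h : Continuous (fun x : ℝ => n ^ (-x)) := by
    exact Continuous.rpow continuous_const continuous_neg (fun x => Or.inl hn.ne')
  exact h.continuousAt

section nf

variable (K : Type) [Field K] [NumberField K]

lemma log_bound {u : ℝ} (h0 : 0 ≤ u) (h1 : u ≤ 1 / 2) : |-Real.log (1 - u) - u| ≤ u ^ 2 := by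
  have h2 := neg_log_one_sub_le h0 h1
  have h3 := Real.log_le_sub_one_of_pos (x := 1 - u) (by linarith)
  rw [abs_le]
  constructor
  · nlinarith [sq_nonneg u]
  · linarith

lemma nm_bound (v : HeightOneSpectrum (𝓞 K)) {x : ℝ} (hx : 1 < x) :
    |-Real.log (1 - (nm v : ℝ) ^ (-x)) - (nm v : ℝ) ^ (-x)| ≤ (nm v : ℝ) ^ (-(2 : ℝ)) := by
  have h2 : (2 : ℝ) ≤ (nm v : ℝ) := by exact_mod_cast two_le_nm v
  refine (log_bound (by positivity) (nm_rpow_le_half v hx.le)).trans ?_
  rw [rpow_sq']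
  exact Real.rpow_le_rpow_of_exponent_le (by linarith) (by linarith)

lemma cv_log : Cv (fun x => ∑' v : HeightOneSpectrum (𝓞 K),
    (-Real.log (1 - (nm v : ℝ) ^ (-x)) - (nm v : ℝ) ^ (-x))) := by
  refine cv_tsum _ (fun v => (nm v : ℝ) ^ (-(2 : ℝ))) (nm_summable (by norm_num)) ?_
    (fun x hx v => nm_bound K v hx)
  intro v
  have h2 : (2 : ℝ) ≤ (nm v : ℝ) := by exact_mod_cast two_le_nm v
  have hc := cont_rpow (nm v : ℝ) (by linarith)
  have h3 : (1 : ℝ) - (nm v : ℝ) ^ (-(1 : ℝ)) ≠ 0 := by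
    have := nm_rpow_le_half v (le_refl (1 : ℝ))
    intro h
    linarith
  exact ((continuousAt_const.sub hc).log h3).neg.sub hc

lemma cv_nm (h : S_Eu) : Cv (fun x => ∑' v : HeightOneSpectrum (𝓞 K), (nm v : ℝ) ^ (-x) - Lam x) := by
  have h1 : Cv (fun x : ℝ => Real.log ((x - 1) * ZK K x)) :=
    ⟨_, (ZK_tendsto (K := K)).log (dedekindZeta_residue_ne_zero K)⟩
  refine (h1.sub (cv_log K)).congr fun x hx => ?_
  have hpos : 0 < ZK K x := by
    have h := prod_one_add_le (K := K) hx ∅
    rw [Finset.prod_empty] at h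
    linarith
  have hx1 : 0 < x - 1 := by linarith
  have hs1 := nm_summable (K := K) hx
  have hs2 : Summable (fun v : HeightOneSpectrum (𝓞 K) =>
      -Real.log (1 - (nm v : ℝ) ^ (-x)) - (nm v : ℝ) ^ (-x)) := by
    refine Summable.of_norm_bounded (nm_summable (K := K) (x := 2) (by norm_num)) fun v => ?_
    rw [Real.norm_eq_abs]
    exact nm_bound K v hx
  have hs3 : Summable (fun v : HeightOneSpectrum (𝓞 K) => -Real.log (1 - (nm v : ℝ) ^ (-x))) :=
    (hs2.add hs1).congr fun v => by ring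
  rw [Real.log_mul hx1.ne' hpos.ne', h K x hx, Summable.tsum_sub hs3 hs1]
  unfold Lam
  rw [one_div, Real.log_inv]
  ring

/-- the part of the primes of degree at least two -/
noncomputable def Dp (x : ℝ) (p : Nat.Primes) : ℝ :=
  ∑ v : {v : HeightOneSpectrum (𝓞 K) // below v = p},
    ((nm v.1 : ℝ) ^ (-x) - if deg v.1 = 1 then w x p else 0)

lemma Dp_bound {x : ℝ} (hx : 1 < x) (p : Nat.Primes) :
    |Dp K x p| ≤ Module.finrank ℚ K * ((p : ℕ) : ℝ) ^ (-(2 : ℝ)) := by
  unfold Dp
  refine (Finset.abs_sum_le_sum_abs _ _).trans ?_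
  have hp1 : (1 : ℝ) ≤ (p : ℕ) := by exact_mod_cast p.prop.one_lt.le
  calc _ ≤ ∑ v : {v : HeightOneSpectrum (𝓞 K) // below v = p}, ((p : ℕ) : ℝ) ^ (-(2 : ℝ)) := by
        refine Finset.sum_le_sum fun v _ => ?_
        obtain ⟨h1, h2, _⟩ := nm_eq v.1
        rw [v.2] at h1
        split_ifs with hd
        · rw [h1, hd, pow_one]
          unfold w
          rw [sub_self, abs_zero]
          positivity
        · rw [sub_zero, abs_of_nonneg (by positivity), h1]
          push_cast
          rw [← Real.rpow_natCast, ← Real.rpow_mul (by positivity)]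
          refine Real.rpow_le_rpow_of_exponent_le hp1 ?_
          have hd2 : (2 : ℝ) ≤ (deg v.1 : ℝ) := by
            have : 2 ≤ deg v.1 := by omega
            exact_mod_cast this
          nlinarith
    _ = (Fintype.card {v : HeightOneSpectrum (𝓞 K) // below v = p}) *
          ((p : ℕ) : ℝ) ^ (-(2 : ℝ)) := by simp
    _ ≤ _ := by
        refine mul_le_mul_of_nonneg_right ?_ (by positivity)
        exact_mod_cast fiber_card_le p

lemma cv_deg : Cv (fun x => ∑' v : HeightOneSpectrum (𝓞 K), (nm v : ℝ) ^ (-x) -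
    ∑' p : Nat.Primes, (R K p : ℝ) * w x p) := by
  have h1 : Cv (fun x => ∑' p : Nat.Primes, Dp K x p) := by
    refine cv_tsum _ (fun p => Module.finrank ℚ K * ((p : ℕ) : ℝ) ^ (-(2 : ℝ)))
      ((summable_primes_rpow (by norm_num)).mul_left _) ?_ (fun x hx p => Dp_bound K hx p)
    intro p
    unfold Dp
    have hp0 : (0 : ℝ) < (p : ℕ) := by exact_mod_cast p.prop.pos
    refine tendsto_finsetSum _ fun v _ => ?_
    have h2 : (2 : ℝ) ≤ (nm v.1 : ℝ) := by exact_mod_cast two_le_nm v.1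
    have hc : ContinuousAt (fun x : ℝ => (nm v.1 : ℝ) ^ (-x)) 1 := cont_rpow _ (by linarith)
    have hc2 : ContinuousAt (fun x : ℝ => if deg v.1 = 1 then w x p else 0) 1 := by
      split_ifs
      · exact cont_rpow _ hp0
      · exact continuousAt_const
    exact hc.sub hc2
  refine h1.congr fun x hx => ?_
  have hs := nm_summable (K := K) hx
  have hs1 : Summable (fun p : Nat.Primes => (R K p : ℝ) * w x p) :=
    bddmul_summable hx (C := Module.finrank ℚ K) fun p => by
      rw [abs_of_nonneg (by positivity)]; exact_mod_cast R_le p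
  rw [tsum_fiber hs, ← Summable.tsum_sub (summable_fiber hs) hs1]
  refine tsum_congr fun p => ?_
  unfold Dp R
  rw [Finset.card_filter, Finset.sum_sub_distrib]
  push_cast
  rw [Finset.sum_mul]
  congr 1
  refine Finset.sum_congr rfl fun v _ => ?_
  split_ifs <;> simp

lemma cv_R (h : S_Eu) : Cv (fun x => ∑' p : Nat.Primes, (R K p : ℝ) * w x p - Lam x) :=
  ((cv_nm K h).sub (cv_deg K)).congr fun x hx => by ring

end nf

lemma R_rat (p : Nat.Primes) : R ℚ p = 1 := by
  rw [R_eq_hc]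
  unfold hc
  have e : (𝓞 ℚ →+* ZMod (p : ℕ)) ≃ (ℤ →+* ZMod (p : ℕ)) :=
    { toFun := fun f => f.comp Rat.ringOfIntegersEquiv.symm.toRingHom
      invFun := fun f => f.comp Rat.ringOfIntegersEquiv.toRingHom
      left_inv := fun f => RingHom.ext fun x =>
        congrArg f (Rat.ringOfIntegersEquiv.symm_apply_apply x)
      right_inv := fun f => RingHom.ext_int _ _ }
  have : Nonempty (ℤ →+* ZMod (p : ℕ)) := ⟨Int.castRingHom _⟩
  have : Subsingleton (ℤ →+* ZMod (p : ℕ)) := ⟨fun f g => RingHom.ext_int f g⟩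
  rw [Nat.card_congr e, Nat.card_unique]

lemma cv_W (h : S_Eu) : Cv (fun x => W x - Lam x) := by
  refine (cv_R ℚ h).congr fun x hx => ?_
  unfold W
  congr 1
  refine tsum_congr fun p => ?_
  rw [R_rat, Nat.cast_one, one_mul]
  rfl

lemma cv_R1 (h : S_Eu) (K : Type) [Field K] [NumberField K] :
    Cv (fun x => ∑' p : Nat.Primes, ((R K p : ℝ) - 1) * w x p) := by
  refine ((cv_R K h).sub (cv_W h)).congr fun x hx => ?_
  have hs1 : Summable (fun p : Nat.Primes => (R K p : ℝ) * w x p) :=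
    bddmul_summable hx (C := Module.finrank ℚ K) fun p => by
      rw [abs_of_nonneg (by positivity)]; exact_mod_cast R_le p
  have e : ∀ p : Nat.Primes, ((R K p : ℝ) - 1) * w x p = (R K p : ℝ) * w x p - w x p :=
    fun p => by ring
  rw [tsum_congr e, Summable.tsum_sub hs1 (w_summable hx)]
  have : W x = ∑' p, w x p := rfl
  rw [this]
  ring

/-- the number of roots modulo `p` is the number of primes of degree one above `p` -/
lemma rho_eq (f : ℤ[X]) (hf : Irreducible f) (hd : 0 < f.natDegree) :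
    ∃ (K : Type) (_ : Field K) (_ : NumberField K), ∃ B : ℕ, ∀ p : Nat.Primes, B < (p : ℕ) →
      rho f (p : ℕ) = R K p := by
  have hprim : f.IsPrimitive := hf.isPrimitive hd.ne'
  have hF : Irreducible (f.map (Int.castRingHom ℚ)) :=
    (IsPrimitive.Int.irreducible_iff_irreducible_map_cast hprim).1 hf
  have hfact : Fact (Irreducible (f.map (Int.castRingHom ℚ))) := ⟨hF⟩
  have hadj : ∀ x : AdjoinRoot (f.map (Int.castRingHom ℚ)), ∃ q : ℚ[X],
      eval₂ (Rat.castHom (AdjoinRoot (f.map (Int.castRingHom ℚ))))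
        (AdjoinRoot.root (f.map (Int.castRingHom ℚ))) q = x := by
    intro x
    obtain ⟨q, rfl⟩ := AdjoinRoot.mk_surjective x
    refine ⟨q, ?_⟩
    have h2 : Rat.castHom (AdjoinRoot (f.map (Int.castRingHom ℚ))) =
        AdjoinRoot.of (f.map (Int.castRingHom ℚ)) := Subsingleton.elim _ _
    rw [h2]
    have h3 := AdjoinRoot.aeval_eq (f := f.map (Int.castRingHom ℚ)) q
    rw [← h3]
    rfl
  obtain ⟨B1, hB1⟩ := Pool.Agent.H474R2.PG.P2_core (AdjoinRoot (f.map (Int.castRingHom ℚ))) f hd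
    (AdjoinRoot.root (f.map (Int.castRingHom ℚ))) (by
      have h1 := AdjoinRoot.eval₂_root (f.map (Int.castRingHom ℚ))
      rw [eval₂_map] at h1
      have h2 : (AdjoinRoot.of (f.map (Int.castRingHom ℚ))).comp (Int.castRingHom ℚ) =
          Int.castRingHom (AdjoinRoot (f.map (Int.castRingHom ℚ))) := RingHom.ext_int _ _
      rw [h2] at h1
      exact h1) hadj
  obtain ⟨B2, hB2⟩ := Pool.Agent.H474R2.GE.M1_core (AdjoinRoot (f.map (Int.castRingHom ℚ))) f
    (AdjoinRoot.root (f.map (Int.castRingHom ℚ))) (by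
      intro A hA
      have h1 : AdjoinRoot.mk (f.map (Int.castRingHom ℚ)) (A.map (Int.castRingHom ℚ)) = 0 := by
        have h3 := AdjoinRoot.aeval_eq (f := f.map (Int.castRingHom ℚ)) (A.map (Int.castRingHom ℚ))
        rw [← h3, aeval_def, eval₂_map]
        have hg : ∀ g : ℤ →+* AdjoinRoot (f.map (Int.castRingHom ℚ)),
            eval₂ g (AdjoinRoot.root (f.map (Int.castRingHom ℚ))) A = 0 := by
          intro g
          rw [RingHom.ext_int g (Int.castRingHom _)]
          exact hA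
        exact hg _
      rw [AdjoinRoot.mk_eq_zero] at h1
      exact (IsPrimitive.Int.dvd_iff_map_cast_dvd_map_cast f A hprim).2 h1) hadj
  refine ⟨AdjoinRoot (f.map (Int.castRingHom ℚ)), inferInstance, inferInstance, max B1 B2, ?_⟩
  intro p hp
  rw [R_eq_hc]
  unfold hc
  exact le_antisymm (hB2 p p.prop (lt_of_le_of_lt (le_max_right _ _) hp))
    (hB1 p p.prop (lt_of_le_of_lt (le_max_left _ _) hp))

end RL

open RL Polynomial Pool.Agent.H921R2.TatePole in
theorem rlim (h : S_Eu) : S_Rlim := by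
  intro f hf hd
  obtain ⟨K, _, _, B, hB⟩ := rho_eq f hf hd
  have h1 := cv_R1 h K
  set d : Nat.Primes → ℝ := fun p => (Pool.Agent.H474R2.PG.rho f (p : ℕ) : ℝ) - (R K p : ℝ) with hdd
  have hfin : {p : Nat.Primes | (p : ℕ) ≤ B}.Finite := by
    refine Set.Finite.preimage (f := fun p : Nat.Primes => (p : ℕ)) ?_ (Set.finite_Iic B)
    intro a _ b _ hab
    exact Subtype.ext hab
  have hd0 : ∀ p : Nat.Primes, p ∉ hfin.toFinset → d p = 0 := by
    intro p hp
    rw [Set.Finite.mem_toFinset, Set.mem_ofPred_eq, not_le] at hp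
    rw [hdd]
    simp only [hB p hp, sub_self]
  have hsd : Summable (fun p => |d p|) := by
    refine summable_of_ne_finset_zero (s := hfin.toFinset) fun p hp => ?_
    rw [hd0 p hp, abs_zero]
  have h2 : Cv (fun x => ∑' p : Nat.Primes, d p * w x p) := by
    refine cv_tsum _ (fun p => |d p|) hsd ?_ ?_
    · intro p
      have hp0 : (0 : ℝ) < (p : ℕ) := by exact_mod_cast p.prop.pos
      exact continuousAt_const.mul (cont_rpow _ hp0)
    · intro x hx p
      rw [abs_mul, abs_of_nonneg (w_nonneg x p)]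
      have : w x p ≤ 1 := (prime_rpow_le_half p hx.le).trans (by norm_num)
      exact mul_le_of_le_one_right (abs_nonneg _) this
  have h3 : Cv (fun x : ℝ => ∑' p : Nat.Primes,
      ((Pool.Agent.H474R2.PG.rho f (p : ℕ) : ℝ) - 1) * ((p : ℕ) : ℝ) ^ (-x)) := by
    refine (h1.add h2).congr fun x hx => ?_
    have hs1 : Summable (fun p : Nat.Primes => ((R K p : ℝ) - 1) * w x p) :=
      bddmul_summable hx (C := Module.finrank ℚ K + 1) fun p => by
        have a1 : (R K p : ℝ) ≤ Module.finrank ℚ K := by exact_mod_cast R_le p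
        have a0 : (0 : ℝ) ≤ (R K p : ℝ) := by positivity
        rw [abs_le]
        constructor <;> linarith [Nat.cast_nonneg (α := ℝ) (Module.finrank ℚ K)]
    have hs2 : Summable (fun p : Nat.Primes => d p * w x p) := by
      refine summable_of_ne_finset_zero (s := hfin.toFinset) fun p hp => ?_
      rw [hd0 p hp, zero_mul]
    rw [← Summable.tsum_add hs1 hs2]
    refine tsum_congr fun p => ?_
    have e : ((p : ℕ) : ℝ) ^ (-x) = w x p := rfl
    rw [e, hdd]
    ring
  exact h3

end Pool.Agent.H536.OC
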