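import Mathlib
import Pool.Agent.H536.OC.Wh

open Finset Filter Topology

/-! Squares of primes dividing polynomial values; the number of prime factors (helper694). -/

namespace Pool.Agent.H536.OC

open Polynomial

namespace SqFL

lemma coprime_deriv (f : ℤ[X]) (hf : Irreducible f) (hd : 0 < f.natDegree) :
    ∃ (A B : ℤ[X]) (R : ℤ), R ≠ 0 ∧ A * f + B * derivative f = C R := by
  have hprim : f.IsPrimitive := hf.isPrimitive hd.ne'
  have hq : Irreducible (f.map (Int.castRingHom ℚ)) :=
    (Polynomial.IsPrimitive.Int.irreducible_iff_irreducible_map_cast hprim).1 hf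
  have hs : (f.map (Int.castRingHom ℚ)).Separable := hq.separable
  obtain ⟨a, b, hab⟩ := hs
  obtain ⟨b1, hb1', h1⟩ := IsLocalization.integerNormalization_spec (nonZeroDivisors ℤ) a
  obtain ⟨b2, hb2', h2⟩ := IsLocalization.integerNormalization_spec (nonZeroDivisors ℤ) b
  have hb1 : (b1 : ℤ) ≠ 0 := nonZeroDivisors.ne_zero hb1'
  have hb2 : (b2 : ℤ) ≠ 0 := nonZeroDivisors.ne_zero hb2'
  refine ⟨C (b2 : ℤ) * IsLocalization.integerNormalization (nonZeroDivisors ℤ) a,
    C (b1 : ℤ) * IsLocalization.integerNormalization (nonZeroDivisors ℤ) b, b1 * b2, mul_ne_zero hb1 hb2, ?_⟩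
  apply Polynomial.map_injective (Int.castRingHom ℚ) Int.cast_injective
  have h1' : (IsLocalization.integerNormalization (nonZeroDivisors ℤ) a).map (Int.castRingHom ℚ) = C ((b1 : ℤ) : ℚ) * a := by
    have : (IsLocalization.integerNormalization (nonZeroDivisors ℤ) a).map (algebraMap ℤ ℚ) = ((b1 : ℤ) : ℤ) • a := h1
    rw [show (Int.castRingHom ℚ) = algebraMap ℤ ℚ from rfl, this, zsmul_eq_mul]
    simp
  have h2' : (IsLocalization.integerNormalization (nonZeroDivisors ℤ) b).map (Int.castRingHom ℚ) = C ((b2 : ℤ) : ℚ) * b := by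
    have : (IsLocalization.integerNormalization (nonZeroDivisors ℤ) b).map (algebraMap ℤ ℚ) = ((b2 : ℤ) : ℤ) • b := h2
    rw [show (Int.castRingHom ℚ) = algebraMap ℤ ℚ from rfl, this, zsmul_eq_mul]
    simp
  rw [Polynomial.map_add, Polynomial.map_mul, Polynomial.map_mul, Polynomial.map_mul, Polynomial.map_mul, h1', h2',
    Polynomial.map_C, Polynomial.map_C, Polynomial.map_C, ← Polynomial.derivative_map]
  have : C ((Int.castRingHom ℚ) ((b1 : ℤ) * (b2 : ℤ))) = C ((b1 : ℤ) : ℚ) * C ((b2 : ℤ) : ℚ) * (1 : ℚ[X]) := by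
    simp
  rw [this, ← hab]
  simp only [eq_intCast]
  ring

lemma class_card {S : Finset ℕ} {N q : ℕ} (h1 : ∀ n ∈ S, n < N)
    (h2 : ∀ n ∈ S, ∀ m ∈ S, n % q = m % q) : S.card ≤ N / q + 1 := by
  have : S.card ≤ (range (N / q + 1)).card := by
    apply card_le_card_of_injOn (fun n => n / q)
    · intro n hn
      have := h1 n hn
      simp only [coe_range, Set.mem_Iio]
      exact Nat.lt_succ_of_le (Nat.div_le_div_right this.le)
    · intro n hn m hm hnm
      have h3 := h2 n hn m hm
      have e1 := Nat.div_add_mod n q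
      have e2 := Nat.div_add_mod m q
      simp only at hnm
      rw [← e1, ← e2, hnm, h3]
  simpa using this

open Classical in
lemma roots_card' {p : ℕ} (hp : p.Prime) (f : ℤ[X]) (hne : f.map (Int.castRingHom (ZMod p)) ≠ 0) (u v : ℤ)
    (hu : ¬ (p : ℤ) ∣ u) :
    ((range p).filter (fun x : ℕ => (p : ℤ) ∣ f.eval (u * x + v))).card ≤ f.natDegree := by
  have : Fact p.Prime := ⟨hp⟩
  have hu0 : (u : ZMod p) ≠ 0 := by
    intro h
    exact hu ((ZMod.intCast_zmod_eq_zero_iff_dvd u p).1 h)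
  have hev : ∀ x : ℕ, (p : ℤ) ∣ f.eval (u * x + v) ↔
      (f.map (Int.castRingHom (ZMod p))).eval ((u : ZMod p) * (x : ZMod p) + (v : ZMod p)) = 0 := by
    intro x
    have : ((u : ZMod p) * (x : ZMod p) + (v : ZMod p)) = Int.castRingHom (ZMod p) (u * x + v) := by
      simp
    rw [this, Polynomial.eval_map_apply, ← ZMod.intCast_zmod_eq_zero_iff_dvd]
    simp
  have h1 : ((range p).filter (fun x : ℕ => (p : ℤ) ∣ f.eval (u * x + v))).card ≤
      (f.map (Int.castRingHom (ZMod p))).roots.toFinset.card := by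
    apply card_le_card_of_injOn (fun x : ℕ => (u : ZMod p) * (x : ZMod p) + (v : ZMod p))
    · intro x hx
      rw [mem_coe, mem_filter] at hx
      rw [mem_coe, Multiset.mem_toFinset, Polynomial.mem_roots hne]
      exact (hev x).1 hx.2
    · intro x hx y hy hxy
      rw [mem_coe, mem_filter, mem_range] at hx hy
      have h3 : (x : ZMod p) = (y : ZMod p) := by
        have : (u : ZMod p) * (x : ZMod p) + (v : ZMod p) = (u : ZMod p) * (y : ZMod p) + (v : ZMod p) := hxy
        exact mul_left_cancel₀ hu0 (add_right_cancel this)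
      have := (ZMod.natCast_eq_natCast_iff x y p).1 h3
      exact Nat.ModEq.eq_of_lt_of_lt this hx.1 hy.1
  refine h1.trans ((Multiset.toFinset_card_le _).trans ((Polynomial.card_roots' _).trans ?_))
  exact Polynomial.natDegree_map_le

end SqFL

open SqFL

theorem sqF : S_SqF := by
  classical
  intro f hf hd
  obtain ⟨A, B, R, hR, hAB⟩ := coprime_deriv f hf hd
  refine ⟨R.natAbs, fun u v N p hp hpB hu => ?_⟩
  have hpR : ¬ (p : ℤ) ∣ R := by
    intro h
    have h1 : p ∣ R.natAbs := Int.natCast_dvd.1 h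
    have h2 := Nat.le_of_dvd (Int.natAbs_pos.2 hR) h1
    omega
  have hpp : Prime (p : ℤ) := Nat.prime_iff_prime_int.1 hp
  have hne : f.map (Int.castRingHom (ZMod p)) ≠ 0 := by
    intro h0
    have h1 := congrArg (Polynomial.map (Int.castRingHom (ZMod p))) hAB
    rw [Polynomial.map_add, Polynomial.map_mul, Polynomial.map_mul, ← Polynomial.derivative_map, h0] at h1
    simp only [mul_zero, Polynomial.derivative_zero, add_zero, Polynomial.map_C] at h1
    have h2 : ((Int.castRingHom (ZMod p)) R) = 0 := by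
      rw [← Polynomial.C_eq_zero]
      exact h1.symm
    exact hpR ((ZMod.intCast_zmod_eq_zero_iff_dvd R p).1 (by simpa using h2))
  -- two solutions congruent modulo p are congruent modulo p²
  have key : ∀ n m : ℕ, ((p ^ 2 : ℕ) : ℤ) ∣ f.eval (u * n + v) → ((p ^ 2 : ℕ) : ℤ) ∣ f.eval (u * m + v) →
      n % p = m % p → n % p ^ 2 = m % p ^ 2 := by
    intro n m hn hm hnm
    have hmod : (p : ℤ) ∣ (m : ℤ) - n := by
      have : n ≡ m [MOD p] := hnm
      exact (Nat.modEq_iff_dvd).1 this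
    obtain ⟨y, hy⟩ : ∃ y : ℤ, y = u * n + v := ⟨_, rfl⟩
    obtain ⟨w, hw⟩ : ∃ w : ℤ, w = u * (m - n) := ⟨_, rfl⟩
    have hyw : u * m + v = y + w := by rw [hy, hw]; ring
    rw [hyw] at hm
    rw [← hy] at hn
    have hpw : (p : ℤ) ∣ w := by rw [hw]; exact Dvd.dvd.mul_left hmod u
    obtain ⟨k, hk⟩ := Polynomial.binomExpansion f y w
    rw [hk] at hm
    have hpw2 : ((p ^ 2 : ℕ) : ℤ) ∣ k * w ^ 2 := by
      push_cast
      exact Dvd.dvd.mul_left (pow_dvd_pow_of_dvd hpw 2) k
    have h3 : ((p ^ 2 : ℕ) : ℤ) ∣ (derivative f).eval y * w := by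
      have := dvd_sub (dvd_sub hm hn) hpw2
      have e : f.eval y + (derivative f).eval y * w + k * w ^ 2 - f.eval y - k * w ^ 2 = (derivative f).eval y * w := by ring
      rwa [e] at this
    have hpy : (p : ℤ) ∣ f.eval y := by
      refine Dvd.dvd.trans ?_ hn
      push_cast
      exact dvd_pow_self _ two_ne_zero
    have h4 : ¬ (p : ℤ) ∣ (derivative f).eval y := by
      intro h
      apply hpR
      have h5 := congrArg (Polynomial.eval y) hAB
      rw [Polynomial.eval_add, Polynomial.eval_mul, Polynomial.eval_mul, Polynomial.eval_C] at h5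
      rw [← h5]
      exact dvd_add (Dvd.dvd.mul_left hpy _) (Dvd.dvd.mul_left h _)
    have hcop : IsCoprime ((p ^ 2 : ℕ) : ℤ) ((derivative f).eval y) := by
      push_cast
      exact ((Prime.coprime_iff_not_dvd hpp).2 h4).pow_left
    have h5 : ((p ^ 2 : ℕ) : ℤ) ∣ w := hcop.dvd_of_dvd_mul_left h3
    rw [hw] at h5
    have hcop2 : IsCoprime ((p ^ 2 : ℕ) : ℤ) u := by
      push_cast
      exact ((Prime.coprime_iff_not_dvd hpp).2 hu).pow_left
    have h6 : ((p ^ 2 : ℕ) : ℤ) ∣ (m : ℤ) - n := hcop2.dvd_of_dvd_mul_left h5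
    exact (Nat.modEq_iff_dvd).2 h6
  obtain ⟨S, hS⟩ : ∃ S : Finset ℕ, S = (range N).filter (fun n : ℕ => ((p ^ 2 : ℕ) : ℤ) ∣ f.eval (u * n + v)) := ⟨_, rfl⟩
  have hmem : ∀ n, n ∈ S ↔ n < N ∧ ((p ^ 2 : ℕ) : ℤ) ∣ f.eval (u * n + v) := by
    intro n
    rw [hS, mem_filter, mem_range]
  have h1 : S.card ≤ (N / p ^ 2 + 1) * (S.image (fun n => n % p)).card := by
    apply Finset.card_le_mul_card_image
    intro a _
    apply class_card
    · intro n hn
      rw [mem_filter] at hn
      exact ((hmem n).1 hn.1).1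
    · intro n hn m hm
      rw [mem_filter] at hn hm
      exact key n m ((hmem n).1 hn.1).2 ((hmem m).1 hm.1).2 (hn.2.trans hm.2.symm)
  have h2 : (S.image (fun n => n % p)).card ≤ f.natDegree := by
    refine le_trans (card_le_card ?_) (roots_card' hp f hne u v hu)
    intro x hx
    rw [mem_image] at hx
    obtain ⟨n, hn, rfl⟩ := hx
    rw [mem_filter, mem_range]
    refine ⟨Nat.mod_lt _ hp.pos, ?_⟩
    have h3 : (p : ℤ) ∣ f.eval (u * n + v) := by
      refine Dvd.dvd.trans ?_ ((hmem n).1 hn).2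
      push_cast
      exact dvd_pow_self _ two_ne_zero
    have h4 : (p : ℤ) ∣ f.eval (u * ((n % p : ℕ) : ℤ) + v) - f.eval (u * n + v) := by
      refine Dvd.dvd.trans ?_ (Polynomial.sub_dvd_eval_sub _ _ f)
      have : u * ((n % p : ℕ) : ℤ) + v - (u * n + v) = u * (((n % p : ℕ) : ℤ) - n) := by ring
      rw [this]
      apply Dvd.dvd.mul_left
      exact (Nat.modEq_iff_dvd).1 (Nat.mod_modEq n p).symm
    have := dvd_add h4 h3
    simpa using this
  rw [← hS]
  have h3 : S.card ≤ (N / p ^ 2 + 1) * f.natDegree := h1.trans (Nat.mul_le_mul_left _ h2)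
  have hpr : (0 : ℝ) < (p : ℝ) ^ 2 := by
    have : (0 : ℝ) < p := by exact_mod_cast hp.pos
    positivity
  have h4 : ((N / p ^ 2 : ℕ) : ℝ) ≤ (N : ℝ) / (p : ℝ) ^ 2 := by
    have := @Nat.cast_div_le ℝ _ _ _ N (p ^ 2)
    simpa using this
  calc (S.card : ℝ) ≤ (((N / p ^ 2 + 1) * f.natDegree : ℕ) : ℝ) := by exact_mod_cast h3
    _ = f.natDegree * (((N / p ^ 2 : ℕ) : ℝ) + 1) := by push_cast; ring
    _ ≤ f.natDegree * ((N : ℝ) / (p : ℝ) ^ 2 + 1) := by
      apply mul_le_mul_of_nonneg_left _ (by positivity)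
      linarith

namespace SqFL

lemma pow_omega_le {m : ℕ} (hm : m ≠ 0) {U : ℝ} (hU : 0 ≤ U) (h : ∀ p : ℕ, p.Prime → p ∣ m → U ≤ p) :
    U ^ (ArithmeticFunction.cardFactors m) ≤ m := by
  have h1 : (m.primeFactorsList.prod : ℕ) = m := Nat.prod_primeFactorsList hm
  rw [ArithmeticFunction.cardFactors_apply]
  have h2 : ∀ l : List ℕ, (∀ p ∈ l, U ≤ (p : ℝ)) → U ^ l.length ≤ ((l.prod : ℕ) : ℝ) := by
    intro l
    induction l with
    | nil => simp
    | cons a l ih =>
      intro hl
      rw [List.length_cons, List.prod_cons, pow_succ, Nat.cast_mul, mul_comm]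
      exact mul_le_mul (hl a (by simp)) (ih fun p hp => hl p (by simp [hp])) (by positivity) (by positivity)
  have h3 := h2 m.primeFactorsList (fun p hp => h p (Nat.prime_of_mem_primeFactorsList hp) (Nat.dvd_of_mem_primeFactorsList hp))
  rw [h1] at h3
  exact h3

end SqFL

theorem omF : S_OmF := by
  intro m k U z hm hz hzU hlt hzp huniq hsq
  have hU1 : 1 < U := hz.trans_le hzU
  have hU0 : 0 < U := by linarith
  by_cases hex : ∃ q : ℕ, q.Prime ∧ q ∣ m ∧ (q : ℝ) < U
  · obtain ⟨q, hq, hqm, hqU⟩ := hex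
    obtain ⟨m', rfl⟩ := hqm
    have hm' : m' ≠ 0 := right_ne_zero_of_mul hm
    have h1 : ∀ p : ℕ, p.Prime → p ∣ m' → U ≤ p := by
      intro p hp hpm
      by_contra hlt'
      push Not at hlt'
      have : p = q := huniq p q hp hq (Dvd.dvd.mul_left hpm q) (dvd_mul_right q m') hlt' hqU
      subst this
      apply hsq p hp hlt'
      rw [pow_two]
      exact Nat.mul_dvd_mul_left p hpm
    have h2 := pow_omega_le hm' hU0.le h1
    have hzq : z ≤ q := hzp q hq (dvd_mul_right q m')
    have h3 : (m' : ℝ) < U ^ k := by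
      have h4 : z * (m' : ℝ) ≤ q * m' := mul_le_mul_of_nonneg_right hzq (by positivity)
      push_cast at hlt
      have h5 : z * (m' : ℝ) < z * U ^ k := by linarith
      exact lt_of_mul_lt_mul_left h5 (by linarith)
    have h4 : ArithmeticFunction.cardFactors m' < k := by
      exact (pow_lt_pow_iff_right₀ hU1).1 (h2.trans_lt h3)
    rw [ArithmeticFunction.cardFactors_mul hq.ne_zero hm', ArithmeticFunction.cardFactors_apply_prime hq]
    omega
  · push Not at hex
    have h2 := pow_omega_le hm hU0.le (fun p hp hpm => hex p hp hpm)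
    have h3 : (m : ℝ) < U ^ (k + 1) := by
      refine hlt.trans_le ?_
      rw [pow_succ]
      exact mul_le_mul_of_nonneg_left hzU (by positivity)
    have h4 : ArithmeticFunction.cardFactors m < k + 1 := by
      exact (pow_lt_pow_iff_right₀ hU1).1 (h2.trans_lt h3)
    omega

end Pool.Agent.H536.OC
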