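import Mathlib
import Pool.Agent.H536.OC.Wa

open Finset Filter Topology

/-! Subtask (helper536), proved by helper348. -/

namespace Pool.Agent.H536.OC

theorem vd_key {p l : ℕ} [Fact p.Prime] (hl : l.Prime) (hlp : l ∣ p - 1) (g : (ZMod p)ˣ)
    (hg : orderOf g = p - 1) (z : ℤ) : (g ^ z) ^ ((p - 1) / l) = 1 ↔ (l : ℤ) ∣ z := by
  obtain ⟨c, hc⟩ := hlp
  have hp : 0 < p - 1 := by
    have := (Fact.out : p.Prime).two_le
    omega
  have hc0 : 0 < c := by
    rcases Nat.eq_zero_or_pos c with h | h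
    · rw [h, mul_zero] at hc; omega
    · exact h
  have h1 : (p - 1) / l = c := by rw [hc]; exact Nat.mul_div_cancel_left c hl.pos
  rw [h1, ← zpow_natCast, ← zpow_mul, ← orderOf_dvd_iff_zpow_eq_one, hg, hc]
  push_cast
  exact mul_dvd_mul_iff_right (by exact_mod_cast hc0.ne')

theorem vd_prod {G ι : Type} [CommGroup G] (g : G) (f : ι → ℤ) (s : Finset ι) :
    ∏ i ∈ s, g ^ f i = g ^ ∑ i ∈ s, f i := by
  classical
  induction s using Finset.induction_on with
  | empty => simp
  | insert a s ha ih => rw [Finset.prod_insert ha, Finset.sum_insert ha, zpow_add, ih]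

theorem vd : S_VD := by
  intro p l hp hl hlp hl68 u hu
  classical
  have : Fact l.Prime := ⟨hl⟩
  obtain ⟨g, hg⟩ := IsCyclic.exists_generator (α := (ZMod p)ˣ)
  have hord : orderOf g = p - 1 := by
    rw [orderOf_eq_card_of_forall_mem_zpowers hg, Nat.card_eq_fintype_card, ZMod.card_units]
  have he : ∀ i, ∃ e : ℤ, g ^ e = u i := fun i => hg (u i)
  choose e he using he
  have hv : ∀ t : ℕ, vdm u t = g ^ (∑ i : Fin 12, e i * ((2 * t : ℕ) : ℤ) ^ (i : ℕ)) := by
    intro t
    unfold vdm
    rw [← vd_prod]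
    refine Finset.prod_congr rfl fun i _ => ?_
    rw [← he i, zpow_mul, ← zpow_natCast (g ^ e i)]
    push_cast
    rfl
  let P : Polynomial (ZMod l) := ∑ i : Fin 12, Polynomial.C ((e i : ℤ) : ZMod l) * Polynomial.X ^ (i : ℕ)
  have hcoef : ∀ j : Fin 12, P.coeff (j : ℕ) = ((e j : ℤ) : ZMod l) := by
    intro j
    simp only [P, Polynomial.finsetSum_coeff, Polynomial.coeff_C_mul, Polynomial.coeff_X_pow]
    rw [Finset.sum_eq_single j]
    · simp
    · intro i _ hij
      rw [if_neg (fun h => hij (Fin.ext h.symm)), mul_zero]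
    · intro h; exact absurd (Finset.mem_univ j) h
  have hP0 : P ≠ 0 := by
    obtain ⟨i, hi⟩ := hu
    intro h
    have h1 := hcoef i
    rw [h, Polynomial.coeff_zero] at h1
    apply hi
    rw [← he i]
    exact (vd_key hl hlp g hord (e i)).2 ((ZMod.intCast_zmod_eq_zero_iff_dvd (e i) l).1 h1.symm)
  have hdeg : P.natDegree ≤ 11 := by
    refine Polynomial.natDegree_sum_le_of_forall_le _ _ fun i _ => ?_
    exact (Polynomial.natDegree_C_mul_X_pow_le _ _).trans (by omega)
  have hcard : P.roots.toFinset.card ≤ 11 :=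
    (Multiset.toFinset_card_le _).trans ((Polynomial.card_roots' P).trans hdeg)
  refine le_trans ?_ hcard
  refine Finset.card_le_card_of_injOn (fun t : ℕ => ((2 * t : ℕ) : ZMod l)) ?_ ?_
  · intro t ht
    have ht' := (Finset.mem_filter.1 ht).2
    have h1 : vdm u t ^ ((p - 1) / l) = 1 := ht'
    rw [hv t, vd_key hl hlp g hord] at h1
    have h2 := (ZMod.intCast_zmod_eq_zero_iff_dvd _ l).2 h1
    simp only [Finset.mem_coe, Multiset.mem_toFinset]
    rw [Polynomial.mem_roots hP0, Polynomial.IsRoot.def]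
    simp only [P, Polynomial.eval_finsetSum, Polynomial.eval_mul, Polynomial.eval_C,
      Polynomial.eval_pow, Polynomial.eval_X]
    push_cast at h2 ⊢
    exact h2
  · intro t ht s hs hts
    have ht' := Finset.mem_Icc.1 (Finset.mem_filter.1 ht).1
    have hs' := Finset.mem_Icc.1 (Finset.mem_filter.1 hs).1
    have h1 : ((2 * t : ℕ) : ZMod l) = ((2 * s : ℕ) : ZMod l) := hts
    rw [ZMod.natCast_eq_natCast_iff] at h1
    have h2 := Nat.ModEq.eq_of_lt_of_lt h1 (by omega) (by omega)
    omega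

theorem indx : S_ind := by
  intro p g n k hp a hgn hn h hk
  set m := (Subgroup.zpowers a).index with hm
  have h1 : m * orderOf a = p - 1 := by
    have := Subgroup.index_mul_card (Subgroup.zpowers a)
    rw [Nat.card_zpowers, Nat.card_eq_fintype_card, ZMod.card_units] at this
    exact this
  have hp1 : 0 < p - 1 := by
    have := (Fact.out : p.Prime).two_le
    omega
  have hdv : ∀ l : ℕ, l.Prime → l ∣ m → a ^ ((p - 1) / l) = 1 := by
    intro l hl hlm
    obtain ⟨m', hm'⟩ := hlm
    have : (p - 1) / l = orderOf a * m' := by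
      rw [← h1, hm', mul_assoc, Nat.mul_div_cancel_left _ hl.pos, mul_comm]
    rw [this, pow_mul, pow_orderOf_eq_one, one_pow]
  have hcop : m.Coprime n := by
    refine Nat.Coprime.symm (Nat.coprime_of_dvd fun l hl hln hlm => ?_)
    exact h l hl hln (hdv l hl hlm)
  have hmg : m ∣ g := by
    have : m ∣ g * n := ⟨orderOf a, by rw [← hgn, h1]⟩
    exact hcop.dvd_of_dvd_mul_right this
  rcases hk with hk | ⟨⟨j, hj⟩, hns⟩
  · exact hmg.trans hk
  · have hodd : ¬ 2 ∣ m := by
      intro h2
      have h3 := hdv 2 Nat.prime_two h2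
      have h4 : 2 ∣ p - 1 := h2.trans ⟨orderOf a, h1.symm⟩
      have h5 : (p - 1) / 2 = p / 2 := by omega
      rw [h5] at h3
      obtain ⟨y, hy⟩ := (ZMod.euler_criterion_units p a).2 h3
      exact hns (y : ZMod p) (by rw [← hy]; push_cast; rfl)
    have hc2 : m.Coprime (2 ^ j) := by
      refine Nat.Coprime.pow_right j ?_
      exact ((Nat.Prime.coprime_iff_not_dvd Nat.prime_two).2 hodd).symm
    exact hc2.dvd_of_dvd_mul_left (hmg.trans hj)


end Pool.Agent.H536.OC
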