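import Mathlib
import Pool.Agent.H536.OC.C21
import Pool.Agent.H536.OC.Wh

open Finset Filter Topology

/-! The abstract weighted sieve with one prime form and arbitrary forbidden classes of dimension one. -/

namespace Pool.Agent.H536.OC

open Pool.Agent.Y882 Pool.Agent.W23.DC Pool.Agent.H536.OB
open Pool.Agent.H318R2.Cr (V Pz mem_Pz V_pos cz_bounds one_sub_inv_pos)
open Pool.Agent.H262R3.Lk (wM)
open U3X

namespace U6X

open Classical in
/-- the forbidden classes -/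
noncomputable def HZ (Q B W ν : ℕ) (F : ℕ → Finset ℕ) (p : ℕ) : Finset ℕ :=
  (range p).filter (fun x => ¬ p ∣ Q * x + B ∧ (W * x + ν) % p ∈ F p)

theorem mem_HZ {Q B W ν : ℕ} {F : ℕ → Finset ℕ} {p x : ℕ} :
    x ∈ HZ Q B W ν F p ↔ x < p ∧ ¬ p ∣ Q * x + B ∧ (W * x + ν) % p ∈ F p := by
  unfold HZ
  rw [mem_filter, mem_range]

theorem HZ_sub (Q B W ν : ℕ) (F : ℕ → Finset ℕ) (p : ℕ) : HZ Q B W ν F p ⊆ range p := by
  intro x hx
  rw [mem_HZ] at hx
  exact mem_range.2 hx.1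

theorem HZ_inj {W ν p : ℕ} (hp : p.Prime) (hpW : ¬ p ∣ W) {x y : ℕ} (hx : x < p) (hy : y < p)
    (h : (W * x + ν) % p = (W * y + ν) % p) : x = y := by
  have h2 : W * x + ν ≡ W * y + ν [MOD p] := h
  have h3 : W * x ≡ W * y [MOD p] := Nat.ModEq.add_right_cancel' _ h2
  have h4 : x ≡ y [MOD p] := Nat.ModEq.cancel_left_of_coprime ((Nat.Prime.coprime_iff_not_dvd hp).2 hpW) h3
  exact Nat.ModEq.eq_of_lt_of_lt h4 hx hy

theorem HZ_card {Q B W ν : ℕ} {F : ℕ → Finset ℕ} {p : ℕ} (hp : p.Prime) (hpW : ¬ p ∣ W) :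
    (HZ Q B W ν F p).card ≤ (F p).card := by
  classical
  apply card_le_card_of_injOn (fun x => (W * x + ν) % p)
  · intro x hx
    rw [mem_coe, mem_HZ] at hx
    exact hx.2.2
  · intro x hx y hy hxy
    rw [mem_coe, mem_HZ] at hx hy
    exact HZ_inj hp hpW hx.1 hy.1 hxy

open Classical in
theorem HZ_eq {c d W ν : ℕ} {F : ℕ → Finset ℕ} {p : ℕ} (hp : p.Prime) (hpW : ¬ p ∣ W) :
    (HZ (c * W) (c * ν + d) W ν F p).card = ((range p).filter (fun x => x ∈ F p ∧ ¬ p ∣ c * x + d)).card := by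
  have key : ∀ x : ℕ, p ∣ c * W * x + (c * ν + d) ↔ p ∣ c * ((W * x + ν) % p) + d := by
    intro x
    have h1 : c * W * x + (c * ν + d) = c * (W * x + ν) + d := by ring
    rw [h1]
    exact ⟨fun h => tr_nat (Nat.mod_modEq (W * x + ν) p).symm h, fun h => tr_nat (Nat.mod_modEq (W * x + ν) p) h⟩
  apply card_nbij (fun x => (W * x + ν) % p)
  · intro x hx
    rw [mem_coe, mem_HZ] at hx
    rw [mem_coe, mem_filter, mem_range]
    exact ⟨Nat.mod_lt _ hp.pos, hx.2.2, fun h => hx.2.1 ((key x).2 h)⟩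
  · intro x hx y hy hxy
    rw [mem_coe, mem_HZ] at hx hy
    exact HZ_inj hp hpW hx.1 hy.1 hxy
  · intro y hy
    rw [mem_coe, mem_filter, mem_range] at hy
    obtain ⟨x, hx1, hx2⟩ : ∃ x < p, (W * x + ν) % p = y := by
      obtain ⟨x, hx⟩ : ∃ x : ZMod p, (W : ZMod p) * x + ν = y := by
        have : Fact p.Prime := ⟨hp⟩
        have hW0 : (W : ZMod p) ≠ 0 := by
          rw [Ne, ZMod.natCast_eq_zero_iff]
          exact hpW
        exact ⟨((y : ZMod p) - ν) / W, by field_simp; ring⟩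
      have : NeZero p := ⟨hp.ne_zero⟩
      refine ⟨x.val, ZMod.val_lt x, ?_⟩
      have h3 : ((W * x.val + ν : ℕ) : ZMod p) = (y : ZMod p) := by
        push_cast
        rw [ZMod.natCast_zmod_val]
        exact hx
      have h4 := (ZMod.natCast_eq_natCast_iff' _ _ _).1 h3
      rw [h4, Nat.mod_eq_of_lt hy.1]
    refine ⟨x, ?_, hx2⟩
    rw [mem_coe, mem_HZ]
    refine ⟨hx1, fun h => hy.2.2 ?_, ?_⟩
    · have := (key x).1 h
      rwa [hx2] at this
    · rw [hx2]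
      exact hy.2.1

theorem crt_nu6 (c d : ℕ) (F : ℕ → Finset ℕ) (w W : ℕ) (hW : 0 < W) (hWd : ∀ p : ℕ, p.Prime → p ≤ w → p ∣ W)
    (hadm : ∀ p : ℕ, p.Prime → ∃ n : ℕ, ¬ p ∣ c * n + d ∧ n % p ∉ F p) :
    ∃ ν < W, ∀ p : ℕ, p.Prime → p ≤ w → ¬ p ∣ c * ν + d ∧ ν % p ∉ F p := by
  classical
  have h1 : ∀ p : ℕ, ∃ n : ℕ, p.Prime → (¬ p ∣ c * n + d ∧ n % p ∉ F p) := by
    intro p
    by_cases hp : p.Prime
    · obtain ⟨n, hn⟩ := hadm p hp
      exact ⟨n, fun _ => hn⟩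
    · exact ⟨0, fun h => absurd h hp⟩
  choose f hf using h1
  obtain ⟨x, hx⟩ := Nat.chineseRemainderOfFinset f id ((range (w + 1)).filter Nat.Prime)
    (by
      intro p hp
      exact (mem_filter.1 hp).2.ne_zero)
    (by
      intro p hp q hq hpq
      rw [mem_coe, mem_filter] at hp hq
      exact (Nat.coprime_primes hp.2 hq.2).2 hpq)
  refine ⟨x % W, Nat.mod_lt _ hW, fun p hp hpw => ?_⟩
  have h2 : x % W ≡ f p [MOD p] := by
    have h3 : x % W ≡ x [MOD p] := (Nat.mod_modEq x W).of_dvd (hWd p hp hpw)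
    exact h3.trans (hx p (mem_filter.2 ⟨mem_range.2 (by omega), hp⟩))
  obtain ⟨h4, h6⟩ := hf p hp
  refine ⟨fun h => h4 (tr_nat h2 h), fun h => h6 ?_⟩
  have h7 : x % W % p = f p % p := h2
  rwa [h7] at h

theorem Mer_sub {Y : ℕ} {h : ℕ → ℝ} {e1 e2 w η1 η2 : ℝ} (he : e1 ≤ e2) (hη : η1 ≤ η2)
    (hM : Mer (pr Y e1 w) (tt Y) h e1 w η1) : Mer (pr Y e2 w) (tt Y) h e2 w η2 := by
  intro a b ha hab hb
  have h1 := hM a b (he.trans ha) hab hb
  have h2 : (pr Y e2 w).filter (fun p => a ≤ tt Y p ∧ tt Y p < b) = (pr Y e1 w).filter (fun p => a ≤ tt Y p ∧ tt Y p < b) := by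
    unfold pr
    ext p
    simp only [Finset.mem_filter]
    constructor
    · rintro ⟨⟨h3, h4, h5, h6⟩, h7⟩
      exact ⟨⟨h3, h4, he.trans h5, h6⟩, h7⟩
    · rintro ⟨⟨h3, h4, h5, h6⟩, h7⟩
      exact ⟨⟨h3, h4, ha.trans h7.1, h6⟩, h7⟩
  rw [h2]
  exact h1.trans hη

end U6X

open U6X in
theorem U6g (h2 : S_NPW) (h3 : S_PW) : S_U6 := by
  classical
  intro κ
  obtain ⟨k, hk⟩ : ∃ k : ℕ, k = κ := ⟨_, rfl⟩
  obtain ⟨e1N, etN, CE, he1N, he1N8, hetN, hCE, h2'⟩ := h2 k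
  obtain ⟨e1P, etP, c3, he1P, he1P8, hetP, hc3, d0P, hd0P, h3'⟩ := h3 k
  obtain ⟨c2, hc2⟩ : ∃ c2, c2 = min 1 (c3 / CE) := ⟨_, rfl⟩
  have hc20 : 0 < c2 := by rw [hc2]; positivity
  have hc21 : c2 ≤ 1 := by rw [hc2]; exact min_le_left _ _
  have hc2c : CE * c2 ≤ c3 := by
    calc CE * c2 ≤ CE * (c3 / CE) := by gcongr; rw [hc2]; exact min_le_right _ _
      _ = c3 := by field_simp
  obtain ⟨d0N, hd0N, h2''⟩ := h2' c2 hc20 hc21
  obtain ⟨δ, hδ⟩ : ∃ δ, δ = min (min d0N d0P) (1 / 1000) := ⟨_, rfl⟩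
  have hδ0 : 0 < δ := by rw [hδ]; positivity
  have hδN : δ ≤ d0N := by rw [hδ]; exact (min_le_left _ _).trans (min_le_left _ _)
  have hδP : δ ≤ d0P := by rw [hδ]; exact (min_le_left _ _).trans (min_le_right _ _)
  have hδ1 : δ ≤ 1 / 1000 := by rw [hδ]; exact min_le_right _ _
  obtain ⟨T0N, hT0N⟩ := h2'' δ hδ0 hδN
  obtain ⟨T0P, hT0P⟩ := h3' δ hδ0 hδP
  obtain ⟨e0, he0⟩ : ∃ e0, e0 = min e1N e1P / 2 := ⟨_, rfl⟩
  have he00 : 0 < e0 := by rw [he0]; positivity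
  obtain ⟨T1, hT1⟩ := num δ e0 hδ0 hδ1 he00
  refine ⟨δ, min e1N e1P, min etN etP, max (max T0N T0P) (max T1 1), hδ0, by positivity, (min_le_left _ _).trans he1N8, by positivity, ?_⟩
  intro T hT c d F hd1 hdc hc hF hadm hMer G hG
  have hTN : T0N ≤ T := ((le_max_left _ _).trans (le_max_left _ _)).trans hT
  have hTP : T0P ≤ T := ((le_max_right _ _).trans (le_max_left _ _)).trans hT
  have hTT1 : T1 ≤ T := ((le_max_left _ _).trans (le_max_right _ _)).trans hT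
  have hTY : 1 ≤ T := ((le_max_right _ _).trans (le_max_right _ _)).trans hT
  obtain ⟨n1, n2, n3, n4, n5, n6, n7⟩ := hT1 T hTT1
  specialize hT0N T hTN
  specialize hT0P T hTP
  obtain ⟨L, hL⟩ : ∃ L : ℝ, L = Real.log ⌊Real.exp T⌋₊ := ⟨_, rfl⟩
  obtain ⟨Y, hY⟩ : ∃ Y : ℕ, Y = ⌊Real.exp T⌋₊ := ⟨_, rfl⟩
  rw [← hL] at n2 n3
  rw [← hY] at hMer hL
  have hL0 : 0 < L := by linarith
  have hY1 : 1 ≤ Y := by
    rw [hY]
    exact (log_floor_exp (by linarith)).2.2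
  have hYr : (0 : ℝ) < Y := by exact_mod_cast hY1
  have hYL : (Y : ℝ) = Real.exp L := by rw [hL, Real.exp_log hYr]
  have ttlt : ∀ (p : ℕ) (x : ℝ), tt Y p < x ↔ Real.log p < x * L := by
    intro p x
    unfold Pool.Agent.W23.DC.tt
    rw [← hL, div_lt_iff₀ hL0]
  have ttle : ∀ (p : ℕ) (x : ℝ), x ≤ tt Y p ↔ x * L ≤ Real.log p := by
    intro p x
    unfold Pool.Agent.W23.DC.tt
    rw [← hL, le_div_iff₀ hL0]
  have mpr : ∀ (p : ℕ) (u v : ℝ), p ∈ pr Y u v → p.Prime ∧ u * L ≤ Real.log p ∧ Real.log p < v * L := by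
    intro p u v hp
    unfold Pool.Agent.W23.DC.pr at hp
    rw [mem_filter] at hp
    exact ⟨hp.2.1, (ttle p u).1 hp.2.2.1, (ttlt p v).1 hp.2.2.2⟩
  obtain ⟨M, hM⟩ : ∃ M : ℕ, M = ⌊Real.exp (δ * T)⌋₊ := ⟨_, rfl⟩
  rw [← hM] at n5 n6 n7
  obtain ⟨w, hw⟩ : ∃ w : ℕ, w = wM M := ⟨_, rfl⟩
  rw [← hw] at n5 n6
  obtain ⟨W, hW⟩ : ∃ W : ℕ, W = Pool.Agent.H262R3.Lk.WT M ∅ := ⟨_, rfl⟩
  have hWpos : 0 < W := by rw [hW]; exact Pool.Agent.H262R3.Lk.WT_pos M ∅
  have hWM : W ≤ M := by rw [hW]; exact Pool.Agent.H262R3.Lk.WT_le M n7 ∅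
  have hWd : ∀ p : ℕ, p.Prime → p ≤ w → p ∣ W := by
    intro p hp h
    apply Nat.dvd_of_mem_primeFactors
    rw [hW, Pool.Agent.H262R3.Lk.WT_pf, sdiff_empty, Pool.Agent.H262R2.UP.mem_Pz]
    exact ⟨by rw [← hw]; exact h, hp⟩
  have hWn : ∀ p : ℕ, p.Prime → w < p → ¬ p ∣ W := by
    intro p hp h hd
    have h4 : p ∈ W.primeFactors := Nat.mem_primeFactors.2 ⟨hp, hd, hWpos.ne'⟩
    rw [hW, Pool.Agent.H262R3.Lk.WT_pf, sdiff_empty, Pool.Agent.H262R2.UP.mem_Pz, ← hw] at h4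
    omega
  have hcM : c ≤ M := by rw [hM]; exact Nat.le_floor hc
  have hc1 : 1 ≤ c := hd1.trans hdc
  have hMr : (M : ℝ) ≤ Real.exp (δ * T) := by rw [hM]; exact Nat.floor_le (Real.exp_pos _).le
  obtain ⟨ν, hνW, hν⟩ := crt_nu6 c d F w W hWpos hWd hadm
  -- large primes
  have hbig : ∀ p : ℕ, e0 * L ≤ Real.log p → w < p := by
    intro p hp
    have h4 : Real.log T < Real.log p := by
      have : e0 * (T - 1) ≤ e0 * L := by gcongr
      linarith
    have hp0 : (0 : ℝ) < p := by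
      rcases Nat.eq_zero_or_pos p with h | h
      · rw [h, Nat.cast_zero, Real.log_zero] at h4
        have := Real.log_pos (show (1 : ℝ) < T by linarith)
        linarith
      · exact_mod_cast h
    have h5 := (Real.log_lt_log_iff (by linarith) hp0).1 h4
    have h6 : (w : ℝ) < p := by linarith
    exact_mod_cast h6
  obtain ⟨H, hH⟩ : ∃ H : ℕ → Finset ℕ, H = HZ (c * W) (c * ν + d) W ν F := ⟨_, rfl⟩
  have hB1 : 1 ≤ c * ν + d := by omega
  have hcong : ∀ t : ℕ, c * W * t + (c * ν + d) = c * (W * t + ν) + d := by intro t; ring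
  have hQne : NeZero (c * W) := ⟨(Nat.mul_pos (by omega) hWpos).ne'⟩
  have hsit : Sit k δ T (c * W) (c * ν + d) w H (fun _ _ => False) := by
    refine ⟨hB1, ?_, ?_, ?_, ?_, n5, n6, ?_, ?_, ?_⟩
    · calc c * ν + d ≤ c * ν + c := by omega
        _ = c * (ν + 1) := by ring
        _ ≤ c * W := Nat.mul_le_mul_left _ hνW
    · apply Nat.coprime_of_dvd
      intro p hp hp1 hp2
      rcases Nat.lt_or_ge w p with h | h
      · rcases (Nat.Prime.dvd_mul hp).1 hp2 with h4 | h4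
        · have h5 : p ∣ d := (Nat.dvd_add_right (h4.mul_right _)).1 hp1
          obtain ⟨n, hn, _⟩ := hadm p hp
          exact hn (dvd_add (h4.mul_right _) h5)
        · exact hWn p hp h h4
      · exact (hν p hp h).1 hp1
    · rw [← hM, sq]
      exact Nat.mul_le_mul hcM hWM
    · rw [← hM, hw]
    · intro p hp h
      exact (hWd p hp h).mul_left _
    · intro p hp h
      rw [hH]
      refine ⟨HZ_sub _ _ _ _ _ _, (HZ_card hp (hWn p hp h)).trans ((hF p hp).trans hk.ge), ?_⟩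
      · intro x hx
        rw [mem_HZ] at hx
        exact hx.2.1
    · intro p n hp
      have h0 : (range n).filter (fun _ => False) = ∅ := by
        ext x
        simp
      have h1 : (0 : ℝ) ≤ (n : ℝ) / (p : ℝ) ^ 2 := by positivity
      have h2 : (((range n).filter (fun _ => False)).card : ℝ) ≤ (n : ℝ) / (p : ℝ) ^ 2 + 3 := by
        rw [h0, card_empty, Nat.cast_zero]
        linarith
      convert h2
  have hcong2 : ∀ e1 : ℝ, e0 < e1 → ∀ η : ℝ,
      Mer (pr Y e1 (17 / 50)) (tt Y) (fun p => (((range p).filter (fun x => x ∈ F p ∧ ¬ p ∣ c * x + d)).card : ℝ) / ((p : ℝ) - 1)) e1 (17 / 50) η →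
      Mer (pr Y e1 (17 / 50)) (tt Y) (fun p => ((H p).card : ℝ) / ((p : ℝ) - 1)) e1 (17 / 50) η := by
    intro e1 he1 η hM a b ha hab hb
    have h4 := hM a b ha hab hb
    rw [sum_congr rfl (g := fun p => (((range p).filter (fun x => x ∈ F p ∧ ¬ p ∣ c * x + d)).card : ℝ) / ((p : ℝ) - 1))]
    · exact h4
    · intro p hp
      rw [mem_filter] at hp
      obtain ⟨hpp, hp1, _⟩ := mpr p _ _ hp.1
      have h5 : e0 * L < Real.log p := lt_of_lt_of_le (by gcongr) hp1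
      have hwp := hbig p h5.le
      show ((H p).card : ℝ) / ((p : ℝ) - 1) = _
      rw [hH, HZ_eq hpp (hWn p hpp hwp)]
  have he0N : e0 < e1N := by
    have := min_le_left e1N e1P
    rw [he0]
    have h4 : 0 < min e1N e1P := by positivity
    linarith
  have he0P : e0 < e1P := by
    have := min_le_right e1N e1P
    rw [he0]
    have h4 : 0 < min e1N e1P := by positivity
    linarith
  have hmN := hcong2 e1N he0N etN (Mer_sub (min_le_left _ _) (min_le_left _ _) hMer)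
  have hmP := hcong2 e1P he0P etP (Mer_sub (min_le_right _ _) (min_le_right _ _) hMer)
  have hgood : Good T (c * W) (c * ν + d) w H (fun _ _ => False) := by
    rcases hT0N (c * W) (c * ν + d) w H _ hsit (by rw [← hY]; exact hmN) with ⟨χ, x1, x2, x3, x4⟩ | h
    · refine hT0P (c * W) (c * ν + d) w H _ hsit (by rw [← hY]; exact hmP) χ x1 x2 x3 (x4.trans ?_)
      gcongr
    · exact h
  obtain ⟨t, g0, g1, g2, g3, g4, g5, g6⟩ := hgood (G.image (fun n => (n - ν) / W)) (le_trans (by exact_mod_cast card_image_le) hG)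
  rw [← hY] at g4 g5 g6
  rw [hcong] at g1 g2 g3
  -- no divisor of the prime
  have hPp : ∀ p : ℕ, p.Prime → Real.log p ≤ T / 2 → ¬ p ∣ c * W * (t % p) + (c * ν + d) := by
    intro p hp hpT hd
    have h4 : p ∣ c * (W * t + ν) + d := by
      have h5 : p ∣ c * W * t + (c * ν + d) := tr_nat (Nat.mod_modEq t p) hd
      rwa [hcong] at h5
    have h5 := (Nat.prime_dvd_prime_iff_eq hp g1).1 h4
    have h6 : Real.log p ≤ Real.log (Real.exp (T / 2)) := by rw [Real.log_exp]; exact hpT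
    have h7 := (Real.log_le_log_iff (by exact_mod_cast hp.pos) (Real.exp_pos _)).1 h6
    rw [← h5] at g2
    linarith
  have hWν : ∀ p : ℕ, p.Prime → p ≤ w → W * t + ν ≡ ν [MOD p] := by
    intro p hp hpw
    have h5 : W * t + ν ≡ 0 + ν [MOD p] := Nat.ModEq.add_right _ ((Nat.modEq_zero_iff_dvd).2 ((hWd p hp hpw).mul_right _))
    rwa [zero_add] at h5
  have hdF : ∀ (p : ℕ), p.Prime → Real.log p ≤ T / 2 →
      (W * t + ν) % p ∈ F p → t % p ∈ H p := by
    intro p hp hpT hd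
    rw [hH, mem_HZ]
    refine ⟨Nat.mod_lt _ hp.pos, hPp p hp hpT, ?_⟩
    have h4 : W * t + ν ≡ W * (t % p) + ν [MOD p] := Nat.ModEq.add_right _ (Nat.ModEq.mul_left _ (Nat.mod_modEq t p).symm)
    have h5 : (W * t + ν) % p = (W * (t % p) + ν) % p := h4
    rwa [← h5]
  refine ⟨W * t + ν, ?_, g1, g2, g3, ?_, ?_⟩
  · intro hmem
    apply g0
    rw [mem_image]
    refine ⟨W * t + ν, hmem, ?_⟩
    rw [Nat.add_sub_cancel]
    exact Nat.mul_div_cancel_left t hWpos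
  · intro p hp hpL hd
    rw [← hY] at hpL
    rcases Nat.lt_or_ge w p with h | h
    · exact g4 p hp h hpL (hdF p hp (by have := (ttlt p _).1 hpL; linarith) hd)
    · have h4 : (W * t + ν) % p = ν % p := hWν p hp h
      rw [h4] at hd
      exact (hν p hp h).2 hd
  · rw [← hY]
    refine (card_le_card ?_).trans g5
    intro p hp
    rw [mem_filter] at hp ⊢
    refine ⟨hp.1, hdF p (mpr p _ _ hp.1).1 ?_ hp.2⟩
    have := (mpr p _ _ hp.1).2.2
    linarith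

theorem U6 : S_U6 := U6g NPW (PW (fun κ => SubE.plusAK (fun κ => AK κ) κ) (comps fund2) ratio)

end Pool.Agent.H536.OC
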